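import Pool.Agent.Run7.h359.La15

/-!
# The joint law for the twists by the numbers of the class and by the norms of the pairs of integers

The definitions for the statements.
-/

set_option autoImplicit false

open scoped Classical

namespace Run7.h359.Jnt

open Filter Topology
open Pool.Agent.Results.MP_787500_nt.AllWeightsMultiquadraticX49 (RankZeroShaTwo Ind add c)

/-- The class: `D = 1 mod 8` is squarefree, and all its prime factors are `1 mod 4`. -/
def Wide (D : ℕ) : Prop := Squarefree D ∧ D % 8 = 1 ∧ ∀ p : ℕ, p.Prime → p ∣ D → p % 4 = 1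

/-- The good pairs: all the numbers `N ∏_{i ∈ S} d_i` are, up to nonzero squares, numbers `D` of the
class such that `E_D(ℚ)` is finite and `Ш(E_D/ℚ)` has no element of order two. -/
def GoodPair (N : ℕ) {n : ℕ} (d : Fin n → ℕ) : Prop := ∀ S : Finset (Fin n), ∃ D k : ℕ,
  k ≠ 0 ∧ Wide D ∧ RankZeroShaTwo D ∧ N * ∏ i ∈ S, d i = D * k ^ 2

/-- The members of `T` are pairwise different modulo the `d_i` and squares: their twists are not
isomorphic over `ℚ(√d_1, …, √d_n)`. For `n = 0` this holds for all the squarefree numbers. -/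
def Separated {n : ℕ} (d : Fin n → ℕ) (T : Finset ℕ) : Prop :=
  ∀ M ∈ T, ∀ M' ∈ T, M ≠ M' → ∀ S : Finset (Fin n), ¬ IsSquare (M * M' * ∏ i ∈ S, d i)

/-- `V ⊆ T` is the set of the `M ∈ T` such that the pair `(M N, d)` is good. -/
def IsPattern {n : ℕ} (d : Fin n → ℕ) (T V : Finset ℕ) (N : ℕ) : Prop :=
  ∀ M ∈ T, (GoodPair (M * N) d ↔ M ∈ V)

/-- The probability of the pattern `V ⊆ T`, if the events are independent of probability `c ^ 2 ^ n`. -/
noncomputable def prob (n : ℕ) (T V : Finset ℕ) : ℝ :=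
  (c ^ 2 ^ n) ^ V.card * (1 - c ^ 2 ^ n) ^ (T.card - V.card)

/-- The property `P` holds for the proportion `δ` of the numbers `D` of the class. -/
def Proportion (δ : ℝ) (P : ℕ → Prop) : Prop := Tendsto (fun X : ℕ =>
  (((Finset.Icc 1 X).filter fun D => Wide D ∧ P D).card : ℝ) /
    (((Finset.Icc 1 X).filter fun D => Wide D).card : ℝ)) atTop (𝓝 δ)

/-- The number of the pairs `(a, b)` of integers with `a² + b² ≤ X` and with `P (a² + b²)`. -/
noncomputable def pairs (P : ℕ → Prop) (X : ℕ) : ℕ :=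
  Nat.card {v : ℤ × ℤ // v.1.natAbs ^ 2 + v.2.natAbs ^ 2 ≤ X ∧ P (v.1.natAbs ^ 2 + v.2.natAbs ^ 2)}

/-- `P (a² + b²)` holds for the proportion `δ` of all the pairs `(a, b)` of integers, ordered by
`a² + b²`. -/
def PairProportion (δ : ℝ) (P : ℕ → Prop) : Prop := Tendsto (fun X : ℕ =>
  (pairs P X : ℝ) / (pairs (fun _ => True) X : ℝ)) atTop (𝓝 δ)

theorem prop_of {δ : ℝ} {P Q : ℕ → Prop} (h : Run7.h359.LB.Prp δ P) (hPQ : ∀ D, P D ↔ Q D) :
    Proportion δ Q := by
  have e : P = Q := funext fun D => propext (hPQ D)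
  subst e
  exact h

theorem pair_of {δ : ℝ} {P Q : ℕ → Prop} (h : Run7.h359.LB.PrB δ P) (hPQ : ∀ D, P D ↔ Q D) :
    PairProportion δ Q := by
  have e : P = Q := funext fun D => propext (hPQ D)
  subst e
  exact h

/-- **The joint law.** -/
theorem joint {n : ℕ} {d : Fin n → ℕ} (hd : ∀ i, Wide (d i)) (hI : Ind d) {T V : Finset ℕ}
    (hT : ∀ M ∈ T, Wide M) (hsep : Separated d T) (hV : V ⊆ T) (P : ℕ → Prop)
    (hP : ∀ N : ℕ, GoodPair N d → P N) :
    Proportion (prob n T V) (fun N => IsPattern d T V N ∧ ∀ M ∈ V, P (M * N)) ∧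
    PairProportion (prob n T V / 4)
      (fun N => N % 8 = 1 ∧ IsPattern d T V N ∧ ∀ M ∈ V, P (M * N)) := by
  constructor
  · exact prop_of (Run7.h359.LB.prp_joint hd hI hT hsep hV) fun N =>
      ⟨fun h => ⟨h, fun M hM => hP _ ((h M (hV hM)).2 hM)⟩, fun h => h.1⟩
  · exact pair_of (Run7.h359.LB.prB_joint hd hI hT hsep hV) fun N =>
      ⟨fun h => ⟨h.1, h.2, fun M hM => hP _ ((h.2 M (hV hM)).2 hM)⟩, fun h => ⟨h.1, h.2.1⟩⟩

/-- different squarefree numbers are separated -/
theorem separated_nil {T : Finset ℕ} (hT : ∀ M ∈ T, Wide M) :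
    Separated (fun i : Fin 0 => i.elim0) T := by
  intro M hM M' hM' hne S hS
  have hS0 : S = ∅ := by
    ext i
    exact i.elim0
  rw [hS0, Finset.prod_empty, mul_one] at hS
  obtain ⟨r, hr⟩ := hS
  have h1 := (hT M hM).1
  have h2 := (hT M' hM').1
  have hr0 : 0 < r := by
    rcases Nat.eq_zero_or_pos r with h0 | h0
    · rw [h0, mul_zero] at hr
      exact absurd hr (mul_ne_zero h1.ne_zero h2.ne_zero)
    · exact h0
  apply hne
  refine Run7.h428.Inst.sq_unique (k := M') (k' := r) h1 h2 (Nat.pos_of_ne_zero h2.ne_zero) hr0 ?_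
  calc M * M' ^ 2 = M * M' * M' := by ring
    _ = r * r * M' := by rw [hr]
    _ = _ := by ring

theorem ind_nil : Ind (fun i : Fin 0 => i.elim0) := by
  rintro T ⟨i, -⟩
  exact i.elim0

/-- the size of the class -/
theorem size : ∃ (a : ℝ) (X₀ : ℕ), 0 < a ∧ ∀ X : ℕ, X₀ ≤ X →
    a * X / Real.sqrt (Real.log X) ≤ (((Finset.Icc 1 X).filter fun D => Wide D).card : ℝ) := by
  obtain ⟨a, X₀, ha, h⟩ := Run7.h359.CT.cnt
  refine ⟨a, X₀, ha, fun X hX => (h X hX).trans (Nat.cast_le.2 (Finset.card_le_card fun D hD => ?_))⟩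
  simp only [Finset.mem_filter] at hD ⊢
  exact ⟨hD.1, hD.2.1⟩

end Run7.h359.Jnt
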