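import Pool.Agent.Run7.h359.Gab

/-!
# The Selmer groups of all the characters, for the twists by `M` and by `-M`
-/

set_option autoImplicit false
set_option linter.unusedSectionVars false

namespace Run7.h359.GA

open Pool.Agent.Results.MP_787500_nt.AllWeightsMultiquadraticX49
open Pool.Agent.Results.MP_6e2fc3_nt.CMFormsAllWeights
open WeierstrassCurve Run7.h359.IV Run7.h359.WD
open scoped Classical

variable {w : QBar}

/-- the Tate module -/
theorem tate_of {D : OK} (hD : D ≠ 0) (hw : w ^ 2 = w - 2) :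
    ∃ κ κ' : Chr w, TateModule D κ κ' ∧ ∃ r I : QBar, Pool.Agent.R384.KD hw κ κ' D r I := by
  have h : Pool.Agent.R384.WD w (Pool.Agent.R384.em hw D) := ⟨hw, Pool.Agent.R384.em_ne hw hD⟩
  obtain ⟨r, hr⟩ : ∃ r : QBar, r ^ 2 = Pool.Agent.R384.em hw D :=
    IsAlgClosed.exists_pow_nat_eq _ (by norm_num)
  obtain ⟨I, hI⟩ : ∃ I : QBar, I ^ 2 = -1 := IsAlgClosed.exists_pow_nat_eq _ (by norm_num)
  have fx : ∀ σ : Gal w, Pool.Agent.R384.Fx w (Pool.Agent.R384.em hw D)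
      (Pool.Agent.R384.rh σ) := fun σ =>
    ⟨Pool.Agent.Y715.Gi.gk_fix σ, Pool.Agent.R384.gk_em hw σ D⟩
  obtain ⟨κ, κ', x, y, kd, hx, hy, ax, ay⟩ := Pool.Agent.R384.exists_kd hw hD h hr hI fx
  have td := Pool.Agent.R384.td h
  set T := tr (curve_eq hw (D := D)) with hT
  have hIr : (I * r) ^ 2 = Pool.Agent.R384.em hw (-D) := by rw [mul_pow, hI, hr, map_neg]; ring
  refine ⟨κ, κ', ⟨⟨fun n => T.symm (y n), fun n => T.symm (x n), ⟨?_, ?_, ?_, ?_⟩,
    ⟨Units.continuous_val.comp kd.cont, fun σ => ?_⟩,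
    ⟨Units.continuous_val.comp kd.cont', fun σ => ?_⟩⟩, ?_, ?_⟩, r, I, kd⟩
  · show T.symm (y 0) = 0 ∧ T.symm (x 0) = 0
    rw [hx.zero, hy.zero, map_zero]
    exact ⟨rfl, rfl⟩
  · intro n
    show T.symm (y (n + 1)) + T.symm (y (n + 1)) = T.symm (y n) ∧
      T.symm (x (n + 1)) + T.symm (x (n + 1)) = T.symm (x n)
    rw [← map_add, ← map_add, hx.dbl, hy.dbl]
    exact ⟨rfl, rfl⟩
  · intro n P hP
    have h1 : (2 ^ n : ℤ) • T P = 0 := by rw [← map_zsmul, hP, map_zero]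
    obtain ⟨a, b, hab⟩ := Pool.Agent.R384.Tow.basis td hx hy h1
    refine ⟨b, a, ?_⟩
    apply T.injective
    show T P = T (b • T.symm (y n) + a • T.symm (x n))
    rw [map_add, map_zsmul, map_zsmul, T.apply_symm_apply, T.apply_symm_apply, hab, add_comm]
  · intro n a b hab
    have h1 : T (a • T.symm (y n) + b • T.symm (x n)) = 0 := by
      show T ((fun n => a • T.symm (y n) + b • T.symm (x n)) n) = 0
      rw [show (fun n => a • T.symm (y n) + b • T.symm (x n)) n = 0 from hab, map_zero]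
    rw [map_add, map_zsmul, map_zsmul, T.apply_symm_apply, T.apply_symm_apply, add_comm] at h1
    exact (Pool.Agent.R384.Tow.uniq td hx hy h1).symm
  · intro n k hk
    show act σ (T.symm (y n)) = k • T.symm (y n)
    apply T.injective
    rw [hT, tr_act hw h fx σ, ← hT, T.apply_symm_apply, map_zsmul, T.apply_symm_apply]
    exact ay σ n k hk
  · intro n k hk
    show act σ (T.symm (x n)) = k • T.symm (x n)
    apply T.injective
    rw [hT, tr_act hw h fx σ, ← hT, T.apply_symm_apply, map_zsmul, T.apply_symm_apply]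
    exact ax σ n k hk
  · rintro p _ ι hn σ ⟨τ, hτ, hin⟩
    have h1 := kd.inert p ι τ σ hτ hin hn
    unfold zv
    rcases Pool.Agent.R384.rt_or hw hIr σ with h2 | h2
    · rw [h1.1 h2, Units.val_one, one_pow]
    · rw [h1.2 h2, Units.val_neg, Units.val_one, neg_one_sq]
  · rintro p _ ι hn σ ⟨τ, hτ, hin⟩
    have h1 := kd.inert' p ι τ σ hτ hin hn
    unfold zv
    rcases Pool.Agent.R384.rt_or hw hr σ with h2 | h2
    · rw [h1.1 h2, Units.val_one, one_pow]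
    · rw [h1.2 h2, Units.val_neg, Units.val_one, neg_one_sq]

/-- **The Selmer groups of the characters `κ ^ a κ' ^ b`.** -/
theorem sel_ab {M n : ℕ} {d : Fin n → ℕ} (hG : GoodW M d) (hw : w ^ 2 = w - 2) {D u : OK}
    (hu : (u = -1 ∧ D = tw M) ∨ (u = 1 ∧ D = -tw M)) {κ κ' : Chr w} {r I : QBar}
    (kd : Pool.Agent.R384.KD hw κ κ' D r I) {s : Fin n → QBar}
    (hs : ∀ i, s i ^ 2 = (d i : QBar)) {a b : ℤ} (hab : Odd (a + b))
    (hb : (Even b ∧ u = -1) ∨ (Odd b ∧ u = 1)) :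
    SelmerZero (1 - w) (GalL w s) (κ ^ a * κ' ^ b) ∧
      SelmerZero w (GalL w s) (κ ^ b * κ' ^ a) := by
  obtain ⟨hM0, hd0⟩ := good_ne' hG
  have hD : D ≠ 0 := by
    rcases hu with ⟨-, h⟩ | ⟨-, h⟩
    · rw [h]; exact tw_ne hM0
    · rw [h, Ne, neg_eq_zero]; exact tw_ne hM0
  have hom : Pool.Agent.R384.em hw Pool.Agent.R384.om = w := by
    rw [Pool.Agent.R384.em_apply]
    simp [Pool.Agent.R384.om]
  have hom' : Pool.Agent.R384.em hw (1 - Pool.Agent.R384.om) = 1 - w := by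
    rw [map_sub, map_one, hom]
  have hE : ∀ i, s i ^ 2 = Pool.Agent.R384.em hw (((d i : ℤ) : Pool.Agent.R384.OO)) := by
    intro i
    rw [hs i, map_intCast]
    push_cast
    rfl
  have hE0 : ∀ i, (((d i : ℤ) : Pool.Agent.R384.OO)) ≠ 0 := by
    intro i h1
    have h2 := congrArg QuadraticAlgebra.re h1
    simp at h2
    exact hd0 i h2
  have hgood : ∀ T : Finset (Fin n), ∃ (m : ℕ) (q : Fin m → Pool.Agent.R384.OO)
      (z : Pool.Agent.R384.OO), (∀ i, Pool.Agent.R384.Pr (q i)) ∧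
      Function.Injective q ∧ (8 : Pool.Agent.R384.OO) ∣ ∏ i, q i - 1 ∧
      Pool.Agent.R384.Indec7 q ∧ z ≠ 0 ∧
      D * ∏ i ∈ T, (((d i : ℤ) : Pool.Agent.R384.OO)) =
        u * (Pool.Agent.R384.s7 * ∏ i, q i) * z ^ 2 := by
    intro T
    obtain ⟨D', k, hk0, hA, hR, he⟩ := hG T
    obtain ⟨m, q, hpr, hinj, h8, hind, hprod⟩ := Run7.h359.WS.factorW hA.1 (fun p hp =>
      hA.2.2 p (Nat.prime_of_mem_primeFactors hp) (Nat.dvd_of_mem_primeFactors hp)) hA.2.1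
      (det_ne hA hR)
    refine ⟨m, q, ((k : ℤ) : Pool.Agent.R384.OO), hpr, hinj, h8, hind, ?_, ?_⟩
    · intro h1
      have h2 := congrArg QuadraticAlgebra.re h1
      simp at h2
      exact hk0 h2
    · have h1 : ((M : ℤ) : Pool.Agent.R384.OO) * ∏ i ∈ T, (((d i : ℤ) : Pool.Agent.R384.OO)) =
          ((D' : ℤ) : Pool.Agent.R384.OO) * ((k : ℤ) : Pool.Agent.R384.OO) ^ 2 := by
        have h2 : (M : ℤ) * ∏ i ∈ T, (d i : ℤ) = (D' : ℤ) * (k : ℤ) ^ 2 := by exact_mod_cast he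
        have h3 := congrArg (fun a : ℤ => (a : Pool.Agent.R384.OO)) h2
        simp only [Int.cast_mul, Int.cast_pow, Int.cast_prod] at h3
        exact h3
      rw [hprod]
      rcases hu with ⟨h4, h5⟩ | ⟨h4, h5⟩
      · rw [h4, h5, tw_eq]
        linear_combination (-Pool.Agent.R384.s7) * h1
      · rw [h4, h5, tw_eq]
        linear_combination (Pool.Agent.R384.s7) * h1
  have hu' : u = 1 ∨ u = -1 := by
    rcases hu with ⟨h, -⟩ | ⟨h, -⟩
    · exact Or.inr h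
    · exact Or.inl h
  have hba : Odd (b + a) := by rwa [add_comm]
  have ha : (Even b → Odd a) ∧ (Odd b → Even a) := by
    constructor
    · intro h
      rcases Int.even_or_odd a with h1 | h1
      · exact absurd (h1.add h) (Int.not_even_iff_odd.2 hab)
      · exact h1
    · intro h
      rcases Int.even_or_odd a with h1 | h1
      · exact h1
      · exact absurd (h1.add_odd h) (Int.not_even_iff_odd.2 hab)
  rw [galL_eq]
  constructor
  · refine selmer_of hw (vanish_mq_ab hw hE kd hD hE0 hu' hgood hab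
      (ϖ := 1 - Pool.Agent.R384.om) (ϖ' := Pool.Agent.R384.om) (Or.inr ⟨?_, rfl, rfl⟩)) hom'
    rcases hb with ⟨h1, h2⟩ | ⟨h1, h2⟩
    · exact Or.inl ⟨ha.1 h1, h2⟩
    · exact Or.inr ⟨ha.2 h1, h2⟩
  · refine selmer_of hw (vanish_mq_ab hw hE kd hD hE0 hu' hgood hba
      (ϖ := Pool.Agent.R384.om) (ϖ' := 1 - Pool.Agent.R384.om) (Or.inl ⟨?_, rfl, rfl⟩)) hom
    rcases hb with ⟨h1, h2⟩ | ⟨h1, h2⟩
    · exact Or.inr ⟨h1, h2⟩
    · exact Or.inl ⟨h1, h2⟩

/-- the isomorphism for the twist by `-M` -/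
lemma neg_iso (hw : w ^ 2 = w - 2) (D : ℕ) :
    Iso ((⟨1, (3 * (D : ℚ) - 1) / 4, 0, -2 * (D : ℚ) ^ 2, (D : ℚ) ^ 3⟩ : WeierstrassCurve ℚ).map
      (algebraMap ℚ (K w))) (ED w (-tw D)) := by
  have hg := gen_sq.2 hw
  have hemb : (emb (gen w) (-tw D) : K w) = (-(D : K w)) - 2 * (-(D : K w)) * gen w := by
    unfold emb tw
    simp only [QuadraticAlgebra.re_neg, QuadraticAlgebra.im_neg]
    push_cast
    ring
  refine ⟨_, Eq.trans (congrArg _ ?_) ((gen_iso (d := -(D : K w)) hg).trans ?_)⟩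
  · unfold WeierstrassCurve.map
    congr 1
    · simp only [map_div₀, map_sub, map_mul, map_natCast, map_one, map_ofNat]
      ring
    · simp
    · simp
    · simp only [map_pow, map_natCast]
      ring
  · unfold ED curve
    rw [hemb]

/-- the characters are not trivial -/
lemma ab_ne (hw : w ^ 2 = w - 2) {M n : ℕ} {d : Fin n → ℕ} (hM : M ≠ 0) (hd : ∀ i, d i ≠ 0)
    {D : OK} (hD : D = tw M ∨ D = -tw M)
    {κ κ' : Chr w} {r I : QBar} (kd : Pool.Agent.R384.KD hw κ κ' D r I)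
    {s : Fin n → QBar} (hs : ∀ i, s i ^ 2 = (d i : QBar)) {a b : ℤ} (hab : Odd (a + b)) :
    ∃ σ ∈ GalL w s, qv (κ ^ a * κ' ^ b) σ ≠ 1 := by
  obtain ⟨m, z, hm, hz⟩ := chiD_ab hw kd hab
  have hem : Pool.Agent.R384.em hw (tw M) = -((2 * w - 1) * M) := by
    rw [Pool.Agent.R384.em_apply]
    unfold tw
    push_cast
    ring
  have hm' : m = tw M ∨ m = -tw M := by
    rcases hm with ⟨-, h⟩ | ⟨-, h⟩ <;> rcases hD with h' | h'
    · exact Or.inl (h.trans h')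
    · exact Or.inr (h.trans h')
    · exact Or.inr (by rw [h, h'])
    · exact Or.inl (by rw [h, h', neg_neg])
  have hz2 : ∃ ε : ℚ, ε ^ 2 = 1 ∧ z ^ 2 = ε * (2 * w - 1) * M := by
    rcases hm' with rfl | rfl
    · refine ⟨-1, by norm_num, ?_⟩
      rw [hz.hr, hem]
      push_cast
      ring
    · refine ⟨1, by norm_num, ?_⟩
      rw [hz.hr, map_neg, hem]
      push_cast
      ring
  obtain ⟨ε, hε, hz3⟩ := hz2
  obtain ⟨σ, h1, h2⟩ := exists_flip hw hM hd hs hε hz3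
  refine ⟨σ, h1, fun h => ?_⟩
  have h3 := hz.neg σ h2
  have h4 : ((κ ^ a * κ' ^ b : Chr w) σ : ℤ_[2]) = 1 := by
    apply Subtype.ext
    exact h
  rw [h4] at h3
  have h5 : (1 : ℤ_[2]) + 1 = 2 := by norm_num
  rw [h5] at h3
  have h6 := Pool.Agent.R384.norm_of_four h3
  have h7 : ‖(((2 : ℤ_[2])) : ℚ_[2])‖ = 1 / 2 := by
    have h8 := Padic.norm_p (p := 2)
    have h9 : (((2 : ℤ_[2])) : ℚ_[2]) = ((2 : ℕ) : ℚ_[2]) := rfl
    rw [h9, h8]
    norm_num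
  rw [h7] at h6
  norm_num at h6

/-- the even weights, twist by `-M` -/
theorem neg_ofW {M n : ℕ} {d : Fin n → ℕ} (hG : GoodW M d) (hw : w ^ 2 = w - 2) :
    Iso ((⟨1, (3 * (M : ℚ) - 1) / 4, 0, -2 * (M : ℚ) ^ 2, (M : ℚ) ^ 3⟩ : WeierstrassCurve ℚ).map
      (algebraMap ℚ (K w))) (ED w (-tw M)) ∧ (ED w (-tw M)).IsElliptic ∧
    ∃ κ κ' : Chr w, TateModule (-tw M) κ κ' ∧
      ∀ s : Fin n → QBar, (∀ i, s i ^ 2 = (d i : QBar)) →
        (∀ a b : ℤ, Even a → Odd b → SelmerZero (1 - w) (GalL w s) (κ ^ a * κ' ^ b) ∧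
          SelmerZero w (GalL w s) (κ ^ b * κ' ^ a)) ∧
        ∀ a b : ℤ, Odd (a + b) → ∃ σ ∈ GalL w s, qv (κ ^ a * κ' ^ b) σ ≠ 1 := by
  obtain ⟨hM0, hd0⟩ := good_ne' hG
  have hD : -tw M ≠ 0 := by
    rw [Ne, neg_eq_zero]
    exact tw_ne hM0
  obtain ⟨κ, κ', h1, r, I, kd⟩ := tate_of hD hw
  exact ⟨neg_iso hw M, elliptic hD hw, κ, κ', h1, fun s hs =>
    ⟨fun a b ha hb => sel_ab hG hw (Or.inr ⟨rfl, rfl⟩) kd hs (ha.add_odd hb) (Or.inr ⟨hb, rfl⟩),
      fun a b hab => ab_ne hw hM0 hd0 (Or.inr rfl) kd hs hab⟩⟩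

/-- all the characters, twist by `M` -/
theorem pos_ofW {M n : ℕ} {d : Fin n → ℕ} (hG : GoodW M d) (hw : w ^ 2 = w - 2) :
    Iso (EK w M) (ED w (tw M)) ∧ (ED w (tw M)).IsElliptic ∧
    ∃ κ κ' : Chr w, TateModule (tw M) κ κ' ∧
      ∀ s : Fin n → QBar, (∀ i, s i ^ 2 = (d i : QBar)) →
        (∀ a b : ℤ, Odd a → Even b → SelmerZero (1 - w) (GalL w s) (κ ^ a * κ' ^ b) ∧
          SelmerZero w (GalL w s) (κ ^ b * κ' ^ a)) ∧
        ∀ a b : ℤ, Odd (a + b) → ∃ σ ∈ GalL w s, qv (κ ^ a * κ' ^ b) σ ≠ 1 := by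
  obtain ⟨hM0, hd0⟩ := good_ne' hG
  have hD := tw_ne hM0
  obtain ⟨κ, κ', h1, r, I, kd⟩ := tate_of hD hw
  exact ⟨tw_iso hw M, elliptic hD hw, κ, κ', h1, fun s hs =>
    ⟨fun a b ha hb => sel_ab hG hw (Or.inl ⟨rfl, rfl⟩) kd hs (ha.add_even hb) (Or.inl ⟨hb, rfl⟩),
      fun a b hab => ab_ne hw hM0 hd0 (Or.inl rfl) kd hs hab⟩⟩

end Run7.h359.GA
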