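import Pool.Agent.Run7.h359.La12

/-!
# The proportions in terms of the numbers and of the pairs of integers
-/

set_option autoImplicit false

open scoped Classical symmDiff

namespace Run7.h359.LB

open Finset Filter Topology
open Run7.h428.MixG Run7.h428.UniG
open Run7.h428.WM (num num_eq num_univ)
open Run7.h238.Pairs
open Pool.Agent.Y703.CQ (c2)
open Pool.Agent.Results.MP_787500_nt.AllWeightsMultiquadraticX49 (Ind add)
open Run7.h359.WD (W8 GoodW)
open Run7.h359.CW (good_add ind_add)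

/-- the property `P` holds for the proportion `δ` of the numbers of the class -/
def Prp (δ : ℝ) (P : ℕ → Prop) : Prop := Tendsto (fun X : ℕ =>
  (((Icc 1 X).filter fun D => W8 D ∧ P D).card : ℝ) / (((Icc 1 X).filter fun D => W8 D).card : ℝ))
    atTop (𝓝 δ)

theorem prp_cn {δ : ℝ} {P : ℕ → Prop}
    (h : Tendsto (fun X : ℕ => cn (CW8 X) {D | P D} / ((CW8 X).card : ℝ)) atTop (𝓝 δ)) :
    Prp δ P := by
  refine h.congr fun X => ?_
  unfold cn CW8
  rw [filter_filter]
  congr 3

/-- two properties which differ for finitely many numbers -/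
theorem prp_fin {δ : ℝ} {P Q : ℕ → Prop} (h : Prp δ P) (B : Finset ℕ)
    (hPQ : ∀ D, W8 D → D ∉ B → (P D ↔ Q D)) : Prp δ Q := by
  have h1 : Tendsto (fun X : ℕ => (B.card : ℝ) / ((CW8 X).card : ℝ)) atTop (𝓝 0) :=
    Tendsto.div_atTop tendsto_const_nhds inf_CW8
  have key : ∀ (P Q : ℕ → Prop), (∀ D, W8 D → D ∉ B → (P D ↔ Q D)) → ∀ X : ℕ,
      (((Icc 1 X).filter fun D => W8 D ∧ P D).card : ℝ) ≤
      (((Icc 1 X).filter fun D => W8 D ∧ Q D).card : ℝ) + B.card := by
    intro P Q hPQ X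
    have : ((Icc 1 X).filter fun D => W8 D ∧ P D).card ≤
        ((Icc 1 X).filter fun D => W8 D ∧ Q D).card + B.card := by
      refine (card_le_card fun D hD => ?_).trans (card_union_le _ _)
      simp only [mem_filter, mem_union] at hD ⊢
      by_cases hB : D ∈ B
      · exact Or.inr hB
      · exact Or.inl ⟨hD.1, hD.2.1, (hPQ D hD.2.1 hB).1 hD.2.2⟩
    exact_mod_cast this
  have h2 : Tendsto (fun X : ℕ => (((Icc 1 X).filter fun D => W8 D ∧ Q D).card : ℝ) /
      (((Icc 1 X).filter fun D => W8 D).card : ℝ) -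
      (((Icc 1 X).filter fun D => W8 D ∧ P D).card : ℝ) /
      (((Icc 1 X).filter fun D => W8 D).card : ℝ)) atTop (𝓝 0) := by
    refine squeeze_zero_norm (fun X => ?_) h1
    rw [← sub_div, norm_div, Real.norm_natCast]
    refine div_le_div_of_nonneg_right ?_ (Nat.cast_nonneg _)
    rw [Real.norm_eq_abs, abs_le]
    have a1 := key P Q hPQ X
    have a2 := key Q P (fun D h1 h2 => (hPQ D h1 h2).symm) X
    constructor <;> linarith
  have h3 := h2.add h
  rw [zero_add] at h3
  refine h3.congr fun X => ?_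
  ring

/-- the exact proportion of the good twists -/
theorem prp_good {n M : ℕ} {d : Fin n → ℕ} (hM : W8 M) (hd : ∀ i, W8 (d i)) (hI : Ind d) :
    Prp (c2 ^ 2 ^ n) fun D => GoodW (M * D) d :=
  prp_cn (goodD hM hd hI)

theorem good_of_add {n M D : ℕ} {d : Fin n → ℕ} (h : GoodW M (add d D)) : GoodW (M * D) d := by
  intro T
  obtain ⟨D', k, h1, h2, h3, h4⟩ := h (insert (Fin.last n) (T.image Fin.castSucc))
  refine ⟨D', k, h1, h2, h3, ?_⟩
  rw [← h4, Finset.prod_insert, Finset.prod_image (fun a _ b _ h => Fin.castSucc_injective n h)]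
  · have e1 : add d D (Fin.last n) = D := by simp [add]
    have e2 : ∏ i ∈ T, add d D (Fin.castSucc i) = ∏ i ∈ T, d i := by
      refine Finset.prod_congr rfl fun i _ => ?_
      simp [add]
    rw [e1, e2]
    ring
  · intro h5
    obtain ⟨i, -, hi⟩ := Finset.mem_image.1 h5
    exact Fin.castSucc_ne_last i hi

/-- the exact proportion of the quadratic extensions -/
theorem prp_add {n M : ℕ} {d : Fin n → ℕ} (hM : W8 M) (hd : ∀ i, W8 (d i)) (hI : Ind d)
    (hG : GoodW M d) : Prp (c2 ^ 2 ^ n) fun D => Ind (add d D) ∧ GoodW M (add d D) := by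
  obtain ⟨B, hB⟩ := ind_add hd hI
  refine prp_fin (prp_good hM hd hI) B fun D hD hDB => ?_
  exact ⟨fun h => ⟨hB D hD.1 hDB, good_add hG h⟩, fun h => good_of_add h.2⟩

/-- the number of the pairs of integers -/
noncomputable def prs (P : ℕ → Prop) (X : ℕ) : ℕ :=
  Nat.card {v : ℤ × ℤ // v.1.natAbs ^ 2 + v.2.natAbs ^ 2 ≤ X ∧ P (v.1.natAbs ^ 2 + v.2.natAbs ^ 2)}

theorem prs_eq (P : ℕ → Prop) (X : ℕ) : prs P X = ((Bx X).filter fun v => P (nm v)).card := by
  have h := num_eq {v | P (nm v)} X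
  have e : prs P X = num {v | P (nm v)} X := rfl
  rw [e, h]
  congr 1

theorem prs_true (X : ℕ) : prs (fun _ => True) X = (Bx X).card := by
  rw [prs_eq]
  congr 1
  ext v
  simp only [mem_filter, and_true]

/-- the property `P` holds for the proportion `δ` of the pairs of integers -/
def PrB (δ : ℝ) (P : ℕ → Prop) : Prop := Tendsto (fun X : ℕ =>
  (prs P X : ℝ) / (prs (fun _ => True) X : ℝ)) atTop (𝓝 δ)

theorem prB_cn {δ : ℝ} {P : ℕ → Prop}
    (h : Tendsto (fun X : ℕ => cn (Bm 1 X) {v | P (nm v)} / ((Bm 1 X).card : ℝ)) atTop (𝓝 δ)) :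
    PrB (δ / 4) fun N => N % 8 = 1 ∧ P N := by
  have h1 := to_allB h
  have e : 1 / 4 * δ = δ / 4 := by ring
  rw [e] at h1
  refine h1.congr fun X => ?_
  rw [prs_eq, prs_true]
  unfold cn Bm
  rw [filter_filter]
  congr 3
  ext v
  simp only [mem_filter, Set.mem_ofPred_eq]

/-- **the exact proportion of the lattice points** -/
theorem prB_good {n M : ℕ} {d : Fin n → ℕ} (hM : W8 M) (hd : ∀ i, W8 (d i)) (hI : Ind d) :
    PrB (c2 ^ 2 ^ n / 4) fun N => N % 8 = 1 ∧ GoodW (M * N) d :=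
  prB_cn (goodB hM hd hI)

/-- the proportion of the lattice points of norm `1` modulo `8` -/
theorem prB_one : PrB (1 / 4) fun N => N % 8 = 1 := by
  refine one_dens.congr fun X => ?_
  rw [prs_eq, prs_true]
  unfold Bm
  congr!

end Run7.h359.LB
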