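import Pool.Agent.Run7.h359.Cw

/-!
# Infinite towers, wide class
-/

set_option autoImplicit false

namespace Run7.h359.TW

open Pool.Agent.Results.MP_787500_nt.AllWeightsMultiquadraticX49 (RankZeroShaTwo Ind add)
open Run7.h359.WD (W8 GoodW)
open scoped Classical

lemma exists_next {n M : ℕ} {d : Fin n → ℕ} (hM : W8 M) (hd : ∀ i, W8 (d i)) (hI : Ind d)
    (hG : GoodW M d) : ∃ D : ℕ, W8 D ∧ Ind (add d D) ∧ GoodW M (add d D) := by
  obtain ⟨a, X₀, ha, h⟩ := Run7.h359.CW.cnt_add hM hd hI hG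
  have h1 := h (max X₀ 3) (le_max_left _ _)
  have hX : (1 : ℝ) < ((max X₀ 3 : ℕ) : ℝ) := by
    have : 3 ≤ max X₀ 3 := le_max_right _ _
    exact_mod_cast (by omega : 1 < max X₀ 3)
  have h2 : 0 < a * ((max X₀ 3 : ℕ) : ℝ) / Real.sqrt (Real.log ((max X₀ 3 : ℕ) : ℝ)) := by
    have := Real.log_pos hX
    have h3 := Real.sqrt_pos.2 this
    positivity
  have h3 := lt_of_lt_of_le h2 h1
  have h4 : 0 < ((Finset.Icc 1 (max X₀ 3)).filter fun D =>
      W8 D ∧ Ind (add d D) ∧ GoodW M (add d D)).card := by exact_mod_cast h3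
  obtain ⟨D, hD⟩ := Finset.card_pos.1 h4
  exact ⟨D, (Finset.mem_filter.1 hD).2⟩

/-- the next member -/
noncomputable def next (M n : ℕ) (d : Fin n → ℕ) : ℕ :=
  if h : ∃ D : ℕ, W8 D ∧ Ind (add d D) ∧ GoodW M (add d D) then h.choose else 1

/-- the sequence -/
noncomputable def tower (M : ℕ) : ℕ → ℕ := fun n => next M n fun i : Fin n => tower M i
termination_by n => n
decreasing_by exact i.2

lemma tower_eq (M n : ℕ) : tower M n = next M n fun i : Fin n => tower M i := by
  rw [tower]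

lemma tower_snoc (M n : ℕ) : (fun i : Fin (n + 1) => tower M i) =
    add (fun i : Fin n => tower M i) (tower M n) := by
  funext i
  refine Fin.lastCases ?_ (fun i => ?_) i
  · simp [add]
  · simp [add]

lemma tower_spec {M : ℕ} (hM : W8 M) (hR : RankZeroShaTwo M) (n : ℕ) :
    (∀ i : Fin n, W8 (tower M i)) ∧ Ind (fun i : Fin n => tower M i) ∧
      GoodW M (fun i : Fin n => tower M i) := by
  induction n with
  | zero =>
    refine ⟨fun i => i.elim0, fun T hT => ?_, fun T => ⟨M, 1, one_ne_zero, hM, hR, ?_⟩⟩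
    · obtain ⟨i, _⟩ := hT
      exact i.elim0
    · have hT : T = ∅ := by
        ext i
        exact i.elim0
      rw [hT, Finset.prod_empty]
      ring
  | succ n ih =>
    have h := exists_next hM ih.1 ih.2.1 ih.2.2
    have hs : tower M n = h.choose := by
      rw [tower_eq, next, dif_pos h]
    obtain ⟨h1, h2, h3⟩ := h.choose_spec
    rw [← hs] at h1 h2 h3
    rw [← tower_snoc] at h2 h3
    refine ⟨fun i => ?_, h2, h3⟩
    refine Fin.lastCases ?_ (fun i => ?_) i
    · simpa using h1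
    · simpa using ih.1 i

theorem exists_tower {M : ℕ} (hM : W8 M) (hR : RankZeroShaTwo M) :
    ∃ D : ℕ → ℕ, (∀ i, W8 (D i)) ∧
      ∀ n : ℕ, Ind (fun i : Fin n => D i) ∧ GoodW M (fun i : Fin n => D i) := by
  refine ⟨tower M, fun i => ?_, fun n => (tower_spec hM hR n).2⟩
  have h := (tower_spec hM hR (i + 1)).1 (Fin.last i)
  simpa using h

end Run7.h359.TW
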