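import Pool.Agent.Results.MP_787500_nt.AllWeightsMultiquadraticX49
import Pool.Agent.Results.MP_6e2fc3_nt.CMFormsAllWeights
import Mathlib.FieldTheory.Galois.Infinite

/-!
# The invariants of the Galois representations
-/

set_option autoImplicit false

namespace Run7.h359.IV

open Pool.Agent.Results.MP_787500_nt.AllWeightsMultiquadraticX49
open Pool.Agent.Results.MP_6e2fc3_nt.CMFormsAllWeights
open WeierstrassCurve
open scoped Classical

variable {w : QBar}

/-- an element that fixes the square roots `s i` and changes the sign of `z` -/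
lemma flip_ind {n : ℕ} (s : Fin n → QBar) (hs0 : ∀ i, s i ≠ 0)
    (hs : ∀ i, ∀ σ : Gal w, σ (s i) = s i ∨ σ (s i) = -(s i)) (S : Finset (Fin n)) :
    ∀ z : QBar, z ≠ 0 → (∀ σ : Gal w, σ z = z ∨ σ z = -z) →
      (∀ T ⊆ S, ∃ σ : Gal w, σ (z * ∏ i ∈ T, s i) ≠ z * ∏ i ∈ T, s i) →
      ∃ σ : Gal w, (∀ i ∈ S, σ (s i) = s i) ∧ σ z = -z := by
  induction S using Finset.induction_on with
  | empty =>
    intro z _ hz h
    obtain ⟨σ, hσ⟩ := h ∅ (Finset.Subset.refl _)
    rw [Finset.prod_empty, mul_one] at hσ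
    exact ⟨σ, by simp, (hz σ).resolve_left hσ⟩
  | insert a S ha ih =>
    intro z hz0 hz h
    obtain ⟨σ, h1, h2⟩ := ih z hz0 hz fun T hT => h T (hT.trans (Finset.subset_insert _ _))
    rcases hs a σ with h3 | h3
    · refine ⟨σ, fun i hi => ?_, h2⟩
      rcases Finset.mem_insert.1 hi with rfl | hi
      · exact h3
      · exact h1 i hi
    · obtain ⟨τ, t1, t2⟩ := ih (z * s a) (mul_ne_zero hz0 (hs0 a)) (fun τ => by
          rw [map_mul]
          rcases hz τ with h4 | h4 <;> rcases hs a τ with h5 | h5 <;> rw [h4, h5]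
          · exact Or.inl rfl
          · right; ring
          · right; ring
          · left; ring) (fun T hT => by
          obtain ⟨τ, hτ⟩ := h (insert a T) (Finset.insert_subset_insert _ hT)
          rw [Finset.prod_insert (fun h => ha (hT h)), ← mul_assoc] at hτ
          exact ⟨τ, hτ⟩)
      rw [map_mul] at t2
      rcases hz τ with h4 | h4
      · have h5 : τ (s a) = -(s a) := by
          rw [h4] at t2
          have h6 : z * (τ (s a) + s a) = 0 := by linear_combination t2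
          exact eq_neg_of_add_eq_zero_left ((mul_eq_zero.1 h6).resolve_left hz0)
        refine ⟨σ * τ, fun i hi => ?_, ?_⟩
        · rw [AlgEquiv.mul_apply]
          rcases Finset.mem_insert.1 hi with rfl | hi
          · rw [h5, map_neg, h3, neg_neg]
          · rw [t1 i hi, h1 i hi]
        · rw [AlgEquiv.mul_apply, h4, h2]
      · have h5 : τ (s a) = s a := by
          rw [h4] at t2
          have h6 : z * (τ (s a) - s a) = 0 := by linear_combination -t2
          exact sub_eq_zero.1 ((mul_eq_zero.1 h6).resolve_left hz0)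
        refine ⟨τ, fun i hi => ?_, h4⟩
        rcases Finset.mem_insert.1 hi with rfl | hi
        · exact h5
        · exact t1 i hi

/-- no number fixed by the Galois group has the square `± √-7 N` -/
lemma not_fixed (hw : w ^ 2 = w - 2) {N : ℕ} (hN : N ≠ 0) {ε : ℚ} (hε : ε ^ 2 = 1) {z : QBar}
    (hz : z ^ 2 = ε * (2 * w - 1) * N) : ∃ σ : Gal w, σ z ≠ z := by
  by_contra hcon
  push Not at hcon
  have h1 : z ∈ (⊥ : IntermediateField (K w) QBar) := (InfiniteGalois.mem_bot_iff_fixed z).2 hcon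
  rw [IntermediateField.mem_bot] at h1
  obtain ⟨y, hy⟩ := h1
  obtain ⟨a, b, hab⟩ := Pool.Agent.R384.KK_ex hw (x := z) (by
    rw [← hy]
    exact y.2)
  have hlin : ∀ c e : ℚ, (c : QBar) + e * w = 0 → c = 0 ∧ e = 0 := by
    intro c e h
    have he : e = 0 := by
      by_contra he
      have he' : (e : QBar) ≠ 0 := by exact_mod_cast he
      have h2 : w = ((-c / e : ℚ) : QBar) := by
        push_cast
        field_simp
        linear_combination h
      have h3 : (((-c / e) ^ 2 : ℚ) : QBar) = (((-c / e) - 2 : ℚ) : QBar) := by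
        push_cast
        push_cast at h2
        rw [← h2]
        exact hw
      have h4 : (-c / e) ^ 2 = (-c / e) - 2 := by exact_mod_cast h3
      nlinarith [sq_nonneg (2 * (-c / e) - 1)]
    rw [he, Rat.cast_zero, zero_mul, add_zero] at h
    exact ⟨by exact_mod_cast h, he⟩
  have h2 := hlin (a ^ 2 - 2 * b ^ 2 + ε * N) (2 * a * b + b ^ 2 - 2 * ε * N) (by
    push_cast
    rw [hab] at hz
    linear_combination hz - (b : QBar) ^ 2 * hw)
  obtain ⟨h3, h4⟩ := h2
  have h5 : (2 * a + b) ^ 2 = 7 * b ^ 2 := by linear_combination 4 * h3 + 2 * h4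
  have hb : b = 0 := by
    by_contra hb
    have h6 : ((2 * a + b) / b) ^ 2 = 7 := by
      rw [div_pow, h5]
      field_simp
    have h7 : Irrational (Real.sqrt 7) := by
      have := Nat.Prime.irrational_sqrt (p := 7) (by norm_num)
      exact_mod_cast this
    apply h7
    refine ⟨|(2 * a + b) / b|, ?_⟩
    have h8 : ((|(2 * a + b) / b| : ℚ) : ℝ) = |(((2 * a + b) / b : ℚ) : ℝ)| := by push_cast; rfl
    rw [h8, ← Real.sqrt_sq_eq_abs]
    congr 1
    exact_mod_cast h6
  rw [hb] at h3 h4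
  have h9 : ε * N = 0 := by linear_combination (-1 / 2 : ℚ) * h4
  rcases mul_eq_zero.1 h9 with h | h
  · rw [h] at hε
    norm_num at hε
  · exact hN (by exact_mod_cast h)

/-- an element of the Galois group of `L` that changes the sign of `z` -/
lemma exists_flip (hw : w ^ 2 = w - 2) {M n : ℕ} {d : Fin n → ℕ} (hM : M ≠ 0) (hd : ∀ i, d i ≠ 0)
    {s : Fin n → QBar} (hs : ∀ i, s i ^ 2 = (d i : QBar)) {ε : ℚ} (hε : ε ^ 2 = 1) {z : QBar}
    (hz : z ^ 2 = ε * (2 * w - 1) * M) : ∃ σ ∈ GalL w s, σ z = -z := by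
  have hsq : ∀ (y : QBar) (σ : Gal w), σ (y ^ 2) = y ^ 2 → σ y = y ∨ σ y = -y := by
    intro y σ h
    rw [map_pow] at h
    exact sq_eq_sq_iff_eq_or_eq_neg.1 h
  have hσw : ∀ σ : Gal w, σ w = w := fun σ =>
    σ.commutes ⟨w, IntermediateField.mem_adjoin_simple_self ℚ w⟩
  have hw0 : (2 * w - 1) ^ 2 = -7 := by linear_combination 4 * hw
  have hz0 : z ≠ 0 := by
    rintro rfl
    have h1 : (ε * (2 * w - 1) * M) ^ 2 = 0 := by rw [← hz]; ring
    have h2 : ((ε : QBar)) ^ 2 = 1 := by exact_mod_cast hε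
    rw [mul_pow, mul_pow, h2, hw0, one_mul] at h1
    have h3 : (M : QBar) ^ 2 = 0 := by linear_combination (-1 / 7 : QBar) * h1
    exact hM (by exact_mod_cast pow_eq_zero_iff (two_ne_zero) |>.1 h3)
  obtain ⟨σ, h1, h2⟩ := flip_ind (w := w) s (fun i h => by
      have h1 := hs i
      rw [h] at h1
      have h2 : ((d i : ℕ) : QBar) = 0 := by rw [← h1]; ring
      exact hd i (by exact_mod_cast h2)) (fun i σ => hsq _ σ (by rw [hs, map_natCast]))
    Finset.univ z hz0 (fun σ => hsq _ σ (by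
      rw [hz]
      simp only [map_mul, map_sub, map_one, map_natCast, map_ofNat, hσw, map_ratCast]))
    (fun T _ => not_fixed hw (N := M * ∏ i ∈ T, d i) (mul_ne_zero hM
      (Finset.prod_ne_zero_iff.2 fun i _ => hd i)) hε (by
        rw [mul_pow, hz, ← Finset.prod_pow]
        have e : ∏ i ∈ T, s i ^ 2 = ((∏ i ∈ T, d i : ℕ) : QBar) := by
          push_cast
          exact Finset.prod_congr rfl fun i _ => hs i
        rw [e]
        push_cast
        ring))
  exact ⟨σ, mem_GalL.2 fun i => h1 i (Finset.mem_univ i), h2⟩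

/-- The representation `ℚ_2(χ)` has no nonzero vector fixed by the Galois group of `L`. -/
def NoInvL {w : QBar} {n : ℕ} (s : Fin n → QBar) (χ : Chr w) : Prop :=
  ∀ y : ℚ_[2], (∀ σ ∈ GalL w s, qv χ σ * y = y) → y = 0

/-- The representation `Ind χ` has no nonzero vector fixed by the Galois group of `F`. -/
def NoInvF {w : QBar} {n : ℕ} (s : Fin n → QBar) (χ : Chr w) (c₀ : GQ) : Prop :=
  ∀ y : ℚ_[2] × ℚ_[2], (∀ σ ∈ GF s, ind χ c₀ σ y = y) → y = 0

lemma noInvL_of {n : ℕ} {s : Fin n → QBar} {χ : Chr w} (h : ∃ σ ∈ GalL w s, qv χ σ ≠ 1) :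
    NoInvL s χ := by
  obtain ⟨σ, h1, h2⟩ := h
  intro y hy
  have h3 := hy σ h1
  have h4 : (qv χ σ - 1) * y = 0 := by rw [sub_mul, h3, one_mul, sub_self]
  exact (mul_eq_zero.1 h4).resolve_left (sub_ne_zero.2 h2)

lemma noInvF_of {n : ℕ} {d : Fin n → ℕ} {s : Fin n → QBar}
    (hs : ∀ i, s i ^ 2 = (d i : QBar)) {c₀ : GQ} (hc₀ : c₀ w = 1 - w) {χ : Chr w}
    (h : ∃ σ ∈ GalL w s, qv χ σ ≠ 1) : NoInvF s χ c₀ := by
  obtain ⟨σ, h1, h2⟩ := h
  intro y hy
  have h3 := hy _ (rs_mem h1)
  have h4 := hy _ (conj_mem hs (rs_mem h1) c₀)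
  unfold ind at h3 h4
  rw [if_pos (rs_w σ)] at h3
  rw [if_pos (conj_w' hc₀ (rs_w σ)), show c₀ * (c₀⁻¹ * Pool.Agent.R384.rs w σ * c₀) * c₀⁻¹ =
    Pool.Agent.R384.rs w σ by group] at h4
  have h5 := congrArg Prod.fst h3
  have h6 := congrArg Prod.snd h4
  simp only at h5 h6
  unfold val at h5 h6
  rw [up_rs] at h5 h6
  have h7 : (qv χ σ - 1) * y.1 = 0 := by rw [sub_mul, h5, one_mul, sub_self]
  have h8 : (qv χ σ - 1) * y.2 = 0 := by rw [sub_mul, h6, one_mul, sub_self]
  ext
  · exact (mul_eq_zero.1 h7).resolve_left (sub_ne_zero.2 h2)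
  · exact (mul_eq_zero.1 h8).resolve_left (sub_ne_zero.2 h2)

end Run7.h359.IV
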