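import Pool.Agent.R384.Curve

/-! # The twists of `X_0(49)`: conjugate points and `[√-7]`; eigenspaces -/

set_option autoImplicit false
set_option linter.unusedSectionVars false

namespace Run7.h359.MW

open WeierstrassCurve Pool.Agent.Y676.IS Pool.Agent.R384 Polynomial

section fin

variable {F : Type} [Field F] [CharZero F] {a b w m : F}

lemma fin_sqrt (c : F) : {y : F | y ^ 2 = c}.Finite := by
  by_cases h : ∃ y0 : F, y0 ^ 2 = c
  · obtain ⟨y0, h0⟩ := h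
    exact Set.Finite.subset (Set.toFinite {y0, -y0}) fun y hy =>
      sq_eq_sq_iff_eq_or_eq_neg.1 (hy.trans h0.symm)
  · exact Set.Finite.subset Set.finite_empty fun y hy => h ⟨y, hy⟩

/-- finite sets of points -/
lemma fin_of {W : Affine F} {Z : Set (F × F)} (hZ : Z.Finite) {S : Set W.Point}
    (h : ∀ (x y : F) (hxy : W.Nonsingular x y), Affine.Point.some x y hxy ∈ S → (x, y) ∈ Z) :
    S.Finite := by
  classical
  refine Set.Finite.subset ((hZ.image fun z : F × F => if h : W.Nonsingular z.1 z.2 then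
    (.some z.1 z.2 h : W.Point) else 0).union (Set.finite_singleton 0)) fun P hP => ?_
  rcases P with _ | ⟨x, y, hxy⟩
  · exact Or.inr rfl
  · exact Or.inl ⟨(x, y), h x y hxy hP, dif_pos hxy⟩

/-- the equation of the points with `w P = (1 - w) P` -/
noncomputable def po (w m A B : F) : F[X] :=
  C (w ^ 2 - (1 - w) ^ 2) * X ^ 5 +
  C (w ^ 2 * (A + 2 * m) - (1 - w) ^ 2 * A - m * (1 - w) ^ 2 * w ^ 2) * X ^ 4 +
  C (w ^ 2 * (B + 2 * m * A + m ^ 2) - (1 - w) ^ 2 * B - 2 * m ^ 2 * (1 - w) ^ 2 * w ^ 2) * X ^ 3 +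
  C (w ^ 2 * (2 * m * B + m ^ 2 * A) - m ^ 3 * (1 - w) ^ 2 * w ^ 2) * X ^ 2 +
  C (w ^ 2 * m ^ 2 * B) * X

lemma po_ne (h : WD w m) (A B : F) : po w m A B ≠ 0 := by
  intro h0
  have h1 : (po w m A B).coeff 5 = w ^ 2 - (1 - w) ^ 2 := by
    unfold po
    simp only [coeff_add, coeff_C_mul, coeff_X_pow, coeff_X]
    norm_num
  rw [h0, coeff_zero] at h1
  have h2 : (w ^ 2 - (1 - w) ^ 2) ^ 2 = -7 := by
    rw [show w ^ 2 - (1 - w) ^ 2 = 2 * w - 1 by ring]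
    linear_combination 4 * h.hw
  rw [← h1] at h2
  norm_num at h2

lemma po_eval (A B x : F) {y : F} (hy : y ^ 2 = x ^ 3 + A * x ^ 2 + B * x) :
    (po w m A B).eval x =
      w ^ 2 * (x + m) ^ 2 * y ^ 2 - m * ((1 - w) ^ 2 * x ^ 2) * (w ^ 2 * (x + m) ^ 2) -
      (1 - w) ^ 2 * x ^ 2 * y ^ 2 := by
  rw [hy]
  unfold po
  simp only [eval_add, eval_mul, eval_C, eval_pow, eval_X]
  ring

end fin

section curve

variable {F : Type} [Field F] [CharZero F] [DecidableEq F] [IsAlgClosed F] {w m u n : F}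
  {σ : F →+* F}

/-- the points -/
abbrev Pt (w m : F) : Type := (Cu (ca w m) (cb w m)).Point

/-- `Q` is the conjugate of `P`, for the coordinate `x + m / 2` -/
def Rl (σ : F →+* F) (P Q : Pt w m) : Prop := (P = 0 ∧ Q = 0) ∨
  ∃ x y h x' y' h', P = .some x y h ∧ Q = .some x' y' h' ∧ x' + m / 2 = σ (x + m / 2) ∧ y' = σ y

/-- `Q` is the image of `P` under the isogeny -/
def Im (u n : F) (P Q : Pt w m) : Prop := (P = 0 ∧ Q = 0) ∨
  ∃ x y h, P = .some x y h ∧ ((x + m / 2 = n / 2 ∧ Q = 0) ∨ (x + m / 2 ≠ n / 2 ∧ ∃ h',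
    Q = .some (y ^ 2 / (u ^ 2 * (x + m / 2 - n / 2) ^ 2) - n / 2 - m / 2)
      (y * ((1 - u) ^ 4 * n ^ 2 - (x + m / 2 - n / 2) ^ 2) / (u ^ 3 * (x + m / 2 - n / 2) ^ 2)) h'))

lemma Rl.uniq {P Q R : Pt w m} (h1 : Rl σ P Q) (h2 : Rl σ P R) : Q = R := by
  rcases h1 with ⟨rfl, rfl⟩ | ⟨x, y, h, x', y', h', rfl, rfl, e1, e2⟩ <;>
    rcases h2 with ⟨e, rfl⟩ | ⟨x1, y1, k, x1', y1', k', e, rfl, e3, e4⟩
  · rfl
  · cases e
  · cases e
  · obtain ⟨rfl, rfl⟩ := (Affine.Point.some.injEq _ _ _ _ _ _).mp e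
    exact some_congr _ _ (add_right_cancel (e1.trans e3.symm)) (e2.trans e4.symm)

lemma Im.rl {P P' Q Q' : Pt w m} (h : Rl σ P P') (h1 : Im u n P Q) (h2 : Im (σ u) (σ n) P' Q') :
    Rl σ Q Q' := by
  have hh : ∀ z : F, σ (z / 2) = σ z / 2 := fun z => by rw [map_div₀, map_ofNat]
  rcases h with ⟨rfl, rfl⟩ | ⟨x, y, h, x', y', h', rfl, rfl, e1, e2⟩
  · rcases h1 with ⟨-, rfl⟩ | ⟨_, _, _, e, -⟩
    · rcases h2 with ⟨-, rfl⟩ | ⟨_, _, _, e, -⟩
      · exact Or.inl ⟨rfl, rfl⟩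
      · cases e
    · cases e
  rcases h1 with ⟨e, -⟩ | ⟨x1, y1, k1, e, f1⟩
  · cases e
  obtain ⟨rfl, rfl⟩ := (Affine.Point.some.injEq _ _ _ _ _ _).mp e
  rcases h2 with ⟨e, -⟩ | ⟨x2, y2, k2, e, f2⟩
  · cases e
  obtain ⟨rfl, rfl⟩ := (Affine.Point.some.injEq _ _ _ _ _ _).mp e
  rw [e1, e2] at f2
  rcases f1 with ⟨g1, rfl⟩ | ⟨g1, l1, rfl⟩
  · rcases f2 with ⟨-, rfl⟩ | ⟨g2, -⟩
    · exact Or.inl ⟨rfl, rfl⟩
    · exact absurd (by rw [g1, hh]) g2
  · rcases f2 with ⟨g2, -⟩ | ⟨-, l2, rfl⟩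
    · exact absurd (σ.injective (by rw [g2, hh])) g1
    · refine Or.inr ⟨_, _, _, _, _, _, rfl, rfl, ?_, ?_⟩
      · simp only [map_add, map_sub, map_div₀, map_mul, map_pow, map_ofNat, sub_add_cancel]
      · simp only [map_add, map_sub, map_div₀, map_mul, map_pow, map_ofNat, map_one]

lemma ex_some {a b x y x' y' : F} (h : (Cu a b).Nonsingular x y) (hx : x = x') (hy : y = y') :
    ∃ h', (.some x y h : (Cu a b).Point) = .some x' y' h' := by
  subst hx hy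
  exact ⟨h, rfl⟩

lemma im_F (h : WD w m) (P : Pt w m) : Im (1 - w) m P (eF h P) := by
  rcases P with _ | ⟨x, y, hxy⟩
  · exact Or.inl ⟨rfl, rfl⟩
  refine Or.inr ⟨x, y, hxy, rfl, ?_⟩
  by_cases hx : x = 0
  · refine Or.inl ⟨by rw [hx, zero_add], ?_⟩
    change shF h.sh (isoF h.dat (.some x y hxy)) = 0
    rw [isoF_x0 h.dat _ hx, shF_zero]
  · refine Or.inr ⟨fun h0 => hx (by linear_combination h0), ?_⟩
    change ∃ h', shF h.sh (isoF h.dat (.some x y hxy)) = _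
    rw [isoF_some h.dat _ hx, shF_some]
    refine ex_some _ ?_ ?_
    · rw [add_sub_cancel_right]; ring
    · rw [add_sub_cancel_right, cb, sub_sub_cancel]

lemma im_G (h : WD w m) (P : Pt w m) : Im w (-m) P (eG h P) := by
  rcases P with _ | ⟨x, y, hxy⟩
  · exact Or.inl ⟨rfl, rfl⟩
  refine Or.inr ⟨x, y, hxy, rfl, ?_⟩
  have e : x + m / 2 - -m / 2 = x + - -m := by ring
  by_cases hx : x + - -m = 0
  · refine Or.inl ⟨by linear_combination hx, ?_⟩
    change isoF h.dat' (shF h.sh.symm (.some x y hxy)) = 0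
    rw [shF_some, isoF_x0 h.dat' _ hx]
  · refine Or.inr ⟨fun h0 => hx (by linear_combination h0), ?_⟩
    change ∃ h', isoF h.dat' (shF h.sh.symm (.some x y hxy)) = _
    rw [shF_some, isoF_some h.dat' _ hx]
    refine ex_some _ ?_ ?_
    · rw [e]; ring
    · rw [e, cb]

/-- `[√-7]` has a finite kernel -/
theorem ord_ker (h : WD w m) {P : Pt w m} (hP : eF h P = eG h P) : IsOfFinAddOrder P := by
  have hX : ({0, -m} ∪ {x | (po w m (ca w m) (cb w m)).eval x = 0} : Set F).Finite :=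
    (Set.toFinite _).union (Polynomial.finite_setOfPred_isRoot (po_ne h _ _))
  have h1 := hX.biUnion fun x _ =>
    (fin_sqrt (x ^ 3 + ca w m * x ^ 2 + cb w m * x)).image fun y => (x, y)
  rw [← finite_multiples]
  refine fin_of h1 fun x y hxy hQ => ?_
  rw [Set.mem_iUnion₂]
  refine ⟨x, ?_, y, ns_eq hxy, rfl⟩
  obtain ⟨j, hj⟩ := hQ
  have hQ' : eF h (.some x y hxy) = eG h (.some x y hxy) := by
    rw [← hj]
    show eF h (j • P) = eG h (j • P)
    rw [map_nsmul, map_nsmul, hP]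
  by_cases h0 : x = 0
  · exact Or.inl (Or.inl h0)
  by_cases h2 : x + m = 0
  · exact Or.inl (Or.inr (eq_neg_of_add_eq_zero_left h2))
  right
  show (po w m (ca w m) (cb w m)).eval x = 0
  rw [po_eval _ _ _ (ns_eq hxy)]
  rcases im_F h (.some x y hxy) with ⟨e, -⟩ | ⟨x1, y1, k1, e, f1⟩
  · cases e
  obtain ⟨rfl, rfl⟩ := (Affine.Point.some.injEq _ _ _ _ _ _).mp e
  rcases im_G h (.some x y hxy) with ⟨e, -⟩ | ⟨x1, y1, k1, e, f2⟩
  · cases e
  obtain ⟨rfl, rfl⟩ := (Affine.Point.some.injEq _ _ _ _ _ _).mp e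
  obtain ⟨l1, f1⟩ := (f1.resolve_left fun h3 => h0 (by linear_combination h3.1)).2
  obtain ⟨l2, f2⟩ := (f2.resolve_left fun h3 => h2 (by linear_combination h3.1)).2
  rw [f1, f2] at hQ'
  have h3 := ((Affine.Point.some.injEq _ _ _ _ _ _).mp hQ').1
  rw [show x + m / 2 - m / 2 = x by ring, show x + m / 2 - -m / 2 = x + m by ring] at h3
  have hw0 := h.w0
  have hw1 := h.w1
  have h4 : y ^ 2 / ((1 - w) ^ 2 * x ^ 2) - m = y ^ 2 / (w ^ 2 * (x + m) ^ 2) := by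
    linear_combination h3
  field_simp at h4
  linear_combination h4

end curve

section dec

variable {G A : Type} [Group G] [AddCommGroup A]

/-- decomposition into eigenvectors -/
theorem decomp (ρ : G → A →+ A) (hm : ∀ σ τ P, ρ (σ * τ) P = ρ σ (ρ τ P)) (T : Set (G →* ℤˣ))
    (hT : ∀ χ ∈ T, ∀ P, (∀ σ, ρ σ P = ((χ σ : ℤˣ) : ℤ) • P) → IsOfFinAddOrder P) :
    ∀ l : List (G →* ℤˣ), (∀ ε ∈ l, ∀ χ ∈ T, χ * ε ∈ T) → ∀ χ ∈ T, ∀ P,
      (∀ σ, (∀ ε ∈ l, ε σ = 1) → ρ σ P = ((χ σ : ℤˣ) : ℤ) • P) → IsOfFinAddOrder P := by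
  intro l
  induction l with
  | nil =>
    intro _ χ hχ P hP
    exact hT χ hχ P fun σ => hP σ (by simp)
  | cons ε l ih =>
    intro hl χ hχ P hP
    have hl' : ∀ ε' ∈ l, ∀ χ ∈ T, χ * ε' ∈ T := fun ε' h => hl ε' (List.mem_cons_of_mem _ h)
    have hP' : ∀ σ, ε σ = 1 → (∀ ε' ∈ l, ε' σ = 1) → ρ σ P = ((χ σ : ℤˣ) : ℤ) • P := by
      intro σ h1 h2
      refine hP σ fun ε' h => ?_
      rcases List.mem_cons.1 h with rfl | h
      · exact h1
      · exact h2 ε' h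
    by_cases hτ : ∃ τ, (∀ ε' ∈ l, ε' τ = 1) ∧ ε τ ≠ 1
    · obtain ⟨τ, h1, h2⟩ := hτ
      have h2' : ε τ = -1 := (Int.units_eq_one_or _).resolve_left h2
      have key : ∀ σ, (∀ ε' ∈ l, ε' σ = 1) → ε σ = 1 →
          ρ σ P = ((χ σ : ℤˣ) : ℤ) • P ∧ ρ σ (ρ τ P) = ((χ σ : ℤˣ) : ℤ) • ρ τ P := by
        intro σ h3 h4
        refine ⟨hP' σ h4 h3, ?_⟩
        have h5 : ρ (τ⁻¹ * σ * τ) P = ((χ σ : ℤˣ) : ℤ) • P := by
          rw [hP' (τ⁻¹ * σ * τ) (by rw [map_mul, map_mul, map_inv, h4, mul_one, inv_mul_cancel])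
            (fun ε' h => by rw [map_mul, map_mul, map_inv, h3 ε' h, h1 ε' h]; simp),
            map_mul, map_mul, map_inv, mul_comm (χ τ)⁻¹, inv_mul_cancel_right]
        rw [← hm, ← map_zsmul, ← h5, ← hm]
        congr 1
        group
      have key' : ∀ σ, (∀ ε' ∈ l, ε' σ = 1) → ε σ = -1 →
          ρ σ P = ((χ σ * χ τ : ℤˣ) : ℤ) • ρ τ P ∧ ρ σ (ρ τ P) = ((χ σ * χ τ : ℤˣ) : ℤ) • P := by
        intro σ h3 h4
        have hinv : ∀ u : ℤˣ, u⁻¹ = u := fun u => by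
          rcases Int.units_eq_one_or u with h | h <;> rw [h] <;> rfl
        constructor
        · have h5 : ρ (τ⁻¹ * σ) P = ((χ σ * χ τ : ℤˣ) : ℤ) • P := by
            rw [hP' (τ⁻¹ * σ) (by rw [map_mul, map_inv, h4, h2']; rfl)
              (fun ε' h => by rw [map_mul, map_inv, h3 ε' h, h1 ε' h]; simp)]
            rw [map_mul, map_inv, hinv, mul_comm]
          rw [← map_zsmul, ← h5, ← hm]
          congr 1
          group
        · rw [← hm, hP' (σ * τ) (by rw [map_mul, h4, h2']; rfl)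
            (fun ε' h => by rw [map_mul, h3 ε' h, h1 ε' h]; simp), map_mul]
      have hcase : ∀ u : ℤˣ, (u : ℤ) = 1 ∨ (u : ℤ) = -1 := fun u => by
        rcases Int.units_eq_one_or u with h | h <;> simp [h]
      have hp := ih hl' χ hχ (P + ((χ τ : ℤˣ) : ℤ) • ρ τ P) (by
        intro σ h3
        rcases Int.units_eq_one_or (ε σ) with h4 | h4
        · rw [map_add, map_zsmul, (key σ h3 h4).1, (key σ h3 h4).2, smul_add, smul_comm]
        · rw [map_add, map_zsmul, (key' σ h3 h4).1, (key' σ h3 h4).2, Units.val_mul]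
          rcases hcase (χ τ) with h5 | h5 <;> rcases hcase (χ σ) with h6 | h6 <;>
            rw [h5, h6] <;> simp only [mul_one, one_smul, neg_smul, neg_neg, mul_neg] <;> abel)
      have hn := ih hl' (χ * ε) (hl ε List.mem_cons_self χ hχ) (P - ((χ τ : ℤˣ) : ℤ) • ρ τ P) (by
        intro σ h3
        rw [MonoidHom.mul_apply, Units.val_mul]
        rcases Int.units_eq_one_or (ε σ) with h4 | h4
        · rw [map_sub, map_zsmul, (key σ h3 h4).1, (key σ h3 h4).2, h4, Units.val_one, mul_one,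
            smul_sub, smul_comm]
        · rw [map_sub, map_zsmul, (key' σ h3 h4).1, (key' σ h3 h4).2, Units.val_mul, h4]
          rcases hcase (χ τ) with h5 | h5 <;> rcases hcase (χ σ) with h6 | h6 <;>
            rw [h5, h6] <;> simp only [Units.val_neg, Units.val_one, mul_one, one_smul, neg_smul,
              neg_neg, mul_neg] <;> abel)
      have e : (P + ((χ τ : ℤˣ) : ℤ) • ρ τ P) + (P - ((χ τ : ℤˣ) : ℤ) • ρ τ P) = 2 • P := by abel
      exact (isOfFinAddOrder_nsmul.1 (e ▸ hp.add hn)).resolve_right two_ne_zero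
    · push Not at hτ
      exact ih hl' χ hχ P fun σ hσ => hP' σ (hτ σ hσ) hσ

end dec

end Run7.h359.MW
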