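import Pool.Agent.Results.MP_787500_nt.AllWeightsMultiquadraticX49
import Pool.Agent.Run7.h359.Mwa
import Pool.Agent.Y700.VC

/-! # The twists of `X_0(49)`: the points over `K(√d_1, …, √d_n)` have finite order -/

set_option autoImplicit false
set_option linter.unusedSectionVars false

namespace Run7.h359.MW

open WeierstrassCurve Pool.Agent.Y676.IS Pool.Agent.R384 Pool.Agent.Y700
open Pool.Agent.Results.MP_787500_nt.AllWeightsMultiquadraticX49 (QBar E)
open scoped Classical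

/-- the Galois group of `ℚ` -/
abbrev GQ : Type := QBar ≃ₐ[ℚ] QBar

/-- `E_M(ℚ̄)` -/
abbrev PQ (M : ℕ) : Type := ((E M).toAffine.baseChange QBar).Point

/-- the action of the Galois group -/
noncomputable def ac {M : ℕ} (σ : GQ) : PQ M →+ PQ M :=
  Affine.Point.map (W' := (E M).toAffine) (S := ℚ) (F := QBar) (K := QBar) σ.toAlgHom

/-- `σ` as a ring homomorphism -/
noncomputable def rg (σ : GQ) : QBar →+* QBar := σ.toAlgHom.toRingHom

lemma ac_mul {M : ℕ} (σ τ : GQ) (P : PQ M) : ac (σ * τ) P = ac σ (ac τ P) := by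
  rcases P with _ | ⟨x, y, h⟩ <;> rfl

lemma rational {z : QBar} (hz : ∀ σ : GQ, σ z = z) : ∃ q : ℚ, (q : QBar) = z := by
  have h1 : z ∈ (⊥ : IntermediateField ℚ QBar) := (InfiniteGalois.mem_bot_iff_fixed z).2 hz
  rw [IntermediateField.mem_bot] at h1
  obtain ⟨q, hq⟩ := h1
  exact ⟨q, by rw [← hq]; exact (eq_ratCast (algebraMap ℚ QBar) q).symm⟩

lemma delta (D : ℕ) : (E D).Δ = -343 * (D : ℚ) ^ 6 := by
  simp only [E, WeierstrassCurve.Δ, WeierstrassCurve.b₂, WeierstrassCurve.b₄, WeierstrassCurve.b₆,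
    WeierstrassCurve.b₈]
  ring

lemma delta_ne {D : ℕ} (hD : D ≠ 0) : (E D).Δ ≠ 0 := by
  rw [delta]
  exact mul_ne_zero (by norm_num) (pow_ne_zero 6 (Nat.cast_ne_zero.2 hD))

section main

variable {w m : QBar} {M n : ℕ} {d : Fin n → ℕ} {s : Fin n → QBar}

lemma coef : ((E M).toAffine.baseChange QBar).a₁ = 1 ∧
    ((E M).toAffine.baseChange QBar).a₂ = -((3 * M + 1) / 4) ∧
    ((E M).toAffine.baseChange QBar).a₃ = 0 ∧
    ((E M).toAffine.baseChange QBar).a₄ = -2 * M ^ 2 ∧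
    ((E M).toAffine.baseChange QBar).a₆ = -M ^ 3 := by
  refine ⟨map_one _, ?_, map_zero _, ?_, ?_⟩
  · show algebraMap ℚ QBar (-((3 * M + 1) / 4)) = _
    simp
  · show algebraMap ℚ QBar (-2 * M ^ 2) = _
    simp
  · show algebraMap ℚ QBar (-M ^ 3) = _
    simp

lemma bc_ns {x y : QBar} (h : ((E M).toAffine.baseChange QBar).Nonsingular x y) :
    (2 * y + x) ^ 2 = 4 * x ^ 3 - 3 * M * x ^ 2 - 8 * M ^ 2 * x - 4 * M ^ 3 := by
  have h1 := (Affine.equation_iff _ _).1 h.1
  obtain ⟨c1, c2, c3, c4, c6⟩ := coef (M := M)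
  rw [c1, c2, c3, c4, c6] at h1
  linear_combination 4 * h1

lemma eig (u : ℤˣ) {x y : QBar} {h : ((E M).toAffine.baseChange QBar).Nonsingular x y} {σ : GQ}
    (e : ac σ (.some x y h : PQ M) = ((u : ℤˣ) : ℤ) • .some x y h) :
    σ x = x ∧ σ (2 * y + x) = ((u : ℤ) : QBar) * (2 * y + x) := by
  rcases Int.units_eq_one_or u with hu | hu
  · rw [hu, Units.val_one, one_smul] at e
    obtain ⟨h1, h2⟩ := (Affine.Point.some.injEq _ _ _ _ _ _).mp e
    have h1' : σ x = x := h1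
    have h2' : σ y = y := h2
    refine ⟨h1', ?_⟩
    rw [hu, map_add, map_mul, map_ofNat, h1', h2']
    push_cast
    ring
  · rw [hu, Units.val_neg, Units.val_one, neg_smul, one_smul, Affine.Point.neg_some] at e
    obtain ⟨h1, h2⟩ := (Affine.Point.some.injEq _ _ _ _ _ _).mp e
    have h1' : σ x = x := h1
    have h2' : σ y = -y - x := by
      refine (h2 : σ y = _).trans ?_
      rw [Affine.negY, (coef (M := M)).1, (coef (M := M)).2.2.1]
      ring
    refine ⟨h1', ?_⟩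
    rw [hu, map_add, map_mul, map_ofNat, h1', h2']
    push_cast
    ring

/-- the points in an eigenspace come from the points of a twist over `ℚ` -/
theorem fin_eig (hM : M ≠ 0) {δ D k : ℕ} (hδ : δ ≠ 0) (hk : k ≠ 0) (hD : M * δ = D * k ^ 2)
    (hfin : Finite (E D).toAffine.Point) {r : QBar} (hr : r ^ 2 = (δ : QBar)) (χ : GQ → ℤˣ)
    (hχ : ∀ σ : GQ, σ r = ((χ σ : ℤ) : QBar) * r) :
    {P : PQ M | ∀ σ : GQ, ac σ P = ((χ σ : ℤˣ) : ℤ) • P}.Finite := by
  have hr0 : r ≠ 0 := by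
    rintro rfl
    rw [zero_pow two_ne_zero] at hr
    exact hδ (by exact_mod_cast hr.symm)
  have hD0 : D ≠ 0 := by
    rintro rfl
    rw [zero_mul] at hD
    exact (Nat.mul_eq_zero.1 hD).elim hM hδ
  have hkq : (k : ℚ) ≠ 0 := Nat.cast_ne_zero.2 hk
  set t : ℚ := (δ : ℚ) / (k : ℚ) ^ 2 with ht
  have ht0 : t ≠ 0 := div_ne_zero (Nat.cast_ne_zero.2 hδ) (pow_ne_zero 2 hkq)
  have hDt : (D : ℚ) = M * t := by
    have h1 : (M : ℚ) * δ = D * (k : ℚ) ^ 2 := by exact_mod_cast hD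
    rw [ht]
    field_simp
    linear_combination -h1
  have hns : (Set.range fun P : (E D).toAffine.Point => match P with
      | .zero => ((0, 0) : ℚ × ℚ)
      | .some x y _ => (x, y)).Finite := Set.finite_range _
  refine fin_of (hns.image fun z : ℚ × ℚ => (((z.1 / t : ℚ) : QBar),
      ((((k * (2 * z.2 + z.1) / t : ℚ)) : QBar) / r - ((z.1 / t : ℚ) : QBar)) / 2))
    fun x y hxy hP => ?_
  have h1 : ∀ σ : GQ, σ x = x ∧ σ (2 * y + x) = ((χ σ : ℤ) : QBar) * (2 * y + x) :=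
    fun σ => eig (χ σ) (hP σ)
  obtain ⟨p, hp⟩ := rational fun σ => (h1 σ).1
  obtain ⟨q, hq⟩ : ∃ q : ℚ, (q : QBar) = (2 * y + x) * r := by
    refine rational fun σ => ?_
    rw [map_mul, (h1 σ).2, hχ σ]
    rcases Int.units_eq_one_or (χ σ) with h3 | h3 <;> rw [h3] <;> push_cast <;> ring
  have e3 : q ^ 2 = δ * (4 * p ^ 3 - 3 * M * p ^ 2 - 8 * M ^ 2 * p - 4 * M ^ 3) := by
    have h3 : ((q ^ 2 : ℚ) : QBar) =
        ((δ * (4 * p ^ 3 - 3 * M * p ^ 2 - 8 * M ^ 2 * p - 4 * M ^ 3) : ℚ) : QBar) := by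
      push_cast
      rw [hq, mul_pow, hr, bc_ns hxy, hp]
      ring
    exact_mod_cast h3
  have e4 : (δ : ℚ) = t * (k : ℚ) ^ 2 := by
    rw [ht]
    field_simp
  have h5 : (t * (q / k)) ^ 2 = t ^ 2 * q ^ 2 / (k : ℚ) ^ 2 := by
    field_simp
  have hN : (E D).toAffine.Nonsingular (t * p) ((t * (q / k) - t * p) / 2) := by
    rw [← WeierstrassCurve.Affine.equation_iff_nonsingular_of_Δ_ne_zero (delta_ne hD0),
      WeierstrassCurve.Affine.equation_iff]
    have h6 : (t * (q / k)) ^ 2 = t ^ 3 *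
        (4 * p ^ 3 - 3 * M * p ^ 2 - 8 * M ^ 2 * p - 4 * M ^ 3) := by
      rw [h5, e3, e4]
      field_simp
    simp only [E]
    rw [hDt]
    linear_combination h6 / 4
  refine ⟨_, ⟨.some _ _ hN, rfl⟩, ?_⟩
  refine Prod.ext ?_ ?_
  · show (((t * p) / t : ℚ) : QBar) = x
    rw [mul_div_cancel_left₀ _ ht0, hp]
  · show ((((k * (2 * ((t * (q / k) - t * p) / 2) + t * p) / t : ℚ)) : QBar) / r -
      (((t * p) / t : ℚ) : QBar)) / 2 = y
    have h6 : k * (2 * ((t * (q / k) - t * p) / 2) + t * p) / t = q := by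
      field_simp
      ring
    rw [h6, mul_div_cancel_left₀ _ ht0, hp, hq]
    field_simp
    ring

/-! ### The endomorphism -/

lemma vr (h : WD w m) (hm : m = (1 - 2 * w) * M) :
    VR (Cu (ca w m) (cb w m)) ((E M).toAffine.baseChange QBar) 2 (5 * M / 2 - m / 2) 1 0 := by
  have r1 : m ^ 2 = -7 * (M : QBar) ^ 2 := by
    rw [hm]
    linear_combination 4 * (M : QBar) ^ 2 * h.hw
  have r2 : 2 * (w * m) = m + 7 * M := by
    rw [hm]
    linear_combination -4 * (M : QBar) * h.hw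
  have ea : ca w m = (3 * m - 21 * M) / 2 := by
    rw [ca]
    linear_combination -3 / 2 * r2
  have eb : cb w m = (-7 * M ^ 2 - 21 * M * m) / 2 := by
    rw [cb, h.w4]
    linear_combination 1 / 2 * r1 - 3 / 2 * m * r2
  have a1 : (Cu (ca w m) (cb w m)).a₁ = 0 := rfl
  have a2 : (Cu (ca w m) (cb w m)).a₂ = ca w m := rfl
  have a3 : (Cu (ca w m) (cb w m)).a₃ = 0 := rfl
  have a4 : (Cu (ca w m) (cb w m)).a₄ = cb w m := rfl
  have a6 : (Cu (ca w m) (cb w m)).a₆ = 0 := rfl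
  obtain ⟨c1, c2, c3, c4, c6⟩ := coef (M := M)
  refine ⟨two_ne_zero, ?_, ?_, ?_, ?_, ?_⟩
  · rw [c1, a1]; ring
  · rw [c2, a2, a1, ea]; ring
  · rw [c3, a3, a1]; ring
  · rw [c4, a4, a3, a2, a1, ea, eb]; linear_combination 3 / 4 * r1
  · rw [c6, a6, a4, a2, a3, a1, ea, eb]; linear_combination (-1 / 4 * m - 3 / 4 * M) * r1

/-! ### The quadratic characters -/

lemma ne_neg {r : QBar} (h0 : r ≠ 0) : -r ≠ r := fun h => h0 (by
  have h1 : (2 : QBar) * r = 0 := by linear_combination -h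
  exact (mul_eq_zero.1 h1).resolve_left two_ne_zero)

lemma pm {r : QBar} {q : ℤ} (hr : r ^ 2 = (q : QBar)) (σ : GQ) : σ r = r ∨ σ r = -r :=
  sq_eq_sq_iff_eq_or_eq_neg.1 (by rw [← map_pow, hr, map_intCast])

/-- the quadratic character of `ℚ(r)` -/
noncomputable def sc {r : QBar} {q : ℤ} (h0 : r ≠ 0) (hr : r ^ 2 = (q : QBar)) : GQ →* ℤˣ where
  toFun σ := if σ r = r then 1 else -1
  map_one' := if_pos rfl
  map_mul' σ τ := by
    have hn := ne_neg h0
    rw [AlgEquiv.mul_apply]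
    rcases pm hr τ with h1 | h1 <;> rcases pm hr σ with h2 | h2
    · rw [h1, h2, if_pos rfl, mul_one]
    · rw [h1, h2, if_neg hn, if_pos rfl, mul_one]
    · rw [h1, map_neg, h2, if_neg hn, if_pos rfl, one_mul]
    · rw [h1, map_neg, h2, neg_neg, if_pos rfl, if_neg hn]
      rfl

lemma sc_apply {r : QBar} {q : ℤ} (h0 : r ≠ 0) (hr : r ^ 2 = (q : QBar)) (σ : GQ) :
    sc h0 hr σ = if σ r = r then 1 else -1 := rfl

lemma sc_spec {r : QBar} {q : ℤ} (h0 : r ≠ 0) (hr : r ^ 2 = (q : QBar)) (σ : GQ) :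
    σ r = ((sc h0 hr σ : ℤ) : QBar) * r := by
  rw [sc_apply]
  by_cases h1 : σ r = r
  · rw [if_pos h1, h1]
    simp
  · rw [if_neg h1, (pm hr σ).resolve_left h1]
    simp

lemma sc_one {r : QBar} {q : ℤ} {h0 : r ≠ 0} {hr : r ^ 2 = (q : QBar)} {σ : GQ}
    (h1 : sc h0 hr σ = 1) : σ r = r := by
  rw [sc_spec h0 hr σ, h1]
  simp

lemma char_sq (χ : GQ →* ℤˣ) : χ * χ = 1 := MonoidHom.ext fun σ => by
  rw [MonoidHom.mul_apply]
  rcases Int.units_eq_one_or (χ σ) with h | h <;> rw [h] <;> rfl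

lemma prod_step (ε : Fin n → (GQ →* ℤˣ)) (S : Finset (Fin n)) (j : Fin n) :
    ∃ S' : Finset (Fin n), (∏ i ∈ S, ε i) * ε j = ∏ i ∈ S', ε i := by
  by_cases hj : j ∈ S
  · refine ⟨S.erase j, ?_⟩
    rw [← Finset.mul_prod_erase S ε hj, mul_comm, ← mul_assoc, char_sq, one_mul]
  · refine ⟨insert j S, ?_⟩
    rw [Finset.prod_insert hj, mul_comm]

/-- **The group `E_M(L)` is a torsion group.** -/
theorem tor (hM : M ≠ 0) (hw : w ^ 2 = w - 2) (hd : ∀ i, d i ≠ 0)
    (hs : ∀ i, s i ^ 2 = (d i : QBar))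
    (hfin : ∀ S : Finset (Fin n), ∃ D k : ℕ, k ≠ 0 ∧ Finite (E D).toAffine.Point ∧
      M * ∏ i ∈ S, d i = D * k ^ 2)
    (P : PQ M) (hP : ∀ σ : GQ, σ w = w → (∀ i, σ (s i) = s i) → ac σ P = P) :
    IsOfFinAddOrder P := by
  have hw7 : (2 * w - 1) ^ 2 = ((-7 : ℤ) : QBar) := by
    push_cast
    linear_combination 4 * hw
  have hw0 : 2 * w - 1 ≠ 0 := by
    intro h0
    rw [h0] at hw7
    norm_num at hw7
  obtain ⟨m, hm⟩ : ∃ m : QBar, m = (1 - 2 * w) * M := ⟨_, rfl⟩
  have h : WD w m := ⟨hw, by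
    rw [hm]
    exact mul_ne_zero (fun h0 => hw0 (by linear_combination -h0)) (Nat.cast_ne_zero.2 hM)⟩
  have hΔ : ((E M).toAffine.baseChange QBar).Δ ≠ 0 := by
    show ((E M).map (algebraMap ℚ QBar)).Δ ≠ 0
    rw [WeierstrassCurve.map_Δ]
    exact (map_ne_zero _).2 (delta_ne hM)
  set T : PQ M ≃+ Pt w m := (vr h hm).equiv hΔ with hTd
  have hT : ∀ (σ : GQ) (P : PQ M), Rl (rg σ) (T P) (T (ac σ P)) := by
    intro σ P
    rcases P with _ | ⟨x, y, hxy⟩
    · refine Or.inl ⟨map_zero T, ?_⟩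
      show T (ac σ 0) = 0
      rw [map_zero, map_zero]
    · refine Or.inr ⟨_, _, _, _, _, _, rfl, rfl, ?_, ?_⟩
      · show 2 ^ 2 * σ x + (5 * M / 2 - m / 2) + m / 2 =
          σ (2 ^ 2 * x + (5 * M / 2 - m / 2) + m / 2)
        simp only [map_add, map_sub, map_mul, map_div₀, map_pow, map_ofNat, map_natCast]
        ring
      · show 2 ^ 3 * σ y + 2 ^ 2 * 1 * σ x + 0 = σ (2 ^ 3 * y + 2 ^ 2 * 1 * x + 0)
        simp only [map_add, map_mul, map_pow, map_ofNat, map_one, map_zero]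
  have hs0 : ∀ i, s i ≠ 0 := by
    intro i h0
    have h1 := hs i
    rw [h0, zero_pow two_ne_zero] at h1
    exact hd i (by exact_mod_cast h1.symm)
  have hsi : ∀ i, s i ^ 2 = ((d i : ℤ) : QBar) := fun i => by rw [hs i]; push_cast; rfl
  set ε0 : GQ →* ℤˣ := sc hw0 hw7 with he0
  set ε : Fin n → (GQ →* ℤˣ) := fun i => sc (hs0 i) (hsi i) with he
  have hfix0 : ∀ σ : GQ, ε0 σ = 1 → σ w = w := by
    intro σ h1
    have h2 := sc_one h1
    rw [map_sub, map_mul, map_one, map_ofNat] at h2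
    linear_combination h2 / 2
  have key1 : ∀ (S : Finset (Fin n)) (P : PQ M),
      (∀ σ : GQ, ac σ P = (((∏ i ∈ S, ε i) σ : ℤˣ) : ℤ) • P) → IsOfFinAddOrder P := by
    intro S P hP
    obtain ⟨D, k, hk, hf, hD⟩ := hfin S
    have hr : (∏ i ∈ S, s i) ^ 2 = ((∏ i ∈ S, d i : ℕ) : QBar) := by
      rw [← Finset.prod_pow, Nat.cast_prod]
      exact Finset.prod_congr rfl fun i _ => hs i
    have hχ : ∀ σ : GQ, σ (∏ i ∈ S, s i) =
        (((∏ i ∈ S, ε i) σ : ℤ) : QBar) * ∏ i ∈ S, s i := by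
      intro σ
      rw [map_prod, MonoidHom.finsetProd_apply, Units.coe_prod, Int.cast_prod,
        ← Finset.prod_mul_distrib]
      exact Finset.prod_congr rfl fun i _ => sc_spec _ _ σ
    rw [← finite_multiples]
    refine Set.Finite.subset (fin_eig hM (Finset.prod_ne_zero_iff.2 fun i _ => hd i) hk hD hf hr
      (fun σ => (∏ i ∈ S, ε i) σ) hχ) fun Q hQ => ?_
    obtain ⟨j, rfl⟩ := hQ
    intro σ
    show ac σ (j • P) = _ • (j • P)
    rw [map_nsmul, hP σ, smul_comm]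
  have key2 : ∀ χ ∈ {χ | ∃ S : Finset (Fin n), χ = ∏ i ∈ S, ε i ∨ χ = (∏ i ∈ S, ε i) * ε0},
      ∀ P : PQ M, (∀ σ : GQ, ac σ P = ((χ σ : ℤˣ) : ℤ) • P) → IsOfFinAddOrder P := by
    rintro χ ⟨S, rfl | rfl⟩ P hP
    · exact key1 S P hP
    · have h1 : IsOfFinAddOrder (T.symm (eF h (T P) - eG h (T P))) := by
        refine key1 S _ fun σ => T.injective ?_
        have h3 : ∀ B : Pt w m, Rl (rg σ) B (T (ac σ (T.symm B))) := fun B => by
          have h4 := hT σ (T.symm B)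
          rwa [T.apply_symm_apply] at h4
        have h5 : T (ac σ P) = ((((∏ i ∈ S, ε i) * ε0) σ : ℤˣ) : ℤ) • T P := by
          rw [hP σ, map_zsmul]
        have hF := fun Q' => Im.rl (Q' := Q') (hT σ P) (im_F h (T P))
        have hG := fun Q' => Im.rl (Q' := Q') (hT σ P) (im_G h (T P))
        rw [map_sub T.symm, map_sub (ac σ), map_sub T, map_zsmul, map_sub T, T.apply_symm_apply,
          T.apply_symm_apply]
        have hm' : rg σ m = (1 - 2 * σ w) * M := by
          rw [hm]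
          show σ ((1 - 2 * w) * M) = _
          rw [map_mul, map_sub, map_mul, map_one, map_ofNat, map_natCast]
        by_cases hww : σ w = w
        · have e0 : ε0 σ = 1 := by
            rw [he0, sc_apply, if_pos]
            rw [map_sub, map_mul, map_one, map_ofNat, hww]
          have k1 : rg σ (1 - w) = 1 - w := by
            show σ (1 - w) = _
            rw [map_sub, map_one, hww]
          have k2 : rg σ m = m := by rw [hm', hww, hm]
          have f1 := (h3 _).uniq (hF (eF h (T (ac σ P))) (by rw [k1, k2]; exact im_F h _))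
          have f2 := (h3 _).uniq (hG (eG h (T (ac σ P))) (by
            rw [map_neg, k2, show rg σ w = w from hww]
            exact im_G h _))
          rw [f1, f2, h5, MonoidHom.mul_apply, e0, mul_one, map_zsmul, map_zsmul]
          exact (zsmul_sub _ _ _).symm
        · have e0 : ε0 σ = -1 := (Int.units_eq_one_or _).resolve_left fun h4 => hww (hfix0 σ h4)
          have k0 : σ w = 1 - w := by
            have g1 := (pm hw7 σ).resolve_left fun g => hww (by
              rw [map_sub, map_mul, map_one, map_ofNat] at g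
              linear_combination g / 2)
            rw [map_sub, map_mul, map_one, map_ofNat] at g1
            linear_combination g1 / 2
          have k1 : rg σ (1 - w) = w := by
            show σ (1 - w) = _
            rw [map_sub, map_one, k0]
            ring
          have k2 : rg σ m = -m := by rw [hm', k0, hm]; ring
          have f1 := (h3 _).uniq (hF (eG h (T (ac σ P))) (by rw [k1, k2]; exact im_G h _))
          have f2 := (h3 _).uniq (hG (eF h (T (ac σ P))) (by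
            rw [map_neg, k2, neg_neg, show rg σ w = 1 - w from k0]
            exact im_F h _))
          rw [f1, f2, h5, MonoidHom.mul_apply, e0, map_zsmul, map_zsmul, Units.val_mul,
            Units.val_neg, Units.val_one, mul_neg, mul_one, neg_smul, neg_smul, zsmul_sub]
          abel
      have h2 : IsOfFinAddOrder (eF h (T P) - eG h (T P)) := by
        have h3 := T.toAddMonoidHom.isOfFinAddOrder h1
        rwa [show T.toAddMonoidHom (T.symm (eF h (T P) - eG h (T P))) = _ from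
          T.apply_symm_apply _] at h3
      obtain ⟨j, hj, hj'⟩ := isOfFinAddOrder_iff_nsmul_eq_zero.1 h2
      have h4 : eF h (T (j • P)) = eG h (T (j • P)) := by
        rw [map_nsmul, map_nsmul, map_nsmul, ← sub_eq_zero, ← nsmul_sub]
        exact hj'
      have h5 := T.symm.toAddMonoidHom.isOfFinAddOrder (ord_ker h h4)
      rw [show T.symm.toAddMonoidHom (T (j • P)) = j • P from T.symm_apply_apply _] at h5
      exact (isOfFinAddOrder_nsmul.1 h5).resolve_right (by omega)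
  refine decomp ac ac_mul _ key2 (ε0 :: List.ofFn ε) ?_ 1 ⟨∅, Or.inl (by simp)⟩ P ?_
  · rintro ε' h1 χ ⟨S, hS⟩
    rcases List.mem_cons.1 h1 with rfl | h2
    · rcases hS with rfl | rfl
      · exact ⟨S, Or.inr rfl⟩
      · exact ⟨S, Or.inl (by rw [mul_assoc, char_sq, mul_one])⟩
    · obtain ⟨j, rfl⟩ := (List.mem_ofFn ..).1 h2
      obtain ⟨S', hS'⟩ := prod_step ε S j
      rcases hS with rfl | rfl
      · exact ⟨S', Or.inl hS'⟩
      · refine ⟨S', Or.inr ?_⟩
        rw [← hS', mul_assoc, mul_assoc, mul_comm ε0]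
  · intro σ h1
    rw [MonoidHom.one_apply, Units.val_one, one_smul]
    exact hP σ (hfix0 σ (h1 ε0 List.mem_cons_self)) fun i =>
      sc_one (h1 (ε i) (List.mem_cons_of_mem _ ((List.mem_ofFn ..).2 ⟨i, rfl⟩)))

end main

end Run7.h359.MW
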