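import Pool.Agent.Run7.h359.Tps

/-!
# The L-functions of the tensor products with representations over multiquadratic fields
-/

set_option autoImplicit false
set_option linter.unusedSectionVars false

namespace Run7.h359.TP

open Pool.Agent.Results.MP_787500_nt.AllWeightsMultiquadraticX49
open Pool.Agent.Y698 Pool.Agent.Y698.SG
open NumberField IsDedekindDomain WeierstrassCurve Pool.Agent.W189.NF
open Pool.Agent.H921R2.TatePole Pool.Agent.H82R3.EK
open W165.CE (pw pw_eq pw_luc)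
open Run7.h401.Fl (MQ ch)
open Run7.h359.EU (pw_smul pw_zero_odd rat_bij rat_ideal)
open Run7.h359.FE
open Run7.h359.WD (W8 GoodW)
open scoped Classical

/-! ### The local factors over `ℚ` -/

lemma co_rat {M : ℕ} (hM : M ≠ 0) (h4 : ∀ p ∈ sf M, p % 4 = 1) (v : HeightOneSpectrum (𝓞 ℚ))
    (hv : ¬ (below v : ℕ) ∣ M) :
    ((aV (cur (M : ℚ)) v : ℤ) : ℂ) = xx (sf M) (below v : ℕ) * bc (below v : ℕ) ∧
    ((eV (cur (M : ℚ)) v : ℤ) : ℂ) = ec (below v : ℕ) := by
  obtain ⟨r, hr⟩ := exists_MQ (F := ℚ) (n := 0) (d := fun i => i.elim0) (fun i => i.elim0)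
    (fun T p hp => by
      have hT : T = ∅ := by
        ext i
        exact i.elim0
      rw [hT, Finset.prod_empty, sf_one] at hp
      exact absurd hp (Finset.notMem_empty p)) (s := fun i => i.elim0) (fun i => i.elim0)
    (fun K _ => by
      rw [eq_top_iff]
      intro x _
      exact SubfieldClass.ratCast_mem K x)
  have hX : (∅ : Finset ℕ) ∈ HH (fun i : Fin 0 => i.elim0) := mem_HH.2 ⟨∅, by
    rw [Finset.prod_empty, sf_one]⟩
  have e : symmDiff (sf M) ∅ = sf M := symmDiff_bot (sf M)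
  have hn : (below v : ℕ) ∉ symmDiff (sf M) ∅ := by
    rw [e]
    exact not_mem_sf hv
  obtain ⟨c1, c2⟩ := co_pl hr hM h4 hX v (Or.inl hn)
  obtain ⟨-, -, h3⟩ := rat_ideal v
  rw [e, h3, pow_one] at c1 c2
  have hx2 : xx (sf M) (below v : ℕ) ^ 2 = 1 :=
    xx_sq (fun p hp => (mem_sf.1 hp).1) (below v).2 (not_mem_sf hv)
  refine ⟨c1, ?_⟩
  rw [c2, hx2, one_mul]

/-! ### The signs -/

section signs

variable {x : QBar} {D : ℤ}

lemma sg_or (hx : x ^ 2 = (D : QBar)) (σ : QBar ≃ₐ[ℚ] QBar) : σ x = x ∨ σ x = -x := by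
  have h : (σ x) ^ 2 = x ^ 2 := by rw [← map_pow, hx, map_intCast]
  exact sq_eq_sq_iff_eq_or_eq_neg.1 h

/-- the sign -/
noncomputable def sg (x : QBar) (σ : QBar ≃ₐ[ℚ] QBar) : ℂ := if σ x = x then 1 else -1

lemma sg_pm (x : QBar) (σ : QBar ≃ₐ[ℚ] QBar) : sg x σ = 1 ∨ sg x σ = -1 := by
  unfold sg
  split_ifs
  · exact Or.inl rfl
  · exact Or.inr rfl

lemma ne_neg {x : QBar} (h0 : x ≠ 0) : -x ≠ x := by
  intro h
  have h1 : (2 : QBar) * x = 0 := by linear_combination -h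
  rcases mul_eq_zero.1 h1 with h2 | h2
  · norm_num at h2
  · exact h0 h2

lemma sg_mul (hx : x ^ 2 = (D : QBar)) (h0 : x ≠ 0) (σ τ : QBar ≃ₐ[ℚ] QBar) :
    sg x (σ * τ) = sg x σ * sg x τ := by
  have hn := ne_neg h0
  have e : (σ * τ) x = σ (τ x) := rfl
  unfold sg
  rw [e]
  rcases sg_or hx τ with h1 | h1 <;> rcases sg_or hx σ with h2 | h2
  · rw [h1, h2, if_pos rfl, mul_one]
  · rw [h1, h2, if_neg hn, if_pos rfl, mul_one]
  · rw [h1, map_neg, h2, if_neg hn, if_pos rfl, one_mul]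
  · rw [h1, map_neg, h2, neg_neg, if_pos rfl, if_neg hn]
    norm_num


lemma fix_of_sg {σ : QBar ≃ₐ[ℚ] QBar} (h : sg x σ = 1) : σ x = x := by
  unfold sg at h
  by_contra h1
  rw [if_neg h1] at h
  norm_num at h

lemma sg_frob {p : ℕ} [Fact p.Prime] (h0 : x ≠ 0) (hD : ((D : ℤ) : ZMod p) ≠ 0)
    {σ : QBar ≃ₐ[ℚ] QBar} (h : σ x = ((legendreSym p D : ℤ) : QBar) * x) :
    sg x σ = ((legendreSym p D : ℤ) : ℂ) := by
  unfold sg
  rcases legendreSym.eq_one_or_neg_one p hD with h1 | h1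
  · rw [h1] at h ⊢
    rw [h]
    push_cast
    rw [one_mul, if_pos rfl]
  · rw [h1] at h ⊢
    rw [h]
    push_cast
    rw [neg_one_mul, if_neg (ne_neg h0)]

end signs

section main

variable {n M : ℕ} {d : Fin n → ℕ} {w : QBar} {s : Fin n → QBar}

/-- the roots -/
noncomputable def rt (w : QBar) (s : Fin n → QBar) : Option (Fin n) → QBar
  | none => 2 * w - 1
  | some i => s i

/-- their squares -/
def rd (d : Fin n → ℕ) : Option (Fin n) → ℤ
  | none => -7
  | some i => (d i : ℤ)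

lemma rt_sq (hw : w ^ 2 = w - 2) (hs : ∀ i, s i ^ 2 = (d i : QBar)) (o : Option (Fin n)) :
    rt w s o ^ 2 = ((rd d o : ℤ) : QBar) := by
  cases o with
  | none =>
    show (2 * w - 1) ^ 2 = _
    unfold rd
    push_cast
    linear_combination 4 * hw
  | some i =>
    show s i ^ 2 = _
    unfold rd
    push_cast
    exact hs i

lemma rd_ne (hd : ∀ i, d i ≠ 0) (o : Option (Fin n)) : rd d o ≠ 0 := by
  cases o with
  | none => unfold rd; norm_num
  | some i =>
    show ((d i : ℤ)) ≠ 0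
    exact_mod_cast hd i

lemma rt_ne (hw : w ^ 2 = w - 2) (hs : ∀ i, s i ^ 2 = (d i : QBar)) (hd : ∀ i, d i ≠ 0)
    (o : Option (Fin n)) : rt w s o ≠ 0 := by
  intro h
  have h1 := rt_sq hw hs o
  rw [h, zero_pow two_ne_zero] at h1
  exact rd_ne hd o (by exact_mod_cast h1.symm)

/-- **The tensor products.** -/
theorem tensor_lfun (hG : GoodW M d) (hw : w ^ 2 = w - 2) (hs : ∀ i, s i ^ 2 = (d i : QBar))
    {k : ℕ} (hk : Odd k) {κ : Type} [Fintype κ] [DecidableEq κ]
    (A : (QBar ≃ₐ[ℚ] QBar) → Matrix κ κ ℂ) (hA1 : A 1 = 1) (hAm : ∀ σ τ, A (σ * τ) = A σ * A τ)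
    (hAk : ∀ σ, σ w = w → (∀ i, σ (s i) = s i) → A σ = 1)
    (Fr : ℕ → (QBar ≃ₐ[ℚ] QBar) → Prop)
    (hFr : ∀ p σ, Fr p σ → ∃ P : Ideal AI, P.IsPrime ∧ (p : AI) ∈ P ∧
      ∀ x y : AI, (y : AlgebraicClosure ℚ) = σ (x : AlgebraicClosure ℚ) → y - x ^ p ∈ P) :
    ∃ Λ : ℂ → ℂ, Differentiable ℂ Λ ∧
      (∀ φ : HeightOneSpectrum (𝓞 ℚ) → (QBar ≃ₐ[ℚ] QBar), (∀ v, Fr (Ideal.absNorm v.asIdeal) (φ v)) →
        ∀ z : ℂ, (k : ℝ) + 1 / 2 < z.re →
        HasProd (fun v : HeightOneSpectrum (𝓞 ℚ) =>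
          if ((14 * M * ∏ i, d i : ℕ) : 𝓞 ℚ) ∈ v.asIdeal then 1 else
          (1 - (pw (aV (cur (M : ℚ)) v : ℂ) (eV (cur (M : ℚ)) v : ℂ) (2 * k - 1) *
            (Ideal.absNorm v.asIdeal : ℂ) ^ (-z)) • A (φ v) +
            ((eV (cur (M : ℚ)) v : ℂ) ^ (2 * k - 1) * ((Ideal.absNorm v.asIdeal : ℂ) ^ (-z)) ^ 2) •
              A (φ v) ^ 2).det⁻¹) (Λ z)) ∧
      Λ (k : ℂ) ≠ 0 := by
  obtain ⟨hM, hd, hM4, hd4, -⟩ := facts hG
  have hd4' : ∀ i, ∀ p ∈ sf (d i), p % 4 = 1 := by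
    intro i p hp
    refine hd4 {i} p ?_
    rwa [Finset.prod_singleton]
  have hN : 14 * M * ∏ i, d i ≠ 0 :=
    mul_ne_zero (mul_ne_zero (by norm_num) hM) (Finset.prod_ne_zero_iff.2 fun i _ => hd i)
  set π : Option (Fin n) → (QBar ≃ₐ[ℚ] QBar) → ℂ := fun o σ => sg (rt w s o) σ with hπ
  have hπm : ∀ o σ τ, π o (σ * τ) = π o σ * π o τ := fun o σ τ =>
    sg_mul (rt_sq hw hs o) (rt_ne hw hs hd o) σ τ
  have hker : ∀ σ, (∀ o, π o σ = 1) → A σ = 1 := by
    intro σ hσ
    refine hAk σ ?_ fun i => fix_of_sg (hσ (some i))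
    have h1 : σ (2 * w - 1) = 2 * w - 1 := fix_of_sg (hσ none)
    rw [map_sub, map_mul, map_one, map_ofNat] at h1
    have h2 : (2 : QBar) * (σ w - w) = 0 := by linear_combination h1
    rcases mul_eq_zero.1 h2 with h3 | h3
    · norm_num at h3
    · exact sub_eq_zero.1 h3
  have hπ1 : ∀ o, π o 1 = 1 := by
    intro o
    show sg (rt w s o) 1 = 1
    exact if_pos rfl
  have hsq : ∀ σ, A σ * A σ = 1 := by
    intro σ
    rw [← hAm]
    refine hker _ fun o => ?_
    rw [hπm]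
    rcases sg_pm (rt w s o) σ with h2 | h2
    · have h3 : π o σ = 1 := h2
      rw [h3, one_mul]
    · have h3 : π o σ = -1 := h2
      rw [h3]
      norm_num
  have hcomm : ∀ σ τ, A σ * A τ = A τ * A σ := by
    intro σ τ
    have h1 : A (σ * τ * (τ * σ)) = 1 := by
      refine hker _ fun o => ?_
      rw [hπm, hπm, hπm]
      rcases sg_pm (rt w s o) σ with h2 | h2 <;> rcases sg_pm (rt w s o) τ with h3 | h3
      all_goals
        have h4 : π o σ = _ := h2
        have h5 : π o τ = _ := h3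
        rw [h4, h5]
        norm_num
    rw [hAm, hAm, hAm] at h1
    calc A σ * A τ = (A σ * A τ) * ((A τ * A σ) * (A τ * A σ)) := by
          rw [← hAm τ σ, hsq, mul_one]
      _ = (A σ * A τ * (A τ * A σ)) * (A τ * A σ) := by rw [← mul_assoc]
      _ = A τ * A σ := by rw [h1, one_mul]
  obtain ⟨χ, hχm, hχs, hχ1, hdet⟩ := exists_char A hAm hcomm hsq
  have hχpm : ∀ j σ, χ j σ = 1 ∨ χ j σ = -1 := by
    intro j σ
    have h1 := hχs j σ
    have h2 : (χ j σ - 1) * (χ j σ + 1) = 0 := by linear_combination h1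
    rcases mul_eq_zero.1 h2 with h3 | h3
    · exact Or.inl (sub_eq_zero.1 h3)
    · exact Or.inr (eq_neg_of_add_eq_zero_left h3)
  have hT : ∀ j, ∃ T : Finset (Option (Fin n)), ∀ σ, χ j σ = ∏ o ∈ T, π o σ := fun j =>
    exists_prod (fun o σ => sg_pm (rt w s o) σ) hπm (hχpm j) (hχm j) fun σ hσ =>
      hχ1 j σ (hker σ hσ)
  choose T hT using hT
  set T0 : κ → Finset (Fin n) := fun j => Finset.univ.filter fun i => some i ∈ T j with hT0
  obtain ⟨Λ, g1, g2, g3⟩ := lprod hG hk hN T0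
  refine ⟨Λ, g1, fun φ hφ z hz => ?_, g3⟩
  have h1 := (Equiv.ofBijective _ rat_bij).hasProd_iff.2 (g2 z hz)
  convert h1 using 2 with v
  obtain ⟨hv1, hv2, hv3⟩ := rat_ideal v
  have hv2' : Ideal.absNorm v.asIdeal = (below v : ℕ) := hv2
  show _ = ((fun p : Nat.Primes => if (p : ℕ) ∣ (14 * M * ∏ i, d i) then (1 : ℂ) else
        ∏ j, (uu (xx (symmDiff (sf M) (sf (∏ i ∈ T0 j, d i))) p) p (2 * (k - 1) + 1) z)⁻¹)) (below v)
  have hiff : ((14 * M * ∏ i, d i : ℕ) : 𝓞 ℚ) ∈ v.asIdeal ↔ (below v : ℕ) ∣ (14 * M * ∏ i, d i) := by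
    constructor
    · intro h
      by_contra hnd
      have hcop : IsCoprime ((below v : ℕ) : ℤ) ((14 * M * ∏ i, d i : ℕ) : ℤ) :=
        Nat.isCoprime_iff_coprime.2 ((Nat.Prime.coprime_iff_not_dvd (below v).2).2 hnd)
      obtain ⟨a, b, hab⟩ := hcop
      apply v.isPrime.ne_top
      rw [Ideal.eq_top_iff_one]
      have e : (1 : 𝓞 ℚ) = (a : 𝓞 ℚ) * ((below v : ℕ) : 𝓞 ℚ) +
          (b : 𝓞 ℚ) * ((14 * M * ∏ i, d i : ℕ) : 𝓞 ℚ) := by
        have := congrArg (fun t : ℤ => (t : 𝓞 ℚ)) hab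
        simp only [Int.cast_add, Int.cast_mul, Int.cast_natCast, Int.cast_one] at this
        exact this.symm
      rw [e]
      exact add_mem (Ideal.mul_mem_left _ _ (nm_eq v).2.2) (Ideal.mul_mem_left _ _ h)
    · rintro ⟨m, hm⟩
      rw [hm, Nat.cast_mul]
      exact Ideal.mul_mem_right _ _ (nm_eq v).2.2
  by_cases hb : (below v : ℕ) ∣ (14 * M * ∏ i, d i)
  · rw [if_pos (hiff.2 hb)]
    exact (if_pos hb).symm
  · rw [if_neg fun h => hb (hiff.1 h)]
    refine Eq.trans ?_ (if_neg hb).symm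
    set p : ℕ := (below v : ℕ) with hp
    have hpp : p.Prime := (below v).2
    have hpM : ¬ p ∣ M := fun h => hb (Dvd.dvd.mul_right (Dvd.dvd.mul_left h _) _)
    have hpd : ∀ i, ¬ p ∣ d i := fun i h =>
      hb (Dvd.dvd.mul_left (h.trans (Finset.dvd_prod_of_mem d (Finset.mem_univ i))) _)
    have hp14 : ¬ p ∣ 14 := fun h => hb (Dvd.dvd.mul_right (Dvd.dvd.mul_right h _) _)
    have hp2 : p ≠ 2 := fun h => hp14 (by rw [h]; norm_num)
    have hp7 : p ≠ 7 := fun h => hp14 (by rw [h]; norm_num)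
    have hf : Fact p.Prime := ⟨hpp⟩
    obtain ⟨c1, c2⟩ := co_rat hM hM4 v hpM
    have hk1 : 2 * k - 1 = 2 * (k - 1) + 1 := by
      have := hk.pos
      omega
    have hx2 : xx (sf M) p ^ 2 = 1 :=
      xx_sq (fun q hq => (mem_sf.1 hq).1) hpp (not_mem_sf hpM)
    set a := pw (bc p) (ec p) (2 * (k - 1) + 1) with ha
    have hpw : pw (aV (cur (M : ℚ)) v : ℂ) (eV (cur (M : ℚ)) v : ℂ) (2 * k - 1) =
        xx (sf M) p * a := by
      rw [c1, c2, hk1]
      have e1 : ec p = xx (sf M) p ^ 2 * ec p := by rw [hx2, one_mul]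
      have e2 : pw (xx (sf M) p * bc p) (ec p) (2 * (k - 1) + 1) =
          pw (xx (sf M) p * bc p) (xx (sf M) p ^ 2 * ec p) (2 * (k - 1) + 1) := by rw [← e1]
      rw [e2, pw_smul, Run7.h359.BK.sgn_pow_odd (Or.inr hx2) (k - 1)]
    rw [hpw, c2, hk1, hv2', hdet, ← Finset.prod_inv_distrib]
    refine Finset.prod_congr rfl fun j _ => ?_
    congr 1
    -- the value of the character at the Frobenius
    have hF := hφ v
    rw [hv2'] at hF
    obtain ⟨P, hP, hpP, hσ⟩ := hFr _ _ hF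
    have h7z : (((-7 : ℤ)) : ZMod p) ≠ 0 := by
      intro h
      have h3 := (ZMod.intCast_zmod_eq_zero_iff_dvd (-7) p).1 h
      have h4 : (p : ℤ) ∣ 7 := by
        have := (dvd_neg (α := ℤ)).2 h3
        simpa using this
      have h5 : p ∣ 7 := by exact_mod_cast h4
      exact hp7 ((Nat.prime_dvd_prime_iff_eq hpp (by norm_num)).1 h5)
    have hdz : ∀ i, (((d i : ℤ)) : ZMod p) ≠ 0 := by
      intro i h
      have h3 := (ZMod.intCast_zmod_eq_zero_iff_dvd (d i : ℤ) p).1 h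
      exact hpd i (by exact_mod_cast h3)
    have v1 : ∀ i, π (some i) (φ v) = xx (sf (d i)) p := by
      intro i
      have h3 := frob_sqrt hp2 hP hpP hσ (rt_sq hw hs (some i)) (by
        intro h
        have h' : (p : ℤ) ∣ (d i : ℤ) := h
        exact hpd i (by exact_mod_cast h'))
      rw [show π (some i) (φ v) = sg (rt w s (some i)) (φ v) from rfl,
        sg_frob (rt_ne hw hs hd (some i)) (hdz i) h3]
      exact leg_xx hp2 (hd i) (hd4' i) (hpd i)
    have v2 : π none (φ v) * a = a := by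
      have h3 := frob_sqrt hp2 hP hpP hσ (rt_sq (d := d) hw hs none) (by
        intro h
        exact h7z ((ZMod.intCast_zmod_eq_zero_iff_dvd (-7) p).2 h))
      rw [show π none (φ v) = sg (rt w s none) (φ v) from rfl,
        sg_frob (rt_ne hw hs hd none) h7z h3]
      rcases legendreSym.eq_one_or_neg_one p h7z with h4 | h4
      · have h5 : legendreSym p (rd d none) = 1 := h4
        rw [h4]
        push_cast
        rw [one_mul]
      · have h6 : a = 0 := by rw [ha, bc_zero_of hp2 h4, pw_zero_odd]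
        rw [h6, mul_zero]
    have v3 : χ j (φ v) * (xx (sf M) p * a) =
        xx (symmDiff (sf M) (sf (∏ i ∈ T0 j, d i))) p * a := by
      rw [xx_all hd hpp hpd hpM, hT j]
      have e1 : ∏ o ∈ T j, π o (φ v) = (if none ∈ T j then π none (φ v) else 1) *
          ∏ i ∈ T0 j, π (some i) (φ v) := by
        have e2 : T j = (if none ∈ T j then {none} else ∅) ∪ (T0 j).map Function.Embedding.some := by
          ext o
          cases o with
          | none =>
            by_cases ho : none ∈ T j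
            · simp [ho]
            · simp [ho]
          | some i =>
            by_cases ho : none ∈ T j
            · simp [ho, hT0]
            · simp [ho, hT0]
        conv_lhs => rw [e2]
        rw [Finset.prod_union]
        · congr 1
          · split_ifs with ho
            · rw [Finset.prod_singleton]
            · rw [Finset.prod_empty]
          · rw [Finset.prod_map]
            rfl
        · rw [Finset.disjoint_left]
          intro o ho ho'
          rw [Finset.mem_map] at ho'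
          obtain ⟨i, -, hi⟩ := ho'
          rw [← hi] at ho
          split_ifs at ho with h5
          · rw [Finset.mem_singleton] at ho
            exact absurd ho (by simp)
          · exact absurd ho (Finset.notMem_empty _)
      have e3 : ∏ i ∈ T0 j, π (some i) (φ v) = ∏ i ∈ T0 j, xx (sf (d i)) p :=
        Finset.prod_congr rfl fun i _ => v1 i
      rw [e1, e3]
      split_ifs
      · linear_combination (xx (sf M) p * ∏ i ∈ T0 j, xx (sf (d i)) p) * v2
      · ring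
    have hX2 : xx (symmDiff (sf M) (sf (∏ i ∈ T0 j, d i))) p ^ 2 = 1 := by
      rw [xx_all hd hpp hpd hpM, mul_pow, hx2, one_mul, ← Finset.prod_pow]
      exact Finset.prod_eq_one fun i _ =>
        xx_sq (fun q hq => (mem_sf.1 hq).1) hpp (not_mem_sf (hpd i))
    unfold uu
    rw [hX2, one_mul, ← ha, hχs j (φ v), one_mul]
    linear_combination (-((p : ℕ) : ℂ) ^ (-z)) * v3

end main

end Run7.h359.TP
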