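import Pool.Agent.Run7.h359.Lf
import Pool.Agent.Results.MP_787500_nt.AllWeightsMultiquadraticX49

/-!
# The central values for all the twists of rank zero
-/

set_option autoImplicit false

namespace Run7.h359.EU

open Pool.Agent.Results.MP_787500_nt.AllWeightsMultiquadraticX49
open NumberField IsDedekindDomain WeierstrassCurve
open scoped Classical

/-- the central values for all the squarefree `D = 1` modulo `8` with prime factors `1` modulo `4` -/
theorem wide {D k : ℕ} (hsq : Squarefree D) (h8 : D % 8 = 1) (hp4 : ∀ p ∈ D.primeFactors, p % 4 = 1)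
    (hR : RankZeroShaTwo D) (hk : Odd k) :
    ∃ F : ℂ → ℂ, Differentiable ℂ F ∧
    (∀ z : ℂ, (k : ℝ) + 1 / 2 < z.re → HasProd (fac (E D) (2 * k - 1) z) (F z)) ∧
    F (k : ℂ) ≠ 0 := by
  set Q := D.primeFactors.filter fun p => ¬ IsSquare (-7 : ZMod p) with hQd
  set P := D.primeFactors.filter fun p => IsSquare (-7 : ZMod p) with hPd
  have hQ : ∀ q ∈ Q, Pool.Agent.Y698.Inq q := fun q hq =>
    ⟨Nat.prime_of_mem_primeFactors (Finset.mem_filter.1 hq).1, hp4 q (Finset.mem_filter.1 hq).1,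
      (Finset.mem_filter.1 hq).2⟩
  have hP : ∀ q ∈ P, Pool.Agent.Y698.SG.Spl q := fun q hq =>
    ⟨Nat.prime_of_mem_primeFactors (Finset.mem_filter.1 hq).1, hp4 q (Finset.mem_filter.1 hq).1,
      (Finset.mem_filter.1 hq).2⟩
  have hu : Q ∪ P = D.primeFactors := by
    rw [Finset.union_comm]
    exact Finset.filter_union_filter_not_eq _ _
  have hDu : ∏ q ∈ Q ∪ P, q = D := by rw [hu, Nat.prod_primeFactors_of_squarefree hsq]
  obtain ⟨r, hr, hrD⟩ := exists_aux D hsq.ne_zero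
  have hrf : Fact r.Prime := ⟨hr.pr⟩
  have hM : IsCyclotomicExtension {r} ℚ (CyclotomicField r ℚ) := Pool.Agent.Y698.cyc_inst r
  have hd : Pool.Agent.R428.Q0.DQ r Q P := ⟨hr, fun q hq => ⟨hQ q hq, by
    rintro rfl
    exact hrD (Nat.dvd_of_mem_primeFactors (Finset.mem_filter.1 hq).1)⟩, hP⟩
  obtain ⟨j, hj⟩ : ∃ j, D = 1 + 4 * j := ⟨D / 4, by omega⟩
  have hE : E D = Pool.Agent.Y698.AX ℚ j := by
    unfold E Pool.Agent.Y698.AX Pool.Agent.Y698.EX
    rw [hj]
    congr 1
    · push_cast; ring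
    · push_cast; ring
    · push_cast; ring
  have hg : (Pool.Agent.Y698.SG.mat Q P).det ≠ 0 := by
    unfold RankZeroShaTwo at hR
    rw [hE] at hR
    exact Pool.Agent.R428.Q0.conv0 (CyclotomicField r ℚ) ℚ hd (hDu.trans hj) hR.1 fun x hx =>
      hR.2 x (by rw [two_nsmul]; exact hx)
  obtain ⟨F, g1, g2, g3⟩ := all_odd hQ hP hg (by rw [hu]; exact qch_two hsq h8) (hDu.trans hj) hk
  refine ⟨F, g1, fun s hs => ?_, g3⟩
  rw [hE]
  exact g2 s hs

end Run7.h359.EU
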