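import Pool.Agent.Y698.SG.Wc
import Pool.Agent.Y547.SG.Ns
import Pool.Agent.R384.X.Alg7
import Pool.Agent.R384.X.Rat7

/-!
# The factorization of the rational integers of the wide class

Adapted from `Pool/Agent/R384/X/Idx7` (starting file), for all the prime numbers `1` modulo `4`.
-/

set_option autoImplicit false
set_option linter.unusedSectionVars false

namespace Run7.h359.WS

open QuadraticAlgebra Pool.Agent.R384

open scoped NumberTheorySymbols Classical

open Pool.Agent.Y698.SG (ix Sym xm S_NS2 nq n4 mat Spl)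
open Pool.Agent.Y698 (Inq)

lemma jac_of_spl {p : ℕ} (h : Spl p) (h7 : p ≠ 7) : J(-7 | p) = 1 := by
  have : Fact p.Prime := ⟨h.pr⟩
  rw [← jacobiSym.legendreSym.to_jacobiSym]
  have h0 : ((-7 : ℤ) : ZMod p) ≠ 0 := by
    rw [Ne, ZMod.intCast_zmod_eq_zero_iff_dvd, dvd_neg]
    intro h1
    exact h7 ((Nat.prime_dvd_prime_iff_eq h.pr (by norm_num)).1 (by exact_mod_cast h1))
  rw [legendreSym.eq_one_iff _ h0]
  have := h.sq
  push_cast
  exact this

lemma spl7 {p : ℕ} (h : Spl p) : p ≠ 7 := by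
  rintro rfl
  have := h.m4
  omega

lemma Spl_jac {p : ℕ} (h : Spl p) : J(-7 | p) = 1 := jac_of_spl h (spl7 h)

lemma inq7 {p : ℕ} (h : Inq p) : p ≠ 7 := by
  rintro rfl
  have := h.m4
  omega

lemma Inq_jac' {l : ℕ} (h : Inq l) : J(-7 | l) = -1 := by
  have : Fact l.Prime := ⟨h.pr⟩
  rw [← jacobiSym.legendreSym.to_jacobiSym]
  have h0 : ((-7 : ℤ) : ZMod l) ≠ 0 := by
    rw [Ne, ZMod.intCast_zmod_eq_zero_iff_dvd, dvd_neg]
    intro h1
    exact inq7 h ((Nat.prime_dvd_prime_iff_eq h.pr (by norm_num)).1 (by exact_mod_cast h1))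
  rw [legendreSym.eq_neg_one_iff]
  have := h.ns
  push_cast
  exact this

lemma Inq_jac {l : ℕ} (h : Inq l) : J(7 | l) = -1 := by
  rw [← jac_neg7 h.m4, Inq_jac' h]

lemma Inq_prime {l : ℕ} (h : Inq l) : Prime ((l : ℤ) : OO) := by
  have : Fact l.Prime := ⟨h.pr⟩
  exact inert_prime (Inq_jac' h)

lemma Inq_Pr {l : ℕ} (h : Inq l) : Pr ((l : ℤ) : OO) := by
  refine ⟨Inq_prime h, four_dvd ?_ ?_⟩
  · simp
    have := h.m4
    omega
  · simp

lemma pe_wide {p : ℕ} (h : Spl p) : Pr (pe p) ∧ nn (pe p) = p := by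
  have h1 : ∃ π : OO, Pr π ∧ nn π = p := exists_norm7 h.pr h.m4 (Spl_jac h)
  unfold pe
  rw [dif_pos h1]
  exact h1.choose_spec

lemma qs_inq {l : ℕ} (h : Inq l) : qs ((l : ℤ) : OO) s7 = 1 := by
  have Fl : Fact l.Prime := ⟨h.pr⟩
  have h01 : ∀ a : ZMod 2, ¬ a = 0 → a = 1 := by decide
  apply h01
  have h4 := h.m4
  rw [qs_zero, inert_symb (Or.inl rfl) (by rintro rfl; omega) (Inq_prime h) (by omega)
    (Inq_Pr h).not_s7, nn_s7, Inq_jac h]
  norm_num

lemma qs_iiq {l l' : ℕ} (h : Inq l) (h' : Inq l') (hne : l ≠ l') :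
    qs ((l : ℤ) : OO) ((l' : ℤ) : OO) = 0 := by
  have Fl : Fact l.Prime := ⟨h.pr⟩
  have h4 := h.m4
  refine recip_ii (Inq_Pr h) (Inq_Pr h') ?_ (by rintro rfl; omega) (Or.inl rfl) (by omega) rfl rfl
  intro h1
  have h2 := congrArg QuadraticAlgebra.re h1
  simp at h2
  exact hne h2

lemma qs_ppw {p p' : ℕ} (hp : Spl p) (hp' : Spl p') (hne : p ≠ p') :
    qs (pe p) (pe p') + qs (pe p) (cj (pe p')) = nq7 p p' := by
  obtain ⟨h1, h2⟩ := pe_wide hp
  obtain ⟨h3, h4⟩ := pe_wide hp'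
  have hnd : ¬ p ∣ p' := fun h => hne ((Nat.prime_dvd_prime_iff_eq hp.pr hp'.pr).1 h)
  rw [← qs_mul h1 (sp_not_dvd h2 h4 hnd)
    (sp_not_dvd h2 (by rw [nn_cj]; exact h4) hnd), mul_cj, h4,
    ← qs_nq hp.pr h1.prime h2 hnd]

/-- the prime factors -/
noncomputable def fm (i : ℕ × Bool) : OO :=
  if IsSquare (-7 : ZMod i.1) then (if i.2 = true then cj (pe i.1) else pe i.1) else ((i.1 : ℤ) : OO)

lemma fm_q {l : ℕ} (h : Inq l) (b : Bool) : fm (l, b) = ((l : ℤ) : OO) :=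
  if_neg h.ns

lemma fm_f {p : ℕ} (h : Spl p) : fm (p, false) = pe p := by
  unfold fm
  rw [if_pos h.sq, if_neg (by simp)]

lemma fm_t {p : ℕ} (h : Spl p) : fm (p, true) = cj (pe p) := by
  unfold fm
  rw [if_pos h.sq, if_pos rfl]

section fam

variable {Q P : Finset ℕ} (hQ : ∀ q ∈ Q, Inq q) (hP : ∀ p ∈ P, Spl p)

include hQ hP

lemma disj7 : Disjoint Q P := by
  rw [Finset.disjoint_left]
  intro a h1 h2
  exact (hQ a h1).ns (hP a h2).sq

omit hQ hP in
lemma mem_ix7 {i : ℕ × Bool} : i ∈ ix Q P ↔ (i.2 = false ∧ i.1 ∈ Q) ∨ i.1 ∈ P := by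
  unfold ix
  rw [Finset.mem_union, Finset.mem_product, Finset.mem_product, Finset.mem_union,
    Finset.mem_singleton, Finset.mem_singleton]
  rcases i with ⟨a, b⟩
  cases b <;> simp

lemma prod_ix7 {M : Type*} [CommMonoid M] (f : ℕ × Bool → M) :
    ∏ i ∈ ix Q P, f i = (∏ q ∈ Q, f (q, false)) * ∏ p ∈ P, (f (p, false) * f (p, true)) := by
  unfold ix
  rw [Finset.prod_union, Finset.prod_product, Finset.prod_product]
  · simp only [Finset.prod_singleton]
    rw [Finset.prod_union (disj7 hQ hP), Finset.prod_mul_distrib, mul_assoc]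
  · rw [Finset.disjoint_left]
    rintro ⟨a, b⟩ h1 h2
    rw [Finset.mem_product, Finset.mem_singleton] at h1 h2
    have h3 : b = false := h1.2
    have h4 : b = true := h2.2
    rw [h3] at h4
    exact Bool.noConfusion h4

lemma fm_Pr {i : ℕ × Bool} (hi : i ∈ ix Q P) : Pr (fm i) := by
  rcases i with ⟨a, b⟩
  rcases mem_ix7.1 hi with ⟨-, h⟩ | h
  · rw [fm_q (hQ a h)]
    exact Inq_Pr (hQ a h)
  · cases b
    · rw [fm_f (hP a h)]
      exact (pe_wide (hP a h)).1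
    · rw [fm_t (hP a h)]
      exact (pe_wide (hP a h)).1.cj

/-- the norms -/
lemma fm_nn {i : ℕ × Bool} (hi : i ∈ ix Q P) : (i.1 ∈ Q ∧ nn (fm i) = (i.1 : ℤ) ^ 2) ∨
    (i.1 ∈ P ∧ nn (fm i) = i.1) := by
  rcases i with ⟨a, b⟩
  rcases mem_ix7.1 hi with ⟨-, h⟩ | h
  · left
    refine ⟨h, ?_⟩
    rw [fm_q (hQ a h), nn_int]
  · right
    refine ⟨h, ?_⟩
    cases b
    · rw [fm_f (hP a h)]
      exact (pe_wide (hP a h)).2
    · rw [fm_t (hP a h), nn_cj]
      exact (pe_wide (hP a h)).2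

lemma fm_inj {i j : ℕ × Bool} (hi : i ∈ ix Q P) (hj : j ∈ ix Q P) (h : fm i = fm j) : i = j := by
  have hpr : ∀ i ∈ ix Q P, i.1.Prime := by
    intro i hi
    rcases mem_ix7.1 hi with ⟨-, h⟩ | h
    · exact (hQ _ h).pr
    · exact (hP _ h).pr
  have hd := Finset.disjoint_left.1 (disj7 hQ hP)
  have h1 : i.1 = j.1 := by
    have hn : nn (fm i) = nn (fm j) := by rw [h]
    have h2 : i.1 ∣ j.1 := by
      have h3 : (i.1 : ℤ) ∣ (j.1 : ℤ) ^ 2 := by
        have h4 : (i.1 : ℤ) ∣ nn (fm i) := by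
          rcases fm_nn hQ hP hi with ⟨-, h⟩ | ⟨-, h⟩ <;> rw [h]
          exact Dvd.intro_left (i.1 : ℤ) (by ring)
        have h5 : nn (fm j) ∣ (j.1 : ℤ) ^ 2 := by
          rcases fm_nn hQ hP hj with ⟨-, h⟩ | ⟨-, h⟩ <;> rw [h]
          exact Dvd.intro_left (j.1 : ℤ) (by ring)
        rw [hn] at h4
        exact h4.trans h5
      have h4 : i.1 ∣ j.1 ^ 2 := by exact_mod_cast h3
      exact (hpr i hi).dvd_of_dvd_pow h4
    exact (Nat.prime_dvd_prime_iff_eq (hpr i hi) (hpr j hj)).1 h2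
  rcases i with ⟨a, b⟩
  rcases j with ⟨a', b'⟩
  have h1' : a = a' := h1
  subst h1'
  rcases mem_ix7.1 hi with ⟨hb, ha⟩ | ha
  · rcases mem_ix7.1 hj with ⟨hb', -⟩ | ha'
    · have e1 : b = false := hb
      have e2 : b' = false := hb'
      rw [e1, e2]
    · exact absurd ha' (hd ha)
  · obtain ⟨hpr, hpn⟩ := pe_wide (hP a ha)
    have Fa : Fact a.Prime := ⟨(hP a ha).pr⟩
    have him := split_im_ne hpr.prime hpn
    have hne : pe a ≠ cj (pe a) := by
      intro h2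
      have h3 := congrArg QuadraticAlgebra.im h2
      simp only [cj] at h3
      exact him (by omega)
    cases b <;> cases b'
    · rfl
    · rw [fm_f (hP a ha), fm_t (hP a ha)] at h
      exact absurd h hne
    · rw [fm_f (hP a ha), fm_t (hP a ha)] at h
      exact absurd h.symm hne
    · rfl

lemma fm_prod : ∏ i ∈ ix Q P, fm i = (((∏ p ∈ Q ∪ P, p : ℕ) : ℤ) : OO) := by
  rw [prod_ix7 hQ hP, Finset.prod_union (disj7 hQ hP)]
  push_cast
  congr 1
  · refine Finset.prod_congr rfl fun q hq => ?_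
    rw [fm_q (hQ q hq)]
    push_cast
    rfl
  · refine Finset.prod_congr rfl fun p hp => ?_
    rw [fm_f (hP p hp), fm_t (hP p hp), mul_cj, (pe_wide (hP p hp)).2]
    push_cast
    rfl

/-- the symmetries -/
lemma sym7 : Sym Q P (fun i => qs (fm i) s7) (fun i j => qs (fm i) (fm j)) := by
  refine ⟨disj7 hQ hP, ?_, ?_, ?_, ?_, ?_, ?_, ?_⟩
  · intro q hq
    show qs (fm (q, false)) s7 = 1
    rw [fm_q (hQ q hq), qs_inq (hQ q hq)]
  · intro p hp
    show qs (fm (p, true)) s7 = qs (fm (p, false)) s7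
    rw [fm_f (hP p hp), fm_t (hP p hp), qs_cj_s7 (pe_wide (hP p hp)).1]
  · intro q hq q' hq' hne
    show qs (fm (q, false)) (fm (q', false)) = 0
    rw [fm_q (hQ q hq), fm_q (hQ q' hq'), qs_iiq (hQ q hq) (hQ q' hq') hne]
  · intro q hq p hp
    show qs (fm (q, false)) (fm (p, true)) = qs (fm (q, false)) (fm (p, false))
    rw [fm_q (hQ q hq), fm_f (hP p hp), fm_t (hP p hp)]
    have h1 := qs_cj ((q : ℤ) : OO) (pe p)
    rwa [cj_int] at h1
  · intro q hq p hp
    show qs (fm (p, true)) (fm (q, false)) = qs (fm (p, false)) (fm (q, false))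
    rw [fm_q (hQ q hq), fm_f (hP p hp), fm_t (hP p hp)]
    have h1 := qs_cj (pe p) ((q : ℤ) : OO)
    rwa [cj_int] at h1
  · intro p hp p' hp' _
    show qs (fm (p, true)) (fm (p', true)) = qs (fm (p, false)) (fm (p', false))
    rw [fm_f (hP p hp), fm_t (hP p hp), fm_f (hP p' hp'), fm_t (hP p' hp'), qs_cj]
  · intro p hp p' hp'
    show qs (fm (p, true)) (fm (p', false)) = qs (fm (p, false)) (fm (p', true))
    rw [fm_f (hP p hp), fm_t (hP p hp), fm_f (hP p' hp'), fm_t (hP p' hp')]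
    have h1 := qs_cj (pe p) (cj (pe p'))
    rwa [cj_cj] at h1

omit hQ hP in
lemma nq7_eq (p m : ℕ) : nq7 p m = nq p m := by
  unfold nq7 nq
  split_ifs <;> rfl

omit hQ hP in
lemma n47_eq (p : ℕ) : n47 p = n4 p := by
  unfold n47 n4
  split_ifs <;> rfl

/-- the small matrix -/
lemma xm7 : xm Q P (fun i => qs (fm i) s7) (fun i j => qs (fm i) (fm j)) = mat Q P := by
  have hd := Finset.disjoint_left.1 (disj7 hQ hP)
  have key : ∀ p ∈ P, ∀ p' ∈ P, p ≠ p' → qs (fm (p, false)) (fm (p', false)) +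
      qs (fm (p, false)) (fm (p', true)) = nq p p' := by
    intro p hp p' hp' hne
    rw [fm_f (hP p hp), fm_f (hP p' hp'), fm_t (hP p' hp'), qs_ppw (hP p hp) (hP p' hp') hne,
      nq7_eq]
  ext i j
  unfold xm mat
  rw [Matrix.of_apply, Matrix.of_apply]
  by_cases hij : i = j
  · rw [if_pos hij, if_pos hij]
    congr 1
    · congr 1
      · show qs (fm ((i : ℕ), false)) s7 = _
        rw [fm_f (hP _ i.2), qs_n4 (hP _ i.2).pr (pe_wide (hP _ i.2)).1 (pe_wide (hP _ i.2)).2,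
          n47_eq]
      · refine Finset.sum_congr rfl fun q hq => ?_
        show qs (fm ((i : ℕ), false)) (fm (q, false)) = _
        have hqp : ¬ (i : ℕ) ∣ q := fun h => hd hq (by
          rw [← (Nat.prime_dvd_prime_iff_eq (hP _ i.2).pr (hQ q hq).pr).1 h]
          exact i.2)
        rw [fm_f (hP _ i.2), fm_q (hQ q hq), qs_nq (hP _ i.2).pr (pe_wide (hP _ i.2)).1.prime
          (pe_wide (hP _ i.2)).2 hqp, nq7_eq]
    · refine Finset.sum_congr rfl fun p hp => ?_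
      rw [Finset.mem_erase] at hp
      exact key _ i.2 _ hp.2 (Ne.symm hp.1)
  · rw [if_neg hij, if_neg hij]
    exact key _ i.2 _ j.2 (fun h => hij (Subtype.ext h))

/-- **the condition on the symbols** -/
theorem indec7 (hdet : (mat Q P).det ≠ 0) {n : ℕ} (e : Fin n ≃ ↥(ix Q P)) :
    Indec7 (fun k => fm (e k)) := by
  intro S h1 h2
  set T : Finset (ℕ × Bool) := S.image (fun k => ((e k : ↥(ix Q P)) : ℕ × Bool)) with hT
  have hinj : Function.Injective (fun k => ((e k : ↥(ix Q P)) : ℕ × Bool)) :=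
    Subtype.val_injective.comp e.injective
  have hTs : T ⊆ ix Q P := by
    intro i hi
    obtain ⟨k, -, rfl⟩ := Finset.mem_image.1 hi
    exact (e k).2
  have hmem : ∀ k, ((e k : ↥(ix Q P)) : ℕ × Bool) ∈ T ↔ k ∈ S := by
    intro k
    constructor
    · intro h
      obtain ⟨k', hk', h3⟩ := Finset.mem_image.1 h
      rwa [← hinj h3]
    · intro h
      exact Finset.mem_image.2 ⟨k, h, rfl⟩
  have hTc : ix Q P \ T = Sᶜ.image (fun k => ((e k : ↥(ix Q P)) : ℕ × Bool)) := by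
    ext i
    constructor
    · intro h
      obtain ⟨h3, h4⟩ := Finset.mem_sdiff.1 h
      refine Finset.mem_image.2 ⟨e.symm ⟨i, h3⟩, ?_, by simp⟩
      rw [Finset.mem_compl, ← hmem]
      simpa using h4
    · intro h
      obtain ⟨k, hk, rfl⟩ := Finset.mem_image.1 h
      refine Finset.mem_sdiff.2 ⟨(e k).2, ?_⟩
      rw [hmem]
      simpa using hk
  have hsum : ∀ (A : Finset (Fin n)) (f : ℕ × Bool → ZMod 2),
      ∑ j ∈ A.image (fun k => ((e k : ↥(ix Q P)) : ℕ × Bool)), f j = ∑ k ∈ A, f (e k) :=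
    fun A f => Finset.sum_image fun a _ b _ h => hinj h
  have h3 := Pool.Agent.Y547.SG.t_NS2 Q P (fun i => qs (fm i) s7) (fun i j => qs (fm i) (fm j))
    (sym7 hQ hP) (by rwa [xm7 hQ hP]) T hTs (by
      intro i hi
      rw [hTc, Finset.mem_image] at hi
      obtain ⟨k, hk, rfl⟩ := hi
      rw [hT, hsum]
      exact h1 k (by simpa using hk)) (by
      intro i hi
      rw [hT, Finset.mem_image] at hi
      obtain ⟨k, hk, rfl⟩ := hi
      rw [hTc, hsum]
      exact h2 k hk)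
  rw [hT, Finset.image_eq_empty] at h3
  exact h3

end fam

/-- **the factorization** -/
theorem factorW {D : ℕ} (hsq : Squarefree D) (h4 : ∀ p ∈ D.primeFactors, p % 4 = 1)
    (h8 : D % 8 = 1) (hdet : (mat (D.primeFactors.filter fun p => ¬ IsSquare (-7 : ZMod p))
      (D.primeFactors.filter fun p => IsSquare (-7 : ZMod p))).det ≠ 0) :
    ∃ (n : ℕ) (q : Fin n → OO), (∀ i, Pr (q i)) ∧ Function.Injective q ∧
      (8 : OO) ∣ ∏ i, q i - 1 ∧ Indec7 q ∧ ∏ i, q i = ((D : ℤ) : OO) := by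
  set Q := D.primeFactors.filter fun p => ¬ IsSquare (-7 : ZMod p) with hQd
  set P := D.primeFactors.filter fun p => IsSquare (-7 : ZMod p) with hPd
  have hQ : ∀ q ∈ Q, Inq q := fun q hq =>
    ⟨Nat.prime_of_mem_primeFactors (Finset.mem_filter.1 hq).1, h4 q (Finset.mem_filter.1 hq).1,
      (Finset.mem_filter.1 hq).2⟩
  have hP : ∀ q ∈ P, Spl q := fun q hq =>
    ⟨Nat.prime_of_mem_primeFactors (Finset.mem_filter.1 hq).1, h4 q (Finset.mem_filter.1 hq).1,
      (Finset.mem_filter.1 hq).2⟩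
  have hU : ∏ p ∈ Q ∪ P, p = D := by
    rw [hQd, hPd, Finset.union_comm, Finset.filter_union_filter_not_eq]
    exact Nat.prod_primeFactors_of_squarefree hsq
  let e : Fin (ix Q P).card ≃ ↥(ix Q P) := (ix Q P).equivFin.symm
  have hprod : ∏ i, fm (e i) = ((D : ℤ) : OO) := by
    have h1 : ∏ i, fm (e i) = ∏ i : ↥(ix Q P), fm i := e.prod_comp (fun i : ↥(ix Q P) => fm i)
    rw [h1, Finset.prod_coe_sort, fm_prod hQ hP, hU]
  refine ⟨_, fun k => fm (e k), fun k => fm_Pr hQ hP (e k).2, ?_, ?_, indec7 hQ hP hdet e, hprod⟩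
  · intro a b h
    exact e.injective (Subtype.ext (fm_inj hQ hP (e a).2 (e b).2 h))
  · rw [hprod]
    obtain ⟨t, ht⟩ : ∃ t : ℤ, (D : ℤ) = 8 * t + 1 := ⟨(D : ℤ) / 8, by omega⟩
    rw [ht]
    refine ⟨(t : OO), ?_⟩
    push_cast
    ring

end Run7.h359.WS
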