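import Pool.Agent.Run7.h359.Alw
import Pool.Agent.Run7.h359.Wid
import Pool.Agent.Run7.h359.Wsel

/-!
# The Selmer groups and the invariants for the wide class
-/

set_option autoImplicit false

namespace Run7.h359.WD

open Pool.Agent.Results.MP_787500_nt.AllWeightsMultiquadraticX49
open Pool.Agent.Results.MP_6e2fc3_nt.CMFormsAllWeights
open WeierstrassCurve Run7.h359.IV
open scoped Classical

/-- The wide class: `D = 1 mod 8` is squarefree with all prime factors `1 mod 4`. -/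
def W8 (D : ℕ) : Prop := Squarefree D ∧ D % 8 = 1 ∧ ∀ p : ℕ, p.Prime → p ∣ D → p % 4 = 1

/-- All the `M ∏_{i ∈ T} d_i` are, up to squares, numbers `D` of the wide class with `E_D(ℚ)` finite and
`Ш(E_D/ℚ)[2] = 0`. -/
def GoodW {n : ℕ} (M : ℕ) (d : Fin n → ℕ) : Prop :=
  ∀ T : Finset (Fin n), ∃ D k : ℕ, k ≠ 0 ∧ W8 D ∧ RankZeroShaTwo D ∧ M * ∏ i ∈ T, d i = D * k ^ 2

/-- the matrix -/
theorem det_ne {D : ℕ} (hD : W8 D) (hR : RankZeroShaTwo D) :
    (Pool.Agent.Y698.SG.mat (D.primeFactors.filter fun p => ¬ IsSquare (-7 : ZMod p))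
      (D.primeFactors.filter fun p => IsSquare (-7 : ZMod p))).det ≠ 0 := by
  obtain ⟨hsq, h8, hp4'⟩ := hD
  have hp4 : ∀ p ∈ D.primeFactors, p % 4 = 1 := fun p hp =>
    hp4' p (Nat.prime_of_mem_primeFactors hp) (Nat.dvd_of_mem_primeFactors hp)
  set Q := D.primeFactors.filter fun p => ¬ IsSquare (-7 : ZMod p) with hQd
  set P := D.primeFactors.filter fun p => IsSquare (-7 : ZMod p) with hPd
  have hQ : ∀ q ∈ Q, Pool.Agent.Y698.Inq q := fun q hq =>
    ⟨Nat.prime_of_mem_primeFactors (Finset.mem_filter.1 hq).1, hp4 q (Finset.mem_filter.1 hq).1,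
      (Finset.mem_filter.1 hq).2⟩
  have hP : ∀ q ∈ P, Pool.Agent.Y698.SG.Spl q := fun q hq =>
    ⟨Nat.prime_of_mem_primeFactors (Finset.mem_filter.1 hq).1, hp4 q (Finset.mem_filter.1 hq).1,
      (Finset.mem_filter.1 hq).2⟩
  have hu : Q ∪ P = D.primeFactors := by
    rw [Finset.union_comm]
    exact Finset.filter_union_filter_not_eq _ _
  have hDu : ∏ q ∈ Q ∪ P, q = D := by rw [hu, Nat.prod_primeFactors_of_squarefree hsq]
  obtain ⟨r, hr, hrD⟩ := exists_aux D hsq.ne_zero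
  have hrf : Fact r.Prime := ⟨hr.pr⟩
  have hM : IsCyclotomicExtension {r} ℚ (CyclotomicField r ℚ) := Pool.Agent.Y698.cyc_inst r
  have hd : Pool.Agent.R428.Q0.DQ r Q P := ⟨hr, fun q hq => ⟨hQ q hq, by
    rintro rfl
    exact hrD (Nat.dvd_of_mem_primeFactors (Finset.mem_filter.1 hq).1)⟩, hP⟩
  obtain ⟨j, hj⟩ : ∃ j, D = 1 + 4 * j := ⟨D / 4, by omega⟩
  have hE : E D = Pool.Agent.Y698.AX ℚ j := by
    unfold E Pool.Agent.Y698.AX Pool.Agent.Y698.EX
    rw [hj]
    congr 1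
    · push_cast; ring
    · push_cast; ring
    · push_cast; ring
  unfold RankZeroShaTwo at hR
  rw [hE] at hR
  exact Pool.Agent.R428.Q0.conv0 (CyclotomicField r ℚ) ℚ hd (hDu.trans hj) hR.1 fun x hx =>
    hR.2 x (by rw [two_nsmul]; exact hx)

variable {w : QBar}

lemma good_ne' {M n : ℕ} {d : Fin n → ℕ} (hG : GoodW M d) : M ≠ 0 ∧ ∀ i, d i ≠ 0 := by
  constructor
  · obtain ⟨D, k, hk, hD, -, he⟩ := hG ∅
    rw [Finset.prod_empty, mul_one] at he
    rw [he]
    exact mul_ne_zero hD.1.ne_zero (pow_ne_zero 2 hk)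
  · intro i
    obtain ⟨D, k, hk, hD, -, he⟩ := hG {i}
    rw [Finset.prod_singleton] at he
    exact right_ne_zero_of_mul (he ▸ mul_ne_zero hD.1.ne_zero (pow_ne_zero 2 hk))

/-- the vanishing -/
theorem all_ofW {M n : ℕ} {d : Fin n → ℕ} (hG : GoodW M d) (hw : w ^ 2 = w - 2) :
    Iso (EK w M) (ED w (tw M)) ∧ (ED w (tw M)).IsElliptic ∧
    ∃ κ κ' : Chr w, TateModule (tw M) κ κ' ∧
      ∀ s : Fin n → QBar, (∀ i, s i ^ 2 = (d i : QBar)) → OddWeights κ κ' s ∧
        ∀ j : ℤ, ∃ σ ∈ GalL w s, qv (chi κ κ' j) σ ≠ 1 := by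
  obtain ⟨hM0, hd0⟩ := good_ne' hG
  have hD := tw_ne hM0
  refine ⟨tw_iso hw M, elliptic hD hw, ?_⟩
  have h : Pool.Agent.R384.WD w (Pool.Agent.R384.em hw (tw M)) := ⟨hw, Pool.Agent.R384.em_ne hw hD⟩
  obtain ⟨r, hr⟩ : ∃ r : QBar, r ^ 2 = Pool.Agent.R384.em hw (tw M) :=
    IsAlgClosed.exists_pow_nat_eq _ (by norm_num)
  obtain ⟨I, hI⟩ : ∃ I : QBar, I ^ 2 = -1 := IsAlgClosed.exists_pow_nat_eq _ (by norm_num)
  have fx : ∀ σ : Gal w, Pool.Agent.R384.Fx w (Pool.Agent.R384.em hw (tw M))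
      (Pool.Agent.R384.rh σ) := fun σ =>
    ⟨Pool.Agent.Y715.Gi.gk_fix σ, Pool.Agent.R384.gk_em hw σ (tw M)⟩
  obtain ⟨κ, κ', x, y, kd, hx, hy, ax, ay⟩ := Pool.Agent.R384.exists_kd hw hD h hr hI fx
  have td := Pool.Agent.R384.td h
  set T := tr (curve_eq hw (D := tw M)) with hT
  have hIr : (I * r) ^ 2 = Pool.Agent.R384.em hw (-tw M) := by rw [mul_pow, hI, hr, map_neg]; ring
  refine ⟨κ, κ', ⟨⟨fun n => T.symm (y n), fun n => T.symm (x n), ⟨?_, ?_, ?_, ?_⟩,
    ⟨Units.continuous_val.comp kd.cont, fun σ => ?_⟩,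
    ⟨Units.continuous_val.comp kd.cont', fun σ => ?_⟩⟩, ?_, ?_⟩, ?_⟩
  · show T.symm (y 0) = 0 ∧ T.symm (x 0) = 0
    rw [hx.zero, hy.zero, map_zero]
    exact ⟨rfl, rfl⟩
  · intro n
    show T.symm (y (n + 1)) + T.symm (y (n + 1)) = T.symm (y n) ∧
      T.symm (x (n + 1)) + T.symm (x (n + 1)) = T.symm (x n)
    rw [← map_add, ← map_add, hx.dbl, hy.dbl]
    exact ⟨rfl, rfl⟩
  · intro n P hP
    have h1 : (2 ^ n : ℤ) • T P = 0 := by rw [← map_zsmul, hP, map_zero]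
    obtain ⟨a, b, hab⟩ := Pool.Agent.R384.Tow.basis td hx hy h1
    refine ⟨b, a, ?_⟩
    apply T.injective
    show T P = T (b • T.symm (y n) + a • T.symm (x n))
    rw [map_add, map_zsmul, map_zsmul, T.apply_symm_apply, T.apply_symm_apply, hab, add_comm]
  · intro n a b hab
    have h1 : T (a • T.symm (y n) + b • T.symm (x n)) = 0 := by
      show T ((fun n => a • T.symm (y n) + b • T.symm (x n)) n) = 0
      rw [show (fun n => a • T.symm (y n) + b • T.symm (x n)) n = 0 from hab, map_zero]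
    rw [map_add, map_zsmul, map_zsmul, T.apply_symm_apply, T.apply_symm_apply, add_comm] at h1
    exact (Pool.Agent.R384.Tow.uniq td hx hy h1).symm
  · intro n k hk
    show act σ (T.symm (y n)) = k • T.symm (y n)
    apply T.injective
    rw [hT, tr_act hw h fx σ, ← hT, T.apply_symm_apply, map_zsmul, T.apply_symm_apply]
    exact ay σ n k hk
  · intro n k hk
    show act σ (T.symm (x n)) = k • T.symm (x n)
    apply T.injective
    rw [hT, tr_act hw h fx σ, ← hT, T.apply_symm_apply, map_zsmul, T.apply_symm_apply]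
    exact ax σ n k hk
  · rintro p _ ι hn σ ⟨τ, hτ, hin⟩
    have h1 := kd.inert p ι τ σ hτ hin hn
    unfold zv
    rcases Pool.Agent.R384.rt_or hw hIr σ with h2 | h2
    · rw [h1.1 h2, Units.val_one, one_pow]
    · rw [h1.2 h2, Units.val_neg, Units.val_one, neg_one_sq]
  · rintro p _ ι hn σ ⟨τ, hτ, hin⟩
    have h1 := kd.inert' p ι τ σ hτ hin hn
    unfold zv
    rcases Pool.Agent.R384.rt_or hw hr σ with h2 | h2
    · rw [h1.1 h2, Units.val_one, one_pow]
    · rw [h1.2 h2, Units.val_neg, Units.val_one, neg_one_sq]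
  · intro s hs
    refine ⟨fun k _ hk => ?_, fun j => chi_ne hw hM0 hd0 kd hs j⟩
    have hom : Pool.Agent.R384.em hw Pool.Agent.R384.om = w := by
      rw [Pool.Agent.R384.em_apply]
      simp [Pool.Agent.R384.om]
    have hom' : Pool.Agent.R384.em hw (1 - Pool.Agent.R384.om) = 1 - w := by
      rw [map_sub, map_one, hom]
    have hk' : Even (1 - k) := by
      rw [Int.even_sub]
      simp [Int.not_even_iff_odd.2 hk]
    have hE : ∀ i, s i ^ 2 = Pool.Agent.R384.em hw (((d i : ℤ) : Pool.Agent.R384.OO)) := by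
      intro i
      rw [hs i, map_intCast]
      push_cast
      rfl
    have hE0 : ∀ i, (((d i : ℤ) : Pool.Agent.R384.OO)) ≠ 0 := by
      intro i h1
      have h2 := congrArg QuadraticAlgebra.re h1
      simp at h2
      exact hd0 i h2
    have hgood : ∀ T : Finset (Fin n), ∃ (m : ℕ) (q : Fin m → Pool.Agent.R384.OO)
        (z : Pool.Agent.R384.OO), (∀ i, Pool.Agent.R384.Pr (q i)) ∧
        Function.Injective q ∧ (8 : Pool.Agent.R384.OO) ∣ ∏ i, q i - 1 ∧
        Pool.Agent.R384.Indec7 q ∧ z ≠ 0 ∧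
        tw M * ∏ i ∈ T, (((d i : ℤ) : Pool.Agent.R384.OO)) =
          -(Pool.Agent.R384.s7 * ∏ i, q i) * z ^ 2 := by
      intro T
      obtain ⟨D, k, hk0, hA, hR, he⟩ := hG T
      obtain ⟨m, q, hpr, hinj, h8, hind, hprod⟩ := Run7.h359.WS.factorW hA.1 (fun p hp =>
        hA.2.2 p (Nat.prime_of_mem_primeFactors hp) (Nat.dvd_of_mem_primeFactors hp)) hA.2.1
        (det_ne hA hR)
      refine ⟨m, q, ((k : ℤ) : Pool.Agent.R384.OO), hpr, hinj, h8, hind, ?_, ?_⟩
      · intro h1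
        have h2 := congrArg QuadraticAlgebra.re h1
        simp at h2
        exact hk0 h2
      · rw [hprod, tw_eq]
        have h1 : ((M : ℤ) : Pool.Agent.R384.OO) * ∏ i ∈ T, (((d i : ℤ) : Pool.Agent.R384.OO)) =
            ((D : ℤ) : Pool.Agent.R384.OO) * ((k : ℤ) : Pool.Agent.R384.OO) ^ 2 := by
          have h2 : (M : ℤ) * ∏ i ∈ T, (d i : ℤ) = (D : ℤ) * (k : ℤ) ^ 2 := by exact_mod_cast he
          have h3 := congrArg (fun a : ℤ => (a : Pool.Agent.R384.OO)) h2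
          simp only [Int.cast_mul, Int.cast_pow, Int.cast_prod] at h3
          exact h3
        linear_combination (-Pool.Agent.R384.s7) * h1
    rw [galL_eq]
    exact ⟨selmer_of hw (Pool.Agent.R384.vanish_mq hw hE kd hD hE0 hgood k
        (Or.inr ⟨hk, rfl, rfl⟩)) hom',
      selmer_of hw (Pool.Agent.R384.vanish_mq hw hE kd hD hE0 hgood (1 - k)
        (Or.inl ⟨hk', rfl, rfl⟩)) hom⟩

end Run7.h359.WD
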