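import Pool.Agent.Run7.h359.Cnt
import Pool.Agent.Run7.h359.Wal

/-!
# The number of the good twists, wide class
-/

set_option autoImplicit false

namespace Run7.h359.CW

open Pool.Agent.Results.MP_03e5d0_nt.FullClassX49 (tw Pattern)
open Pool.Agent.Results.MP_92892c_nt.FullClassTwoPartX49 (Family num)
open Pool.Agent.Results.MP_787500_nt.AllWeightsMultiquadraticX49 (RankZeroShaTwo Ind add)
open Run7.h359.WD (W8 GoodW)
open Run7.h359.CT (R_R fam_mod tw_five tw_one tw_inj)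
open scoped Classical

lemma fam_of {D : ℕ} (h : W8 D) : Family D :=
  ⟨h.1, fun p hp => h.2.2 p (Nat.prime_of_mem_primeFactors hp) (Nat.dvd_of_mem_primeFactors hp)⟩

lemma fam_w' {D : ℕ} (h : Family D) (h8 : D % 8 = 1) : W8 D :=
  ⟨h.1, h8, fun p hp hd => h.2 p (Nat.mem_primeFactors.2 ⟨hp, hd, h.1.ne_zero⟩)⟩

/-- odd squares -/
lemma sq_mod {k : ℕ} (h : k % 2 = 1) : k ^ 2 % 8 = 1 := by
  have h1 : k % 8 = 1 ∨ k % 8 = 3 ∨ k % 8 = 5 ∨ k % 8 = 7 := by omega
  rcases h1 with h1 | h1 | h1 | h1 <;> rw [Nat.pow_mod, h1]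

lemma mod_cancel {a b k : ℕ} (h : a = b * k ^ 2) (ha : a % 8 = 1) : b % 8 = 1 := by
  have hk : k % 2 = 1 := by
    by_contra hk
    have h2 : k % 2 = 0 := by omega
    obtain ⟨t, rfl⟩ : 2 ∣ k := Nat.dvd_of_mod_eq_zero h2
    have h3 : a = 4 * (b * t ^ 2) := by rw [h]; ring
    omega
  have h1 := sq_mod hk
  rw [h, Nat.mul_mod, h1, mul_one, Nat.mod_mod] at ha
  exact ha

/-- the squarefree part -/
lemma exists_w8 {N : ℕ} (h8 : N % 8 = 1) (h4 : ∀ p : ℕ, p.Prime → p ∣ N → p % 4 = 1) :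
    ∃ m k : ℕ, k ≠ 0 ∧ W8 m ∧ N = m * k ^ 2 := by
  have hN : N ≠ 0 := by rintro rfl; omega
  obtain ⟨a, b, h, hsq⟩ := Nat.sq_mul_squarefree N
  have hb : b ≠ 0 := by
    rintro rfl
    apply hN
    rw [← h]
    ring
  have h' : N = a * b ^ 2 := by rw [← h]; ring
  exact ⟨a, b, hb, ⟨hsq, mod_cancel h' h8, fun p hp hd => h4 p hp (by
    rw [h']; exact Dvd.dvd.mul_right hd _)⟩, h'⟩

lemma prod_w8 {n M : ℕ} {d : Fin n → ℕ} (hM : W8 M) (hd : ∀ i, W8 (d i)) (T : Finset (Fin n)) :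
    (M * ∏ i ∈ T, d i) % 8 = 1 ∧
      ∀ p : ℕ, p.Prime → p ∣ M * ∏ i ∈ T, d i → p % 4 = 1 := by
  constructor
  · have h1 : (∏ i ∈ T, d i) % 8 = 1 := by
      rw [Finset.prod_nat_mod, Finset.prod_congr rfl (fun i _ => (hd i).2.1)]
      simp
    rw [Nat.mul_mod, h1, hM.2.1]
  · intro p hp h
    rcases (Nat.Prime.dvd_mul hp).1 h with h | h
    · exact hM.2.2 p hp h
    · obtain ⟨i, -, hi⟩ := (hp.prime.dvd_finsetProd_iff _).1 h
      exact (hd i).2.2 p hp hi

/-- squares are cancelled -/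
lemma cancel_sq {a e g h : ℕ} (he : Squarefree e) (hg : g ≠ 0) (hh : h ≠ 0)
    (h1 : a * g ^ 2 = e * h ^ 2) : ∃ k : ℕ, k ≠ 0 ∧ a = e * k ^ 2 := by
  have hc : 0 < Nat.gcd g h := Nat.gcd_pos_of_pos_left _ (Nat.pos_of_ne_zero hg)
  obtain ⟨g', h', hcop, e1, e2⟩ := Nat.exists_coprime g h
  have h2 : a * g' ^ 2 = e * h' ^ 2 := by
    have h3 : a * g' ^ 2 * Nat.gcd g h ^ 2 = e * h' ^ 2 * Nat.gcd g h ^ 2 := by
      calc a * g' ^ 2 * Nat.gcd g h ^ 2 = a * (g' * Nat.gcd g h) ^ 2 := by ring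
        _ = a * g ^ 2 := by rw [← e1]
        _ = e * h ^ 2 := h1
        _ = e * (h' * Nat.gcd g h) ^ 2 := by rw [← e2]
        _ = _ := by ring
    exact Nat.eq_of_mul_eq_mul_right (pow_pos hc 2) h3
  have h3 : g' ^ 2 ∣ e := by
    have h4 : g' ^ 2 ∣ e * h' ^ 2 := by rw [← h2]; exact Dvd.intro_left a rfl
    exact (Nat.Coprime.pow 2 2 hcop).dvd_of_dvd_mul_right h4
  have h4 : IsUnit g' := he g' (by rw [← pow_two]; exact h3)
  have h5 : g' = 1 := Nat.isUnit_iff.1 h4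
  rw [h5, one_pow, mul_one] at h2
  refine ⟨h', ?_, h2⟩
  rintro rfl
  apply hh
  rw [e2, zero_mul]

/-- **The number of the good twists.** -/
theorem cnt_good {n M : ℕ} {d : Fin n → ℕ} (hM : W8 M) (hd : ∀ i, W8 (d i)) :
    ∃ (a : ℝ) (X₀ : ℕ), 0 < a ∧ ∀ X : ℕ, X₀ ≤ X → a * X / Real.sqrt (Real.log X) ≤
      (((Finset.Icc 1 X).filter fun D => W8 D ∧ GoodW (M * D) d).card : ℝ) := by
  have hf5 : Family 5 := ⟨Nat.prime_five.squarefree, fun p hp => by
    rw [Nat.Prime.primeFactors Nat.prime_five, Finset.mem_singleton] at hp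
    rw [hp]⟩
  obtain ⟨r1, r2, -⟩ := Pool.Agent.Results.MP_03e5d0_nt.FullClassX49.result
  have hex := fun T : Finset (Fin n) => exists_w8 (prod_w8 hM hd T).1 (prod_w8 hM hd T).2
  choose m κ hκ hm hmk using hex
  set S : Finset ℕ := Finset.univ.image m ∪ Finset.univ.image (fun T => tw 5 (m T)) with hS
  have hfS : ∀ x ∈ S, Family x := by
    intro x hx
    rw [hS, Finset.mem_union, Finset.mem_image, Finset.mem_image] at hx
    rcases hx with ⟨T, -, rfl⟩ | ⟨T, -, rfl⟩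
    · exact fam_of (hm T)
    · exact (r1 5 (m T) hf5 (fam_of (hm T))).1
  have hmS : ∀ T, m T ∈ S := fun T =>
    Finset.mem_union_left _ (Finset.mem_image_of_mem _ (Finset.mem_univ _))
  have hmS5 : ∀ T, tw 5 (m T) ∈ S := fun T =>
    Finset.mem_union_right _ (Finset.mem_image_of_mem (fun T => tw 5 (m T)) (Finset.mem_univ T))
  obtain ⟨-, a, X₀, ha, hX⟩ := r2 S S hfS (Finset.Subset.refl _)
  refine ⟨a / 20, max (5 * X₀) 20, by positivity, fun X hXX => ?_⟩
  have hX5 : X₀ ≤ X / 5 := by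
    rw [Nat.le_div_iff_mul_le (by norm_num)]
    have := le_max_left (5 * X₀) 20
    omega
  have hX20 : 20 ≤ X := (le_max_right _ _).trans hXX
  have h1 := hX (X / 5) hX5
  set G := (Finset.Icc 1 X).filter fun D => W8 D ∧ GoodW (M * D) d with hG
  have hcard : num (Pattern S S) (X / 5) ≤ 2 * G.card := by
    unfold num
    rw [← Finset.card_filter_add_card_filter_not (fun D => D % 8 = 1)
      (s := (Finset.Icc 1 (X / 5)).filter fun D => Family D ∧ Pattern S S D), two_mul]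
    refine Nat.add_le_add (Finset.card_le_card fun D hD => ?_)
      (Finset.card_le_card_of_injOn (tw 5) (fun D hD => ?_) fun D hD D' hD' e => ?_)
    · rw [Finset.mem_filter, Finset.mem_filter, Finset.mem_Icc] at hD
      obtain ⟨⟨⟨k1, k2⟩, k3, k4⟩, k5⟩ := hD
      rw [hG, Finset.mem_filter, Finset.mem_Icc]
      refine ⟨⟨k1, by omega⟩, fam_w' k3 k5, fun T => ?_⟩
      obtain ⟨f1, f2⟩ := r1 (m T) D (fam_of (hm T)) k3
      have hg0 : Nat.gcd (m T) D ≠ 0 :=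
        (Nat.gcd_pos_of_pos_right _ (Nat.pos_of_ne_zero k3.1.ne_zero)).ne'
      have h8 : tw (m T) D % 8 = 1 := mod_cancel f2 (by rw [Nat.mul_mod, (hm T).2.1, k5])
      refine ⟨tw (m T) D, Nat.gcd (m T) D * κ T, mul_ne_zero hg0 (hκ T), fam_w' f1 h8,
        R_R (fam_mod f1) ((k4.2 _ (hmS T)).2 (hmS T)), ?_⟩
      calc M * D * ∏ i ∈ T, d i = (M * ∏ i ∈ T, d i) * D := by ring
        _ = m T * κ T ^ 2 * D := by rw [← hmk T]
        _ = (m T * D) * κ T ^ 2 := by ring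
        _ = (tw (m T) D * Nat.gcd (m T) D ^ 2) * κ T ^ 2 := by rw [f2]
        _ = _ := by ring
    · rw [Finset.mem_coe, Finset.mem_filter, Finset.mem_filter, Finset.mem_Icc] at hD
      obtain ⟨⟨⟨k1, k2⟩, k3, k4⟩, k5⟩ := hD
      obtain ⟨hF, hF2⟩ := r1 5 D hf5 k3
      have hm0 := fam_mod k3
      have hm' := fam_mod hF
      have h8 : tw 5 D % 8 = 1 ∧ 1 ≤ tw 5 D ∧ tw 5 D ≤ X := by
        rcases tw_five D with ⟨g1, g2⟩ | ⟨g1, g2⟩ <;> omega
      rw [Finset.mem_coe, hG, Finset.mem_filter, Finset.mem_Icc]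
      refine ⟨h8.2, fam_w' hF h8.1, fun T => ?_⟩
      obtain ⟨f1, f2⟩ := r1 5 (m T) hf5 (fam_of (hm T))
      obtain ⟨f3, f4⟩ := r1 (tw 5 (m T)) D f1 k3
      have hg1 : Nat.gcd 5 D ≠ 0 := (Nat.gcd_pos_of_pos_left _ (by norm_num)).ne'
      have hg2 : Nat.gcd 5 (m T) ≠ 0 := (Nat.gcd_pos_of_pos_left _ (by norm_num)).ne'
      have hg3 : Nat.gcd (tw 5 (m T)) D ≠ 0 :=
        (Nat.gcd_pos_of_pos_right _ (Nat.pos_of_ne_zero k3.1.ne_zero)).ne'
      have key : (tw 5 D * m T) * Nat.gcd 5 D ^ 2 =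
          tw (tw 5 (m T)) D * (Nat.gcd (tw 5 (m T)) D * Nat.gcd 5 (m T)) ^ 2 := by
        calc (tw 5 D * m T) * Nat.gcd 5 D ^ 2 = (tw 5 D * Nat.gcd 5 D ^ 2) * m T := by ring
          _ = 5 * D * m T := by rw [← hF2]
          _ = (5 * m T) * D := by ring
          _ = (tw 5 (m T) * Nat.gcd 5 (m T) ^ 2) * D := by rw [f2]
          _ = (tw 5 (m T) * D) * Nat.gcd 5 (m T) ^ 2 := by ring
          _ = (tw (tw 5 (m T)) D * Nat.gcd (tw 5 (m T)) D ^ 2) * Nat.gcd 5 (m T) ^ 2 := by rw [f4]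
          _ = _ := by ring
      obtain ⟨k, hk0, hk⟩ := cancel_sq f3.1 hg1 (mul_ne_zero hg3 hg2) key
      have h8' : tw (tw 5 (m T)) D % 8 = 1 :=
        mod_cancel hk (by rw [Nat.mul_mod, (hm T).2.1, h8.1])
      refine ⟨tw (tw 5 (m T)) D, k * κ T, mul_ne_zero hk0 (hκ T), fam_w' f3 h8',
        R_R (fam_mod f3) ((k4.2 _ (hmS5 T)).2 (hmS5 T)), ?_⟩
      calc M * tw 5 D * ∏ i ∈ T, d i = (M * ∏ i ∈ T, d i) * tw 5 D := by ring
        _ = m T * κ T ^ 2 * tw 5 D := by rw [← hmk T]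
        _ = (tw 5 D * m T) * κ T ^ 2 := by ring
        _ = (tw (tw 5 (m T)) D * k ^ 2) * κ T ^ 2 := by rw [hk]
        _ = _ := by ring
    · rw [Finset.mem_coe, Finset.mem_filter, Finset.mem_filter] at hD hD'
      exact tw_inj hD.1.2.1.1 hD'.1.2.1.1 e
  have hc : ((num (Pattern S S) (X / 5) : ℕ) : ℝ) ≤ 2 * G.card := by exact_mod_cast hcard
  have hXr : (X : ℝ) / 10 ≤ ((X / 5 : ℕ) : ℝ) := by
    have h2 : X ≤ 10 * (X / 5) := by omega
    have h3 : (X : ℝ) ≤ 10 * ((X / 5 : ℕ) : ℝ) := by exact_mod_cast h2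
    linarith
  have hY1 : (1 : ℝ) < ((X / 5 : ℕ) : ℝ) := by
    have h2 : 1 < X / 5 := by omega
    exact_mod_cast h2
  have hlog : 0 < Real.log ((X / 5 : ℕ) : ℝ) := Real.log_pos hY1
  have hle : Real.log ((X / 5 : ℕ) : ℝ) ≤ Real.log X := by
    refine Real.log_le_log (by linarith) ?_
    exact_mod_cast Nat.div_le_self X 5
  have hs1 : 0 < Real.sqrt (Real.log ((X / 5 : ℕ) : ℝ)) := Real.sqrt_pos.2 hlog
  have hs2 : Real.sqrt (Real.log ((X / 5 : ℕ) : ℝ)) ≤ Real.sqrt (Real.log X) := Real.sqrt_le_sqrt hle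
  have h4 : a * (X / 10) / Real.sqrt (Real.log X) ≤
      a * ((X / 5 : ℕ) : ℝ) / Real.sqrt (Real.log ((X / 5 : ℕ) : ℝ)) := by
    refine div_le_div₀ (by positivity) ?_ hs1 hs2
    exact mul_le_mul_of_nonneg_left hXr ha.le
  have h5 : a / 20 * X / Real.sqrt (Real.log X) = a * (X / 10) / Real.sqrt (Real.log X) / 2 := by ring
  rw [h5]
  linarith

/-- the extension by one number -/
lemma good_add {n M D : ℕ} {d : Fin n → ℕ} (h1 : GoodW M d) (h2 : GoodW (M * D) d) :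
    GoodW M (add d D) := by
  intro T
  set T' : Finset (Fin n) := Finset.univ.filter fun i => Fin.castSucc i ∈ T with hT'
  have hc : ∏ i ∈ T.erase (Fin.last n), add d D i = ∏ i ∈ T', d i := by
    have e1 : T.erase (Fin.last n) = T'.image Fin.castSucc := by
      ext i
      rw [Finset.mem_erase, Finset.mem_image]
      constructor
      · rintro ⟨h3, h4⟩
        obtain ⟨j, rfl⟩ := Fin.exists_castSucc_eq.2 h3
        exact ⟨j, by rw [hT', Finset.mem_filter]; exact ⟨Finset.mem_univ _, h4⟩, rfl⟩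
      · rintro ⟨j, h3, rfl⟩
        rw [hT', Finset.mem_filter] at h3
        exact ⟨Fin.castSucc_ne_last j, h3.2⟩
    rw [e1, Finset.prod_image (fun a _ b _ h => Fin.castSucc_injective n h)]
    refine Finset.prod_congr rfl fun i _ => ?_
    simp [add]
  by_cases hl : Fin.last n ∈ T
  · obtain ⟨D', k, hk, hD', hR, he⟩ := h2 T'
    refine ⟨D', k, hk, hD', hR, ?_⟩
    rw [← Finset.mul_prod_erase T _ hl, hc, ← he]
    have e2 : add d D (Fin.last n) = D := by simp [add]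
    rw [e2]
    ring
  · obtain ⟨D', k, hk, hD', hR, he⟩ := h1 T'
    refine ⟨D', k, hk, hD', hR, ?_⟩
    rw [← he, ← hc, Finset.erase_eq_of_notMem hl]

/-- independence fails only for finitely many numbers -/
lemma ind_add {n : ℕ} {d : Fin n → ℕ} (hd : ∀ i, W8 (d i)) (hI : Ind d) :
    ∃ B : Finset ℕ, ∀ D : ℕ, Squarefree D → D ∉ B → Ind (add d D) := by
  have hone : W8 1 := ⟨squarefree_one, rfl, fun p hp h1 =>
    absurd (Nat.dvd_one.1 h1) hp.one_lt.ne'⟩
  have hex := fun T : Finset (Fin n) => exists_w8 (prod_w8 hone hd T).1 (prod_w8 hone hd T).2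
  choose m κ hκ hm hmk using hex
  refine ⟨Finset.univ.image m, fun D hD hB T hT => ?_⟩
  set T' : Finset (Fin n) := Finset.univ.filter fun i => Fin.castSucc i ∈ T with hT'
  have hc : ∏ i ∈ T.erase (Fin.last n), add d D i = ∏ i ∈ T', d i := by
    have e1 : T.erase (Fin.last n) = T'.image Fin.castSucc := by
      ext i
      rw [Finset.mem_erase, Finset.mem_image]
      constructor
      · rintro ⟨h3, h4⟩
        obtain ⟨j, rfl⟩ := Fin.exists_castSucc_eq.2 h3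
        exact ⟨j, by rw [hT', Finset.mem_filter]; exact ⟨Finset.mem_univ _, h4⟩, rfl⟩
      · rintro ⟨j, h3, rfl⟩
        rw [hT', Finset.mem_filter] at h3
        exact ⟨Fin.castSucc_ne_last j, h3.2⟩
    rw [e1, Finset.prod_image (fun a _ b _ h => Fin.castSucc_injective n h)]
    refine Finset.prod_congr rfl fun i _ => ?_
    simp [add]
  by_cases hl : Fin.last n ∈ T
  · rw [← Finset.mul_prod_erase T _ hl, hc]
    have e2 : add d D (Fin.last n) = D := by simp [add]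
    rw [e2]
    rintro ⟨r, hr⟩
    apply hB
    refine Finset.mem_image.2 ⟨T', Finset.mem_univ _, ?_⟩
    have h3 := hmk T'
    rw [one_mul] at h3
    rw [h3] at hr
    have hr0 : r ≠ 0 := by
      rintro rfl
      rw [mul_zero] at hr
      have := mul_ne_zero hD.ne_zero (mul_ne_zero (hm T').1.ne_zero (pow_ne_zero 2 (hκ T')))
      exact this hr
    -- `m D` is a square
    have h4 : (m T' * m T' * D) * κ T' ^ 2 = m T' * r ^ 2 := by rw [pow_two r, ← hr]; ring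
    obtain ⟨k, hk0, hk⟩ := cancel_sq (hm T').1 (hκ T') hr0 h4
    have h5 : m T' * D = k ^ 2 := by
      have h6 : m T' * (m T' * D) = m T' * k ^ 2 := by rw [← hk]; ring
      exact Nat.eq_of_mul_eq_mul_left (Nat.pos_of_ne_zero (hm T').1.ne_zero) h6
    have hk1 : k ≠ 0 := hk0
    have h6 : D * m T' ^ 2 = m T' * k ^ 2 := by rw [← h5]; ring
    obtain ⟨j, -, hj⟩ := cancel_sq (hm T').1 (hm T').1.ne_zero hk1 h6
    have h7 : IsUnit j := hD j ⟨m T', by rw [hj]; ring⟩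
    rw [Nat.isUnit_iff.1 h7, one_pow, mul_one] at hj
    exact hj.symm
  · rw [Finset.erase_eq_of_notMem hl] at hc
    rw [hc]
    refine hI T' ?_
    obtain ⟨i, hi⟩ := hT
    have hne : i ≠ Fin.last n := fun h => hl (h ▸ hi)
    obtain ⟨j, rfl⟩ := Fin.exists_castSucc_eq.2 hne
    exact ⟨j, by rw [hT', Finset.mem_filter]; exact ⟨Finset.mem_univ _, hi⟩⟩

/-- **The number of the quadratic extensions.** -/
theorem cnt_add {n M : ℕ} {d : Fin n → ℕ} (hM : W8 M) (hd : ∀ i, W8 (d i)) (hI : Ind d)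
    (hG : GoodW M d) :
    ∃ (a : ℝ) (X₀ : ℕ), 0 < a ∧ ∀ X : ℕ, X₀ ≤ X → a * X / Real.sqrt (Real.log X) ≤
      (((Finset.Icc 1 X).filter fun D => W8 D ∧ Ind (add d D) ∧ GoodW M (add d D)).card : ℝ) := by
  obtain ⟨a, X₀, ha, h⟩ := cnt_good hM hd
  obtain ⟨B, hB⟩ := ind_add hd hI
  -- `√X` exceeds every constant
  set b : ℝ := 2 * B.card / a with hb
  refine ⟨a / 2, max (max X₀ 3) (⌈b ^ 2⌉₊), by positivity, fun X hX => ?_⟩
  have h1 : X₀ ≤ X := (le_max_left _ _).trans ((le_max_left _ _).trans hX)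
  have h3 : 3 ≤ X := (le_max_right _ _).trans ((le_max_left _ _).trans hX)
  have h2 : b ^ 2 ≤ X := (Nat.le_ceil _).trans (by exact_mod_cast (le_max_right _ _).trans hX)
  have hX0 : (0 : ℝ) < X := by exact_mod_cast (by omega : 0 < X)
  have hX1 : (1 : ℝ) < X := by exact_mod_cast (by omega : 1 < X)
  have hlog : 0 < Real.log X := Real.log_pos hX1
  have hs : 0 < Real.sqrt (Real.log X) := Real.sqrt_pos.2 hlog
  have hb0 : 0 ≤ b := by positivity
  have h4 : b ≤ X / Real.sqrt (Real.log X) := by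
    rw [le_div_iff₀ hs]
    have h5 : b ≤ Real.sqrt X := by
      rw [← Real.sqrt_sq hb0]
      exact Real.sqrt_le_sqrt h2
    have h6 : Real.sqrt (Real.log X) ≤ Real.sqrt X :=
      Real.sqrt_le_sqrt ((Real.log_le_sub_one_of_pos hX0).trans (by linarith))
    calc b * Real.sqrt (Real.log X) ≤ Real.sqrt X * Real.sqrt X :=
          mul_le_mul h5 h6 hs.le (Real.sqrt_nonneg _)
      _ = X := Real.mul_self_sqrt hX0.le
  have h5 := h X h1
  set G := (Finset.Icc 1 X).filter fun D => W8 D ∧ GoodW (M * D) d with hGd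
  set G' := (Finset.Icc 1 X).filter fun D => W8 D ∧ Ind (add d D) ∧ GoodW M (add d D) with hGd'
  have h6 : G ⊆ G' ∪ B := by
    intro D hD
    rw [hGd, Finset.mem_filter] at hD
    rw [Finset.mem_union]
    by_cases hDB : D ∈ B
    · exact Or.inr hDB
    · left
      rw [hGd', Finset.mem_filter]
      exact ⟨hD.1, hD.2.1, hB D hD.2.1.1 hDB, good_add hG hD.2.2⟩
  have h7 : (G.card : ℝ) ≤ G'.card + B.card := by
    exact_mod_cast (Finset.card_le_card h6).trans (Finset.card_union_le _ _)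
  have h8 : (B.card : ℝ) ≤ a / 2 * (X / Real.sqrt (Real.log X)) := by
    have h9 : (B.card : ℝ) = a / 2 * b := by
      rw [hb]
      field_simp
    rw [h9]
    exact mul_le_mul_of_nonneg_left h4 (by positivity)
  have h9 : a / 2 * X / Real.sqrt (Real.log X) = a * X / Real.sqrt (Real.log X) -
      a / 2 * (X / Real.sqrt (Real.log X)) := by ring
  rw [h9]
  linarith

end Run7.h359.CW
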