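import Pool.Agent.Run7.h359.Lff
import Pool.Agent.Run7.h359.Wal

/-!
# The L-functions of all odd weights over the multiquadratic fields, for the wide class
-/

set_option autoImplicit false
set_option linter.unusedSectionVars false

namespace Run7.h359.FW

open Pool.Agent.Results.MP_787500_nt.AllWeightsMultiquadraticX49
open Pool.Agent.Y698 Pool.Agent.Y698.SG
open NumberField IsDedekindDomain WeierstrassCurve
open W165.CE (pw pw_eq pw_luc)
open Run7.h401.Fl (MQ)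
open Run7.h359.EU (prod_high qch_two v_nonzero)
open Run7.h359.BK (ne_high)
open Run7.h359.FE
open Run7.h359.WD (W8 GoodW)
open scoped Classical

/-- **The L-function over the field.** -/
theorem lfieldW {F : Type} [Field F] [NumberField F] {n M : ℕ} {d : Fin n → ℕ} (hG : GoodW M d)
    {s : Fin n → F} (hs : ∀ i, s i ^ 2 = (d i : F))
    (hgen : ∀ K : Subfield F, (∀ i, s i ∈ K) → K = ⊤) {k : ℕ} (hk : Odd k) :
    ∃ Λ : ℂ → ℂ, Differentiable ℂ Λ ∧
      (∀ z : ℂ, (k : ℝ) + 1 / 2 < z.re → HasProd (facF (cur (M : F)) (2 * k - 1) z) (Λ z)) ∧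
      Λ (k : ℂ) ≠ 0 := by
  have hM : M ≠ 0 := by
    obtain ⟨D, k, hk, hD, -, he⟩ := hG ∅
    rw [Finset.prod_empty, mul_one] at he
    rw [he]
    exact mul_ne_zero hD.1.ne_zero (pow_ne_zero 2 hk)
  have hd : ∀ i, d i ≠ 0 := by
    intro i
    obtain ⟨D, k, hk, hD, -, he⟩ := hG {i}
    rw [Finset.prod_singleton] at he
    exact right_ne_zero_of_mul (he ▸ mul_ne_zero hD.1.ne_zero (pow_ne_zero 2 hk))
  choose D m hm hA hR he using hG
  have hsf : ∀ T, symmDiff (sf M) (sf (∏ i ∈ T, d i)) = (D T).primeFactors := by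
    intro T
    rw [← sf_mul hM (pr_ne hd T), he T, sf_mul_sq (hA T).1.ne_zero (hm T), sf_sqf (hA T).1]
  have hpm : ∀ T, ∀ p ∈ (D T).primeFactors, p % 4 = 1 := by
    intro T p hp
    exact (hA T).2.2 p (Nat.prime_of_mem_primeFactors hp) (Nat.dvd_of_mem_primeFactors hp)
  have hM4 : ∀ p ∈ sf M, p % 4 = 1 := by
    intro p hp
    refine hpm ∅ p ?_
    rw [← hsf ∅, Finset.prod_empty, sf_one]
    have e : symmDiff (sf M) ∅ = sf M := symmDiff_bot (sf M)
    rwa [e]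
  have hd4 : ∀ T : Finset (Fin n), ∀ p ∈ sf (∏ i ∈ T, d i), p % 4 = 1 := by
    intro T p hp
    by_cases h1 : p ∈ sf M
    · exact hM4 p h1
    · refine hpm T p ?_
      rw [← hsf T, Finset.mem_symmDiff]
      exact Or.inr ⟨hp, h1⟩
  obtain ⟨r, hr⟩ := exists_MQ hd hd4 hs hgen
  have hex : ∀ X ∈ HH d, ∃ G : ℂ → ℂ, Differentiable ℂ G ∧
      (∀ z : ℂ, (k : ℝ) + 1 / 2 < z.re → HasProd (fun p : Nat.Primes =>
        (1 - xx (symmDiff (sf M) X) p * pw (bc p) (ec p) (2 * (k - 1) + 1) *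
          ((p : ℕ) : ℂ) ^ (-z) + xx (symmDiff (sf M) X) p ^ 2 * ec p ^ (2 * (k - 1) + 1) *
          (((p : ℕ) : ℂ) ^ (-z)) ^ 2)⁻¹) (G z)) ∧ G (k : ℂ) ≠ 0 := by
    intro X hX
    obtain ⟨T, rfl⟩ := mem_HH.1 hX
    rw [hsf T]
    exact wide' (hA T).1 (hA T).2.1 (hpm T) (hR T) hk
  choose! G g1 g2 g3 using hex
  refine ⟨fun z => ∏ X ∈ HH d, G X z, Differentiable.fun_finsetProd fun X hX => g1 X hX,
    fun z hz => ?_, Finset.prod_ne_zero_iff.2 g3⟩
  have hk1 : 2 * k - 1 = 2 * (k - 1) + 1 := by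
    have := hk.pos
    omega
  rw [hk1]
  refine hasProd_pl hr hM hM4 (k - 1) ?_ fun X hX => g2 X hX z hz
  have hkr : ((2 * (k - 1) + 1 : ℕ) : ℝ) = 2 * (k : ℝ) - 1 := by
    have : 2 * (k - 1) + 1 + 1 = 2 * k := by have := hk.pos; omega
    have h2 : ((2 * (k - 1) + 1 : ℕ) : ℝ) + 1 = 2 * (k : ℝ) := by exact_mod_cast this
    linarith
  rw [hkr]
  linarith

end Run7.h359.FW
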