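import Pool.Agent.Run7.h359.Inv

/-!
# The Selmer groups and the invariants
-/

set_option autoImplicit false

namespace Run7.h359.IV

open Pool.Agent.Results.MP_787500_nt.AllWeightsMultiquadraticX49
open Pool.Agent.Results.MP_6e2fc3_nt.CMFormsAllWeights
open WeierstrassCurve
open scoped Classical

variable {w : QBar}

lemma good_ne {M n : ℕ} {d : Fin n → ℕ} (hG : Good M d) : M ≠ 0 ∧ ∀ i, d i ≠ 0 := by
  constructor
  · obtain ⟨D, k, hk, hD, -, he⟩ := hG ∅
    rw [Finset.prod_empty, mul_one] at he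
    rw [he]
    exact mul_ne_zero hD.1.ne_zero (pow_ne_zero 2 hk)
  · intro i
    obtain ⟨D, k, hk, hD, -, he⟩ := hG {i}
    rw [Finset.prod_singleton] at he
    exact right_ne_zero_of_mul (he ▸ mul_ne_zero hD.1.ne_zero (pow_ne_zero 2 hk))

/-- the characters are not trivial -/
lemma chi_ne (hw : w ^ 2 = w - 2) {M n : ℕ} {d : Fin n → ℕ} (hM : M ≠ 0) (hd : ∀ i, d i ≠ 0)
    {κ κ' : Chr w} {r I : QBar} (kd : Pool.Agent.R384.KD hw κ κ' (tw M) r I)
    {s : Fin n → QBar} (hs : ∀ i, s i ^ 2 = (d i : QBar)) (j : ℤ) :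
    ∃ σ ∈ GalL w s, qv (chi κ κ' j) σ ≠ 1 := by
  obtain ⟨m, z, hm, hz⟩ := Pool.Agent.R384.chiD hw kd j
  have hem : Pool.Agent.R384.em hw (tw M) = -((2 * w - 1) * M) := by
    rw [Pool.Agent.R384.em_apply]
    unfold tw
    push_cast
    ring
  have hz2 : ∃ ε : ℚ, ε ^ 2 = 1 ∧ z ^ 2 = ε * (2 * w - 1) * M := by
    rcases hm with rfl | rfl
    · refine ⟨-1, by norm_num, ?_⟩
      rw [hz.hr, hem]
      push_cast
      ring
    · refine ⟨1, by norm_num, ?_⟩
      rw [hz.hr, map_neg, hem]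
      push_cast
      ring
  obtain ⟨ε, hε, hz3⟩ := hz2
  obtain ⟨σ, h1, h2⟩ := exists_flip hw hM hd hs hε hz3
  refine ⟨σ, h1, fun h => ?_⟩
  have h3 := hz.neg σ h2
  have h4 : ((κ ^ j * κ' ^ (1 - j) : Chr w) σ : ℤ_[2]) = 1 := by
    apply Subtype.ext
    exact h
  rw [h4] at h3
  have h5 : (1 : ℤ_[2]) + 1 = 2 := by norm_num
  rw [h5] at h3
  have h6 := Pool.Agent.R384.norm_of_four h3
  have h7 : ‖(((2 : ℤ_[2])) : ℚ_[2])‖ = 1 / 2 := by
    have h8 := Padic.norm_p (p := 2)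
    have h9 : (((2 : ℤ_[2])) : ℚ_[2]) = ((2 : ℕ) : ℚ_[2]) := rfl
    rw [h9, h8]
    norm_num
  rw [h7] at h6
  norm_num at h6

/-- the vanishing -/
theorem all_of' {M n : ℕ} {d : Fin n → ℕ} (hG : Good M d) (hw : w ^ 2 = w - 2) :
    Iso (EK w M) (ED w (tw M)) ∧ (ED w (tw M)).IsElliptic ∧
    ∃ κ κ' : Chr w, TateModule (tw M) κ κ' ∧
      ∀ s : Fin n → QBar, (∀ i, s i ^ 2 = (d i : QBar)) → OddWeights κ κ' s ∧
        ∀ j : ℤ, ∃ σ ∈ GalL w s, qv (chi κ κ' j) σ ≠ 1 := by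
  obtain ⟨hM0, hd0⟩ := good_ne hG
  have hD := tw_ne hM0
  refine ⟨tw_iso hw M, elliptic hD hw, ?_⟩
  have h : Pool.Agent.R384.WD w (Pool.Agent.R384.em hw (tw M)) := ⟨hw, Pool.Agent.R384.em_ne hw hD⟩
  obtain ⟨r, hr⟩ : ∃ r : QBar, r ^ 2 = Pool.Agent.R384.em hw (tw M) :=
    IsAlgClosed.exists_pow_nat_eq _ (by norm_num)
  obtain ⟨I, hI⟩ : ∃ I : QBar, I ^ 2 = -1 := IsAlgClosed.exists_pow_nat_eq _ (by norm_num)
  have fx : ∀ σ : Gal w, Pool.Agent.R384.Fx w (Pool.Agent.R384.em hw (tw M))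
      (Pool.Agent.R384.rh σ) := fun σ =>
    ⟨Pool.Agent.Y715.Gi.gk_fix σ, Pool.Agent.R384.gk_em hw σ (tw M)⟩
  obtain ⟨κ, κ', x, y, kd, hx, hy, ax, ay⟩ := Pool.Agent.R384.exists_kd hw hD h hr hI fx
  have td := Pool.Agent.R384.td h
  set T := tr (curve_eq hw (D := tw M)) with hT
  have hIr : (I * r) ^ 2 = Pool.Agent.R384.em hw (-tw M) := by rw [mul_pow, hI, hr, map_neg]; ring
  refine ⟨κ, κ', ⟨⟨fun n => T.symm (y n), fun n => T.symm (x n), ⟨?_, ?_, ?_, ?_⟩,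
    ⟨Units.continuous_val.comp kd.cont, fun σ => ?_⟩,
    ⟨Units.continuous_val.comp kd.cont', fun σ => ?_⟩⟩, ?_, ?_⟩, ?_⟩
  · show T.symm (y 0) = 0 ∧ T.symm (x 0) = 0
    rw [hx.zero, hy.zero, map_zero]
    exact ⟨rfl, rfl⟩
  · intro n
    show T.symm (y (n + 1)) + T.symm (y (n + 1)) = T.symm (y n) ∧
      T.symm (x (n + 1)) + T.symm (x (n + 1)) = T.symm (x n)
    rw [← map_add, ← map_add, hx.dbl, hy.dbl]
    exact ⟨rfl, rfl⟩
  · intro n P hP
    have h1 : (2 ^ n : ℤ) • T P = 0 := by rw [← map_zsmul, hP, map_zero]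
    obtain ⟨a, b, hab⟩ := Pool.Agent.R384.Tow.basis td hx hy h1
    refine ⟨b, a, ?_⟩
    apply T.injective
    show T P = T (b • T.symm (y n) + a • T.symm (x n))
    rw [map_add, map_zsmul, map_zsmul, T.apply_symm_apply, T.apply_symm_apply, hab, add_comm]
  · intro n a b hab
    have h1 : T (a • T.symm (y n) + b • T.symm (x n)) = 0 := by
      show T ((fun n => a • T.symm (y n) + b • T.symm (x n)) n) = 0
      rw [show (fun n => a • T.symm (y n) + b • T.symm (x n)) n = 0 from hab, map_zero]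
    rw [map_add, map_zsmul, map_zsmul, T.apply_symm_apply, T.apply_symm_apply, add_comm] at h1
    exact (Pool.Agent.R384.Tow.uniq td hx hy h1).symm
  · intro n k hk
    show act σ (T.symm (y n)) = k • T.symm (y n)
    apply T.injective
    rw [hT, tr_act hw h fx σ, ← hT, T.apply_symm_apply, map_zsmul, T.apply_symm_apply]
    exact ay σ n k hk
  · intro n k hk
    show act σ (T.symm (x n)) = k • T.symm (x n)
    apply T.injective
    rw [hT, tr_act hw h fx σ, ← hT, T.apply_symm_apply, map_zsmul, T.apply_symm_apply]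
    exact ax σ n k hk
  · rintro p _ ι hn σ ⟨τ, hτ, hin⟩
    have h1 := kd.inert p ι τ σ hτ hin hn
    unfold zv
    rcases Pool.Agent.R384.rt_or hw hIr σ with h2 | h2
    · rw [h1.1 h2, Units.val_one, one_pow]
    · rw [h1.2 h2, Units.val_neg, Units.val_one, neg_one_sq]
  · rintro p _ ι hn σ ⟨τ, hτ, hin⟩
    have h1 := kd.inert' p ι τ σ hτ hin hn
    unfold zv
    rcases Pool.Agent.R384.rt_or hw hr σ with h2 | h2
    · rw [h1.1 h2, Units.val_one, one_pow]
    · rw [h1.2 h2, Units.val_neg, Units.val_one, neg_one_sq]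
  · intro s hs
    refine ⟨fun k _ hk => ?_, fun j => chi_ne hw hM0 hd0 kd hs j⟩
    have hom : Pool.Agent.R384.em hw Pool.Agent.R384.om = w := by
      rw [Pool.Agent.R384.em_apply]
      simp [Pool.Agent.R384.om]
    have hom' : Pool.Agent.R384.em hw (1 - Pool.Agent.R384.om) = 1 - w := by
      rw [map_sub, map_one, hom]
    have hk' : Even (1 - k) := by
      rw [Int.even_sub]
      simp [Int.not_even_iff_odd.2 hk]
    have hE : ∀ i, s i ^ 2 = Pool.Agent.R384.em hw (((d i : ℤ) : Pool.Agent.R384.OO)) := by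
      intro i
      rw [hs i, map_intCast]
      push_cast
      rfl
    have hE0 : ∀ i, (((d i : ℤ) : Pool.Agent.R384.OO)) ≠ 0 := by
      intro i h1
      have h2 := congrArg QuadraticAlgebra.re h1
      simp at h2
      exact hd0 i h2
    have hgood : ∀ T : Finset (Fin n), ∃ (m : ℕ) (q : Fin m → Pool.Agent.R384.OO)
        (z : Pool.Agent.R384.OO), (∀ i, Pool.Agent.R384.Pr (q i)) ∧
        Function.Injective q ∧ (8 : Pool.Agent.R384.OO) ∣ ∏ i, q i - 1 ∧
        Pool.Agent.R384.Indec7 q ∧ z ≠ 0 ∧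
        tw M * ∏ i ∈ T, (((d i : ℤ) : Pool.Agent.R384.OO)) =
          -(Pool.Agent.R384.s7 * ∏ i, q i) * z ^ 2 := by
      intro T
      obtain ⟨D, k, hk0, hA, hR, he⟩ := hG T
      have hA' := (adm_iff D).1 hA
      have hgd := (good_iff hA'.1).1 hR
      rw [Pool.Agent.R428.Q0.gd_iff] at hgd
      obtain ⟨m, q, hpr, hinj, h8, hind, hprod⟩ := Pool.Agent.R384.factor7 hA.1 (fun p hp => by
        rcases (hA'.1.2 p hp).2 with h | h
        · exact Or.inl ⟨(hA'.1.2 p hp).1, h.1, h.2⟩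
        · exact Or.inr ⟨(hA'.1.2 p hp).1, h.1, h.2⟩) hA.2.1 hgd
      refine ⟨m, q, ((k : ℤ) : Pool.Agent.R384.OO), hpr, hinj, h8, hind, ?_, ?_⟩
      · intro h1
        have h2 := congrArg QuadraticAlgebra.re h1
        simp at h2
        exact hk0 h2
      · rw [hprod, tw_eq]
        have h1 : ((M : ℤ) : Pool.Agent.R384.OO) * ∏ i ∈ T, (((d i : ℤ) : Pool.Agent.R384.OO)) =
            ((D : ℤ) : Pool.Agent.R384.OO) * ((k : ℤ) : Pool.Agent.R384.OO) ^ 2 := by
          have h2 : (M : ℤ) * ∏ i ∈ T, (d i : ℤ) = (D : ℤ) * (k : ℤ) ^ 2 := by exact_mod_cast he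
          have h3 := congrArg (fun a : ℤ => (a : Pool.Agent.R384.OO)) h2
          simp only [Int.cast_mul, Int.cast_pow, Int.cast_prod] at h3
          exact h3
        linear_combination (-Pool.Agent.R384.s7) * h1
    rw [galL_eq]
    exact ⟨selmer_of hw (Pool.Agent.R384.vanish_mq hw hE kd hD hE0 hgood k
        (Or.inr ⟨hk, rfl, rfl⟩)) hom',
      selmer_of hw (Pool.Agent.R384.vanish_mq hw hE kd hD hE0 hgood (1 - k)
        (Or.inl ⟨hk', rfl, rfl⟩)) hom⟩

end Run7.h359.IV
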