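import Pool.Agent.Run7.h359.Lff
import Pool.Agent.Run7.h359.Alw

/-!
# The field generated by the square roots
-/

set_option autoImplicit false
set_option linter.unusedSectionVars false

namespace Run7.h359.FE

open Pool.Agent.Results.MP_787500_nt.AllWeightsMultiquadraticX49
open NumberField IsDedekindDomain WeierstrassCurve
open scoped Classical

section

variable {n : ℕ} (s : Fin n → QBar)

lemma fin_adj : FiniteDimensional ℚ (IntermediateField.adjoin ℚ (Set.range s)) :=
  IntermediateField.finiteDimensional_adjoin fun x _ => Algebra.IsIntegral.isIntegral x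

lemma nf_adj : NumberField (IntermediateField.adjoin ℚ (Set.range s)) where
  to_charZero := inferInstance
  to_finiteDimensional := fin_adj s

lemma gen_adj (K : Subfield (IntermediateField.adjoin ℚ (Set.range s)))
    (hK : ∀ i, (⟨s i, IntermediateField.subset_adjoin ℚ _ ⟨i, rfl⟩⟩ :
      IntermediateField.adjoin ℚ (Set.range s)) ∈ K) : K = ⊤ := by
  have hle : IntermediateField.adjoin ℚ (Set.range s) ≤
      (K.map (algebraMap (IntermediateField.adjoin ℚ (Set.range s)) QBar)).toIntermediateField
        (K := ℚ) (fun x => by
          have : algebraMap ℚ QBar x = ((x : ℚ) : QBar) := eq_ratCast _ x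
          rw [this]
          exact SubfieldClass.ratCast_mem _ x) := by
    rw [IntermediateField.adjoin_le_iff]
    rintro _ ⟨i, rfl⟩
    exact ⟨_, hK i, rfl⟩
  rw [eq_top_iff]
  rintro x -
  obtain ⟨y, hy, hyx⟩ := hle x.2
  have : y = x := Subtype.ext hyx
  rw [← this]
  exact hy

end

lemma E_cur {F : Type} [Field F] [CharZero F] [Algebra ℚ F] (M : ℕ) :
    (E M).map (algebraMap ℚ F) = cur (M : F) := by
  have e : E M = cur (M : ℚ) := by
    unfold E cur
    rfl
  rw [e, cur_map, map_natCast]

end Run7.h359.FE
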