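import Pool.Agent.Run7.h359.Wid
import Pool.Agent.Results.MP_03e5d0_nt.FullClassX49

/-!
# The number of the twists of rank zero
-/

set_option autoImplicit false

namespace Run7.h359.CT

open Pool.Agent.Results.MP_03e5d0_nt.FullClassX49 (tw Pattern)
open Pool.Agent.Results.MP_92892c_nt.FullClassTwoPartX49 (Family num)
open scoped Classical

/-- the class -/
def W8 (D : ℕ) : Prop := Squarefree D ∧ D % 8 = 1 ∧ ∀ p : ℕ, p.Prime → p ∣ D → p % 4 = 1

lemma E_E {D : ℕ} (h : D % 4 = 1) :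
    Pool.Agent.Results.MP_4a9ea6_nt.TwoPartTwistsX49.E D =
      Pool.Agent.Results.MP_787500_nt.AllWeightsMultiquadraticX49.E D := by
  obtain ⟨j, hj⟩ : ∃ j, D = 1 + 4 * j := ⟨D / 4, by omega⟩
  rw [Pool.Agent.Results.MP_4a9ea6_nt.TwoPartTwistsX49.E_eq hj]
  unfold Pool.Agent.Results.MP_787500_nt.AllWeightsMultiquadraticX49.E Pool.Agent.Y698.AX
    Pool.Agent.Y698.EX
  rw [hj]
  congr 1
  · push_cast; ring
  · push_cast; ring
  · push_cast; ring

lemma R_R {D : ℕ} (h : D % 4 = 1)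
    (hR : Pool.Agent.Results.MP_92892c_nt.FullClassTwoPartX49.RankZeroShaTwo D) :
    Pool.Agent.Results.MP_787500_nt.AllWeightsMultiquadraticX49.RankZeroShaTwo D := by
  unfold Pool.Agent.Results.MP_92892c_nt.FullClassTwoPartX49.RankZeroShaTwo at hR
  unfold Pool.Agent.Results.MP_787500_nt.AllWeightsMultiquadraticX49.RankZeroShaTwo
  rw [E_E h] at hR
  exact hR

lemma fam_mod {D : ℕ} (h : Family D) : D % 4 = 1 := by
  obtain ⟨h1, h2⟩ := h
  rw [← Nat.prod_primeFactors_of_squarefree h1, Finset.prod_nat_mod,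
    Finset.prod_congr rfl (fun l hl => h2 l hl)]
  simp

lemma fam_w {D : ℕ} (h : Family D) (h8 : D % 8 = 1) : W8 D :=
  ⟨h.1, h8, fun p hp hd => h.2 p (Nat.mem_primeFactors.2 ⟨hp, hd, h.1.ne_zero⟩)⟩

lemma tw_five (D : ℕ) : (5 ∣ D ∧ D = 5 * tw 5 D) ∨ (¬ 5 ∣ D ∧ tw 5 D = 5 * D) := by
  unfold tw
  by_cases h : 5 ∣ D
  · left
    obtain ⟨k, rfl⟩ := h
    have h1 : Nat.gcd 5 (5 * k) = 5 := Nat.gcd_eq_left (Dvd.intro k rfl)
    refine ⟨Dvd.intro k rfl, ?_⟩
    rw [h1]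
    have e : 5 * (5 * k) / 5 ^ 2 = k := by omega
    rw [e]
  · right
    have h1 : Nat.gcd 5 D = 1 := (Nat.Prime.coprime_iff_not_dvd (by norm_num)).2 h
    refine ⟨h, ?_⟩
    rw [h1]
    simp

lemma tw_one (D : ℕ) : tw 1 D = D := by
  unfold tw
  simp

lemma tw_inj {D D' : ℕ} (h : Squarefree D) (h' : Squarefree D') (e : tw 5 D = tw 5 D') : D = D' := by
  have h25 : ∀ n : ℕ, Squarefree n → ¬ 25 ∣ n := by
    intro n hn hd
    have h1 := hn 5 (by simpa using hd)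
    exact absurd (Nat.isUnit_iff.1 h1) (by norm_num)
  have a := h25 D h
  have a' := h25 D' h'
  rcases tw_five D with ⟨h1, h2⟩ | ⟨h1, h2⟩ <;> rcases tw_five D' with ⟨h3, h4⟩ | ⟨h3, h4⟩ <;> omega

/-- the number of the twists -/
theorem cnt : ∃ (a : ℝ) (X₀ : ℕ), 0 < a ∧ ∀ X : ℕ, X₀ ≤ X → a * X / Real.sqrt (Real.log X) ≤
    (((Finset.Icc 1 X).filter fun D => W8 D ∧
      Pool.Agent.Results.MP_787500_nt.AllWeightsMultiquadraticX49.RankZeroShaTwo D).card : ℝ) := by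
  have hf1 : Family 1 := ⟨squarefree_one, fun p hp => by simp at hp⟩
  have hf5 : Family 5 := ⟨Nat.prime_five.squarefree, fun p hp => by
    rw [Nat.Prime.primeFactors Nat.prime_five, Finset.mem_singleton] at hp
    rw [hp]⟩
  obtain ⟨r1, r2, -⟩ := Pool.Agent.Results.MP_03e5d0_nt.FullClassX49.result
  obtain ⟨-, a, X₀, ha, hX⟩ := r2 {1, 5} {1, 5} (fun M hM => by
    rw [Finset.mem_insert, Finset.mem_singleton] at hM
    rcases hM with rfl | rfl
    · exact hf1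
    · exact hf5) (Finset.Subset.refl _)
  refine ⟨a / 20, max (5 * X₀) 20, by positivity, fun X hXX => ?_⟩
  have hX5 : X₀ ≤ X / 5 := by
    rw [Nat.le_div_iff_mul_le (by norm_num)]
    have := le_max_left (5 * X₀) 20
    omega
  have hX20 : 20 ≤ X := (le_max_right _ _).trans hXX
  have h1 := hX (X / 5) hX5
  set G := (Finset.Icc 1 X).filter fun D => W8 D ∧
      Pool.Agent.Results.MP_787500_nt.AllWeightsMultiquadraticX49.RankZeroShaTwo D with hG
  have hcard : num (Pattern {1, 5} {1, 5}) (X / 5) ≤ 2 * G.card := by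
    unfold num
    rw [← Finset.card_filter_add_card_filter_not (fun D => D % 8 = 1)
      (s := (Finset.Icc 1 (X / 5)).filter fun D => Family D ∧ Pattern {1, 5} {1, 5} D), two_mul]
    refine Nat.add_le_add (Finset.card_le_card fun D hD => ?_)
      (Finset.card_le_card_of_injOn (tw 5) (fun D hD => ?_) fun D hD D' hD' e => ?_)
    · rw [Finset.mem_filter, Finset.mem_filter, Finset.mem_Icc] at hD
      obtain ⟨⟨⟨k1, k2⟩, k3, k4⟩, k5⟩ := hD
      rw [hG, Finset.mem_filter, Finset.mem_Icc]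
      refine ⟨⟨k1, by omega⟩, fam_w k3 k5, R_R (fam_mod k3) ?_⟩
      have := (k4.2 1 (by simp)).2 (by simp)
      rwa [tw_one] at this
    · rw [Finset.mem_coe, Finset.mem_filter, Finset.mem_filter, Finset.mem_Icc] at hD
      obtain ⟨⟨⟨k1, k2⟩, k3, k4⟩, k5⟩ := hD
      have hF := (r1 5 D hf5 k3).1
      have hm := fam_mod k3
      have hm' := fam_mod hF
      have h8 : tw 5 D % 8 = 1 ∧ 1 ≤ tw 5 D ∧ tw 5 D ≤ X := by
        rcases tw_five D with ⟨g1, g2⟩ | ⟨g1, g2⟩ <;> omega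
      rw [Finset.mem_coe, hG, Finset.mem_filter, Finset.mem_Icc]
      exact ⟨h8.2, fam_w hF h8.1, R_R hm' ((k4.2 5 (by simp)).2 (by simp))⟩
    · rw [Finset.mem_coe, Finset.mem_filter, Finset.mem_filter] at hD hD'
      exact tw_inj hD.1.2.1.1 hD'.1.2.1.1 e
  have hc : ((num (Pattern {1, 5} {1, 5}) (X / 5) : ℕ) : ℝ) ≤ 2 * G.card := by exact_mod_cast hcard
  have hXr : (X : ℝ) / 10 ≤ ((X / 5 : ℕ) : ℝ) := by
    have h2 : X ≤ 10 * (X / 5) := by omega
    have h3 : (X : ℝ) ≤ 10 * ((X / 5 : ℕ) : ℝ) := by exact_mod_cast h2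
    linarith
  have hY1 : (1 : ℝ) < ((X / 5 : ℕ) : ℝ) := by
    have h2 : 1 < X / 5 := by omega
    exact_mod_cast h2
  have hlog : 0 < Real.log ((X / 5 : ℕ) : ℝ) := Real.log_pos hY1
  have hle : Real.log ((X / 5 : ℕ) : ℝ) ≤ Real.log X := by
    refine Real.log_le_log (by linarith) ?_
    exact_mod_cast Nat.div_le_self X 5
  have hs1 : 0 < Real.sqrt (Real.log ((X / 5 : ℕ) : ℝ)) := Real.sqrt_pos.2 hlog
  have hs2 : Real.sqrt (Real.log ((X / 5 : ℕ) : ℝ)) ≤ Real.sqrt (Real.log X) := Real.sqrt_le_sqrt hle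
  have h4 : a * (X / 10) / Real.sqrt (Real.log X) ≤
      a * ((X / 5 : ℕ) : ℝ) / Real.sqrt (Real.log ((X / 5 : ℕ) : ℝ)) := by
    refine div_le_div₀ (by positivity) ?_ hs1 hs2
    exact mul_le_mul_of_nonneg_left hXr ha.le
  have h5 : a / 20 * X / Real.sqrt (Real.log X) = a * (X / 10) / Real.sqrt (Real.log X) / 2 := by ring
  rw [h5]
  linarith

end Run7.h359.CT
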