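import Pool.Agent.Run7.h359.Loc

/-!
# The congruence modulo four at the points of odd order
-/

set_option autoImplicit false
set_option linter.unusedSectionVars false

open Filter
open scoped Topology PeriodPair

namespace Run7.h359.BK

open H667R3 Pool.Agent.TH936.CW Pool.Agent.TH936.CM Pool.Agent.TH936.PU
open Pool.Agent.W192.HK (sp)
open Pool.Agent.Y698 (al bl RR aR bR tA tB al_ne bl_ne al_mul_bl al_sq tA_mem tB_mem two_tA two_tB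
  tA_notMem tB_notMem tC_notMem roots_dist LD aR_coe bR_coe ker_al ker_bl isLat_neg_mem al_im_pos
  Tb v_two v_bl v_two_lt two_coe aR_mul_bR qr fin_quot)

variable {L : PeriodPair} {Ω p q : ℂ} {Γ : Type*} [LinearOrderedCommGroupWithZero Γ]
  {v : Valuation ℂ Γ}

/-! ### polynomial identities -/

section ring
variable {R : Type*} [CommRing R]

/-- a polynomial -/
def Tn (F s y u : R) : R := 2*F^2*s^2*u^2 - 2*F*s^2*u^3 - F*s^2*u + 2*F*s*y*u^2 + 2*F*s*u^5 +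
  2*s^2*u^4 + s^2*u^2 + s^2 + s*y*u^2 - s*y*u + s*y - 2*s*u^8 + 5*s*u^7 - s*u^6 + s*u^4 +
  2*s*u^3 + s*u^2 + s + 4*u^11 + u^9 - u^8 + u^7 + u^6 - u^5 + u^4 + 2*u^3 + u^2 + 1

/-- a polynomial -/
def En (F s y u : R) : R := u^2*s^3 - 2*u^2*s^2 + 3*u^6*s +
  u^2*(F^2-F)*s*(s+(4*u-1)*u^2) + u^2*(2*F*y+F*(s+2*u^3)-y)*s

end ring

lemma alg_N {F s y u : ℂ} (hu : 2*u^2-u+1 = 0)
    (hc : y^2+(s+2*u^3)*y = (s+2*u^3)^3-(s+2*u^3)^2-2*(s+2*u^3)-1) :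
    (2*u*F*s+u*(y+u^3)-u^2*s)^2 - s*(2*u*F*s+u*(y+u^3)-u^2*s) - 2*u^3*s^2 -
      u^2*s*(s+(4*u-1)*u^2)^2 + s^2 = 2*Tn F s y u := by
  unfold Tn
  linear_combination u^2*hc - (s^2*u^3 + s^2*u^2 + s^2*u + s^2 + s*y*u + 2*s*y + s*u^5 + s*u^4 +
    2*s*u^3 + 2*s*u^2 + 2*s*u + 2*s + u^7 + u^6 + u^5 + u^4 + u^3 + u^2 + 2*u + 2)*hu

lemma alg_M {s y u M : ℂ} (hs : s ≠ 0) (hu : 2*u^2-u+1 = 0)
    (hc : y^2+(s+2*u^3)*y = (s+2*u^3)^3-(s+2*u^3)^2-2*(s+2*u^3)-1)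
    (hD : 2*s*M = 2*y+(s+2*u^3)) :
    M^2*s = s^2+(-3/4)*(3+2*u)*s+((4*u-1)*u^2)^2 := by
  have h4 : (4 : ℂ)*s ≠ 0 := mul_ne_zero (by norm_num) hs
  apply mul_left_cancel₀ h4
  linear_combination (2*s*M+2*y+(s+2*u^3))*hD + 4*hc + (12*s^2*u + 6*s^2 - 8*s*u^4 + 12*s*u^3 +
    8*s*u^2 - 8*s*u - 8*s + 16*u^7 + 8*u^6 - 4*u^5 - 12*u^4 - 4*u^3 + 4*u^2 - 4*u - 4)*hu

lemma alg_E {F s y u M Fw Lw xw : ℂ} (hs : s ≠ 0) (hu : 2*u^2-u+1 = 0)
    (hc : y^2+(s+2*u^3)*y = (s+2*u^3)^3-(s+2*u^3)^2-2*(s+2*u^3)-1)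
    (hD : 2*s*M = 2*y+(s+2*u^3)) (hF : Fw = 1/2+u*(2*F-1+M))
    (hL : (Lw+1/2)*(s+(4*u-1)*u^2) = u*M*(s-(4*u-1)*u^2))
    (hx : (xw-2*u^3)*s = u^2*(s+(4*u-1)*u^2)^2) :
    s*(s+(4*u-1)*u^2)*(Fw^2+2*Fw*Lw-Lw+4*u^3+xw-2)+s^2 = 4*En F s y u := by
  have hM := alg_M hs hu hc hD
  unfold En
  subst hF
  linear_combination (2*u*(2*F-1+M)*s)*hL + (s+(4*u-1)*u^2)*hx + (2*(2*F-1)*s*u^2)*hD +
    (u^2*(3*s-(4*u-1)*u^2))*hM + (4*s^2*u^3 + s^2*u^2 - 3/4*s^2*u - 3/4*s^2 + 48*s*u^6 -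
    12*s*u^4 - 21/4*s*u^3 + 7/4*s*u^2)*hu

lemma v_Tn {F s y u : ℂ} (hF : v F ≤ 1) (hs : v s ≤ 1) (hy : v y ≤ 1) (hu : v u ≤ 1) :
    v (Tn F s y u) ≤ 1 := by
  have h := (Tn (⟨F, hF⟩ : v.integer) ⟨s, hs⟩ ⟨y, hy⟩ ⟨u, hu⟩).2
  have e : ((Tn (⟨F, hF⟩ : v.integer) ⟨s, hs⟩ ⟨y, hy⟩ ⟨u, hu⟩ : v.integer) : ℂ) = Tn F s y u := by
    unfold Tn
    push_cast
    rfl
  rw [← e]
  exact h

lemma v_En {F s y u : ℂ} (hF : v F ≤ 1) (hs : v s ≤ 1) (hy : v y ≤ 1) (hu : v u ≤ 1) :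
    v (En F s y u) ≤ 1 := by
  have h := (En (⟨F, hF⟩ : v.integer) ⟨s, hs⟩ ⟨y, hy⟩ ⟨u, hu⟩).2
  have e : ((En (⟨F, hF⟩ : v.integer) ⟨s, hs⟩ ⟨y, hy⟩ ⟨u, hu⟩ : v.integer) : ℂ) = En F s y u := by
    unfold En
    push_cast
    rfl
  rw [← e]
  exact h

/-! ### the relations at `bl z` -/

/-- the constant -/
noncomputable def cc : ℂ := (4 * uu - 1) * uu ^ 2

variable (L Ω p q)

/-- the isogeny relation -/
def HKr : Prop := ∀ z, z ∉ L.lattice → z + tB Ω ∉ L.lattice → z - tB Ω ∉ L.lattice →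
  kap L p q (tB Ω) (bl * z) = uu * (kap L p q (tB Ω) z + cc / kap L p q (tB Ω) z)

variable {L Ω p q}

lemma kap_ne (h : LD L Ω) (hpq : ∀ l ∈ L.lattice, eta L l = p * l + q * (starRingEnd ℂ) l)
    {z : ℂ} (hz : z ∉ L.lattice) (h1 : z + tB Ω ∉ L.lattice) (h2 : z - tB Ω ∉ L.lattice) :
    kap L p q (tB Ω) z ≠ 0 := by
  intro h0
  have h3 := kap_s h hpq hz
  rw [h0, ← xB_eq h] at h3
  apply xc_ne hz (tB_notMem h.lat) h1 h2
  rw [← h3]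
  ring

lemma bl_ok (hL : IsLat L RR Ω) {z : ℂ} (hz : z ∉ L.lattice) (h2 : z - tB Ω ∉ L.lattice) :
    bl * z ∉ L.lattice := fun h => by
  rcases ker_bl hL h with h3 | h3
  · exact hz h3
  · exact h2 h3

lemma xw_eq (h : LD L Ω) (hpq : ∀ l ∈ L.lattice, eta L l = p * l + q * (starRingEnd ℂ) l)
    (hk : HKr L Ω p q) {z : ℂ} (hz : z ∉ L.lattice) (h1 : z + tB Ω ∉ L.lattice)
    (h2 : z - tB Ω ∉ L.lattice) :
    (xc L (bl * z) - 2 * uu ^ 3) * (xc L z - 2 * uu ^ 3) =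
      uu ^ 2 * ((xc L z - 2 * uu ^ 3) + cc) ^ 2 := by
  rw [← kap_s h hpq (bl_ok h.lat hz h2), ← kap_s h hpq hz, hk z hz h1 h2]
  have := kap_ne h hpq hz h1 h2
  field_simp

lemma v_sc (h : LD L Ω) (hpq : ∀ l ∈ L.lattice, eta L l = p * l + q * (starRingEnd ℂ) l)
    (hv : v al < 1) (hk : HKr L Ω p q) {z : ℂ} (hz : Od L z) :
    v ((xc L z - 2 * uu ^ 3) + cc) = 1 := by
  have hL := h.lat
  have h1 := hk z hz.ne (hz.addB hL).1 (hz.addB hL).2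
  have h2 := kap_ne h hpq hz.ne (hz.addB hL).1 (hz.addB hL).2
  have h3 : kap L p q (tB Ω) (bl * z) * kap L p q (tB Ω) z =
      uu * ((xc L z - 2 * uu ^ 3) + cc) := by
    rw [h1, ← kap_s h hpq hz.ne]
    field_simp
  have h4 := congrArg v h3
  rw [map_mul, map_mul, v_kap h hpq hv hz, v_kap h hpq hv (hz.bl hL), v_uu hv, one_mul,
    one_mul] at h4
  exact h4.symm

lemma Lw_eq (h : LD L Ω) (hpq : ∀ l ∈ L.lattice, eta L l = p * l + q * (starRingEnd ℂ) l)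
    (hk : HKr L Ω p q) {z : ℂ} (hz : Od L z) :
    (Lc L (bl * z) (tB Ω) + 1 / 2) * ((xc L z - 2 * uu ^ 3) + cc) =
      uu * (Lc L z (tB Ω) + 1 / 2) * ((xc L z - 2 * uu ^ 3) - cc) := by
  have hL := h.lat
  have htB := tB_notMem hL
  have htB2 := two_tB hL
  have k0 := kap_ne h hpq hz.ne (hz.addB hL).1 (hz.addB hL).2
  have d1 := kap_deriv hpq htB htB2 hz.ne (hz.addB hL).1 (hz.addB hL).2
  have hw := hz.bl hL
  have d2 := kap_deriv hpq htB htB2 hw.ne (hw.addB hL).1 (hw.addB hL).2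
  have d0 : HasDerivAt (fun z : ℂ => bl * z) bl z := by
    simpa using (hasDerivAt_id z).const_mul bl
  have d3 := d2.comp z d0
  have d4 := (d1.add ((d1.inv k0).const_mul cc)).const_mul uu
  have he : (kap L p q (tB Ω) ∘ fun z : ℂ => bl * z) =ᶠ[𝓝 z]
      fun z => uu * (kap L p q (tB Ω) + fun z => cc * (kap L p q (tB Ω))⁻¹ z) z := by
    have o1 : ∀ᶠ s in 𝓝 z, s ∉ L.lattice := (isOpen_compl L).mem_nhds hz.ne
    have o2 : ∀ᶠ s in 𝓝 z, s + tB Ω ∉ L.lattice := by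
      have c : ContinuousAt (fun s : ℂ => s + tB Ω) z := by fun_prop
      exact c.eventually ((isOpen_compl L).mem_nhds (hz.addB hL).1)
    have o3 : ∀ᶠ s in 𝓝 z, s - tB Ω ∉ L.lattice := by
      have c : ContinuousAt (fun s : ℂ => s - tB Ω) z := by fun_prop
      exact c.eventually ((isOpen_compl L).mem_nhds (hz.addB hL).2)
    filter_upwards [o1, o2, o3] with s a b c
    have := hk s a b c
    simp only [Function.comp_apply, Pi.add_apply, Pi.inv_apply]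
    rw [this, div_eq_mul_inv]
  have d5 := (d3.congr_of_eventuallyEq he.symm).unique d4
  have hs := kap_s h hpq hz.ne
  have h1 := hk z hz.ne (hz.addB hL).1 (hz.addB hL).2
  rw [← hs]
  rw [h1] at d5
  set κ := kap L p q (tB Ω) z
  set M := Lc L z (tB Ω)
  set N := Lc L (bl * z) (tB Ω)
  have hb := bl_uu
  have e1 : (1 / 2 + N) * (κ + cc / κ) = uu * ((1 / 2 + M) * κ + cc * (-((1 / 2 + M) * κ) / κ ^ 2)) := by
    linear_combination d5 - ((1 / 2 + N) * (κ + cc / κ)) * hb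
  have e2 : (κ + cc / κ) * κ = κ ^ 2 + cc := by field_simp
  have e3 : ((1 / 2 + M) * κ + cc * (-((1 / 2 + M) * κ) / κ ^ 2)) * κ = (1 / 2 + M) * (κ ^ 2 - cc) := by
    field_simp
    ring
  linear_combination κ * e1 - (1 / 2 + N) * e2 + uu * e3

/-- the norm congruence -/
theorem v_N (h : LD L Ω) (hpq : ∀ l ∈ L.lattice, eta L l = p * l + q * (starRingEnd ℂ) l)
    (hv : v al < 1) (hk : HKr L Ω p q) {z : ℂ} (hz : Od L z) :
    v (Fz L p q (bl * z) ^ 2 - Fz L p q (bl * z) - xc L (bl * z) + 1) ≤ v 2 := by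
  have hL := h.lat
  have hsv := v_s h hv hz
  have hs0 : xc L z - 2 * uu ^ 3 ≠ 0 := by
    intro h0
    rw [h0, map_zero] at hsv
    exact zero_ne_one hsv
  have h1 := Fz_bl h hpq hz
  have h2 := Lc_eq h z
  have h3 := xw_eq h hpq hk hz.ne (hz.addB hL).1 (hz.addB hL).2
  have hcv := curve h.g2 h.g3 hz.ne
  set s := xc L z - 2 * uu ^ 3 with hs
  have hx : xc L z = s + 2 * uu ^ 3 := by rw [hs]; ring
  rw [hx] at hcv
  have a1 : s * Lc L z (tB Ω) = yc L z + uu ^ 3 := by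
    rw [h2]
    field_simp
  have a2 : s * Fz L p q (bl * z) = 2 * uu * Fz L p q z * s + uu * (yc L z + uu ^ 3) -
      uu ^ 2 * s := by
    rw [h1, ← a1]
    ring
  have a3 := alg_N (F := Fz L p q z) uu_rel hcv
  have a4 : s ^ 2 * (Fz L p q (bl * z) ^ 2 - Fz L p q (bl * z) - xc L (bl * z) + 1) =
      2 * Tn (Fz L p q z) s (yc L z) uu := by
    rw [← a3, ← a2]
    unfold cc at h3
    linear_combination -s * h3
  have a5 := congrArg v a4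
  rw [map_mul, map_pow, hsv, one_pow, one_mul, map_mul] at a5
  rw [a5]
  refine mul_le_of_le_one_right zero_le ?_
  exact v_Tn (v_Fz h hpq hv hz) hsv.le (v_yc h hv (hz.tb hv)) (v_uu hv).le

/-- the main congruence -/
theorem v_E (h : LD L Ω) (hpq : ∀ l ∈ L.lattice, eta L l = p * l + q * (starRingEnd ℂ) l)
    (hv : v al < 1) (hk : HKr L Ω p q) {z : ℂ} (hz : Od L z) :
    v ((Fz L p q (bl * z) ^ 2 + 2 * Fz L p q (bl * z) * Lc L (bl * z) (tB Ω) -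
      Lc L (bl * z) (tB Ω) + 4 * uu ^ 3 + xc L (bl * z) - 2) * kap L p q (tB Ω) (bl * z) +
      uu * kap L p q (tB Ω) z) ≤ v 4 := by
  have hL := h.lat
  have hsv := v_s h hv hz
  have hscv := v_sc h hpq hv hk hz
  have hs0 : xc L z - 2 * uu ^ 3 ≠ 0 := by
    intro h0
    rw [h0, map_zero] at hsv
    exact zero_ne_one hsv
  have h1 := Fz_bl h hpq hz
  have h2 := Lc_eq h z
  have h3 := xw_eq h hpq hk hz.ne (hz.addB hL).1 (hz.addB hL).2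
  have h4 := Lw_eq h hpq hk hz
  have hcv := curve h.g2 h.g3 hz.ne
  have k0 := kap_ne h hpq hz.ne (hz.addB hL).1 (hz.addB hL).2
  have hks := kap_s h hpq hz.ne
  have hkw := hk z hz.ne (hz.addB hL).1 (hz.addB hL).2
  set s := xc L z - 2 * uu ^ 3 with hs
  have hx : xc L z = s + 2 * uu ^ 3 := by rw [hs]; ring
  rw [hx] at hcv
  have a1 : s * Lc L z (tB Ω) = yc L z + uu ^ 3 := by
    rw [h2]
    field_simp
  unfold cc at h3 h4 hscv hkw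
  have a3 := alg_E (F := Fz L p q z) (M := Lc L z (tB Ω) + 1 / 2) (Fw := Fz L p q (bl * z))
    (Lw := Lc L (bl * z) (tB Ω)) (xw := xc L (bl * z)) hs0 uu_rel hcv
    (by linear_combination 2 * a1) (by rw [h1]; linear_combination (-1 / 2 : ℂ) * uu_rel) h4 h3
  set κ := kap L p q (tB Ω) z
  set κw := kap L p q (tB Ω) (bl * z)
  set Z := Fz L p q (bl * z) ^ 2 + 2 * Fz L p q (bl * z) * Lc L (bl * z) (tB Ω) -
      Lc L (bl * z) (tB Ω) + 4 * uu ^ 3 + xc L (bl * z) - 2 with hZ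
  have hκw : κw * κ = uu * (s + (4 * uu - 1) * uu ^ 2) := by
    rw [hkw, ← hks]
    field_simp
  have a4 : s * (s + (4 * uu - 1) * uu ^ 2) * (Z * κw + uu * κ) =
      κw * (4 * En (Fz L p q z) s (yc L z) uu) := by
    rw [← a3]
    have e1 : uu * κ * (s + (4 * uu - 1) * uu ^ 2) = κw * s := by
      linear_combination -κ * hκw + κw * hks
    linear_combination s * e1
  have a5 := congrArg v a4
  rw [map_mul, map_mul, hsv, hscv, one_mul, one_mul, map_mul, map_mul] at a5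
  rw [a5, v_kap h hpq hv (hz.bl hL), one_mul]
  refine mul_le_of_le_one_right zero_le ?_
  exact v_En (v_Fz h hpq hv hz) hsv.le (v_yc h hv (hz.tb hv)) (v_uu hv).le

end Run7.h359.BK
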