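import Pool.Agent.Run7.h359.Fet

/-!
# Central zeros and the next critical value
-/

set_option autoImplicit false
set_option linter.unusedSectionVars false

namespace Run7.h359.CZ

open Pool.Agent.Results.MP_787500_nt.AllWeightsMultiquadraticX49
open Pool.Agent.Y698 Pool.Agent.Y698.SG
open NumberField IsDedekindDomain WeierstrassCurve
open W165.CE (pw pw_eq)
open Run7.h359.EU Run7.h359.FE Run7.h359.FS Run7.h359.WD

/-- The value at `k + 1` is not zero. -/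
lemma next_ne {S : Finset ℕ} (hS : ∀ q ∈ S, q.Prime) {k : ℕ} (hk0 : 0 < k) {A : ℂ}
    (h : HasProd (fun p : Nat.Primes =>
      (1 - xx S p * pw (bc p) (ec p) (2 * (k - 1) + 1) * ((p : ℕ) : ℂ) ^ (-((k : ℂ) + 1)) +
      xx S p ^ 2 * ec p ^ (2 * (k - 1) + 1) * (((p : ℕ) : ℂ) ^ (-((k : ℂ) + 1))) ^ 2)⁻¹) A) :
    A ≠ 0 := by
  choose α β h1 h2 h3 h4 using roots_p
  set n := 2 * (k - 1) + 1 with hn
  -- the factors
  set a : Nat.Primes → ℂ := fun p => xx S p * α p ^ n * ((p : ℕ) : ℂ) ^ (-((k : ℂ) + 1)) with ha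
  set b : Nat.Primes → ℂ := fun p => xx S p * β p ^ n * ((p : ℕ) : ℂ) ^ (-((k : ℂ) + 1)) with hb
  have hx : ∀ p : Nat.Primes, ‖xx S p‖ ≤ 1 := by
    intro p
    rcases xx_or hS p.2 with h | h
    · rw [h, norm_zero]; exact zero_le_one
    · have h5 : ‖xx S p‖ ^ 2 = 1 := by rw [← norm_pow, h, norm_one]
      nlinarith [norm_nonneg (xx S p)]
  have hpos : ∀ p : Nat.Primes, (0 : ℝ) < ((p : ℕ) : ℝ) := fun p => by exact_mod_cast p.2.pos
  have hone : ∀ p : Nat.Primes, (1 : ℝ) < ((p : ℕ) : ℝ) := fun p => by exact_mod_cast p.2.one_lt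
  have hnk : (n : ℝ) = 2 * (k : ℝ) - 1 := by
    have : n + 1 = 2 * k := by omega
    have h2 : (n : ℝ) + 1 = 2 * (k : ℝ) := by exact_mod_cast this
    linarith
  have key : ∀ (p : Nat.Primes) (γ : ℂ), ‖γ‖ ≤ Real.sqrt (p : ℕ) →
      ‖xx S p * γ ^ n * ((p : ℕ) : ℂ) ^ (-((k : ℂ) + 1))‖ ≤ ((p : ℕ) : ℝ) ^ (-(3 / 2) : ℝ) := by
    intro p γ hγ
    rw [norm_mul, norm_mul, norm_pow]
    have h5 : ‖((p : ℕ) : ℂ) ^ (-((k : ℂ) + 1))‖ = ((p : ℕ) : ℝ) ^ (-((k : ℝ) + 1)) := by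
      rw [Complex.norm_natCast_cpow_of_pos p.2.pos]
      simp
    have h6 : ‖γ‖ ^ n ≤ ((p : ℕ) : ℝ) ^ ((n : ℝ) / 2) := by
      calc ‖γ‖ ^ n ≤ (Real.sqrt (p : ℕ)) ^ n := pow_le_pow_left₀ (norm_nonneg _) hγ n
        _ = _ := by
          rw [Real.sqrt_eq_rpow, ← Real.rpow_natCast, ← Real.rpow_mul (hpos p).le]
          congr 1
          ring
    rw [h5]
    calc ‖xx S p‖ * ‖γ‖ ^ n * ((p : ℕ) : ℝ) ^ (-((k : ℝ) + 1))
        ≤ 1 * ((p : ℕ) : ℝ) ^ ((n : ℝ) / 2) * ((p : ℕ) : ℝ) ^ (-((k : ℝ) + 1)) := by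
          refine mul_le_mul_of_nonneg_right ?_ (Real.rpow_nonneg (hpos p).le _)
          exact mul_le_mul (hx p) h6 (pow_nonneg (norm_nonneg _) _) zero_le_one
      _ = _ := by
          rw [one_mul, ← Real.rpow_add (hpos p), hnk]
          congr 1
          ring
  have hsum : Summable fun p : Nat.Primes => ((p : ℕ) : ℝ) ^ (-(3 / 2) : ℝ) :=
    Nat.Primes.summable_rpow.2 (by norm_num)
  have ha' : ∀ p, ‖a p‖ ≤ ((p : ℕ) : ℝ) ^ (-(3 / 2) : ℝ) := fun p => key p _ (h3 p)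
  have hb' : ∀ p, ‖b p‖ ≤ ((p : ℕ) : ℝ) ^ (-(3 / 2) : ℝ) := fun p => key p _ (h4 p)
  have hlt : ∀ p : Nat.Primes, ((p : ℕ) : ℝ) ^ (-(3 / 2) : ℝ) < 1 := fun p =>
    Real.rpow_lt_one_of_one_lt_of_neg (hone p) (by norm_num)
  have hne : ∀ x : ℂ, ‖x‖ < 1 → 1 - x ≠ 0 := by
    intro x hx h0
    have : x = 1 := (sub_eq_zero.1 h0).symm
    rw [this, norm_one] at hx
    exact lt_irrefl _ hx
  have hP1 : Multipliable fun p => 1 + -a p := multipliable_one_add_of_summable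
    (by simpa using Summable.of_nonneg_of_le (fun p => norm_nonneg _) ha' hsum)
  have hP2 : Multipliable fun p => 1 + -b p := multipliable_one_add_of_summable
    (by simpa using Summable.of_nonneg_of_le (fun p => norm_nonneg _) hb' hsum)
  have hQ := hP1.hasProd.mul hP2.hasProd
  have hR := hQ.mul h
  intro h0
  rw [h0, mul_zero] at hR
  have hall : (fun p : Nat.Primes => (1 + -a p) * (1 + -b p) *
      (1 - xx S p * pw (bc p) (ec p) n * ((p : ℕ) : ℂ) ^ (-((k : ℂ) + 1)) +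
      xx S p ^ 2 * ec p ^ n * (((p : ℕ) : ℂ) ^ (-((k : ℂ) + 1))) ^ 2)⁻¹) = fun _ => 1 := by
    funext p
    have e1 : (1 - xx S p * pw (bc p) (ec p) n * ((p : ℕ) : ℂ) ^ (-((k : ℂ) + 1)) +
        xx S p ^ 2 * ec p ^ n * (((p : ℕ) : ℂ) ^ (-((k : ℂ) + 1))) ^ 2) =
        (1 + -a p) * (1 + -b p) := by
      rw [pw_eq (h1 p) (h2 p), ← h2 p]
      simp only [ha, hb]
      ring
    rw [e1]
    refine mul_inv_cancel₀ (mul_ne_zero ?_ ?_)
    · rw [← sub_eq_add_neg]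
      exact hne _ (lt_of_le_of_lt (ha' p) (hlt p))
    · rw [← sub_eq_add_neg]
      exact hne _ (lt_of_le_of_lt (hb' p) (hlt p))
  rw [hall] at hR
  exact one_ne_zero (hasProd_one.unique hR)

/-- the even weights over the rational numbers -/
theorem even_rat {D k : ℕ} (hD : W8 D) (hR : RankZeroShaTwo D) (hk : Even k) (hk0 : 0 < k) :
    ∃ F : ℂ → ℂ, Differentiable ℂ F ∧
    (∀ z : ℂ, (k : ℝ) + 1 / 2 < z.re → HasProd (fac (E D) (2 * k - 1) z) (F z)) ∧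
    F (k : ℂ) = 0 ∧ F ((k : ℂ) + 1) ≠ 0 := by
  obtain ⟨F, g1, g2, g3, -⟩ := wide_even hD hR hk hk0
  have hp4 : ∀ p ∈ D.primeFactors, Gp p := fun p hp =>
    ⟨Nat.prime_of_mem_primeFactors hp,
      hD.2.2 p (Nat.prime_of_mem_primeFactors hp) (Nat.dvd_of_mem_primeFactors hp)⟩
  have h8 := hD.2.1
  obtain ⟨j, hj⟩ : ∃ j, D = 1 + 4 * j := ⟨D / 4, by omega⟩
  have hE : E D = Pool.Agent.Y698.AX ℚ j := by
    unfold E Pool.Agent.Y698.AX Pool.Agent.Y698.EX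
    rw [hj]
    congr 1
    · push_cast; ring
    · push_cast; ring
    · push_cast; ring
  refine ⟨F, g1, fun z hz => ?_, g3, ?_⟩
  · have h3 := prod_rat hp4 (by rw [Nat.prod_primeFactors_of_squarefree hD.1]; exact hj) (g2 z hz)
    have e1 : 2 * k - 1 = 2 * (k - 1) + 1 := by omega
    rw [e1, hE]
    exact h3
  · exact next_ne (fun q hq => Nat.prime_of_mem_primeFactors hq) hk0 (g2 _ (by
      simp only [Complex.add_re, Complex.natCast_re, Complex.one_re]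
      linarith))

end Run7.h359.CZ
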