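import Pool.Agent.Run7.h359.Kap

/-!
# Derivatives of the Kronecker function
-/

set_option autoImplicit false
set_option linter.unusedSectionVars false

open Filter MvPolynomial
open scoped Topology PeriodPair

namespace Run7.h359.BK

open H667R3 Pool.Agent.TH936.CW

/-- the derivative of the value of a polynomial -/
lemma eval_deriv {n : ℕ} (D : Derivation ℂ (MvPolynomial (Fin n) ℂ) (MvPolynomial (Fin n) ℂ))
    (x : Fin n → ℂ → ℂ) {s : ℂ}
    (hx : ∀ i, HasDerivAt (x i) (eval (fun j => x j s) (D (X i))) s)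
    (P : MvPolynomial (Fin n) ℂ) :
    HasDerivAt (fun s => eval (fun j => x j s) P) (eval (fun j => x j s) (D P)) s := by
  induction P using MvPolynomial.induction_on with
  | C a =>
    have h1 : D (C a) = 0 := by
      have := D.map_algebraMap a
      rwa [MvPolynomial.algebraMap_eq] at this
    rw [h1, map_zero]
    simp only [eval_C]
    exact hasDerivAt_const _ _
  | add P Q hP hQ =>
    simp only [map_add]
    exact hP.add hQ
  | mul_X P i hP =>
    simp only [map_mul, eval_X]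
    rw [Derivation.leibniz]
    simp only [smul_eq_mul, map_add, map_mul, eval_X]
    refine (hP.mul (hx i)).congr_deriv ?_
    ring

variable (L : PeriodPair)

/-- the coordinate `x` -/
noncomputable def xc (z : ℂ) : ℂ := ℘[L] z + 1 / 4

/-- the coordinate `y` -/
noncomputable def yc (z : ℂ) : ℂ := (℘'[L] z - xc L z) / 2

/-- the slope -/
noncomputable def Lc (z w : ℂ) : ℂ := (yc L z - yc L w) / (xc L z - xc L w)

/-- the zeta function -/
noncomputable def Fc (p q v z : ℂ) : ℂ := zeta L z - p * z - q * v + 1 / 2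

/-- the point at which the polynomials are evaluated -/
noncomputable def pt6 (p q v z w : ℂ) : Fin 6 → ℂ :=
  ![Fc L p q v z, xc L z, yc L z, Lc L z w, xc L w, yc L w]

variable {L}

lemma xc_deriv {z : ℂ} (hz : z ∉ L.lattice) : HasDerivAt (xc L) (2 * yc L z + xc L z) z := by
  have h := (hasDerivAt_weierstrassP L hz).add_const (1 / 4 : ℂ)
  refine h.congr_deriv ?_
  unfold yc
  ring

lemma yc_deriv (hg2 : L.g₂ = 35 / 4) {z : ℂ} (hz : z ∉ L.lattice) :
    HasDerivAt (yc L) (3 * xc L z ^ 2 - 2 * xc L z - 2 - yc L z) z := by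
  have h1 := ((hasDerivAt_wp'_all L hz).sub (xc_deriv hz)).div_const 2
  refine h1.congr_deriv ?_
  rw [hg2]
  unfold yc xc
  ring

lemma curve (hg2 : L.g₂ = 35 / 4) (hg3 : L.g₃ = 49 / 8) {z : ℂ} (hz : z ∉ L.lattice) :
    yc L z ^ 2 + xc L z * yc L z = xc L z ^ 3 - xc L z ^ 2 - 2 * xc L z - 1 := by
  have h := L.derivWeierstrassP_sq z hz
  rw [hg2, hg3] at h
  unfold yc xc
  linear_combination (1 / 4 : ℂ) * h

lemma xc_ne {z w : ℂ} (hz : z ∉ L.lattice) (hw : w ∉ L.lattice) (h1 : z + w ∉ L.lattice)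
    (h2 : z - w ∉ L.lattice) : xc L z - xc L w ≠ 0 := by
  intro h
  have h3 : ℘[L] z = ℘[L] w := by
    unfold xc at h
    linear_combination h
  rcases (wp_eq_iff L hz hw).1 h3 with h4 | h4
  · exact h1 h4
  · exact h2 h4

lemma Lc_symm (z w : ℂ) : Lc L z w = Lc L w z := by
  unfold Lc
  rw [← neg_sub (yc L w), ← neg_sub (xc L w), neg_div_neg_eq]

lemma Lc_half {z w : ℂ} (h : xc L z - xc L w ≠ 0) :
    Lc L z w + 1 / 2 = (℘'[L] z - ℘'[L] w) / (2 * (℘[L] z - ℘[L] w)) := by
  have e : ℘[L] z - ℘[L] w = xc L z - xc L w := by unfold xc; ring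
  have e2 : ℘'[L] z - ℘'[L] w = 2 * (yc L z - yc L w) + (xc L z - xc L w) := by
    unfold yc
    ring
  unfold Lc
  rw [e, e2]
  field_simp

lemma Lc_deriv (hg2 : L.g₂ = 35 / 4) (hg3 : L.g₃ = 49 / 8) {z w : ℂ} (hz : z ∉ L.lattice)
    (hw : w ∉ L.lattice) (h1 : z + w ∉ L.lattice) (h2 : z - w ∉ L.lattice) :
    HasDerivAt (fun w => Lc L z w)
      (2 * xc L w + xc L z - Lc L z w ^ 2 - Lc L z w - 1) w := by
  have hne := xc_ne hz hw h1 h2
  have d1 := (yc_deriv hg2 hw).const_sub (yc L z)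
  have d2 := (xc_deriv hw).const_sub (xc L z)
  have d3 := d1.div d2 hne
  refine d3.congr_deriv ?_
  have c1 := curve hg2 hg3 hz
  have c2 := curve hg2 hg3 hw
  unfold Lc
  field_simp
  linear_combination c1 - c2

lemma Lc_deriv' (hg2 : L.g₂ = 35 / 4) (hg3 : L.g₃ = 49 / 8) {z w : ℂ} (hz : z ∉ L.lattice)
    (hw : w ∉ L.lattice) (h1 : z + w ∉ L.lattice) (h2 : z - w ∉ L.lattice) :
    HasDerivAt (fun z => Lc L z w)
      (2 * xc L z + xc L w - Lc L z w ^ 2 - Lc L z w - 1) z := by
  have h3 : w - z ∉ L.lattice := fun h => h2 (by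
    have := neg_mem h
    rwa [neg_sub] at this)
  have h := Lc_deriv hg2 hg3 hw hz (by rwa [add_comm]) h3
  rw [Lc_symm z w]
  refine h.congr_of_eventuallyEq (Eventually.of_forall fun s => ?_)
  exact Lc_symm s w

section derW

variable {p q t : ℂ}

/-- the derivative in the second variable -/
lemma evW (hg2 : L.g₂ = 35 / 4) (hg3 : L.g₃ = 49 / 8) (v : ℂ) {z w : ℂ} (hz : z ∉ L.lattice)
    (hw : w ∉ L.lattice) (h1 : z + w ∉ L.lattice) (h2 : z - w ∉ L.lattice) (P : P6 ℂ) :
    HasDerivAt (fun w => eval (pt6 L p q v z w) P) (eval (pt6 L p q v z w) (DW ℂ P)) w := by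
  have e0 : ∀ s, pt6 L p q v z s = fun j : Fin 6 => (![fun _ => Fc L p q v z, fun _ => xc L z,
      fun _ => yc L z, fun s => Lc L z s, fun s => xc L s, fun s => yc L s] : Fin 6 → ℂ → ℂ) j s := by
    intro s
    funext j
    unfold pt6
    fin_cases j <;> rfl
  have h := eval_deriv (DW ℂ) (![fun _ => Fc L p q v z, fun _ => xc L z,
      fun _ => yc L z, fun s => Lc L z s, fun s => xc L s, fun s => yc L s] : Fin 6 → ℂ → ℂ)
      (s := w) ?_ P
  · rw [← e0 w] at h
    refine h.congr_of_eventuallyEq (Eventually.of_forall fun s => ?_)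
    beta_reduce
    rw [e0 s]
  · intro i
    rw [← e0 w]
    unfold DW
    rw [mkDerivation_X]
    unfold pt6
    fin_cases i
    · show HasDerivAt (fun _ => Fc L p q v z) (eval _ 0) w
      rw [map_zero]
      exact hasDerivAt_const _ _
    · show HasDerivAt (fun _ => xc L z) (eval _ 0) w
      rw [map_zero]
      exact hasDerivAt_const _ _
    · show HasDerivAt (fun _ => yc L z) (eval _ 0) w
      rw [map_zero]
      exact hasDerivAt_const _ _
    · show HasDerivAt (fun s => Lc L z s)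
        (eval _ (2 * X 4 + X 1 - X 3 ^ 2 - X 3 - 1 : P6 ℂ)) w
      refine (Lc_deriv hg2 hg3 hz hw h1 h2).congr_deriv ?_
      simp
    · show HasDerivAt (fun s => xc L s) (eval _ (2 * X 5 + X 4 : P6 ℂ)) w
      refine (xc_deriv hw).congr_deriv ?_
      simp
    · show HasDerivAt (fun s => yc L s) (eval _ (3 * X 4 ^ 2 - 2 * X 4 - 2 - X 5 : P6 ℂ)) w
      refine (yc_deriv hg2 hw).congr_deriv ?_
      simp

/-- the derivative in the first variable -/
lemma evZ (hg2 : L.g₂ = 35 / 4) (hg3 : L.g₃ = 49 / 8) (hp : p = 1 / 4) (v : ℂ) {z w : ℂ}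
    (hz : z ∉ L.lattice)
    (hw : w ∉ L.lattice) (h1 : z + w ∉ L.lattice) (h2 : z - w ∉ L.lattice) (P : P6 ℂ) :
    HasDerivAt (fun z => eval (pt6 L p q v z w) P) (eval (pt6 L p q v z w) (DZ ℂ P)) z := by
  have e0 : ∀ s, pt6 L p q v s w = fun j : Fin 6 => (![fun s => Fc L p q v s, fun s => xc L s,
      fun s => yc L s, fun s => Lc L s w, fun _ => xc L w, fun _ => yc L w] : Fin 6 → ℂ → ℂ) j s := by
    intro s
    funext j
    unfold pt6
    fin_cases j <;> rfl
  have h := eval_deriv (DZ ℂ) (![fun s => Fc L p q v s, fun s => xc L s,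
      fun s => yc L s, fun s => Lc L s w, fun _ => xc L w, fun _ => yc L w] : Fin 6 → ℂ → ℂ)
      (s := z) ?_ P
  · rw [← e0 z] at h
    refine h.congr_of_eventuallyEq (Eventually.of_forall fun s => ?_)
    beta_reduce
    rw [e0 s]
  · intro i
    rw [← e0 z]
    unfold DZ
    rw [mkDerivation_X]
    unfold pt6
    fin_cases i
    · show HasDerivAt (fun s => Fc L p q v s) (eval _ (-X 1 : P6 ℂ)) z
      have h1 := (((hasDerivAt_zeta L hz).sub ((hasDerivAt_id z).const_mul p)).sub_const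
        (q * v)).add_const (1 / 2 : ℂ)
      refine h1.congr_deriv ?_
      simp only [map_neg, eval_X]
      show -℘[L] z - p * 1 = -xc L z
      unfold xc
      rw [hp]
      ring
    · show HasDerivAt (fun s => xc L s) (eval _ (2 * X 2 + X 1 : P6 ℂ)) z
      refine (xc_deriv hz).congr_deriv ?_
      simp
    · show HasDerivAt (fun s => yc L s) (eval _ (3 * X 1 ^ 2 - 2 * X 1 - 2 - X 2 : P6 ℂ)) z
      refine (yc_deriv hg2 hz).congr_deriv ?_
      simp
    · show HasDerivAt (fun s => Lc L s w)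
        (eval _ (2 * X 1 + X 4 - X 3 ^ 2 - X 3 - 1 : P6 ℂ)) z
      refine (Lc_deriv' hg2 hg3 hz hw h1 h2).congr_deriv ?_
      simp
    · show HasDerivAt (fun _ => xc L w) (eval _ 0) z
      rw [map_zero]
      exact hasDerivAt_const _ _
    · show HasDerivAt (fun _ => yc L w) (eval _ 0) z
      rw [map_zero]
      exact hasDerivAt_const _ _

lemma sigma_deriv {z : ℂ} (hz : z ∉ L.lattice) :
    HasDerivAt (sigma L) (zeta L z * sigma L z) z := hasDerivAt_sigma L hz

/-- the derivative of `G` -/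
lemma GG_derivW (v : ℂ) {z w : ℂ} (hz : z ∉ L.lattice)
    (hw : w ∉ L.lattice) (h1 : z + w ∉ L.lattice) (h2 : z - w ∉ L.lattice) :
    HasDerivAt (fun w => GG L p q t v z w)
      ((Fc L p q v z + Lc L z w) * GG L p q t v z w) w := by
  have hsz := sigma_ne_zero L hz
  have hsw := sigma_ne_zero L hw
  have d1 : HasDerivAt (fun w => Complex.exp (-(p * z * w) - q * v * (w - t) -
      q * (starRingEnd ℂ) t * z)) (Complex.exp (-(p * z * w) - q * v * (w - t) -
      q * (starRingEnd ℂ) t * z) * (-(p * z) - q * v)) w := by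
    refine HasDerivAt.cexp ?_
    have e1 := ((hasDerivAt_id w).const_mul (p * z)).neg
    have e2 := ((hasDerivAt_id w).sub_const t).const_mul (q * v)
    have e3 := (e1.sub e2).sub_const (q * (starRingEnd ℂ) t * z)
    refine e3.congr_deriv ?_
    ring
  have d2 : HasDerivAt (fun w => sigma L (z + w)) (zeta L (z + w) * sigma L (z + w)) w := by
    have := (sigma_deriv h1).comp_const_add z w
    exact this
  have d3 := (sigma_deriv hw).const_mul (sigma L z)
  have d4 := (d1.mul d2).div d3 (mul_ne_zero hsz hsw)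
  refine d4.congr_deriv ?_
  have hne := xc_ne hz hw h1 h2
  have hza := zeta_add L hz hw h1 h2
  have hh := Lc_half hne
  have e5 : Fc L p q v z + Lc L z w = zeta L (z + w) - zeta L w - p * z - q * v := by
    unfold Fc
    rw [hza, ← hh]
    ring
  rw [e5]
  unfold GG
  simp only [Pi.mul_apply]
  field_simp
  ring

lemma GG_iterW (hg2 : L.g₂ = 35 / 4) (hg3 : L.g₃ = 49 / 8) (v : ℂ) {z : ℂ} (hz : z ∉ L.lattice)
    (n : ℕ) : ∀ w, w ∉ L.lattice → z + w ∉ L.lattice → z - w ∉ L.lattice →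
    iteratedDeriv n (fun w => GG L p q t v z w) w =
      eval (pt6 L p q v z w) (Pe ℂ n) * GG L p q t v z w := by
  induction n with
  | zero =>
    intro w _ _ _
    rw [iteratedDeriv_zero]
    simp [Pe]
  | succ n ih =>
    intro w hw h1 h2
    rw [iteratedDeriv_succ]
    have ho : ∀ᶠ s in 𝓝 w, s ∉ L.lattice ∧ z + s ∉ L.lattice ∧ z - s ∉ L.lattice := by
      have o1 : ∀ᶠ s in 𝓝 w, s ∉ L.lattice := (isOpen_compl L).mem_nhds hw
      have o2 : ∀ᶠ s in 𝓝 w, z + s ∉ L.lattice := by
        have c : ContinuousAt (fun s : ℂ => z + s) w := by fun_prop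
        exact c.eventually ((isOpen_compl L).mem_nhds h1)
      have o3 : ∀ᶠ s in 𝓝 w, z - s ∉ L.lattice := by
        have c : ContinuousAt (fun s : ℂ => z - s) w := by fun_prop
        exact c.eventually ((isOpen_compl L).mem_nhds h2)
      filter_upwards [o1, o2, o3] with s a b c
      exact ⟨a, b, c⟩
    have h3 : iteratedDeriv n (fun w => GG L p q t v z w) =ᶠ[𝓝 w]
        fun w => eval (pt6 L p q v z w) (Pe ℂ n) * GG L p q t v z w := by
      filter_upwards [ho] with s hs
      exact ih s hs.1 hs.2.1 hs.2.2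
    rw [h3.deriv_eq]
    have h4 := (evW (p := p) (q := q) hg2 hg3 v hz hw h1 h2 (Pe ℂ n)).mul
      (GG_derivW (p := p) (q := q) (t := t) v hz hw h1 h2)
    have h5 := h4.deriv
    have h6 : deriv (fun w => eval (pt6 L p q v z w) (Pe ℂ n) * GG L p q t v z w) w =
      eval (pt6 L p q v z w) (DW ℂ (Pe ℂ n)) * GG L p q t v z w +
        eval (pt6 L p q v z w) (Pe ℂ n) * ((Fc L p q v z + Lc L z w) * GG L p q t v z w) := h5
    rw [h6]
    have h7 : Pe ℂ (n + 1) = DW ℂ (Pe ℂ n) + (X 0 + X 3) * Pe ℂ n := by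
      unfold Pe
      rw [Function.iterate_succ_apply', nW_apply]
    rw [h7, map_add, map_mul, map_add, eval_X, eval_X]
    have h8 : pt6 L p q v z w 0 = Fc L p q v z := rfl
    have h9 : pt6 L p q v z w 3 = Lc L z w := rfl
    rw [h8, h9]
    ring

end derW

end Run7.h359.BK
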