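import Pool.Agent.Run7.h359.Fin
import Pool.Agent.Y698.Er
import Pool.Agent.W165.CE.Euler

/-!
# Euler products of the Hecke L-series of higher weight
-/

set_option autoImplicit false
set_option linter.unusedSectionVars false

namespace Run7.h359.EU

open Pool.Agent.Y698
open H667R3 Pool.Agent.W192.HK Pool.Agent.TH936.CM Pool.Agent.TH936.PU
open W165.CE (pw pw_eq pw_luc)
open Run7.h359.BK (th)

/-- completely multiplicative -/
structure Cm (f : Ideal RR → ℂ) : Prop where
  mul : ∀ I J : Ideal RR, f (I * J) = f I * f J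
  bot : f ⊥ = 0
  top : f ⊤ = 1

/-- the coefficients -/
noncomputable def bF (f : Ideal RR → ℂ) (n : ℕ) : ℂ := ∑ I ∈ Tn n, f I

variable {f : Ideal RR → ℂ}

lemma bF_zero (hf : Cm f) : bF f 0 = 0 := by
  unfold bF
  apply Finset.sum_eq_zero
  intro I hI
  rw [mem_Tn, nI_eq_zero] at hI
  rw [hI, hf.bot]

lemma bF_one (hf : Cm f) : bF f 1 = 1 := by
  classical
  have : Tn 1 = {⊤} := by
    ext I
    rw [mem_Tn, nI_eq_one, Finset.mem_singleton]
  unfold bF
  rw [this, Finset.sum_singleton, hf.top]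

theorem bF_mul (hf : Cm f) {m n : ℕ} (h : Nat.Coprime m n) : bF f (m * n) = bF f m * bF f n := by
  classical
  by_cases hm0 : m = 0
  · rw [hm0, zero_mul, bF_zero hf, zero_mul]
  by_cases hn0 : n = 0
  · rw [hn0, mul_zero, bF_zero hf, mul_zero]
  unfold bF
  rw [Finset.sum_mul_sum, ← Finset.sum_product']
  symm
  refine Finset.sum_bij (fun p _ => p.1 * p.2) ?_ ?_ ?_ ?_
  · rintro ⟨I, J⟩ hIJ
    rw [Finset.mem_product, mem_Tn, mem_Tn] at hIJ
    rw [mem_Tn, nI_mul, hIJ.1, hIJ.2]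
  · rintro ⟨I, J⟩ hIJ ⟨I', J'⟩ hIJ' he
    rw [Finset.mem_product, mem_Tn, mem_Tn] at hIJ hIJ'
    simp only at hIJ hIJ' he
    have mI : (m : RR) ∈ I := by rw [← hIJ.1]; exact nI_mem I
    have nJ : (n : RR) ∈ J := by rw [← hIJ.2]; exact nI_mem J
    have mI' : (m : RR) ∈ I' := by rw [← hIJ'.1]; exact nI_mem I'
    have nJ' : (n : RR) ∈ J' := by rw [← hIJ'.2]; exact nI_mem J'
    have h1 : I ∣ I' := (cop_ideal h mI nJ').dvd_of_dvd_mul_right (by rw [← he]; exact dvd_mul_right _ _)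
    have h2 : I' ∣ I := (cop_ideal h mI' nJ).dvd_of_dvd_mul_right (by rw [he]; exact dvd_mul_right _ _)
    have h3 : I = I' := by
      apply le_antisymm
      · exact Ideal.le_of_dvd h2
      · exact Ideal.le_of_dvd h1
    subst h3
    have hI0 : I ≠ ⊥ := by
      intro h0
      rw [h0, nI_eq_zero.2 rfl] at hIJ
      exact hm0 hIJ.1.symm
    have h4 : J = J' := mul_left_cancel₀ (a := I) hI0 he
    rw [h4]
  · intro K hK
    rw [mem_Tn] at hK
    have hmn : ((m : RR) * (n : RR)) ∈ K := by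
      have := nI_mem K
      rw [hK] at this
      push_cast at this
      exact this
    set I := K ⊔ sp (m : RR) with hI
    set J := K ⊔ sp (n : RR) with hJ
    have hIJ : IsCoprime I J := cop_ideal h (Ideal.mem_sup_right (Ideal.mem_span_singleton_self _))
      (Ideal.mem_sup_right (Ideal.mem_span_singleton_self _))
    have hprod : I * J = K := by
      apply le_antisymm
      · rw [hI, hJ, Ideal.sup_mul, Ideal.mul_sup, Ideal.mul_sup]
        refine sup_le (sup_le ?_ ?_) (sup_le ?_ ?_)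
        · exact Ideal.mul_le_left
        · exact Ideal.mul_le_left
        · exact Ideal.mul_le_right
        · rw [Ideal.span_singleton_mul_span_singleton, Ideal.span_singleton_le_iff_mem]
          exact hmn
      · rw [Ideal.mul_eq_inf_of_isCoprime hIJ]
        exact le_inf le_sup_left le_sup_left
    have hN : nI I * nI J = m * n := by rw [← nI_mul, hprod, hK]
    have h1 : nI I ∣ m ^ 2 := by
      rw [← nI_nat]
      exact nI_dvd (Ideal.dvd_iff_le.2 le_sup_right)
    have h2 : nI J ∣ n ^ 2 := by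
      rw [← nI_nat]
      exact nI_dvd (Ideal.dvd_iff_le.2 le_sup_right)
    have h3 : nI I ∣ m := by
      have hc : Nat.Coprime (nI I) n :=
        Nat.Coprime.coprime_dvd_left h1 (Nat.Coprime.pow_left 2 h)
      exact hc.dvd_of_dvd_mul_right (hN ▸ dvd_mul_right _ _)
    have h4 : nI J ∣ n := by
      have hc : Nat.Coprime (nI J) m :=
        Nat.Coprime.coprime_dvd_left h2 (Nat.Coprime.pow_left 2 h.symm)
      exact hc.dvd_of_dvd_mul_left (hN ▸ dvd_mul_left _ _)
    have hm1 := Nat.le_of_dvd (Nat.pos_of_ne_zero hm0) h3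
    have hn1 := Nat.le_of_dvd (Nat.pos_of_ne_zero hn0) h4
    have e1 : nI I = m := by
      by_contra hne
      have hlt : nI I < m := lt_of_le_of_ne hm1 hne
      have : nI I * nI J < m * n := Nat.mul_lt_mul_of_lt_of_le hlt hn1 (Nat.pos_of_ne_zero hn0)
      omega
    have e2 : nI J = n := by
      rw [e1] at hN
      exact Nat.eq_of_mul_eq_mul_left (Nat.pos_of_ne_zero hm0) hN
    exact ⟨(I, J), Finset.mem_product.2 ⟨mem_Tn.2 e1, mem_Tn.2 e2⟩, hprod⟩
  · rintro ⟨I, J⟩ _
    exact (hf.mul I J).symm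

/-- inert primes -/
lemma bF_inert (hf : Cm f) {p : ℕ} (hirr : Irreducible (p : RR)) (hp : p.Prime) :
    bF f p = 0 ∧ ∀ k : ℕ, bF f (p ^ (k + 2)) = f (sp (p : RR)) * bF f (p ^ k) := by
  classical
  have hprime : Prime (p : RR) := hirr.prime
  have hdiv : ∀ g : RR, (p : ℤ) ∣ nR g → (p : RR) ∣ g := by
    intro g hg
    have h1 : (p : RR) ∣ g * cj g := by
      rw [mul_cj]
      obtain ⟨c, hc⟩ := hg
      rw [hc]
      push_cast
      exact dvd_mul_right _ _
    rcases hprime.dvd_or_dvd h1 with h2 | h2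
    · exact h2
    · obtain ⟨c, hc⟩ := h2
      refine ⟨cj c, ?_⟩
      have := congrArg cj hc
      rw [cj_cj, map_mul, map_natCast] at this
      exact this
  have hdivI : ∀ I : Ideal RR, p ∣ nI I → sp (p : RR) ∣ I := by
    intro I hI
    obtain ⟨g, rfl⟩ := exists_gen I
    rw [nI_sp] at hI
    have : (p : ℤ) ∣ nR g := Int.natCast_dvd.2 hI
    rw [Ideal.dvd_iff_le, Ideal.span_singleton_le_span_singleton]
    exact hdiv g this
  constructor
  · unfold bF
    apply Finset.sum_eq_zero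
    intro I hI
    exfalso
    rw [mem_Tn] at hI
    obtain ⟨J, hJ⟩ := hdivI I (by rw [hI])
    rw [hJ, nI_mul, nI_nat] at hI
    have h1 : p ^ 2 ∣ p := ⟨_, hI.symm⟩
    have h2 := Nat.le_of_dvd hp.pos h1
    nlinarith [hp.two_le]
  · intro k
    unfold bF
    rw [Finset.mul_sum]
    symm
    refine Finset.sum_bij (fun J _ => sp (p : RR) * J) ?_ ?_ ?_ ?_
    · intro J hJ
      rw [mem_Tn] at hJ ⊢
      rw [nI_mul, nI_nat, hJ]
      ring
    · intro J _ J' _ he
      refine mul_left_cancel₀ (a := sp (p : RR)) ?_ he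
      rw [Ideal.zero_eq_bot, Ne, Ideal.span_singleton_eq_bot]
      exact hirr.ne_zero
    · intro I hI
      rw [mem_Tn] at hI
      obtain ⟨J, hJ⟩ := hdivI I (by rw [hI]; exact dvd_pow_self p (by omega))
      refine ⟨J, ?_, hJ.symm⟩
      rw [mem_Tn]
      rw [hJ, nI_mul, nI_nat] at hI
      have h1 : p ^ 2 * nI J = p ^ 2 * p ^ k := by rw [hI]; ring
      exact Nat.eq_of_mul_eq_mul_left (pow_pos hp.pos 2) h1
    · intro J _
      rw [hf.mul]

/-- split primes -/
lemma bF_split (hf : Cm f) {p : ℕ} (hp : p.Prime) {g : RR} (hg : nR g = p) (hne : sp g ≠ sp (cj g)) :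
    bF f p = f (sp g) + f (sp (cj g)) ∧ ∀ k : ℕ, bF f (p ^ (k + 2)) =
      bF f p * bF f (p ^ (k + 1)) - f (sp (p : RR)) * bF f (p ^ k) := by
  classical
  have hirr : Irreducible g := irr_of_prime_norm (by rw [hg]; exact_mod_cast hp)
  have hcg : nR (cj g) = p := by
    have h1 : ((nR (cj g) : ℤ) : RR) = ((nR g : ℤ) : RR) := by
      rw [← mul_cj, ← mul_cj, cj_cj, mul_comm]
    have : nR (cj g) = nR g := by
      have h2 := congrArg (fun r : RR => (r : ℂ)) h1
      push_cast at h2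
      exact_mod_cast h2
    rw [this, hg]
  have hirr' : Irreducible (cj g) := irr_of_prime_norm (by rw [hcg]; exact_mod_cast hp)
  have hpg : (p : RR) = g * cj g := by
    rw [mul_cj, hg]
    norm_cast
  have hP0 : sp g ≠ 0 := by
    rw [Ideal.zero_eq_bot, Ne, Ideal.span_singleton_eq_bot]
    exact hirr.ne_zero
  have hQ0 : sp (cj g) ≠ 0 := by
    rw [Ideal.zero_eq_bot, Ne, Ideal.span_singleton_eq_bot]
    exact hirr'.ne_zero
  have hNP : nI (sp g) = p := by rw [nI_sp, hg]; exact Int.natAbs_natCast p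
  have hNQ : nI (sp (cj g)) = p := by rw [nI_sp, hcg]; exact Int.natAbs_natCast p
  have hcop : IsCoprime (sp g) (sp (cj g)) := by
    rw [Ideal.isCoprime_iff_sup_eq]
    refine (maximal_sp hirr).out.2 _ (lt_of_le_of_ne le_sup_left ?_)
    intro h1
    have h2 : sp (cj g) ≤ sp g := by
      rw [h1]
      exact le_sup_right
    rcases lt_or_eq_of_le h2 with h3 | h3
    · exact (maximal_sp hirr).ne_top ((maximal_sp hirr').out.2 _ h3)
    · exact hne h3.symm
  -- every ideal whose norm is divisible by `p` is divisible by one of the two primes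
  have hdiv : ∀ I : Ideal RR, p ∣ nI I → sp g ∣ I ∨ sp (cj g) ∣ I := by
    intro I hI
    obtain ⟨x, rfl⟩ := exists_gen I
    rw [nI_sp] at hI
    have h0 : (p : ℤ) ∣ nR x := Int.natCast_dvd.2 hI
    have h1 : g ∣ x * cj x := by
      rw [mul_cj]
      obtain ⟨c, hc⟩ := h0
      rw [hc]
      push_cast
      rw [hpg]
      exact Dvd.dvd.mul_right (dvd_mul_right _ _) _
    rcases hirr.prime.dvd_or_dvd h1 with h2 | h2
    · left
      rwa [Ideal.dvd_iff_le, Ideal.span_singleton_le_span_singleton]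
    · right
      rw [Ideal.dvd_iff_le, Ideal.span_singleton_le_span_singleton]
      obtain ⟨c, hc⟩ := h2
      refine ⟨cj c, ?_⟩
      have := congrArg cj hc
      rw [cj_cj, map_mul] at this
      exact this
  have himg : ∀ (P : Ideal RR), P ≠ 0 → nI P = p → ∀ k : ℕ,
      ∑ I ∈ (Tn (p ^ (k + 1))).filter (fun I => P ∣ I), f I = f P * bF f (p ^ k) := by
    intro P hP hNP k
    unfold bF
    rw [Finset.mul_sum]
    symm
    refine Finset.sum_bij (fun J _ => P * J) ?_ ?_ ?_ ?_
    · intro J hJ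
      rw [mem_Tn] at hJ
      rw [Finset.mem_filter, mem_Tn, nI_mul, hNP, hJ]
      exact ⟨by ring, dvd_mul_right _ _⟩
    · intro J _ J' _ he
      exact mul_left_cancel₀ hP he
    · intro I hI
      rw [Finset.mem_filter, mem_Tn] at hI
      obtain ⟨hI1, J, hJ⟩ := hI
      refine ⟨J, ?_, hJ.symm⟩
      rw [mem_Tn]
      rw [hJ, nI_mul, hNP] at hI1
      have h1 : p * nI J = p * p ^ k := by rw [hI1]; ring
      exact Nat.eq_of_mul_eq_mul_left hp.pos h1
    · intro J _
      rw [hf.mul]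
  have hunion : ∀ k : ℕ, Tn (p ^ (k + 1)) = (Tn (p ^ (k + 1))).filter (fun I => sp g ∣ I) ∪
      (Tn (p ^ (k + 1))).filter (fun I => sp (cj g) ∣ I) := by
    intro k
    rw [← Finset.filter_or, Finset.filter_true_of_mem]
    intro I hI
    rw [mem_Tn] at hI
    exact hdiv I (by rw [hI]; exact dvd_pow_self p (by omega))
  have h0 : bF f (p ^ 0) = 1 := by rw [pow_zero, bF_one hf]
  -- the value at `p`
  have hbp : bF f p = f (sp g) + f (sp (cj g)) := by
    have h1 : bF f (p ^ (0 + 1)) = f (sp g) + f (sp (cj g)) := by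
      show ∑ I ∈ Tn (p ^ (0 + 1)), f I = _
      rw [hunion 0, Finset.sum_union]
      · rw [himg _ hP0 hNP 0, himg _ hQ0 hNQ 0, h0, mul_one, mul_one]
      · rw [Finset.disjoint_left]
        intro I hI hI'
        rw [Finset.mem_filter, mem_Tn] at hI hI'
        obtain ⟨J, hJ⟩ := hcop.mul_dvd hI.2 hI'.2
        have h2 := hI.1
        rw [hJ, nI_mul, nI_mul, hNP, hNQ, zero_add, pow_one] at h2
        have h3 : p * p ∣ p := ⟨_, h2.symm⟩
        have h4 := Nat.le_of_dvd hp.pos h3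
        nlinarith [hp.two_le]
    rwa [zero_add, pow_one] at h1
  refine ⟨hbp, fun k => ?_⟩
  have h1 : bF f (p ^ (k + 2)) + ∑ I ∈ (Tn (p ^ (k + 1 + 1))).filter (fun I => sp g ∣ I) ∩
      (Tn (p ^ (k + 1 + 1))).filter (fun I => sp (cj g) ∣ I), f I =
      f (sp g) * bF f (p ^ (k + 1)) + f (sp (cj g)) * bF f (p ^ (k + 1)) := by
    rw [← himg _ hP0 hNP (k + 1), ← himg _ hQ0 hNQ (k + 1), ← Finset.sum_union_inter,
      ← hunion (k + 1)]
    rfl
  have h2 : ∑ I ∈ (Tn (p ^ (k + 1 + 1))).filter (fun I => sp g ∣ I) ∩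
      (Tn (p ^ (k + 1 + 1))).filter (fun I => sp (cj g) ∣ I), f I =
      f (sp (p : RR)) * bF f (p ^ k) := by
    unfold bF
    rw [Finset.mul_sum]
    symm
    refine Finset.sum_bij (fun J _ => sp (p : RR) * J) ?_ ?_ ?_ ?_
    · intro J hJ
      rw [mem_Tn] at hJ
      have e1 : nI (sp (p : RR) * J) = p ^ (k + 1 + 1) := by
        rw [nI_mul, nI_nat, hJ]
        ring
      have e2 : sp (p : RR) = sp g * sp (cj g) := by
        rw [Ideal.span_singleton_mul_span_singleton, hpg]
      rw [Finset.mem_inter, Finset.mem_filter, Finset.mem_filter, mem_Tn]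
      refine ⟨⟨e1, ?_⟩, ⟨e1, ?_⟩⟩
      · rw [e2, mul_assoc]
        exact dvd_mul_right _ _
      · rw [e2, mul_comm (sp g), mul_assoc]
        exact dvd_mul_right _ _
    · intro J _ J' _ he
      refine mul_left_cancel₀ (a := sp (p : RR)) ?_ he
      rw [Ideal.zero_eq_bot, Ne, Ideal.span_singleton_eq_bot]
      exact_mod_cast hp.ne_zero
    · intro I hI
      rw [Finset.mem_inter, Finset.mem_filter, Finset.mem_filter, mem_Tn] at hI
      obtain ⟨J, hJ⟩ := hcop.mul_dvd hI.1.2 hI.2.2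
      have e2 : sp (p : RR) = sp g * sp (cj g) := by
        rw [Ideal.span_singleton_mul_span_singleton, hpg]
      refine ⟨J, ?_, by rw [e2]; exact hJ.symm⟩
      rw [mem_Tn]
      have h2 := hI.1.1
      rw [hJ, nI_mul, nI_mul, hNP, hNQ] at h2
      have h1 : (p * p) * nI J = (p * p) * p ^ k := by rw [h2]; ring
      exact Nat.eq_of_mul_eq_mul_left (Nat.mul_pos hp.pos hp.pos) h1
    · intro J _
      rw [hf.mul]
  rw [h2] at h1
  rw [hbp]
  linear_combination h1

/-! ### the powers of the character -/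

lemma psi_pow_cm {n : ℕ} (hn : n ≠ 0) : Cm (fun I => psi I ^ n) := by
  refine ⟨fun I J => ?_, ?_, ?_⟩
  · show psi (I * J) ^ n = psi I ^ n * psi J ^ n
    rw [psi_mul, mul_pow]
  · show psi ⊥ ^ n = 0
    rw [(psi_HC.zero ⊥).2 (Or.inl rfl), zero_pow hn]
  · show psi ⊤ ^ n = 1
    rw [psi_top, one_pow]

lemma bP_seven {n : ℕ} (hn : n ≠ 0) (k : ℕ) : bF (fun I => psi I ^ n) (7 ^ (k + 1)) = 0 := by
  unfold bF
  apply Finset.sum_eq_zero
  intro I hI
  rw [mem_Tn] at hI
  obtain ⟨g, rfl⟩ := exists_gen I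
  rw [nI_sp] at hI
  have h1 : e7 g = 0 := by
    rw [e7_eq_zero, ← r7_eq_zero]
    have h2 := r7_sq g
    have h3 : nR g = 7 ^ (k + 1) := by
      have := nR_nonneg g
      have h4 : ((nR g).natAbs : ℤ) = 7 ^ (k + 1) := by exact_mod_cast hI
      omega
    have h5 : ((7 ^ (k + 1) : ℤ) : ZMod 7) = 0 := by
      push_cast
      have : (7 : ZMod 7) = 0 := by decide
      rw [this, zero_pow (by omega)]
    rw [h3, h5] at h2
    exact pow_eq_zero_iff two_ne_zero |>.1 h2
  show psi (sp g) ^ n = 0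
  rw [psi_sp, h1, zero_mul, zero_pow hn]

lemma pw_zero_odd (u : ℂ) (m : ℕ) : pw 0 u (2 * m + 1) = 0 := by
  induction m with
  | zero => rfl
  | succ m ih =>
    show 0 * pw 0 u (2 * m + 2) - u * pw 0 u (2 * m + 1) = 0
    rw [ih]
    ring

lemma irr_ne_two {p : ℕ} (hirr : Irreducible (p : RR)) : p ≠ 2 := by
  rintro rfl
  have h2 : (((2 : ℕ)) : RR) = aR * bR := by
    rw [aR_mul_bR]
    norm_cast
  rw [h2] at hirr
  rcases of_irreducible_mul hirr with h3 | h3
  · exact aR_nu h3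
  · exact bR_nu h3

/-- the value at the primes -/
theorem bP_prime {p : ℕ} (hp : p.Prime) (m : ℕ) :
    bF (fun I => psi I ^ (2 * m + 1)) p = pw (bc p) (ec p) (2 * m + 1) := by
  have hn : 2 * m + 1 ≠ 0 := Nat.succ_ne_zero _
  have hf := psi_pow_cm hn
  by_cases h7 : p = 7
  · subst h7
    have h1 := bP_seven hn 0
    have h2 := bc_seven 0
    rw [zero_add, pow_one] at h1 h2
    rw [h1, h2, pw_zero_odd]
  · rcases irr_or_norm hp with hirr | ⟨g, hg⟩
    · rw [(bF_inert hf hirr hp).1, (bc_inert hirr hp).1, pw_zero_odd]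
    · have hne := sp_cj_ne hp h7 hg
      have e : psi (sp g) * psi (sp (cj g)) = ec p := by
        unfold ec
        rw [if_neg h7, ← psi_mul, Ideal.span_singleton_mul_span_singleton]
        have h1 : g * cj g = (p : RR) := by
          rw [mul_cj, hg]
          norm_cast
        rw [h1, psi_sp, e7_split hp h7 hg, one_mul]
        push_cast
        rfl
      rw [(bF_split hf hp hg hne).1, pw_eq ((bc_split hp hg hne).1).symm e]

/-- the recursion -/
theorem bP_rec {p : ℕ} (hp : p.Prime) (m k : ℕ) :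
    bF (fun I => psi I ^ (2 * m + 1)) (p ^ (k + 2)) =
      bF (fun I => psi I ^ (2 * m + 1)) p * bF (fun I => psi I ^ (2 * m + 1)) (p ^ (k + 1)) -
        ec p ^ (2 * m + 1) * bF (fun I => psi I ^ (2 * m + 1)) (p ^ k) := by
  have hn : 2 * m + 1 ≠ 0 := Nat.succ_ne_zero _
  have hf := psi_pow_cm hn
  unfold ec
  split_ifs with h7
  · subst h7
    have h1 := bP_seven hn 0
    rw [zero_add, pow_one] at h1
    rw [bP_seven hn (k + 1), h1, zero_pow hn]
    ring
  · rcases irr_or_norm hp with hirr | ⟨g, hg⟩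
    · obtain ⟨b1, b2⟩ := bF_inert hf hirr hp
      obtain ⟨-, b3⟩ := ap_inert hp (irr_ne_two hirr) h7 (nonsq_of_irr hp (irr_ne_two hirr) hirr)
      rw [b2, b1]
      have e : psi (sp (p : RR)) ^ (2 * m + 1) = -((p : ℂ) ^ (2 * m + 1)) := by
        rw [psi_sp, b3]
        push_cast
        rw [neg_one_mul, Odd.neg_pow ⟨m, rfl⟩]
      rw [e]
      ring
    · obtain ⟨b1, b2⟩ := bF_split hf hp hg (sp_cj_ne hp h7 hg)
      rw [b2]
      have e : psi (sp (p : RR)) ^ (2 * m + 1) = (p : ℂ) ^ (2 * m + 1) := by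
        rw [psi_sp, e7_split hp h7 hg]
        push_cast
        rw [one_mul]
      rw [e]

/-- the Euler product -/
theorem prod_high {e : ℕ} {S : Finset ℕ} {z A : ℂ}
    (h : HasSum (fun I : Ideal RR => th e S I * (nm I : ℂ) ^ (-z)) A) :
    HasProd (fun p : Nat.Primes =>
      (1 - (∏ q ∈ S, qch q (p : ℕ)) * pw (bc p) (ec p) (2 * e + 1) * ((p : ℕ) : ℂ) ^ (-z) +
      (∏ q ∈ S, qch q (p : ℕ)) ^ 2 * ec p ^ (2 * e + 1) * (((p : ℕ) : ℂ) ^ (-z)) ^ 2)⁻¹) A := by
  have hn : 2 * e + 1 ≠ 0 := Nat.succ_ne_zero _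
  have hf := psi_pow_cm hn
  set χ : ℕ → ℂ := fun n => ∏ q ∈ S, qch q ((n : ℕ) : ℤ) with hχ
  have hχm : ∀ m n, χ (m * n) = χ m * χ n := by
    intro m n
    simp only [hχ]
    rw [← Finset.prod_mul_distrib]
    refine Finset.prod_congr rfl fun q _ => ?_
    push_cast
    exact qch_mul _ _ _
  have hχ1 : χ 1 = 1 := by
    simp only [hχ]
    refine Finset.prod_eq_one fun q _ => ?_
    push_cast
    exact qch_one q
  have hpow : ∀ p k, χ (p ^ k) = χ p ^ k := by
    intro p k
    induction k with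
    | zero => rw [pow_zero, pow_zero, hχ1]
    | succ k ih => rw [pow_succ, hχm, ih, pow_succ]
  have hs : HasSum (fun n : ℕ => χ n * bF (fun I => psi I ^ (2 * e + 1)) n * (n : ℂ) ^ (-z)) A := by
    have h1 := hasSum_fib h
    convert h1 using 2 with n
    unfold bF
    rw [Finset.mul_sum, Finset.sum_mul]
    refine Finset.sum_congr rfl fun I hI => ?_
    rw [mem_Tn] at hI
    unfold th
    rw [nm_nI, hI]
    push_cast
    ring
  have key := Pool.Agent.W164.RC.ep_general
    (fun n => χ n * bF (fun I => psi I ^ (2 * e + 1)) n)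
    (fun p => χ p ^ 2 * ec p ^ (2 * e + 1)) (by rw [bF_zero hf, mul_zero])
    (by rw [bF_one hf, hχ1, one_mul])
    (by
      intro m n hmn
      rw [bF_mul hf hmn, hχm]
      ring)
    (by
      intro p hp k
      rw [bP_rec hp, hpow, hpow, hpow]
      ring) z A hs
  convert key using 2 with p
  rw [bP_prime p.2]

end Run7.h359.EU
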