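import Pool.Agent.Run7.h359.Wal
import Pool.Agent.R384.Y.Kdt
import Pool.Agent.R384.Y.Hev

/-!
# The ranks of the Selmer groups of all weights, wide class
-/

set_option autoImplicit false

namespace Run7.h359.EW

open Pool.Agent.Results.MP_787500_nt.AllWeightsMultiquadraticX49
open Pool.Agent.Results.MP_6e2fc3_nt.CMFormsAllWeights
open WeierstrassCurve Run7.h359.WD
open Pool.Agent.Kdt384 (exists_tate em_om em_om' e_sq e_ne)
open scoped Classical

/-- the factorizations -/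
theorem good_facW {M n : ℕ} {d : Fin n → ℕ} (hG : GoodW M d) :
    ∀ T : Finset (Fin n), ∃ (m : ℕ) (q : Fin m → Pool.Agent.R384.OO)
        (z : Pool.Agent.R384.OO), (∀ i, Pool.Agent.R384.Pr (q i)) ∧
        Function.Injective q ∧ (8 : Pool.Agent.R384.OO) ∣ ∏ i, q i - 1 ∧
        Pool.Agent.R384.Indec7 q ∧ z ≠ 0 ∧
        tw M * ∏ i ∈ T, (((d i : ℤ) : Pool.Agent.R384.OO)) =
          -(Pool.Agent.R384.s7 * ∏ i, q i) * z ^ 2 := by
  intro T
  obtain ⟨D, k, hk0, hA, hR, he⟩ := hG T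
  obtain ⟨m, q, hpr, hinj, h8, hind, hprod⟩ := Run7.h359.WS.factorW hA.1 (fun p hp =>
    hA.2.2 p (Nat.prime_of_mem_primeFactors hp) (Nat.dvd_of_mem_primeFactors hp)) hA.2.1
    (det_ne hA hR)
  refine ⟨m, q, ((k : ℤ) : Pool.Agent.R384.OO), hpr, hinj, h8, hind, ?_, ?_⟩
  · intro h1
    have h2 := congrArg QuadraticAlgebra.re h1
    simp at h2
    exact hk0 h2
  · rw [hprod, tw_eq]
    have h1 : ((M : ℤ) : Pool.Agent.R384.OO) * ∏ i ∈ T, (((d i : ℤ) : Pool.Agent.R384.OO)) =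
        ((D : ℤ) : Pool.Agent.R384.OO) * ((k : ℤ) : Pool.Agent.R384.OO) ^ 2 := by
      have h2 : (M : ℤ) * ∏ i ∈ T, (d i : ℤ) = (D : ℤ) * (k : ℤ) ^ 2 := by exact_mod_cast he
      have h3 := congrArg (fun a : ℤ => (a : Pool.Agent.R384.OO)) h2
      simp only [Int.cast_mul, Int.cast_pow, Int.cast_prod] at h3
      exact h3
    linear_combination (-Pool.Agent.R384.s7) * h1

/-- **The ranks, all weights.** -/
theorem rk_allW {w : QBar} (hw : w ^ 2 = w - 2) {M n : ℕ} {d : Fin n → ℕ} (hG : GoodW M d)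
    {κ κ' : Chr w} {r I : QBar} (kd : Pool.Agent.R384.KD hw κ κ' (tw M) r I) {s : Fin n → QBar}
    (hs : ∀ i, s i ^ 2 = (d i : QBar)) (k : ℤ) :
    Pool.Agent.R384.rk hw (1 - Pool.Agent.R384.om) (κ ^ k * κ' ^ (1 - k))
      (Pool.Agent.R384.fixs s Finset.univ) ≤ (if Even k then ((2 ^ n : ℕ) : Cardinal) else 0) ∧
    Pool.Agent.R384.rk hw Pool.Agent.R384.om (κ ^ (1 - k) * κ' ^ (1 - (1 - k)))
      (Pool.Agent.R384.fixs s Finset.univ) ≤ (if Even k then ((2 ^ n : ℕ) : Cardinal) else 0) := by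
  obtain ⟨hM0, hd0⟩ := good_ne' hG
  have hD := tw_ne hM0
  have hE := e_sq hw hs
  have hE0 := e_ne hd0
  have hgood := good_facW hG
  by_cases hk : Even k
  · have hk' : Odd (1 - k) := by
      rw [← Int.not_even_iff_odd, Int.even_sub]
      simp [hk]
    rw [if_pos hk]
    exact ⟨Pool.Agent.R384.rk_mq hw hE kd hD hE0 hgood k (Or.inr ⟨hk, rfl, rfl⟩),
      Pool.Agent.R384.rk_mq hw hE kd hD hE0 hgood (1 - k) (Or.inl ⟨hk', rfl, rfl⟩)⟩
  · rw [if_neg hk]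
    have hk1 : Odd k := Int.not_even_iff_odd.1 hk
    have hk' : Even (1 - k) := by
      rw [Int.even_sub]
      simp [hk]
    exact ⟨(Pool.Agent.R384.rk_van hw (Pool.Agent.R384.vanish_mq hw hE kd hD hE0 hgood k
        (Or.inr ⟨hk1, rfl, rfl⟩))).le,
      (Pool.Agent.R384.rk_van hw (Pool.Agent.R384.vanish_mq hw hE kd hD hE0 hgood (1 - k)
        (Or.inl ⟨hk', rfl, rfl⟩))).le⟩

end Run7.h359.EW
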