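import Pool.Agent.Run7.h359.Fes
import Pool.Agent.Run7.h359.Lfw

/-!
# The zeros of the L-functions of all even weights
-/

set_option autoImplicit false
set_option linter.unusedSectionVars false

namespace Run7.h359.FS

open Pool.Agent.Results.MP_787500_nt.AllWeightsMultiquadraticX49
open Pool.Agent.Y698 Pool.Agent.Y698.SG
open NumberField IsDedekindDomain WeierstrassCurve
open W165.CE (pw pw_eq pw_luc)
open Run7.h401.Fl (MQ)
open Run7.h359.EU (prod_high qch_two v_nonzero)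
open Run7.h359.BK (ne_high)
open Run7.h359.FE
open Run7.h359.WD (W8 GoodW det_ne good_ne')
open Pool.Agent.W192.HK (sp HC fp nm)
open Run7.h359.BK (th th_HC)
open Filter Topology
open scoped Classical

/-- the identity theorem -/
lemma ext_half {F G : ℂ → ℂ} (hF : Differentiable ℂ F) (hG : Differentiable ℂ G) {c : ℝ}
    (h : ∀ z : ℂ, c < z.re → F z = G z) : F = G := by
  have h1 : AnalyticOnNhd ℂ F Set.univ := fun z _ => hF.analyticAt z
  have h2 : AnalyticOnNhd ℂ G Set.univ := fun z _ => hG.analyticAt z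
  have h3 : F =ᶠ[nhds ((c + 1 : ℝ) : ℂ)] G := by
    have h4 : IsOpen {z : ℂ | c < z.re} := isOpen_lt continuous_const Complex.continuous_re
    filter_upwards [h4.mem_nhds (show c < ((c + 1 : ℝ) : ℂ).re by simp)] with z hz using h z hz
  funext z
  exact h1.eqOn_of_preconnected_of_eventuallyEq h2 isPreconnected_univ (Set.mem_univ _) h3
    (Set.mem_univ z)

/-- the series tends to one -/
lemma tend_one {f : Ideal RR → ℂ} (hb : f ⊥ = 0) (ht : f ⊤ = 1) {c : ℝ} {F : ℂ → ℂ}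
    (h : ∀ z : ℂ, c < z.re → HasSum (fun I : Ideal RR => f I * (nm I : ℂ) ^ (-z)) (F z)) :
    Tendsto (fun n : ℕ => F (n : ℂ)) atTop (𝓝 1) := by
  classical
  have hbas := Pool.Agent.W287.HK.h_basic RR al qr
  obtain ⟨N, hN⟩ := exists_nat_gt c
  have hval : ∀ (I : Ideal RR) (n : ℕ), (nm I : ℂ) ^ (-(n : ℂ)) = ((nI I : ℂ) ^ n)⁻¹ := by
    intro I n
    rw [nm_nI, Complex.cpow_neg, Complex.cpow_natCast, Complex.ofReal_natCast]
  have h1 : ∀ n : ℕ, N ≤ n → HasSum (fun I : Ideal RR => f I * ((nI I : ℂ) ^ n)⁻¹) (F (n : ℂ)) := by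
    intro n hn
    have h2 := h (n : ℂ) (by
      rw [Complex.natCast_re]
      exact hN.trans_le (by exact_mod_cast hn))
    simpa only [hval] using h2
  have h2 : Tendsto (fun n : ℕ => ∑' I : Ideal RR, f I * ((nI I : ℂ) ^ n)⁻¹) atTop
      (𝓝 (∑' I : Ideal RR, if I = ⊤ then 1 else 0)) := by
    refine tendsto_tsum_of_dominated_convergence (bound := fun I => ‖f I * ((nI I : ℂ) ^ N)⁻¹‖)
      (h1 N le_rfl).summable.norm ?_ ?_
    · intro I
      by_cases hI : I = ⊤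
      · subst hI
        rw [if_pos rfl, ht]
        have h3 : nI (⊤ : Ideal RR) = 1 := by
          have h4 := (hbas.2.2.2.2.2.2.1 ⊤).2 rfl
          rw [nm_nI] at h4
          exact_mod_cast h4
        rw [h3]
        simp
      · rw [if_neg hI]
        by_cases hI0 : I = ⊥
        · subst hI0
          simp [hb]
        · have h3 : 1 < nI I := by
            have h4 := hbas.2.2.1 I hI0
            rw [nm_nI] at h4
            have h5 : 1 ≤ nI I := by exact_mod_cast h4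
            refine lt_of_le_of_ne h5 fun h6 => hI ((hbas.2.2.2.2.2.2.1 I).1 ?_)
            rw [nm_nI, ← h6]
            norm_num
          have h4 : Tendsto (fun n : ℕ => (((nI I : ℂ)⁻¹) ^ n)) atTop (𝓝 0) := by
            refine tendsto_pow_atTop_nhds_zero_of_norm_lt_one ?_
            rw [norm_inv, Complex.norm_natCast]
            exact inv_lt_one_of_one_lt₀ (by exact_mod_cast h3)
          have h5 := h4.const_mul (f I)
          rw [mul_zero] at h5
          refine h5.congr fun n => ?_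
          rw [inv_pow]
    · filter_upwards [eventually_ge_atTop N] with n hn I
      rw [norm_mul, norm_mul, norm_inv, norm_inv, norm_pow, norm_pow, Complex.norm_natCast]
      by_cases hI0 : I = ⊥
      · subst hI0
        simp [hb]
      · have h4 := hbas.2.2.1 I hI0
        rw [nm_nI] at h4
        refine mul_le_mul_of_nonneg_left ?_ (norm_nonneg _)
        have h5 : (0 : ℝ) < (nI I : ℝ) ^ N := by positivity
        exact inv_anti₀ h5 (pow_le_pow_right₀ h4 hn)
  rw [tsum_ite_eq] at h2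
  refine h2.congr' ?_
  filter_upwards [eventually_ge_atTop N] with n hn
  exact (h1 n hn).tsum_eq

/-- the order is finite -/
lemma order_ne_top {F : ℂ → ℂ} (hF : Differentiable ℂ F)
    (h : Tendsto (fun n : ℕ => F (n : ℂ)) atTop (𝓝 1)) (z₀ : ℂ) : analyticOrderAt F z₀ ≠ ⊤ := by
  intro h1
  rw [analyticOrderAt_eq_top] at h1
  have h2 : AnalyticOnNhd ℂ F Set.univ := fun z _ => hF.analyticAt z
  have h3 : F = fun _ => 0 := by
    funext z
    exact h2.eqOn_of_preconnected_of_eventuallyEq (fun z _ => analyticAt_const)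
      isPreconnected_univ (Set.mem_univ z₀) h1 (Set.mem_univ z)
  rw [h3] at h
  exact zero_ne_one (tendsto_nhds_unique tendsto_const_nhds h)

/-- the central values vanish -/
theorem primes_even {Q P : Finset ℕ} (hQ : ∀ q ∈ Q, Inq q) (hP : ∀ p ∈ P, Spl p)
    (hdet : (mat Q P).det ≠ 0) (h2 : ∏ q ∈ Q ∪ P, qch q 2 = 1) {k : ℕ} (hk : Even k)
    (hk0 : 0 < k) :
    ∃ F : ℂ → ℂ, Differentiable ℂ F ∧
    (∀ z : ℂ, (k : ℝ) + 1 / 2 < z.re → HasProd (fun p : Nat.Primes =>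
      (1 - xx (Q ∪ P) p * pw (bc p) (ec p) (2 * (k - 1) + 1) * ((p : ℕ) : ℂ) ^ (-z) +
      xx (Q ∪ P) p ^ 2 * ec p ^ (2 * (k - 1) + 1) * (((p : ℕ) : ℂ) ^ (-z)) ^ 2)⁻¹) (F z)) ∧
    F (k : ℂ) = 0 ∧ Tendsto (fun n : ℕ => F (n : ℂ)) atTop (𝓝 1) := by
  have hS : ∀ q ∈ Q ∪ P, Gp q := by
    intro q hq
    rcases Finset.mem_union.1 hq with h | h
    · exact Gp.of_inq (hQ q h)
    · exact Gp.of_spl (hP q h)
  obtain ⟨F1, g1, g2, g3⟩ := primes_odd hQ hP hdet h2 odd_one
  obtain ⟨F0, f1, f2, A, f3⟩ := afe_sym 0 hS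
  have he : F0 = F1 := by
    refine ext_half f1 g1 (c := ((0 + 1 : ℕ) : ℝ) + 1 / 2) fun z hz => ?_
    have hz' : ((1 : ℕ) : ℝ) + 1 / 2 < z.re := by simpa using hz
    exact (prod_high (f2 z hz)).unique (g2 z hz')
  have hw : ws (Q ∪ P) = 1 := by
    rcases ws_sign hS with h | h
    · exact h
    · exfalso
      apply g3
      rw [← he]
      rw [h, pow_zero, one_mul, add_neg_cancel, zero_mul] at f3
      simpa using f3
  obtain ⟨m, rfl⟩ : ∃ m, k = m + 1 := ⟨k - 1, by omega⟩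
  have hm : Odd m := by
    rw [← Nat.not_even_iff_odd]
    intro h
    exact (Nat.not_even_iff_odd.2 h.add_one) hk
  obtain ⟨F, h1, h3, B, h4⟩ := afe_sym m hS
  have hθ := th_HC Pool.Agent.Y698.SG.inp.hcs m (Q ∪ P) hS
  refine ⟨F, h1, fun z hz => ?_, ?_, tend_one ((hθ.zero ⊥).2 (Or.inl rfl)) hθ.top h3⟩
  · have e1 : m + 1 - 1 = m := rfl
    rw [e1]
    exact prod_high (h3 z hz)
  · rw [h4, hw, hm.neg_one_pow]
    ring

/-- the wide class -/
theorem wide_even {D k : ℕ} (hD : W8 D) (hR : RankZeroShaTwo D) (hk : Even k) (hk0 : 0 < k) :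
    ∃ F : ℂ → ℂ, Differentiable ℂ F ∧
    (∀ z : ℂ, (k : ℝ) + 1 / 2 < z.re → HasProd (fun p : Nat.Primes =>
      (1 - xx D.primeFactors p * pw (bc p) (ec p) (2 * (k - 1) + 1) * ((p : ℕ) : ℂ) ^ (-z) +
      xx D.primeFactors p ^ 2 * ec p ^ (2 * (k - 1) + 1) * (((p : ℕ) : ℂ) ^ (-z)) ^ 2)⁻¹) (F z)) ∧
    F (k : ℂ) = 0 ∧ Tendsto (fun n : ℕ => F (n : ℂ)) atTop (𝓝 1) := by
  have hp4 : ∀ p ∈ D.primeFactors, p % 4 = 1 := fun p hp =>
    hD.2.2 p (Nat.prime_of_mem_primeFactors hp) (Nat.dvd_of_mem_primeFactors hp)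
  have hdet := det_ne hD hR
  set Q := D.primeFactors.filter fun p => ¬ IsSquare (-7 : ZMod p) with hQd
  set P := D.primeFactors.filter fun p => IsSquare (-7 : ZMod p) with hPd
  have hQ : ∀ q ∈ Q, Pool.Agent.Y698.Inq q := fun q hq =>
    ⟨Nat.prime_of_mem_primeFactors (Finset.mem_filter.1 hq).1, hp4 q (Finset.mem_filter.1 hq).1,
      (Finset.mem_filter.1 hq).2⟩
  have hP : ∀ q ∈ P, Pool.Agent.Y698.SG.Spl q := fun q hq =>
    ⟨Nat.prime_of_mem_primeFactors (Finset.mem_filter.1 hq).1, hp4 q (Finset.mem_filter.1 hq).1,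
      (Finset.mem_filter.1 hq).2⟩
  have hu : Q ∪ P = D.primeFactors := by
    rw [Finset.union_comm]
    exact Finset.filter_union_filter_not_eq _ _
  rw [← hu]
  exact primes_even hQ hP hdet (by rw [hu]; exact qch_two hD.1 hD.2.1) hk hk0

/-- the order of a product -/
lemma order_prod {ι : Type} (S : Finset ι) (G : ι → ℂ → ℂ) {z₀ : ℂ}
    (h1 : ∀ X ∈ S, Differentiable ℂ (G X)) (h2 : ∀ X ∈ S, G X z₀ = 0) :
    (S.card : ℕ∞) ≤ analyticOrderAt (fun z => ∏ X ∈ S, G X z) z₀ := by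
  induction S using Finset.induction_on with
  | empty => simp
  | insert a S ha ih =>
    have h3 := ih (fun X hX => h1 X (Finset.mem_insert_of_mem hX))
      fun X hX => h2 X (Finset.mem_insert_of_mem hX)
    have h4 := (h1 a (Finset.mem_insert_self a S)).analyticAt z₀
    have h5 : Differentiable ℂ fun z => ∏ X ∈ S, G X z :=
      Differentiable.fun_finsetProd fun X hX => h1 X (Finset.mem_insert_of_mem hX)
    have h6 : (fun z => ∏ X ∈ insert a S, G X z) = G a * fun z => ∏ X ∈ S, G X z := by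
      funext z
      rw [Pi.mul_apply, Finset.prod_insert ha]
    rw [h6, analyticOrderAt_mul h4 (h5.analyticAt z₀), Finset.card_insert_of_notMem ha,
      Nat.cast_add, Nat.cast_one, add_comm]
    refine add_le_add ?_ h3
    rw [ENat.one_le_iff_ne_zero, h4.analyticOrderAt_ne_zero]
    exact h2 a (Finset.mem_insert_self a S)

lemma card_HH {n : ℕ} {d : Fin n → ℕ} (hd : ∀ i, d i ≠ 0) (hI : Ind d) :
    (HH d).card = 2 ^ n := by
  unfold HH
  rw [Finset.card_image_of_injective, Finset.card_univ, Fintype.card_finset, Fintype.card_fin]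
  intro T T' hTT
  by_contra hne
  have h1 : (symmDiff T T').Nonempty := by
    rw [Finset.nonempty_iff_ne_empty]
    intro h
    exact hne (symmDiff_eq_bot.1 h)
  have h2 : sf (∏ i ∈ symmDiff T T', d i) = ∅ := by
    rw [← sf_sd hd]
    have h3 : sf (∏ i ∈ T, d i) = sf (∏ i ∈ T', d i) := hTT
    rw [h3]
    exact symmDiff_self _
  obtain ⟨m, -, h4⟩ := prod_sf (pr_ne hd (symmDiff T T'))
  rw [h2, Finset.prod_empty, one_mul] at h4
  exact hI _ h1 ⟨m, by rw [h4, pow_two]⟩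

/-- **The L-function over the field, even weights.** -/
theorem lfield_even {F : Type} [Field F] [NumberField F] {n M : ℕ} {d : Fin n → ℕ}
    (hG : GoodW M d) (hI : Ind d) {s : Fin n → F} (hs : ∀ i, s i ^ 2 = (d i : F))
    (hgen : ∀ K : Subfield F, (∀ i, s i ∈ K) → K = ⊤) {k : ℕ} (hk : Even k) (hk0 : 0 < k) :
    ∃ Λ : ℂ → ℂ, Differentiable ℂ Λ ∧
      (∀ z : ℂ, (k : ℝ) + 1 / 2 < z.re → HasProd (facF (cur (M : F)) (2 * k - 1) z) (Λ z)) ∧
      ((2 ^ n : ℕ) : ℕ∞) ≤ analyticOrderAt Λ (k : ℂ) ∧ analyticOrderAt Λ (k : ℂ) ≠ ⊤ := by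
  obtain ⟨hM, hd⟩ := good_ne' hG
  choose D m hm hA hR he using hG
  have hsf : ∀ T, symmDiff (sf M) (sf (∏ i ∈ T, d i)) = (D T).primeFactors := by
    intro T
    rw [← sf_mul hM (pr_ne hd T), he T, sf_mul_sq (hA T).1.ne_zero (hm T), sf_sqf (hA T).1]
  have hpm : ∀ T, ∀ p ∈ (D T).primeFactors, p % 4 = 1 := by
    intro T p hp
    exact (hA T).2.2 p (Nat.prime_of_mem_primeFactors hp) (Nat.dvd_of_mem_primeFactors hp)
  have hM4 : ∀ p ∈ sf M, p % 4 = 1 := by
    intro p hp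
    refine hpm ∅ p ?_
    rw [← hsf ∅, Finset.prod_empty, sf_one]
    have e : symmDiff (sf M) ∅ = sf M := symmDiff_bot (sf M)
    rwa [e]
  have hd4 : ∀ T : Finset (Fin n), ∀ p ∈ sf (∏ i ∈ T, d i), p % 4 = 1 := by
    intro T p hp
    by_cases h1 : p ∈ sf M
    · exact hM4 p h1
    · refine hpm T p ?_
      rw [← hsf T, Finset.mem_symmDiff]
      exact Or.inr ⟨hp, h1⟩
  obtain ⟨r, hr⟩ := exists_MQ hd hd4 hs hgen
  have hex : ∀ X ∈ HH d, ∃ G : ℂ → ℂ, Differentiable ℂ G ∧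
      (∀ z : ℂ, (k : ℝ) + 1 / 2 < z.re → HasProd (fun p : Nat.Primes =>
        (1 - xx (symmDiff (sf M) X) p * pw (bc p) (ec p) (2 * (k - 1) + 1) *
          ((p : ℕ) : ℂ) ^ (-z) + xx (symmDiff (sf M) X) p ^ 2 * ec p ^ (2 * (k - 1) + 1) *
          (((p : ℕ) : ℂ) ^ (-z)) ^ 2)⁻¹) (G z)) ∧ G (k : ℂ) = 0 ∧
          Tendsto (fun n : ℕ => G (n : ℂ)) atTop (𝓝 1) := by
    intro X hX
    obtain ⟨T, rfl⟩ := mem_HH.1 hX
    rw [hsf T]
    exact wide_even (hA T) (hR T) hk hk0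
  choose! G g1 g2 g3 g4 using hex
  have hΛ : Differentiable ℂ fun z => ∏ X ∈ HH d, G X z :=
    Differentiable.fun_finsetProd fun X hX => g1 X hX
  refine ⟨fun z => ∏ X ∈ HH d, G X z, hΛ, fun z hz => ?_, ?_, order_ne_top hΛ ?_ _⟩
  · have hk1 : 2 * k - 1 = 2 * (k - 1) + 1 := by omega
    rw [hk1]
    refine hasProd_pl hr hM hM4 (k - 1) ?_ fun X hX => g2 X hX z hz
    have hkr : ((2 * (k - 1) + 1 : ℕ) : ℝ) = 2 * (k : ℝ) - 1 := by
      have : 2 * (k - 1) + 1 + 1 = 2 * k := by omega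
      have h2 : ((2 * (k - 1) + 1 : ℕ) : ℝ) + 1 = 2 * (k : ℝ) := by exact_mod_cast this
      linarith
    rw [hkr]
    linarith
  · rw [← card_HH hd hI]
    exact order_prod _ G g1 g3
  · have h := tendsto_finsetProd (HH d) (f := fun X (n : ℕ) => G X (n : ℂ)) (a := fun _ => 1)
      fun X hX => g4 X hX
    rwa [Finset.prod_const_one] at h

end Run7.h359.FS
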