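import Pool.Agent.Results.MP_ec4e4b_nt.OddWeightsMultiquadratic
import Pool.Agent.Results.MP_6e2fc3_nt.CMFormsEvenWeights
import Pool.Agent.Run7.h359.Fet
import Pool.Agent.Run7.h359.Ewd

/-!
# The inequalities for the even weights
-/

set_option autoImplicit false

namespace Run7.h359.EV

open Pool.Agent.Results.MP_787500_nt.AllWeightsMultiquadraticX49
open Pool.Agent.Results.MP_6e2fc3_nt.CMFormsAllWeights
open Pool.Agent.Results.MP_ec4e4b_nt.OddWeightsMultiquadratic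
open NumberField IsDedekindDomain WeierstrassCurve Filter Topology
open Pool.Agent.Kdt384
open scoped Classical

lemma dep {V : Type} [AddCommGroup V] [Module ℚ_[2] V] {A B : Submodule ℚ_[2] V} {N : ℕ}
    (h : Module.rank ℚ_[2] (A ⧸ B.submoduleOf A) ≤ (N : Cardinal)) (b : Fin (N + 1) → V)
    (hb : ∀ i, b i ∈ A) : ∃ a : Fin (N + 1) → ℚ_[2], a ≠ 0 ∧ ∑ i, a i • b i ∈ B := by
  set g : Fin (N + 1) → (A ⧸ B.submoduleOf A) := fun i => Submodule.Quotient.mk ⟨b i, hb i⟩ with hg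
  have h1 : ¬ LinearIndependent ℚ_[2] g := by
    intro hl
    have h2 := hl.cardinal_le_rank
    rw [Cardinal.mk_fin] at h2
    have h3 := h2.trans h
    have h4 : N + 1 ≤ N := by exact_mod_cast h3
    omega
  rw [Fintype.not_linearIndependent_iff] at h1
  obtain ⟨a, h2, i, hi⟩ := h1
  refine ⟨a, fun h => hi (by rw [h]; rfl), ?_⟩
  have h3 : ∑ i, a i • g i = Submodule.Quotient.mk (∑ i, a i • (⟨b i, hb i⟩ : A)) := by
    rw [← Submodule.mkQ_apply, map_sum]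
    exact Finset.sum_congr rfl fun i _ => by rw [map_smul]; rfl
  rw [h3, Submodule.Quotient.mk_eq_zero] at h2
  have h4 : ((∑ i, a i • (⟨b i, hb i⟩ : A) : A) : V) ∈ B := h2
  have h5 : ((∑ i, a i • (⟨b i, hb i⟩ : A) : A) : V) = ∑ i, a i • b i := by
    rw [AddSubmonoidClass.coe_finsetSum]
    rfl
  rwa [h5] at h4

lemma selL_eq {w : QBar} (hw : w ^ 2 = w - 2) {v : Pool.Agent.R384.OO} {v' : QBar}
    (hv : Pool.Agent.R384.em hw v = v') {n : ℕ} (s : Fin n → QBar) (χ : Chr w)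
    (c : Gal w → ℚ_[2]) : (IsCocycle (GalL w s) χ c ∧ IsSelmer v' (GalL w s) χ c) ↔
      c ∈ Pool.Agent.R384.SelM hw v χ (Pool.Agent.R384.fixs s Finset.univ) := by
  rw [← galL_eq]
  constructor
  · rintro ⟨h1, h2⟩
    exact ⟨⟨h1.cont, h1.mul⟩, fun p _ ι hp => h2.odd p ι hp, fun ι hι => h2.two ι (by rwa [← hv])⟩
  · rintro ⟨h1, h2, h3⟩
    exact ⟨⟨h1.cont, h1.mul⟩, fun p _ ι hp => h2 p ι hp, fun ι hι => h3 ι (by rwa [hv])⟩

lemma cobL_eq {w : QBar} {n : ℕ} (s : Fin n → QBar) (χ : Chr w)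
    (c : Gal w → ℚ_[2]) : TrivialOn (GalL w s) χ Set.univ c ↔
      c ∈ Pool.Agent.R384.CobM χ (Pool.Agent.R384.fixs s Finset.univ) := by
  rw [← galL_eq]
  exact Iff.rfl

/-- the zeros -/
theorem lfun {M n : ℕ} {d : Fin n → ℕ} (hG : GoodPair M d) (hI : Ind d) {s : Fin n → QBar}
    (hs : ∀ i, s i ^ 2 = (d i : QBar)) {k : ℕ} (hk : Even k) (hk0 : 0 < k) :
    ∃ Λ : ℂ → ℂ, IsLFunction (EF s M) k Λ ∧ analyticOrderAt Λ k ≠ ⊤ ∧
      ((2 ^ n : ℕ) : ℕ∞) ≤ analyticOrderAt Λ k := by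
  obtain ⟨Λ, g1, g2, g3, g4⟩ := Run7.h359.FS.lfield_even (F := Fld s) hG hI
    (s := fun i => ⟨s i, IntermediateField.subset_adjoin ℚ _ ⟨i, rfl⟩⟩) (fun i => by
      apply Subtype.ext
      push_cast
      exact hs i) (Run7.h359.FE.gen_adj s) hk hk0
  refine ⟨Λ, ⟨g1, fun z hz => ?_⟩, g4, g3⟩
  rw [factor_eq]
  unfold EF
  rw [Run7.h359.FE.E_cur]
  exact g2 z hz

/-- the Selmer groups -/
theorem selmer {M n : ℕ} {d : Fin n → ℕ} (hG : GoodPair M d) {w : QBar} (hw : w ^ 2 = w - 2)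
    {κ κ' : Chr w} {r I : QBar} (kd : Pool.Agent.R384.KD hw κ κ' (tw M) r I) {s : Fin n → QBar}
    (hs : ∀ i, s i ^ 2 = (d i : QBar)) {k : ℤ} (hk : Even k) :
    (∀ c₀ : GQ, c₀ w = 1 - w → ∀ b : Fin (2 ^ n + 1) → GQ → ℚ_[2] × ℚ_[2],
      (∀ i, IsCocycleF s (chi κ κ' k) c₀ (b i) ∧ IsSelmerF s (chi κ κ' k) c₀ (b i)) →
      ∃ a : Fin (2 ^ n + 1) → ℚ_[2], a ≠ 0 ∧
        TrivialOnF s (chi κ κ' k) c₀ Set.univ (∑ i, a i • b i)) ∧
    (∀ c : Fin (2 ^ n + 1) → Gal w → ℚ_[2],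
      (∀ i, IsCocycle (GalL w s) (chi κ κ' k) (c i) ∧
        IsSelmer (1 - w) (GalL w s) (chi κ κ' k) (c i)) →
      ∃ a : Fin (2 ^ n + 1) → ℚ_[2], a ≠ 0 ∧
        TrivialOn (GalL w s) (chi κ κ' k) Set.univ (∑ i, a i • c i)) ∧
    (∀ c : Fin (2 ^ n + 1) → Gal w → ℚ_[2],
      (∀ i, IsCocycle (GalL w s) (chi κ κ' (1 - k)) (c i) ∧
        IsSelmer w (GalL w s) (chi κ κ' (1 - k)) (c i)) →
      ∃ a : Fin (2 ^ n + 1) → ℚ_[2], a ≠ 0 ∧
        TrivialOn (GalL w s) (chi κ κ' (1 - k)) Set.univ (∑ i, a i • c i)) := by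
  obtain ⟨h1, h2⟩ := Run7.h359.EW.rk_allW hw hG kd hs k
  rw [if_pos hk] at h1 h2
  refine ⟨fun c₀ hc₀ b hb => ?_, fun c hc => ?_, fun c hc => ?_⟩
  · have key : ∀ b ∈ Pool.Agent.Results.MP_6e2fc3_nt.CMFormsEvenWeights.SelF s (chi κ κ' k) c₀,
        Pool.Agent.Hev384.fstL w b ∈ Pool.Agent.R384.CobM (chi κ κ' k)
          (Pool.Agent.R384.fixs s Finset.univ) →
        b ∈ Pool.Agent.Results.MP_6e2fc3_nt.CMFormsEvenWeights.CobF s (chi κ κ' k) c₀ := by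
      rintro b ⟨hb, -⟩ h
      exact Pool.Agent.Hev384.fst_triv hw hc₀ hs hb h
    exact dep ((Pool.Agent.Hev384.rank_into (Pool.Agent.Hev384.fstL w)
      (fun b hb => Pool.Agent.Hev384.fst_sel hw hb) key).trans h1) b hb
  · obtain ⟨a, ha, h3⟩ := dep h1 c fun i => (selL_eq hw (em_om' hw) s _ _).1 (hc i)
    exact ⟨a, ha, (cobL_eq s _ _).2 h3⟩
  · obtain ⟨a, ha, h3⟩ := dep h2 c fun i => (selL_eq hw (em_om hw) s _ _).1 (hc i)
    exact ⟨a, ha, (cobL_eq s _ _).2 h3⟩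

lemma order_sq {Λ : ℂ → ℂ} (hΛ : Differentiable ℂ Λ) {k : ℕ} {n : ℕ}
    (g2 : analyticOrderAt Λ (k : ℂ) ≠ ⊤) (g3 : ((2 ^ n : ℕ) : ℕ∞) ≤ analyticOrderAt Λ (k : ℂ)) :
    analyticOrderAt (fun z => Λ z ^ 2) (k : ℂ) ≠ ⊤ ∧
      ((2 ^ (n + 1) : ℕ) : ℕ∞) ≤ analyticOrderAt (fun z => Λ z ^ 2) (k : ℂ) := by
  have hsq : analyticOrderAt (fun z => Λ z ^ 2) (k : ℂ) = 2 * analyticOrderAt Λ (k : ℂ) := by
    have h := analyticOrderAt_pow (hΛ.analyticAt (k : ℂ)) 2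
    have e : (Λ ^ 2) = fun z => Λ z ^ 2 := by
      funext z
      rfl
    rw [e] at h
    rw [h]
    simp
  constructor
  · rw [hsq]
    exact WithTop.mul_ne_top (by decide) g2
  · rw [hsq, pow_succ, mul_comm]
    push_cast
    push_cast at g3
    gcongr

end Run7.h359.EV
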