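import Pool.Agent.Run7.h359.Lff

/-!
# The signs of the functional equations
-/

set_option autoImplicit false
set_option linter.unusedSectionVars false

open Filter
open scoped Topology PeriodPair

namespace Run7.h359.FS

open H667R3 Pool.Agent.TH936.CW Pool.Agent.TH936.CM
open Pool.Agent.W192.HK (sp HC fp nm gT Wc Sys Rp)
open Pool.Agent.W192.CY (Vk)
open Pool.Agent.W192.CM (ez)
open Pool.Agent.TH936.PU (coe_ne rp)
open Pool.Agent.Y698 (al bl RR aR bR tA tB al_ne bl_ne al_mul_bl al_sq tA_mem tB_mem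
  LD aR_coe bR_coe qr fin_quot fR fR_ne e7 e7_mul e7_per e7_neg e7_eq_zero nu_eq psi psi_sp
  psi_HC exists_gen maximal_sp irr_fR e7_one e7_sq e7_conj not_coprime_iff nI nI_sp qch nR nI_sp'
  qch_conj not_mem_of_cop cj cj_cj cj_coe cX cY cXY_of co r7 r7_apply fR_coe fR_sq)
open Pool.Agent.Y698.SG (Gp)
open Run7.h359.BK (th th_HC th_fp conj_fR)

lemma cXY_cj (r : RR) : cX (cj r) = cX r + cY r ∧ cY (cj r) = -cY r := by
  apply cXY_of
  rw [cj_coe, co r, map_add, map_mul, Run7.h359.BK.conj_al', map_intCast, map_intCast]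
  unfold bl
  push_cast
  ring

lemma nR_cj (r : RR) : nR (cj r) = nR r := by
  unfold nR
  rw [(cXY_cj r).1, (cXY_cj r).2]
  ring

lemma e7_cj (r : RR) : e7 (cj r) = e7 r := by
  unfold e7
  have h : r7 (cj r) = r7 r := by
    rw [r7_apply, r7_apply, (cXY_cj r).1, (cXY_cj r).2]
    push_cast
    have h7 : (7 : ZMod 7) = 0 := by decide
    linear_combination (-(cY r : ZMod 7)) * h7
  rw [h]

/-- conjugation of ideals -/
noncomputable def ci : Ideal RR ≃ Ideal RR where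
  toFun I := Ideal.map cj I
  invFun I := Ideal.map cj I
  left_inv I := by
    obtain ⟨g, rfl⟩ := exists_gen I
    show Ideal.map cj (Ideal.map cj (sp g)) = sp g
    rw [Ideal.map_span, Set.image_singleton, Ideal.map_span, Set.image_singleton, cj_cj]
  right_inv I := by
    obtain ⟨g, rfl⟩ := exists_gen I
    show Ideal.map cj (Ideal.map cj (sp g)) = sp g
    rw [Ideal.map_span, Set.image_singleton, Ideal.map_span, Set.image_singleton, cj_cj]

lemma ci_sp (g : RR) : ci (sp g) = sp (cj g) := by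
  show Ideal.map cj (sp g) = _
  rw [Ideal.map_span, Set.image_singleton]

lemma nm_ci (I : Ideal RR) : nm (ci I) = nm I := by
  have hb := (Pool.Agent.W287.HK.h_basic RR al qr).2.2.2.2.1
  obtain ⟨g, rfl⟩ := exists_gen I
  rw [ci_sp, hb, hb, cj_coe, Complex.normSq_conj]

lemma th_ci (e : ℕ) (S : Finset ℕ) (I : Ideal RR) : th e S (ci I) = (starRingEnd ℂ) (th e S I) := by
  obtain ⟨g, rfl⟩ := exists_gen I
  unfold th
  rw [ci_sp, psi_sp, psi_sp, nI_sp', nI_sp', nR_cj, e7_cj, cj_coe]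
  rw [map_mul, map_pow, map_mul, e7_conj, map_prod]
  congr 1
  exact Finset.prod_congr rfl fun q _ => (qch_conj q _).symm

/-- the modulus -/
noncomputable def mm (S : Finset ℕ) : RR := ((∏ q ∈ S, q : ℕ) : RR) * fR

lemma mm_conj (S : Finset ℕ) : (starRingEnd ℂ) (mm S : ℂ) = -(mm S : ℂ) := by
  unfold mm
  push_cast
  rw [map_mul, map_prod, conj_fR]
  simp

lemma mm_ne {S : Finset ℕ} (hS : ∀ q ∈ S, Gp q) : mm S ≠ 0 := by
  unfold mm
  refine mul_ne_zero ?_ fR_ne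
  have h : (∏ q ∈ S, q : ℕ) ≠ 0 := Finset.prod_ne_zero_iff.2 fun q hq => (hS q hq).pr.ne_zero
  exact_mod_cast h

lemma mm_sq {S : Finset ℕ} : (mm S : ℂ) ^ 2 = -(nm (sp (mm S)) : ℂ) := by
  have hb := (Pool.Agent.W287.HK.h_basic RR al qr).2.2.2.2.1
  rw [hb, ← Complex.mul_conj, mm_conj]
  ring

lemma fp_eq (e : ℕ) (S : Finset ℕ) (α : RR) : fp (2 * e + 1) (th e S) α =
    e7 α * ∏ q ∈ S, qch q (nR α) := by
  have h := th_fp e S α
  have h2 := congrArg (starRingEnd ℂ) h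
  rw [Complex.conj_conj, map_mul, e7_conj, map_prod] at h2
  rw [h2]
  congr 1
  exact Finset.prod_congr rfl fun q _ => qch_conj q _

/-- the Gauss sum -/
noncomputable def gs (S : Finset ℕ) : ℂ :=
  ∑ x ∈ rp (mm S), (e7 x * ∏ q ∈ S, qch q (nR x)) * ez al ((x : ℂ) / (mm S : ℂ))

lemma gT_eq (e : ℕ) (S : Finset ℕ) : gT al (2 * e + 1) (th e S) (mm S) (rp (mm S)) = gs S := by
  unfold gT gs
  exact Finset.sum_congr rfl fun x _ => by rw [fp_eq]

/-- the root number -/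
noncomputable def ws (S : Finset ℕ) : ℂ := gs S * (mm S : ℂ) / (nm (sp (mm S)) : ℂ)

lemma ez_conj (x m : ℂ) : (starRingEnd ℂ) (ez al (x / m)) = ez al (-x / m) := by
  unfold ez
  rw [← Complex.exp_conj]
  congr 1
  rw [map_mul, map_mul, map_mul, Complex.conj_I, Complex.conj_ofReal, Complex.conj_ofReal,
    neg_div, Complex.neg_im]
  rw [show (starRingEnd ℂ) (2 : ℂ) = 2 from Complex.conj_ofNat 2]
  push_cast
  ring

theorem ws_sign {S : Finset ℕ} (hS : ∀ q ∈ S, Gp q) : ws S = 1 ∨ ws S = -1 := by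
  have hbasic := Pool.Agent.W287.HK.h_basic
  have hcls := Pool.Agent.W571.HK.h_cls hbasic
  have hfp := Pool.Agent.W53.HK.h_fp hbasic hcls
  have hgauss := Pool.Agent.W636.HK.h_gauss hbasic hfp
  have hm := mm_ne hS
  have f1 := fin_quot hm
  let _ : Fintype (RR ⧸ sp (mm S)) := Fintype.ofFinite _
  have hSy := Pool.Agent.TH936.PU.sys_pid (R := RR) (q := mm S) f1
  have hθ : HC (2 * 0 + 1) (sp (mm S)) (th 0 S) := th_HC Pool.Agent.Y698.SG.inp.hcs 0 S hS
  have hqt : sp (mm S) ≠ ⊤ := Pool.Agent.W192.HK.HC.ne_top (m := 1) le_rfl hθ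
  obtain ⟨h1, h2⟩ := hgauss RR al qr (2 * 0 + 1) _ _ hθ hqt _ _ _ _ hSy
  have h3 := h2 ⊤ ⊤ (by rw [Ideal.mul_top]) (rp (mm S)) hSy.rp (-1) trivial
  have h5 : ∀ α : RR, fp (2 * 0 + 1) (th 0 S) α = e7 α * ∏ q ∈ S, qch q (nR α) := fp_eq 0 S
  have hf1 : (starRingEnd ℂ) (fp (2 * 0 + 1) (th 0 S) (-1)) = -1 := by
    have hn : nR (-1 : RR) = 1 := by
      have : nR (-1 : RR) = nR (1 : RR) := by
        unfold nR
        rw [(Pool.Agent.Y698.cXY_neg 1).1, (Pool.Agent.Y698.cXY_neg 1).2]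
        ring
      rw [this]
      unfold nR
      rw [Pool.Agent.Y698.cXY_one.1, Pool.Agent.Y698.cXY_one.2]
      norm_num
    rw [h5, hn, e7_neg, e7_one]
    have : ∏ q ∈ S, qch q 1 = 1 := Finset.prod_eq_one fun q _ => Pool.Agent.Y698.qch_one q
    rw [this]
    simp
  rw [hf1, gT_eq] at h3
  rw [gT_eq] at h1
  have h4 : (starRingEnd ℂ) (gs S) = -gs S := by
    rw [← neg_one_mul, ← h3]
    unfold gs
    rw [map_sum]
    refine Finset.sum_congr rfl fun x _ => ?_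
    rw [map_mul, ez_conj, map_mul, e7_conj, map_prod, h5]
    congr 2
    · exact Finset.prod_congr rfl fun q _ => qch_conj q _
    · congr 1
      push_cast
      ring
  have hnm : (nm (sp (mm S)) : ℂ) ≠ 0 := by
    have hb3 := (hbasic RR al qr).2.2.1 (sp (mm S)) hθ.ne
    have : nm (sp (mm S)) ≠ 0 := by linarith
    exact_mod_cast this
  have hg2 : gs S * gs S = -(nm (sp (mm S)) : ℂ) := by
    have h6 : gs S * (starRingEnd ℂ) (gs S) = (nm (sp (mm S)) : ℂ) := by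
      rw [Complex.mul_conj, Complex.normSq_eq_norm_sq, h1]
    rw [h4] at h6
    linear_combination -h6
  have h7 : ws S ^ 2 = 1 := by
    unfold ws
    rw [div_pow, mul_pow, mm_sq, pow_two (gs S), hg2, neg_mul_neg]
    field_simp
  have h8 : (ws S - 1) * (ws S + 1) = 0 := by linear_combination h7
  rcases mul_eq_zero.1 h8 with h | h
  · exact Or.inl (sub_eq_zero.1 h)
  · exact Or.inr (eq_neg_of_add_eq_zero_left h)

/-- the functional equation at the central point -/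
theorem afe_sym (e : ℕ) {S : Finset ℕ} (hS : ∀ q ∈ S, Gp q) :
    ∃ F : ℂ → ℂ, Differentiable ℂ F ∧
    (∀ z : ℂ, ((e + 1 : ℕ) : ℝ) + 1 / 2 < z.re →
      HasSum (fun I : Ideal RR => th e S I * (nm I : ℂ) ^ (-z)) (F z)) ∧
    ∃ A : ℂ, F ((e + 1 : ℕ) : ℂ) = (1 + (-1) ^ e * ws S) * A := by
  have hbasic := Pool.Agent.W287.HK.h_basic
  have hcls := Pool.Agent.W571.HK.h_cls hbasic
  have hfp := Pool.Agent.W53.HK.h_fp hbasic hcls
  have hfpr := Pool.Agent.W366.HK.h_fpr hbasic hcls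
  have hlat := Pool.Agent.W585.HK.h_lat hbasic
  have hker := Pool.Agent.W692.HK.h_ker hbasic hcls hfpr
  have hcnt := Pool.Agent.W584.HK.h_cnt hbasic hcls hfpr hlat hker
  have hdec := Pool.Agent.W856.HK.h_dec hbasic
  have hgauss := Pool.Agent.W636.HK.h_gauss hbasic hfp
  have hpois := Pool.Agent.W348.HK.h_pois hbasic
  have htheta := Pool.Agent.TH936.HK.h_theta hbasic hfp hdec hgauss hpois hcnt
  have hafe := Pool.Agent.TH936.HK.h_afe hbasic hfp hcnt hgauss htheta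
  have hm := mm_ne hS
  have f1 := fin_quot hm
  let _ : Fintype (RR ⧸ sp (mm S)) := Fintype.ofFinite _
  have hSy := Pool.Agent.TH936.PU.sys_pid (R := RR) (q := mm S) f1
  have hθ : HC (2 * e + 1) (sp (mm S)) (th e S) := th_HC Pool.Agent.Y698.SG.inp.hcs e S hS
  have hθ' : HC (2 * (e + 1) - 1) (sp (mm S)) (th e S) := hθ
  obtain ⟨F, g1, g2, g3⟩ := hafe RR al qr (e + 1) (Nat.succ_le_succ (Nat.zero_le _)) _ _ hθ' _ _ _
    _ hSy
  refine ⟨F, g1, g2, ?_⟩
  have hb3 := (hbasic RR al qr).2.2.1 (sp (mm S)) hθ.ne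
  have hN : 0 < nm (sp (mm S)) := by linarith
  have hNc : (nm (sp (mm S)) : ℂ) ≠ 0 := by exact_mod_cast hN.ne'
  set X : ℝ := Real.sqrt (al.im ^ 2 * nm (sp (mm S)) / Real.pi ^ 2) with hX
  have hal := qr.im
  have hpi := Real.pi_pos
  have hXp : 0 < al.im ^ 2 * nm (sp (mm S)) / Real.pi ^ 2 := by positivity
  have h1 := g3 X X (Real.sqrt_pos.2 hXp) (Real.sqrt_pos.2 hXp) (Real.mul_self_sqrt hXp.le)
  refine ⟨∑' I : Ideal RR, th e S I / (nm I : ℂ) ^ (e + 1) * (Vk (e + 1) (nm I / X) : ℂ), ?_⟩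
  have h2 : ∑' I : Ideal RR, (starRingEnd ℂ) (th e S I) / (nm I : ℂ) ^ (e + 1) *
      (Vk (e + 1) (nm I / X) : ℂ) =
      ∑' I : Ideal RR, th e S I / (nm I : ℂ) ^ (e + 1) * (Vk (e + 1) (nm I / X) : ℂ) := by
    rw [← Equiv.tsum_eq ci (fun I => th e S I / (nm I : ℂ) ^ (e + 1) *
      (Vk (e + 1) (nm I / X) : ℂ))]
    exact tsum_congr fun I => by rw [th_ci, nm_ci]
  have h3 : Wc al (e + 1) (sp (mm S)) ⊤ (mm S) (rp (mm S)) (th e S) = (-1) ^ e * ws S := by
    unfold Wc ws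
    have e1 : 2 * (e + 1) - 1 = 2 * e + 1 := rfl
    rw [e1, gT_eq, hθ.top, mul_one, pow_succ, pow_mul, mm_sq, neg_pow (nm (sp (mm S)) : ℂ) e,
      pow_succ]
    field_simp
  rw [h1, h2, h3]
  ring

end Run7.h359.FS
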