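import Pool.Agent.Run7.h359.Hke

/-!
# The valuations of the central values of higher weight
-/

set_option autoImplicit false
set_option linter.unusedSectionVars false

open Filter
open scoped Topology PeriodPair

namespace Run7.h359.BK

open H667R3 Pool.Agent.TH936.CW Pool.Agent.TH936.CM
open Pool.Agent.W192.HK (sp HC fp nm)
open Pool.Agent.TH936.PU (coe_ne v_add_le v_sub_le v_mul_le v_mul_lt')
open Pool.Agent.Y698 (al bl RR aR bR tA tB al_ne bl_ne al_mul_bl al_sq tA_mem tB_mem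
  LD aR_coe bR_coe qr fin_quot fR fR_ne e7 e7_mul e7_per e7_neg e7_eq_zero nu_eq psi psi_sp
  psi_HC exists_gen maximal_sp irr_fR e7_one e7_sq e7_conj not_coprime_iff nI nI_sp qch nR nI_sp'
  qch_conj not_mem_of_cop v_two v_bl v_two_lt v_fR val_one Inq exists_LD exists_vs)
open Pool.Agent.Y698.SG (Fam PD sy tr hc Mu Bg Gd Gp Spl Inp mat pf ix fam exists_cho prod_pf
  prod_sy gd_ne card_ix disj_QP)

variable {L : PeriodPair} {Ω : ℂ} {Γ : Type*} [LinearOrderedCommGroupWithZero Γ]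
  {v : Valuation ℂ Γ}

lemma v_lam_al (hv : v al < 1) (e : ℕ) : v (lam e al) = v 2 ^ (e + 1) := by
  rw [lam_eq, conj_al', map_mul, map_pow, map_pow, map_inv₀, v_bl hv, inv_one, one_pow, one_mul,
    v_two hv]

lemma v_fac_two (hv : v al < 1) (j : ℕ) : v (2 - lam (2 * (j + 1)) al * 1) = v 2 := by
  rw [mul_one, Valuation.map_sub_eq_of_lt_left v]
  rw [v_lam_al hv]
  have h2 : 0 < v 2 := zero_lt_iff.2 ((Valuation.ne_zero_iff v).2 two_ne_zero)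
  have h3 : v 2 ^ (2 * (j + 1)) < 1 := pow_lt_one₀ zero_le (v_two_lt hv) (by omega)
  rw [pow_succ]
  calc v 2 ^ (2 * (j + 1)) * v 2 < 1 * v 2 := mul_lt_mul_of_pos_right h3 h2
    _ = v 2 := one_mul _

lemma nR_aR : nR aR = 2 := by
  unfold nR
  have h2 : Pool.Agent.Y698.cX aR = 0 ∧ Pool.Agent.Y698.cY aR = 1 := Pool.Agent.Y698.cXY_aR
  rw [h2.1, h2.2]
  norm_num

lemma nR_bR : nR bR = 2 := by
  have h : Pool.Agent.Y698.cX bR = 1 ∧ Pool.Agent.Y698.cY bR = -1 := by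
    apply Pool.Agent.Y698.cXY_of
    rw [bR_coe]
    unfold bl
    push_cast
    ring
  unfold nR
  rw [h.1, h.2]
  norm_num

lemma conj_fR : (starRingEnd ℂ) (fR : ℂ) = -(fR : ℂ) := by
  have h1 : fR = 2 * aR - 1 := rfl
  have h2 : (fR : ℂ) = 2 * al - 1 := by
    rw [h1]
    push_cast
    rw [aR_coe, Pool.Agent.Y698.two_coe]
  rw [h2, map_sub, map_mul, map_one, conj_al']
  have e2 : bl = 1 - al := rfl
  have e3 : (starRingEnd ℂ) (2 : ℂ) = 2 := Complex.conj_ofNat 2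
  rw [e2, e3]
  ring

/-- the algebraic part of the central value -/
noncomputable def Lal (e : ℕ) (Ω q X : ℂ) : ℂ :=
  (e.factorial : ℂ) * q ^ e * (starRingEnd ℂ) Ω ^ e * Ω⁻¹ ^ (e + 1) * (starRingEnd ℂ) X

/-- **The valuation of the central values of higher weight.** -/
theorem val_high (hin : Inp) {Q P : Finset ℕ} (hQ : ∀ q ∈ Q, Inq q) (hP : ∀ p ∈ P, Spl p)
    (hdet : (mat Q P).det ≠ 0) (h2 : ∏ q ∈ Q ∪ P, qch q 2 = 1) (j : ℕ) :
    ∃ F : ℂ → ℂ, Differentiable ℂ F ∧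
    (∀ z : ℂ, ((2 * (j + 1) + 1 : ℕ) : ℝ) + 1 / 2 < z.re →
      HasSum (fun I : Ideal RR => th (2 * (j + 1)) (Q ∪ P) I * (nm I : ℂ) ^ (-z)) (F z)) ∧
    ∀ (Γ : Type) [LinearOrderedCommGroupWithZero Γ] (v : Valuation ℂ Γ) (L : PeriodPair)
      (Ω p q : ℂ), LD L Ω → (∀ l ∈ L.lattice, eta L l = p * l + q * (starRingEnd ℂ) l) →
      v al < 1 → v (Lal (2 * (j + 1)) Ω q (F ((2 * (j + 1) + 1 : ℕ) : ℂ))) =
        v 2 ^ (Q.card + 2 * P.card + 1) := by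
  classical
  have hS : ∀ q ∈ Q ∪ P, Gp q := by
    intro q hq
    rcases Finset.mem_union.1 hq with h | h
    · exact Gp.of_inq (hQ q h)
    · exact Gp.of_spl (hP q h)
  obtain ⟨ϖ, hc⟩ := exists_cho hin.pi hP
  have hfam := fam hin.pd1 hin.pd2 hQ hP hc
  have hmul := Mu_wA hfam (Finset.Subset.refl _) aR
  set m := mA (pf Q ϖ) (ix Q P) with hm
  set w := wA (pf Q ϖ) (ix Q P) with hw
  have hmo : Mo m := Fam.mo hfam (Finset.Subset.refl _)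
  have hm1 : m = ((∏ q ∈ Q ∪ P, q : ℕ) : RR) * fR := by
    rw [hm]
    unfold mA
    rw [prod_pf hQ hP hc]
  have hw1 : ∀ x, w x = e7 x * ∏ q ∈ Q ∪ P, qch q (nR x) := by
    intro x
    rw [hw]
    unfold wA sA
    rw [prod_sy hin.pd1 hin.pd2 hQ hP hc x]
  have hWe : We m w := wA_we (π := pf Q ϖ) (ix Q P)
  have hθ := th_HC hin.hcs (2 * (j + 1)) (Q ∪ P) hS
  rw [← hm1] at hθ
  have hsa : sA (pf Q ϖ) (ix Q P) aR = 1 := by
    unfold sA
    rw [prod_sy hin.pd1 hin.pd2 hQ hP hc, nR_aR]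
    exact h2
  have hsb : sA (pf Q ϖ) (ix Q P) bR = 1 := by
    unfold sA
    rw [prod_sy hin.pd1 hin.pd2 hQ hP hc, nR_bR]
    exact h2
  rw [e7_aR, one_mul, hsa] at hmul
  have hbd : ∀ x, ‖w x‖ ≤ 1 := by
    intro x
    rw [hw1, norm_mul, norm_prod]
    refine mul_le_one₀ (Pool.Agent.Y698.e7_Eo.bd x) (Finset.prod_nonneg fun _ _ => norm_nonneg _)
      (Finset.prod_le_one (fun _ _ => norm_nonneg _) fun q hq => ?_)
    rcases Pool.Agent.Y698.qch_val (hS q hq).pr (nR x) with h | ⟨-, h | h⟩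
    · rw [h.2, norm_zero]
      exact zero_le_one
    · rw [h, norm_one]
    · rw [h, norm_neg, norm_one]
  obtain ⟨F, g1, g2, g3⟩ := val_K hmo.ne hθ hWe.per hbd (fun α => by rw [th_fp, hw1])
  refine ⟨F, g1, g2, ?_⟩
  intro Γ _ v L Ω p q hL hpq hv
  have f1 := fin_quot fR_ne
  let _ : Fintype (RR ⧸ sp fR) := Fintype.ofFinite _
  obtain ⟨F0, -, -, k3⟩ := val_one
  have hT := k3 L Ω hL.lat
  have h3 := v_SE hin.rec' hL hv hpq hT (hL.v_T hv hT) hfam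
    (gd_ne hin.ns1 hin.pd1 hin.pd2 hin.rc hQ hP hc hdet) hsa hsb j
  have h4 := Sn_TK hL.lat hpq (2 * (j + 1)) hmo hWe (one_pow 2) hmul (g3 L Ω hL.lat)
  have h5 : SE L Ω p q (pf Q ϖ) (2 * (j + 1)) (ix Q P) = Sn L Ω p q (2 * (j + 1)) m w := rfl
  rw [h5, h4, card_ix (disj_QP hQ hP)] at h3
  set e := 2 * (j + 1) with he
  have hΩ := hL.lat.ne
  have hcΩ : (starRingEnd ℂ) Ω ≠ 0 := (map_ne_zero _).2 hΩ
  have hm0 : (m : ℂ) ≠ 0 := coe_ne hmo.ne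
  have hcm : (starRingEnd ℂ) (m : ℂ) = -(m : ℂ) := by
    rw [hm1]
    push_cast
    rw [map_mul, map_prod, conj_fR]
    simp
  have hvN : v (((∏ q ∈ Q ∪ P, q : ℕ)) : ℂ) = 1 :=
    Pool.Agent.Y698.v_odd (Pool.Agent.Y698.SG.Gn.prod' hS).odd (v_two_lt hv)
  have hvm : v (m : ℂ) = 1 := by
    have e1 : (m : ℂ) = ((∏ q ∈ Q ∪ P, q : ℕ) : ℂ) * (fR : ℂ) := by
      rw [hm1]
      push_cast
      rfl
    rw [e1, map_mul, hvN, v_fR hv, mul_one]
  have hk : (kq e Ω m)⁻¹ = (starRingEnd ℂ) Ω ^ e * Ω⁻¹ ^ (e + 1) *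
      ((m : ℂ) ^ (e + 1) * ((starRingEnd ℂ) (m : ℂ))⁻¹ ^ e) := by
    have hcm0 : (starRingEnd ℂ) (m : ℂ) ≠ 0 := (map_ne_zero _).2 hm0
    unfold kq gg
    rw [map_div₀]
    simp only [div_pow, inv_pow, mul_inv, inv_div]
    field_simp
  have hvc : v ((m : ℂ) ^ (e + 1) * ((starRingEnd ℂ) (m : ℂ))⁻¹ ^ e) = 1 := by
    rw [hcm, map_mul, map_pow, map_pow, map_inv₀, Valuation.map_neg, hvm, inv_one, one_pow,
      one_pow, one_mul]
  have hfac := v_fac_two hv j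
  rw [← he] at hfac
  have h20 : v 2 ≠ 0 := (Valuation.ne_zero_iff v).2 two_ne_zero
  have hal : v al = v 2 := (v_two hv).symm
  have hbl : v bl = 1 := v_bl hv
  rw [hk] at h3
  have h6 : Ce q e * ((2 - lam e al * 1) * ((starRingEnd ℂ) Ω ^ e * Ω⁻¹ ^ (e + 1) *
      ((m : ℂ) ^ (e + 1) * ((starRingEnd ℂ) (m : ℂ))⁻¹ ^ e) *
        (2 * (starRingEnd ℂ) (F ((e + 1 : ℕ) : ℂ))))) =
      (bl ^ e / al) * 2 * (2 - lam e al * 1) * ((m : ℂ) ^ (e + 1) *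
        ((starRingEnd ℂ) (m : ℂ))⁻¹ ^ e) * Lal e Ω q (F ((e + 1 : ℕ) : ℂ)) := by
    unfold Ce Lal
    ring
  rw [h6, map_mul, map_mul, map_mul, map_mul, map_div₀, map_pow, hvc, hfac, hal, hbl, one_pow,
    mul_one, one_div, inv_mul_cancel₀ h20, one_mul] at h3
  have h7 : v 2 ^ (Q.card + 2 * P.card + 2) = v 2 * v 2 ^ (Q.card + 2 * P.card + 1) := by
    rw [← pow_succ']
  rw [h7] at h3
  exact mul_left_cancel₀ h20 h3

/-- **The central values of higher weight do not vanish.** -/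
theorem ne_high (hin : Inp) {Q P : Finset ℕ} (hQ : ∀ q ∈ Q, Inq q) (hP : ∀ p ∈ P, Spl p)
    (hdet : (mat Q P).det ≠ 0) (h2 : ∏ q ∈ Q ∪ P, qch q 2 = 1) (j : ℕ) :
    ∃ F : ℂ → ℂ, Differentiable ℂ F ∧
    (∀ z : ℂ, ((2 * (j + 1) + 1 : ℕ) : ℝ) + 1 / 2 < z.re →
      HasSum (fun I : Ideal RR => th (2 * (j + 1)) (Q ∪ P) I * (nm I : ℂ) ^ (-z)) (F z)) ∧
    F ((2 * (j + 1) + 1 : ℕ) : ℂ) ≠ 0 := by
  obtain ⟨F, g1, g2, g3⟩ := val_high hin hQ hP hdet h2 j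
  refine ⟨F, g1, g2, fun h0 => ?_⟩
  obtain ⟨L, Ω, h⟩ := exists_LD
  have hirrA : Irreducible aR := Pool.Agent.Y698.irr_of_prime_norm (by rw [nR_aR]; norm_num)
  have hp : (sp aR).IsPrime := (maximal_sp hirrA).isPrime
  obtain ⟨B, hB⟩ := exists_vs (sp aR)
  have h1 := hB aR (Ideal.mem_span_singleton_self _)
  rw [aR_coe] at h1
  obtain ⟨p, q, hpq⟩ := exists_pq (L := L)
  have h3 := g3 _ B.valuation L Ω p q h hpq h1
  rw [h0] at h3
  unfold Lal at h3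
  rw [map_zero, mul_zero, map_zero] at h3
  exact pow_ne_zero _ ((Valuation.ne_zero_iff B.valuation).2 two_ne_zero) h3.symm

end Run7.h359.BK
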