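import Pool.Agent.Run7.h359.Wal

/-!
# The Selmer groups of all the characters `κ ^ a κ' ^ b`, `a + b` odd, for both signs of the twist

After `Pool/Agent/R384/X/Main7`, `Mq7` (starting files), where `a + b = 1` and the sign is `+`.
-/

set_option autoImplicit false
set_option linter.unusedSectionVars false

namespace Run7.h359.GA

open Pool.Agent.R384
open Pool.Agent.Y715.Red Pool.Agent.Y715.Nr Pool.Agent.W237.RK
open Pool.Agent.Y715.Gi (QB KK GK i₀_mem gk_fix)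
open Pool.Agent.Y715.Df (Cmp exists_cmp)
open Pool.Agent.Y715.Lc (norm_two_odd)

variable {i₀ : QB} (hi : i₀ ^ 2 = i₀ - 2)

section

variable {κ κ' : GK i₀ →* ℤ_[2]ˣ} {D : OO} {r I : QB}

lemma neg_zpow_odd {c : ℤ} (hc : Odd c) : (-1 : ℤ_[2]ˣ) ^ c = -1 := by
  obtain ⟨t, rfl⟩ := hc
  rw [zpow_add, zpow_even (neg_one_sq), one_mul, zpow_one]

/-- the parity of the character -/
theorem chiD_ab (kd : KD hi κ κ' D r I) {a b : ℤ} (hab : Odd (a + b)) :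
    ∃ (m : OO) (s : QB), ((Even a ∧ m = D) ∨ (Odd a ∧ m = -D)) ∧
      ChiD hi (κ ^ a * κ' ^ b) m s := by
  have hap : ∀ σ, (κ ^ a * κ' ^ b : GK i₀ →* ℤ_[2]ˣ) σ = (κ σ) ^ a * (κ' σ) ^ b :=
    fun σ => rfl
  have hcont : Continuous (κ ^ a * κ' ^ b : GK i₀ →* ℤ_[2]ˣ) := by
    have h1 : Continuous fun σ => (κ σ) ^ a * (κ' σ) ^ b :=
      (kd.cont.zpow a).mul (kd.cont'.zpow b)
    exact h1
  have hinert : ∀ (p : ℕ) [Fact p.Prime] (ι : QB →ₐ[ℚ] PadicAlgCl p) (τ : Au p) (σ : GK i₀),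
      p ≠ 2 → Cmp ι τ σ → Inert τ → (σ r = r → (κ ^ a * κ' ^ b : GK i₀ →* ℤ_[2]ˣ) σ = 1) ∧
        (σ r = -r → (κ ^ a * κ' ^ b : GK i₀ →* ℤ_[2]ˣ) σ = -1) := by
    intro p _ ι τ σ hp hc hin
    obtain ⟨n1, n2⟩ := norm_w_odd hi hp ι
    have hσI := kd.fixI hi hp hc hin
    have a1 := kd.inert p ι τ σ hc hin n1
    have a2 := kd.inert' p ι τ σ hc hin n2
    rw [hap]
    constructor
    · intro h
      rw [a1.1 (by rw [map_mul, hσI, h]), a2.1 h, one_zpow, one_zpow, one_mul]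
    · intro h
      rw [a1.2 (by rw [map_mul, hσI, h, mul_neg]), a2.2 h, ← zpow_add, neg_zpow_odd hab]
  rcases Int.even_or_odd a with ha | ha
  · have hb : Odd b := by
      rcases Int.even_or_odd b with hb | hb
      · exact absurd (ha.add hb) (Int.not_even_iff_odd.2 hab)
      · exact hb
    have hph : ∀ σ, ph ((κ ^ a * κ' ^ b : GK i₀ →* ℤ_[2]ˣ) σ) = ph (κ' σ) := by
      obtain ⟨k, hk⟩ := ha
      obtain ⟨l, hl⟩ := hb
      have hk' : a = 2 * k := by omega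
      intro σ
      rw [hap, map_mul, map_zpow, map_zpow, hk', zpow_even (sq_four _), one_mul, hl, zpow_add,
        zpow_even (sq_four _), zpow_one, one_mul]
    refine ⟨D, r, Or.inl ⟨ha, rfl⟩, hcont, kd.hr, ?_, ?_, hinert⟩
    · intro σ h
      rw [← ph_one, hph]
      exact kd.one' σ h
    · intro σ h
      rw [← ph_neg, hph]
      exact kd.neg' σ h
  · have hb : Even b := by
      rcases Int.even_or_odd b with hb | hb
      · exact hb
      · exact absurd (ha.add_odd hb) (Int.not_even_iff_odd.2 hab)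
    have hph : ∀ σ, ph ((κ ^ a * κ' ^ b : GK i₀ →* ℤ_[2]ˣ) σ) = ph (κ σ) := by
      obtain ⟨k, hk⟩ := ha
      obtain ⟨l, hl⟩ := hb
      have hl' : b = 2 * l := by omega
      intro σ
      rw [hap, map_mul, map_zpow, map_zpow, hl', zpow_even (sq_four _), mul_one, hk, zpow_add,
        zpow_even (sq_four _), zpow_one, one_mul]
    refine ⟨-D, I * r, Or.inr ⟨ha, rfl⟩, hcont, ?_, ?_, ?_, ?_⟩
    · rw [mul_pow, kd.hI, kd.hr, map_neg]
      ring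
    · intro σ h
      rw [← ph_one, hph]
      exact kd.one σ h
    · intro σ h
      rw [← ph_neg, hph]
      exact kd.neg σ h
    · intro p _ ι τ σ hp hc hin
      have hσI := kd.fixI hi hp hc hin
      have hI0 : I ≠ 0 := by
        rintro h0
        have := kd.hI
        rw [h0] at this
        norm_num at this
      obtain ⟨a1, a2⟩ := hinert p ι τ σ hp hc hin
      constructor
      · intro h
        apply a1
        rw [map_mul, hσI] at h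
        exact mul_left_cancel₀ hI0 h
      · intro h
        apply a2
        rw [map_mul, hσI, ← mul_neg] at h
        exact mul_left_cancel₀ hI0 h

/-- **The vanishing theorem** for the curve `E_D`, `D = ∓ √-7 ∏ q_i`, and the character
`κ ^ a κ' ^ b`. -/
theorem vanish_ab {n : ℕ} {q : Fin n → OO} (hq : ∀ i, Pr (q i)) (hinj : Function.Injective q)
    (h8 : (8 : OO) ∣ ∏ i, q i - 1) (hind : Indec7 q)
    (kd : KD hi κ κ' D r I) {a b : ℤ} (hab : Odd (a + b)) {ϖ ϖ' : OO}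
    (hϖ : (((Odd a ∧ D = s7 * ∏ i, q i) ∨ (Even a ∧ D = -(s7 * ∏ i, q i))) ∧ ϖ = om ∧ ϖ' = 1 - om) ∨
      (((Odd a ∧ D = -(s7 * ∏ i, q i)) ∨ (Even a ∧ D = s7 * ∏ i, q i)) ∧ ϖ = 1 - om ∧ ϖ' = om))
    {c : GK i₀ → ℚ_[2]} (hc : Coc (κ ^ a * κ' ^ b) c)
    (hodd : ∀ (p : ℕ) [Fact p.Prime] (ι : QB →ₐ[ℚ] PadicAlgCl p), p ≠ 2 →
      CobOn (κ ^ a * κ' ^ b) (II ι) c)
    (hstr : ∀ ι : QB →ₐ[ℚ] PadicAlgCl 2, ‖ι (em hi ϖ)‖ < 1 →
      CobOn (κ ^ a * κ' ^ b) (DD ι) c) :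
    ∃ y : ℚ_[2], ∀ σ, c σ = (vl (κ ^ a * κ' ^ b) σ - 1) * y := by
  obtain ⟨m, s, hm, cd⟩ := chiD_ab hi kd hab
  rcases hϖ with ⟨hj, h1, h2⟩ | ⟨hj, h1, h2⟩
  · have hm' : m = -(s7 * ∏ i, q i) := by
      rcases hm with ⟨h, e⟩ | ⟨h, e⟩ <;> rcases hj with ⟨h', e'⟩ | ⟨h', e'⟩
      · exact absurd h (Int.not_even_iff_odd.2 h')
      · rw [e, e']
      · rw [e, e']
      · exact absurd h' (Int.not_even_iff_odd.2 h)
    refine main7 hi hq hinj h8 hind (v := -1) (Or.inr rfl) (by rw [hm']; ring) cd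
      (Or.inl ⟨h1, h2⟩) (fun ι hι => ?_) hc hodd hstr
    rw [h1] at hι
    rw [hm']
    exact (s7_five hi h8).1 hι
  · have hm' : m = s7 * ∏ i, q i := by
      rcases hm with ⟨h, e⟩ | ⟨h, e⟩ <;> rcases hj with ⟨h', e'⟩ | ⟨h', e'⟩
      · exact absurd h (Int.not_even_iff_odd.2 h')
      · rw [e, e']
      · rw [e, e', neg_neg]
      · exact absurd h' (Int.not_even_iff_odd.2 h)
    refine main7 hi hq hinj h8 hind (v := 1) (Or.inl rfl) (by rw [hm']; ring) cd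
      (Or.inr ⟨h1, h2⟩) (fun ι hι => ?_) hc hodd hstr
    rw [h1] at hι
    rw [hm']
    exact (s7_five hi h8).2 hι

variable {n : ℕ} {s : Fin n → QB}

/-- **The vanishing theorem over multiquadratic fields.** -/
theorem vanish_mq_ab {E : Fin n → OO} (hE : ∀ i, s i ^ 2 = em hi (E i)) (kd : KD hi κ κ' D r I)
    (hD : D ≠ 0) (hE0 : ∀ i, E i ≠ 0) {u : OO} (hu : u = 1 ∨ u = -1)
    (hgood : ∀ T : Finset (Fin n), ∃ (m : ℕ) (q : Fin m → OO) (z : OO), (∀ i, Pr (q i)) ∧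
      Function.Injective q ∧ (8 : OO) ∣ ∏ i, q i - 1 ∧ Indec7 q ∧ z ≠ 0 ∧
      D * ∏ i ∈ T, E i = u * (s7 * ∏ i, q i) * z ^ 2) {a b : ℤ} (hab : Odd (a + b)) {ϖ ϖ' : OO}
    (hϖ : (((Odd a ∧ u = 1) ∨ (Even a ∧ u = -1)) ∧ ϖ = om ∧ ϖ' = 1 - om) ∨
      (((Odd a ∧ u = -1) ∨ (Even a ∧ u = 1)) ∧ ϖ = 1 - om ∧ ϖ' = om)) :
    VanOn hi ϖ (κ ^ a * κ' ^ b) (fixs s Finset.univ) := by
  classical
  have hs0 : ∀ i, s i ≠ 0 := by
    intro i h
    have h1 := hE i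
    rw [h, zero_pow two_ne_zero] at h1
    exact hE0 i (em_inj hi h1.symm)
  have hs : ∀ (i) (σ : GK i₀), σ (s i) = s i ∨ σ (s i) = -s i := fun i σ => rt_or hi (hE i) σ
  refine van_all hi hs0 hs ϖ Finset.univ _ fun T _ => ?_
  obtain ⟨m, q, z, hq, hinj, h8, hind, hz, hprod⟩ := hgood T
  have kd1 := KD.twists hi hs0 hs hE kd hD hE0 T
  have hz0 : em hi z ≠ 0 := em_ne hi hz
  have kd2 := KD.resc hi kd1 (D' := u * (s7 * ∏ i, q i)) (u := (em hi z)⁻¹) (inv_ne_zero hz0)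
    (fun σ => by rw [map_inv₀, gk_em]) (by
      rw [mul_pow, kd1.hr, hprod, map_mul, map_pow]
      field_simp)
  set S := ∏ i ∈ T, sgc (es (hs0 i) (hs i)) with hS
  have hS2 : ∀ σ, (S σ) ^ 2 = 1 := by
    intro σ
    rw [hS, MonoidHom.finsetProd_apply, ← Finset.prod_pow]
    refine Finset.prod_eq_one fun i _ => ?_
    unfold sgc
    rw [MonoidHom.comp_apply, ← map_pow, Int.units_sq, map_one]
  have e : κ ^ a * κ' ^ b * S = (κ * S) ^ a * (κ' * S) ^ b := by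
    refine MonoidHom.ext fun σ => ?_
    have key : (κ σ) ^ a * (κ' σ) ^ b * S σ = (κ σ * S σ) ^ a * (κ' σ * S σ) ^ b := by
      have h1 : (S σ) ^ (a + b) = S σ := by
        obtain ⟨t, ht⟩ := hab
        rw [ht, zpow_add, zpow_even (hS2 σ), one_mul, zpow_one]
      rw [mul_zpow, mul_zpow, mul_mul_mul_comm, ← zpow_add, h1]
    exact key
  intro c hc hodd hstr
  rw [e] at hc hodd hstr ⊢
  obtain ⟨y, hy⟩ := vanish_ab hi hq hinj h8 hind kd2 hab (ϖ := ϖ) (ϖ' := ϖ') (by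
      rcases hϖ with ⟨h | h, h1⟩ | ⟨h | h, h1⟩
      · exact Or.inl ⟨Or.inl ⟨h.1, by rw [h.2, one_mul]⟩, h1⟩
      · exact Or.inl ⟨Or.inr ⟨h.1, by rw [h.2, neg_one_mul]⟩, h1⟩
      · exact Or.inr ⟨Or.inl ⟨h.1, by rw [h.2, neg_one_mul]⟩, h1⟩
      · exact Or.inr ⟨Or.inr ⟨h.1, by rw [h.2, one_mul]⟩, h1⟩)
    (c := c) ⟨by
      have := hc.cont
      rwa [Subgroup.coe_top, continuousOn_univ] at this, fun σ τ => hc.mul σ trivial τ trivial⟩
    (fun p _ ι hp => by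
      obtain ⟨y, hy⟩ := hodd p ι hp
      exact ⟨y, fun σ hσ => hy σ hσ trivial⟩)
    (fun ι hι => by
      obtain ⟨y, hy⟩ := hstr ι hι
      exact ⟨y, fun σ hσ => hy σ hσ trivial⟩)
  exact ⟨y, fun σ _ => hy σ⟩

end

end Run7.h359.GA
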