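import Pool.Agent.Run7.h359.Lvl
import Pool.Agent.Y698.SG.Wc

/-!
# The Hecke characters of higher weight
-/

set_option autoImplicit false
set_option linter.unusedSectionVars false

open Filter
open scoped Topology PeriodPair

namespace Run7.h359.BK

open H667R3 Pool.Agent.TH936.CW Pool.Agent.TH936.CM
open Pool.Agent.W192.HK (sp HC fp nm)
open Pool.Agent.TH936.PU (coe_ne v_add_le v_sub_le v_mul_le)
open Pool.Agent.Y698 (al bl RR aR bR tA tB al_ne bl_ne al_mul_bl al_sq tA_mem tB_mem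
  LD aR_coe bR_coe qr fin_quot fR fR_ne e7 e7_mul e7_per e7_neg e7_eq_zero nu_eq psi psi_sp
  psi_HC exists_gen maximal_sp irr_fR e7_one e7_sq e7_conj not_coprime_iff nI nI_sp qch nR nI_sp'
  qch_conj not_mem_of_cop)
open Pool.Agent.Y698.SG (Fam PD sy tr hc Mu Bg Gd Gp)

/-- odd powers of a sign -/
lemma sgn_pow_odd {z : ℂ} (h : z = 0 ∨ z ^ 2 = 1) (n : ℕ) : z ^ (2 * n + 1) = z := by
  rcases h with rfl | h
  · exact zero_pow (Nat.succ_ne_zero _)
  · rw [pow_succ, pow_mul, h, one_pow, one_mul]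

lemma e7_pow (x : RR) (n : ℕ) : e7 x ^ (2 * n + 1) = e7 x := by
  refine sgn_pow_odd ?_ n
  by_cases h : x ∈ sp fR
  · exact Or.inl (e7_eq_zero.2 h)
  · exact Or.inr (e7_sq h)

/-- the powers of the character -/
theorem psi_pow_HC (e : ℕ) : HC (2 * e + 1) (sp fR) (fun I => psi I ^ (2 * e + 1)) := by
  have h := psi_HC
  refine ⟨h.ne, ?_, ?_, ?_, ?_⟩
  · intro I J
    show psi (I * J) ^ (2 * e + 1) = psi I ^ (2 * e + 1) * psi J ^ (2 * e + 1)
    rw [h.mul, mul_pow]
  · intro I
    show psi I ^ (2 * e + 1) = 0 ↔ _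
    rw [pow_eq_zero_iff (Nat.succ_ne_zero _)]
    exact h.zero I
  · intro α h1 h2
    show psi (sp α) ^ (2 * e + 1) = _
    rw [h.princ α h1 h2, pow_one]
  · intro q' hq'
    have htop : q' = ⊤ := (maximal_sp irr_fR).out.2 _ hq'
    refine ⟨-1, by norm_num, by rw [htop]; trivial, ?_, ?_⟩
    · rw [Ideal.isCoprime_span_singleton_iff]
      exact ⟨-1, 0, by ring⟩
    · show psi (sp (-1)) ^ (2 * e + 1) ≠ _
      rw [psi_sp, e7_neg, e7_one]
      push_cast
      rw [neg_mul_neg, one_mul, one_pow, Odd.neg_one_pow ⟨e, rfl⟩]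
      norm_num

/-- the twisted characters -/
noncomputable def th (e : ℕ) (S : Finset ℕ) (I : Ideal RR) : ℂ :=
  psi I ^ (2 * e + 1) * ∏ q ∈ S, qch q (nI I)

theorem th_HC (hcs : Pool.Agent.Y698.SG.S_HCS) (e : ℕ) (S : Finset ℕ) (hS : ∀ q ∈ S, Gp q) :
    HC (2 * e + 1) (sp (((∏ q ∈ S, q : ℕ) : RR) * fR)) (th e S) := by
  classical
  have hbasic := Pool.Agent.W287.HK.h_basic
  have hcls := Pool.Agent.W571.HK.h_cls hbasic
  have hfp := Pool.Agent.W53.HK.h_fp hbasic hcls
  have hprod := Pool.Agent.W29.HK.h_prod hbasic hfp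
  induction S using Finset.induction_on with
  | empty =>
    have h := psi_pow_HC e
    have e1 : (th e ∅) = fun I => psi I ^ (2 * e + 1) := by
      funext I
      unfold th
      rw [Finset.prod_empty, mul_one]
    rw [e1, Finset.prod_empty, Nat.cast_one, one_mul]
    exact h
  | insert q S hq ih =>
    have ih' := ih fun p hp => hS p (Finset.mem_insert_of_mem hp)
    have h1 := hS q (Finset.mem_insert_self _ _)
    have hcop : IsCoprime ((((∏ q ∈ S, q : ℕ) : RR) * fR)) (q : RR) := by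
      refine IsCoprime.mul_left ?_ h1.gn.cop
      refine Pool.Agent.Y698.cop_cast (Nat.Coprime.prod_left fun p hp => ?_)
      refine (Nat.coprime_primes (hS p (Finset.mem_insert_of_mem hp)).pr h1.pr).2 ?_
      exact fun h => hq (h ▸ hp)
    have h3 := hprod RR al qr (2 * e + 1) _ _ _ _ ih' (Pool.Agent.Y698.SG.quad_HC' hcs h1)
      ((Ideal.isCoprime_span_singleton_iff _ _).2 hcop)
    rw [Ideal.span_singleton_mul_span_singleton] at h3
    have e1 : (((∏ p ∈ S, p : ℕ) : RR) * fR) * (q : RR) =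
        (((∏ p ∈ insert q S, p : ℕ) : RR)) * fR := by
      rw [Finset.prod_insert hq]
      push_cast
      ring
    rw [e1] at h3
    convert h3 using 1
    funext I
    unfold th
    rw [Finset.prod_insert hq]
    ring

lemma th_fp (e : ℕ) (S : Finset ℕ) (α : RR) : (starRingEnd ℂ) (fp (2 * e + 1) (th e S) α) =
    e7 α * ∏ q ∈ S, qch q (nR α) := by
  unfold fp th
  rw [psi_sp, mul_pow, e7_pow, nI_sp']
  by_cases hg : α = 0
  · subst hg
    have : e7 0 = 0 := by
      rw [e7_eq_zero]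
      exact Submodule.zero_mem _
    rw [this]
    simp
  · have hg' : (α : ℂ) ≠ 0 := coe_ne hg
    have e1 : e7 α * (α : ℂ) ^ (2 * e + 1) * (∏ q ∈ S, qch q (nR α)) / (α : ℂ) ^ (2 * e + 1) =
        e7 α * ∏ q ∈ S, qch q (nR α) := by
      field_simp
    rw [e1, map_mul, e7_conj, map_prod]
    congr 1
    exact Finset.prod_congr rfl fun q _ => qch_conj q _

end Run7.h359.BK
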