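import Pool.Agent.Run7.h359.Val

/-!
# The induction over the subsets
-/

set_option autoImplicit false
set_option linter.unusedSectionVars false

open Filter
open scoped Topology PeriodPair

namespace Run7.h359.BK

open H667R3 Pool.Agent.TH936.CW Pool.Agent.TH936.CM
open Pool.Agent.W192.HK (sp)
open Pool.Agent.TH936.PU (coe_ne v_add_le v_sub_le v_mul_le v_pow_le v_mul_lt' v_R)
open Pool.Agent.Y698 (al bl RR aR bR tA tB al_ne bl_ne al_mul_bl al_sq LD aR_coe bR_coe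
  v_two v_bl v_two_lt two_coe aR_mul_bR qr fin_quot fR fR_ne e7 e7_mul e7_per e7_neg e7_eq_zero
  r7 r7_apply e7_Eo cj cj_coe)
open Pool.Agent.Y698.SG (Fam PD sy tr hc Mu Bg Gd Rd S_REC gd mc mr sy_sgn)

variable {L : PeriodPair} {Ω p q : ℂ} {Γ : Type*} [LinearOrderedCommGroupWithZero Γ]
  {v : Valuation ℂ Γ} {ι : Type} {π : ι → RR}

lemma v_bl_eps (hv : v al < 1) {ε : ℂ} (hε : ε = 1 ∨ ε = -1) : v (bl - ε) ≤ v 2 := by
  have e2 : bl = 1 - al := rfl
  rcases hε with rfl | rfl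
  · have e : bl - 1 = -al := by rw [e2]; ring
    rw [e, Valuation.map_neg, v_two hv]
  · have e : bl - -1 = 2 - al := by rw [e2]; ring
    rw [e]
    exact v_sub_le le_rfl (v_two hv).ge

lemma v_bl_one (hv : v al < 1) : v (bl - 1) = v 2 := by
  have e2 : bl = 1 - al := rfl
  have e : bl - 1 = -al := by rw [e2]; ring
  rw [e, Valuation.map_neg, v_two hv]

lemma uu_eps (μ : ℂ) (hμ : μ ^ 2 = 1) : μ - uu = uu * μ * (bl - μ) := by
  linear_combination uu * hμ - μ * bl_uu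

lemma v_uu_eps (hv : v al < 1) {μ : ℂ} (hμ : μ = 1 ∨ μ = -1) : v (μ - uu) = v (bl - μ) := by
  rw [uu_eps μ (sq_of_sgn hμ), map_mul, map_mul, v_uu hv, one_mul]
  rcases hμ with rfl | rfl
  · rw [map_one, one_mul]
  · rw [Valuation.map_neg, map_one, one_mul]

/-- weight one -/
lemma SE_zero {S : Finset ι} (hL : IsLat L RR Ω)
    (hpq : ∀ l ∈ L.lattice, eta L l = p * l + q * (starRingEnd ℂ) l)
    [Fintype (RR ⧸ sp fR)] {T : ℂ}
    (hT : Tendsto (fun δ : ℝ => Pool.Agent.Y698.GG Ω δ 1) (𝓝[>] 0) (𝓝 T))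
    (hS : Fam S π) {A : Finset ι} (hA : A ⊆ S) :
    SE L Ω p q π 0 A = al * (bl - sA π A aR) * (e7 (∏ i ∈ A, π i) * sA π A fR *
      Bg L Ω T (∏ i ∈ A, π i) (fun m => ∏ i ∈ A, sy (π i) m)) := by
  have hn : Gd (∏ i ∈ A, π i) := Gd.prod fun i hi => (hS.pd i (hA hi)).gd
  have hb := Mu_wA hS hA aR
  rw [e7_aR, one_mul] at hb
  exact Sn_zero hL hpq hT hn (Fam.mo hS hA)
    (Pool.Agent.Y698.SG.Pe.prod fun i _ => Pool.Agent.Y698.SG.sy_per (π i))
    (fun m => sA_mul hS hA fR m) (wA_we A) (sq_of_sgn (sA_a hS hA)) hb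

lemma v_Bg (hrec : S_REC) (h : LD L Ω) (hv : v al < 1) [Fintype (RR ⧸ sp fR)] {T : ℂ}
    (hT : Tendsto (fun δ : ℝ => Pool.Agent.Y698.GG Ω δ 1) (𝓝[>] 0) (𝓝 T)) (hvT : v T = 1)
    [DecidableEq ι] {S : Finset ι} (hS : Fam S π) :
    v (Bg L Ω T (∏ i ∈ S, π i) (fun m => ∏ i ∈ S, sy (π i) m)) ≤ v 2 ^ S.card := by
  have hL := h.lat
  have h1 := Pool.Agent.Y698.SG.ind (v := v) (n := 1) (φ := fun _ => 1) (K := 1) hrec hL hT hv hvT
    Pool.Agent.Y698.SG.Gd.one
    (fun _ _ _ => rfl) one_ne_zero (by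
      rw [Pool.Agent.Y698.SG.Bg_one hL, div_one, sub_self, map_zero]; exact zero_lt_one)
    hS (fun i _ m => by ring)
    (by
      intro A hA hne
      rw [div_one, mul_one]
      simp only [one_mul]
      exact Pool.Agent.Y698.SG.Bg_hc h hv hvT (hS.mono hA) hne) S (Finset.Subset.refl S)
  rw [mul_one] at h1
  simp only [one_mul] at h1
  have h2 := h1.le
  rw [map_div₀, map_mul, map_pow, hvT, mul_one] at h2
  have h20 : v 2 ^ S.card ≠ 0 := pow_ne_zero _ ((Valuation.ne_zero_iff v).2 two_ne_zero)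
  rwa [div_le_one₀ (zero_lt_iff.2 h20)] at h2

/-- the second term -/
noncomputable def bA (L : PeriodPair) (Ω p q : ℂ) (π : ι → RR) (e : ℕ) (A : Finset ι) : ℂ :=
  uu ^ e * al⁻¹ * (sA π A bR - uu) * SE L Ω p q π 0 A

lemma bA_eq {S : Finset ι} (hL : IsLat L RR Ω)
    (hpq : ∀ l ∈ L.lattice, eta L l = p * l + q * (starRingEnd ℂ) l)
    [Fintype (RR ⧸ sp fR)] {T : ℂ}
    (hT : Tendsto (fun δ : ℝ => Pool.Agent.Y698.GG Ω δ 1) (𝓝[>] 0) (𝓝 T))
    (hS : Fam S π) {A : Finset ι} (hA : A ⊆ S) (e : ℕ) :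
    bA L Ω p q π e A = uu ^ e * (sA π A bR - uu) * ((bl - sA π A aR) * (e7 (∏ i ∈ A, π i) *
      sA π A fR * Bg L Ω T (∏ i ∈ A, π i) (fun m => ∏ i ∈ A, sy (π i) m))) := by
  unfold bA
  rw [SE_zero hL hpq hT hS hA]
  have := al_ne
  field_simp

lemma v_e7_le (x : RR) : v (e7 x) ≤ 1 := by
  by_cases h : x ∈ sp fR
  · rw [e7_eq_zero.2 h, map_zero]
    exact zero_le
  · rcases sq_eq_one_iff.1 (Pool.Agent.Y698.e7_sq h) with h1 | h1 <;> rw [h1]
    · rw [map_one]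
    · rw [Valuation.map_neg, map_one]

lemma v_sA_le (A : Finset ι) (x : RR) : v (sA π A x) ≤ 1 := by
  unfold sA
  rw [map_prod]
  refine Finset.prod_le_one' fun i _ => ?_
  rcases Pool.Agent.Y698.SG.sy_val (π i) x with h | h
  · rw [h.2, map_zero]
    exact zero_le
  · rcases h.2 with h | h <;> rw [h]
    · rw [map_one]
    · rw [Valuation.map_neg, map_one]

lemma v_bA (hrec : S_REC) (h : LD L Ω) (hv : v al < 1) [Fintype (RR ⧸ sp fR)] {T : ℂ}
    (hpq : ∀ l ∈ L.lattice, eta L l = p * l + q * (starRingEnd ℂ) l)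
    (hT : Tendsto (fun δ : ℝ => Pool.Agent.Y698.GG Ω δ 1) (𝓝[>] 0) (𝓝 T)) (hvT : v T = 1)
    [DecidableEq ι] {S : Finset ι} (hS : Fam S π) {A : Finset ι} (hA : A ⊆ S) (e : ℕ) :
    v (bA L Ω p q π e A) ≤ v 2 ^ (A.card + 2) := by
  rw [bA_eq h.lat hpq hT hS hA e]
  simp only [map_mul, map_pow]
  have h1 := v_Bg hrec h hv hT hvT (hS.mono hA)
  have h2 := v_bl_eps hv (sA_a hS hA)
  have h3 := v_bl_eps hv (sA_b hS hA)
  rw [← v_uu_eps hv (sA_b hS hA)] at h3
  rw [v_uu hv, one_pow, one_mul, pow_add, pow_two]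
  have h4 : v (e7 (∏ i ∈ A, π i)) * v (sA π A fR) *
      v (Bg L Ω T (∏ i ∈ A, π i) (fun m => ∏ i ∈ A, sy (π i) m)) ≤ v 2 ^ A.card := by
    calc _ ≤ 1 * 1 * v 2 ^ A.card := mul_le_mul' (mul_le_mul' (v_e7_le _) (v_sA_le A fR)) h1
      _ = _ := by rw [one_mul, one_mul]
  calc _ ≤ v 2 * (v 2 * v 2 ^ A.card) := mul_le_mul' h3 (mul_le_mul' h2 h4)
    _ = _ := by rw [mul_comm (v 2 ^ A.card), mul_assoc]

lemma v_EA (hv : v al < 1) [DecidableEq ι] {S : Finset ι} (hS : Fam S π) {A : Finset ι}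
    (hA : A ⊆ S) (j : ℕ) :
    v (EA π (2 * (j + 1)) S A) ≤ v 2 ^ (S \ A).card ∧
    v (EA π (2 * (j + 1)) S A - EA π 0 S A) ≤ v 2 ^ ((S \ A).card + 2) := by
  have hκ : ∀ i ∈ S \ A, e7 (π i) * sA π A (π i) = 1 ∨ e7 (π i) * sA π A (π i) = -1 := by
    intro i hi
    rw [Finset.mem_sdiff] at hi
    refine Pool.Agent.Y698.SG.sgn_mul (Pool.Agent.Y698.SG.e7_sgn (hS.pd i hi.1).cop)
      (sA_sgn fun k hk => ?_)
    exact hS.ne i hi.1 k (hA hk) fun h => hi.2 (h ▸ hk)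
  refine v_prods (S \ A) _ _ ?_ ?_ ?_
  · intro i hi
    exact v_fac hv _ (hS.pd i (Finset.mem_sdiff.1 hi).1) (hκ i hi)
  · intro i hi
    exact v_fac hv _ (hS.pd i (Finset.mem_sdiff.1 hi).1) (hκ i hi)
  · intro i hi
    have h1 := v_facd hv j (hS.pd i (Finset.mem_sdiff.1 hi).1)
    rwa [sub_sub_sub_cancel_right]

lemma hc_odd {S : Finset ι} (hS : Fam S π) (x : RR) :
    e7 (-x) * ∏ i ∈ S, hc (π i) (-x) = -(e7 x * ∏ i ∈ S, hc (π i) x) := by
  rw [e7_neg, neg_mul]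
  congr 2
  exact Finset.prod_congr rfl fun i hi => Pool.Agent.Y698.SG.hc_neg (hS.pd i hi) x

/-- **The congruence for all the subsets.** -/
theorem v_cA (hrec : S_REC) (h : LD L Ω) (hv : v al < 1) [Fintype (RR ⧸ sp fR)] {T : ℂ}
    (hpq : ∀ l ∈ L.lattice, eta L l = p * l + q * (starRingEnd ℂ) l)
    (hT : Tendsto (fun δ : ℝ => Pool.Agent.Y698.GG Ω δ 1) (𝓝[>] 0) (𝓝 T)) (hvT : v T = 1)
    [DecidableEq ι] {S0 : Finset ι} (hS0 : Fam S0 π) (j : ℕ) (S : Finset ι) (hSS : S ⊆ S0) :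
    v (cA L Ω p q π (2 * (j + 1)) S) ≤ v 2 ^ (S.card + 3) := by
  set e := 2 * (j + 1) with he
  have t2 := v_two_lt hv
  induction S using Finset.strongInduction with
  | H S ih =>
    have hS := hS0.mono hSS
    have hm := Fam.mo hS (Finset.Subset.refl S)
    have h1 := rec_SH h hpq e hS
    have hbd : v (SH L Ω p q e (mA π S) (fun x => e7 x * ∏ i ∈ S, hc (π i) x)) ≤ v 2 * v 4 := by
      refine v_SH h hpq hv hm ⟨fun x y hxy => ?_, fun x hx => ?_⟩ (hc_odd hS) (fun x => ?_) j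
      · have hle : sp (mA π S) ≤ sp fR :=
          Ideal.span_singleton_le_span_singleton.2 (Dvd.intro_left _ rfl)
        have hle2 : sp (mA π S) ≤ sp (∏ i ∈ S, π i) :=
          Ideal.span_singleton_le_span_singleton.2 (Dvd.intro _ rfl)
        show e7 x * _ = e7 y * _
        rw [e7_per (hle hxy)]
        congr 1
        exact Pool.Agent.Y698.SG.Pe.prod (fun i _ => Pool.Agent.Y698.SG.hc_per (π i)) x y
          (hle2 hxy)
      · have hle : sp (mA π S) ≤ sp fR :=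
          Ideal.span_singleton_le_span_singleton.2 (Dvd.intro_left _ rfl)
        show e7 x * _ = 0
        rw [e7_eq_zero.2 (hle hx), zero_mul]
      · exact v_mul_le (v_e7_le x) (Pool.Agent.Y698.SG.hcprod S π x).1
    have hterm : ∀ A ∈ S.powerset, (Ce q e * sA π A bR * (EA π e S A * SE L Ω p q π e A) -
        uu ^ e * al⁻¹ * (sA π A bR - uu) * (EA π 0 S A * SE L Ω p q π 0 A)) =
        EA π e S A * cA L Ω p q π e A + (EA π e S A - EA π 0 S A) * bA L Ω p q π e A := by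
      intro A _
      unfold cA bA
      ring
    rw [Finset.sum_congr rfl hterm, ← Finset.add_sum_erase _ _ (Finset.mem_powerset_self S)] at h1
    have hEE : ∀ e : ℕ, EA π e S S = 1 := by
      intro e
      unfold EA
      rw [Finset.sdiff_self, Finset.prod_empty]
    rw [hEE, hEE, one_mul, sub_self, zero_mul, add_zero] at h1
    have h2 : cA L Ω p q π e S = 2 ^ S.card * SH L Ω p q e (mA π S)
        (fun x => e7 x * ∏ i ∈ S, hc (π i) x) - ∑ A ∈ S.powerset.erase S,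
        (EA π e S A * cA L Ω p q π e A + (EA π e S A - EA π 0 S A) * bA L Ω p q π e A) := by
      linear_combination h1
    rw [h2]
    refine v_sub_le ?_ ?_
    · rw [map_mul, map_pow, pow_add]
      refine mul_le_mul_right (hbd.trans (le_of_eq ?_)) _
      rw [v_four, ← pow_succ']
    · refine Valuation.map_sum_le v fun A hA => ?_
      rw [Finset.mem_erase, Finset.mem_powerset] at hA
      have hss : A ⊂ S := hA.2.ssubset_of_ne hA.1
      have hcs : S.card = (S \ A).card + A.card := (Finset.card_sdiff_add_card_eq_card hA.2).symm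
      obtain ⟨k1, k2⟩ := v_EA hv hS hA.2 j
      refine v_add_le ?_ ?_
      · rw [map_mul, hcs, add_assoc, pow_add]
        exact mul_le_mul' k1 (ih A hss (hA.2.trans hSS))
      · rw [map_mul]
        have k3 := v_bA hrec h hv hpq hT hvT hS hA.2 e
        calc _ ≤ v 2 ^ ((S \ A).card + 2) * v 2 ^ (A.card + 2) := mul_le_mul' k2 k3
          _ = v 2 ^ (S.card + 3) * v 2 := by
            rw [← pow_add, ← pow_succ, hcs]
            congr 1
            omega
          _ ≤ _ := mul_le_of_le_one_right zero_le t2.le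

/-- **The valuations of the sums of higher weight.** -/
theorem v_SE (hrec : S_REC) (h : LD L Ω) (hv : v al < 1) [Fintype (RR ⧸ sp fR)] {T : ℂ}
    (hpq : ∀ l ∈ L.lattice, eta L l = p * l + q * (starRingEnd ℂ) l)
    (hT : Tendsto (fun δ : ℝ => Pool.Agent.Y698.GG Ω δ 1) (𝓝[>] 0) (𝓝 T)) (hvT : v T = 1)
    [DecidableEq ι] {S : Finset ι} (hS : Fam S π) (hg : gd (mc π) (mr π) S ≠ 0)
    (ha : sA π S aR = 1) (hb : sA π S bR = 1) (j : ℕ) :
    v (Ce q (2 * (j + 1)) * SE L Ω p q π (2 * (j + 1)) S) = v 2 ^ (S.card + 2) := by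
  set e := 2 * (j + 1) with he
  have t2 := v_two_lt hv
  have h1 := v_cA hrec h hv hpq hT hvT hS j S (Finset.Subset.refl S)
  have h2 : v (bA L Ω p q π e S) = v 2 ^ (S.card + 2) := by
    rw [bA_eq h.lat hpq hT hS (Finset.Subset.refl S) e]
    simp only [map_mul, map_pow]
    have k1 := Pool.Agent.Y698.SG.v_quad hrec h hv hT hvT hS hg
    have k2 : v (e7 (∏ i ∈ S, π i)) = 1 := by
      have hn : Gd (∏ i ∈ S, π i) := Gd.prod fun i hi => (hS.pd i hi).gd
      rcases Pool.Agent.Y698.SG.e7_sgn hn.cop with h1 | h1 <;> rw [h1]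
      · rw [map_one]
      · rw [Valuation.map_neg, map_one]
    have k3 : v (sA π S fR) = 1 := by
      have k4 : sA π S fR = 1 ∨ sA π S fR = -1 := by
        refine sA_sgn fun i hi hx => ?_
        obtain ⟨a, b, hab⟩ := (hS.pd i hi).cop
        rw [Ideal.mem_span_singleton'] at hx
        obtain ⟨c, hc⟩ := hx
        apply (hS.pd i hi).pr.not_isUnit
        refine IsUnit.of_mul_eq_one (a * c + b) ?_
        linear_combination hab + a * hc
      rcases k4 with h1 | h1 <;> rw [h1]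
      · rw [map_one]
      · rw [Valuation.map_neg, map_one]
    rw [k1, k2, k3, ha, hb, v_uu_eps hv (Or.inl rfl), v_bl_one hv, v_uu hv, one_pow, one_mul,
      one_mul, one_mul, ← pow_succ', ← pow_succ']
  have h3 : Ce q e * SE L Ω p q π e S = cA L Ω p q π e S + bA L Ω p q π e S := by
    unfold cA bA
    rw [hb]
    ring
  rw [h3, Valuation.map_add_eq_of_lt_right v, h2]
  rw [h2]
  refine lt_of_le_of_lt h1 ?_
  have h4 : v 2 ≠ 0 := (Valuation.ne_zero_iff v).2 two_ne_zero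
  have h5 : v 2 ^ (S.card + 3) = v 2 * v 2 ^ (S.card + 2) := by
    rw [← pow_succ']
  rw [h5]
  calc v 2 * v 2 ^ (S.card + 2) < 1 * v 2 ^ (S.card + 2) :=
        mul_lt_mul_of_pos_right t2 (zero_lt_iff.2 (pow_ne_zero _ h4))
    _ = _ := one_mul _

end Run7.h359.BK
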