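import Pool.Agent.Y698.SG.Az

/-!
# The local factors of isomorphic curves

`min_good'` and `min_count'` are as in `Run7/h707/TE/Mod.lean` (helper707).
-/

set_option autoImplicit false
set_option linter.unusedVariables false
set_option linter.unusedSectionVars false

namespace Run7.h359.FE

open NumberField IsDedekindDomain WeierstrassCurve
open Pool.Agent.W189.NF (aV eV Ov aLoc eLoc finite_res)
open Pool.Agent.Y698 (AP min_count v_unit AP_equiv card_point vc_int)

section Local
variable (R : Type) [CommRing R] [IsDomain R] [IsDiscreteValuationRing R] {L : Type}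
  [Field L] [Algebra R L] [IsFractionRing R L]

open IsDiscreteValuationRing

/-- a curve isomorphic to one with an integral equation with a unit discriminant -/
theorem min_good' {W₀ : WeierstrassCurve R} (hΔ : IsUnit W₀.Δ) {W : WeierstrassCurve L}
    {C' : VariableChange L} (hW : C' • W = W₀.map (algebraMap R L)) :
    (W.minimal R).HasGoodReduction R := by
  have hWint : IsIntegral R (C' • W) := ⟨⟨W₀, hW⟩⟩
  have hvW : (maximalIdeal R).valuation L (C' • W).Δ = 1 := by
    rw [hW, map_Δ]
    exact v_unit R hΔ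
  obtain ⟨C, hC⟩ : ∃ C : VariableChange L, W.minimal R = C • W := ⟨_, rfl⟩
  have hmin : IsMinimal R (W.minimal R) := inferInstance
  refine ⟨?_⟩
  obtain ⟨h1, h2⟩ := hmin.val_Δ_maximal
  have e1 : (C' * C⁻¹) • W.minimal R = C' • W := by rw [hC, mul_smul, inv_smul_smul]
  have h3 := h2 (j := C' * C⁻¹) (by simp only [e1]; exact hWint)
  simp only [e1, one_smul] at h3
  have hle : valuation_Δ_aux R (W.minimal R) ≤ valuation_Δ_aux R (C' • W) := by
    rw [← Subtype.coe_le_coe, valuation_Δ_aux_eq_of_isIntegral R (C' • W), hvW]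
    exact (valuation_Δ_aux R (W.minimal R)).2
  have h4 := le_antisymm hle (h3 hle)
  have h5 := congrArg Subtype.val h4
  rw [valuation_Δ_aux_eq_of_isIntegral, valuation_Δ_aux_eq_of_isIntegral] at h5
  rw [h5]
  exact hvW

/-- the integral model -/
lemma int_unit {W : WeierstrassCurve L} (hg : (W.minimal R).HasGoodReduction R) :
    IsUnit ((W.minimal R).integralModel R).Δ := by
  have h3 := hg.goodReduction
  rw [← integralModel_Δ_eq R (W.minimal R),
    IsDedekindDomain.HeightOneSpectrum.valuation_eq_one_iff_notMem] at h3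
  by_contra h4
  exact h3 ((IsLocalRing.mem_maximalIdeal _).2 h4)

/-- the local factor at a place of good reduction -/
theorem min_count' {W₀ : WeierstrassCurve R} (hΔ : IsUnit W₀.Δ) {W : WeierstrassCurve L}
    {C' : VariableChange L} (hW : C' • W = W₀.map (algebraMap R L))
    [Finite (IsLocalRing.ResidueField R)] :
    aLoc R W = (Nat.card (IsLocalRing.ResidueField R) : ℤ) -
      Nat.card (AP (W₀.map (IsLocalRing.residue R))) ∧
    eLoc R W = Nat.card (IsLocalRing.ResidueField R) := by
  have hg := min_good' R hΔ hW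
  unfold aLoc eLoc
  rw [if_pos hg, if_pos hg]
  refine ⟨?_, rfl⟩
  obtain ⟨C, hC⟩ : ∃ C : VariableChange L, W.minimal R = C • W := ⟨_, rfl⟩
  have h1 : ((W.minimal R).integralModel R).map (algebraMap R L) =
      (C * C'⁻¹) • W₀.map (algebraMap R L) := by
    have := baseChange_integralModel_eq R (W.minimal R)
    rw [← hW, mul_smul, inv_smul_smul, ← hC]
    exact this
  have h2 := int_unit R hg
  obtain ⟨C₀, hC₀⟩ := vc_int R hΔ h2 h1
  have h3 : (W.minimal R).reduction R = (C₀.map (IsLocalRing.residue R)) •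
      (W₀.map (IsLocalRing.residue R)) := by
    unfold WeierstrassCurve.reduction
    rw [hC₀, ← WeierstrassCurve.map_variableChange]
  have h4 : ((W.minimal R).reduction R).Δ ≠ 0 := by
    unfold WeierstrassCurve.reduction
    rw [map_Δ]
    exact (h2.map _).ne_zero
  rw [card_point _ h4, h3, Nat.card_congr (AP_equiv _ _)]
  push_cast
  ring

/-- integral `j`-invariants -/
lemma not_mult {W : WeierstrassCurve L} {j : L} (hj : (maximalIdeal R).valuation L j ≤ 1)
    (h4 : W.c₄ ^ 3 = j * W.Δ) : ¬ (W.minimal R).HasMultiplicativeReduction R := by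
  set v := (maximalIdeal R).valuation L with hv
  obtain ⟨C, hC⟩ : ∃ C : VariableChange L, W.minimal R = C • W := ⟨_, rfl⟩
  set u : L := ((C.u⁻¹ : Lˣ) : L) with hu
  have hd : (W.minimal R).Δ = u ^ 12 * W.Δ := by rw [hC, variableChange_Δ]
  have hc : (W.minimal R).c₄ = u ^ 4 * W.c₄ := by rw [hC, variableChange_c₄]
  intro h
  have h1 := h.multiplicativeReduction
  have h2 := h.badReduction
  have h3 : (W.minimal R).c₄ ^ 3 = j * (W.minimal R).Δ := by
    rw [hc, hd]
    linear_combination u ^ 12 * h4
  have h5 := congrArg v h3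
  rw [map_pow, map_mul] at h5
  have h6 : v (W.minimal R).c₄ = 1 := h1
  rw [h6, one_pow] at h5
  have h7 : v j * v (W.minimal R).Δ < 1 := by
    refine lt_of_le_of_lt (mul_le_of_le_one_left' hj) h2
  rw [← h5] at h7
  exact lt_irrefl _ h7

/-- bad reduction -/
lemma bad_zero {W : WeierstrassCurve L} {j : L} (hj : (maximalIdeal R).valuation L j ≤ 1)
    (h4 : W.c₄ ^ 3 = j * W.Δ) (hg : ¬ (W.minimal R).HasGoodReduction R) :
    aLoc R W = 0 ∧ eLoc R W = 0 := by
  have hnm := not_mult R hj h4
  have hns : ¬ (W.minimal R).HasSplitMultiplicativeReduction R := fun h =>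
    hnm h.toHasMultiplicativeReduction
  unfold aLoc eLoc
  rw [if_neg hg, if_neg hg, if_neg hns, if_neg hnm]
  exact ⟨rfl, rfl⟩

/-- **The local factors of isomorphic curves.** -/
theorem inv_iso {W W' : WeierstrassCurve L} {C : VariableChange L} (h : C • W = W') {j : L}
    (hj : (maximalIdeal R).valuation L j ≤ 1) (h4 : W.c₄ ^ 3 = j * W.Δ)
    [Finite (IsLocalRing.ResidueField R)] : aLoc R W = aLoc R W' ∧ eLoc R W = eLoc R W' := by
  have h4' : W'.c₄ ^ 3 = j * W'.Δ := by
    rw [← h, variableChange_Δ, variableChange_c₄]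
    linear_combination ((C.u⁻¹ : Lˣ) : L) ^ 12 * h4
  have hinv : C⁻¹ • W' = W := by rw [← h, inv_smul_smul]
  by_cases hg : (W.minimal R).HasGoodReduction R
  · have hu := int_unit R hg
    obtain ⟨C1, hC1⟩ : ∃ C1 : VariableChange L, W.minimal R = C1 • W := ⟨_, rfl⟩
    have h1 : C1 • W = ((W.minimal R).integralModel R).map (algebraMap R L) := by
      rw [← hC1]
      exact (baseChange_integralModel_eq R (W.minimal R)).symm
    have h2 : (C1 * C⁻¹) • W' = ((W.minimal R).integralModel R).map (algebraMap R L) := by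
      rw [mul_smul, hinv, h1]
    obtain ⟨a1, a2⟩ := min_count' R hu h1
    obtain ⟨b1, b2⟩ := min_count' R hu h2
    exact ⟨a1.trans b1.symm, a2.trans b2.symm⟩
  · have hg' : ¬ (W'.minimal R).HasGoodReduction R := by
      intro hg'
      apply hg
      have hu := int_unit R hg'
      obtain ⟨C1, hC1⟩ : ∃ C1 : VariableChange L, W'.minimal R = C1 • W' := ⟨_, rfl⟩
      refine min_good' R hu (C' := C1 * C) ?_
      rw [mul_smul, h, ← hC1]
      exact (baseChange_integralModel_eq R (W'.minimal R)).symm
    obtain ⟨a1, a2⟩ := bad_zero R hj h4 hg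
    obtain ⟨b1, b2⟩ := bad_zero R hj h4' hg'
    exact ⟨a1.trans b1.symm, a2.trans b2.symm⟩

end Local

/-- the curve `E_D` -/
def cur {k : Type*} [Field k] (D : k) : WeierstrassCurve k :=
  ⟨1, -((3 * D + 1) / 4), 0, -2 * D ^ 2, -D ^ 3⟩

lemma cur_map {k l : Type*} [Field k] [Field l] (f : k →+* l) (D : k) :
    (cur D).map f = cur (f D) := by
  unfold cur
  ext
  · exact map_one f
  · show f (-((3 * D + 1) / 4)) = -((3 * f D + 1) / 4)
    rw [map_neg, map_div₀, map_add, map_mul, map_one, map_ofNat, map_ofNat]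
  · exact map_zero f
  · show f (-2 * D ^ 2) = -2 * f D ^ 2
    rw [map_mul, map_pow, map_neg, map_ofNat]
  · show f (-D ^ 3) = -f D ^ 3
    rw [map_neg, map_pow]

lemma cur_c {k : Type*} [Field k] [CharZero k] (D : k) : (cur D).c₄ ^ 3 = -3375 * (cur D).Δ := by
  unfold cur
  simp only [WeierstrassCurve.c₄, WeierstrassCurve.Δ, WeierstrassCurve.b₂, WeierstrassCurve.b₄,
    WeierstrassCurve.b₆, WeierstrassCurve.b₈]
  field_simp
  ring

/-- the isomorphism -/
lemma cur_iso {k : Type*} [Field k] [CharZero k] {D D' y : k} (hy : y ≠ 0) (h : D' = y ^ 2 * D) :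
    ∃ C : VariableChange k, C • cur D = cur D' := by
  have hi : y⁻¹ ≠ 0 := inv_ne_zero hy
  refine ⟨⟨Units.mk0 y⁻¹ hi, 0, (y⁻¹ - 1) / 2, 0⟩, ?_⟩
  have hu : (((Units.mk0 y⁻¹ hi)⁻¹ : kˣ) : k) = y := by
    simp
  subst h
  unfold cur
  ext
  · simp only [variableChange_a₁, hu]
    field_simp
    ring
  · simp only [variableChange_a₂, hu]
    field_simp
    ring
  · simp only [variableChange_a₃, hu]
    field_simp
    ring
  · simp only [variableChange_a₄, hu]
    field_simp
    ring
  · simp only [variableChange_a₆, hu]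
    field_simp
    ring

section places
variable {K : Type} [Field K] [NumberField K]

/-- **The local factors of the twists by `D` and `y² D`.** -/
theorem loc_inv (v : HeightOneSpectrum (𝓞 K)) {D D' y : K} (hy : y ≠ 0) (h : D' = y ^ 2 * D) :
    aV (cur D) v = aV (cur D') v ∧ eV (cur D) v = eV (cur D') v := by
  obtain ⟨C, hC⟩ := cur_iso hy h
  have hfin := finite_res v
  have hC' : (C.map (algebraMap K (v.adicCompletion K))) • ((cur D).baseChange (v.adicCompletion K)) =
      (cur D').baseChange (v.adicCompletion K) := by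
    rw [← hC]
    unfold WeierstrassCurve.baseChange
    rw [WeierstrassCurve.map_variableChange]
  have hjv : (IsDiscreteValuationRing.maximalIdeal (v.adicCompletionIntegers K)).valuation
      (v.adicCompletion K) ((-3375 : ℤ) : v.adicCompletion K) ≤ 1 := by
    have hj7 : ((-3375 : ℤ) : v.adicCompletion K) =
      algebraMap (Ov v) (v.adicCompletion K) ((-3375 : ℤ) : Ov v) := (map_intCast _ _).symm
    rw [hj7]
    exact HeightOneSpectrum.valuation_le_one _ _
  have h4 : ((cur D).baseChange (v.adicCompletion K)).c₄ ^ 3 =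
      ((-3375 : ℤ) : v.adicCompletion K) * ((cur D).baseChange (v.adicCompletion K)).Δ := by
    unfold WeierstrassCurve.baseChange
    rw [map_c₄, map_Δ, ← map_pow, cur_c, map_mul]
    congr 1
    rw [map_neg, map_ofNat]
    push_cast
    rfl
  exact inv_iso (v.adicCompletionIntegers K) hC' hjv h4

end places

end Run7.h359.FE
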