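import Mathlib

/-!
# Differential operators on polynomial rings: congruences modulo four
-/

set_option autoImplicit false

open MvPolynomial

namespace Run7.h359.BK

section abstract

variable {M : Type*} [AddCommGroup M]

lemma four (n : M →+ M) (h : ∀ f, ∃ g, n (n f) = n f + (2 : ℤ) • g) (f : M) :
    ∃ k, n (n (n (n f))) = n (n f) + (4 : ℤ) • k := by
  obtain ⟨g, hg⟩ := h f
  obtain ⟨g', hg'⟩ := h g
  have h1 : n (n (n f)) = n (n f) + (2 : ℤ) • n g := by
    conv_lhs => rw [hg]
    rw [map_add, map_zsmul]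
  refine ⟨n g + g', ?_⟩
  conv_lhs => rw [h1]
  rw [map_add, map_zsmul, h1, hg']
  module

lemma evens (n : M →+ M) (h : ∀ f, ∃ g, n (n f) = n f + (2 : ℤ) • g) (f : M) (j : ℕ) :
    ∃ k, n^[2 * (j + 1)] f = n^[2] f + (4 : ℤ) • k := by
  induction j with
  | zero => exact ⟨0, by simp⟩
  | succ j ih =>
    obtain ⟨k, hk⟩ := ih
    obtain ⟨k', hk'⟩ := four n h (n^[2 * j] f)
    refine ⟨k + k', ?_⟩
    have e1 : n^[2 * (j + 1 + 1)] f = n (n (n (n (n^[2 * j] f)))) := by
      have : 2 * (j + 1 + 1) = 2 * j + 1 + 1 + 1 + 1 := by ring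
      rw [this]
      simp only [Function.iterate_succ_apply']
    have e2 : n^[2 * (j + 1)] f = n (n (n^[2 * j] f)) := by
      have : 2 * (j + 1) = 2 * j + 1 + 1 := by ring
      rw [this]
      simp only [Function.iterate_succ_apply']
    rw [e1, hk', ← e2, hk]
    module

variable {A : Type*} [CommRing A] [Module A M]

lemma expand (t : M →ₗ[A] M) (u a : A) (d : M → M) (hd : ∀ f, d f = u • f + a • t f) (f : M)
    (e : ℕ) : ∃ r, d^[e] f = u ^ e • f + ((e : A) * u ^ (e - 1) * a) • t f + a ^ 2 • r := by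
  induction e with
  | zero => exact ⟨0, by simp⟩
  | succ e ih =>
    obtain ⟨r, hr⟩ := ih
    refine ⟨((e : A) * u ^ (e - 1)) • t (t f) + u • r + a • t r, ?_⟩
    rw [Function.iterate_succ_apply', hr, hd]
    simp only [map_add, map_smul, smul_add, smul_smul, Nat.add_sub_cancel]
    rcases e with _ | e
    · simp only [Nat.cast_zero, zero_mul, pow_zero, zero_add, Nat.cast_one]
      module
    · simp only [Nat.add_sub_cancel]
      push_cast
      module

lemma expand_even (t : M →ₗ[A] M) (u a b : A) (hab : a * b = 2) (d : M → M)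
    (hd : ∀ f, d f = u • f + a • t f) (f : M) {e : ℕ} (he : Even e) :
    ∃ r, d^[e] f = u ^ e • f + a ^ 2 • r := by
  obtain ⟨r, hr⟩ := expand t u a d hd f e
  obtain ⟨j, hj⟩ := he
  refine ⟨((j : A) * b * u ^ (e - 1)) • t f + r, ?_⟩
  rw [hr]
  have h1 : (e : A) * u ^ (e - 1) * a = a ^ 2 * ((j : A) * b * u ^ (e - 1)) := by
    have h2 : (e : A) = 2 * j := by
      rw [hj]
      push_cast
      ring
    rw [h2, ← hab]
    ring
  rw [h1]
  module

end abstract

section ring

variable (A : Type*) [CommRing A]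

/-- polynomials in `F, x, y, Λ, X, Y` -/
abbrev P6 := MvPolynomial (Fin 6) A

/-- the derivation in the direction of the second variable -/
noncomputable def DW : Derivation A (P6 A) (P6 A) :=
  mkDerivation A ![0, 0, 0, 2 * X 4 + X 1 - X 3 ^ 2 - X 3 - 1, 2 * X 5 + X 4,
    3 * X 4 ^ 2 - 2 * X 4 - 2 - X 5]

/-- the derivation in the direction of the first variable -/
noncomputable def DZ : Derivation A (P6 A) (P6 A) :=
  mkDerivation A ![-X 1, 2 * X 2 + X 1, 3 * X 1 ^ 2 - 2 * X 1 - 2 - X 2,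
    2 * X 1 + X 4 - X 3 ^ 2 - X 3 - 1, 0, 0]

/-- the twisted operator -/
noncomputable def nW : P6 A →+ P6 A :=
  (DW A).toLinearMap.toAddMonoidHom + AddMonoidHom.mulLeft (X 0 + X 3)

lemma nW_apply (f : P6 A) : nW A f = DW A f + (X 0 + X 3) * f := rfl

/-- the twisted operator -/
noncomputable def tZ : P6 A →ₗ[A] P6 A :=
  (DZ A).toLinearMap + LinearMap.mulLeft A (X 3 : P6 A)

lemma tZ_apply (f : P6 A) : tZ A f = DZ A f + X 3 * f := rfl

/-- the polynomials of the derivatives -/
noncomputable def Pe (e : ℕ) : P6 A := (nW A)^[e] 1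

/-- the operator `al ∂` -/
noncomputable def dZ (u a : A) (f : P6 A) : P6 A := u • f + a • tZ A f

end ring

/-! ### specialization of the first variable -/

section spec

variable {A : Type*} [CommRing A]

/-- polynomials in `Λ, X, Y` -/
abbrev P3 (A : Type*) [CommRing A] := MvPolynomial (Fin 3) A

/-- the derivation, `x` being a constant -/
noncomputable def D3 (x : A) : Derivation A (P3 A) (P3 A) :=
  mkDerivation A ![2 * X 1 + C x - X 0 ^ 2 - X 0 - 1, 2 * X 2 + X 1, 3 * X 1 ^ 2 - 2 * X 1 - 2 - X 2]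

/-- the twisted operator -/
noncomputable def n3 (F x : A) : P3 A →+ P3 A :=
  (D3 x).toLinearMap.toAddMonoidHom + AddMonoidHom.mulLeft (C F + X 0)

lemma n3_apply (F x : A) (f : P3 A) : n3 F x f = D3 x f + (C F + X 0) * f := rfl

/-- the specialization -/
noncomputable def sp3 (F x y : A) : P6 A →ₐ[A] P3 A :=
  aeval ![C F, C x, C y, X 0, X 1, X 2]

lemma sp3_D (F x y : A) (f : P6 A) : sp3 F x y (DW A f) = D3 x (sp3 F x y f) := by
  induction f using MvPolynomial.induction_on with
  | C a =>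
    have h1 : DW A (C a) = 0 := by
      have := (DW A).map_algebraMap a
      rwa [MvPolynomial.algebraMap_eq] at this
    have h2 : sp3 F x y (C a) = C a := by simp [sp3]
    have h3 : D3 x (C a) = 0 := by
      have := (D3 x).map_algebraMap a
      rwa [MvPolynomial.algebraMap_eq] at this
    rw [h1, h2, h3, map_zero]
  | add f g hf hg => simp only [map_add, hf, hg]
  | mul_X f i hf =>
    have hX : sp3 F x y (DW A (X i)) = D3 x (sp3 F x y (X i)) := by
      have hc : ∀ a : A, D3 x (C a) = 0 := fun a => by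
        have := (D3 x).map_algebraMap a
        rwa [MvPolynomial.algebraMap_eq] at this
      unfold DW sp3
      rw [mkDerivation_X, aeval_X]
      fin_cases i
      · simp [hc]
      · simp [hc]
      · simp [hc]
      · simp [D3, mkDerivation_X, map_ofNat]
      · simp [D3, mkDerivation_X, map_ofNat]
      · simp [D3, mkDerivation_X, map_ofNat]
    rw [Derivation.leibniz, map_mul, Derivation.leibniz]
    simp only [smul_eq_mul, map_add, map_mul, hf, hX]

lemma sp3_n (F x y : A) (f : P6 A) : sp3 F x y (nW A f) = n3 F x (sp3 F x y f) := by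
  rw [nW_apply, n3_apply, map_add, map_mul, sp3_D]
  congr 2
  simp [sp3]

lemma sp3_Pe (F x y : A) (e : ℕ) : sp3 F x y (Pe A e) = (n3 F x)^[e] 1 := by
  induction e with
  | zero => simp [Pe]
  | succ e ih =>
    unfold Pe at ih ⊢
    rw [Function.iterate_succ_apply', Function.iterate_succ_apply', sp3_n, ih]

/-- the elements `f` such that `D² f = D f` modulo two -/
lemma D3_two (x : A) (f : P3 A) : ∃ g, D3 x (D3 x f) = D3 x f + (2 : ℤ) • g := by
  induction f using MvPolynomial.induction_on with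
  | C a =>
    have h3 : D3 x (C a) = 0 := by
      have := (D3 x).map_algebraMap a
      rwa [MvPolynomial.algebraMap_eq] at this
    exact ⟨0, by simp [h3]⟩
  | add f g hf hg =>
    obtain ⟨a, ha⟩ := hf
    obtain ⟨b, hb⟩ := hg
    refine ⟨a + b, ?_⟩
    simp only [map_add, ha, hb]
    module
  | mul_X f i hf =>
    obtain ⟨a, ha⟩ := hf
    have hX : ∃ b, D3 x (D3 x (X i)) = D3 x (X i) + (2 : ℤ) • b := by
      have hc : ∀ a : A, D3 x (C a) = 0 := fun a => by
        have := (D3 x).map_algebraMap a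
        rwa [MvPolynomial.algebraMap_eq] at this
      have h0 : D3 x (X 0) = 2 * X 1 + C x - X 0 ^ 2 - X 0 - 1 := mkDerivation_X _ _ _
      have h1 : D3 x (X 1) = 2 * X 2 + X 1 := mkDerivation_X _ _ _
      have h2 : D3 x (X 2) = 3 * X 1 ^ 2 - 2 * X 1 - 2 - X 2 := mkDerivation_X _ _ _
      have h2' : ∀ f : P3 A, D3 x (2 * f) = 2 * D3 x f := fun f => by
        rw [two_mul, map_add, two_mul]
      have h3' : ∀ f : P3 A, D3 x (3 * f) = 3 * D3 x f := fun f => by
        have e1 : (3 : P3 A) * f = f + f + f := by ring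
        rw [e1, map_add, map_add]
        ring
      have hone : D3 x 1 = 0 := (D3 x).map_one_eq_zero
      have htwo : D3 x 2 = 0 := by
        have : (2 : P3 A) = 1 + 1 := by norm_num
        rw [this, map_add, hone, add_zero]
      have hsq : ∀ f : P3 A, D3 x (f ^ 2) = 2 * (f * D3 x f) := fun f => by
        rw [pow_two, Derivation.leibniz]
        simp only [smul_eq_mul]
        ring
      fin_cases i
      · show ∃ b, D3 x (D3 x (X 0)) = D3 x (X 0) + (2 : ℤ) • b
        rw [h0]
        simp only [map_sub, map_add, h2', hsq, h1, h0, hc, hone]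
        refine ⟨(2 * X 2 + X 1) - X 0 * (2 * X 1 + C x - X 0 ^ 2 - X 0 - 1) -
          (2 * X 1 + C x - X 0 ^ 2 - X 0 - 1), ?_⟩
        rw [zsmul_eq_mul]
        push_cast
        ring
      · show ∃ b, D3 x (D3 x (X 1)) = D3 x (X 1) + (2 : ℤ) • b
        rw [h1]
        simp only [map_add, h2', h1, h2]
        refine ⟨3 * X 1 ^ 2 - 2 * X 1 - 2 - X 2, ?_⟩
        rw [zsmul_eq_mul]
        push_cast
        ring
      · show ∃ b, D3 x (D3 x (X 2)) = D3 x (X 2) + (2 : ℤ) • b
        rw [h2]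
        simp only [map_sub, h2', h3', hsq, h1, h2, htwo]
        refine ⟨3 * (X 1 * (2 * X 2 + X 1)) - (2 * X 2 + X 1) -
          (3 * X 1 ^ 2 - 2 * X 1 - 2 - X 2), ?_⟩
        rw [zsmul_eq_mul]
        push_cast
        ring
    obtain ⟨b, hb⟩ := hX
    refine ⟨D3 x f * D3 x (X i) + a * X i + f * b, ?_⟩
    rw [Derivation.leibniz]
    simp only [smul_eq_mul, map_add, Derivation.leibniz, hb, ha]
    rw [zsmul_eq_mul, zsmul_eq_mul, zsmul_eq_mul]
    push_cast
    ring

/-- the twisted operator modulo two -/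
lemma n3_two {F x m : A} (hm : F ^ 2 - F - x + 1 = 2 * m) (f : P3 A) :
    ∃ g, n3 F x (n3 F x f) = n3 F x f + (2 : ℤ) • g := by
  obtain ⟨a, ha⟩ := D3_two x f
  have hc : D3 x (C F) = 0 := by
    have := (D3 x).map_algebraMap F
    rwa [MvPolynomial.algebraMap_eq] at this
  have h0 : D3 x (X 0) = 2 * X 1 + C x - X 0 ^ 2 - X 0 - 1 := mkDerivation_X _ _ _
  have hN : C F ^ 2 - C F - C x + 1 = 2 * (C m : P3 A) := by
    have := congrArg (fun t : A => (C t : P3 A)) hm
    simpa [map_ofNat] using this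
  refine ⟨a + (C F + X 0) * D3 x f + (C m + X 1 - X 0 + C F * X 0 + C x - 1) * f, ?_⟩
  rw [n3_apply, n3_apply, map_add, Derivation.leibniz, ha, map_add, hc, h0, zsmul_eq_mul,
    zsmul_eq_mul]
  simp only [smul_eq_mul]
  push_cast
  linear_combination f * hN

/-- the polynomials `P_e`, `e` even, modulo four -/
theorem Pe_even {F x y m : A} (hm : F ^ 2 - F - x + 1 = 2 * m) (j : ℕ) :
    ∃ k, sp3 F x y (Pe A (2 * (j + 1))) = sp3 F x y (Pe A 2) + (4 : ℤ) • k := by
  rw [sp3_Pe, sp3_Pe]
  exact evens (n3 F x) (n3_two hm) 1 j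

lemma Pe_two : Pe A 2 = X 0 ^ 2 + 2 * X 0 * X 3 - X 3 + 2 * X 4 + X 1 - 1 := by
  have h3 : DW A (X 3) = 2 * X 4 + X 1 - X 3 ^ 2 - X 3 - 1 := mkDerivation_X _ _ _
  have h0 : DW A (X 0) = 0 := mkDerivation_X _ _ _
  have h1 : DW A 1 = 0 := (DW A).map_one_eq_zero
  unfold Pe
  simp only [Function.iterate_succ_apply', Function.iterate_zero, id_eq]
  rw [nW_apply, nW_apply, h1, map_add, Derivation.leibniz, map_add, h0, h3, h1]
  simp only [smul_eq_mul, map_zero]
  ring

end spec

end Run7.h359.BK
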