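import Pool.Agent.TH936.CW.Lat
import Pool.Agent.Y698.Two
import Pool.Agent.Run7.h359.Op

/-!
# The Kronecker function at a point of order two
-/

set_option autoImplicit false
set_option linter.unusedSectionVars false

open Filter
open scoped Topology PeriodPair

namespace Run7.h359.BK

open H667R3 Pool.Agent.TH936.CW

/-- **Liouville's theorem in two variables.** -/
theorem liouv (L : PeriodPair) {N : ℕ} (f : ℂ → ℂ → ℂ) (good : Set ℂ)
    (h1 : ∀ v z₀, ∃ A : ℂ → ℂ, AnalyticAt ℂ A z₀ ∧ (∀ᶠ z in 𝓝[≠] z₀, f v z = A z) ∧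
      (z₀ ∈ good → f v z₀ = A z₀))
    (hg : ∀ z₀, ∀ᶠ z in 𝓝[≠] z₀, z ∈ good)
    (h2 : ∀ z ∈ good, Bd N (fun v => f v z))
    (h3 : ∀ l ∈ L.lattice, ∀ z ∈ good, ∀ v, f (v + (starRingEnd ℂ) l) (z + l) = f v z) :
    ∃ C : ℂ, ∀ v z, z ∈ good → f v z = C := by
  set E : ℂ → ℂ → ℂ := fun v => ext (f v) with hE
  have hEd : ∀ v, Differentiable ℂ (E v) := fun v => ext_diff fun z₀ => by
    obtain ⟨A, a, b, -⟩ := h1 v z₀
    exact ⟨A, a, b⟩
  have hEl : ∀ v z, Tendsto (fun w => f v w) (𝓝[≠] z) (𝓝 (E v z)) := by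
    intro v z
    obtain ⟨A, a, b, -⟩ := h1 v z
    exact (ext_eq a b).1
  have hEv : ∀ v z, z ∈ good → f v z = E v z := by
    intro v z h0
    obtain ⟨A, a, b, c⟩ := h1 v z
    rw [c h0]
    exact (ext_eq a b).2.symm
  have hEb : ∀ z, Bd N (fun v => E v z) := fun z =>
    Bd.lim (l := 𝓝[≠] z) (F := fun w v => f v w) ((hg z).mono fun w hw => h2 w hw)
      (fun v => hEl v z)
  have hEi : ∀ l ∈ L.lattice, ∀ z v, E (v + (starRingEnd ℂ) l) (z + l) = E v z := by
    intro l hl z v
    have e1 := hEl v z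
    have e2 := (hEl (v + (starRingEnd ℂ) l) (z + l)).comp (tend_sub z l)
    refine tendsto_nhds_unique e2 (e1.congr' ?_)
    filter_upwards [hg z] with w hw
    exact (h3 l hl w hw v).symm
  set d : ℕ → ℂ → ℂ := fun j z => ∑ k ∈ Finset.range (N + 1), E k z * (lg N k).coeff j with hd
  have hdd : ∀ j, Differentiable ℂ (d j) := by
    intro j
    have : Differentiable ℂ (fun z => ∑ k ∈ Finset.range (N + 1), E k z * (lg N k).coeff j) :=
      Differentiable.fun_sum fun k _ => (hEd k).mul_const _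
    exact this
  have hsum : ∀ z v, ∑ j ∈ Finset.range (N + 1), d j z * v ^ j = E v z := by
    intro z v
    rw [(hEb z).lag v]
    simp only [hd, Finset.sum_mul]
    rw [Finset.sum_comm]
    refine Finset.sum_congr rfl fun k hk => ?_
    rw [Polynomial.eval_eq_sum_range' (Nat.lt_succ_of_le (lg_deg hk)), Finset.mul_sum]
    refine Finset.sum_congr rfl fun j _ => ?_
    ring
  obtain ⟨C, hC⟩ := liou L N d hdd (fun l hl z v => by
    rw [hsum, hsum]
    exact hEi l hl z v)
  refine ⟨C, fun v z h0 => ?_⟩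
  rw [hEv v z h0, ← hsum, hC]

variable {L : PeriodPair} {p q : ℂ}


/-- the function `G` -/
noncomputable def GG (L : PeriodPair) (p q t v z W : ℂ) : ℂ :=
  Complex.exp (-(p * z * W) - q * v * (W - t) - q * (starRingEnd ℂ) t * z) * sigma L (z + W) /
    (sigma L z * sigma L W)

/-- the function `κ` -/
noncomputable def kap (L : PeriodPair) (p q t z : ℂ) : ℂ :=
  Complex.exp (-(p * z * t) - q * (starRingEnd ℂ) t * z) * sigma L (z + t) /
    (sigma L z * sigma L t)

lemma GG_t (t v z : ℂ) : GG L p q t v z t = kap L p q t z := by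
  unfold GG kap
  rw [sub_self, mul_zero, sub_zero]

lemma zeta_half (hpq : ∀ l ∈ L.lattice, eta L l = p * l + q * (starRingEnd ℂ) l) {t : ℂ}
    (ht : t ∉ L.lattice) (h2 : 2 * t ∈ L.lattice) :
    zeta L t = p * t + q * (starRingEnd ℂ) t := by
  have h1 : -t ∉ L.lattice := fun h => ht (by simpa using neg_mem h)
  have h3 := zeta_add_coe L h1 h2
  rw [zeta_neg, hpq _ h2, map_mul, Complex.conj_ofNat] at h3
  have e : -t + 2 * t = t := by ring
  rw [e] at h3
  linear_combination (1 / 2 : ℂ) * h3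

/-- the character of the lattice -/
noncomputable def chl (q t l : ℂ) : ℂ :=
  Complex.exp (q * ((starRingEnd ℂ) l * t - (starRingEnd ℂ) t * l))

lemma leg (hpq : ∀ l ∈ L.lattice, eta L l = p * l + q * (starRingEnd ℂ) l) {l m : ℂ}
    (hl : l ∈ L.lattice) (hm : m ∈ L.lattice) : chl q m l = 1 := by
  obtain ⟨C, hC, h1⟩ := sigma_add_coe L hl
  obtain ⟨D, hD, h2⟩ := sigma_add_coe L hm
  set z := L.ω₁ / 2 with hzd
  have hz : sigma L z ≠ 0 := sigma_ne_zero L L.ω₁_div_two_notMem_lattice
  have e1 : sigma L (z + l + m) = D * Complex.exp (eta L m * (z + l)) *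
      (C * Complex.exp (eta L l * z) * sigma L z) := by rw [h2, h1]
  have e2 : sigma L (z + m + l) = C * Complex.exp (eta L l * (z + m)) *
      (D * Complex.exp (eta L m * z) * sigma L z) := by rw [h1, h2]
  have e3 : z + l + m = z + m + l := by ring
  rw [e3, e2] at e1
  have e4 : Complex.exp (eta L l * (z + m)) = Complex.exp (eta L l * z) *
      Complex.exp (eta L l * m) := by rw [← Complex.exp_add]; congr 1; ring
  have e5 : Complex.exp (eta L m * (z + l)) = Complex.exp (eta L m * z) *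
      Complex.exp (eta L m * l) := by rw [← Complex.exp_add]; congr 1; ring
  rw [e4, e5] at e1
  have n1 := Complex.exp_ne_zero (eta L l * z)
  have n2 := Complex.exp_ne_zero (eta L m * z)
  have e6 : Complex.exp (eta L l * m) = Complex.exp (eta L m * l) := by
    have n3 : C * D * sigma L z * Complex.exp (eta L l * z) * Complex.exp (eta L m * z) ≠ 0 := by
      simp [hC, hD, hz]
    apply mul_left_cancel₀ n3
    linear_combination e1
  have e7 : q * ((starRingEnd ℂ) l * m - (starRingEnd ℂ) m * l) =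
      eta L l * m - eta L m * l := by
    rw [hpq l hl, hpq m hm]
    ring
  unfold chl
  rw [e7, Complex.exp_sub, e6, div_self (Complex.exp_ne_zero _)]

/-- quasi-periodicity -/
lemma GG_add (hpq : ∀ l ∈ L.lattice, eta L l = p * l + q * (starRingEnd ℂ) l) {l : ℂ}
    (hl : l ∈ L.lattice) (t v z W : ℂ) :
    GG L p q t (v + (starRingEnd ℂ) l) (z + l) W = chl q t l * GG L p q t v z W := by
  obtain ⟨C, hC, h1⟩ := sigma_add_coe L hl
  have e1 : z + l + W = z + W + l := by ring
  unfold GG chl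
  rw [e1, h1, h1]
  by_cases hz : sigma L z = 0
  · simp [hz]
  by_cases hW : sigma L W = 0
  · simp [hW]
  have n1 := Complex.exp_ne_zero (eta L l * z)
  have n2 := Complex.exp_ne_zero (eta L l * (z + W))
  rw [mul_div_assoc', div_eq_div_iff (by simp [hC, n1, hz, hW]) (by simp [hz, hW])]
  have e2 : Complex.exp (-(p * (z + l) * W) - q * (v + (starRingEnd ℂ) l) * (W - t) -
      q * (starRingEnd ℂ) t * (z + l)) * Complex.exp (eta L l * (z + W)) =
      Complex.exp (q * ((starRingEnd ℂ) l * t - (starRingEnd ℂ) t * l)) *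
      Complex.exp (-(p * z * W) - q * v * (W - t) - q * (starRingEnd ℂ) t * z) *
      Complex.exp (eta L l * z) := by
    rw [← Complex.exp_add, ← Complex.exp_add, ← Complex.exp_add, hpq l hl]
    congr 1
    ring
  linear_combination (C * sigma L (z + W) * sigma L z * sigma L W) * e2

lemma kap_add (hpq : ∀ l ∈ L.lattice, eta L l = p * l + q * (starRingEnd ℂ) l) {l : ℂ}
    (hl : l ∈ L.lattice) (t z : ℂ) : kap L p q t (z + l) = chl q t l * kap L p q t z := by
  rw [← GG_t t ((starRingEnd ℂ) l), ← GG_t t 0, ← GG_add hpq hl, zero_add]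

/-- `κ` is odd -/
lemma kap_neg (hpq : ∀ l ∈ L.lattice, eta L l = p * l + q * (starRingEnd ℂ) l) {t : ℂ}
    (ht : t ∉ L.lattice) (h2 : 2 * t ∈ L.lattice) (z : ℂ) :
    kap L p q t (-z) = -kap L p q t z := by
  obtain ⟨C, hC, h1⟩ := sigma_add_coe L h2
  have hst := sigma_ne_zero L ht
  have e0 : eta L (2 * t) = 2 * (p * t + q * (starRingEnd ℂ) t) := by
    rw [hpq _ h2, map_mul, Complex.conj_ofNat]
    ring
  rw [e0] at h1
  have e1 := h1 (-t)
  have e2 : -t + 2 * t = t := by ring
  rw [e2, sigma_neg] at e1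
  have e3 : C * Complex.exp (2 * (p * t + q * (starRingEnd ℂ) t) * -t) = -1 := by
    apply mul_right_cancel₀ hst
    linear_combination e1
  have e4 := h1 (z - t)
  have e5 : z - t + 2 * t = z + t := by ring
  rw [e5] at e4
  have e6 : sigma L (t - z) = -sigma L (z - t) := by
    rw [← sigma_neg]
    congr 1
    ring
  unfold kap
  have e7 : -z + t = t - z := by ring
  rw [e7, e6, sigma_neg, e4]
  by_cases hz : sigma L z = 0
  · simp [hz]
  rw [← neg_div, div_eq_div_iff (by simp [hz, hst]) (by simp [hz, hst])]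
  have e8 : Complex.exp (-(p * -z * t) - q * (starRingEnd ℂ) t * -z) =
      -(C * Complex.exp (-(p * z * t) - q * (starRingEnd ℂ) t * z) *
      Complex.exp (2 * (p * t + q * (starRingEnd ℂ) t) * (z - t))) := by
    have e9 : Complex.exp (-(p * z * t) - q * (starRingEnd ℂ) t * z) *
      Complex.exp (2 * (p * t + q * (starRingEnd ℂ) t) * (z - t)) =
      Complex.exp (-(p * -z * t) - q * (starRingEnd ℂ) t * -z) *
      Complex.exp (2 * (p * t + q * (starRingEnd ℂ) t) * -t) := by
      rw [← Complex.exp_add, ← Complex.exp_add]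
      congr 1
      ring
    linear_combination C * e9 + (Complex.exp (-(p * -z * t) -
      q * (starRingEnd ℂ) t * -z)) * e3
  rw [e8]
  ring

/-- `κ² = ℘ - ℘(t)` -/
lemma kap_sq (hpq : ∀ l ∈ L.lattice, eta L l = p * l + q * (starRingEnd ℂ) l) {t : ℂ}
    (ht : t ∉ L.lattice) (h2 : 2 * t ∈ L.lattice) {z : ℂ} (hz : z ∉ L.lattice) :
    kap L p q t z ^ 2 = ℘[L] z - ℘[L] t := by
  have hst := sigma_ne_zero L ht
  have hsz := sigma_ne_zero L hz
  have e1 := sigma_mul_sigma L hz ht
  have e2 : kap L p q t z ^ 2 = -(kap L p q t z * kap L p q t (-z)) := by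
    rw [kap_neg hpq ht h2]
    ring
  rw [e2]
  unfold kap
  have e7 : -z + t = -(z - t) := by ring
  rw [e7, sigma_neg, sigma_neg]
  have e8 : Complex.exp (-(p * z * t) - q * (starRingEnd ℂ) t * z) *
      Complex.exp (-(p * -z * t) - q * (starRingEnd ℂ) t * -z) = 1 := by
    rw [← Complex.exp_add]
    convert Complex.exp_zero using 2
    ring
  have e9 : -(Complex.exp (-(p * z * t) - q * (starRingEnd ℂ) t * z) * sigma L (z + t) /
      (sigma L z * sigma L t) * (Complex.exp (-(p * -z * t) - q * (starRingEnd ℂ) t * -z) *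
      -sigma L (z - t) / (-sigma L z * sigma L t))) =
      -((Complex.exp (-(p * z * t) - q * (starRingEnd ℂ) t * z) *
      Complex.exp (-(p * -z * t) - q * (starRingEnd ℂ) t * -z)) *
      (sigma L (z + t) * sigma L (z - t)) / (sigma L z ^ 2 * sigma L t ^ 2)) := by
    field_simp
  rw [e9, e8, e1]
  field_simp

end Run7.h359.BK
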