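import Pool.Agent.Run7.h359.Der

/-!
# The Taylor coefficients of the Kronecker function at a point of order two
-/

set_option autoImplicit false
set_option linter.unusedSectionVars false

open Filter
open scoped Topology PeriodPair

namespace Run7.h359.BK

open H667R3 Pool.Agent.TH936.CW

variable (L : PeriodPair) (p q t : ℂ)

/-- the Taylor coefficients -/
noncomputable def Ae (e : ℕ) (v z : ℂ) : ℂ := iteratedDeriv e (fun W => GG L p q t v z W) t

/-- the second factor -/
noncomputable def Rr (W : ℂ) : ℂ := Complex.exp (p * W ^ 2 / 2) * (sigma L W)⁻¹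

variable {L p q t}

lemma Rr_an (ht : t ∉ L.lattice) : AnalyticAt ℂ (Rr L p) t := by
  unfold Rr
  have h1 : AnalyticAt ℂ (sigma L) t := (differentiable_sigma L).analyticAt t
  exact AnalyticAt.mul (by fun_prop) (h1.inv (sigma_ne_zero L ht))

lemma GG_an (ht : t ∉ L.lattice) (v z : ℂ) : AnalyticAt ℂ (fun W => GG L p q t v z W) t := by
  have h1 : AnalyticAt ℂ (sigma L) t := (differentiable_sigma L).analyticAt t
  have h2 : AnalyticAt ℂ (fun W => sigma L (z + W)) t := by
    have : Differentiable ℂ (fun W => sigma L (z + W)) :=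
      (differentiable_sigma L).comp (by fun_prop : Differentiable ℂ fun W : ℂ => z + W)
    exact this.analyticAt t
  have h3 : AnalyticAt ℂ (fun W => Complex.exp (-(p * z * W) - q * v * (W - t) -
      q * (starRingEnd ℂ) t * z)) t := by fun_prop
  have h4 := ((h3.mul h2).mul (analyticAt_const (v := (sigma L z)⁻¹))).mul
    (h1.inv (sigma_ne_zero L ht))
  refine h4.congr (Eventually.of_forall fun W => ?_)
  simp only [Pi.mul_apply, Pi.inv_apply]
  unfold GG
  rw [div_eq_mul_inv, mul_inv]
  ring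

lemma GG_v (v z W : ℂ) : GG L p q t v z W =
    Complex.exp (-(q * v) * W) * (Complex.exp (q * v * t) * GG L p q t 0 z W) := by
  unfold GG
  have e : Complex.exp (-(p * z * W) - q * v * (W - t) - q * (starRingEnd ℂ) t * z) =
      Complex.exp (-(q * v) * W) * (Complex.exp (q * v * t) *
        Complex.exp (-(p * z * W) - q * 0 * (W - t) - q * (starRingEnd ℂ) t * z)) := by
    rw [← Complex.exp_add, ← Complex.exp_add]
    congr 1
    ring
  rw [e]
  ring

lemma Ae_sum (ht : t ∉ L.lattice) (e : ℕ) (v z : ℂ) : Ae L p q t e v z =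
    ∑ i ∈ Finset.range (e + 1), (e.choose i * iteratedDeriv (e - i)
      (fun W => GG L p q t 0 z W) t * (-q) ^ i) * v ^ i := by
  unfold Ae
  have h0 : (fun W => GG L p q t v z W) = fun W => (fun W => Complex.exp (-(q * v) * W)) W *
      (fun W => Complex.exp (q * v * t) * GG L p q t 0 z W) W := by
    funext W
    exact GG_v v z W
  rw [h0]
  have h1 : AnalyticAt ℂ (fun W : ℂ => Complex.exp (-(q * v) * W)) t := by fun_prop
  have h2 : AnalyticAt ℂ (fun W : ℂ => Complex.exp (q * v * t) * GG L p q t 0 z W) t :=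
    analyticAt_const.mul (GG_an ht 0 z)
  have h3 := iteratedDeriv_mul (n := e) h1.contDiffAt h2.contDiffAt
  refine h3.trans ?_
  refine Finset.sum_congr rfl fun i _ => ?_
  have h4 : iteratedDeriv i (fun W : ℂ => Complex.exp (-(q * v) * W)) t =
      (-(q * v)) ^ i * Complex.exp (-(q * v) * t) :=
    congrFun (iteratedDeriv_cexp_const_mul i (-(q * v))) t
  have h5 : iteratedDeriv (e - i) (fun W => Complex.exp (q * v * t) * GG L p q t 0 z W) t =
      Complex.exp (q * v * t) * iteratedDeriv (e - i) (fun W => GG L p q t 0 z W) t := by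
    rw [iteratedDeriv_const_mul_field]
  have h6 : Complex.exp (-(q * v) * t) * Complex.exp (q * v * t) = 1 := by
    rw [← Complex.exp_add]
    convert Complex.exp_zero using 2
    ring
  rw [h4, h5]
  have h7 : (-(q * v)) ^ i = (-q) ^ i * v ^ i := by
    rw [← mul_pow]
    congr 1
    ring
  rw [h7]
  linear_combination ((e.choose i : ℂ) * ((-q) ^ i * v ^ i) *
    iteratedDeriv (e - i) (fun W => GG L p q t 0 z W) t) * h6

lemma Ae_bd (ht : t ∉ L.lattice) (e : ℕ) (z : ℂ) : Bd e (fun v => Ae L p q t e v z) := by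
  refine ⟨∑ i ∈ Finset.range (e + 1), Polynomial.C (e.choose i * iteratedDeriv (e - i)
      (fun W => GG L p q t 0 z W) t * (-q) ^ i) * Polynomial.X ^ i, ?_, fun v => ?_⟩
  · refine Polynomial.natDegree_sum_le_of_forall_le _ _ fun i hi => ?_
    refine (Polynomial.natDegree_C_mul_le _ _).trans ((Polynomial.natDegree_X_pow_le i).trans ?_)
    have := Finset.mem_range.1 hi
    omega
  · beta_reduce
    rw [Ae_sum ht, Polynomial.eval_finsetSum]
    refine Finset.sum_congr rfl fun i _ => ?_
    rw [Polynomial.eval_mul, Polynomial.eval_C, Polynomial.eval_pow, Polynomial.eval_X]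

lemma GG_H (v : ℂ) {z : ℂ} (hz : z ∉ L.lattice) (W : ℂ) : GG L p q t v z W =
    Complex.exp (q * v * t - q * (starRingEnd ℂ) t * z) * (Hh L p q v z)⁻¹ *
      (Hh L p q v (z + W) * Rr L p W) := by
  have hs := sigma_ne_zero L hz
  have e1 : Complex.exp (-(p * z * W) - q * v * (W - t) - q * (starRingEnd ℂ) t * z) =
      Complex.exp (q * v * t - q * (starRingEnd ℂ) t * z) *
        (Complex.exp (-(q * v * z) - p * z ^ 2 / 2))⁻¹ *
        (Complex.exp (-(q * v * (z + W)) - p * (z + W) ^ 2 / 2) *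
          Complex.exp (p * W ^ 2 / 2)) := by
    rw [← Complex.exp_neg, ← Complex.exp_add, ← Complex.exp_add, ← Complex.exp_add]
    congr 1
    ring
  unfold GG Hh Rr
  rw [e1, mul_inv, div_eq_mul_inv, mul_inv]
  ring

variable (L p q t)

/-- the regular sum -/
noncomputable def Sm (e : ℕ) (v z : ℂ) : ℂ := ∑ i ∈ Finset.range (e + 1),
  e.choose i * iteratedDeriv i (Hh L p q v) (z + t) * iteratedDeriv (e - i) (Rr L p) t

variable {L p q t}

lemma Sm_an (e : ℕ) (v z : ℂ) : AnalyticAt ℂ (Sm L p q t e v) z := by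
  unfold Sm
  refine Finset.analyticAt_fun_sum _ fun i _ => ?_
  refine AnalyticAt.mul (analyticAt_const.mul ?_) analyticAt_const
  have h1 : AnalyticAt ℂ (iteratedDeriv i (Hh L p q v)) (z + t) :=
    ((Hh_diff L p q v).analyticAt (z + t)).iterated_deriv i |>.congr (by
      rw [iteratedDeriv_eq_iterate])
  have h3 : AnalyticAt ℂ (fun z : ℂ => z + t) z := by fun_prop
  exact AnalyticAt.fun_comp (f := fun z : ℂ => z + t) (g := iteratedDeriv i (Hh L p q v)) h1 h3

lemma Ae_Sm (ht : t ∉ L.lattice) (e : ℕ) (v : ℂ) {z : ℂ} (hz : z ∉ L.lattice) :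
    Ae L p q t e v z = Complex.exp (q * v * t - q * (starRingEnd ℂ) t * z) *
      (Hh L p q v z)⁻¹ * Sm L p q t e v z := by
  unfold Ae
  have h0 : (fun W => GG L p q t v z W) = fun W => (Complex.exp (q * v * t -
      q * (starRingEnd ℂ) t * z) * (Hh L p q v z)⁻¹) *
      ((fun W => Hh L p q v (z + W)) W * Rr L p W) := by
    funext W
    exact GG_H v hz W
  rw [h0, iteratedDeriv_const_mul_field]
  congr 1
  have h2 : AnalyticAt ℂ (fun W => Hh L p q v (z + W)) t := by
    have : Differentiable ℂ (fun W => Hh L p q v (z + W)) :=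
      (Hh_diff L p q v).comp (by fun_prop : Differentiable ℂ fun W : ℂ => z + W)
    exact this.analyticAt t
  have h3 := iteratedDeriv_mul (n := e) h2.contDiffAt (Rr_an (p := p) ht).contDiffAt
  refine h3.trans ?_
  unfold Sm
  refine Finset.sum_congr rfl fun i _ => ?_
  have h4 : iteratedDeriv i (fun W => Hh L p q v (z + W)) t =
      iteratedDeriv i (Hh L p q v) (z + t) := by
    rw [iteratedDeriv_comp_const_add]
  rw [h4]

lemma Ae_an (ht : t ∉ L.lattice) (e : ℕ) (v : ℂ) {z : ℂ} (hz : z ∉ L.lattice) :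
    AnalyticAt ℂ (fun z => Ae L p q t e v z) z := by
  have h1 : AnalyticAt ℂ (fun z => Complex.exp (q * v * t - q * (starRingEnd ℂ) t * z) *
      (Hh L p q v z)⁻¹ * Sm L p q t e v z) z := by
    have h2 : AnalyticAt ℂ (Hh L p q v) z := (Hh_diff L p q v).analyticAt z
    exact AnalyticAt.mul (AnalyticAt.mul (by fun_prop) (h2.inv (Hh_ne L p q v hz))) (Sm_an e v z)
  refine h1.congr ?_
  filter_upwards [(isOpen_compl L).mem_nhds hz] with s hs
  exact (Ae_Sm ht e v hs).symm

/-- the behaviour at the origin -/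
lemma Ae_near (ht : t ∉ L.lattice) (e : ℕ) (v : ℂ) : ∃ Ψ : ℂ → ℂ, AnalyticAt ℂ Ψ 0 ∧
    ∀ᶠ z in 𝓝[≠] (0 : ℂ), Ae L p q t e v z = (-(q * v)) ^ e / z + Ψ z := by
  set Φ : ℂ → ℂ := fun z => Complex.exp (q * v * t - q * (starRingEnd ℂ) t * z) *
    (Ht L p q v z)⁻¹ * Sm L p q t e v z with hΦ
  have hΦa : AnalyticAt ℂ Φ 0 := by
    refine AnalyticAt.mul (AnalyticAt.mul (by fun_prop) ((Ht_an L p q v 0).inv ?_)) (Sm_an e v 0)
    rw [Ht_zero]
    exact one_ne_zero
  have hΦ0 : Φ 0 = (-(q * v)) ^ e := by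
    have h1 : Sm L p q t e v 0 = iteratedDeriv e (fun W => Hh L p q v W * Rr L p W) t := by
      have h3 := iteratedDeriv_mul (n := e) ((Hh_diff L p q v).analyticAt t).contDiffAt
        (Rr_an (p := p) ht).contDiffAt
      refine Eq.trans ?_ h3.symm
      unfold Sm
      rw [zero_add]
    have h2 : (fun W => Hh L p q v W * Rr L p W) =ᶠ[𝓝 t]
        fun W => Complex.exp (-(q * v) * W) := by
      filter_upwards [(isOpen_compl L).mem_nhds ht] with s hs
      have hss := sigma_ne_zero L hs
      unfold Hh Rr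
      have e1 : Complex.exp (-(q * v * s) - p * s ^ 2 / 2) * Complex.exp (p * s ^ 2 / 2) =
          Complex.exp (-(q * v) * s) := by
        rw [← Complex.exp_add]
        congr 1
        ring
      rw [← e1]
      field_simp
    have h3 : iteratedDeriv e (fun W : ℂ => Complex.exp (-(q * v) * W)) t =
        (-(q * v)) ^ e * Complex.exp (-(q * v) * t) :=
      congrFun (iteratedDeriv_cexp_const_mul e (-(q * v))) t
    have h6 : Complex.exp (q * v * t - q * (starRingEnd ℂ) t * 0) *
        Complex.exp (-(q * v) * t) = 1 := by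
      rw [← Complex.exp_add]
      convert Complex.exp_zero using 2
      ring
    rw [hΦ]
    simp only
    rw [Ht_zero, inv_one, mul_one, h1, h2.iteratedDeriv_eq, h3]
    linear_combination ((-(q * v)) ^ e) * h6
  refine ⟨dslope Φ 0, dsl hΦa, ?_⟩
  filter_upwards [near L, self_mem_nhdsWithin] with z hz hz0
  have hz0' : z ≠ 0 := hz0
  rw [dslope_of_ne _ hz0', slope_def_field, sub_zero, hΦ0]
  have h2 : Hh L p q v z = z * Ht L p q v z := by
    unfold Hh Ht
    rw [sigma_eq_mul]
    ring
  rw [Ae_Sm ht e v hz, h2, mul_inv]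
  have h5 : Φ z = Complex.exp (q * v * t - q * (starRingEnd ℂ) t * z) *
    (Ht L p q v z)⁻¹ * Sm L p q t e v z := rfl
  rw [h5]
  field_simp
  ring

/-- quasi-periodicity -/
lemma Ae_add (hpq : ∀ l ∈ L.lattice, eta L l = p * l + q * (starRingEnd ℂ) l) {l : ℂ}
    (hl : l ∈ L.lattice) (e : ℕ) (v z : ℂ) :
    Ae L p q t e (v + (starRingEnd ℂ) l) (z + l) = chl q t l * Ae L p q t e v z := by
  unfold Ae
  have h0 : (fun W => GG L p q t (v + (starRingEnd ℂ) l) (z + l) W) =
      fun W => chl q t l * GG L p q t v z W := funext fun W => GG_add hpq hl t v z W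
  rw [h0, iteratedDeriv_const_mul_field]

end Run7.h359.BK
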