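import Pool.Agent.R413.SM.S2

/-!
# The joint count in a box for the sets with a given label

`l` is a function on the primes with values in a finite abelian group; the label of a set of primes is
the sum of the values of `l`. The count of `Pool.Agent.R413.SM.S2` (starting files) in a box holds for the
sets of the box with a given label.
-/

set_option autoImplicit false

open scoped Classical

namespace Run7.h359.LB

open Finset
open Pool.Agent.Y703.CX (sm la jj XX)
open Pool.Agent.Y703.CQ (nr sg prs HB S_EQ c2)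
open Pool.Agent.R413.SQ
open Pool.Agent.R413.SQ.SM (GdF NdF BX box_dec)
open Pool.Agent.R413.SQ.BOX (HB_sub)
open Pool.Agent.R413.SQ.KEY (ph ky KP le_XX cl_prime cl_ne CC mem_CC sm_fill la_fill rr_facts inj_ph
  rr_iff key_bij CC_facts CC_disj hb_box prs_card card_sub TT mem_TT harm_TT)

variable {G : Type} [AddCommGroup G] [Fintype G]

/-- the label of a set is `a` -/
def Lab (l : ℕ → G) (a : G) (S : Finset ℕ) : Prop := ∑ q ∈ S, l q = a

theorem box_lab {M : ℕ} {ε : ℝ} {R : ℕ} (hBOX : BX M ε R)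
    (F : Fin M → ℕ → ZMod 2) (V : Fin M → Finset ℕ) (ι : Type) [Fintype ι] [DecidableEq ι]
    (lo : LinearOrder ι) (J1 : Finset ι) (C : ι → Finset ℕ) (X : ι → ℕ) (κ : ℝ)
    (S₀ W : Finset ℕ) (g2 : ∀ i, V i ⊆ W)
    (h1 : 0 ≤ κ) (h2 : ∀ i, (C i).card ≤ X i) (h3 : HB J1 C X κ)
    (h4 : ∀ u ∈ S₀ ∪ W, (u.Prime ∧ u % 4 = 1) ∧ u ≠ 2)
    (h5 : ∀ i, ∀ p ∈ C i, (p.Prime ∧ p % 4 = 1) ∧ p ≠ 2 ∧ p ∉ S₀ ∪ W ∧ (i ∈ J1 ↔ mk p = 1))
    (h6 : ∀ i l, i ≠ l → Disjoint (C i) (C l)) (h7 : ∃ i, i ∉ J1) (l : ℕ → G) (a : G) {e : ℕ}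
    (hG : Fintype.card G ≤ 2 ^ e) :
    |(((Fintype.piFinset C).filter fun p => Lab l a (S₀ ∪ univ.image p) ∧
        (NdF R W F V S₀ (univ.image p) ∧ GdF F V (S₀ ∪ univ.image p))).card : ℝ) -
      c2 ^ M * (((Fintype.piFinset C).filter fun p => Lab l a (S₀ ∪ univ.image p) ∧
        NdF R W F V S₀ (univ.image p)).card : ℝ)| ≤
    ε * (((Fintype.piFinset C).filter fun p => Lab l a (S₀ ∪ univ.image p) ∧
        NdF R W F V S₀ (univ.image p)).card : ℝ) +
    2 ^ (e * Fintype.card ι) *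
    (2 ^ ((2 * (S₀ ∪ W).card + 1 + M) * Fintype.card ι + (@prs ι _ lo J1).card) *
      (κ * ∏ j, (X j : ℝ))) := by
  set E : ℝ := 2 ^ ((2 * (S₀ ∪ W).card + 1 + M) * Fintype.card ι + (@prs ι _ lo J1).card) *
      (κ * ∏ j, (X j : ℝ)) with hE
  have hE0 : 0 ≤ E := by
    have : 0 ≤ ∏ j, (X j : ℝ) := Finset.prod_nonneg fun j _ => by positivity
    positivity
  have hinj : ∀ p ∈ Fintype.piFinset C, Function.Injective p := by
    intro p hp i j hij
    rw [Fintype.mem_piFinset] at hp
    by_contra hne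
    have h1 := Finset.disjoint_left.1 (h6 i j hne) (hp i)
    rw [hij] at h1
    exact h1 (hp j)
  have hlab : ∀ p ∈ Fintype.piFinset C, (Lab l a (S₀ ∪ univ.image p) ↔
      ∑ q ∈ S₀, l q + ∑ i, l (p i) = a) := by
    intro p hp
    unfold Lab
    rw [Finset.sum_union, Finset.sum_image fun i _ j _ h => hinj p hp h]
    rw [Finset.disjoint_right]
    intro q hq
    rw [Finset.mem_image] at hq
    obtain ⟨i, -, rfl⟩ := hq
    rw [Fintype.mem_piFinset] at hp
    exact fun h => (h5 i _ (hp i)).2.2.1 (Finset.mem_union_left _ h)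
  set LL : Finset (ι → G) := univ.filter fun β => ∑ q ∈ S₀, l q + ∑ i, β i = a with hLL
  have hfib : ∀ (T : (ι → ℕ) → Prop) [DecidablePred T],
      (((Fintype.piFinset C).filter fun p => Lab l a (S₀ ∪ univ.image p) ∧ T p).card : ℝ) =
      ∑ β ∈ LL, (((Fintype.piFinset fun i => (C i).filter fun q => l q = β i).filter T).card : ℝ) := by
    intro T _
    rw [Finset.card_eq_sum_card_fiberwise (f := fun (p : ι → ℕ) (i : ι) => l (p i))
      (t := LL) (by
        intro p hp
        rw [Finset.mem_coe, Finset.mem_filter] at hp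
        rw [Finset.mem_coe, hLL, Finset.mem_filter]
        exact ⟨Finset.mem_univ _, (hlab p hp.1).1 hp.2.1⟩)]
    push_cast
    refine Finset.sum_congr rfl fun β hβ => ?_
    rw [hLL, Finset.mem_filter] at hβ
    congr 2
    ext p
    simp only [Finset.mem_filter, Fintype.mem_piFinset]
    constructor
    · rintro ⟨⟨h3, h4, h4'⟩, h5⟩
      exact ⟨fun i => ⟨h3 i, congrFun h5 i⟩, h4'⟩
    · rintro ⟨h3, h4⟩
      have h8 : (fun i => l (p i)) = β := funext fun i => (h3 i).2
      refine ⟨⟨fun i => (h3 i).1, ?_, h4⟩, h8⟩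
      refine (hlab p (Fintype.mem_piFinset.2 fun i => (h3 i).1)).2 ?_
      rw [← hβ.2, ← h8]
  have hβ : ∀ β ∈ LL,
      |(((Fintype.piFinset fun i => (C i).filter fun q => l q = β i).filter fun p =>
          NdF R W F V S₀ (univ.image p) ∧ GdF F V (S₀ ∪ univ.image p)).card : ℝ) -
        c2 ^ M * (((Fintype.piFinset fun i => (C i).filter fun q => l q = β i).filter fun p =>
          NdF R W F V S₀ (univ.image p)).card : ℝ)| ≤
      ε * (((Fintype.piFinset fun i => (C i).filter fun q => l q = β i).filter fun p =>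
          NdF R W F V S₀ (univ.image p)).card : ℝ) + E := by
    intro β _
    exact box_dec hBOX F V ι lo J1 (fun i => (C i).filter fun q => l q = β i) X κ S₀ W g2 h1
      (fun i => (Finset.card_le_card (Finset.filter_subset _ _)).trans (h2 i))
      (HB_sub h3 fun i q => l q = β i) h4
      (fun i p hp => h5 i p (Finset.mem_filter.1 hp).1)
      (fun i j hij => Finset.disjoint_of_subset_left (Finset.filter_subset _ _)
        (Finset.disjoint_of_subset_right (Finset.filter_subset _ _) (h6 i j hij))) h7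
  rw [hfib fun p => NdF R W F V S₀ (univ.image p) ∧ GdF F V (S₀ ∪ univ.image p),
    hfib fun p => NdF R W F V S₀ (univ.image p), Finset.mul_sum, ← Finset.sum_sub_distrib]
  refine (Finset.abs_sum_le_sum_abs _ _).trans ?_
  refine (Finset.sum_le_sum hβ).trans ?_
  rw [Finset.sum_add_distrib, ← Finset.mul_sum, Finset.sum_const, nsmul_eq_mul]
  refine add_le_add le_rfl (mul_le_mul_of_nonneg_right ?_ hE0)
  have h8 : LL.card ≤ 2 ^ (e * Fintype.card ι) := by
    refine (Finset.card_le_univ _).trans ?_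
    rw [Fintype.card_fun, pow_mul]
    exact Nat.pow_le_pow_left hG _
  exact_mod_cast h8

theorem per_key_lab {M : ℕ} {ε : ℝ} {R : ℕ} (hε : 0 < ε) (hBOX : BX M ε R)
    (F : Fin M → ℕ → ZMod 2) (V : Fin M → Finset ℕ)
    {I K : Finset ℕ} (hok : Ok I K) {X z H k v : ℕ} (hH : 1 ≤ H)
    {κ : ℝ} (hκ : 0 ≤ κ) {W : Finset ℕ} (g1 : ∀ u ∈ W, u.Prime ∧ u % 4 = 1)
    (g2 : ∀ i, V i ⊆ W) (g3 : ∀ u ∈ W, u ≤ z) (g4 : W.card ≤ k)
    {S₀ : Finset ℕ} {J : Finset (ℕ × ℕ)} (hk : KP I K X z H k v S₀ J)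
    (hHB : HB (univ.filter fun e : J => e.1.2 = 1) (fun i : J => CC I z H i)
      (fun i => XX H i.1.1) κ) (l : ℕ → G) (a : G) {e : ℕ}
    (hG : Fintype.card G ≤ 2 ^ e) :
    |(((RR I K X z H k v).filter fun S => ky z H S = (S₀, J) ∧
        (Lab l a S ∧ (NdF R W F V (sm z S) (la z S) ∧ GdF F V S))).card : ℝ) -
      c2 ^ M * (((RR I K X z H k v).filter fun S => ky z H S = (S₀, J) ∧
        (Lab l a S ∧ NdF R W F V (sm z S) (la z S))).card : ℝ)| ≤
    ε * (((RR I K X z H k v).filter fun S => ky z H S = (S₀, J) ∧ Lab l a S).card : ℝ) +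
      (3 ^ ((6 + (M + e)) * k ^ 2) * κ) * (X / ((∏ p ∈ S₀, p : ℕ) : ℝ)) := by
  set J1 : Finset J := univ.filter fun e : J => e.1.2 = 1 with hJ1
  have hinj : Function.Injective (fun i : J => i.1.1) := by
    intro a b hab
    exact Subtype.ext (hk.inj (Finset.mem_coe.2 a.2) (Finset.mem_coe.2 b.2) hab)
  let lo : LinearOrder J := LinearOrder.lift' (fun i : J => i.1.1) hinj
  have hbox := box_lab hBOX F V J lo J1 (fun i => CC I z H i) (fun i => XX H i.1.1) κ S₀ W g2 hκ
    (fun i => by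
      refine (Finset.card_filter_le _ _).trans ?_
      rw [Nat.card_Icc]
      omega)
    hHB (fun u hu => by
      rcases Finset.mem_union.1 hu with hu | hu
      · exact ⟨pr1 (hk.cl u hu), cl_ne hok (hk.cl u hu)⟩
      · exact ⟨g1 u hu, fun h => by have := (g1 u hu).2; omega⟩)
    (fun i p hp => by
      obtain ⟨h3, h3', h4, h5⟩ := CC_facts hH hp
      refine ⟨pr1 h3, cl_ne hok h3, fun h => ?_, ?_⟩
      · rcases Finset.mem_union.1 h with h | h
        · have := hk.le p h
          omega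
        · have := g3 p h
          omega
      · rw [hJ1, Finset.mem_filter, h5]
        simp)
    (fun i l hil => CC_disj hH i l hil)
    (by
      obtain ⟨e, he, h1⟩ := hk.ine
      exact ⟨⟨e, he⟩, fun h => h1 (Finset.mem_filter.1 h).2⟩) l a hG
  have hU : ∀ (Q : Finset ℕ → Finset ℕ → Prop) [∀ A B, Decidable (Q A B)],
      ((Fintype.piFinset fun i : J => CC I z H i).filter fun p =>
        Q S₀ (univ.image p)).card =
      ((RR I K X z H k v).filter fun S => ky z H S = (S₀, J) ∧ Q (sm z S) (la z S)).card := by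
    intro Q _
    have h0 := key_bij hH hk (fun S => Q (sm z S) (la z S))
    refine Eq.trans ?_ (h0.trans ?_)
    · congr 1
      refine Finset.filter_congr fun p hp => ?_
      rw [Fintype.mem_piFinset] at hp
      rw [sm_fill hH hk.le hp, la_fill hH hk.le hp]
    · congr!
  have hSU : ∀ S : Finset ℕ, sm z S ∪ la z S = S := by
    intro S
    unfold sm la
    exact Finset.filter_union_filter_not_eq _ _
  have e1 := hU fun A B => Lab l a (A ∪ B) ∧ (NdF R W F V A B ∧ GdF F V (A ∪ B))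
  have e2 := hU fun A B => Lab l a (A ∪ B) ∧ NdF R W F V A B
  simp only [hSU] at e1 e2
  rw [e1, e2] at hbox
  refine hbox.trans (add_le_add ?_ ?_)
  · have h4 : (((RR I K X z H k v).filter fun S => ky z H S = (S₀, J) ∧
        (Lab l a S ∧ NdF R W F V (sm z S) (la z S))).card : ℝ) ≤
        (((RR I K X z H k v).filter fun S => ky z H S = (S₀, J) ∧ Lab l a S).card : ℝ) := by
      have : (RR I K X z H k v).filter (fun S => ky z H S = (S₀, J) ∧
          (Lab l a S ∧ NdF R W F V (sm z S) (la z S))) ⊆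
          (RR I K X z H k v).filter fun S => ky z H S = (S₀, J) ∧ Lab l a S := by
        intro S hS
        rw [Finset.mem_filter] at hS ⊢
        exact ⟨hS.1, hS.2.1, hS.2.2.1⟩
      exact_mod_cast Finset.card_le_card this
    gcongr
  · have hcJ : Fintype.card J = J.card := Fintype.card_coe J
    have hcard := hk.card
    have hJK : J.card ≤ k := by omega
    have hSK : S₀.card ≤ k := by omega
    have hSW : (S₀ ∪ W).card ≤ 2 * k := (Finset.card_union_le _ _).trans (by omega)
    obtain ⟨m, hm⟩ : ∃ m : ℕ, m = (@prs J _ lo J1).card := ⟨_, rfl⟩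
    have hpr : m ≤ k * k := by
      rw [hm]
      refine (@prs_card J _ lo J1).trans ?_
      rw [hcJ]
      exact Nat.mul_le_mul hJK hJK
    rw [← hm, ← mul_assoc, ← pow_add]
    have h5 : (2 : ℝ) ^ (e * Fintype.card J + ((2 * (S₀ ∪ W).card + 1 + M) * Fintype.card J + m)) ≤
        3 ^ ((6 + (M + e)) * k ^ 2) := by
      have hexp : e * Fintype.card J + ((2 * (S₀ ∪ W).card + 1 + M) * Fintype.card J + m) ≤
          (6 + (M + e)) * k ^ 2 := by
        rw [hcJ]
        have h6 : (S₀ ∪ W).card * J.card ≤ 2 * k * k := Nat.mul_le_mul hSW hJK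
        have h7 : k ≤ k * k := by
          rcases Nat.eq_zero_or_pos k with h | h
          · rw [h]
          · exact Nat.le_mul_of_pos_left k h
        have h8 : M * J.card ≤ M * (k * k) := Nat.mul_le_mul_left _ (hJK.trans h7)
        have h9 : e * J.card ≤ e * (k * k) := Nat.mul_le_mul_left _ (hJK.trans h7)
        calc e * J.card + ((2 * (S₀ ∪ W).card + 1 + M) * J.card + m) =
              e * J.card + 2 * ((S₀ ∪ W).card * J.card) + J.card + M * J.card + m := by
              ring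
          _ ≤ e * (k * k) + 2 * (2 * k * k) + k * k + M * (k * k) + k * k := by omega
          _ = (6 + (M + e)) * k ^ 2 := by ring
      calc (2 : ℝ) ^ (e * Fintype.card J + ((2 * (S₀ ∪ W).card + 1 + M) * Fintype.card J + m)) ≤
            2 ^ ((6 + (M + e)) * k ^ 2) := pow_le_pow_right₀ (by norm_num) hexp
        _ ≤ 3 ^ ((6 + (M + e)) * k ^ 2) := by
            apply pow_le_pow_left₀ <;> norm_num
    have hN0 : (0 : ℝ) < ((∏ p ∈ S₀, p : ℕ) : ℝ) := by
      exact_mod_cast Finset.prod_pos fun p hp => (cl_prime (hk.cl p hp)).pos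
    have hprod : ∏ j : J, (XX H j.1.1 : ℝ) ≤ X / ((∏ p ∈ S₀, p : ℕ) : ℝ) := by
      have h5 : ∏ j : J, (XX H j.1.1 : ℝ) = ((∏ k ∈ J, XX H k.1 : ℕ) : ℝ) := by
        rw [← Finset.prod_coe_sort J (fun k => XX H k.1)]
        push_cast
        rfl
      rw [h5, le_div_iff₀ hN0, mul_comm]
      exact_mod_cast hk.prod
    calc (2 : ℝ) ^ (e * Fintype.card J + ((2 * (S₀ ∪ W).card + 1 + M) * Fintype.card J + m)) *
        (κ * ∏ j : J, (XX H j.1.1 : ℝ)) ≤
        3 ^ ((6 + (M + e)) * k ^ 2) * (κ * (X / ((∏ p ∈ S₀, p : ℕ) : ℝ))) := by gcongr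
      _ = _ := by ring

end Run7.h359.LB
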