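import Pool.Agent.Run7.h359.La9
import Pool.Agent.R413.SM.L8

/-!
# The joint law for the sets with a given label

After `Pool.Agent.R413.SM.S4` (starting files).
-/

set_option autoImplicit false

open scoped Classical
open Finset Filter

namespace Run7.h359.LB

open Pool.Agent.Y703.CX (sm la jj XX eL zz kk S_SIE eL_tendsto logX_eq rpow_eL HH NN ev_eL one_le_exp
  HH_ge HH_le HH_pos kk_ge kk_le X_pos one_add_log lin_le kap zz_ge zz_pos kap_nonneg kap_pow kap_le)
open Pool.Agent.Y703.CQ (nr sg prs HB S_EQ ext GdA S_SYM S_C2 S_LA c2 S_MER S_CHE)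
open Pool.Agent.Y687.JQ (S_JLA)
open Pool.Agent.R413.SQ Pool.Agent.R413.SQ.SM

variable {A : Type} [AddCommGroup A] [Fintype A]

/-- the labelled count -/
theorem lab_DQ (e₀ : ℕ) (hA : Fintype.card A ≤ 2 ^ e₀) (l : ℕ → A) (a₀ : A)
    (h1 : S_BIL) (h3 : S_EQ) (h4 : S_JLA)
    (hC : CntP) (hS : S_SIE) (hH : S_HAL) (hB : S_JBAD) (hF : S_FEW)
    (hM : S_MER) (hCh : S_CHE) (hLo : S_LOW) (hc2 : S_C2) {M : ℕ} (I K : Finset ℕ)
    (F : Fin M → ℕ → ZMod 2) (V : Fin M → Finset ℕ) (W : Finset ℕ) (hO : Ok I K)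
    (hW1 : ∀ u ∈ W, u.Prime ∧ u % 4 = 1) (hW2 : ∀ i, V i ⊆ W)
    (hpos : ∀ i j, i ≠ j → Pos (dd F V i j)) (ε : ℝ) (hε : 0 < ε) : ∀ᶠ X : ℕ in atTop,
    |((((SS I K X).filter (Lab l a₀)).filter (GdF F V)).card : ℝ) -
      c2 ^ M * (((SS I K X).filter (Lab l a₀)).card : ℝ)| ≤ ε * ((SS I K X).card : ℝ) := by
  obtain ⟨c, X₀, hc, hlow⟩ := hLo hM hCh I K hO
  obtain ⟨δB, CB, XB, hδB, hbad⟩ := hB hS hH hM I K W hO hW1
  have hdp := dl_pos hO
  have hdl := dl_lt hO
  obtain ⟨R, C, hC1, hkey⟩ := lab_KEYF h1 h3 h4 M e₀ hA l a₀ (ε / 4) (by linarith)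
  set v : ℕ := 2 * W.card + R with hv
  obtain ⟨CF, XF, hfew⟩ := hF hS hM I K v hO
  have s1 := sml_many hO (t := 1 - dl I) (by linarith) hC
  have s2 := sml_cut hO (t := 1 - dl I) (by linarith) hC
  have s3 := sml_coll hO (t := 1 - dl I) (by linarith) hC
  have s4 := sml_rpow (t := 1 - dl I) (by linarith) hfew
  have s5 := sml_rpow (t := 1 - dl I) (by linarith) hbad
  have s6 := sml_mainF (M + e₀) hC1 (t := 1 - dl I) (by linarith)
  have s7 : Sml (1 - dl I) fun X => ∑ e ∈ prF M,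
      ((fewF I K X (zz X) v (dd F V e.1 e.2)).card : ℝ) := by
    refine sml_sum _ _ fun e he => ?_
    unfold prF at he
    rw [mem_filter] at he
    obtain ⟨δ, C', X', hδ, h⟩ := t_FEWF hS hM (hpos e.1 e.2 he.2) I K v hO
    exact sml_rpow (t := 1 - dl I) (by linarith) h
  have s := sml_add (sml_add (sml_add (sml_add (sml_add (sml_add s1 s2) s3) s4) s5) s6) s7
  have hδ : (0 : ℝ) < c * ε / 4 := by positivity
  obtain ⟨WB, hWB⟩ : ∃ B : ℕ, ∀ u ∈ W, u ≤ B := ⟨W.sup id, fun u hu => Finset.le_sup (f := id) hu⟩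
  have hzt : ∀ᶠ X : ℕ in atTop, WB ≤ zz X := by
    filter_upwards [ev_eL (WB + 1)] with X hX
    have h0 : (1 : ℝ) ≤ eL X := by
      have : (0 : ℝ) ≤ WB := Nat.cast_nonneg _
      linarith
    unfold zz
    apply Nat.le_floor
    have h2 : (WB : ℝ) ≤ (eL X) ^ 3 := by
      have h3 : (1 : ℝ) * eL X ≤ (eL X) ^ 2 * eL X := by
        apply mul_le_mul_of_nonneg_right _ (by linarith)
        nlinarith
      have h4 : (eL X) ^ 3 = (eL X) ^ 2 * eL X := by ring
      linarith
    have h3 := Real.add_one_le_exp ((eL X) ^ 3)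
    linarith
  have hkt : ∀ᶠ X : ℕ in atTop, W.card ≤ kk X := by
    filter_upwards [ev_eL (W.card + 1)] with X hX
    have h2 := kk_ge X
    have h0 : (0 : ℝ) ≤ W.card := Nat.cast_nonneg _
    have : (W.card : ℝ) ≤ kk X := by linarith
    exact_mod_cast this
  filter_upwards [s (c * ε / 4) hδ, ev_eL 1, eventually_ge_atTop X₀, hzt, hkt] with X hX hl hX0 hz hk
  have hl0 : 0 < eL X := by linarith
  have hlo := hlow X hX0
  have e00 : (-1 + dl I : ℝ) = -(1 - dl I) := by ring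
  rw [e00, rpow_eL hl0] at hlo
  have hXp := X_pos hl0
  have hXp' : (0 : ℝ) < X := by exact_mod_cast hXp
  have hSpos : (0 : ℝ) < ((SS I K X).card : ℝ) := by
    refine lt_of_lt_of_le ?_ hlo
    positivity
  have hN : (HH X : ℝ) * Real.log X < NN X := by
    unfold NN
    push_cast
    exact Nat.lt_floor_add_one _
  have hmain := hkey I K F V X (zz X) (HH X) (kk X) v (NN X) (kap C X) W hW1 hW2
    (fun u hu => (hWB u hu).trans hz) hk hO hXp (HH_pos hl0) (zz_pos hl)
    (kap_nonneg hC1 X) (kap_pow hC1 hl) hN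
  set T := (RR I K X (zz X) (HH X) (kk X) v).filter fun S =>
    NdF R W F V (sm (zz X) S) (la (zz X) S) with hT
  have hTG : (RR I K X (zz X) (HH X) (kk X) v).filter
      (fun S => Lab l a₀ S ∧ (NdF R W F V (sm (zz X) S) (la (zz X) S) ∧ GdF F V S)) =
      (T.filter (Lab l a₀)).filter (GdF F V) := by
    rw [hT, filter_filter, filter_filter]
    refine filter_congr fun S _ => ?_
    tauto
  have hTL : (RR I K X (zz X) (HH X) (kk X) v).filter
      (fun S => Lab l a₀ S ∧ NdF R W F V (sm (zz X) S) (la (zz X) S)) = T.filter (Lab l a₀) := by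
    rw [hT, filter_filter]
    refine filter_congr fun S _ => ?_
    tauto
  rw [hTG, hTL] at hmain
  have hTS : T ⊆ SS I K X := (filter_subset _ _).trans (filter_subset _ _)
  have hRS : ((RR I K X (zz X) (HH X) (kk X) v).card : ℝ) ≤ ((SS I K X).card : ℝ) := by
    exact_mod_cast card_le_card (filter_subset _ _)
  have hp0 : 0 ≤ c2 ^ M := pow_nonneg hc2.2.1.le _
  have hp1 : c2 ^ M ≤ 1 := pow_le_one₀ hc2.2.1.le hc2.2.2.1.le
  have hcmp := cmp (GdF F V) (T.filter (Lab l a₀)) ((SS I K X).filter (Lab l a₀))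
    (filter_subset_filter _ hTS) (c2 ^ M) hp0 hp1
  have hsd : ((((SS I K X).filter (Lab l a₀)) \ (T.filter (Lab l a₀))).card : ℝ) ≤
      ((SS I K X \ T).card : ℝ) := by
    refine Nat.cast_le.2 (card_le_card fun S hS => ?_)
    simp only [Finset.mem_sdiff, Finset.mem_filter] at hS ⊢
    exact ⟨hS.1.1, fun h => hS.2 ⟨h, hS.1.2⟩⟩
  have hout : ((SS I K X \ T).card : ℝ) ≤
      ((((SS I K X).filter fun S => kk X < S.card).card : ℝ) +
      (((SS I K X).filter fun S => S.card ≤ kk X ∧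
        X < (∏ p ∈ sm (zz X) S, p) * ∏ p ∈ la (zz X) S, XX (HH X) (jj (HH X) p)).card : ℝ) +
      (((SS I K X).filter fun S => ¬ Set.InjOn (jj (HH X)) (la (zz X) S : Set ℕ)).card : ℝ) +
      (((SS I K X).filter fun S => ((la (zz X) S).filter fun p => Pool.Agent.R413.SQ.mk p = 1).card ≤
        2 * (sm (zz X) S).card + v ∨ ∀ p ∈ la (zz X) S, Pool.Agent.R413.SQ.mk p = 1).card : ℝ)) +
      (((SS I K X).filter fun S => S.card ≤ kk X ∧
        ¬ Nd (sm (zz X) S ∪ W) (la (zz X) S)).card : ℝ) +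
      ∑ e ∈ prF M, ((fewF I K X (zz X) v (dd F V e.1 e.2)).card : ℝ) := by
    have g := card_le_card (out_subF I K W F V X (zz X) (HH X) (kk X) R)
    rw [← hv, ← hT] at g
    have g3 := Finset.card_biUnion_le (s := prF M)
      (t := fun e => fewF I K X (zz X) v (dd F V e.1 e.2))
    have g2 := ((g.trans (card_union_le _ _)).trans (Nat.add_le_add_right
      ((card_union_le _ _).trans (Nat.add_le_add_right ((card_union_le _ _).trans
      (Nat.add_le_add_right ((card_union_le _ _).trans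
      (Nat.add_le_add_right (card_union_le _ _) _)) _)) _)) _)).trans (Nat.add_le_add_left g3 _)
    exact_mod_cast g2
  have htot : |((((SS I K X).filter (Lab l a₀)).filter (GdF F V)).card : ℝ) -
      c2 ^ M * (((SS I K X).filter (Lab l a₀)).card : ℝ)| ≤
      ε / 4 * ((SS I K X).card : ℝ) +
        c * ε / 4 * (X * Real.exp (-(1 - dl I) * eL X)) := by
    have g1 : ε / 4 * ((RR I K X (zz X) (HH X) (kk X) v).card : ℝ) ≤
        ε / 4 * ((SS I K X).card : ℝ) := mul_le_mul_of_nonneg_left hRS (by positivity)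
    linarith
  refine htot.trans ?_
  have g2 : c * ε / 4 * (X * Real.exp (-(1 - dl I) * eL X)) ≤ ε / 4 * ((SS I K X).card : ℝ) := by
    calc c * ε / 4 * (X * Real.exp (-(1 - dl I) * eL X)) =
          ε / 4 * (c * X * Real.exp (-(1 - dl I) * eL X)) := by ring
      _ ≤ _ := mul_le_mul_of_nonneg_left hlo (by linarith)
  have g4 : 0 < ε * ((SS I K X).card : ℝ) := by positivity
  linarith

end Run7.h359.LB
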