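import Pool.Agent.Run7.h359.La7
import Pool.Agent.Run7.h359.Cw

/-!
# The proportion of the lattice points for which the pair is good
-/

set_option autoImplicit false

open scoped Classical symmDiff

namespace Run7.h359.LB

open Finset Filter Topology
open Run7.h428.MixG Run7.h428.UniG Run7.h428.WP Run7.h428.WI Run7.h428.WM
open Run7.h238.Pairs Run7.h238.Disc
open Pool.Agent.R413.SQ
open Pool.Agent.Y703.CQ (c2)
open Pool.Agent.Y698.SG (n4)
open Pool.Agent.Results.MP_4a9ea6_nt.TwoPartTwistsX49 (Adm)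
open Pool.Agent.Results.MP_787500_nt.AllWeightsMultiquadraticX49 (Ind add)
open Run7.h359.WD (W8 GoodW)
open Run7.h359.CW (mod_cancel cancel_sq exists_w8 prod_w8 fam_of)
open Run7.h359.CT (E_E R_R)

/-- the condition of weight two -/
abbrev RZ (D : ℕ) : Prop := Pool.Agent.Results.MP_92892c_nt.FullClassTwoPartX49.RankZeroShaTwo D

/-- the condition of weight two -/
abbrev RA (D : ℕ) : Prop :=
  Pool.Agent.Results.MP_787500_nt.AllWeightsMultiquadraticX49.RankZeroShaTwo D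

theorem rz_iff {D : ℕ} (h : D % 4 = 1) : RZ D ↔ RA D := by
  refine ⟨R_R h, fun hR => ?_⟩
  unfold RA Pool.Agent.Results.MP_787500_nt.AllWeightsMultiquadraticX49.RankZeroShaTwo at hR
  unfold RZ Pool.Agent.Results.MP_92892c_nt.FullClassTwoPartX49.RankZeroShaTwo
  rw [E_E h]
  exact hR

theorem crit (D : ℕ) (hD : Adm D) : RZ D ↔ Gd n4 D.primeFactors := by
  rw [← Cor.det_iff hD]
  exact Pool.Agent.Results.MP_03e5d0_nt.FullClassX49.sel_det hD

theorem adm_w8 {D : ℕ} (h : W8 D) : Adm D := fam_of h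

theorem w8_adm {D : ℕ} (h : Adm D) (h8 : D % 8 = 1) : W8 D := Run7.h359.CW.fam_w' h h8

/-- the criterion for the pair -/
theorem goodW_iff {n M : ℕ} {d : Fin n → ℕ} {m κ : Finset (Fin n) → ℕ} (hm : ∀ T, W8 (m T))
    (hκ : ∀ T, κ T ≠ 0) (hmk : ∀ T, M * ∏ i ∈ T, d i = m T * κ T ^ 2) {X : ℕ} {v : ℤ × ℤ}
    (hv : v ∈ Bm 1 X) : GoodW (M * nm v) d ↔ ∀ T, SqP RZ (m T * nm v) := by
  have hv1 := (mem_Bm.1 hv).2
  refine forall_congr' fun T => ?_
  have h8 : (m T * nm v) % 8 = 1 := by rw [Nat.mul_mod, (hm T).2.1, hv1]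
  have e : M * nm v * ∏ i ∈ T, d i = (m T * nm v) * κ T ^ 2 := by
    calc M * nm v * ∏ i ∈ T, d i = (M * ∏ i ∈ T, d i) * nm v := by ring
      _ = (m T * κ T ^ 2) * nm v := by rw [hmk]
      _ = _ := by ring
  rw [e]
  constructor
  · rintro ⟨D, k, hk, hD, hR, he⟩
    obtain ⟨j, hj, h1⟩ := cancel_sq hD.1 (hκ T) hk he
    exact ⟨D, j, adm_w8 hD, Nat.pos_of_ne_zero hj, h1, (rz_iff (by have := hD.2.1; omega)).2 hR⟩
  · rintro ⟨D, k, hD, hk, he, hR⟩
    have h1 : D % 8 = 1 := mod_cancel he h8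
    refine ⟨D, k * κ T, mul_ne_zero hk.ne' (hκ T), w8_adm hD h1, (rz_iff (by omega)).1 hR, ?_⟩
    rw [he]
    ring

theorem prod_symm {n : ℕ} (d : Fin n → ℕ) (S T : Finset (Fin n)) :
    (∏ i ∈ S, d i) * ∏ i ∈ T, d i = (∏ i ∈ S ∆ T, d i) * (∏ i ∈ S ∩ T, d i) ^ 2 := by
  have key : ∀ A B : Finset (Fin n), (∏ i ∈ A, d i) = (∏ i ∈ A \ B, d i) * ∏ i ∈ A ∩ B, d i := by
    intro A B
    rw [← Finset.prod_union (Finset.disjoint_sdiff_inter A B), Finset.sdiff_union_inter]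
  have h1 : (∏ i ∈ S, d i) = (∏ i ∈ S \ T, d i) * ∏ i ∈ S ∩ T, d i := key S T
  have h2 : (∏ i ∈ T, d i) = (∏ i ∈ T \ S, d i) * ∏ i ∈ S ∩ T, d i := by
    rw [Finset.inter_comm S T]
    exact key T S
  have h3 : (∏ i ∈ S ∆ T, d i) = (∏ i ∈ S \ T, d i) * ∏ i ∈ T \ S, d i := by
    rw [symmDiff_def, Finset.sup_eq_union]
    exact Finset.prod_union disjoint_sdiff_sdiff
  rw [h1, h2, h3]
  ring

theorem sq_of {x y z : ℕ} (hy : y ≠ 0) (h : x * y ^ 2 = z ^ 2) : IsSquare x := by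
  have h1 : y ^ 2 ∣ z ^ 2 := ⟨x, by rw [← h]; ring⟩
  have h2 : y ∣ z := (Nat.pow_dvd_pow_iff two_ne_zero).1 h1
  obtain ⟨w, rfl⟩ := h2
  refine ⟨w, ?_⟩
  have h3 : x * y ^ 2 = (w * w) * y ^ 2 := by rw [h]; ring
  exact Nat.eq_of_mul_eq_mul_right (by positivity) h3

theorem m_inj {n M : ℕ} {d : Fin n → ℕ} {m κ : Finset (Fin n) → ℕ} (hM : W8 M)
    (hd : ∀ i, W8 (d i)) (hI : Ind d)
    (hmk : ∀ T, M * ∏ i ∈ T, d i = m T * κ T ^ 2) : Function.Injective m := by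
  intro S T hST
  have h1 := prod_symm d S T
  have h2 : (∏ i ∈ S ∆ T, d i) * (M * ∏ i ∈ S ∩ T, d i) ^ 2 = (m S * (κ S * κ T)) ^ 2 := by
    calc (∏ i ∈ S ∆ T, d i) * (M * ∏ i ∈ S ∩ T, d i) ^ 2 =
          M ^ 2 * ((∏ i ∈ S ∆ T, d i) * (∏ i ∈ S ∩ T, d i) ^ 2) := by ring
      _ = (M * ∏ i ∈ S, d i) * (M * ∏ i ∈ T, d i) := by rw [← h1]; ring
      _ = (m S * κ S ^ 2) * (m T * κ T ^ 2) := by rw [hmk, hmk]
      _ = _ := by rw [← hST]; ring
  have h3 : M * ∏ i ∈ S ∩ T, d i ≠ 0 :=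
    mul_ne_zero hM.1.ne_zero (Finset.prod_ne_zero_iff.2 fun i _ => (hd i).1.ne_zero)
  have h4 := sq_of h3 h2
  by_contra hne
  have h5 : (S ∆ T).Nonempty := by
    rw [Finset.nonempty_iff_ne_empty]
    intro h6
    rw [← Finset.bot_eq_empty, symmDiff_eq_bot] at h6
    exact hne h6
  exact hI _ h5 h4

/-- **The proportion of the lattice points for which the pair is good.** -/
theorem goodB {n M : ℕ} {d : Fin n → ℕ} (hM : W8 M) (hd : ∀ i, W8 (d i)) (hI : Ind d) :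
    Tendsto (fun X : ℕ => cn (Bm 1 X) {v | GoodW (M * nm v) d} / ((Bm 1 X).card : ℝ)) atTop
      (𝓝 (c2 ^ 2 ^ n)) := by
  have hex := fun T : Finset (Fin n) => exists_w8 (prod_w8 hM hd T).1 (prod_w8 hM hd T).2
  choose m κ hκ hm hmk using hex
  set S : Finset ℕ := Finset.univ.image m with hS
  have hcard : S.card = 2 ^ n := by
    rw [hS, Finset.card_image_of_injective _ (m_inj hM hd hI hmk), Finset.card_univ,
      Fintype.card_finset, Fintype.card_fin]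
  have hT : ∀ t ∈ S, Adm t := by
    intro t ht
    rw [hS, Finset.mem_image] at ht
    obtain ⟨T, -, rfl⟩ := ht
    exact adm_w8 (hm T)
  have h := jointB crit hT (Finset.Subset.refl S)
  rw [Nat.sub_self, pow_zero, mul_one, hcard] at h
  refine h.congr fun X => ?_
  congr 1
  unfold cn
  congr 2
  ext v
  simp only [Finset.mem_filter, Set.mem_ofPred_eq]
  refine and_congr_right fun hv => ?_
  rw [goodW_iff hm hκ hmk hv]
  constructor
  · intro h1 T
    exact (h1 _ (Finset.mem_image_of_mem m (Finset.mem_univ T))).2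
      (Finset.mem_image_of_mem m (Finset.mem_univ T))
  · intro h1 t ht
    obtain ⟨T, -, rfl⟩ := Finset.mem_image.1 ht
    exact iff_of_true (h1 T) ht

end Run7.h359.LB
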