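import Pool.Agent.Run7.h359.La10
import Pool.Agent.Run7.h359.La8

/-!
# The joint law for the squarefree numbers `1 mod 8` with all prime factors `1 mod 4`
-/

set_option autoImplicit false

open scoped Classical

namespace Run7.h359.LB

open Finset Filter Topology
open Pool.Agent.Y703.CX (eL S_SIE)
open Pool.Agent.Y703.CQ (c2 S_MER)
open Pool.Agent.R413.SQ Pool.Agent.R413.SQ.SM
open Pool.Agent.R413.SQ.FEW (SS_mem mer_S mer_I pr)
open Pool.Agent.Y495.CX.Few (PN euler)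
open Run7.h359.WD (W8 GoodW)

/-- **the upper bound for the size of the class** -/
theorem SS_upper : ∃ C : ℝ, 0 < C ∧ ∀ X : ℕ, 3 ≤ X →
    ((SS ∅ ∅ X).card : ℝ) * Real.sqrt (Real.log X) ≤ C * X := by
  obtain ⟨C₁, hC₁, hS⟩ := Pool.Agent.Y488.CX.t_SIE
  obtain ⟨C₂, hC₂, h2⟩ := mer_S Pool.Agent.Y405.CQ.t_MER
  obtain ⟨C₃, hC₃, h3⟩ := mer_I Pool.Agent.Y405.CQ.t_MER ∅
  refine ⟨C₁ * Real.exp (C₂ + C₃), by positivity, fun X hX => ?_⟩
  have hX0 : (0 : ℝ) < X := by exact_mod_cast (by omega : 0 < X)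
  have hX3 : (3 : ℝ) ≤ X := by exact_mod_cast hX
  have hlog : 0 < Real.log X := Real.log_pos (by linarith)
  have a1 := hS X (SS ∅ ∅ X) (by omega) (fun S hS => ⟨fun p hp => pr ((SS_mem hS).1 p hp),
    (SS_mem hS).2⟩) (fun S hS T hT => by
      unfold SS at hS ⊢
      rw [mem_filter, mem_powerset] at hS ⊢
      refine ⟨hT.trans hS.1, fun p hp => hS.2.1 p (hT hp), le_trans ?_ hS.2.2⟩
      exact prod_le_prod_of_subset_of_one_le' hT fun p hp _ => (pr (hS.2.1 p hp)).one_lt.le)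
  set B : Finset ℕ := (PN X).filter fun p => Sp p ∨ In ∅ p with hB
  have a2 : ∑ S ∈ SS ∅ ∅ X, (1 : ℝ) / ((∏ p ∈ S, p : ℕ) : ℝ) ≤
      Real.exp (1 / 2 * Real.log (Real.log X) + (C₂ + C₃)) := by
    have b1 : ∑ S ∈ SS ∅ ∅ X, (1 : ℝ) / ((∏ p ∈ S, p : ℕ) : ℝ) ≤
        ∑ S ∈ B.powerset, ∏ p ∈ S, (1 : ℝ) / p := by
      have b2 : ∀ S ∈ SS ∅ ∅ X, (1 : ℝ) / ((∏ p ∈ S, p : ℕ) : ℝ) = ∏ p ∈ S, (1 : ℝ) / p := by
        intro S _
        rw [prod_div_distrib, prod_const_one]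
        push_cast
        rfl
      rw [sum_congr rfl b2]
      refine sum_le_sum_of_subset_of_nonneg (fun S hS => ?_) fun _ _ _ => by positivity
      rw [mem_powerset]
      intro p hp
      have b3 := (SS_mem hS).1 p hp
      have b4 := pr b3
      unfold SS at hS
      rw [mem_filter, mem_powerset] at hS
      have b5 := mem_range.1 (hS.1 hp)
      rw [hB, mem_filter]
      unfold PN
      rw [mem_filter, mem_Icc]
      exact ⟨⟨⟨b4.one_lt.le, by omega⟩, b4⟩, b3⟩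
    refine b1.trans ((euler B _ fun p _ => by positivity).trans (Real.exp_le_exp.2 ?_))
    have b2 : ∑ p ∈ B, (1 : ℝ) / p ≤ ∑ p ∈ (PN X).filter Sp, (1 : ℝ) / p +
        ∑ p ∈ (PN X).filter (In ∅), (1 : ℝ) / p := by
      rw [hB, filter_or, ← sum_union_inter]
      have : 0 ≤ ∑ p ∈ filter Sp (PN X) ∩ filter (In ∅) (PN X), (1 : ℝ) / p :=
        sum_nonneg fun _ _ => by positivity
      linarith
    have b3 := h2 X hX
    have b4 := h3 X hX
    linarith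
  have e1 : Real.exp (1 / 2 * Real.log (Real.log X) + (C₂ + C₃)) =
      Real.sqrt (Real.log X) * Real.exp (C₂ + C₃) := by
    rw [Real.exp_add]
    congr 1
    rw [Real.sqrt_eq_rpow, Real.rpow_def_of_pos hlog, mul_comm]
  rw [e1] at a2
  have hs : 0 < Real.sqrt (Real.log X) := Real.sqrt_pos.2 hlog
  have a3 : ((SS ∅ ∅ X).card : ℝ) * Real.log X ≤
      C₁ * X * (Real.sqrt (Real.log X) * Real.exp (C₂ + C₃)) :=
    a1.trans (mul_le_mul_of_nonneg_left a2 (by positivity))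
  have e2 : Real.log X = Real.sqrt (Real.log X) * Real.sqrt (Real.log X) :=
    (Real.mul_self_sqrt hlog.le).symm
  have a4 : (((SS ∅ ∅ X).card : ℝ) * Real.sqrt (Real.log X)) * Real.sqrt (Real.log X) ≤
      (C₁ * Real.exp (C₂ + C₃) * X) * Real.sqrt (Real.log X) := by
    calc (((SS ∅ ∅ X).card : ℝ) * Real.sqrt (Real.log X)) * Real.sqrt (Real.log X) =
          ((SS ∅ ∅ X).card : ℝ) * (Real.sqrt (Real.log X) * Real.sqrt (Real.log X)) := by ring
      _ = ((SS ∅ ∅ X).card : ℝ) * Real.log X := by rw [← e2]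
      _ ≤ _ := a3
      _ = _ := by ring
  exact le_of_mul_le_mul_right a4 hs

/-- the numbers of the class and the sets -/
theorem w8_iff (D : ℕ) : W8 D ↔ Squarefree D ∧ Cl ∅ ∅ D.primeFactors ∧ Lab l8 0 D.primeFactors := by
  constructor
  · intro h
    have h1 := adm_w8 h
    have h2 := (Cor.cl_iff D).1 h1
    refine ⟨h.1, h2.2, ?_⟩
    rw [lab8 h1.2, Nat.prod_primeFactors_of_squarefree h.1]
    exact h.2.1
  · rintro ⟨h1, h2, h3⟩
    have h4 := (Cor.cl_iff D).2 ⟨h1, h2⟩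
    rw [lab8 h4.2, Nat.prod_primeFactors_of_squarefree h1] at h3
    exact w8_adm h4 h3

theorem card_w8 (X : ℕ) (Q : Finset ℕ → Prop) :
    ((Icc 1 X).filter fun D => W8 D ∧ Q D.primeFactors).card =
      (((SS ∅ ∅ X).filter (Lab l8 0)).filter Q).card := by
  rw [filter_filter]
  refine Eq.trans ?_ ((NS.card_eq ∅ ∅ X (fun S => Lab l8 0 S ∧ Q S)).trans ?_)
  · congr 1
    ext D
    simp only [mem_filter, w8_iff]
    tauto
  · congr!

/-- the class is a positive proportion -/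
theorem lab_pos : ∃ δ : ℝ, 0 < δ ∧ ∀ᶠ X : ℕ in atTop,
    δ * ((SS ∅ ∅ X).card : ℝ) ≤ (((SS ∅ ∅ X).filter (Lab l8 0)).card : ℝ) := by
  obtain ⟨C, hC, h1⟩ := SS_upper
  obtain ⟨a, X₀, ha, h2⟩ := Run7.h359.CT.cnt
  refine ⟨a / C, by positivity, ?_⟩
  filter_upwards [eventually_ge_atTop X₀, eventually_ge_atTop 3] with X hX hX3
  have hXr : (3 : ℝ) ≤ X := by exact_mod_cast hX3
  have hlog : 0 < Real.log X := Real.log_pos (by linarith)
  have hs : 0 < Real.sqrt (Real.log X) := Real.sqrt_pos.2 hlog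
  have h3 := h1 X hX3
  have h4 := h2 X hX
  have h5 : ((((Finset.Icc 1 X).filter fun D => W8 D ∧
      Pool.Agent.Results.MP_787500_nt.AllWeightsMultiquadraticX49.RankZeroShaTwo D).card : ℕ) : ℝ) ≤
      (((SS ∅ ∅ X).filter (Lab l8 0)).card : ℝ) := by
    have h6 := card_w8 X fun _ => True
    simp only [and_true, filter_true] at h6
    rw [← h6]
    refine Nat.cast_le.2 (card_le_card fun D hD => ?_)
    simp only [mem_filter] at hD ⊢
    exact ⟨hD.1, hD.2.1⟩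
  refine le_trans ?_ (h4.trans h5)
  rw [le_div_iff₀ hs]
  calc a / C * ((SS ∅ ∅ X).card : ℝ) * Real.sqrt (Real.log X) =
        a / C * (((SS ∅ ∅ X).card : ℝ) * Real.sqrt (Real.log X)) := by ring
    _ ≤ a / C * (C * X) := mul_le_mul_of_nonneg_left h3 (by positivity)
    _ = a * X := by field_simp

/-- the joint law for functions indexed by `Fin M` -/
theorem lab_lawM {A : Type} [AddCommGroup A] [Fintype A] (l : ℕ → A) (a₀ : A) {M : ℕ}
    (F : Fin M → ℕ → ZMod 2) (V : Fin M → Finset ℕ) (W : Finset ℕ)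
    (hW1 : ∀ u ∈ W, u.Prime ∧ u % 4 = 1) (hW2 : ∀ i, V i ⊆ W)
    (hpos : ∀ i j, i ≠ j → Pos (dd F V i j)) (ε : ℝ) (hε : 0 < ε) : ∀ᶠ X : ℕ in atTop,
    |((((SS ∅ ∅ X).filter (Lab l a₀)).filter (GdF F V)).card : ℝ) -
      c2 ^ M * (((SS ∅ ∅ X).filter (Lab l a₀)).card : ℝ)| ≤ ε * ((SS ∅ ∅ X).card : ℝ) := by
  obtain ⟨e₀, he⟩ : ∃ e : ℕ, Fintype.card A ≤ 2 ^ e := ⟨_, Nat.lt_two_pow_self.le⟩
  exact lab_DQ e₀ he l a₀ Pool.Agent.R413.SQ.BIL.t_BIL Pool.Agent.Y356.CQ.t_EQ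
    Pool.Agent.Y697.JQ.t_JLA
    Pool.Agent.R413.SQ.CNT.t_CNT Pool.Agent.Y488.CX.t_SIE Pool.Agent.R413.SQ.HAL.t_HAL
    t_JBAD Pool.Agent.R413.SQ.FEW.t_FEW Pool.Agent.Y405.CQ.t_MER
    Pool.Agent.Y302.CQ.t_CHE Pool.Agent.R413.SQ.LOW.t_LOW
    Pool.Agent.Y948.CQ.t_C2 ∅ ∅ F V W trivial hW1 hW2 hpos ε hε

/-- the joint law -/
theorem lab_lawS {A : Type} [AddCommGroup A] [Fintype A] (l : ℕ → A) (a₀ : A) {ι : Type}
    {F : ι → ℕ → ZMod 2} {V : ι → Finset ℕ} (h : Fa F V) (P : Finset ι) (ε : ℝ) (hε : 0 < ε) :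
    ∀ᶠ X : ℕ in atTop,
    |((((SS ∅ ∅ X).filter (Lab l a₀)).filter fun S => ∀ i ∈ P, Gd (F i) (symmDiff S (V i))).card : ℝ) -
      c2 ^ P.card * (((SS ∅ ∅ X).filter (Lab l a₀)).card : ℝ)| ≤ ε * ((SS ∅ ∅ X).card : ℝ) := by
  set e : Fin P.card ≃ P := P.equivFin.symm with he
  have h1 := lab_lawM l a₀ (fun k => F (e k)) (fun k => V (e k)) (P.biUnion V)
    (fun u hu => by
      obtain ⟨i, -, hi⟩ := mem_biUnion.1 hu
      exact h.pr i u hi)
    (fun k => subset_biUnion_of_mem V (e k).2)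
    (fun i j hij => h.sep _ _ fun h' => hij (e.injective (Subtype.ext h'))) ε hε
  refine h1.mono fun X hX => ?_
  have e1 : (((SS ∅ ∅ X).filter (Lab l a₀)).filter fun S => ∀ i ∈ P, Gd (F i) (symmDiff S (V i))) =
      ((SS ∅ ∅ X).filter (Lab l a₀)).filter (GdF (fun k => F (e k)) (fun k => V (e k))) := by
    refine filter_congr fun S _ => ?_
    unfold GdF
    constructor
    · intro h2 k
      exact h2 _ (e k).2
    · intro h2 i hi
      have h3 := h2 (e.symm ⟨i, hi⟩)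
      simp only [Equiv.apply_symm_apply] at h3
      exact h3
  rw [e1]
  exact hX

/-- all the patterns -/
theorem lab_lawPQ {A : Type} [AddCommGroup A] [Fintype A] (l : ℕ → A) (a₀ : A) {ι : Type}
    {F : ι → ℕ → ZMod 2} {V : ι → Finset ℕ} (h : Fa F V) (Q : Finset ι) :
    ∀ P : Finset ι, Disjoint P Q → ∀ ε : ℝ, 0 < ε → ∀ᶠ X : ℕ in atTop,
    |((((SS ∅ ∅ X).filter (Lab l a₀)).filter fun S => (∀ i ∈ P, Gd (F i) (symmDiff S (V i))) ∧
        ∀ i ∈ Q, ¬ Gd (F i) (symmDiff S (V i))).card : ℝ) -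
      c2 ^ P.card * (1 - c2) ^ Q.card * (((SS ∅ ∅ X).filter (Lab l a₀)).card : ℝ)| ≤
      ε * ((SS ∅ ∅ X).card : ℝ) := by
  induction Q using Finset.induction_on with
  | empty =>
    intro P _ ε hε
    have h1 := lab_lawS l a₀ h P ε hε
    refine h1.mono fun X hX => ?_
    simpa using hX
  | insert q Q hq ih =>
    intro P hPQ ε hε
    rw [disjoint_insert_right] at hPQ
    have h1 := ih P hPQ.2 (ε / 2) (by positivity)
    have h2 := ih (insert q P) (disjoint_insert_left.2 ⟨hq, hPQ.2⟩) (ε / 2) (by positivity)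
    rw [card_insert_of_notMem hPQ.1] at h2
    rw [card_insert_of_notMem hq]
    filter_upwards [h1, h2] with X a1 a2
    set T := ((SS ∅ ∅ X).filter (Lab l a₀)).filter fun S => (∀ i ∈ P, Gd (F i) (symmDiff S (V i))) ∧
      ∀ i ∈ Q, ¬ Gd (F i) (symmDiff S (V i)) with hT
    have h4 := Finset.card_filter_add_card_filter_not (s := T)
      (fun S => Gd (F q) (symmDiff S (V q)))
    have e1 : T.filter (fun S => Gd (F q) (symmDiff S (V q))) =
        ((SS ∅ ∅ X).filter (Lab l a₀)).filter fun S => (∀ i ∈ insert q P, Gd (F i) (symmDiff S (V i))) ∧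
          ∀ i ∈ Q, ¬ Gd (F i) (symmDiff S (V i)) := by
      rw [hT, filter_filter]
      refine filter_congr fun S _ => ?_
      rw [forall_mem_insert]
      tauto
    have e2 : T.filter (fun S => ¬ Gd (F q) (symmDiff S (V q))) =
        ((SS ∅ ∅ X).filter (Lab l a₀)).filter fun S => (∀ i ∈ P, Gd (F i) (symmDiff S (V i))) ∧
          ∀ i ∈ insert q Q, ¬ Gd (F i) (symmDiff S (V i)) := by
      rw [hT, filter_filter]
      refine filter_congr fun S _ => ?_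
      rw [forall_mem_insert]
      tauto
    rw [e1, e2] at h4
    rw [← h4] at a1
    push_cast at a1
    rw [abs_le] at a1 a2 ⊢
    obtain ⟨b1, b2⟩ := a1
    obtain ⟨b3, b4⟩ := a2
    have e3 : c2 ^ P.card * (1 - c2) ^ (Q.card + 1) * (((SS ∅ ∅ X).filter (Lab l a₀)).card : ℝ) =
        c2 ^ P.card * (1 - c2) ^ Q.card * (((SS ∅ ∅ X).filter (Lab l a₀)).card : ℝ) -
        c2 ^ (P.card + 1) * (1 - c2) ^ Q.card * (((SS ∅ ∅ X).filter (Lab l a₀)).card : ℝ) := by ring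
    rw [e3]
    constructor <;> linarith

/-- **the joint law for the numbers of the class** -/
theorem lab_law8 {ι : Type} {F : ι → ℕ → ZMod 2} {V : ι → Finset ℕ} (h : Fa F V)
    (P Q : Finset ι) (hPQ : Disjoint P Q) :
    Tendsto (fun X : ℕ => (((Icc 1 X).filter fun D => W8 D ∧
      ((∀ i ∈ P, Gd (F i) (symmDiff D.primeFactors (V i))) ∧
      ∀ i ∈ Q, ¬ Gd (F i) (symmDiff D.primeFactors (V i)))).card : ℝ) /
      (((Icc 1 X).filter fun D => W8 D).card : ℝ)) atTop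
      (𝓝 (c2 ^ P.card * (1 - c2) ^ Q.card)) := by
  obtain ⟨δ, hδ, hlow⟩ := lab_pos
  rw [Metric.tendsto_nhds]
  intro ε hε
  have h1 := lab_lawPQ l8 (0 : ZMod 2) h Q P hPQ (δ * ε / 2) (by positivity)
  filter_upwards [h1, hlow, eventually_ge_atTop 1] with X a1 a2 hX
  have e1 : ((Icc 1 X).filter fun D => W8 D ∧
      ((∀ i ∈ P, Gd (F i) (symmDiff D.primeFactors (V i))) ∧
      ∀ i ∈ Q, ¬ Gd (F i) (symmDiff D.primeFactors (V i)))).card =
      (((SS ∅ ∅ X).filter (Lab l8 0)).filter fun S => (∀ i ∈ P, Gd (F i) (symmDiff S (V i))) ∧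
      ∀ i ∈ Q, ¬ Gd (F i) (symmDiff S (V i))).card := by
    have e0 := card_w8 X fun S => (∀ i ∈ P, Gd (F i) (symmDiff S (V i))) ∧
      ∀ i ∈ Q, ¬ Gd (F i) (symmDiff S (V i))
    refine Eq.trans ?_ (e0.trans ?_) <;> congr!
  have e2 := card_w8 X fun _ => True
  simp only [and_true, filter_true] at e2
  rw [e1, e2]
  set N : ℝ := (((SS ∅ ∅ X).filter (Lab l8 0)).card : ℝ) with hN
  have hS : (0 : ℝ) < ((SS ∅ ∅ X).card : ℝ) := by
    have : ∅ ∈ SS ∅ ∅ X := by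
      unfold SS
      rw [mem_filter, mem_powerset]
      exact ⟨empty_subset _, fun p hp => absurd hp (notMem_empty p), by rw [prod_empty]; omega⟩
    exact_mod_cast card_pos.2 ⟨_, this⟩
  have hN0 : 0 < N := lt_of_lt_of_le (mul_pos hδ hS) a2
  rw [Real.dist_eq]
  have e3 : ∀ x : ℝ, x / N - c2 ^ P.card * (1 - c2) ^ Q.card =
      (x - c2 ^ P.card * (1 - c2) ^ Q.card * N) / N := by
    intro x
    field_simp
  rw [e3, abs_div, abs_of_pos hN0, div_lt_iff₀ hN0]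
  refine lt_of_le_of_lt a1 ?_
  have g1 : δ * ε / 2 * ((SS ∅ ∅ X).card : ℝ) = ε / 2 * (δ * ((SS ∅ ∅ X).card : ℝ)) := by ring
  have g2 : ε / 2 * (δ * ((SS ∅ ∅ X).card : ℝ)) ≤ ε / 2 * N :=
    mul_le_mul_of_nonneg_left a2 (by positivity)
  have g3 : 0 < ε * N := by positivity
  linarith

end Run7.h359.LB
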