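import Pool.Agent.Run7.h359.La11

/-!
# The exact proportion of the good twists
-/

set_option autoImplicit false

open scoped Classical symmDiff

namespace Run7.h359.LB

open Finset Filter Topology
open Run7.h428.MixG Run7.h428.UniG
open Run7.h428.Uni (W mem_W W_empty W_congr W_insert pr)
open Run7.h428.WM (SqP sqP_iff sqP_sq mul_mask adm_mask injT pr_eq amT)
open Run7.h428.Inst (am am_pf am_symm adm_of_mask sq_unique Iy faM c2_pos)
open Pool.Agent.R413.SQ
open Pool.Agent.Y703.CQ (c2)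
open Pool.Agent.Y698.SG (n4)
open Pool.Agent.Results.MP_4a9ea6_nt.TwoPartTwistsX49 (Adm)
open Pool.Agent.Results.MP_787500_nt.AllWeightsMultiquadraticX49 (Ind add)
open Run7.h359.WD (W8 GoodW)
open Run7.h359.CW (mod_cancel cancel_sq exists_w8 prod_w8 fam_of)

/-- the numbers of the class -/
noncomputable def CW8 (X : ℕ) : Finset ℕ := (Icc 1 X).filter fun D => W8 D

theorem mem_CW8 {X D : ℕ} : D ∈ CW8 X ↔ (1 ≤ D ∧ D ≤ X) ∧ W8 D := by
  unfold CW8
  rw [mem_filter, mem_Icc]

theorem inf_CW8 : Tendsto (fun X => ((CW8 X).card : ℝ)) atTop atTop := by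
  obtain ⟨a, X₀, ha, h⟩ := Run7.h359.CT.cnt
  have h0 : Tendsto (fun X : ℕ => a * (X : ℝ) / Real.sqrt (Real.log X)) atTop atTop := by
    have h1 : Tendsto (fun X : ℕ => a * Real.sqrt (X : ℝ)) atTop atTop :=
      Tendsto.const_mul_atTop ha (Real.tendsto_sqrt_atTop.comp tendsto_natCast_atTop_atTop)
    refine tendsto_atTop_mono' atTop ?_ h1
    filter_upwards [eventually_ge_atTop 3] with X hX
    have hX1 : (1 : ℝ) < X := by exact_mod_cast (by omega : 1 < X)
    have hX0 : (0 : ℝ) < X := by linarith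
    have hL : 0 < Real.log X := Real.log_pos hX1
    rw [le_div_iff₀ (Real.sqrt_pos.2 hL)]
    have h2 : Real.sqrt (Real.log X) ≤ Real.sqrt X := Real.sqrt_le_sqrt
      ((Real.log_le_sub_one_of_pos hX0).trans (by linarith))
    calc a * Real.sqrt (X : ℝ) * Real.sqrt (Real.log X) ≤ a * Real.sqrt (X : ℝ) * Real.sqrt X :=
          mul_le_mul_of_nonneg_left h2 (by positivity)
      _ = a * X := by rw [mul_assoc, Real.mul_self_sqrt hX0.le]
  refine tendsto_atTop_mono' atTop ?_ h0
  filter_upwards [eventually_ge_atTop X₀] with X hX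
  refine (h X hX).trans (Nat.cast_le.2 (card_le_card fun D hD => ?_))
  unfold CW8
  simp only [mem_filter] at hD ⊢
  exact ⟨hD.1, hD.2.1⟩

/-- **the law** -/
theorem isLawD : Law CW8 (fun D => D.primeFactors) id (Gd n4) am c2 := by
  refine ⟨inf_CW8, c2_pos.1, c2_pos.2, fun p hp => absurd hp (notMem_empty p), fun V V' => am_symm,
    fun X D hD => am_pf (adm_w8 (mem_CW8.1 hD).2), fun V => ?_, fun B => ?_, fun P Q hP hQ hPQ => ?_⟩
  · have h1 : Tendsto (fun X : ℕ => 1 / ((CW8 X).card : ℝ)) atTop (𝓝 0) := by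
      have := inf_CW8.inv_tendsto_atTop
      refine this.congr fun X => ?_
      simp
    refine squeeze_zero (fun X => div_nonneg (cn_nonneg _ _) (Nat.cast_nonneg _)) (fun X => ?_) h1
    refine div_le_div_of_nonneg_right ?_ (Nat.cast_nonneg _)
    unfold cn
    rw [Nat.cast_le_one, card_le_one]
    intro a ha b hb
    simp only [mem_filter, Set.mem_ofPred_eq] at ha hb
    rw [← Nat.prod_primeFactors_of_squarefree (mem_CW8.1 ha.1).2.1,
      ← Nat.prod_primeFactors_of_squarefree (mem_CW8.1 hb.1).2.1, ha.2, hb.2]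
  · refine (Icc 0 B).finite_toSet.subset ?_
    rintro D ⟨-, hD⟩
    rw [mem_coe, mem_Icc]
    exact ⟨Nat.zero_le _, hD⟩
  · set P' : Finset Iy := P.subtype am with hP'
    set Q' : Finset Iy := Q.subtype am with hQ'
    have hd : Disjoint P' Q' := by
      rw [disjoint_left]
      intro z hz hz'
      rw [hP', mem_subtype] at hz
      rw [hQ', mem_subtype] at hz'
      exact disjoint_left.1 hPQ hz hz'
    have cP : P'.card = P.card := by
      rw [hP', card_subtype, filter_true_of_mem hP]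
    have cQ : Q'.card = Q.card := by
      rw [hQ', card_subtype, filter_true_of_mem hQ]
    have h := lab_law8 faM P' Q' hd
    rw [cP, cQ] at h
    refine h.congr fun X => ?_
    unfold cn CW8
    rw [filter_filter]
    congr 3
    ext D
    simp only [mem_filter, Set.mem_ofPred_eq]
    refine and_congr_right fun _ => and_congr_right fun _ => ?_
    constructor
    · rintro ⟨h1, h2⟩
      exact ⟨fun V hV => h1 ⟨V, hP V hV⟩ (mem_subtype.2 hV),
        fun V hV => h2 ⟨V, hQ V hV⟩ (mem_subtype.2 hV)⟩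
    · rintro ⟨h1, h2⟩
      exact ⟨fun i hi => h1 _ (mem_subtype.1 hi), fun i hi => h2 _ (mem_subtype.1 hi)⟩

variable {Q : ℕ → Prop}

/-- **the joint law** -/
theorem jointD (hQ : ∀ D, Adm D → (Q D ↔ Gd n4 D.primeFactors)) {T V : Finset ℕ}
    (hT : ∀ t ∈ T, Adm t) (hV : V ⊆ T) :
    Tendsto (fun X : ℕ => cn (CW8 X) {D | ∀ t ∈ T, (SqP Q (t * D) ↔ t ∈ V)} /
      ((CW8 X).card : ℝ)) atTop (𝓝 (c2 ^ V.card * (1 - c2) ^ (T.card - V.card))) := by
  have h := isLawD.ev (m := ∅) (fun p hp => absurd hp (notMem_empty p)) (amT hT)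
    (Finset.image_subset_image hV)
  rw [pr_eq hT hV] at h
  refine h.congr fun X => ?_
  congr 1
  have key : ∀ v ∈ CW8 X, v ∈ Ev (fun D : ℕ => D.primeFactors) (Gd n4) ∅ (T.image Nat.primeFactors)
      (V.image Nat.primeFactors) ↔ v ∈ {v | ∀ t ∈ T, (SqP Q (t * v) ↔ t ∈ V)} := by
    intro v hv
    have hc := adm_w8 (mem_CW8.1 hv).2
    unfold Ev
    rw [Set.mem_ofPred_eq, Set.mem_ofPred_eq, Finset.forall_mem_image]
    refine forall₂_congr fun t ht => ?_
    obtain ⟨k, hk, h3⟩ := mul_mask (am_pf hc) one_pos (adm_mask hc) one_pos (adm_mask (hT t ht))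
    rw [mul_comm v t] at h3
    rw [sqP_iff hQ (am_symm (am_pf hc) (am_pf (hT t ht))) hk h3]
    have e : (∅ : Finset ℕ) ∆ t.primeFactors = t.primeFactors := by
      rw [← Finset.bot_eq_empty, bot_symmDiff]
    rw [e]
    refine iff_congr Iff.rfl ?_
    rw [Finset.mem_image]
    constructor
    · rintro ⟨t', ht', he⟩
      rw [← injT hT (hV ht') ht he]
      exact ht'
    · intro h4
      exact ⟨t, h4, rfl⟩
  unfold cn
  congr 2
  ext v
  simp only [Finset.mem_filter]
  exact and_congr_right fun hv => key v hv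

/-- the criterion for the pair, for a number that is `1` modulo `8` -/
theorem goodW_iff8 {n M : ℕ} {d : Fin n → ℕ} {m κ : Finset (Fin n) → ℕ} (hm : ∀ T, W8 (m T))
    (hκ : ∀ T, κ T ≠ 0) (hmk : ∀ T, M * ∏ i ∈ T, d i = m T * κ T ^ 2) {N : ℕ}
    (hN : N % 8 = 1) : GoodW (M * N) d ↔ ∀ T, SqP RZ (m T * N) := by
  refine forall_congr' fun T => ?_
  have h8 : (m T * N) % 8 = 1 := by rw [Nat.mul_mod, (hm T).2.1, hN]
  have e : M * N * ∏ i ∈ T, d i = (m T * N) * κ T ^ 2 := by
    calc M * N * ∏ i ∈ T, d i = (M * ∏ i ∈ T, d i) * N := by ring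
      _ = (m T * κ T ^ 2) * N := by rw [hmk]
      _ = _ := by ring
  rw [e]
  constructor
  · rintro ⟨D, k, hk, hD, hR, he⟩
    obtain ⟨j, hj, h1⟩ := cancel_sq hD.1 (hκ T) hk he
    exact ⟨D, j, adm_w8 hD, Nat.pos_of_ne_zero hj, h1, (rz_iff (by have := hD.2.1; omega)).2 hR⟩
  · rintro ⟨D, k, hD, hk, he, hR⟩
    have h1 : D % 8 = 1 := mod_cancel he h8
    refine ⟨D, k * κ T, mul_ne_zero hk.ne' (hκ T), w8_adm hD h1, (rz_iff (by omega)).1 hR, ?_⟩
    rw [he]
    ring

/-- **The exact proportion of the good twists.** -/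
theorem goodD {n M : ℕ} {d : Fin n → ℕ} (hM : W8 M) (hd : ∀ i, W8 (d i)) (hI : Ind d) :
    Tendsto (fun X : ℕ => cn (CW8 X) {D | GoodW (M * D) d} / ((CW8 X).card : ℝ)) atTop
      (𝓝 (c2 ^ 2 ^ n)) := by
  have hex := fun T : Finset (Fin n) => exists_w8 (prod_w8 hM hd T).1 (prod_w8 hM hd T).2
  choose m κ hκ hm hmk using hex
  set S : Finset ℕ := Finset.univ.image m with hS
  have hcard : S.card = 2 ^ n := by
    rw [hS, Finset.card_image_of_injective _ (m_inj hM hd hI hmk), Finset.card_univ,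
      Fintype.card_finset, Fintype.card_fin]
  have hT : ∀ t ∈ S, Adm t := by
    intro t ht
    rw [hS, Finset.mem_image] at ht
    obtain ⟨T, -, rfl⟩ := ht
    exact adm_w8 (hm T)
  have h := jointD crit hT (Finset.Subset.refl S)
  rw [Nat.sub_self, pow_zero, mul_one, hcard] at h
  refine h.congr fun X => ?_
  congr 1
  unfold cn
  congr 2
  ext v
  simp only [Finset.mem_filter, Set.mem_ofPred_eq]
  refine and_congr_right fun hv => ?_
  rw [goodW_iff8 hm hκ hmk (mem_CW8.1 hv).2.2.1]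
  constructor
  · intro h1 T
    exact (h1 _ (Finset.mem_image_of_mem m (Finset.mem_univ T))).2
      (Finset.mem_image_of_mem m (Finset.mem_univ T))
  · intro h1 t ht
    obtain ⟨T, -, rfl⟩ := Finset.mem_image.1 ht
    exact iff_of_true (h1 T) ht

end Run7.h359.LB
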