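import Pool.Agent.Run7.h359.La13

/-!
# The joint law for several pairs
-/

set_option autoImplicit false

open scoped Classical symmDiff

namespace Run7.h359.LB

open Finset Filter Topology
open Run7.h428.MixG Run7.h428.UniG
open Run7.h428.WM (SqP)
open Run7.h428.Inst (c2_pos)
open Run7.h238.Pairs
open Pool.Agent.Y703.CQ (c2)
open Pool.Agent.Results.MP_4a9ea6_nt.TwoPartTwistsX49 (Adm)
open Pool.Agent.Results.MP_787500_nt.AllWeightsMultiquadraticX49 (Ind add)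
open Run7.h359.WD (W8 GoodW)
open Run7.h359.CW (exists_w8 prod_w8)

/-- from the positive patterns to all the patterns -/
theorem patterns {α : Type} {S : ℕ → Finset α} {E : ℕ → Set α} {q : ℝ} {T : Finset ℕ}
    (H : ∀ P ⊆ T, Tendsto (fun X => cn (S X) {D | ∀ M ∈ P, D ∈ E M} / ((S X).card : ℝ)) atTop
      (𝓝 (q ^ P.card))) (Q : Finset ℕ) : Q ⊆ T → ∀ P ⊆ T, Disjoint P Q →
    Tendsto (fun X => cn (S X) {D | (∀ M ∈ P, D ∈ E M) ∧ ∀ M ∈ Q, D ∉ E M} / ((S X).card : ℝ)) atTop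
      (𝓝 (q ^ P.card * (1 - q) ^ Q.card)) := by
  induction Q using Finset.induction_on with
  | empty =>
    intro _ P hP _
    have h1 := H P hP
    rw [card_empty, pow_zero, mul_one]
    refine h1.congr fun X => ?_
    congr 2
    ext D
    simp
  | insert a Q ha ih =>
    intro hQ P hP hPQ
    rw [disjoint_insert_right] at hPQ
    have haT : a ∈ T := hQ (mem_insert_self a Q)
    have hQT : Q ⊆ T := fun x hx => hQ (mem_insert_of_mem hx)
    have h1 := ih hQT P hP hPQ.2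
    have h2 := ih hQT (insert a P) (insert_subset haT hP) (disjoint_insert_left.2 ⟨ha, hPQ.2⟩)
    rw [card_insert_of_notMem hPQ.1] at h2
    rw [card_insert_of_notMem ha]
    have h3 := h1.sub h2
    have e : q ^ P.card * (1 - q) ^ Q.card - q ^ (P.card + 1) * (1 - q) ^ Q.card =
        q ^ P.card * (1 - q) ^ (Q.card + 1) := by ring
    rw [e] at h3
    refine h3.congr fun X => ?_
    rw [← sub_div]
    congr 1
    unfold cn
    rw [sub_eq_iff_eq_add, ← Nat.cast_add, ← card_union_of_disjoint]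
    · congr 2
      ext D
      simp only [mem_filter, mem_union, Set.mem_ofPred_eq, forall_mem_insert]
      tauto
    · rw [disjoint_left]
      intro D hD hD'
      simp only [mem_filter, Set.mem_ofPred_eq, forall_mem_insert] at hD hD'
      exact hD.2.2.1 hD'.2.1.1

/-- the pattern in terms of a subset -/
theorem patterns_sub {α : Type} {S : ℕ → Finset α} {E : ℕ → Set α} {q : ℝ} {T V : Finset ℕ}
    (H : ∀ P ⊆ T, Tendsto (fun X => cn (S X) {D | ∀ M ∈ P, D ∈ E M} / ((S X).card : ℝ)) atTop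
      (𝓝 (q ^ P.card))) (hV : V ⊆ T) :
    Tendsto (fun X => cn (S X) {D | ∀ M ∈ T, (D ∈ E M ↔ M ∈ V)} / ((S X).card : ℝ)) atTop
      (𝓝 (q ^ V.card * (1 - q) ^ (T.card - V.card))) := by
  have h := patterns H (T \ V) sdiff_subset V hV disjoint_sdiff
  rw [card_sdiff_of_subset hV] at h
  refine h.congr fun X => ?_
  congr 2
  ext D
  simp only [Set.mem_ofPred_eq]
  constructor
  · rintro ⟨h1, h2⟩ M hM
    by_cases hMV : M ∈ V
    · exact ⟨fun _ => hMV, fun _ => h1 M hMV⟩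
    · exact ⟨fun h3 => absurd h3 (h2 M (Finset.mem_sdiff.2 ⟨hM, hMV⟩)), fun h3 => absurd h3 hMV⟩
  · intro h1
    refine ⟨fun M hM => (h1 M (hV hM)).2 hM, fun M hM h3 => ?_⟩
    have h4 := Finset.mem_sdiff.1 hM
    exact h4.2 ((h1 M h4.1).1 h3)

/-- the numbers are in different classes modulo the numbers `d_i` and squares -/
def Sep {n : ℕ} (d : Fin n → ℕ) (T : Finset ℕ) : Prop :=
  ∀ M ∈ T, ∀ M' ∈ T, M ≠ M' → ∀ S : Finset (Fin n), ¬ IsSquare (M * M' * ∏ i ∈ S, d i)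

/-- **the joint law for several pairs** -/
theorem joint_pairs {α : Type} {S : ℕ → Finset α} {N : α → ℕ} (h8 : ∀ X, ∀ v ∈ S X, N v % 8 = 1)
    (HJ : ∀ T' : Finset ℕ, (∀ t ∈ T', Adm t) → Tendsto (fun X : ℕ =>
      cn (S X) {v | ∀ t ∈ T', (SqP RZ (t * N v) ↔ t ∈ T')} / ((S X).card : ℝ)) atTop
        (𝓝 (c2 ^ T'.card)))
    {n : ℕ} {d : Fin n → ℕ} (hd : ∀ i, W8 (d i)) (hI : Ind d) {T V : Finset ℕ}
    (hT : ∀ M ∈ T, W8 M) (hsep : Sep d T) (hV : V ⊆ T) :
    Tendsto (fun X => cn (S X) {v | ∀ M ∈ T, (GoodW (M * N v) d ↔ M ∈ V)} / ((S X).card : ℝ)) atTop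
      (𝓝 ((c2 ^ 2 ^ n) ^ V.card * (1 - c2 ^ 2 ^ n) ^ (T.card - V.card))) := by
  have hex : ∀ (M : ℕ) (A : Finset (Fin n)), ∃ m k : ℕ, M ∈ T →
      k ≠ 0 ∧ W8 m ∧ M * ∏ i ∈ A, d i = m * k ^ 2 := by
    intro M A
    by_cases hM : M ∈ T
    · obtain ⟨m, k, h1, h2, h3⟩ := exists_w8 (prod_w8 (hT M hM) hd A).1 (prod_w8 (hT M hM) hd A).2
      exact ⟨m, k, fun _ => ⟨h1, h2, h3⟩⟩
    · exact ⟨0, 0, fun h => absurd h hM⟩
  choose m κ hm using hex
  refine patterns_sub (E := fun M => {v | GoodW (M * N v) d}) (fun P hP => ?_) hV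
  set SP : Finset ℕ := (P ×ˢ (Finset.univ : Finset (Finset (Fin n)))).image fun e => m e.1 e.2
    with hSP
  have hinj : Set.InjOn (fun e : ℕ × Finset (Fin n) => m e.1 e.2)
      ((P ×ˢ (Finset.univ : Finset (Finset (Fin n))) : Finset (ℕ × Finset (Fin n))) :
        Set (ℕ × Finset (Fin n))) := by
    rintro ⟨M, A⟩ hx ⟨M', A'⟩ hy he
    rw [mem_coe, mem_product] at hx hy
    have hM := hP hx.1
    have hM' := hP hy.1
    simp only at he hM hM'
    obtain ⟨k1, w1, e1⟩ := hm M A hM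
    obtain ⟨k2, w2, e2⟩ := hm M' A' hM'
    have h1 := prod_symm d A A'
    have h2 : (M * M' * ∏ i ∈ A ∆ A', d i) * (∏ i ∈ A ∩ A', d i) ^ 2 =
        (m M A * (κ M A * κ M' A')) ^ 2 := by
      calc (M * M' * ∏ i ∈ A ∆ A', d i) * (∏ i ∈ A ∩ A', d i) ^ 2 =
            M * M' * ((∏ i ∈ A ∆ A', d i) * (∏ i ∈ A ∩ A', d i) ^ 2) := by ring
        _ = (M * ∏ i ∈ A, d i) * (M' * ∏ i ∈ A', d i) := by rw [← h1]; ring
        _ = (m M A * κ M A ^ 2) * (m M' A' * κ M' A' ^ 2) := by rw [e1, e2]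
        _ = _ := by rw [← he]; ring
    have h3 : ∏ i ∈ A ∩ A', d i ≠ 0 :=
      Finset.prod_ne_zero_iff.2 fun i _ => (hd i).1.ne_zero
    have h4 := sq_of h3 h2
    have hMM : M = M' := by
      by_contra hne
      exact hsep M hM M' hM' hne _ h4
    subst hMM
    have h5 : IsSquare (∏ i ∈ A ∆ A', d i) := by
      obtain ⟨r, hr⟩ := h4
      refine sq_of (y := M) (z := r) (hT M hM).1.ne_zero ?_
      rw [pow_two, pow_two, ← hr]
      ring
    have h6 : A = A' := by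
      by_contra hne
      refine hI _ ?_ h5
      rw [Finset.nonempty_iff_ne_empty]
      intro h7
      rw [← Finset.bot_eq_empty, symmDiff_eq_bot] at h7
      exact hne h7
    rw [h6]
  have hcard : SP.card = 2 ^ n * P.card := by
    rw [hSP, Finset.card_image_of_injOn hinj, Finset.card_product, Finset.card_univ,
      Fintype.card_finset, Fintype.card_fin, mul_comm]
  have hA : ∀ t ∈ SP, Adm t := by
    intro t ht
    rw [hSP, mem_image] at ht
    obtain ⟨⟨M, A⟩, h1, rfl⟩ := ht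
    rw [mem_product] at h1
    exact adm_w8 (hm M A (hP h1.1)).2.1
  have h := HJ SP hA
  rw [hcard, pow_mul] at h
  refine h.congr fun X => ?_
  congr 1
  unfold cn
  congr 2
  ext v
  simp only [Finset.mem_filter, Set.mem_ofPred_eq]
  refine and_congr_right fun hv => ?_
  constructor
  · intro h1 M hM
    refine (goodW_iff8 (m := m M) (κ := κ M) (fun A => (hm M A (hP hM)).2.1)
      (fun A => (hm M A (hP hM)).1) (fun A => (hm M A (hP hM)).2.2) (h8 X v hv)).2 fun A => ?_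
    have h2 : m M A ∈ SP := by
      rw [hSP, mem_image]
      exact ⟨(M, A), mem_product.2 ⟨hM, mem_univ _⟩, rfl⟩
    exact (h1 _ h2).2 h2
  · intro h1 t ht
    refine iff_of_true ?_ ht
    rw [hSP, mem_image] at ht
    obtain ⟨⟨M, A⟩, h2, rfl⟩ := ht
    rw [mem_product] at h2
    exact (goodW_iff8 (m := m M) (κ := κ M) (fun A => (hm M A (hP h2.1)).2.1)
      (fun A => (hm M A (hP h2.1)).1) (fun A => (hm M A (hP h2.1)).2.2) (h8 X v hv)).1
      (h1 M h2.1) A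

theorem HJD (T' : Finset ℕ) (hT : ∀ t ∈ T', Adm t) : Tendsto (fun X : ℕ =>
    cn (CW8 X) {v | ∀ t ∈ T', (SqP RZ (t * id v) ↔ t ∈ T')} / ((CW8 X).card : ℝ)) atTop
      (𝓝 (c2 ^ T'.card)) := by
  have h := jointD crit hT (Finset.Subset.refl T')
  rw [Nat.sub_self, pow_zero, mul_one] at h
  exact h

theorem HJB (T' : Finset ℕ) (hT : ∀ t ∈ T', Adm t) : Tendsto (fun X : ℕ =>
    cn (Bm 1 X) {v | ∀ t ∈ T', (SqP RZ (t * nm v) ↔ t ∈ T')} / ((Bm 1 X).card : ℝ)) atTop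
      (𝓝 (c2 ^ T'.card)) := by
  have h := jointB crit hT (Finset.Subset.refl T')
  rw [Nat.sub_self, pow_zero, mul_one] at h
  exact h

/-- **the joint law, for the numbers of the class** -/
theorem prp_joint {n : ℕ} {d : Fin n → ℕ} (hd : ∀ i, W8 (d i)) (hI : Ind d) {T V : Finset ℕ}
    (hT : ∀ M ∈ T, W8 M) (hsep : Sep d T) (hV : V ⊆ T) :
    Prp ((c2 ^ 2 ^ n) ^ V.card * (1 - c2 ^ 2 ^ n) ^ (T.card - V.card))
      fun D => ∀ M ∈ T, (GoodW (M * D) d ↔ M ∈ V) :=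
  prp_cn (joint_pairs (N := id) (fun _ _ hv => (mem_CW8.1 hv).2.2.1) HJD hd hI hT hsep hV)

/-- **the joint law, for the pairs of integers** -/
theorem prB_joint {n : ℕ} {d : Fin n → ℕ} (hd : ∀ i, W8 (d i)) (hI : Ind d) {T V : Finset ℕ}
    (hT : ∀ M ∈ T, W8 M) (hsep : Sep d T) (hV : V ⊆ T) :
    PrB (((c2 ^ 2 ^ n) ^ V.card * (1 - c2 ^ 2 ^ n) ^ (T.card - V.card)) / 4)
      fun N => N % 8 = 1 ∧ ∀ M ∈ T, (GoodW (M * N) d ↔ M ∈ V) :=
  prB_cn (P := fun N => ∀ M ∈ T, (GoodW (M * N) d ↔ M ∈ V))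
    (joint_pairs (N := nm) (fun _ _ hv => (mem_Bm.1 hv).2) HJB hd hI hT hsep hV)

end Run7.h359.LB
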