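import Pool.Agent.Run7.h359.La14

/-!
# Dense sets of lattice points of norm `1 mod 8`

After `Run7/h428/WM` (helper428).
-/

set_option autoImplicit false

open scoped Classical symmDiff

namespace Run7.h359.LB

open Finset Filter Topology
open Run7.h428.MixG Run7.h428.UniG Run7.h428.WP Run7.h428.WI Run7.h428.WM
open Run7.h428.Uni (W mem_W W_empty W_congr W_insert pr)
open Run7.h238.Pairs
open Run7.h428.Inst (am am_pf am_symm adm_of_mask sq_unique c2_pos)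
open Pool.Agent.R413.SQ
open Pool.Agent.Y703.CQ (c2)
open Pool.Agent.Y698.SG (n4)
open Pool.Agent.Results.MP_4a9ea6_nt.TwoPartTwistsX49 (Adm)
open Pool.Agent.Results.MP_787500_nt.AllWeightsMultiquadraticX49 (Ind add)
open Run7.h359.WD (W8 GoodW)

/-- the lattice points of norm `1` modulo `8` -/
theorem bm_ex {v : ℤ × ℤ} : (∃ X, v ∈ Bm 1 X) ↔ nm v % 8 = 1 :=
  ⟨fun ⟨_, h⟩ => (mem_Bm.1 h).2, fun h => ⟨nm v, mem_Bm.2 ⟨le_rfl, h⟩⟩⟩

theorem cls_of {v : ℤ × ℤ} (h : nm v % 8 = 1) : v ∈ Cls := Bm_cls (mem_Bm.2 ⟨le_rfl, h⟩)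

/-- **universality** -/
theorem universalB {A : Set (ℤ × ℤ)} (hA : Large (Bm 1) A) (Φ : Set (Finset ℕ)) :
    ∃ z : ℕ → ℤ × ℤ, (∀ i, nm (z i) < nm (z (i + 1))) ∧
      (∀ i, z i ∈ A ∧ nm (z i) % 8 = 1) ∧
      (∀ S T : Finset ℕ, IsSquare ((∏ i ∈ S, nm (z i)) * ∏ i ∈ T, nm (z i)) → S = T) ∧
      ∀ S : Finset ℕ, 2 ≤ S.card → (SqP RZ (∏ i ∈ S, nm (z i)) ↔ S ∈ Φ) := by
  obtain ⟨z, h1, h2, h3, h4⟩ := isLawB.universal hA Φ
  have h8 : ∀ i, nm (z i) % 8 = 1 := fun i => bm_ex.1 (h2 i).2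
  have hc : ∀ i, z i ∈ Cls := fun i => cls_of (h8 i)
  have ham : ∀ S : Finset ℕ, am (W (fun i => U (z i)) S) := fun S =>
    isLawB.adm_W S fun i _ => cls_am (hc i)
  refine ⟨z, h1, fun i => ⟨(h2 i).1, h8 i⟩, fun S T hST => ?_, fun S hS => ?_⟩
  · obtain ⟨k, hk, a1⟩ := prods z S fun i _ => hc i
    obtain ⟨l, hl, a2⟩ := prods z T fun i _ => hc i
    obtain ⟨j, hj, a3⟩ := mul_mask (ham S) hk a1 hl a2
    obtain ⟨r, hr⟩ := hST
    rw [a3] at hr
    have ham2 := am_symm (ham S) (ham T)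
    have hr0 : 0 < r := by
      rcases Nat.eq_zero_or_pos r with h0 | h0
      · rw [h0, mul_zero] at hr
        have := Nat.mul_pos (prod_pos_of ham2) (pow_pos hj 2)
        omega
      · exact h0
    have a4 : (∏ p ∈ W (fun i => U (z i)) S ∆ W (fun i => U (z i)) T, p) = 1 :=
      sq_unique (adm_of_mask ham2).1.1 squarefree_one hj hr0 (by rw [hr]; ring)
    have a5 : W (fun i => U (z i)) S ∆ W (fun i => U (z i)) T = ∅ := by
      have := (adm_of_mask ham2).2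
      rw [a4, Nat.primeFactors_one] at this
      exact this.symm
    rw [← Finset.bot_eq_empty, symmDiff_eq_bot] at a5
    exact h3 S T a5
  · obtain ⟨k, hk, a1⟩ := prods z S fun i _ => hc i
    rw [sqP_iff crit (ham S) hk a1]
    exact h4 S hS

/-- the squarefree part of a number that is `1` modulo `8` -/
theorem sqP_w8 {N : ℕ} (h8 : N % 8 = 1) : SqP RZ N ↔ ∃ D k : ℕ, k ≠ 0 ∧ W8 D ∧ RA D ∧ N = D * k ^ 2 := by
  constructor
  · rintro ⟨D, k, hD, hk, he, hR⟩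
    have h1 : D % 8 = 1 := Run7.h359.CW.mod_cancel he h8
    exact ⟨D, k, hk.ne', w8_adm hD h1, (rz_iff (by omega)).1 hR, he⟩
  · rintro ⟨D, k, hk, hD, hR, he⟩
    exact ⟨D, k, adm_w8 hD, Nat.pos_of_ne_zero hk, he, (rz_iff (by have := hD.2.1; omega)).2 hR⟩

theorem prod_mod (z : ℕ → ℤ × ℤ) (hz : ∀ i, nm (z i) % 8 = 1) (S : Finset ℕ) :
    (∏ i ∈ S, nm (z i)) % 8 = 1 := by
  rw [Finset.prod_nat_mod, Finset.prod_congr rfl (fun i _ => hz i)]
  simp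

/-- a set of lattice points of norm `1` modulo `8` of positive upper density -/
theorem large_of {A : Set (ℤ × ℤ)} {δ : ℝ} (hδ : 0 < δ)
    (hA : ∃ᶠ X : ℕ in atTop, δ * (num Set.univ X : ℝ) ≤ (num (A ∩ {v | nm v % 8 = 1}) X : ℝ)) :
    Large (Bm 1) A := by
  refine ⟨δ, hδ, fun ε hε => hA.mono fun X hX => ?_⟩
  have h1 : ((Bm 1 X).card : ℝ) ≤ (num Set.univ X : ℝ) := by
    rw [num_univ]
    refine Nat.cast_le.2 (card_le_card fun v hv => ?_)
    rw [mem_Bm] at hv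
    exact mem_Bx.2 hv.1
  have h2 : (num (A ∩ {v | nm v % 8 = 1}) X : ℝ) = cn (Bm 1 X) A := by
    rw [num_eq]
    unfold cn Bm
    rw [filter_filter]
    congr 2
    ext v
    simp only [mem_filter, Set.mem_inter_iff, Set.mem_ofPred_eq]
    tauto
  rw [← h2]
  refine le_trans ?_ hX
  have h3 : (0 : ℝ) ≤ ((Bm 1 X).card : ℝ) := Nat.cast_nonneg _
  calc (δ - ε) * ((Bm 1 X).card : ℝ) ≤ δ * ((Bm 1 X).card : ℝ) :=
        mul_le_mul_of_nonneg_right (by linarith) h3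
    _ ≤ δ * (num Set.univ X : ℝ) := mul_le_mul_of_nonneg_left h1 hδ.le

end Run7.h359.LB
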