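import Pool.Agent.Run7.h359.La1
import Pool.Agent.Run7.h428.WC

/-!
# The sum over the boxes for the sets with a given label, with the weights `2 ^ |S|`

After `Run7/h428/WC` (helper428).
-/

set_option autoImplicit false

open scoped Classical

namespace Run7.h359.LB

open Finset
open Pool.Agent.Y703.CX (sm la jj XX)
open Pool.Agent.Y703.CQ (S_EQ HB c2)
open Pool.Agent.Y687.JQ (S_JLA)
open Pool.Agent.R413.SQ
open Pool.Agent.R413.SQ.SM (GdF NdF BX t_BX)
open Pool.Agent.R413.SQ.KEY (ph ky KP cl_prime rr_facts inj_ph rr_iff hb_box card_sub TT mem_TT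
  harm_TT)
open Run7.h428.W

variable {A : Type} [AddCommGroup A] [Fintype A]

/-- **the weighted sum over the boxes** -/
theorem wl_KEYF (hB1 : S_BIL) (hEQ : S_EQ) (hLA : S_JLA) (M e₀ : ℕ) (hA : Fintype.card A ≤ 2 ^ e₀)
    (l : ℕ → A) (a₀ : A) (ε : ℝ) (hε : 0 < ε) :
    ∃ (R : ℕ) (C : ℝ), 1 ≤ C ∧ ∀ (I K : Finset ℕ) (F : Fin M → ℕ → ZMod 2) (V : Fin M → Finset ℕ)
      (X z H k v N : ℕ) (κ : ℝ) (W : Finset ℕ), (∀ u ∈ W, u.Prime ∧ u % 4 = 1) →
      (∀ i, V i ⊆ W) → (∀ u ∈ W, u ≤ z) → W.card ≤ k →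
      Ok I K → 1 ≤ X → 1 ≤ H → 1 ≤ z → 0 ≤ κ → C ≤ κ ^ 12 * z → (H : ℝ) * Real.log X < N →
      ∀ (g : Finset ℕ → ℝ) (G : ℝ), (∀ S, 0 ≤ g S) → (∀ S, g S ≤ G) → (∀ S, g S = g (sm z S)) →
      |wg g ((RR I K X z H k v).filter fun S => Lab l a₀ S ∧
          (NdF R W F V (sm z S) (la z S) ∧ GdF F V S)) -
          c2 ^ M * wg g ((RR I K X z H k v).filter fun S => Lab l a₀ S ∧
          NdF R W F V (sm z S) (la z S))| ≤
        ε * wg g ((RR I K X z H k v).filter fun S => Lab l a₀ S) +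
        G * (2 ^ k * ((9 * N + 9 : ℝ) ^ k * (3 ^ ((6 + (M + e₀)) * k ^ 2) * κ) *
          (X * (1 + Real.log X)))) := by
  obtain ⟨C₁, hC₁, h1⟩ := hB1
  obtain ⟨R, hR⟩ := t_BX hEQ hLA M ε hε
  refine ⟨R, C₁, hC₁, ?_⟩
  intro I K F V X z H k v N κ W g1 g2 g3 g4 hok hX hH hz hκ hκz hN g G hg0 hgG hgs
  have hG0 : 0 ≤ G := (hg0 ∅).trans (hgG ∅)
  set T := (RR I K X z H k v).image (ky z H) with hT
  set B : ℝ := 3 ^ ((6 + (M + e₀)) * k ^ 2) * κ with hB
  have hB0 : 0 ≤ B := by positivity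
  have hfib : ∀ (P : Finset ℕ → Prop) [DecidablePred P],
      wg g ((RR I K X z H k v).filter fun S => P S) =
      ∑ e ∈ T, g e.1 * 2 ^ (e.1.card + e.2.card) *
        (((RR I K X z H k v).filter fun S => ky z H S = e ∧ P S).card : ℝ) := by
    intro P _
    unfold wg
    rw [← sum_fiberwise_of_maps_to (g := ky z H) (t := T) (by
      intro S hS
      rw [Finset.mem_filter] at hS
      exact Finset.mem_image_of_mem _ hS.1)]
    refine Finset.sum_congr rfl fun e _ => ?_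
    have e1 : ((RR I K X z H k v).filter fun S => P S).filter (fun S => ky z H S = e) =
        (RR I K X z H k v).filter fun S => ky z H S = e ∧ P S := by
      ext S
      simp only [Finset.mem_filter]
      tauto
    rw [e1]
    have e2 : ∀ S ∈ (RR I K X z H k v).filter (fun S => ky z H S = e ∧ P S),
        g S * (2 : ℝ) ^ S.card = g e.1 * 2 ^ (e.1.card + e.2.card) := by
      intro S hS
      rw [Finset.mem_filter] at hS
      have e3 : sm z S = e.1 := by rw [← hS.2.1]; rfl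
      rw [card_key hS.1, hS.2.1, hgs S, e3]
    rw [Finset.sum_congr rfl e2, Finset.sum_const, nsmul_eq_mul, mul_comm]
  have hKP : ∀ e ∈ T, KP I K X z H k v e.1 e.2 := by
    intro e he
    rw [hT, Finset.mem_image] at he
    obtain ⟨S, hS, rfl⟩ := he
    obtain ⟨f1, f2, f3⟩ := rr_facts hS
    exact (rr_iff hH f1 (inj_ph f2)).1 hS
  have hf1 := hfib fun S => Lab l a₀ S ∧ (NdF R W F V (sm z S) (la z S) ∧ GdF F V S)
  have hf2 := hfib fun S => Lab l a₀ S ∧ NdF R W F V (sm z S) (la z S)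
  have hf3 := hfib fun S => Lab l a₀ S
  rw [hf1, hf2, hf3, Finset.mul_sum, ← Finset.sum_sub_distrib]
  refine (Finset.abs_sum_le_sum_abs _ _).trans ?_
  have h3 : ∀ e ∈ T, |g e.1 * 2 ^ (e.1.card + e.2.card) *
        (((RR I K X z H k v).filter fun S => ky z H S = e ∧
        (Lab l a₀ S ∧ (NdF R W F V (sm z S) (la z S) ∧ GdF F V S))).card : ℝ) -
      c2 ^ M * (g e.1 * 2 ^ (e.1.card + e.2.card) *
        (((RR I K X z H k v).filter fun S => ky z H S = e ∧
        (Lab l a₀ S ∧ NdF R W F V (sm z S) (la z S))).card : ℝ))| ≤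
      ε * (g e.1 * 2 ^ (e.1.card + e.2.card) *
        (((RR I K X z H k v).filter fun S => ky z H S = e ∧ Lab l a₀ S).card : ℝ)) +
      G * 2 ^ k * (B * (X / ((∏ p ∈ e.1, p : ℕ) : ℝ))) := by
    intro e he
    obtain ⟨S₀, J⟩ := e
    have hk' := hKP _ he
    have h4 := per_key_lab hε hR F V hok hH hκ g1 g2 g3 g4 hk' (hb_box hok h1 hH hz hκ hκz) l a₀ hA
    set w : ℝ := g S₀ * 2 ^ (S₀.card + J.card) with hw
    have hw0 : 0 ≤ w := mul_nonneg (hg0 _) (by positivity)
    have hwk : w ≤ G * 2 ^ k :=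
      mul_le_mul (hgG _) (pow_le_pow_right₀ (by norm_num) hk'.card) (by positivity) hG0
    set a : ℝ := (((RR I K X z H k v).filter fun S => ky z H S = (S₀, J) ∧
        (Lab l a₀ S ∧ (NdF R W F V (sm z S) (la z S) ∧ GdF F V S))).card : ℝ) with ha
    set b : ℝ := (((RR I K X z H k v).filter fun S => ky z H S = (S₀, J) ∧
        (Lab l a₀ S ∧ NdF R W F V (sm z S) (la z S))).card : ℝ) with hb
    set c : ℝ := (((RR I K X z H k v).filter fun S => ky z H S = (S₀, J) ∧
        Lab l a₀ S).card : ℝ) with hc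
    have e1 : w * a - c2 ^ M * (w * b) = w * (a - c2 ^ M * b) := by ring
    show |w * a - c2 ^ M * (w * b)| ≤ ε * (w * c) +
      G * 2 ^ k * (B * (X / ((∏ p ∈ S₀, p : ℕ) : ℝ)))
    rw [e1, abs_mul, abs_of_nonneg hw0]
    have e2 : 0 ≤ B * (X / ((∏ p ∈ S₀, p : ℕ) : ℝ)) := by positivity
    calc w * |a - c2 ^ M * b| ≤ w * (ε * c + B * (X / ((∏ p ∈ S₀, p : ℕ) : ℝ))) :=
          mul_le_mul_of_nonneg_left h4 hw0
      _ = ε * (w * c) + w * (B * (X / ((∏ p ∈ S₀, p : ℕ) : ℝ))) := by ring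
      _ ≤ _ := add_le_add le_rfl (mul_le_mul_of_nonneg_right hwk e2)
  refine (Finset.sum_le_sum h3).trans ?_
  rw [Finset.sum_add_distrib, ← Finset.mul_sum, ← Finset.mul_sum, mul_assoc G]
  refine add_le_add le_rfl (mul_le_mul_of_nonneg_left
    (mul_le_mul_of_nonneg_left ?_ (by positivity)) hG0)
  have hsub : T ⊆ (TT X) ×ˢ ((range N ×ˢ range 8).powerset.filter fun J => J.card ≤ k) := by
    intro e he
    have hk' := hKP e he
    rw [hT, Finset.mem_image] at he
    obtain ⟨S, hS, rfl⟩ := he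
    obtain ⟨f1, f2, f3⟩ := rr_facts hS
    rw [Finset.mem_product, Finset.mem_filter, Finset.mem_powerset]
    refine ⟨mem_TT (fun q hq => cl_prime (hk'.cl q hq)) ?_, ?_, ?_⟩
    · refine le_trans ?_ f3
      exact Nat.le_of_dvd (Finset.prod_pos fun p hp => (cl_prime (f1 p hp)).pos)
        (Finset.prod_dvd_prod_of_subset _ _ _ (Finset.filter_subset _ _))
    · intro e he
      unfold ky at he
      rw [Finset.mem_image] at he
      obtain ⟨q, hq, rfl⟩ := he
      have hqS := (Finset.mem_filter.1 hq).1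
      have hq0 := (cl_prime (f1 q hqS)).pos
      have hqX : q ≤ X := by
        refine le_trans ?_ f3
        exact Nat.le_of_dvd (Finset.prod_pos fun p hp => (cl_prime (f1 p hp)).pos)
          (Finset.dvd_prod_of_mem _ hqS)
      unfold ph
      rw [Finset.mem_product, Finset.mem_range, Finset.mem_range]
      refine ⟨?_, mk_lt _⟩
      have h3 : ((jj H q : ℕ) : ℝ) < N := by
        refine lt_of_le_of_lt (Nat.floor_le (mul_nonneg (Nat.cast_nonneg _)
          (Real.log_nonneg (by exact_mod_cast hq0)))) ?_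
        refine lt_of_le_of_lt ?_ hN
        refine mul_le_mul_of_nonneg_left ?_ (Nat.cast_nonneg _)
        exact Real.log_le_log (by exact_mod_cast hq0) (by exact_mod_cast hqX)
      exact_mod_cast h3
    · have := hk'.card
      omega
  refine (Finset.sum_le_sum_of_subset_of_nonneg hsub fun _ _ _ => by positivity).trans ?_
  rw [Finset.sum_product]
  simp only [Finset.sum_const, nsmul_eq_mul]
  rw [← Finset.mul_sum]
  have h4 : ((((range N ×ˢ range 8).powerset.filter fun J => J.card ≤ k).card : ℕ) : ℝ) ≤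
      (9 * N + 9 : ℝ) ^ k := by
    have h5 := card_sub (range N ×ˢ range 8) k
    rw [Finset.card_product, Finset.card_range, Finset.card_range] at h5
    calc ((((range N ×ˢ range 8).powerset.filter fun J => J.card ≤ k).card : ℕ) : ℝ) ≤
          (((N * 8 + 1) ^ k : ℕ) : ℝ) := by exact_mod_cast h5
      _ = (N * 8 + 1 : ℝ) ^ k := by push_cast; ring
      _ ≤ _ := by
        apply pow_le_pow_left₀ (by positivity)
        have : (0 : ℝ) ≤ N := Nat.cast_nonneg _
        linarith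
  have h5 : ∑ S ∈ TT X, B * (X / ((∏ p ∈ S, p : ℕ) : ℝ)) ≤ B * (X * (1 + Real.log X)) := by
    have h6 : ∀ S ∈ TT X, B * ((X : ℝ) / ((∏ p ∈ S, p : ℕ) : ℝ)) =
        B * X * (1 / ((∏ p ∈ S, p : ℕ) : ℝ)) := by
      intro S _
      ring
    rw [Finset.sum_congr rfl h6, ← Finset.mul_sum]
    have h7 := mul_le_mul_of_nonneg_left (harm_TT X) (mul_nonneg hB0 (Nat.cast_nonneg X))
    refine h7.trans (le_of_eq ?_)
    ring
  have h6 : 0 ≤ ∑ S ∈ TT X, B * ((X : ℝ) / ((∏ p ∈ S, p : ℕ) : ℝ)) :=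
    Finset.sum_nonneg fun _ _ => by positivity
  rw [mul_assoc]
  gcongr

end Run7.h359.LB
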