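import Pool.Agent.Run7.h359.La2
import Pool.Agent.Run7.h428.WE

/-!
# The joint law with the weights `2 ^ ω(D)` for the sets with a given label

After `Run7/h428/WE` (helper428).
-/

set_option autoImplicit false

open scoped Classical

namespace Run7.h359.LB

open Finset Filter Topology
open Pool.Agent.Y703.CX (sm la jj XX eL zz kk S_SIE logX_eq rpow_eL ev_eL one_le_exp
  kk_ge kk_le X_pos one_add_log lin_le kap zz_pos kap_nonneg kap_pow kap_le)
open Pool.Agent.Y703.CQ (nr S_MER S_EQ S_C2 c2 S_CHE)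
open Pool.Agent.Y687.JQ (S_JLA)
open Pool.Agent.R413
open Pool.Agent.R413.SQ
open Pool.Agent.R413.SQ.SM (GdF NdF Pos dd prF fewF out_subF Fa di sml_sum)
open Run7.h428.W

variable {A : Type} [AddCommGroup A] [Fintype A]

theorem wl_law {M : ℕ} (l : ℕ → A) (a₀ : A) (I K : Finset ℕ)
    (F : Fin M → ℕ → ZMod 2) (V : Fin M → Finset ℕ) (W : Finset ℕ)
    (hW1 : ∀ u ∈ W, u.Prime ∧ u % 4 = 1) (hW2 : ∀ i, V i ⊆ W)
    (hpos : ∀ i j, i ≠ j → Pos (dd F V i j)) {CT : ℝ} (hCT0 : 0 ≤ CT)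
    (hCT : ∀ X : ℕ, wt (SS I K X) ≤ CT * X) {g : Finset ℕ → ℝ} {G : ℝ} (hg0 : ∀ S, 0 ≤ g S)
    (hgG : ∀ S, g S ≤ G) (hgs : Fin0 g) {ε : ℝ} (hε : 0 < ε) :
    ∀ᶠ X : ℕ in atTop, |wg g (((SS I K X).filter (Lab l a₀)).filter (GdF F V)) -
      c2 ^ M * wg g ((SS I K X).filter (Lab l a₀))| ≤ ε * X := by
  obtain ⟨e₀, he₀⟩ : ∃ e₀ : ℕ, Fintype.card A ≤ 2 ^ e₀ :=
    ⟨Fintype.card A, (Nat.lt_two_pow_self).le⟩
  have hM := Pool.Agent.Y405.CQ.t_MER
  have hS := Pool.Agent.Y488.CX.t_SIE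
  have hCt : CntP := Pool.Agent.R413.SQ.CNT.t_CNT
  have hc2 := Pool.Agent.Y948.CQ.t_C2
  have hO : Ok I K := trivial
  have hG0 : 0 ≤ G := (hg0 ∅).trans (hgG ∅)
  obtain ⟨R, C, hC1, hkey⟩ := wl_KEYF Pool.Agent.R413.SQ.BIL.t_BIL Pool.Agent.Y356.CQ.t_EQ
    Pool.Agent.Y697.JQ.t_JLA M e₀ he₀ l a₀ (ε / (2 * (G + 1) * (CT + 1))) (by positivity)
  set v : ℕ := 2 * W.card + R with hv
  have s1 := w_many I K
  have s2 := w_cut I K hCt
  have s3 := w_coll I K hCt
  have s4 := w_few hS hM I K v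
  have s5 := w_bad hS Pool.Agent.R413.SQ.HAL.t_HAL hM I K W hW1
  have s6 := sml_mainW (M + e₀) hC1
  have s7 : Sml 0 fun X => ∑ e ∈ prF M,
      wt (fewF I K X (zz X) v (dd F V e.1 e.2)) := by
    refine sml_sum _ _ fun e he => ?_
    unfold prF at he
    rw [mem_filter] at he
    exact w_fewF hS hM (hpos e.1 e.2 he.2) I K v
  have s := sml_add (sml_add (sml_add (sml_add (sml_add (sml_add s1 s2) s3) s4) s5) s6) s7
  obtain ⟨WB, hWB⟩ : ∃ B : ℕ, ∀ u ∈ W, u ≤ B := ⟨W.sup id, fun u hu => Finset.le_sup (f := id) hu⟩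
  obtain ⟨z₀, hz₀⟩ := hgs
  have hzt : ∀ᶠ X : ℕ in atTop, max WB z₀ ≤ zz X := by
    filter_upwards [ev_eL ((max WB z₀ : ℕ) + 1)] with X hX
    have h0 : (1 : ℝ) ≤ eL X := by
      have : (0 : ℝ) ≤ (max WB z₀ : ℕ) := Nat.cast_nonneg _
      linarith
    unfold zz
    apply Nat.le_floor
    have h2 : ((max WB z₀ : ℕ) : ℝ) ≤ (eL X) ^ 3 := by
      have h3 : (1 : ℝ) * eL X ≤ (eL X) ^ 2 * eL X := by
        apply mul_le_mul_of_nonneg_right _ (by linarith)
        nlinarith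
      have h4 : (eL X) ^ 3 = (eL X) ^ 2 * eL X := by ring
      linarith
    have h3 := Real.add_one_le_exp ((eL X) ^ 3)
    linarith
  have hkt : ∀ᶠ X : ℕ in atTop, W.card ≤ kk X := by
    filter_upwards [ev_eL (W.card + 1)] with X hX
    have h2 := kk_ge X
    have h0 : (0 : ℝ) ≤ W.card := Nat.cast_nonneg _
    have : (W.card : ℝ) ≤ kk X := by linarith
    exact_mod_cast this
  filter_upwards [s (ε / (2 * (G + 1))) (by positivity), ev_eL 1, hzt, hkt] with X hX hl hz' hk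
  have hz : WB ≤ zz X := (le_max_left _ _).trans hz'
  have hzz : z₀ ≤ zz X := (le_max_right _ _).trans hz'
  have hl0 : 0 < eL X := by linarith
  have hXp := X_pos hl0
  have hXp' : (0 : ℝ) < X := by exact_mod_cast hXp
  have hN : (HN X : ℝ) * Real.log X < NW X := by
    unfold NW
    push_cast
    exact Nat.lt_floor_add_one _
  have hmain := hkey I K F V X (zz X) (HN X) (kk X) v (NW X) (kap C X) W hW1 hW2
    (fun u hu => (hWB u hu).trans hz) hk hO hXp (HN_pos hl0) (zz_pos hl)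
    (kap_nonneg hC1 X) (kap_pow hC1 hl) hN g G hg0 hgG (hz₀ _ hzz)
  set T₀ := (RR I K X (zz X) (HN X) (kk X) v).filter fun S =>
    NdF R W F V (sm (zz X) S) (la (zz X) S) with hT₀
  set T := (RR I K X (zz X) (HN X) (kk X) v).filter fun S => Lab l a₀ S ∧
    NdF R W F V (sm (zz X) S) (la (zz X) S) with hT
  have hTG : (RR I K X (zz X) (HN X) (kk X) v).filter
      (fun S => Lab l a₀ S ∧ (NdF R W F V (sm (zz X) S) (la (zz X) S) ∧ GdF F V S)) =
      T.filter (GdF F V) := by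
    rw [hT, filter_filter]
    simp only [and_assoc]
  rw [hTG] at hmain
  have hTS : T ⊆ (SS I K X).filter (Lab l a₀) := by
    intro S hS
    rw [hT, mem_filter] at hS
    rw [mem_filter]
    exact ⟨(filter_subset _ _) hS.1, hS.2.1⟩
  have hRS : wg g ((RR I K X (zz X) (HN X) (kk X) v).filter fun S => Lab l a₀ S) ≤
      G * (CT * X) :=
    (wg_le hgG _).trans (mul_le_mul_of_nonneg_left
      ((wt_mono ((filter_subset _ _).trans (filter_subset _ _))).trans (hCT X)) hG0)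
  have hp0 : 0 ≤ c2 ^ M := pow_nonneg hc2.2.1.le _
  have hp1 : c2 ^ M ≤ 1 := pow_le_one₀ hc2.2.1.le hc2.2.2.1.le
  have hcmp := cmpW hg0 (GdF F V) hTS hp0 hp1
  have hdiff : (SS I K X).filter (Lab l a₀) \ T ⊆ SS I K X \ T₀ := by
    intro S hS
    rw [Finset.mem_sdiff, Finset.mem_filter, hT, Finset.mem_filter] at hS
    rw [Finset.mem_sdiff, hT₀, Finset.mem_filter]
    exact ⟨hS.1.1, fun h => hS.2 ⟨h.1, hS.1.2, h.2⟩⟩
  have hout : wt (SS I K X \ T₀) ≤
      (wt ((SS I K X).filter fun S => kk X < S.card) +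
      wt ((SS I K X).filter fun S => S.card ≤ kk X ∧
        X < (∏ p ∈ sm (zz X) S, p) * ∏ p ∈ la (zz X) S, XX (HN X) (jj (HN X) p)) +
      wt ((SS I K X).filter fun S => S.card ≤ kk X ∧
        ¬ Set.InjOn (jj (HN X)) (la (zz X) S : Set ℕ)) +
      wt ((SS I K X).filter fun S => ((la (zz X) S).filter fun p => SQ.mk p = 1).card ≤
        2 * (sm (zz X) S).card + v ∨ ∀ p ∈ la (zz X) S, SQ.mk p = 1)) +
      wt ((SS I K X).filter fun S => S.card ≤ kk X ∧
        ¬ Nd (sm (zz X) S ∪ W) (la (zz X) S)) +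
      ∑ e ∈ prF M, wt (fewF I K X (zz X) v (dd F V e.1 e.2)) := by
    have g := out_subF I K W F V X (zz X) (HN X) (kk X) R
    rw [← hv, ← hT₀] at g
    have g1 : SS I K X \ T₀ ⊆
      ((((((SS I K X).filter fun S => kk X < S.card) ∪
      ((SS I K X).filter fun S => S.card ≤ kk X ∧
        X < (∏ p ∈ sm (zz X) S, p) * ∏ p ∈ la (zz X) S, XX (HN X) (jj (HN X) p))) ∪
      ((SS I K X).filter fun S => S.card ≤ kk X ∧
        ¬ Set.InjOn (jj (HN X)) (la (zz X) S : Set ℕ))) ∪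
      ((SS I K X).filter fun S => ((la (zz X) S).filter fun p => SQ.mk p = 1).card ≤
        2 * (sm (zz X) S).card + v ∨ ∀ p ∈ la (zz X) S, SQ.mk p = 1)) ∪
      ((SS I K X).filter fun S => S.card ≤ kk X ∧ ¬ Nd (sm (zz X) S ∪ W) (la (zz X) S))) ∪
      (prF M).biUnion fun e => fewF I K X (zz X) v (dd F V e.1 e.2) := by
      intro S hS
      have h1 := g hS
      rw [mem_union, mem_union, mem_union, mem_union, mem_union] at h1 ⊢
      simp only [mem_filter] at h1 ⊢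
      rcases h1 with ((((h1 | h1) | h1) | h1) | h1) | h1
      · exact Or.inl (Or.inl (Or.inl (Or.inl (Or.inl h1))))
      · exact Or.inl (Or.inl (Or.inl (Or.inl (Or.inr h1))))
      · by_cases h2 : S.card ≤ kk X
        · exact Or.inl (Or.inl (Or.inl (Or.inr ⟨h1.1, h2, h1.2⟩)))
        · exact Or.inl (Or.inl (Or.inl (Or.inl (Or.inl ⟨h1.1, by omega⟩))))
      · exact Or.inl (Or.inl (Or.inr h1))
      · exact Or.inl (Or.inr h1)
      · exact Or.inr h1
    refine (wt_mono g1).trans ?_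
    refine (wt_union _ _).trans (add_le_add ?_ (wt_biUnion _ _))
    refine (wt_union _ _).trans (add_le_add ?_ le_rfl)
    refine (wt_union _ _).trans (add_le_add ?_ le_rfl)
    refine (wt_union _ _).trans (add_le_add ?_ le_rfl)
    exact wt_union _ _
  have hXe : (X : ℝ) * Real.exp (-0 * eL X) = X := by
    rw [neg_zero, zero_mul, Real.exp_zero, mul_one]
  have hX' := hX
  rw [hXe] at hX'
  set E : ℝ := 2 ^ kk X * ((9 * (NW X : ℝ) + 9) ^ kk X *
    (3 ^ ((6 + (M + e₀)) * kk X ^ 2) * kap C X) * (X * (1 + Real.log X))) with hE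
  have h1 : wg g ((SS I K X).filter (Lab l a₀) \ T) ≤ G * wt (SS I K X \ T₀) :=
    (wg_mono hg0 hdiff).trans (wg_le hgG _)
  have h2 : wt (SS I K X \ T₀) + E ≤ ε / (2 * (G + 1)) * X := by
    rw [hE]
    push_cast at hX' ⊢
    linarith
  have h3 : ε / (2 * (G + 1) * (CT + 1)) *
      wg g ((RR I K X (zz X) (HN X) (kk X) v).filter fun S => Lab l a₀ S) ≤ ε / 2 * X := by
    calc ε / (2 * (G + 1) * (CT + 1)) *
          wg g ((RR I K X (zz X) (HN X) (kk X) v).filter fun S => Lab l a₀ S) ≤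
          ε / (2 * (G + 1) * (CT + 1)) * ((G + 1) * ((CT + 1) * X)) := by
          refine mul_le_mul_of_nonneg_left (hRS.trans ?_) (by positivity)
          gcongr <;> linarith
      _ = ε / 2 * X := by
          field_simp
  have h4 : G * (wt (SS I K X \ T₀) + E) ≤ ε / 2 * X := by
    calc G * (wt (SS I K X \ T₀) + E) ≤ G * (ε / (2 * (G + 1)) * X) :=
          mul_le_mul_of_nonneg_left h2 hG0
      _ ≤ (G + 1) * (ε / (2 * (G + 1)) * X) :=
          mul_le_mul_of_nonneg_right (by linarith) (by positivity)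
      _ = ε / 2 * X := by
          field_simp
  have h5 : G * (wt (SS I K X \ T₀) + E) = G * wt (SS I K X \ T₀) + G * E := by ring
  linarith

/-- the joint law -/
theorem wl_lawS {ι : Type} (l : ℕ → A) (a₀ : A) (I K : Finset ℕ) {F : ι → ℕ → ZMod 2} {V : ι → Finset ℕ}
    (h : Fa F V) (P : Finset ι) {CT : ℝ} (hCT0 : 0 ≤ CT)
    (hCT : ∀ X : ℕ, wt (SS I K X) ≤ CT * X) {g : Finset ℕ → ℝ} {G : ℝ} (hg0 : ∀ S, 0 ≤ g S)
    (hgG : ∀ S, g S ≤ G) (hgs : Fin0 g) {ε : ℝ} (hε : 0 < ε) : ∀ᶠ X : ℕ in atTop,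
    |wg g (((SS I K X).filter (Lab l a₀)).filter fun S => ∀ i ∈ P, Gd (F i) (symmDiff S (V i))) -
      c2 ^ P.card * wg g ((SS I K X).filter (Lab l a₀))| ≤ ε * X := by
  set e : Fin P.card ≃ P := P.equivFin.symm with he
  have h1 := wl_law l a₀ I K (fun k => F (e k)) (fun k => V (e k)) (P.biUnion V)
    (fun u hu => by
      obtain ⟨i, -, hi⟩ := mem_biUnion.1 hu
      exact h.pr i u hi)
    (fun k => subset_biUnion_of_mem V (e k).2)
    (fun i j hij => h.sep _ _ fun h' => hij (e.injective (Subtype.ext h'))) hCT0 hCT hg0 hgG hgs hε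
  refine h1.mono fun X hX => ?_
  have e1 : (((SS I K X).filter (Lab l a₀)).filter fun S =>
      ∀ i ∈ P, Gd (F i) (symmDiff S (V i))) =
      ((SS I K X).filter (Lab l a₀)).filter (GdF (fun k => F (e k)) fun k => V (e k)) := by
    refine filter_congr fun S _ => ?_
    unfold GdF
    constructor
    · intro h2 k
      exact h2 _ (e k).2
    · intro h2 i hi
      have h3 := h2 (e.symm ⟨i, hi⟩)
      simp only [Equiv.apply_symm_apply] at h3
      exact h3
  rw [e1]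
  exact hX

/-- all the patterns -/
theorem wl_lawPQ {ι : Type} (l : ℕ → A) (a₀ : A) (I K : Finset ℕ) {F : ι → ℕ → ZMod 2} {V : ι → Finset ℕ}
    (h : Fa F V) {CT : ℝ} (hCT0 : 0 ≤ CT)
    (hCT : ∀ X : ℕ, wt (SS I K X) ≤ CT * X) {g : Finset ℕ → ℝ} {G : ℝ} (hg0 : ∀ S, 0 ≤ g S)
    (hgG : ∀ S, g S ≤ G) (hgs : Fin0 g) (Q : Finset ι) :
    ∀ P : Finset ι, Disjoint P Q → ∀ ε : ℝ, 0 < ε → ∀ᶠ X : ℕ in atTop,
    |wg g (((SS I K X).filter (Lab l a₀)).filter fun S => (∀ i ∈ P, Gd (F i) (symmDiff S (V i))) ∧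
      ∀ i ∈ Q, ¬ Gd (F i) (symmDiff S (V i))) -
      c2 ^ P.card * (1 - c2) ^ Q.card * wg g ((SS I K X).filter (Lab l a₀))| ≤ ε * X := by
  induction Q using Finset.induction_on with
  | empty =>
    intro P _ ε hε
    have h1 := wl_lawS l a₀ I K h P hCT0 hCT hg0 hgG hgs hε
    refine h1.mono fun X hX => ?_
    simpa using hX
  | insert q Q hq ih =>
    intro P hPQ ε hε
    rw [disjoint_insert_right] at hPQ
    have h1 := ih P hPQ.2 (ε / 2) (by positivity)
    have h2 := ih (insert q P) (disjoint_insert_left.2 ⟨hq, hPQ.2⟩) (ε / 2) (by positivity)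
    rw [card_insert_of_notMem hPQ.1] at h2
    rw [card_insert_of_notMem hq]
    filter_upwards [h1, h2] with X a1 a2
    set T := ((SS I K X).filter (Lab l a₀)).filter fun S => (∀ i ∈ P, Gd (F i) (symmDiff S (V i))) ∧
      ∀ i ∈ Q, ¬ Gd (F i) (symmDiff S (V i)) with hT
    have h4 : wg g (T.filter fun S => Gd (F q) (symmDiff S (V q))) +
        wg g (T.filter fun S => ¬ Gd (F q) (symmDiff S (V q))) = wg g T := by
      unfold wg
      exact sum_filter_add_sum_filter_not T _ _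
    have e1 : T.filter (fun S => Gd (F q) (symmDiff S (V q))) =
        ((SS I K X).filter (Lab l a₀)).filter fun S => (∀ i ∈ insert q P, Gd (F i) (symmDiff S (V i))) ∧
          ∀ i ∈ Q, ¬ Gd (F i) (symmDiff S (V i)) := by
      rw [hT, filter_filter]
      refine filter_congr fun S _ => ?_
      rw [forall_mem_insert]
      tauto
    have e2 : T.filter (fun S => ¬ Gd (F q) (symmDiff S (V q))) =
        ((SS I K X).filter (Lab l a₀)).filter fun S => (∀ i ∈ P, Gd (F i) (symmDiff S (V i))) ∧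
          ∀ i ∈ insert q Q, ¬ Gd (F i) (symmDiff S (V i)) := by
      rw [hT, filter_filter]
      refine filter_congr fun S _ => ?_
      rw [forall_mem_insert]
      tauto
    rw [e1, e2] at h4
    have e3 : wg g (((SS I K X).filter (Lab l a₀)).filter fun S => (∀ i ∈ P, Gd (F i) (symmDiff S (V i))) ∧
          ∀ i ∈ insert q Q, ¬ Gd (F i) (symmDiff S (V i))) -
        c2 ^ P.card * (1 - c2) ^ (Q.card + 1) * wg g ((SS I K X).filter (Lab l a₀)) =
        (wg g T - c2 ^ P.card * (1 - c2) ^ Q.card * wg g ((SS I K X).filter (Lab l a₀))) -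
        (wg g (((SS I K X).filter (Lab l a₀)).filter fun S => (∀ i ∈ insert q P, Gd (F i) (symmDiff S (V i))) ∧
          ∀ i ∈ Q, ¬ Gd (F i) (symmDiff S (V i))) -
          c2 ^ (P.card + 1) * (1 - c2) ^ Q.card * wg g ((SS I K X).filter (Lab l a₀))) := by
      rw [← h4]
      ring
    rw [e3]
    refine (abs_sub _ _).trans ?_
    linarith

end Run7.h359.LB
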