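import Pool.Agent.Run7.h359.La3
import Pool.Agent.Run7.h428.WP

/-!
# The joint law for the lattice points with a given label

After `Run7/h428/WP` (helper428); `CX X` are the pairs of integers of norm `≤ X` whose norm has an odd
squarefree part (helper238).
-/

set_option autoImplicit false

open scoped Classical

namespace Run7.h359.LB

open Finset Filter Topology
open Pool.Agent.R413.SQ
open Pool.Agent.Y703.CQ (c2)
open Run7.h238.Pairs Run7.h428.W Run7.h428.WP

variable {A : Type} [AddCommGroup A] [Fintype A]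

theorem pl_law {ι : Type} {F : ι → ℕ → ZMod 2} {V : ι → Finset ℕ} (h : SM.Fa F V)
    (P Q : Finset ι) (hPQ : Disjoint P Q) (l : ℕ → A) (a₀ : A) :
    Tendsto (fun X : ℕ => ((((CX X).filter fun v => Lab l a₀ (oddP (nm v)) ∧
      ((∀ i ∈ P, Gd (F i) (symmDiff (oddP (nm v)) (V i))) ∧
      ∀ i ∈ Q, ¬ Gd (F i) (symmDiff (oddP (nm v)) (V i)))).card : ℝ) -
      c2 ^ P.card * (1 - c2) ^ Q.card *
        (((CX X).filter fun v => Lab l a₀ (oddP (nm v))).card : ℝ)) / X) atTop (𝓝 0) := by
  have hc0 : 0 < c2 := Pool.Agent.Y948.CQ.t_C2.2.1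
  have hc1 : c2 < 1 := Pool.Agent.Y948.CQ.t_C2.2.2.1
  set p : ℝ := c2 ^ P.card * (1 - c2) ^ Q.card with hp
  have hp0 : 0 ≤ p := mul_nonneg (pow_nonneg hc0.le _) (pow_nonneg (by linarith) _)
  have hp1 : p ≤ 1 := mul_le_one₀ (pow_le_one₀ hc0.le hc1.le) (pow_nonneg (by linarith) _)
    (pow_le_one₀ (by linarith) (by linarith))
  set D : Finset ℕ → Prop := fun S => (∀ i ∈ P, Gd (F i) (symmDiff S (V i))) ∧
      ∀ i ∈ Q, ¬ Gd (F i) (symmDiff S (V i)) with hD
  have h1 := tendsto_zero (F := fun S => if Lab l a₀ S then (if D S then (1 : ℝ) else 0) - p else 0)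
    (fun S => by
    rw [abs_le]
    split_ifs <;> constructor <;> linarith) (fun G ε hε => by
    have h2 := wl_lawPQ l a₀ ∅ ∅ h (CT := 9) (by norm_num) wt_le
      (g := fun S => (2 : ℝ) ^ (G \ S).card) (G := 2 ^ G.card) (fun S => by positivity)
      (fun S => pow_le_pow_right₀ (by norm_num) (card_le_card sdiff_subset)) (fin0 G) Q P hPQ ε hε
    refine h2.mono fun X hX => ?_
    refine le_trans (le_of_eq ?_) hX
    congr 1
    rw [wg_union, wg_union, sum_filter, mul_sum, ← sum_sub_distrib, sum_filter]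
    refine sum_congr rfl fun S _ => ?_
    by_cases hL : Lab l a₀ S
    · rw [if_pos hL, if_pos hL]
      by_cases hS : D S
      · rw [if_pos hS, if_pos hS]
        ring
      · rw [if_neg hS, if_neg hS]
        ring
    · rw [if_neg hL, if_neg hL, mul_zero])
  refine h1.congr fun X => ?_
  congr 1
  have e1 : ((CX X).filter fun v => Lab l a₀ (oddP (nm v)) ∧ D (oddP (nm v))) =
      ((CX X).filter fun v => Lab l a₀ (oddP (nm v))).filter fun v => D (oddP (nm v)) := by
    rw [filter_filter]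
  have e2 : (((CX X).filter fun v => Lab l a₀ (oddP (nm v)) ∧ D (oddP (nm v))).card : ℝ) =
      ∑ v ∈ (CX X).filter (fun v => Lab l a₀ (oddP (nm v))),
        if D (oddP (nm v)) then (1 : ℝ) else 0 := by
    rw [e1, Finset.card_filter]
    push_cast
    rfl
  rw [← sum_filter, Finset.sum_sub_distrib, Finset.sum_const, nsmul_eq_mul,
    mul_comm ((card _ : ℕ) : ℝ) p]
  congr 1
  rw [← e2]

end Run7.h359.LB
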