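import Pool.Agent.Run7.h359.La4

/-!
# The pairs of integers of norm `1 mod 8`

A quarter of the pairs of integers (ordered by the norm) have norm `1 mod 8`, and the joint law holds for
them. The shift of the even coordinate by two interchanges the norms `1` and `5` modulo `8`.
-/

set_option autoImplicit false

open scoped Classical

namespace Run7.h359.LB

open Finset Filter Topology
open Pool.Agent.R413.SQ
open Pool.Agent.Y703.CQ (c2)
open Run7.h238.Pairs Run7.h238.Half Run7.h238.Disc Run7.h428.W Run7.h428.WP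

/-- the label: whether the prime is `5` modulo `8` -/
def l8 (q : ℕ) : ZMod 2 := if q % 8 = 5 then 1 else 0

theorem lab8 {S : Finset ℕ} (h : ∀ q ∈ S, q % 4 = 1) :
    Lab l8 0 S ↔ (∏ q ∈ S, q) % 8 = 1 := by
  have key : ((∑ q ∈ S, l8 q = 0) ∧ (∏ q ∈ S, q) % 8 = 1) ∨
      ((∑ q ∈ S, l8 q = 1) ∧ (∏ q ∈ S, q) % 8 = 5) := by
    induction S using Finset.induction_on with
    | empty => left; simp
    | insert a S ha ih =>
      have h1 := h a (Finset.mem_insert_self _ _)
      have h2 := ih fun q hq => h q (Finset.mem_insert_of_mem hq)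
      rw [Finset.sum_insert ha, Finset.prod_insert ha]
      have h3 : a % 8 = 1 ∨ a % 8 = 5 := by omega
      unfold l8 at h2 ⊢
      rcases h3 with h3 | h3 <;> rcases h2 with ⟨h4, h5⟩ | ⟨h4, h5⟩ <;>
        rw [h4, Nat.mul_mod, h3, h5]
      · left; simp
      · right; simp
      · right; simp
      · left
        refine ⟨?_, by norm_num⟩
        rw [if_pos (by norm_num)]
        decide
  unfold Lab
  rcases key with ⟨h4, h5⟩ | ⟨h4, h5⟩
  · exact iff_of_true h4 h5
  · refine iff_of_false ?_ (by omega)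
    rw [h4]
    decide

/-- odd squares -/
theorem sq8 {k : ℕ} (h : k % 2 = 1) : k ^ 2 % 8 = 1 := by
  have h1 : k % 8 = 1 ∨ k % 8 = 3 ∨ k % 8 = 5 ∨ k % 8 = 7 := by omega
  rcases h1 with h1 | h1 | h1 | h1 <;> rw [Nat.pow_mod, h1]

theorem oddP_mod {v : ℤ × ℤ} (h0 : nm v ≠ 0) (h2 : 2 ∉ oddP (nm v)) :
    ∀ q ∈ oddP (nm v), q % 4 = 1 := fun q hq => by
  obtain ⟨w, -, -, -, -, -, h8⟩ := data h0 h2
  exact (h8 q hq).2

theorem odd_notMem {n : ℕ} (h : n % 2 = 1) : 2 ∉ oddP n := by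
  intro h1
  have := even_of h1
  omega

theorem odd_lab {v : ℤ × ℤ} (h : nm v % 2 = 1) : Lab l8 0 (oddP (nm v)) ↔ nm v % 8 = 1 := by
  have h0 : nm v ≠ 0 := by omega
  rw [lab8 (oddP_mod h0 (odd_notMem h))]
  obtain ⟨h1, h2⟩ := decomp h0
  have h3 : gg (nm v) % 2 = 1 := by
    by_contra hc
    have h4 : gg (nm v) % 2 = 0 := by omega
    obtain ⟨t, ht⟩ : 2 ∣ gg (nm v) := Nat.dvd_of_mod_eq_zero h4
    rw [ht] at h2
    have h5 : nm v = 2 * (2 * t ^ 2 * ∏ p ∈ oddP (nm v), p) := by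
      calc nm v = (2 * t) ^ 2 * ∏ p ∈ oddP (nm v), p := h2
        _ = _ := by ring
    omega
  have h4 := sq8 h3
  have h5 : nm v % 8 = (∏ p ∈ oddP (nm v), p) % 8 := by
    conv_lhs => rw [h2]
    rw [Nat.mul_mod, h4, one_mul, Nat.mod_mod]
  rw [h5]

/-- the pairs of odd norm -/
noncomputable def OX (X : ℕ) (D : Finset ℕ → Prop) : Finset (ℤ × ℤ) :=
  (Bx X).filter fun v => nm v % 8 = 1 ∧ D (oddP (nm v))

/-- the pairs of the class -/
noncomputable def LX (X : ℕ) (D : Finset ℕ → Prop) : Finset (ℤ × ℤ) :=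
  (CX X).filter fun v => Lab l8 0 (oddP (nm v)) ∧ D (oddP (nm v))

theorem mu_two_inj : Function.Injective (mu 2) := mu_inj two_ne_zero

theorem four_dvd {v : ℤ × ℤ} (h : nm v % 4 = 0) : ∃ w, mu 2 w = v := by
  have h2 : v.1.natAbs % 2 = 0 ∧ v.2.natAbs % 2 = 0 := by
    unfold nm at h
    have k1 : v.1.natAbs % 4 = 0 ∨ v.1.natAbs % 4 = 1 ∨ v.1.natAbs % 4 = 2 ∨
      v.1.natAbs % 4 = 3 := by omega
    have k2 : v.2.natAbs % 4 = 0 ∨ v.2.natAbs % 4 = 1 ∨ v.2.natAbs % 4 = 2 ∨
      v.2.natAbs % 4 = 3 := by omega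
    rw [Nat.add_mod, Nat.pow_mod, Nat.pow_mod v.2.natAbs] at h
    rcases k1 with k1 | k1 | k1 | k1 <;> rcases k2 with k2 | k2 | k2 | k2 <;>
      rw [k1, k2] at h <;> norm_num at h <;> omega
  refine ⟨(v.1 / 2, v.2 / 2), ?_⟩
  unfold mu
  refine Prod.ext ?_ ?_ <;> simp only <;> push_cast <;> omega

theorem even_four {n : ℕ} (h0 : n ≠ 0) (h2 : 2 ∉ oddP n) (h : n % 2 = 0) : n % 4 = 0 := by
  rw [mem_oddP, Nat.odd_iff] at h2
  have h3 : 1 ≤ n.factorization 2 :=
    (Nat.prime_two.dvd_iff_one_le_factorization h0).1 (Nat.dvd_of_mod_eq_zero h)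
  have h4 : 2 ≤ n.factorization 2 := by omega
  have h5 := (Nat.prime_two.pow_dvd_iff_le_factorization h0).2 h4
  exact Nat.mod_eq_zero_of_dvd h5

theorem split (X : ℕ) (D : Finset ℕ → Prop) :
    (LX X D).card = (OX X D).card + (LX (X / 4) D).card := by
  have e1 : (LX X D).card = ((LX X D).filter fun v => nm v % 2 = 1).card +
      ((LX X D).filter fun v => ¬ nm v % 2 = 1).card := (card_filter_add_card_filter_not _).symm
  have e2 : (LX X D).filter (fun v => nm v % 2 = 1) = OX X D := by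
    ext v
    unfold LX OX CX
    rw [mem_filter, mem_filter, mem_filter, mem_filter]
    constructor
    · rintro ⟨⟨⟨h1, -⟩, h2, h3⟩, h4⟩
      exact ⟨h1, (odd_lab h4).1 h2, h3⟩
    · rintro ⟨h1, h2, h3⟩
      have h4 : nm v % 2 = 1 := by omega
      exact ⟨⟨⟨h1, by omega, odd_notMem h4⟩, (odd_lab h4).2 h2, h3⟩, h4⟩
  have e3 : ((LX X D).filter fun v => ¬ nm v % 2 = 1).card = (LX (X / 4) D).card := by
    symm
    refine card_bij (fun v _ => mu 2 v) ?_ (fun v _ w _ h => mu_two_inj h) ?_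
    · intro v hv
      unfold LX CX at hv ⊢
      rw [mem_filter, mem_filter, mem_Bx] at hv
      obtain ⟨⟨h1, h2, h3⟩, h4⟩ := hv
      rw [mem_filter, mem_filter, mem_filter, mem_Bx, nm_mu, oddP_sq two_ne_zero h2]
      exact ⟨⟨⟨by omega, by positivity, h3⟩, h4⟩, by omega⟩
    · intro v hv
      unfold LX CX at hv ⊢
      rw [mem_filter, mem_filter, mem_filter, mem_Bx] at hv
      obtain ⟨⟨⟨h1, h2, h3⟩, h4⟩, h5⟩ := hv
      obtain ⟨w, rfl⟩ := four_dvd (even_four h2 h3 (by omega))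
      rw [nm_mu] at h1 h2 h3 h4
      have h6 : nm w ≠ 0 := by
        intro h6
        rw [h6] at h2
        exact h2 rfl
      rw [oddP_sq two_ne_zero h6] at h3 h4
      refine ⟨w, ?_, rfl⟩
      rw [mem_filter, mem_filter, mem_Bx]
      exact ⟨⟨by omega, h6, h3⟩, h4⟩
  rw [e1, e2, e3]

theorem div4 : Tendsto (fun X : ℕ => X / 4) atTop atTop :=
  tendsto_atTop.2 fun b => by
    filter_upwards [eventually_ge_atTop (4 * b)] with X hX
    omega

/-- from the class to the odd norms -/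
theorem to_odd {D E : Finset ℕ → Prop} {p : ℝ}
    (h : Tendsto (fun X : ℕ => (((LX X D).card : ℝ) - p * ((LX X E).card : ℝ)) / X) atTop (𝓝 0)) :
    Tendsto (fun X : ℕ => (((OX X D).card : ℝ) - p * ((OX X E).card : ℝ)) / X) atTop (𝓝 0) := by
  have h1 := h.comp div4
  have h2 : Tendsto (fun X : ℕ => (((LX (X / 4) D).card : ℝ) - p * ((LX (X / 4) E).card : ℝ)) / X)
      atTop (𝓝 0) := by
    refine squeeze_zero_norm' ?_ (h1.norm.trans (by rw [norm_zero]))
    filter_upwards [eventually_ge_atTop 4] with X hX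
    simp only [Function.comp]
    rw [norm_div, norm_div]
    refine div_le_div_of_nonneg_left (norm_nonneg _) ?_ ?_
    · rw [norm_pos_iff]
      have : 0 < X / 4 := by omega
      exact_mod_cast this.ne'
    · rw [Real.norm_natCast, Real.norm_natCast]
      exact_mod_cast Nat.div_le_self X 4
  have h3 := h.sub h2
  rw [sub_zero] at h3
  refine h3.congr fun X => ?_
  have e1 : ((LX X D).card : ℝ) = (OX X D).card + (LX (X / 4) D).card := by
    exact_mod_cast split X D
  have e2 : ((LX X E).card : ℝ) = (OX X E).card + (LX (X / 4) E).card := by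
    exact_mod_cast split X E
  rw [e1, e2]
  ring

end Run7.h359.LB
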