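import Pool.Agent.Run7.h359.La5

/-!
# A quarter of the pairs of integers have norm `1 mod 8`
-/

set_option autoImplicit false

open scoped Classical

namespace Run7.h359.LB

open Finset Filter Topology
open Run7.h238.Pairs Run7.h238.Half Run7.h238.Disc

/-- the pairs of norm `a` modulo `8` -/
noncomputable def Bm (a X : ℕ) : Finset (ℤ × ℤ) := (Bx X).filter fun v => nm v % 8 = a

theorem mem_Bm {a X : ℕ} {v : ℤ × ℤ} : v ∈ Bm a X ↔ nm v ≤ X ∧ nm v % 8 = a := by
  unfold Bm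
  rw [mem_filter, mem_Bx]

theorem Bm_mono {a X Y : ℕ} (h : X ≤ Y) : (Bm a X).card ≤ (Bm a Y).card := by
  refine card_le_card fun v hv => ?_
  rw [mem_Bm] at hv ⊢
  exact ⟨hv.1.trans h, hv.2⟩

theorem sqm (x : ℤ) : (x % 2 = 1 ∧ x ^ 2 % 8 = 1) ∨ (x % 4 = 0 ∧ x ^ 2 % 8 = 0) ∨
    (x % 4 = 2 ∧ x ^ 2 % 8 = 4) := by
  have h : x % 8 = 0 ∨ x % 8 = 1 ∨ x % 8 = 2 ∨ x % 8 = 3 ∨ x % 8 = 4 ∨ x % 8 = 5 ∨ x % 8 = 6 ∨
    x % 8 = 7 := by omega
  rcases h with h | h | h | h | h | h | h | h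
  · right; left; exact ⟨by omega, by rw [pow_two, Int.mul_emod, h]; rfl⟩
  · left; exact ⟨by omega, by rw [pow_two, Int.mul_emod, h]; rfl⟩
  · right; right; exact ⟨by omega, by rw [pow_two, Int.mul_emod, h]; rfl⟩
  · left; exact ⟨by omega, by rw [pow_two, Int.mul_emod, h]; rfl⟩
  · right; left; exact ⟨by omega, by rw [pow_two, Int.mul_emod, h]; rfl⟩
  · left; exact ⟨by omega, by rw [pow_two, Int.mul_emod, h]; rfl⟩
  · right; right; exact ⟨by omega, by rw [pow_two, Int.mul_emod, h]; rfl⟩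
  · left; exact ⟨by omega, by rw [pow_two, Int.mul_emod, h]; rfl⟩

/-- the shift of the even coordinate -/
def sh (v : ℤ × ℤ) : ℤ × ℤ := if v.1 % 2 = 1 then (v.1, v.2 + 2) else (v.1 + 2, v.2)

theorem sh_inj : Function.Injective sh := by
  intro v w h
  unfold sh at h
  split_ifs at h with h1 h2 h2
  · rw [Prod.mk.injEq] at h
    exact Prod.ext h.1 (by omega)
  · rw [Prod.mk.injEq] at h
    omega
  · rw [Prod.mk.injEq] at h
    omega
  · rw [Prod.mk.injEq] at h
    exact Prod.ext (by omega) h.2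

theorem nm_sh (v : ℤ × ℤ) : ((nm (sh v) : ℕ) : ℤ) = nm v + 4 * (if v.1 % 2 = 1 then v.2 else v.1) + 4 := by
  rw [nm_int, nm_int]
  unfold sh
  split_ifs <;> simp only <;> ring

theorem sh_mod {v : ℤ × ℤ} (h : nm v % 2 = 1) : nm (sh v) % 8 = (nm v + 4) % 8 := by
  have h1 := nm_sh v
  have h2 := nm_int v
  have h3 : (4 * (if v.1 % 2 = 1 then v.2 else v.1)) % 8 = 0 := by
    have h4 : ((nm v : ℕ) : ℤ) % 2 = 1 := by omega
    rcases sqm v.1 with ⟨a1, a2⟩ | ⟨a1, a2⟩ | ⟨a1, a2⟩ <;>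
      rcases sqm v.2 with ⟨b1, b2⟩ | ⟨b1, b2⟩ | ⟨b1, b2⟩ <;> split_ifs <;> omega
  omega

theorem sh_le {v : ℤ × ℤ} {X : ℕ} (h : nm v ≤ X) : nm (sh v) ≤ X + 4 * Nat.sqrt X + 4 := by
  have h1 := nm_sh v
  have h2 : v.1.natAbs ≤ Nat.sqrt X := by
    rw [Nat.le_sqrt']
    unfold nm at h
    omega
  have h3 : v.2.natAbs ≤ Nat.sqrt X := by
    rw [Nat.le_sqrt']
    unfold nm at h
    omega
  split_ifs at h1 <;> omega

theorem cmp {a b : ℕ} (ha : a % 2 = 1) (hb : b = (a + 4) % 8) (X : ℕ) :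
    (Bm a X).card ≤ (Bm b (X + 4 * Nat.sqrt X + 4)).card := by
  refine card_le_card_of_injOn sh (fun v hv => ?_) sh_inj.injOn
  rw [mem_coe, mem_Bm] at hv ⊢
  have h1 : nm v % 2 = 1 := by omega
  exact ⟨sh_le hv.1, by rw [sh_mod h1]; omega⟩

theorem odd_cases {v : ℤ × ℤ} (h : nm v % 2 = 1) : nm v % 8 = 1 ∨ nm v % 8 = 5 := by
  have h2 := nm_int v
  rcases sqm v.1 with ⟨a1, a2⟩ | ⟨a1, a2⟩ | ⟨a1, a2⟩ <;>
      rcases sqm v.2 with ⟨b1, b2⟩ | ⟨b1, b2⟩ | ⟨b1, b2⟩ <;> omega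

theorem odd_card (X : ℕ) :
    (CX X).card = (Bm 1 X).card + (Bm 5 X).card + (CX (X / 4)).card := by
  have e1 : (CX X).card = ((CX X).filter fun v => nm v % 2 = 1).card +
      ((CX X).filter fun v => ¬ nm v % 2 = 1).card := (card_filter_add_card_filter_not _).symm
  have e2 : ((CX X).filter fun v => nm v % 2 = 1).card = (Bm 1 X).card + (Bm 5 X).card := by
    have h1 : (CX X).filter (fun v => nm v % 2 = 1) = Bm 1 X ∪ Bm 5 X := by
      ext v
      unfold CX
      rw [mem_filter, mem_filter, mem_union, mem_Bm, mem_Bm, mem_Bx]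
      constructor
      · rintro ⟨⟨h1, -⟩, h2⟩
        rcases odd_cases h2 with h3 | h3
        · exact Or.inl ⟨h1, h3⟩
        · exact Or.inr ⟨h1, h3⟩
      · rintro (⟨h1, h2⟩ | ⟨h1, h2⟩)
        · have h4 : nm v % 2 = 1 := by omega
          exact ⟨⟨h1, by omega, odd_notMem h4⟩, h4⟩
        · have h4 : nm v % 2 = 1 := by omega
          exact ⟨⟨h1, by omega, odd_notMem h4⟩, h4⟩
    rw [h1, card_union_of_disjoint]
    rw [disjoint_left]
    intro v h1 h2
    rw [mem_Bm] at h1 h2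
    omega
  have e3 : ((CX X).filter fun v => ¬ nm v % 2 = 1).card = (CX (X / 4)).card := by
    symm
    refine card_bij (fun v _ => mu 2 v) ?_ (fun v _ w _ h => mu_two_inj h) ?_
    · intro v hv
      unfold CX at hv ⊢
      rw [mem_filter, mem_Bx] at hv
      obtain ⟨h1, h2, h3⟩ := hv
      rw [mem_filter, mem_filter, mem_Bx, nm_mu, oddP_sq two_ne_zero h2]
      exact ⟨⟨by omega, by positivity, h3⟩, by omega⟩
    · intro v hv
      unfold CX at hv ⊢
      rw [mem_filter, mem_filter, mem_Bx] at hv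
      obtain ⟨⟨h1, h2, h3⟩, h5⟩ := hv
      obtain ⟨w, rfl⟩ := four_dvd (even_four h2 h3 (by omega))
      rw [nm_mu] at h1 h2 h3
      have h6 : nm w ≠ 0 := by
        intro h6
        rw [h6] at h2
        exact h2 rfl
      rw [oddP_sq two_ne_zero h6] at h3
      refine ⟨w, ?_, rfl⟩
      rw [mem_filter, mem_Bx]
      exact ⟨by omega, h6, h3⟩
  rw [e1, e2, e3]

theorem quarter : Tendsto (fun X : ℕ => ((X / 4 : ℕ) : ℝ) / X) atTop (𝓝 (1 / 4)) := by
  have h1 : Tendsto (fun X : ℕ => 1 / 4 - (((X % 4 : ℕ) : ℝ) / 4) / X) atTop (𝓝 (1 / 4 - 0)) := by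
    refine tendsto_const_nhds.sub ?_
    refine squeeze_zero (g := fun X : ℕ => 1 / (X : ℝ)) (fun X => by positivity) (fun X => ?_)
      tendsto_one_div_atTop_nhds_zero_nat
    refine div_le_div_of_nonneg_right ?_ (Nat.cast_nonneg _)
    have h2 : ((X % 4 : ℕ) : ℝ) ≤ 4 := by
      have : X % 4 ≤ 4 := by omega
      exact_mod_cast this
    linarith
  rw [sub_zero] at h1
  refine h1.congr' ?_
  filter_upwards [eventually_ge_atTop 1] with X hX
  have hX0 : (0 : ℝ) < X := by exact_mod_cast hX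
  have h2 : (X : ℝ) = 4 * ((X / 4 : ℕ) : ℝ) + ((X % 4 : ℕ) : ℝ) := by
    exact_mod_cast (Nat.div_add_mod X 4).symm
  have h3 : ((X / 4 : ℕ) : ℝ) = (X - ((X % 4 : ℕ) : ℝ)) / 4 := by linarith
  rw [h3]
  field_simp

/-- the pairs of odd norm -/
noncomputable def od (X : ℕ) : ℝ := ((Bm 1 X).card : ℝ) + (Bm 5 X).card

theorem od_tendsto : Tendsto (fun X : ℕ => od X / X) atTop (𝓝 (ar / 2)) := by
  have h1 := CX_tendsto
  have h2 := (h1.comp div4).mul quarter
  have h3 := h1.sub h2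
  have e : 2 / 3 * ar - 2 / 3 * ar * (1 / 4) = ar / 2 := by ring
  rw [e] at h3
  refine h3.congr' ?_
  filter_upwards [eventually_ge_atTop 4] with X hX
  have hX0 : (0 : ℝ) < X := by
    have : 0 < X := by omega
    exact_mod_cast this
  have hX4 : (0 : ℝ) < ((X / 4 : ℕ) : ℝ) := by
    have : 0 < X / 4 := by omega
    exact_mod_cast this
  have h4 : ((CX X).card : ℝ) = od X + (CX (X / 4)).card := by
    unfold od
    exact_mod_cast odd_card X
  simp only [Function.comp]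
  rw [h4]
  field_simp
  ring

/-- the shifted bound -/
def yy (X : ℕ) : ℕ := X + 4 * Nat.sqrt X + 4

theorem yy_tendsto : Tendsto yy atTop atTop :=
  tendsto_atTop.2 fun b => by
    filter_upwards [eventually_ge_atTop b] with X hX
    unfold yy
    omega

theorem yy_div : Tendsto (fun X : ℕ => ((yy X : ℕ) : ℝ) / X) atTop (𝓝 1) := by
  have hs : Tendsto (fun X : ℕ => (Nat.sqrt X : ℝ) / X) atTop (𝓝 0) := by
    have h4 : Tendsto (fun X : ℕ => Real.sqrt X) atTop atTop :=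
      Real.tendsto_sqrt_atTop.comp tendsto_natCast_atTop_atTop
    refine squeeze_zero' (Eventually.of_forall fun X => by positivity) ?_ h4.inv_tendsto_atTop
    filter_upwards [eventually_ge_atTop 1] with X hX
    have hX0 : (0 : ℝ) < X := by exact_mod_cast hX
    have h5 : 0 < Real.sqrt X := Real.sqrt_pos.2 hX0
    simp only [Pi.inv_apply]
    rw [div_le_iff₀ hX0, inv_mul_eq_div, le_div_iff₀ h5]
    have h6 : (Nat.sqrt X : ℝ) ≤ Real.sqrt X := Real.nat_sqrt_le_real_sqrt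
    calc (Nat.sqrt X : ℝ) * Real.sqrt X ≤ Real.sqrt X * Real.sqrt X :=
          mul_le_mul_of_nonneg_right h6 h5.le
      _ = X := Real.mul_self_sqrt hX0.le
  have h1 := (hs.const_mul 4).add (tendsto_one_div_atTop_nhds_zero_nat (𝕜 := ℝ) |>.const_mul 4)
  have h2 := h1.const_add 1
  simp only [mul_zero, add_zero] at h2
  refine h2.congr' ?_
  filter_upwards [eventually_ge_atTop 1] with X hX
  have hX0 : (0 : ℝ) < X := by exact_mod_cast hX
  unfold yy
  push_cast
  field_simp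
  ring

theorem od_yy : Tendsto (fun X : ℕ => od (yy X) / X) atTop (𝓝 (ar / 2)) := by
  have h := (od_tendsto.comp yy_tendsto).mul yy_div
  rw [mul_one] at h
  refine h.congr' ?_
  filter_upwards [eventually_ge_atTop 1] with X hX
  have hX0 : (0 : ℝ) < X := by exact_mod_cast hX
  have hy : (0 : ℝ) < ((yy X : ℕ) : ℝ) := by
    have : 0 < yy X := by unfold yy; omega
    exact_mod_cast this
  simp only [Function.comp]
  field_simp

/-- **the number of the pairs of norm `1 mod 8`** -/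
theorem one_tendsto : Tendsto (fun X : ℕ => ((Bm 1 X).card : ℝ) / X) atTop (𝓝 (ar / 4)) := by
  have hlo : Tendsto (fun X : ℕ => od X / X - od (yy X) / X / 2) atTop (𝓝 (ar / 4)) := by
    have h := od_tendsto.sub (od_yy.div_const 2)
    have e : ar / 2 - ar / 2 / 2 = ar / 4 := by ring
    rwa [e] at h
  have hup : Tendsto (fun X : ℕ => od (yy X) / X / 2) atTop (𝓝 (ar / 4)) := by
    have h := od_yy.div_const 2
    have e : ar / 2 / 2 = ar / 4 := by ring
    rwa [e] at h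
  have key : ∀ X : ℕ, 2 * ((Bm 1 X).card : ℝ) ≤ od (yy X) ∧ 2 * ((Bm 5 X).card : ℝ) ≤ od (yy X) := by
    intro X
    have h1 : (Bm 1 X).card ≤ (Bm 5 (yy X)).card := cmp rfl rfl X
    have h2 : (Bm 5 X).card ≤ (Bm 1 (yy X)).card := cmp rfl rfl X
    have h0 : X ≤ yy X := by unfold yy; omega
    have h3 : (Bm 1 X).card ≤ (Bm 1 (yy X)).card := Bm_mono h0
    have h4 : (Bm 5 X).card ≤ (Bm 5 (yy X)).card := Bm_mono h0
    unfold od
    constructor
    · have : 2 * (Bm 1 X).card ≤ (Bm 1 (yy X)).card + (Bm 5 (yy X)).card := by omega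
      exact_mod_cast this
    · have : 2 * (Bm 5 X).card ≤ (Bm 1 (yy X)).card + (Bm 5 (yy X)).card := by omega
      exact_mod_cast this
  refine tendsto_of_tendsto_of_tendsto_of_le_of_le' hlo hup ?_ ?_
  · filter_upwards [eventually_ge_atTop 1] with X hX
    have hX0 : (0 : ℝ) < X := by exact_mod_cast hX
    have h1 := (key X).2
    have h2 : od X = ((Bm 1 X).card : ℝ) + (Bm 5 X).card := rfl
    rw [div_div, mul_comm (X : ℝ) 2, ← div_div, div_sub_div_same]
    refine div_le_div_of_nonneg_right ?_ hX0.le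
    linarith
  · filter_upwards [eventually_ge_atTop 1] with X hX
    have hX0 : (0 : ℝ) < X := by exact_mod_cast hX
    have h1 := (key X).1
    rw [div_div, mul_comm (X : ℝ) 2, ← div_div]
    refine div_le_div_of_nonneg_right ?_ hX0.le
    linarith

end Run7.h359.LB
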