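import Pool.Agent.Run7.h359.La6
import Pool.Agent.Run7.h428.WM

/-!
# The law of the masks for the lattice points of norm `1 mod 8`

This is `Run7/h428/WI` (helper428) for the lattice points of norm `1 mod 8`.
-/

set_option autoImplicit false

open scoped Classical symmDiff

namespace Run7.h359.LB

open Finset Filter Topology
open Run7.h428.MixG Run7.h428.UniG Run7.h428.WP Run7.h428.WI Run7.h428.WM
open Run7.h428.Uni (W mem_W W_empty W_congr W_insert pr)
open Run7.h238.Pairs Run7.h238.Disc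
open Run7.h428.Inst (am am_pf am_symm adm_of_mask sq_unique Iy faM c2_pos)
open Pool.Agent.R413.SQ
open Pool.Agent.Y703.CQ (c2)
open Pool.Agent.Y698.SG (n4)
open Pool.Agent.Results.MP_4a9ea6_nt.TwoPartTwistsX49 (Adm)

theorem ar4_pos : 0 < ar / 4 := by
  have := Run7.h238.Disc.ar_pos
  positivity

theorem Bm_cls {X : ℕ} {v : ℤ × ℤ} (h : v ∈ Bm 1 X) : v ∈ Cls := by
  rw [mem_Bm] at h
  exact ⟨by omega, odd_notMem (by omega)⟩

theorem inf_Bm : Tendsto (fun X => ((Bm 1 X).card : ℝ)) atTop atTop := by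
  have har := Run7.h238.Disc.ar_pos
  have h1 := one_tendsto.eventually (lt_mem_nhds (show ar / 8 < ar / 4 by linarith))
  refine tendsto_atTop_mono' atTop ?_
    (Tendsto.const_mul_atTop (show 0 < ar / 8 by positivity) tendsto_natCast_atTop_atTop)
  filter_upwards [h1, eventually_ge_atTop 1] with X hX h2
  have h3 : (0 : ℝ) < X := by exact_mod_cast h2
  exact ((lt_div_iff₀ h3).1 hX).le

/-- passage from `X` to the number of the points -/
theorem ratioB {u : ℕ → ℝ} {l : ℝ} (hu : Tendsto (fun X : ℕ => u X / X) atTop (𝓝 (l * (ar / 4)))) :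
    Tendsto (fun X : ℕ => u X / ((Bm 1 X).card : ℝ)) atTop (𝓝 l) := by
  have h := hu.div one_tendsto ar4_pos.ne'
  rw [mul_div_assoc, div_self ar4_pos.ne', mul_one] at h
  refine h.congr' ?_
  filter_upwards [eventually_ge_atTop 1] with X hX
  have hX0 : (X : ℝ) ≠ 0 := by
    have : (0 : ℝ) < X := by exact_mod_cast hX
    exact this.ne'
  simp only [Pi.div_apply]
  exact div_div_div_cancel_right₀ hX0 _ _

/-- **the law** -/
theorem isLawB : Law (Bm 1) U nm (Gd n4) am c2 := by
  refine ⟨inf_Bm, c2_pos.1, c2_pos.2, fun p hp => absurd hp (notMem_empty p), fun V V' => am_symm,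
    fun X D hD => am_U (Bm_cls hD), fun V => ?_, fun B => ?_, fun P Q hP hQ hPQ => ?_⟩
  · have h1 := fib0 V
    refine ratioB (u := fun X => cn (Bm 1 X) {D | U D = V}) (l := 0) ?_
    rw [zero_mul]
    refine squeeze_zero (fun X => div_nonneg (cn_nonneg _ _) (Nat.cast_nonneg _)) (fun X => ?_) h1
    refine div_le_div_of_nonneg_right ?_ (Nat.cast_nonneg _)
    unfold cn
    refine Nat.cast_le.2 (card_le_card fun v hv => ?_)
    simp only [mem_filter] at hv ⊢
    refine ⟨mem_CX'.2 ⟨(mem_Bm.1 hv.1).1, Bm_cls hv.1⟩, hv.2⟩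
  · refine (CX B).finite_toSet.subset ?_
    rintro z ⟨⟨X, hX⟩, hz⟩
    exact mem_CX'.2 ⟨hz, Bm_cls hX⟩
  · set P' : Finset Iy := P.subtype am with hP'
    set Q' : Finset Iy := Q.subtype am with hQ'
    have hd : Disjoint P' Q' := by
      rw [disjoint_left]
      intro z hz hz'
      rw [hP', mem_subtype] at hz
      rw [hQ', mem_subtype] at hz'
      exact disjoint_left.1 hPQ hz hz'
    have cP : P'.card = P.card := by
      rw [hP', card_subtype, filter_true_of_mem hP]
    have cQ : Q'.card = Q.card := by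
      rw [hQ', card_subtype, filter_true_of_mem hQ]
    have h := pl_law faM P' Q' hd l8 (0 : ZMod 2)
    rw [cP, cQ] at h
    have h2 := to_odd (D := fun S => (∀ i ∈ P', Gd n4 (symmDiff S i.1)) ∧
      ∀ i ∈ Q', ¬ Gd n4 (symmDiff S i.1)) (E := fun _ => True)
      (p := c2 ^ P.card * (1 - c2) ^ Q.card) (h.congr fun X => by
        congr 1
        unfold LX
        simp only [and_true])
    have h3 : Tendsto (fun X : ℕ => (c2 ^ P.card * (1 - c2) ^ Q.card) * (((OX X fun _ => True).card : ℝ)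
        / X)) atTop (𝓝 (c2 ^ P.card * (1 - c2) ^ Q.card * (ar / 4))) := by
      refine Tendsto.const_mul _ (one_tendsto.congr fun X => ?_)
      unfold OX Bm
      simp only [and_true]
    have h4 := h2.add h3
    rw [zero_add] at h4
    refine ratioB (h4.congr fun X => ?_)
    rw [mul_div_assoc', ← add_div, sub_add_cancel]
    congr 1
    unfold cn OX Bm
    rw [filter_filter]
    congr 2
    ext D
    simp only [mem_filter, Set.mem_ofPred_eq]
    refine and_congr_right fun _ => and_congr_right fun _ => ?_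
    constructor
    · rintro ⟨h1, h2⟩
      exact ⟨fun V hV => h1 ⟨V, hP V hV⟩ (mem_subtype.2 hV),
        fun V hV => h2 ⟨V, hQ V hV⟩ (mem_subtype.2 hV)⟩
    · rintro ⟨h1, h2⟩
      exact ⟨fun i hi => h1 _ (mem_subtype.1 hi), fun i hi => h2 _ (mem_subtype.1 hi)⟩

/-- the proportion of the norms `1 mod 8` -/
theorem one_dens : Tendsto (fun X : ℕ => ((Bm 1 X).card : ℝ) / ((Bx X).card : ℝ)) atTop
    (𝓝 (1 / 4)) := by
  have har := Run7.h238.Disc.ar_pos
  have h := one_tendsto.div card_tendsto har.ne'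
  have e : ar / 4 / ar = 1 / 4 := by field_simp
  rw [e] at h
  refine h.congr' ?_
  filter_upwards [eventually_ge_atTop 1] with X hX
  have hX0 : (X : ℝ) ≠ 0 := by
    have : (0 : ℝ) < X := by exact_mod_cast hX
    exact this.ne'
  simp only [Pi.div_apply]
  exact div_div_div_cancel_right₀ hX0 _ _

/-- from the norms `1 mod 8` to all the lattice points -/
theorem to_allB {u : ℕ → ℝ} {l : ℝ} (hu : Tendsto (fun X : ℕ => u X / ((Bm 1 X).card : ℝ)) atTop
    (𝓝 l)) : Tendsto (fun X : ℕ => u X / ((Bx X).card : ℝ)) atTop (𝓝 (1 / 4 * l)) := by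
  have h := hu.mul one_dens
  rw [mul_comm] at h
  refine h.congr' ?_
  filter_upwards [isLawB.ne] with X hX
  have hX0 : ((Bm 1 X).card : ℝ) ≠ 0 := by
    have : (0 : ℝ) < ((Bm 1 X).card : ℝ) := by exact_mod_cast hX.card_pos
    exact this.ne'
  exact div_mul_div_cancel₀ hX0

variable {Q : ℕ → Prop}

/-- **the joint law** -/
theorem jointB (hQ : ∀ D, Adm D → (Q D ↔ Gd n4 D.primeFactors)) {T V : Finset ℕ}
    (hT : ∀ t ∈ T, Adm t) (hV : V ⊆ T) :
    Tendsto (fun X : ℕ => cn (Bm 1 X) {v | ∀ t ∈ T, (SqP Q (t * nm v) ↔ t ∈ V)} /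
      ((Bm 1 X).card : ℝ)) atTop (𝓝 (c2 ^ V.card * (1 - c2) ^ (T.card - V.card))) := by
  have h := isLawB.ev (m := ∅) (fun p hp => absurd hp (notMem_empty p)) (amT hT)
    (Finset.image_subset_image hV)
  rw [pr_eq hT hV] at h
  refine h.congr fun X => ?_
  congr 1
  have key : ∀ v ∈ Bm 1 X, v ∈ Ev U (Gd n4) ∅ (T.image Nat.primeFactors)
      (V.image Nat.primeFactors) ↔ v ∈ {v | ∀ t ∈ T, (SqP Q (t * nm v) ↔ t ∈ V)} := by
    intro v hv
    have hc := Bm_cls hv
    unfold Ev
    rw [Set.mem_ofPred_eq, Set.mem_ofPred_eq, Finset.forall_mem_image]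
    refine forall₂_congr fun t ht => ?_
    obtain ⟨k, hk, h3⟩ := two hc (hT t ht)
    rw [sqP_iff hQ (am_symm (cls_am hc) (am_pf (hT t ht))) hk h3]
    have e : (∅ : Finset ℕ) ∆ t.primeFactors = t.primeFactors := by
      rw [← Finset.bot_eq_empty, bot_symmDiff]
    rw [e]
    refine iff_congr Iff.rfl ?_
    rw [Finset.mem_image]
    constructor
    · rintro ⟨t', ht', he⟩
      rw [← injT hT (hV ht') ht he]
      exact ht'
    · intro h4
      exact ⟨t, h4, rfl⟩
  unfold cn
  congr 2
  ext v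
  simp only [Finset.mem_filter]
  exact and_congr_right fun hv => key v hv

end Run7.h359.LB
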