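import Pool.Agent.Run7.h359.Rat

/-!
# The central values of all odd weights
-/

set_option autoImplicit false
set_option linter.unusedSectionVars false

namespace Run7.h359.EU

open Pool.Agent.Y698 Pool.Agent.Y698.SG
open NumberField IsDedekindDomain WeierstrassCurve Pool.Agent.W189.NF
open Pool.Agent.H921R2.TatePole
open W165.CE (pw pw_eq pw_luc)
open Run7.h359.BK (th ne_high)

/-- the Euler factor of weight `n + 1` -/
noncomputable def fac (W : WeierstrassCurve ℚ) (n : ℕ) (z : ℂ) (v : HeightOneSpectrum (𝓞 ℚ)) : ℂ :=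
  (1 - pw (aV W v : ℂ) (eV W v : ℂ) n * (nm v : ℂ) ^ (-z) +
    (eV W v : ℂ) ^ n * ((nm v : ℂ) ^ (-z)) ^ 2)⁻¹

lemma v_nonzero {Q P : Finset ℕ} {F : ℂ → ℂ}
    (h : ∀ (Γ : Type) [LinearOrderedCommGroupWithZero Γ] (v : Valuation ℂ Γ) (L : PeriodPair)
      (Ω : ℂ), LD L Ω → v al < 1 →
        v 2 * v ((starRingEnd ℂ) (F 1) / Ω) = v 2 ^ (Q.card + 2 * P.card)) : F 1 ≠ 0 := by
  intro h0
  obtain ⟨L, Ω, hL⟩ := exists_LD
  have hirrA : Irreducible aR := irr_of_prime_norm (by rw [nR_aR]; norm_num)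
  have hp : (Ideal.span {aR}).IsPrime := (maximal_sp hirrA).isPrime
  obtain ⟨B, hB⟩ := exists_vs (Ideal.span {aR})
  have h1 := hB aR (Ideal.mem_span_singleton_self _)
  rw [aR_coe] at h1
  have h2 := h _ B.valuation L Ω hL h1
  rw [h0, map_zero, zero_div, map_zero, mul_zero] at h2
  exact pow_ne_zero _ ((Valuation.ne_zero_iff B.valuation).2 two_ne_zero) h2.symm

/-- **The central values do not vanish.** -/
theorem all_odd {Q P : Finset ℕ} (hQ : ∀ q ∈ Q, Inq q) (hP : ∀ p ∈ P, Spl p)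
    (hdet : (mat Q P).det ≠ 0) (h2 : ∏ q ∈ Q ∪ P, qch q 2 = 1) {j : ℕ}
    (hj : ∏ q ∈ Q ∪ P, q = 1 + 4 * j) {k : ℕ} (hk : Odd k) :
    ∃ F : ℂ → ℂ, Differentiable ℂ F ∧
    (∀ z : ℂ, (k : ℝ) + 1 / 2 < z.re → HasProd (fac (EX ℚ (j : ℚ)) (2 * k - 1) z) (F z)) ∧
    F (k : ℂ) ≠ 0 := by
  have hS : ∀ q ∈ Q ∪ P, Gp q := by
    intro q hq
    rcases Finset.mem_union.1 hq with h | h
    · exact Gp.of_inq (hQ q h)
    · exact Gp.of_spl (hP q h)
  obtain ⟨m, rfl⟩ := hk
  rcases m with _ | m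
  · obtain ⟨F, g1, g2, g3⟩ := val_quad' inp hQ hP hdet
    refine ⟨F, g1, fun z hz => ?_, ?_⟩
    · have hz' : 3 / 2 < z.re := by
        push_cast at hz
        linarith
      have h3 := prod_rat (e := 0) hS hj (z := z) (A := F z) (by
        convert g2 z hz' using 2 with p
        have e1 : pw (bc p) (ec p) (2 * 0 + 1) = bc p := rfl
        rw [e1]
        congr 1
        ring)
      exact h3
    · have := v_nonzero g3
      simpa using this
  · obtain ⟨F, g1, g2, g3⟩ := ne_high inp hQ hP hdet h2 m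
    refine ⟨F, g1, fun z hz => ?_, ?_⟩
    · have h3 := prod_rat hS hj (prod_high (g2 z hz))
      have e1 : 2 * (2 * (m + 1) + 1) - 1 = 2 * (2 * (m + 1)) + 1 := by omega
      rw [e1]
      exact h3
    · exact g3

/-- the symbol at two -/
lemma qch_two {D : ℕ} (hsq : Squarefree D) (h8 : D % 8 = 1) : ∏ q ∈ D.primeFactors, qch q 2 = 1 := by
  have h1 : ∀ S : Finset ℕ, ∏ q ∈ S, qch q 2 = ((jacobiSym 2 (∏ q ∈ S, q) : ℤ) : ℂ) ∨
      ∃ q ∈ S, q = 0 := by
    intro S
    classical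
    induction S using Finset.induction_on with
    | empty => left; simp [jacobiSym.one_right]
    | insert q S hq ih =>
      rcases ih with ih | ⟨r, hr, h0⟩
      · by_cases hz : ∃ r ∈ insert q S, r = 0
        · exact Or.inr hz
        · left
          push Not at hz
          rw [Finset.prod_insert hq, Finset.prod_insert hq, ih]
          have hq0 : NeZero q := ⟨hz q (Finset.mem_insert_self _ _)⟩
          have hS0 : NeZero (∏ r ∈ S, r) :=
            ⟨Finset.prod_ne_zero_iff.2 fun r hr => hz r (Finset.mem_insert_of_mem hr)⟩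
          rw [jacobiSym.mul_right]
          unfold qch
          push_cast
          rfl
      · exact Or.inr ⟨r, Finset.mem_insert_of_mem hr, h0⟩
  rcases h1 D.primeFactors with h | ⟨q, hq, h0⟩
  · rw [h, Nat.prod_primeFactors_of_squarefree hsq]
    have hodd : Odd D := Nat.odd_iff.2 (by omega)
    rw [jacobiSym.at_two hodd]
    have h3 : ((D : ℕ) : ZMod 8) = 1 := by
      have := (ZMod.natCast_eq_natCast_iff' D 1 8).2 (by rw [h8])
      rw [this, Nat.cast_one]
    rw [h3, map_one]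
    norm_num
  · exfalso
    exact (Nat.prime_of_mem_primeFactors hq).ne_zero h0

end Run7.h359.EU
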