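import Pool.Agent.Run7.h359.Ker

/-!
# The Kronecker function along multiplication by `(1 + √-7) / 2`
-/

set_option autoImplicit false
set_option linter.unusedSectionVars false

open Filter
open scoped Topology PeriodPair

namespace Run7.h359.BK

open H667R3 Pool.Agent.TH936.CW Pool.Agent.TH936.CM
open Pool.Agent.Y698 (al bl RR aR bR tA tB al_ne bl_ne al_mul_bl al_sq tA_mem tB_mem two_tA two_tB
  tA_notMem tB_notMem tC_notMem roots_dist LD aR_coe bR_coe ker_al)

lemma conj_al' : (starRingEnd ℂ) al = bl := by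
  have h : (starRingEnd ℂ) Pool.Agent.Y698.s7 = -Pool.Agent.Y698.s7 := by
    unfold Pool.Agent.Y698.s7
    rw [map_mul, Complex.conj_I, Complex.conj_ofReal]
    ring
  have e : al = (1 + Pool.Agent.Y698.s7) / 2 := rfl
  unfold bl
  rw [e, map_div₀, map_add, map_one, h, Complex.conj_ofNat]
  ring

lemma conj_bl' : (starRingEnd ℂ) bl = al := by
  rw [← conj_al', Complex.conj_conj]

variable {L : PeriodPair} {Ω p q : ℂ}

lemma al_tA : al * tA Ω = Ω := by
  unfold tA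
  have := al_ne
  field_simp

lemma bl_tB : bl * tB Ω = Ω := by
  unfold tB
  have := bl_ne
  field_simp

lemma Om_mem (hL : IsLat L RR Ω) : Ω ∈ L.lattice := by
  have := tA_mem hL
  rwa [al_tA] at this

lemma al_mem (hL : IsLat L RR Ω) {l : ℂ} (hl : l ∈ L.lattice) : al * l ∈ L.lattice := by
  have := hL.mul aR l hl
  rwa [aR_coe] at this

lemma bl_mem (hL : IsLat L RR Ω) {l : ℂ} (hl : l ∈ L.lattice) : bl * l ∈ L.lattice := by
  have := hL.mul bR l hl
  rwa [bR_coe] at this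

lemma chl_al (hL : IsLat L RR Ω)
    (hpq : ∀ l ∈ L.lattice, eta L l = p * l + q * (starRingEnd ℂ) l) {l : ℂ}
    (hl : l ∈ L.lattice) : chl q (tB Ω) (al * l) = 1 := by
  rw [← leg (q := q) hpq hl (tB_mem hL)]
  unfold chl
  rw [map_mul, map_mul, conj_al', conj_bl']
  congr 1
  ring

lemma chl_Om (hL : IsLat L RR Ω)
    (hpq : ∀ l ∈ L.lattice, eta L l = p * l + q * (starRingEnd ℂ) l) :
    chl q (tB Ω) Ω = -1 := by
  have hs := tC_notMem hL
  set s := tA Ω + tB Ω with hsd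
  have e1 : -s + Ω = s := by
    rw [hsd, Pool.Agent.Y698.tC_eq]
    ring
  have h1 := kap_add hpq (Om_mem hL) (tB Ω) (-s)
  rw [e1, kap_neg hpq (tB_notMem hL) (two_tB hL)] at h1
  have h2 := kap_sq hpq (tB_notMem hL) (two_tB hL) hs
  have h3 : kap L p q (tB Ω) s ≠ 0 := by
    intro h0
    rw [h0] at h2
    apply (roots_dist hL).2.2
    rw [← hsd]
    linear_combination h2
  apply mul_right_cancel₀ h3
  linear_combination h1

lemma al_good (z₀ : ℂ) : ∀ᶠ z in 𝓝[≠] z₀, al * z ∉ L.lattice := by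
  have h2 : ((L.lattice : Set ℂ) \ {al * z₀})ᶜ ∈ 𝓝 (al * z₀) :=
    L.compl_lattice_sdiff_singleton_mem_nhds (al * z₀)
  have h3 : Tendsto (fun u : ℂ => al * u) (𝓝 z₀) (𝓝 (al * z₀)) :=
    (by fun_prop : Continuous fun u : ℂ => al * u).tendsto z₀
  filter_upwards [(h3.eventually h2).filter_mono nhdsWithin_le_nhds, self_mem_nhdsWithin]
    with u hu hu'
  intro h5
  apply hu
  refine ⟨h5, ?_⟩
  intro h6
  exact hu' (mul_left_cancel₀ al_ne h6)

lemma good_one (hL : IsLat L RR Ω) {z : ℂ} (h : al * z ∉ L.lattice) :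
    z ∉ L.lattice ∧ z + tA Ω ∉ L.lattice := by
  refine ⟨fun h1 => h (al_mem hL h1), fun h1 => h ?_⟩
  have h2 := al_mem hL h1
  rw [mul_add] at h2
  have h3 := sub_mem h2 (tA_mem hL)
  rwa [add_sub_cancel_right] at h3

lemma good_add (hL : IsLat L RR Ω) {z : ℂ} (h : al * z ∉ L.lattice) :
    al * (z + tA Ω) ∉ L.lattice := by
  intro h2
  rw [mul_add] at h2
  have h3 := sub_mem h2 (tA_mem hL)
  rw [add_sub_cancel_right] at h3
  exact h h3

lemma good_lat (hL : IsLat L RR Ω) {z l : ℂ} (h : al * z ∉ L.lattice) (hl : l ∈ L.lattice) :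
    al * (z + l) ∉ L.lattice := by
  intro h2
  rw [mul_add] at h2
  have h3 := sub_mem h2 (al_mem hL hl)
  rw [add_sub_cancel_right] at h3
  exact h h3

variable (L Ω p q)

/-- the bracket -/
noncomputable def Br (e : ℕ) (v z : ℂ) : ℂ := evz L p q v z (Aa L p (e + 1)) -
  evz L p q (v + (starRingEnd ℂ) (tA Ω)) (z + tA Ω) (Aa L p (e + 1))

/-- the difference -/
noncomputable def ff (e : ℕ) (v z : ℂ) : ℂ := Ae L p q (tB Ω) e (bl * v) (al * z) -
  bl ^ e / (al * (e + 1)) * Br L Ω p q e v z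

variable {L Ω p q}

lemma ff_add (hL : IsLat L RR Ω)
    (hpq : ∀ l ∈ L.lattice, eta L l = p * l + q * (starRingEnd ℂ) l) (e : ℕ) {l : ℂ}
    (hl : l ∈ L.lattice) {z : ℂ} (hz : al * z ∉ L.lattice) (v : ℂ) :
    ff L Ω p q e (v + (starRingEnd ℂ) l) (z + l) = ff L Ω p q e v z := by
  have h0 := good_one hL hz
  unfold ff Br
  rw [evz_add L p q hpq h0.1 hl]
  have e1 : v + (starRingEnd ℂ) l + (starRingEnd ℂ) (tA Ω) =
      v + (starRingEnd ℂ) (tA Ω) + (starRingEnd ℂ) l := by ring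
  have e2 : z + l + tA Ω = z + tA Ω + l := by ring
  rw [e1, e2, evz_add L p q hpq h0.2 hl]
  have h1 := Ae_add (t := tB Ω) hpq (al_mem hL hl) e (bl * v) (al * z)
  rw [chl_al hL hpq hl, one_mul, map_mul, conj_al', ← mul_add, ← mul_add] at h1
  rw [h1]

lemma ff_anti (hL : IsLat L RR Ω)
    (hpq : ∀ l ∈ L.lattice, eta L l = p * l + q * (starRingEnd ℂ) l) (e : ℕ)
    {z : ℂ} (hz : al * z ∉ L.lattice) (v : ℂ) :
    ff L Ω p q e (v + (starRingEnd ℂ) (tA Ω)) (z + tA Ω) = -ff L Ω p q e v z := by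
  have h0 := good_one hL hz
  unfold ff Br
  have e1 : v + (starRingEnd ℂ) (tA Ω) + (starRingEnd ℂ) (tA Ω) =
      v + (starRingEnd ℂ) (2 * tA Ω) := by
    rw [map_mul, Complex.conj_ofNat]
    ring
  have e2 : z + tA Ω + tA Ω = z + 2 * tA Ω := by ring
  rw [e1, e2, evz_add L p q hpq h0.1 (two_tA hL)]
  have h1 := Ae_add (t := tB Ω) hpq (Om_mem hL) e (bl * v) (al * z)
  rw [chl_Om hL hpq] at h1
  have e3 : bl * (v + (starRingEnd ℂ) (tA Ω)) = bl * v + (starRingEnd ℂ) Ω := by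
    rw [mul_add]
    congr 1
    rw [← conj_al', ← map_mul, al_tA]
  have e4 : al * (z + tA Ω) = al * z + Ω := by rw [mul_add, al_tA]
  rw [e3, e4, h1]
  ring

lemma tend_mul_sub (a z₀ : ℂ) (ha : a ≠ 0) :
    Tendsto (fun z : ℂ => a * (z - z₀)) (𝓝[≠] z₀) (𝓝[≠] 0) := by
  rw [tendsto_nhdsWithin_iff]
  constructor
  · have h : Continuous (fun z : ℂ => a * (z - z₀)) := by fun_prop
    have h2 := (h.tendsto z₀).mono_left (nhdsWithin_le_nhds (s := {z₀}ᶜ))
    rw [sub_self, mul_zero] at h2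
    exact h2
  · filter_upwards [self_mem_nhdsWithin] with z hz
    intro h
    have h1 : a * (z - z₀) = 0 := h
    exact hz (sub_eq_zero.1 ((mul_eq_zero.1 h1).resolve_left ha))

lemma ff_loc0 (hL : IsLat L RR Ω)
    (hpq : ∀ l ∈ L.lattice, eta L l = p * l + q * (starRingEnd ℂ) l) (e : ℕ) (v : ℂ) {z₀ : ℂ}
    (hz₀ : z₀ ∈ L.lattice) : ∃ A : ℂ → ℂ, AnalyticAt ℂ A z₀ ∧
      (∀ᶠ z in 𝓝[≠] z₀, ff L Ω p q e v z = A z) := by
  have htA := tA_notMem hL
  set v' := v - (starRingEnd ℂ) z₀ with hv'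
  obtain ⟨Ψ1, a1, h1⟩ := Ae_near (L := L) (p := p) (q := q) (tB_notMem hL) e (bl * v')
  obtain ⟨Ψ2, a2, h2⟩ := Aa_near L p q e v'
  have l1 := (tend_mul_sub al z₀ al_ne).eventually h1
  have l2 := (tend_mul_sub 1 z₀ one_ne_zero).eventually h2
  refine ⟨fun z => Ψ1 (al * (z - z₀)) - bl ^ e / (al * (e + 1)) * (Ψ2 (z - z₀) -
    evz L p q (v' + (starRingEnd ℂ) (tA Ω)) (z - z₀ + tA Ω) (Aa L p (e + 1))), ?_, ?_⟩
  · have b1 : AnalyticAt ℂ (fun z => Ψ1 (al * (z - z₀))) z₀ := by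
      refine AnalyticAt.fun_comp (f := fun z : ℂ => al * (z - z₀)) (g := Ψ1) ?_ (by fun_prop)
      rw [sub_self, mul_zero]
      exact a1
    have b2 : AnalyticAt ℂ (fun z => Ψ2 (z - z₀)) z₀ := by
      refine AnalyticAt.fun_comp (f := fun z : ℂ => z - z₀) (g := Ψ2) ?_ (by fun_prop)
      rw [sub_self]
      exact a2
    have b3 : AnalyticAt ℂ (fun z => evz L p q (v' + (starRingEnd ℂ) (tA Ω)) (z - z₀ + tA Ω)
        (Aa L p (e + 1))) z₀ := by
      refine AnalyticAt.fun_comp (f := fun z : ℂ => z - z₀ + tA Ω)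
        (g := fun z => evz L p q (v' + (starRingEnd ℂ) (tA Ω)) z (Aa L p (e + 1))) ?_
        (by fun_prop)
      rw [sub_self, zero_add]
      exact evz_an L p q _ htA _
    exact b1.sub (analyticAt_const.mul (b2.sub b3))
  · filter_upwards [l1, l2, al_good z₀, self_mem_nhdsWithin] with z g1 g2 g3 g4
    have hw : z - z₀ ≠ 0 := sub_ne_zero.2 g4
    have g5 : al * (z - z₀) ∉ L.lattice := by
      have := good_lat hL g3 (neg_mem hz₀)
      rwa [← sub_eq_add_neg] at this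
    have g6 := ff_add hL hpq e hz₀ g5 v'
    rw [hv', sub_add_cancel, sub_add_cancel, ← hv'] at g6
    rw [g6]
    unfold ff Br
    rw [one_mul] at g2
    rw [g1, g2]
    have hal := al_ne
    have he : (e : ℂ) + 1 ≠ 0 := by exact_mod_cast e.succ_ne_zero
    have e1 : (-(q * (bl * v'))) ^ e = bl ^ e * (-(q * v')) ^ e := by
      rw [← mul_pow]
      congr 1
      ring
    rw [e1]
    field_simp
    ring

lemma ff_loc (hL : IsLat L RR Ω)
    (hpq : ∀ l ∈ L.lattice, eta L l = p * l + q * (starRingEnd ℂ) l) (e : ℕ) (v z₀ : ℂ) :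
    ∃ A : ℂ → ℂ, AnalyticAt ℂ A z₀ ∧ (∀ᶠ z in 𝓝[≠] z₀, ff L Ω p q e v z = A z) ∧
      (z₀ ∈ {z : ℂ | al * z ∉ L.lattice} → ff L Ω p q e v z₀ = A z₀) := by
  by_cases hz : al * z₀ ∈ L.lattice
  · rcases ker_al hL hz with h | h
    · obtain ⟨A, a, b⟩ := ff_loc0 hL hpq e v h
      exact ⟨A, a, b, fun h2 => absurd hz h2⟩
    · have h' : z₀ + tA Ω ∈ L.lattice := by
        have := add_mem h (two_tA hL)
        convert this using 1
        ring
      obtain ⟨A, a, b⟩ := ff_loc0 hL hpq e (v + (starRingEnd ℂ) (tA Ω)) h'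
      refine ⟨fun z => -A (z + tA Ω), ?_, ?_, fun h2 => absurd hz h2⟩
      · refine AnalyticAt.neg ?_
        exact AnalyticAt.fun_comp (f := fun z : ℂ => z + tA Ω) (g := A) a (by fun_prop)
      · filter_upwards [(tend_sub z₀ (tA Ω)).eventually b, al_good z₀] with z g1 g2
        rw [← g1, ff_anti hL hpq e g2 v, neg_neg]
  · refine ⟨fun z => ff L Ω p q e v z, ?_, Eventually.of_forall fun z => rfl, fun _ => rfl⟩
    obtain ⟨h0, h1⟩ := good_one hL hz
    unfold ff Br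
    have b1 : AnalyticAt ℂ (fun z => Ae L p q (tB Ω) e (bl * v) (al * z)) z₀ :=
      AnalyticAt.fun_comp (f := fun z : ℂ => al * z)
        (g := fun z => Ae L p q (tB Ω) e (bl * v) z)
        (Ae_an (tB_notMem hL) e (bl * v) hz) (by fun_prop)
    have b2 : AnalyticAt ℂ (fun z => evz L p q (v + (starRingEnd ℂ) (tA Ω)) (z + tA Ω)
        (Aa L p (e + 1))) z₀ :=
      AnalyticAt.fun_comp (f := fun z : ℂ => z + tA Ω)
        (g := fun z => evz L p q (v + (starRingEnd ℂ) (tA Ω)) z (Aa L p (e + 1)))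
        (evz_an L p q _ h1 _) (by fun_prop)
    exact b1.sub (analyticAt_const.mul ((evz_an L p q v h0 _).sub b2))

lemma Bd.cmp {N : ℕ} {F : ℂ → ℂ} (hF : Bd N F) (a : ℂ) : Bd N (fun v => F (a * v)) := by
  obtain ⟨Q, hQ, hF⟩ := hF
  refine ⟨Q.comp (Polynomial.C a * Polynomial.X), ?_, fun v => ?_⟩
  · refine (Polynomial.natDegree_comp_le).trans ?_
    have h1 : (Polynomial.C a * Polynomial.X : Polynomial ℂ).natDegree ≤ 1 :=
      (Polynomial.natDegree_C_mul_le _ _).trans Polynomial.natDegree_X_le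
    calc Q.natDegree * (Polynomial.C a * Polynomial.X : Polynomial ℂ).natDegree
        ≤ N * 1 := Nat.mul_le_mul hQ h1
      _ = N := mul_one N
  · beta_reduce
    rw [Polynomial.eval_comp, Polynomial.eval_mul, Polynomial.eval_C, Polynomial.eval_X, hF]

lemma ff_bd (hL : IsLat L RR Ω) (e : ℕ) : ∃ N, ∀ z, Bd N (fun v => ff L Ω p q e v z) := by
  obtain ⟨N, hN⟩ := Bd.evz L p q (Aa L p (e + 1))
  refine ⟨max e N, fun z => ?_⟩
  have h1 : Bd e (fun v => Ae L p q (tB Ω) e (bl * v) (al * z)) :=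
    Bd.cmp (Ae_bd (p := p) (q := q) (tB_notMem hL) e (al * z)) bl
  have h2 := (hN (z + tA Ω)).shift ((starRingEnd ℂ) (tA Ω))
  have m1 := le_max_left e N
  have m2 := le_max_right e N
  exact (h1.mono m1).sub ((((hN z).mono m2).sub (h2.mono m2)).cmul _)

/-- **The identity.** -/
theorem lid (hL : IsLat L RR Ω)
    (hpq : ∀ l ∈ L.lattice, eta L l = p * l + q * (starRingEnd ℂ) l) (e : ℕ) (v : ℂ) {z : ℂ}
    (hz : al * z ∉ L.lattice) : Ae L p q (tB Ω) e (bl * v) (al * z) =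
      bl ^ e / (al * (e + 1)) * Br L Ω p q e v z := by
  obtain ⟨N, hN⟩ := ff_bd (p := p) (q := q) hL e
  obtain ⟨C, hC⟩ := liouv L (N := N) (fun v z => ff L Ω p q e v z)
    {z : ℂ | al * z ∉ L.lattice} (fun v z₀ => ff_loc hL hpq e v z₀) (al_good)
    (fun z _ => hN z) (fun l hl z hz v => ff_add hL hpq e hl hz v)
  have h1 := hC v z hz
  have h2 := hC (v + (starRingEnd ℂ) (tA Ω)) (z + tA Ω) (good_add hL hz)
  have h3 := ff_anti hL hpq e hz v
  have h4 : ff L Ω p q e v z = 0 := by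
    have h5 : C = -C := by
      have h7 : ff L Ω p q e (v + (starRingEnd ℂ) (tA Ω)) (z + tA Ω) = C := h2
      have h8 : ff L Ω p q e v z = C := h1
      rw [h7, h8] at h3
      exact h3
    have h6 : C = 0 := by linear_combination (1 / 2 : ℂ) * h5
    rw [h1, h6]
  unfold ff at h4
  linear_combination h4

end Run7.h359.BK
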