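import Pool.Agent.Run7.h359.Sgm

/-!
# Relation with the sums of Eisenstein series
-/

set_option autoImplicit false
set_option linter.unusedSectionVars false

open Filter
open scoped Topology PeriodPair

namespace Run7.h359.BK

open H667R3 Pool.Agent.TH936.CW Pool.Agent.TH936.CM
open Pool.Agent.W192.HK (sp)
open Pool.Agent.TH936.PU (coe_ne tsum_prtA sum_rep mk_eq out_mk bij_mul bij_crt div_mem_iff
  v_add_le v_sub_le v_mul_le)
open Pool.Agent.Y698 (al bl RR aR bR tA tB al_ne bl_ne al_mul_bl al_sq tA_mem tB_mem two_tA two_tB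
  tA_notMem tB_notMem tC_notMem roots_dist LD aR_coe bR_coe ker_al ker_bl isLat_neg_mem al_im_pos
  Tb v_two v_bl v_two_lt two_coe aR_mul_bR qr fin_quot two_nu v_sum_pair' fR fR_ne e7 e7_mul
  e7_per e7_neg GI Gv lim_G pt_ok)
open Pool.Agent.Y698.SG (Fam PD sy tr hc Mu Bg Bg_eq Gd)

variable {L : PeriodPair} {Ω p q : ℂ}

variable (Ω)

/-- the regularized weighted sum -/
noncomputable def TK (e : ℕ) (δ : ℝ) (m : RR) (w : RR → ℂ) : ℂ :=
  ∑ᶠ x : RR ⧸ sp m, w x.out * EK RR Ω e δ (Ω * x.out / m)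

variable {Ω}

lemma TK_eq (e : ℕ) (δ : ℝ) (m : RR) [Fintype (RR ⧸ sp m)] (w : RR → ℂ) : TK Ω e δ m w =
    ∑ x : RR ⧸ sp m, w x.out * EK RR Ω e δ (Ω * x.out / m) :=
  finsum_eq_sum_of_fintype _

lemma TK_term (hL : IsLat L RR Ω) (e : ℕ) (δ : ℝ) {m : RR} (hm : m ≠ 0) {w : RR → ℂ}
    (hw : ∀ x y : RR, x - y ∈ sp m → w x = w y) {x y : RR}
    (h : x - y ∈ sp m) : w x * EK RR Ω e δ (Ω * x / m) = w y * EK RR Ω e δ (Ω * y / m) := by
  rw [hw _ _ h]
  congr 1
  refine EK_per hL e δ ?_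
  have h1 := (div_mem_iff hL hm (x - y)).2 h
  convert h1 using 1
  push_cast
  ring

lemma bija : Function.Bijective (fun i : Fin 2 => Ideal.Quotient.mk (sp aR) ((![0, 1] : Fin 2 → RR) i)) := by
  constructor
  · intro i j hij
    have h1 : Ideal.Quotient.mk (sp aR) ((![0, 1] : Fin 2 → RR) i) =
        Ideal.Quotient.mk (sp aR) ((![0, 1] : Fin 2 → RR) j) := hij
    rw [Ideal.Quotient.mk_eq_mk_iff_sub_mem] at h1
    have h2 : (1 : RR) ∉ sp aR := Pool.Agent.Y698.not_dvd_one Pool.Agent.Y698.aR_nu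
    fin_cases i <;> fin_cases j
    · rfl
    · exfalso
      apply h2
      have := neg_mem h1
      simpa using this
    · exfalso
      apply h2
      simpa using h1
    · rfl
  · intro z
    rcases Pool.Agent.Y698.res_al z.out with h | h
    · refine ⟨0, ?_⟩
      show Ideal.Quotient.mk (sp aR) (0 : RR) = z
      rw [← Ideal.Quotient.mk_out z, Ideal.Quotient.mk_eq_mk_iff_sub_mem]
      have := neg_mem h
      simpa using this
    · refine ⟨1, ?_⟩
      show Ideal.Quotient.mk (sp aR) (1 : RR) = z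
      rw [← Ideal.Quotient.mk_out z, Ideal.Quotient.mk_eq_mk_iff_sub_mem]
      have := neg_mem h
      simpa using this

lemma aR_ne : aR ≠ 0 := fun h => al_ne (by rw [← aR_coe, h]; rfl)

/-- the sum over the two points -/
lemma EK_al (hL : IsLat L RR Ω) (e : ℕ) {δ : ℝ} (hδ : 0 < δ) (z : ℂ) :
    EK RR Ω e δ z + EK RR Ω e δ (z + tA Ω) =
      lam e al * EK RR Ω e (δ / Complex.normSq al) (al * z) := by
  have f1 := fin_quot aR_ne
  let _ : Fintype (RR ⧸ sp aR) := Fintype.ofFinite _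
  have h1 := EK_distA hL e hδ aR aR_ne z
  rw [sum_rep _ bija (fun x : RR => EK RR Ω e δ (z + Ω * x / (aR : ℂ))), Fin.sum_univ_two] at h1
  · have m0 : (![0, 1] : Fin 2 → RR) 0 = 0 := rfl
    have m1 : (![0, 1] : Fin 2 → RR) 1 = 1 := rfl
    rw [m0, m1, aR_coe] at h1
    have e6 : z + Ω * ((0 : RR) : ℂ) / al = z := by
      push_cast
      ring
    have e7 : z + Ω * ((1 : RR) : ℂ) / al = z + tA Ω := by
      unfold tA
      push_cast
      ring
    rw [e6, e7] at h1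
    exact h1
  · intro x y hxy
    refine EK_per hL e δ ?_
    have h1 := (div_mem_iff hL aR_ne (x - y)).2 hxy
    convert h1 using 1
    push_cast
    ring

/-- multiplication by `aR` is a bijection -/
lemma bij_aR {m : RR} (hm : Mo m) :
    Function.Bijective (fun y : RR ⧸ sp m => Ideal.Quotient.mk (sp m) (aR * y.out)) := by
  have hu : IsUnit (Ideal.Quotient.mk (sp m) aR) := by
    obtain ⟨r, hr⟩ := hm
    refine IsUnit.of_mul_eq_one (Ideal.Quotient.mk (sp m) (-(bR * r))) ?_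
    rw [← map_mul, ← map_one (Ideal.Quotient.mk (sp m)), Ideal.Quotient.mk_eq_mk_iff_sub_mem,
      Ideal.mem_span_singleton']
    exact ⟨-1, by rw [hr]; linear_combination r * aR_mul_bR⟩
  obtain ⟨u, hu⟩ := hu
  have e1 : (fun y : RR ⧸ sp m => Ideal.Quotient.mk (sp m) (aR * y.out)) =
      fun y => (Units.mulLeft u) y := by
    funext y
    rw [map_mul, Ideal.Quotient.mk_out, Units.mulLeft_apply, hu]
  rw [e1]
  exact (Units.mulLeft u).bijective

lemma TK_al (hL : IsLat L RR Ω) (e : ℕ) (δ : ℝ) {m : RR}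
    (hm : Mo m) [Fintype (RR ⧸ sp m)] {w : RR → ℂ} (hw : ∀ x y : RR, x - y ∈ sp m → w x = w y)
    {ε : ℂ} (hε : ε ^ 2 = 1) (hb : Mu aR w ε) :
    ∑ x : RR ⧸ sp m, w x.out * EK RR Ω e δ (al * (Ω * x.out / m)) = ε * TK Ω e δ m w := by
  rw [TK_eq, sum_rep _ (bij_aR hm) (fun x : RR => w x * EK RR Ω e δ (Ω * x / m))
    (fun x y h => TK_term hL e δ hm.ne hw h), Finset.mul_sum]
  refine Finset.sum_congr rfl fun x _ => ?_
  rw [hb x.out]
  have e1 : Ω * ((aR * x.out : RR) : ℂ) / m = al * (Ω * x.out / m) := by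
    push_cast
    rw [aR_coe]
    ring
  rw [e1]
  linear_combination (-(w x.out * EK RR Ω e δ (al * (Ω * x.out / m)))) * hε

/-- the value of the weighted sum -/
theorem Sn_TK (hL : IsLat L RR Ω)
    (hpq : ∀ l ∈ L.lattice, eta L l = p * l + q * (starRingEnd ℂ) l) (e : ℕ) {m : RR}
    (hm : Mo m) {w : RR → ℂ} (hw : We m w) {ε : ℂ} (hε : ε ^ 2 = 1) (hb : Mu aR w ε) {T : ℂ}
    (hT : Tendsto (fun δ : ℝ => TK Ω e δ m w) (𝓝[>] 0) (𝓝 T)) :
    Sn L Ω p q e m w = (2 - lam e al * ε) * T := by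
  have f1 := fin_quot hm.ne
  let _ : Fintype (RR ⧸ sp m) := Fintype.ofFinite _
  have l1 : Tendsto (fun δ : ℝ => ∑ x : RR ⧸ sp m, w x.out * Nr Ω e δ (Ω * x.out / m)) (𝓝[>] 0)
      (𝓝 (Sn L Ω p q e m w)) := by
    rw [Sn_eq]
    refine tendsto_finsetSum _ fun x _ => ?_
    by_cases hx : x.out ∈ sp m
    · simp only [hw.zero _ hx, zero_mul]
      exact tendsto_const_nhds
    · exact (lim_Nr hL hpq e ((pt_od hL hm hx).al' hL).ne).const_mul _
  have l2 : Tendsto (fun δ : ℝ => 2 * TK Ω e δ m w - lam e al * ε *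
      TK Ω e (δ / Complex.normSq al) m w) (𝓝[>] 0) (𝓝 (2 * T - lam e al * ε * T)) :=
    (hT.const_mul 2).sub ((hT.comp (tend_div al_ne)).const_mul _)
  have e0 : (2 - lam e al * ε) * T = 2 * T - lam e al * ε * T := by ring
  rw [e0]
  refine tendsto_nhds_unique l1 (l2.congr' ?_)
  filter_upwards [self_mem_nhdsWithin] with δ (hδ : 0 < δ)
  have h1 := TK_al hL e (δ / Complex.normSq al) hm hw.per hε hb
  rw [mul_assoc, ← h1, TK_eq, Finset.mul_sum, Finset.mul_sum, ← Finset.sum_sub_distrib]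
  refine Finset.sum_congr rfl fun x _ => ?_
  have h2 := EK_al hL e hδ (Ω * x.out / m)
  unfold Nr
  linear_combination (w x.out) * h2

lemma EK_zero (δ : ℝ) (z : ℂ) : EK RR Ω 0 δ z = EE RR Ω δ z := by
  unfold EK EE
  refine tsum_congr fun β => ?_
  unfold gd fd gg Pool.Agent.W192.CY.Vk
  simp

/-- weight one -/
theorem TK_zero (hL : IsLat L RR Ω) [Fintype (RR ⧸ sp fR)] {T : ℂ}
    (hT : Tendsto (fun δ : ℝ => Pool.Agent.Y698.GG Ω δ 1) (𝓝[>] 0) (𝓝 T)) {n : RR} (hn : Gd n)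
    {φ : RR → ℂ} (hφ : Pool.Agent.Y698.SG.Pe n φ) {κ : ℂ} (hκ : Mu fR φ κ) :
    Tendsto (fun δ : ℝ => TK Ω 0 δ (n * fR) (fun x => e7 x * φ x)) (𝓝[>] 0)
      (𝓝 (e7 n * κ * Bg L Ω T n φ)) := by
  have hn0 := hn.ne
  have hnf : n * fR ≠ 0 := mul_ne_zero hn0 fR_ne
  have hfn : fR * n ≠ 0 := mul_ne_zero fR_ne hn0
  have f1 := fin_quot hn0
  have f2 := fin_quot hnf
  let _ : Fintype (RR ⧸ sp n) := Fintype.ofFinite _
  let _ : Fintype (RR ⧸ sp (n * fR)) := Fintype.ofFinite _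
  have hn0' := coe_ne hn0
  have hf0' := coe_ne fR_ne
  have hper : ∀ x y : RR, x - y ∈ sp (n * fR) → e7 x * φ x = e7 y * φ y := by
    intro x y h
    have h1 : x - y ∈ sp n := (Ideal.span_singleton_le_span_singleton.2 (Dvd.intro _ rfl)) h
    have h2 : x - y ∈ sp fR := (Ideal.span_singleton_le_span_singleton.2 (Dvd.intro_left _ rfl)) h
    rw [e7_per h2, hφ _ _ h1]
  have hbij : Function.Bijective (fun p : (RR ⧸ sp n) × (RR ⧸ sp fR) =>
      Ideal.Quotient.mk (sp (n * fR)) (p.1.out * fR + p.2.out * n)) := by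
    have h := bij_crt hn.cop
    rw [mul_comm fR n] at h
    exact h
  have h1 : ∀ δ : ℝ, TK Ω 0 δ (n * fR) (fun x => e7 x * φ x) =
      e7 n * κ * ∑ x : RR ⧸ sp n, φ x.out * GI Ω δ (Ω * x.out / n) := by
    intro δ
    rw [TK_eq, sum_rep _ hbij (fun x : RR => (e7 x * φ x) * EK RR Ω 0 δ (Ω * x / ((n * fR : RR) : ℂ)))
      (fun x y h => TK_term hL 0 δ hnf hper h), Fintype.sum_prod_type, Finset.mul_sum]
    refine Finset.sum_congr rfl fun x _ => ?_
    unfold GI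
    rw [Finset.mul_sum, Finset.mul_sum]
    refine Finset.sum_congr rfl fun y _ => ?_
    have e1 : e7 (x.out * fR + y.out * n) = e7 y.out * e7 n := by
      rw [← e7_mul]
      apply e7_per
      rw [add_sub_cancel_right, Ideal.mem_span_singleton']
      exact ⟨x.out, rfl⟩
    have e2 : φ (x.out * fR + y.out * n) = κ * φ x.out := by
      rw [← hκ, mul_comm fR]
      apply hφ
      rw [add_sub_cancel_left, Ideal.mem_span_singleton']
      exact ⟨y.out, rfl⟩
    have e3 : Ω * ((x.out * fR + y.out * n : RR) : ℂ) / ((n * fR : RR) : ℂ) =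
        Ω * y.out / fR + Ω * x.out / n := by
      push_cast
      field_simp
      ring
    rw [e1, e2, e3, EK_zero]
    ring
  refine Tendsto.congr (fun δ => (h1 δ).symm) ?_
  rw [Bg_eq]
  refine Tendsto.const_mul _ (tendsto_finsetSum _ fun x _ => Tendsto.const_mul _ ?_)
  exact lim_G hL hT (pt_ok hL hn0 hn.cop x.out)

/-- the sums of weight one -/
theorem Sn_zero (hL : IsLat L RR Ω)
    (hpq : ∀ l ∈ L.lattice, eta L l = p * l + q * (starRingEnd ℂ) l)
    [Fintype (RR ⧸ sp fR)] {T : ℂ}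
    (hT : Tendsto (fun δ : ℝ => Pool.Agent.Y698.GG Ω δ 1) (𝓝[>] 0) (𝓝 T)) {n : RR} (hn : Gd n)
    (hm : Mo (n * fR)) {φ : RR → ℂ} (hφ : Pool.Agent.Y698.SG.Pe n φ) {κ : ℂ} (hκ : Mu fR φ κ)
    (hw : We (n * fR) (fun x => e7 x * φ x)) {ε : ℂ} (hε : ε ^ 2 = 1)
    (hb : Mu aR (fun x => e7 x * φ x) ε) :
    Sn L Ω p q 0 (n * fR) (fun x => e7 x * φ x) =
      al * (bl - ε) * (e7 n * κ * Bg L Ω T n φ) := by
  rw [Sn_TK hL hpq 0 hm hw hε hb (TK_zero hL hT hn hφ hκ), lam_zero]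
  linear_combination (-(e7 n * κ * Bg L Ω T n φ)) * al_mul_bl

end Run7.h359.BK
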