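import Pool.Agent.Run7.h359.Zet

/-!
# Points of odd order at the places above two
-/

set_option autoImplicit false
set_option linter.unusedSectionVars false

open Filter
open scoped Topology PeriodPair

namespace Run7.h359.BK

open H667R3 Pool.Agent.TH936.CW Pool.Agent.TH936.CM Pool.Agent.TH936.PU
open Pool.Agent.W192.HK (sp)
open Pool.Agent.Y698 (al bl RR aR bR tA tB al_ne bl_ne al_mul_bl al_sq tA_mem tB_mem two_tA two_tB
  tA_notMem tB_notMem tC_notMem roots_dist LD aR_coe bR_coe ker_al ker_bl isLat_neg_mem al_im_pos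
  Tb v_two v_bl v_two_lt two_coe aR_mul_bR qr fin_quot)

variable {L : PeriodPair} {Ω p q : ℂ} {Γ : Type*} [LinearOrderedCommGroupWithZero Γ]
  {v : Valuation ℂ Γ}

/-- the points of odd order -/
structure Od (L : PeriodPair) (z : ℂ) : Prop where
  ne : z ∉ L.lattice
  tor : ∃ r : RR, ((1 + 2 * r : RR) : ℂ) * z ∈ L.lattice

lemma Od.two (hL : IsLat L RR Ω) {z : ℂ} (hz : Od L z) : 2 * z ∉ L.lattice := by
  intro h
  obtain ⟨r, hr⟩ := hz.tor
  apply hz.ne
  have h1 := sub_mem hr (hL.mul r _ h)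
  have e : ((1 + 2 * r : RR) : ℂ) * z - r * (2 * z) = z := by
    push_cast
    rw [two_coe]
    ring
  rwa [e] at h1

lemma Od.mul (hL : IsLat L RR Ω) {z : ℂ} (hz : Od L z) (c : RR) (h : (c : ℂ) * z ∉ L.lattice) :
    Od L (c * z) := by
  obtain ⟨r, hr⟩ := hz.tor
  refine ⟨h, r, ?_⟩
  have e : ((1 + 2 * r : RR) : ℂ) * (c * z) = c * (((1 + 2 * r : RR) : ℂ) * z) := by ring
  rw [e]
  exact hL.mul c _ hr

lemma Od.bl (hL : IsLat L RR Ω) {z : ℂ} (hz : Od L z) : Od L (bl * z) := by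
  have h : ((bR : RR) : ℂ) * z ∉ L.lattice := by
    intro h
    apply hz.two hL
    have h1 := hL.mul aR _ h
    rw [bR_coe, aR_coe, ← mul_assoc, al_mul_bl] at h1
    exact h1
  have := hz.mul hL bR h
  rwa [bR_coe] at this

lemma Od.neg {z : ℂ} (hz : Od L z) : Od L (-z) := by
  obtain ⟨r, hr⟩ := hz.tor
  refine ⟨fun h => hz.ne (isLat_neg_mem h), r, ?_⟩
  rw [mul_neg]
  exact neg_mem hr

lemma Od.addB (hL : IsLat L RR Ω) {z : ℂ} (hz : Od L z) :
    z + tB Ω ∉ L.lattice ∧ z - tB Ω ∉ L.lattice := by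
  constructor
  · intro h
    apply hz.two hL
    have h1 := sub_mem (add_mem h h) (two_tB hL)
    convert h1 using 1
    ring
  · intro h
    apply hz.two hL
    have h1 := add_mem (add_mem h h) (two_tB hL)
    convert h1 using 1
    ring

lemma v_odd (hv : v al < 1) (r : RR) : v ((1 + 2 * r : RR) : ℂ) = 1 := by
  have e : ((1 + 2 * r : RR) : ℂ) = 1 + 2 * (r : ℂ) := by
    push_cast
    rw [two_coe]
  rw [e, Valuation.map_add_eq_of_lt_left v, map_one]
  rw [map_one]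
  exact v_mul_lt' (v_two_lt hv) (v_R qr r)

lemma Od.tb (hv : v al < 1) {z : ℂ} (hz : Od L z) : Tb v L z := by
  obtain ⟨r, hr⟩ := hz.tor
  exact ⟨hz.ne, _, v_odd hv r, hr⟩

lemma tb_tB (hL : IsLat L RR Ω) (hv : v al < 1) : Tb v L (tB Ω) := by
  refine ⟨tB_notMem hL, bR, ?_, ?_⟩
  · rw [bR_coe]
    exact v_bl hv
  · rw [bR_coe]
    exact tB_mem hL

/-- `1 / ᾱ` -/
noncomputable def uu : ℂ := al / 2

lemma uu_rel : 2 * uu ^ 2 - uu + 1 = 0 := by
  unfold uu
  linear_combination (1 / 2 : ℂ) * al_sq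

lemma bl_uu : bl * uu = 1 := by
  unfold uu
  linear_combination (1 / 2 : ℂ) * al_mul_bl

lemma v_uu (hv : v al < 1) : v uu = 1 := by
  have h := congrArg v bl_uu
  rw [map_mul, v_bl hv, one_mul, map_one] at h
  exact h

lemma al_uu : al = 2 * uu := by
  unfold uu
  ring

lemma xB_eq (h : LD L Ω) : xc L (tB Ω) = 2 * uu ^ 3 := by
  unfold xc
  rw [h.eb, al_uu]
  linear_combination (-uu - 1 / 2 : ℂ) * uu_rel

lemma yB_eq (h : LD L Ω) : yc L (tB Ω) = -uu ^ 3 := by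
  unfold yc
  rw [xB_eq h, Pool.Agent.Y698.dwp_half (two_tB h.lat)]
  ring

lemma Lc_eq (h : LD L Ω) (z : ℂ) : Lc L z (tB Ω) = (yc L z + uu ^ 3) / (xc L z - 2 * uu ^ 3) := by
  unfold Lc
  rw [xB_eq h, yB_eq h]
  ring

lemma v_xc (h : LD L Ω) (hv : v al < 1) {z : ℂ} (hz : Tb v L z) : v (xc L z) ≤ 1 :=
  hz.int h hv

lemma v_yc (h : LD L Ω) (hv : v al < 1) {z : ℂ} (hz : Tb v L z) : v (yc L z) ≤ 1 := by
  have h1 := v_xc h hv hz
  have h2 := curve h.g2 h.g3 hz.ne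
  by_contra hcon
  push Not at hcon
  have t2 := v_two_lt hv
  have h3 : v (xc L z ^ 3 - xc L z ^ 2 - 2 * xc L z - 1) ≤ 1 :=
    v_sub_le (v_sub_le (v_sub_le (v_pow_le h1 3) (v_pow_le h1 2)) (v_mul_le t2.le h1))
      (by rw [map_one])
  have h4 : yc L z ^ 2 = (xc L z ^ 3 - xc L z ^ 2 - 2 * xc L z - 1) - xc L z * yc L z := by
    linear_combination h2
  have h5 : v (yc L z ^ 2) ≤ v (yc L z) := by
    rw [h4]
    refine v_sub_le (h3.trans hcon.le) ?_
    rw [map_mul]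
    exact mul_le_of_le_one_left zero_le h1
  rw [map_pow, pow_two] at h5
  have h6 : v (yc L z) * 1 < v (yc L z) * v (yc L z) :=
    mul_lt_mul_of_pos_left hcon (lt_trans zero_lt_one hcon)
  rw [mul_one] at h6
  exact absurd h5 (not_le.2 h6)

lemma v_s (h : LD L Ω) (hv : v al < 1) {z : ℂ} (hz : Od L z) :
    v (xc L z - 2 * uu ^ 3) = 1 := by
  have hL := h.lat
  have h1 := (hz.tb hv).diff h hv (tb_tB hL hv) (hz.addB hL).1 (hz.addB hL).2
  have e : Pool.Agent.Y698.Xx L (tB Ω) = xc L (tB Ω) := rfl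
  rw [e, xB_eq h] at h1
  exact h1

lemma v_Lc (h : LD L Ω) (hv : v al < 1) {z : ℂ} (hz : Od L z) : v (Lc L z (tB Ω)) ≤ 1 := by
  rw [Lc_eq h, map_div₀, v_s h hv hz, div_one]
  refine v_add_le (v_yc h hv (hz.tb hv)) ?_
  exact v_pow_le (v_uu hv).le 3

lemma kap_s (h : LD L Ω) (hpq : ∀ l ∈ L.lattice, eta L l = p * l + q * (starRingEnd ℂ) l)
    {z : ℂ} (hz : z ∉ L.lattice) : kap L p q (tB Ω) z ^ 2 = xc L z - 2 * uu ^ 3 := by
  rw [kap_sq hpq (tB_notMem h.lat) (two_tB h.lat) hz, ← xB_eq h]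
  unfold xc
  ring

lemma v_kap (h : LD L Ω) (hpq : ∀ l ∈ L.lattice, eta L l = p * l + q * (starRingEnd ℂ) l)
    (hv : v al < 1) {z : ℂ} (hz : Od L z) : v (kap L p q (tB Ω) z) = 1 := by
  have h1 := congrArg v (kap_s h hpq hz.ne)
  rw [map_pow, v_s h hv hz] at h1
  exact (pow_eq_one_iff_of_nonneg zero_le two_ne_zero).1 h1

variable (L p q)

/-- the periodic zeta function, shifted -/
noncomputable def Fz (z : ℂ) : ℂ := Fc L p q ((starRingEnd ℂ) z) z

variable {L p q}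

lemma Fz_E1 (z : ℂ) : Fz L p q z = E1 L p q z + 1 / 2 := rfl

/-- the transformation of the zeta function -/
lemma Fz_bl (h : LD L Ω) (hpq : ∀ l ∈ L.lattice, eta L l = p * l + q * (starRingEnd ℂ) l)
    {z : ℂ} (hz : Od L z) :
    Fz L p q (bl * z) = uu * (2 * Fz L p q z + Lc L z (tB Ω)) - uu ^ 2 := by
  have hL := h.lat
  have h1 := E1_gen hpq bl_ne (fun _ => bl_mem hL) (tB_mem hL) (tB_notMem hL) (two_tB hL)
    (fun z hz => mul_bl hL hz) (hz.bl hL).ne
  have h2 := Lc_half (xc_ne hz.ne (tB_notMem hL) (hz.addB hL).1 (hz.addB hL).2)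
  rw [Pool.Agent.Y698.dwp_half (two_tB hL), sub_zero] at h2
  rw [← h2] at h1
  rw [Fz_E1, Fz_E1]
  linear_combination uu * h1 - (E1 L p q (bl * z)) * bl_uu + (1 / 2 : ℂ) * uu_rel

lemma Fz_per (hpq : ∀ l ∈ L.lattice, eta L l = p * l + q * (starRingEnd ℂ) l) {z w : ℂ}
    (hz : z ∉ L.lattice) (h : w - z ∈ L.lattice) : Fz L p q w = Fz L p q z := by
  rw [Fz_E1, Fz_E1, E1_per' hpq hz h]

/-- integrality at the points of odd order -/
theorem v_Fz (h : LD L Ω) (hpq : ∀ l ∈ L.lattice, eta L l = p * l + q * (starRingEnd ℂ) l)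
    (hv : v al < 1) {z : ℂ} (hz : Od L z) : v (Fz L p q z) ≤ 1 := by
  have hL := h.lat
  have t2 := v_two_lt hv
  by_contra hcon
  push Not at hcon
  have hpos : 0 < v (Fz L p q z) := lt_trans zero_lt_one hcon
  have key : ∀ k : ℕ, Od L (bl ^ k * z) ∧ v (Fz L p q (bl ^ k * z)) ≤ v (Fz L p q z) ∧
      (0 < k → v (Fz L p q (bl ^ k * z)) < v (Fz L p q z)) := by
    intro k
    induction k with
    | zero =>
      rw [pow_zero, one_mul]
      exact ⟨hz, le_rfl, fun h => absurd h (lt_irrefl 0)⟩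
    | succ k ih =>
      obtain ⟨i1, i2, -⟩ := ih
      have e : bl ^ (k + 1) * z = bl * (bl ^ k * z) := by ring
      have h1 := i1.bl hL
      rw [← e] at h1
      have h2 : v (Fz L p q (bl ^ (k + 1) * z)) < v (Fz L p q z) := by
        rw [e, Fz_bl h hpq i1]
        have e2 : uu * (2 * Fz L p q (bl ^ k * z) + Lc L (bl ^ k * z) (tB Ω)) - uu ^ 2 =
            uu * (2 * Fz L p q (bl ^ k * z)) + (uu * Lc L (bl ^ k * z) (tB Ω) - uu ^ 2) := by
          ring
        rw [e2]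
        refine v_add_lt ?_ (lt_of_le_of_lt (v_sub_le (v_mul_le (v_uu hv).le (v_Lc h hv i1))
          (v_pow_le (v_uu hv).le 2)) hcon)
        rw [map_mul, map_mul, v_uu hv, one_mul]
        calc v 2 * v (Fz L p q (bl ^ k * z)) ≤ v 2 * v (Fz L p q z) := mul_le_mul_right i2 _
          _ < 1 * v (Fz L p q z) := mul_lt_mul_of_pos_right t2 hpos
          _ = _ := one_mul _
      exact ⟨h1, h2.le, fun _ => h2⟩
  obtain ⟨r, hr⟩ := hz.tor
  set β : RR := 1 + 2 * r with hβ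
  have hβ0 : β ≠ 0 := by
    intro h0
    have := v_odd hv r
    rw [← hβ, h0] at this
    simp at this
  have := fin_quot hβ0
  have hu : IsUnit (Ideal.Quotient.mk (sp β) bR) := by
    refine IsUnit.of_mul_eq_one (Ideal.Quotient.mk (sp β) (-(aR * r))) ?_
    rw [← map_mul, ← map_one (Ideal.Quotient.mk (sp β)), Ideal.Quotient.mk_eq_mk_iff_sub_mem,
      Ideal.mem_span_singleton']
    exact ⟨-1, by rw [hβ]; linear_combination r * aR_mul_bR⟩
  obtain ⟨w, hw⟩ := hu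
  have ho : 0 < orderOf w := orderOf_pos w
  have h3 : (Ideal.Quotient.mk (sp β)) (bR ^ orderOf w) = Ideal.Quotient.mk (sp β) 1 := by
    rw [map_pow, ← hw, ← Units.val_pow_eq_pow_val, pow_orderOf_eq_one]
    simp
  rw [Ideal.Quotient.mk_eq_mk_iff_sub_mem, Ideal.mem_span_singleton'] at h3
  obtain ⟨c, hc'⟩ := h3
  have h4 := (key (orderOf w)).2.2 ho
  have h5 : Fz L p q (bl ^ orderOf w * z) = Fz L p q z := by
    apply Fz_per hpq hz.ne
    have e : bl ^ orderOf w * z - z = (c : ℂ) * (β * z) := by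
      have := congrArg (fun r : RR => (r : ℂ)) hc'
      push_cast at this
      rw [bR_coe] at this
      linear_combination -z * this
    rw [e]
    exact hL.mul c _ hr
  rw [h5] at h4
  exact lt_irrefl _ h4

end Run7.h359.BK
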