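import Pool.Agent.Run7.h359.Ind
import Pool.Agent.Y698.Cv
import Pool.Agent.TH936.CW.Lim

/-!
# The central values of higher weight as limits of weighted sums
-/

set_option autoImplicit false
set_option linter.unusedSectionVars false

open Filter
open scoped Topology PeriodPair

namespace Run7.h359.BK

open H667R3 Pool.Agent.TH936.CW Pool.Agent.TH936.CM
open Pool.Agent.W192.HK (sp HC fp nm)
open Pool.Agent.TH936.PU (coe_ne tsum_prtA sum_rep mk_eq out_mk bij_mul bij_crt div_mem_iff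
  v_add_le v_sub_le v_mul_le)
open Pool.Agent.Y698 (al bl RR aR bR tA tB al_ne bl_ne al_mul_bl al_sq tA_mem tB_mem
  LD aR_coe bR_coe qr fin_quot fR fR_ne e7 e7_mul e7_per e7_neg e7_eq_zero nu_eq)

variable {L : PeriodPair} {Ω : ℂ}

/-- sums of periodic functions -/
theorem sum_EKA (hL : IsLat L RR Ω) (e : ℕ) {δ : ℝ} (a : RR) (ha : a ≠ 0)
    [Fintype (RR ⧸ sp a)] (c : RR → ℂ) (hc : ∀ x y : RR, x - y ∈ sp a → c x = c y)
    (hcs : Summable (fun α : RR => c α * gd e δ (α : ℂ))) :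
    ∑' α : RR, c α * gd e δ (α : ℂ) =
      gg e ((starRingEnd ℂ) ((a : ℂ) / Ω)) ((a : ℂ) / Ω) * ∑ q : RR ⧸ sp a,
      c q.out * EK RR Ω e (δ * Complex.normSq a / Complex.normSq Ω) (Ω * q.out / a) := by
  have ha0 := coe_ne ha
  have hΩ := hL.ne
  rw [tsum_prtA a ha _ hcs, Finset.mul_sum]
  refine Finset.sum_congr rfl fun q _ => ?_
  unfold EK
  rw [← tsum_mul_left, ← tsum_mul_left]
  refine tsum_congr fun β => ?_
  have e1 : c (q.out + a * β) = c q.out := by
    refine hc _ _ ?_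
    rw [add_sub_cancel_left, Ideal.mem_span_singleton']
    exact ⟨β, by ring⟩
  have e2 : ((q.out + a * β : RR) : ℂ) = (a / Ω) * (Ω * q.out / a + Ω * β) := by
    push_cast
    field_simp
  rw [e1, e2, gd_mul]
  have e3 : δ * Complex.normSq ((a : ℂ) / Ω) = δ * Complex.normSq a / Complex.normSq Ω := by
    rw [Complex.normSq_div]
    ring
  rw [e3]
  ring

/-- the constant -/
noncomputable def kq (e : ℕ) (Ω : ℂ) (m : RR) : ℂ :=
  gg e ((starRingEnd ℂ) ((m : ℂ) / Ω)) ((m : ℂ) / Ω)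

lemma kq_ne {e : ℕ} {m : RR} (hm : m ≠ 0) (hΩ : Ω ≠ 0) : kq e Ω m ≠ 0 := by
  have h : (m : ℂ) / Ω ≠ 0 := div_ne_zero (coe_ne hm) hΩ
  unfold kq gg
  exact mul_ne_zero (pow_ne_zero _ ((map_ne_zero _).2 h)) (pow_ne_zero _ (inv_ne_zero h))

/-- the central value -/
theorem val_K {e : ℕ} {m : RR} (hm : m ≠ 0) {θ : Ideal RR → ℂ} (hθ : HC (2 * e + 1) (sp m) θ)
    {w : RR → ℂ} (hw : ∀ x y : RR, x - y ∈ sp m → w x = w y) (hbd : ∀ x, ‖w x‖ ≤ 1)
    (hck : ∀ α : RR, (starRingEnd ℂ) (fp (2 * e + 1) θ α) = w α) :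
    ∃ F : ℂ → ℂ, Differentiable ℂ F ∧
    (∀ z : ℂ, ((e + 1 : ℕ) : ℝ) + 1 / 2 < z.re →
      HasSum (fun I : Ideal RR => θ I * (nm I : ℂ) ^ (-z)) (F z)) ∧
    ∀ (L : PeriodPair) (Ω : ℂ), IsLat L RR Ω →
      Tendsto (fun δ : ℝ => TK Ω e δ m w) (𝓝[>] 0)
        (𝓝 ((kq e Ω m)⁻¹ * (2 * (starRingEnd ℂ) (F ((e + 1 : ℕ) : ℂ))))) := by
  classical
  have hbasic := Pool.Agent.W287.HK.h_basic
  have hcls := Pool.Agent.W571.HK.h_cls hbasic
  have hfp := Pool.Agent.W53.HK.h_fp hbasic hcls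
  have hfpr := Pool.Agent.W366.HK.h_fpr hbasic hcls
  have hlat := Pool.Agent.W585.HK.h_lat hbasic
  have hker := Pool.Agent.W692.HK.h_ker hbasic hcls hfpr
  have hcnt := Pool.Agent.W584.HK.h_cnt hbasic hcls hfpr hlat hker
  have hdec := Pool.Agent.W856.HK.h_dec hbasic
  have hgauss := Pool.Agent.W636.HK.h_gauss hbasic hfp
  have hpois := Pool.Agent.W348.HK.h_pois hbasic
  have htheta := Pool.Agent.TH936.HK.h_theta hbasic hfp hdec hgauss hpois hcnt
  have hafe := Pool.Agent.TH936.HK.h_afe hbasic hfp hcnt hgauss htheta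
  have f1 := fin_quot hm
  let _ : Fintype (RR ⧸ sp m) := Fintype.ofFinite _
  have hS := Pool.Agent.TH936.PU.sys_pid (R := RR) (q := m) f1
  obtain ⟨F, g1, g2, g3⟩ := lim_LK hbasic hfp hcnt hdec hafe qr hθ hS
  refine ⟨F, g1, g2, ?_⟩
  intro L Ω hL
  have hΩ := hL.ne
  have hm0 := coe_ne hm
  have hΩn : 0 < Complex.normSq Ω := Complex.normSq_pos.2 hΩ
  have hfn : 0 < Complex.normSq (m : ℂ) := Complex.normSq_pos.2 hm0
  have htop : nm (⊤ : Ideal RR) = 1 := ((hbasic RR al qr).2.2.2.2.2.2.1 ⊤).2 rfl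
  have e1 : ∀ δ : ℝ, 0 < δ → SK e (ck e θ ⊤) δ =
      kq e Ω m * TK Ω e (δ * Complex.normSq (m : ℂ) / Complex.normSq Ω) m w := by
    intro δ hδ
    have hcb : ∀ α : RR, ck e θ ⊤ α = w α := by
      intro α
      unfold ck
      rw [if_pos Submodule.mem_top]
      exact hck α
    have hs : Summable (fun α : RR => w α * gd e δ (α : ℂ)) := by
      have h1 := summ_gd hL e 0 (δ := δ / Complex.normSq Ω) (by positivity)
      have h2 : Summable (fun α : RR => ‖gd e δ (α : ℂ)‖) := by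
        have h3 := (h1.mul_left (gg e ((starRingEnd ℂ) Ω⁻¹) Ω⁻¹)).norm
        refine h3.congr fun α => ?_
        have e : (α : ℂ) = Ω⁻¹ * (0 + Ω * α) := by field_simp; ring
        conv_rhs => rw [e, gd_mul, Complex.normSq_inv]
        rw [div_eq_mul_inv]
      refine Summable.of_norm_bounded h2 fun α => ?_
      rw [norm_mul]
      exact mul_le_of_le_one_left (norm_nonneg _) (hbd α)
    have h1 := sum_EKA hL e m hm w hw hs
    unfold SK
    rw [tsum_congr (fun α => by rw [hcb α]), h1, TK_eq]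
    rfl
  -- rescaling
  have hδt : Tendsto (fun δ : ℝ => δ * Complex.normSq Ω / Complex.normSq (m : ℂ)) (𝓝[>] 0)
      (𝓝[>] 0) := by
    rw [tendsto_nhdsWithin_iff]
    constructor
    · have h7 : Continuous (fun δ : ℝ => δ * Complex.normSq Ω / Complex.normSq (m : ℂ)) := by
        fun_prop
      have h8 := (h7.tendsto 0).mono_left (nhdsWithin_le_nhds (s := Set.Ioi 0))
      simpa using h8
    · filter_upwards [self_mem_nhdsWithin] with δ (hδ : 0 < δ)
      show 0 < δ * Complex.normSq Ω / Complex.normSq (m : ℂ)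
      positivity
  have h2 := (g3.comp hδt).const_mul (kq e Ω m)⁻¹
  rw [nu_eq] at h2
  refine h2.congr' ?_
  filter_upwards [self_mem_nhdsWithin] with δ (hδ : 0 < δ)
  have hp : 0 < δ * Complex.normSq Ω / Complex.normSq (m : ℂ) := by positivity
  simp only [Function.comp_apply, Finset.sum_singleton]
  rw [htop, div_one, hθ.top, e1 _ hp]
  have e3 : δ * Complex.normSq Ω / Complex.normSq (m : ℂ) * Complex.normSq (m : ℂ) /
      Complex.normSq Ω = δ := by
    field_simp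
  rw [e3]
  have hk := kq_ne (e := e) hm hΩ
  push_cast
  rw [one_pow, inv_one, one_mul, one_mul]
  field_simp

end Run7.h359.BK
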