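import Pool.Agent.Run7.h401.MQ.Fld

/-!
# Squarefree parts, and the multiquadratic fields
-/

set_option autoImplicit false

open scoped symmDiff

namespace Run7.h359.FE

open Run7.h401.Fl (MQ)

/-- the prime divisors of the squarefree part -/
def sf (a : ℕ) : Finset ℕ := a.primeFactors.filter fun p => Odd (a.factorization p)

lemma mem_sf {a p : ℕ} : p ∈ sf a ↔ p.Prime ∧ Odd (a.factorization p) := by
  unfold sf
  rw [Finset.mem_filter, ← Nat.support_factorization, Finsupp.mem_support_iff]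
  constructor
  · rintro ⟨h1, h2⟩
    refine ⟨?_, h2⟩
    by_contra h
    exact h1 (Nat.factorization_eq_zero_of_not_prime _ h)
  · rintro ⟨h1, h2⟩
    refine ⟨?_, h2⟩
    intro h
    rw [h] at h2
    exact absurd h2 (by decide)

lemma sf_mul {a b : ℕ} (ha : a ≠ 0) (hb : b ≠ 0) : sf (a * b) = symmDiff (sf a) (sf b) := by
  ext p
  rw [Finset.mem_symmDiff, mem_sf, mem_sf, mem_sf, Nat.factorization_mul ha hb, Finsupp.add_apply,
    Nat.odd_add]
  by_cases hp : p.Prime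
  · simp only [hp, true_and]
    rcases Nat.even_or_odd (a.factorization p) with h1 | h1 <;>
      rcases Nat.even_or_odd (b.factorization p) with h2 | h2
    · have h1' := Nat.not_odd_iff_even.2 h1
      have h2' := Nat.not_odd_iff_even.2 h2
      tauto
    · have h1' := Nat.not_odd_iff_even.2 h1
      have h2' := Nat.not_even_iff_odd.2 h2
      tauto
    · have h1' := Nat.not_even_iff_odd.2 h1
      have h2' := Nat.not_odd_iff_even.2 h2
      tauto
    · have h1' := Nat.not_even_iff_odd.2 h1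
      have h2' := Nat.not_even_iff_odd.2 h2
      tauto
  · simp [hp]

lemma sf_one : sf 1 = ∅ := by
  ext p
  rw [mem_sf]
  simp

lemma sf_sq {m : ℕ} : sf (m ^ 2) = ∅ := by
  ext p
  rw [mem_sf, Nat.factorization_pow, Finsupp.smul_apply]
  simp only [smul_eq_mul, Finset.notMem_empty, iff_false, not_and, Nat.not_odd_iff_even]
  intro _
  exact even_two_mul _

lemma sf_mul_sq {a m : ℕ} (ha : a ≠ 0) (hm : m ≠ 0) : sf (a * m ^ 2) = sf a := by
  rw [sf_mul ha (pow_ne_zero 2 hm), sf_sq]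
  exact symmDiff_bot (sf a)

lemma sf_sqf {D : ℕ} (h : Squarefree D) : sf D = D.primeFactors := by
  ext p
  rw [mem_sf, Nat.mem_primeFactors]
  have h1 := h.natFactorization_le_one p
  constructor
  · rintro ⟨hp, h2⟩
    refine ⟨hp, ?_, h.ne_zero⟩
    by_contra h3
    rw [Nat.factorization_eq_zero_of_not_dvd h3] at h2
    exact absurd h2 (by decide)
  · rintro ⟨hp, h2, h3⟩
    have h4 := (hp.dvd_iff_one_le_factorization h3).1 h2
    have h5 : D.factorization p = 1 := le_antisymm h1 h4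
    exact ⟨hp, by rw [h5]; decide⟩

/-- the squarefree part -/
lemma prod_sf {a : ℕ} (ha : a ≠ 0) : ∃ m : ℕ, m ≠ 0 ∧ a = (∏ p ∈ sf a, p) * m ^ 2 := by
  have h1 : a = ∏ p ∈ a.primeFactors, p ^ (a.factorization p) := by
    conv_lhs => rw [← Nat.prod_factorization_pow_eq_self ha]
    rfl
  have h2 : ∏ p ∈ a.primeFactors, p ^ (a.factorization p) =
      (∏ p ∈ a.primeFactors, p ^ (a.factorization p % 2)) *
        (∏ p ∈ a.primeFactors, p ^ (a.factorization p / 2)) ^ 2 := by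
    rw [← Finset.prod_pow, ← Finset.prod_mul_distrib]
    refine Finset.prod_congr rfl fun p _ => ?_
    rw [← pow_mul, ← pow_add]
    congr 1
    omega
  have h3 : ∏ p ∈ a.primeFactors, p ^ (a.factorization p % 2) = ∏ p ∈ sf a, p := by
    unfold sf
    rw [Finset.prod_filter]
    refine Finset.prod_congr rfl fun p _ => ?_
    split_ifs with h
    · rw [Nat.odd_iff.1 h, pow_one]
    · rw [Nat.not_odd_iff_even, Nat.even_iff] at h
      rw [h, pow_zero]
  refine ⟨∏ p ∈ a.primeFactors, p ^ (a.factorization p / 2), ?_, ?_⟩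
  · refine Finset.prod_ne_zero_iff.2 fun p hp => pow_ne_zero _ ?_
    exact (Nat.prime_of_mem_primeFactors hp).ne_zero
  · rw [← h3, ← h2]
    exact h1

variable {n : ℕ} {d : Fin n → ℕ}

lemma pr_ne (hd : ∀ i, d i ≠ 0) (T : Finset (Fin n)) : ∏ i ∈ T, d i ≠ 0 :=
  Finset.prod_ne_zero_iff.2 fun i _ => hd i

lemma sf_sd (hd : ∀ i, d i ≠ 0) (T T' : Finset (Fin n)) :
    symmDiff (sf (∏ i ∈ T, d i)) (sf (∏ i ∈ T', d i)) = sf (∏ i ∈ symmDiff T T', d i) := by
  rw [← sf_mul (pr_ne hd T) (pr_ne hd T')]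
  have e1 : ∏ i ∈ T, d i = (∏ i ∈ T \ T', d i) * ∏ i ∈ T ∩ T', d i := by
    rw [← Finset.prod_union (Finset.disjoint_sdiff_inter T T'), Finset.sdiff_union_inter]
  have e2 : ∏ i ∈ T', d i = (∏ i ∈ T' \ T, d i) * ∏ i ∈ T ∩ T', d i := by
    rw [Finset.inter_comm, ← Finset.prod_union (Finset.disjoint_sdiff_inter T' T),
      Finset.sdiff_union_inter]
  have e3 : ∏ i ∈ symmDiff T T', d i = (∏ i ∈ T \ T', d i) * ∏ i ∈ T' \ T, d i := by
    have e : symmDiff T T' = (T \ T') ∪ (T' \ T) := rfl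
    rw [e, Finset.prod_union disjoint_sdiff_sdiff]
  have e4 : (∏ i ∈ T, d i) * ∏ i ∈ T', d i =
      (∏ i ∈ symmDiff T T', d i) * (∏ i ∈ T ∩ T', d i) ^ 2 := by
    rw [e1, e2, e3]
    ring
  rw [e4, sf_mul_sq (pr_ne hd _) (pr_ne hd _)]

/-- the sets -/
def HH (d : Fin n → ℕ) : Finset (Finset ℕ) :=
  (Finset.univ : Finset (Finset (Fin n))).image fun T => sf (∏ i ∈ T, d i)

lemma mem_HH {X : Finset ℕ} : X ∈ HH d ↔ ∃ T : Finset (Fin n), sf (∏ i ∈ T, d i) = X := by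
  unfold HH
  rw [Finset.mem_image]
  constructor
  · rintro ⟨T, -, h⟩
    exact ⟨T, h⟩
  · rintro ⟨T, h⟩
    exact ⟨T, Finset.mem_univ T, h⟩

/-- **The multiquadratic field.** -/
theorem exists_MQ {F : Type} [Field F] [NumberField F] (hd : ∀ i, d i ≠ 0)
    (hp : ∀ T : Finset (Fin n), ∀ p ∈ sf (∏ i ∈ T, d i), p % 4 = 1) {s : Fin n → F}
    (hs : ∀ i, s i ^ 2 = (d i : F)) (hgen : ∀ K : Subfield F, (∀ i, s i ∈ K) → K = ⊤) :
    ∃ r : Finset ℕ → F, MQ F (HH d) r := by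
  classical
  have hroot : ∀ X ∈ HH d, ∃ y : F, y ^ 2 = ((∏ l ∈ X, l : ℕ) : F) := by
    intro X hX
    obtain ⟨T, rfl⟩ := mem_HH.1 hX
    obtain ⟨m, hm, he⟩ := prod_sf (pr_ne hd T)
    have hm' : (m : F) ≠ 0 := Nat.cast_ne_zero.2 hm
    refine ⟨(∏ i ∈ T, s i) / m, ?_⟩
    have h1 : (∏ i ∈ T, s i) ^ 2 = ((∏ i ∈ T, d i : ℕ) : F) := by
      rw [← Finset.prod_pow]
      push_cast
      exact Finset.prod_congr rfl fun i _ => hs i
    rw [div_pow, h1, div_eq_iff (pow_ne_zero 2 hm')]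
    exact_mod_cast he
  choose! r hr using hroot
  refine ⟨r, ?_, ?_, ?_, hr, ?_⟩
  · intro X hX l hl
    obtain ⟨T, rfl⟩ := mem_HH.1 hX
    exact ⟨(mem_sf.1 hl).1, hp T l hl⟩
  · refine mem_HH.2 ⟨∅, ?_⟩
    rw [Finset.prod_empty, sf_one]
  · intro X hX X' hX'
    obtain ⟨T, rfl⟩ := mem_HH.1 hX
    obtain ⟨T', rfl⟩ := mem_HH.1 hX'
    exact mem_HH.2 ⟨symmDiff T T', (sf_sd hd T T').symm⟩
  · intro K hK
    refine hgen K fun i => ?_
    have hX : sf (d i) ∈ HH d := mem_HH.2 ⟨{i}, by rw [Finset.prod_singleton]⟩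
    obtain ⟨m, hm, he⟩ := prod_sf (hd i)
    have h1 : s i ^ 2 = (r (sf (d i)) * m) ^ 2 := by
      rw [hs, mul_pow, hr _ hX]
      exact_mod_cast he
    have hmem : r (sf (d i)) * m ∈ K := mul_mem (hK _ hX) (natCast_mem K m)
    rcases sq_eq_sq_iff_eq_or_eq_neg.1 h1 with h2 | h2
    · rw [h2]
      exact hmem
    · rw [h2]
      exact neg_mem hmem

end Run7.h359.FE
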