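import Pool.Agent.Run7.h359.Ivr
import Pool.Agent.Run7.h359.Sqf
import Pool.Agent.Run7.h359.Lf
import Pool.Agent.Run7.h401.MQ.Lf

/-!
# The local factors of higher weight over a multiquadratic field
-/

set_option autoImplicit false
set_option linter.unusedSectionVars false

namespace Run7.h359.FE

open Pool.Agent.Y698 Pool.Agent.Y698.SG
open H667R3 Pool.Agent.W192.HK
open NumberField IsDedekindDomain WeierstrassCurve Pool.Agent.W189.NF
open Pool.Agent.H921R2.TatePole Pool.Agent.H82R3.EK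
open W165.CE (pw pw_eq pw_luc)
open Run7.h401.Fl (MQ ff ee ch ch_sq ch_mem)
open scoped symmDiff

lemma norm_coe (x : RR) : ‖(x : ℂ)‖ ^ 2 = (nR x : ℝ) := by
  rw [← Complex.normSq_eq_norm_sq, normSq_coe]

lemma norm_psi {g : RR} {p : ℕ} (hg : nR g = p) : ‖psi (sp g)‖ ≤ Real.sqrt p := by
  rw [psi_sp, norm_mul]
  have h1 := e7_Eo.bd g
  have h2 : ‖(g : ℂ)‖ = Real.sqrt p := by
    rw [← Real.sqrt_sq (norm_nonneg (g : ℂ)), norm_coe, hg]
    simp
  rw [h2]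
  exact mul_le_of_le_one_left (Real.sqrt_nonneg _) h1

/-- the roots -/
theorem roots_p (p : Nat.Primes) : ∃ α β : ℂ, α + β = bc p ∧ α * β = ec p ∧
    ‖α‖ ≤ Real.sqrt (p : ℕ) ∧ ‖β‖ ≤ Real.sqrt (p : ℕ) := by
  have hp := p.2
  by_cases h7 : (p : ℕ) = 7
  · have h2 := bc_seven 0
    rw [zero_add, pow_one] at h2
    refine ⟨0, 0, ?_, ?_, ?_, ?_⟩
    · rw [h7, h2, add_zero]
    · unfold ec
      rw [if_pos h7, mul_zero]
    · rw [norm_zero]; exact Real.sqrt_nonneg _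
    · rw [norm_zero]; exact Real.sqrt_nonneg _
  · rcases irr_or_norm hp with hirr | ⟨g, hg⟩
    · have hs : (Real.sqrt (p : ℕ)) ^ 2 = ((p : ℕ) : ℝ) := Real.sq_sqrt (Nat.cast_nonneg _)
      have hsc : ((Real.sqrt (p : ℕ) : ℝ) : ℂ) ^ 2 = ((p : ℕ) : ℂ) := by
        rw [← Complex.ofReal_pow, hs]
        simp
      refine ⟨Real.sqrt (p : ℕ) * Complex.I, -(Real.sqrt (p : ℕ) * Complex.I), ?_, ?_, ?_, ?_⟩
      · rw [(bc_inert hirr hp).1, add_neg_cancel]
      · unfold ec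
        rw [if_neg h7, ← hsc]
        linear_combination -((Real.sqrt (p : ℕ) : ℝ) : ℂ) ^ 2 * Complex.I_sq
      · rw [norm_mul, Complex.norm_I, mul_one, Complex.norm_real, Real.norm_eq_abs,
          abs_of_nonneg (Real.sqrt_nonneg _)]
      · rw [norm_neg, norm_mul, Complex.norm_I, mul_one, Complex.norm_real, Real.norm_eq_abs,
          abs_of_nonneg (Real.sqrt_nonneg _)]
    · have hne := sp_cj_ne hp h7 hg
      have hcg : nR (cj g) = (p : ℕ) := by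
        rw [← hg]
        have h1 := norm_coe (cj g)
        have h2 := norm_coe g
        rw [cj_coe, Complex.norm_conj, h2] at h1
        exact_mod_cast h1.symm
      refine ⟨psi (sp g), psi (sp (cj g)), ((bc_split hp hg hne).1).symm, ?_, norm_psi hg,
        norm_psi hcg⟩
      unfold ec
      rw [if_neg h7, ← psi_mul, Ideal.span_singleton_mul_span_singleton]
      have h1 : g * cj g = ((p : ℕ) : RR) := by
        rw [mul_cj, hg]
        norm_cast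
      rw [h1, psi_sp, e7_split hp h7 hg, one_mul]
      push_cast
      rfl

/-! ### the places above a prime -/

lemma cur_EX {k : Type*} [Field k] [CharZero k] (j : k) : EX k j = cur (1 + 4 * j) := by
  unfold EX cur
  ext
  · rfl
  · show -(1 + 3 * j) = -((3 * (1 + 4 * j) + 1) / 4)
    field_simp
    ring
  · rfl
  · rfl
  · rfl

section

variable {F : Type} [Field F] [NumberField F] {H : Finset (Finset ℕ)} {r : Finset ℕ → F}

/-- the product of the symbols -/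
noncomputable def xx (S : Finset ℕ) (q : ℕ) : ℂ := ∏ p ∈ S, qch p (q : ℤ)

lemma qch_self {p : ℕ} (hp : p.Prime) : qch p (p : ℤ) = 0 := by
  rcases qch_val hp (p : ℤ) with h | h
  · exact h.2
  · exact absurd dvd_rfl h.1

lemma qch_sq' {p q : ℕ} (hp : p.Prime) (hq : q.Prime) (h : p ≠ q) : qch p (q : ℤ) ^ 2 = 1 := by
  rcases qch_val hp (q : ℤ) with h1 | h1
  · exact absurd ((Nat.prime_dvd_prime_iff_eq hp hq).1 (by exact_mod_cast h1.1)) h
  · rcases h1.2 with h2 | h2 <;> rw [h2] <;> norm_num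

lemma xx_zero {S : Finset ℕ} {q : ℕ} (hq : q.Prime) (h : q ∈ S) : xx S q = 0 :=
  Finset.prod_eq_zero h (qch_self hq)

lemma xx_sq {S : Finset ℕ} (hS : ∀ p ∈ S, p.Prime) {q : ℕ} (hq : q.Prime) (h : q ∉ S) :
    xx S q ^ 2 = 1 := by
  unfold xx
  rw [← Finset.prod_pow]
  refine Finset.prod_eq_one fun p hp => qch_sq' (hS p hp) hq ?_
  rintro rfl
  exact h hp

lemma xx_or {S : Finset ℕ} (hS : ∀ p ∈ S, p.Prime) {q : ℕ} (hq : q.Prime) :
    xx S q = 0 ∨ xx S q ^ 2 = 1 := by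
  by_cases h : q ∈ S
  · exact Or.inl (xx_zero hq h)
  · exact Or.inr (xx_sq hS hq h)

lemma xx_sd {S T : Finset ℕ} (hS : ∀ p ∈ S, p.Prime) {q : ℕ} (hq : q.Prime) (h : q ∉ S ∨ q ∉ T) :
    xx (symmDiff S T) q = xx S q * xx T q := by
  have e1 : xx S q = (∏ p ∈ S \ T, qch p (q : ℤ)) * ∏ p ∈ S ∩ T, qch p (q : ℤ) := by
    unfold xx
    rw [← Finset.prod_union (Finset.disjoint_sdiff_inter S T), Finset.sdiff_union_inter]
  have e2 : xx T q = (∏ p ∈ T \ S, qch p (q : ℤ)) * ∏ p ∈ S ∩ T, qch p (q : ℤ) := by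
    unfold xx
    rw [Finset.inter_comm, ← Finset.prod_union (Finset.disjoint_sdiff_inter T S),
      Finset.sdiff_union_inter]
  have e3 : xx (symmDiff S T) q = (∏ p ∈ S \ T, qch p (q : ℤ)) * ∏ p ∈ T \ S, qch p (q : ℤ) := by
    unfold xx
    have e : symmDiff S T = (S \ T) ∪ (T \ S) := rfl
    rw [e, Finset.prod_union disjoint_sdiff_sdiff]
  have e4 : (∏ p ∈ S ∩ T, qch p (q : ℤ)) * (∏ p ∈ S ∩ T, qch p (q : ℤ)) = 1 := by
    rw [← pow_two, ← Finset.prod_pow]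
    refine Finset.prod_eq_one fun p hp => qch_sq' (hS p (Finset.mem_inter.1 hp).1) hq ?_
    rintro rfl
    rw [Finset.mem_inter] at hp
    tauto
  rw [e1, e2, e3]
  linear_combination (-((∏ p ∈ S \ T, qch p (q : ℤ)) * ∏ p ∈ T \ S, qch p (q : ℤ))) * e4

/-- the symbol of the field -/
lemma xx_ch {T : Finset ℕ} (hT : ∀ l ∈ T, l.Prime ∧ l % 4 = 1) (q : ℕ) : xx T q = (ch T q : ℂ) := by
  unfold xx
  rw [Pool.Agent.Y698.SG.eps_eq (fun l hl => ⟨(hT l hl).1, (hT l hl).2⟩)]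
  rfl

/-- the coefficients at a place: the curve may be replaced by a twist -/
theorem co_pl (h : MQ F H r) {M : ℕ} (hM : M ≠ 0) (h4 : ∀ p ∈ sf M, p % 4 = 1)
    {X0 : Finset ℕ} (hX0 : X0 ∈ H) (v : HeightOneSpectrum (𝓞 F))
    (hq : (below v : ℕ) ∉ symmDiff (sf M) X0 ∨ ∀ X ∈ H, (below v : ℕ) ∉ X) :
    ((aV (cur (M : F)) v : ℤ) : ℂ) = xx (symmDiff (sf M) X0) (below v : ℕ) ^ deg v *
      pw (bc (below v : ℕ)) (ec (below v : ℕ)) (deg v) ∧
    ((eV (cur (M : F)) v : ℤ) : ℂ) =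
      (xx (symmDiff (sf M) X0) (below v : ℕ) ^ 2 * ec (below v : ℕ)) ^ deg v := by
  classical
  set S := symmDiff (sf M) X0 with hS
  have hSp : ∀ p ∈ S, p.Prime ∧ p % 4 = 1 := by
    intro p hp
    rw [hS, Finset.mem_symmDiff] at hp
    rcases hp with hp | hp
    · exact ⟨(mem_sf.1 hp.1).1, h4 p hp.1⟩
    · exact h.pr X0 hX0 p hp.1
  have hmod := Run7.h401.Fl.prod_mod_four hSp
  obtain ⟨j, hj⟩ : ∃ j, ∏ p ∈ S, p = 1 + 4 * j := ⟨(∏ p ∈ S, p) / 4, by omega⟩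
  obtain ⟨m, hm, hMe⟩ := prod_sf hM
  have hr := h.sq X0 hX0
  have hr0 := h.r_ne hX0
  have hm' : (m : F) ≠ 0 := Nat.cast_ne_zero.2 hm
  have hi0 : ((∏ l ∈ sf M ∩ X0, l : ℕ) : F) ≠ 0 := by
    refine Nat.cast_ne_zero.2 (Finset.prod_ne_zero_iff.2 fun l hl => ?_)
    exact (mem_sf.1 (Finset.mem_inter.1 hl).1).1.ne_zero
  -- the relation between the two numbers
  have e1 : ∏ l ∈ sf M, l = (∏ l ∈ sf M \ X0, l) * ∏ l ∈ sf M ∩ X0, l := by
    rw [← Finset.prod_union (Finset.disjoint_sdiff_inter _ _), Finset.sdiff_union_inter]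
  have e2 : ∏ l ∈ X0, l = (∏ l ∈ X0 \ sf M, l) * ∏ l ∈ sf M ∩ X0, l := by
    rw [Finset.inter_comm, ← Finset.prod_union (Finset.disjoint_sdiff_inter _ _),
      Finset.sdiff_union_inter]
  have e3 : ∏ l ∈ S, l = (∏ l ∈ sf M \ X0, l) * ∏ l ∈ X0 \ sf M, l := by
    rw [hS]
    have e : symmDiff (sf M) X0 = (sf M \ X0) ∪ (X0 \ sf M) := rfl
    rw [e, Finset.prod_union disjoint_sdiff_sdiff]
  have hrel : ((∏ l ∈ S, l : ℕ) : F) = (r X0 / (m * ((∏ l ∈ sf M ∩ X0, l : ℕ) : F))) ^ 2 * (M : F) := by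
    have hMF : (M : F) = ((∏ l ∈ sf M, l : ℕ) : F) * (m : F) ^ 2 := by exact_mod_cast congrArg (fun x : ℕ => (x : F)) hMe
    rw [div_pow, hr, hMF, e1, e2, e3]
    push_cast at hi0 ⊢
    field_simp
  have hy : r X0 / (m * ((∏ l ∈ sf M ∩ X0, l : ℕ) : F)) ≠ 0 := div_ne_zero hr0 (mul_ne_zero hm' hi0)
  obtain ⟨l1, l2⟩ := loc_inv v hy hrel
  have hE : cur (((∏ l ∈ S, l : ℕ)) : F) = EX F (j : F) := by
    rw [cur_EX, hj]
    push_cast
    rfl
  rw [hE] at l1 l2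
  have h7 : (below v : ℕ) = 7 → v.valuation F ((7 : ℕ) : F) = WithZero.exp (-1 : ℤ) := by
    intro hv
    refine h.val_one v hv fun T hT h7 => ?_
    have := (h.pr T hT 7 h7).2
    norm_num at this
  obtain ⟨c1, c2⟩ := coeffsD v (S := S) (fun q hq => ⟨(hSp q hq).1, (hSp q hq).2⟩) hj h7
    (fun q hqS hv => by
      rcases hq with hq | hq
      · exact absurd (hv ▸ hqS) hq
      · exact h.val_one v hv fun T hT hqT => hq T hT (hv ▸ hqT))
  rw [l1, l2]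
  exact ⟨c1, c2⟩

end

end Run7.h359.FE
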