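import Pool.Agent.Run7.h359.Plf

/-!
# The Euler products of higher weight over a multiquadratic field
-/

set_option autoImplicit false
set_option linter.unusedSectionVars false

namespace Run7.h359.FE

open Pool.Agent.Y698 Pool.Agent.Y698.SG
open NumberField IsDedekindDomain WeierstrassCurve Pool.Agent.W189.NF
open Pool.Agent.H921R2.TatePole Pool.Agent.H82R3.EK
open W165.CE (pw pw_eq pw_luc)
open Run7.h401.Fl (MQ ff ee ch)
open Run7.h359.EU (pw_smul)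
open scoped symmDiff

section

variable {F : Type} [Field F] [NumberField F] {H : Finset (Finset ℕ)} {r : Finset ℕ → F}

/-- the Euler factor of weight `n + 1` -/
noncomputable def facF (W : WeierstrassCurve F) (n : ℕ) (z : ℂ) (v : HeightOneSpectrum (𝓞 F)) : ℂ :=
  (1 - pw (aV W v : ℂ) (eV W v : ℂ) n * (nm v : ℂ) ^ (-z) +
    (eV W v : ℂ) ^ n * ((nm v : ℂ) ^ (-z)) ^ 2)⁻¹

/-- power sums of powers -/
lemma pw_pow {t u : ℂ} (f n : ℕ) : pw (pw t u f) (u ^ f) n = pw t u (f * n) := by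
  obtain ⟨α, β, h1, h2⟩ : ∃ α β : ℂ, α + β = t ∧ α * β = u := by
    obtain ⟨α, hα⟩ := IsAlgClosed.exists_pow_nat_eq (t ^ 2 - 4 * u) (n := 2) (by norm_num)
    exact ⟨(t + α) / 2, (t - α) / 2, by ring, by linear_combination (-1 / 4 : ℂ) * hα⟩
  rw [pw_eq h1 h2 f, pw_eq (α := α ^ f) (β := β ^ f) rfl (by rw [← mul_pow, h2]) n,
    pw_eq h1 h2 (f * n), pow_mul, pow_mul]

/-- the factor in terms of the symbol -/
lemma fac_eq {W : WeierstrassCurve F} {v : HeightOneSpectrum (𝓞 F)} {x b e : ℂ} {f m q : ℕ}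
    (hx : x = 0 ∨ x ^ 2 = 1) (h1 : ((aV W v : ℤ) : ℂ) = x ^ f * pw b e f)
    (h2 : ((eV W v : ℤ) : ℂ) = (x ^ 2 * e) ^ f) (hn : nm v = q ^ f) (z : ℂ) :
    facF W (2 * m + 1) z v = (1 - x ^ f * pw b e (f * (2 * m + 1)) * ((q : ℂ) ^ (-z)) ^ f +
      (x ^ 2 * e ^ (2 * m + 1)) ^ f * (((q : ℂ) ^ (-z)) ^ f) ^ 2)⁻¹ := by
  have hxo : x ^ (2 * m + 1) = x := Run7.h359.BK.sgn_pow_odd hx m
  have e1 : pw (x ^ f * pw b e f) ((x ^ 2 * e) ^ f) (2 * m + 1) =
      x ^ f * pw b e (f * (2 * m + 1)) := by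
    have e2 : (x ^ 2 * e) ^ f = (x ^ f) ^ 2 * e ^ f := by
      rw [mul_pow, ← pow_mul, ← pow_mul, mul_comm 2 f]
    rw [e2, pw_smul, pw_pow, ← pow_mul, mul_comm f (2 * m + 1), pow_mul, hxo]
  have e3 : ((x ^ 2 * e) ^ f) ^ (2 * m + 1) = (x ^ 2 * e ^ (2 * m + 1)) ^ f := by
    rw [← pow_mul, mul_comm f, pow_mul, mul_pow]
    congr 2
    rw [← pow_mul, mul_comm 2, pow_mul, hxo]
  unfold facF
  rw [h1, h2, e1, e3, hn, Pool.Agent.W164.RC.pow_cpow']

/-- the choice of the twist -/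
lemma exists_X0 (h : MQ F H r) (S : Finset ℕ) (q : ℕ) :
    ∃ X0 ∈ H, q ∉ symmDiff S X0 ∨ ∀ X ∈ H, q ∉ X := by
  by_cases h1 : ∃ X ∈ H, q ∈ X
  · obtain ⟨X, hX, hq⟩ := h1
    by_cases h2 : q ∈ S
    · refine ⟨X, hX, Or.inl ?_⟩
      rw [Finset.mem_symmDiff]
      tauto
    · refine ⟨∅, h.emp, Or.inl ?_⟩
      have e : symmDiff S ∅ = S := symmDiff_bot S
      rwa [e]
  · refine ⟨∅, h.emp, Or.inr ?_⟩
    push Not at h1
    exact h1

/-- **the product over the places above a prime** -/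
theorem prod_pl (h : MQ F H r) {M : ℕ} (hM : M ≠ 0) (h4 : ∀ p ∈ sf M, p % 4 = 1) (m : ℕ) (z : ℂ)
    (q : Nat.Primes) :
    ∏ v : {v : HeightOneSpectrum (𝓞 F) // below v = q}, facF (cur (M : F)) (2 * m + 1) z v.1 =
      ∏ X ∈ H, (1 - xx (symmDiff (sf M) X) q * pw (bc q) (ec q) (2 * m + 1) * ((q : ℕ) : ℂ) ^ (-z) +
        xx (symmDiff (sf M) X) q ^ 2 * ec q ^ (2 * m + 1) * (((q : ℕ) : ℂ) ^ (-z)) ^ 2)⁻¹ := by
  classical
  obtain ⟨X0, hX0, hq⟩ := exists_X0 h (sf M) q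
  set S := symmDiff (sf M) X0 with hS
  have hSp : ∀ p ∈ S, p.Prime := by
    intro p hp
    rw [hS, Finset.mem_symmDiff] at hp
    rcases hp with hp | hp
    · exact (mem_sf.1 hp.1).1
    · exact (h.pr X0 hX0 p hp.1).1
  have hx := xx_or hSp q.2
  set a := pw (bc q) (ec q) (2 * m + 1) with ha
  set b := ec q ^ (2 * m + 1) with hb
  set Q := ((q : ℕ) : ℂ) ^ (-z) with hQ
  have hLF : ∀ v : {v : HeightOneSpectrum (𝓞 F) // below v = q},
      facF (cur (M : F)) (2 * m + 1) z v.1 = (1 - xx S q ^ (ff H q) *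
        pw (bc q) (ec q) (ff H q * (2 * m + 1)) * Q ^ (ff H q) +
        (xx S q ^ 2 * ec q ^ (2 * m + 1)) ^ (ff H q) * (Q ^ (ff H q)) ^ 2)⁻¹ := by
    rintro ⟨v, hv⟩
    have hvq : (below v : ℕ) = (q : ℕ) := by rw [hv]
    obtain ⟨c1, c2⟩ := co_pl h hM h4 hX0 v (by rw [hvq]; exact hq)
    rw [hvq, h.deg_eq v hvq] at c1 c2
    have hn : nm v = (q : ℕ) ^ (ff H q) := by
      rw [(nm_eq v).1, hvq, h.deg_eq v hvq]
    exact fac_eq hx c1 c2 hn z
  -- the other side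
  have hR : ∏ X ∈ H, (1 - xx (symmDiff (sf M) X) q * a * Q +
        xx (symmDiff (sf M) X) q ^ 2 * b * Q ^ 2)⁻¹ =
      (∏ T ∈ H, (1 - a * ((ch T q : ℂ) * (xx S q * Q)) + b * ((ch T q : ℂ) * (xx S q * Q)) ^ 2))⁻¹ := by
    rw [← Finset.prod_inv_distrib]
    refine Finset.prod_bij' (fun X _ => symmDiff X0 X) (fun X _ => symmDiff X0 X)
      (fun X hX => h.sd X0 hX0 X hX) (fun X hX => h.sd X0 hX0 X hX)
      (fun X _ => symmDiff_symmDiff_cancel_left X0 X) (fun X _ => symmDiff_symmDiff_cancel_left X0 X)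
      (fun X hX => ?_)
    have hT := h.sd X0 hX0 X hX
    have e1 : symmDiff (sf M) X = symmDiff S (symmDiff X0 X) := by
      rw [hS, symmDiff_assoc, symmDiff_symmDiff_cancel_left]
    have e2 : xx (symmDiff S (symmDiff X0 X)) q = xx S q * (ch (symmDiff X0 X) q : ℂ) := by
      rw [← xx_ch (h.pr _ hT)]
      refine xx_sd hSp q.2 ?_
      rcases hq with hq | hq
      · exact Or.inl hq
      · exact Or.inr (hq _ hT)
    rw [e1, e2]
    congr 1
    ring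
  rw [Finset.prod_congr rfl fun v _ => hLF v, Finset.prod_const, Finset.card_univ, hR,
    h.prod_quad q.2, inv_pow]
  have hcount := h.count q
  by_cases hf : ff H (q : ℕ) = 1
  · rw [if_pos hf, hf]
    rw [hf, mul_one] at hcount
    rw [← hcount, one_mul]
    congr 2
    rw [← ha, ← hb]
    ring
  · have hf2 : ff H (q : ℕ) = 2 := by
      unfold ff at hf ⊢
      split_ifs at hf ⊢ with h1
      · exact absurd rfl hf
      · rfl
    rw [if_neg hf, hf2]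
    rw [hf2] at hcount
    rw [← hcount, Nat.mul_div_cancel _ (by norm_num)]
    have e : pw (bc (q : ℕ)) (ec (q : ℕ)) (2 * (2 * m + 1)) = a * a - b * 2 := by
      rw [mul_comm 2 (2 * m + 1), ← pw_pow (2 * m + 1) 2]
      rfl
    rw [e, ← hb]
    congr 2
    ring

/-! ### Convergence -/

/-- the roots at a place -/
lemma roots_v (h : MQ F H r) {M : ℕ} (hM : M ≠ 0) (h4 : ∀ p ∈ sf M, p % 4 = 1)
    (v : HeightOneSpectrum (𝓞 F)) : ∃ α β : ℂ, α + β = aV (cur (M : F)) v ∧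
      α * β = eV (cur (M : F)) v ∧ ‖α‖ ≤ Real.sqrt (nm v) ∧ ‖β‖ ≤ Real.sqrt (nm v) := by
  obtain ⟨X0, hX0, hq⟩ := exists_X0 h (sf M) (below v : ℕ)
  obtain ⟨c1, c2⟩ := co_pl h hM h4 hX0 v hq
  obtain ⟨α, β, h1, h2, h3, h5⟩ := roots_p (below v)
  set x := xx (symmDiff (sf M) X0) (below v : ℕ) with hx
  have hxn : ‖x‖ ≤ 1 := by
    have hS : ∀ p ∈ symmDiff (sf M) X0, p.Prime := by
      intro p hp
      rw [Finset.mem_symmDiff] at hp
      rcases hp with hp | hp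
      · exact (mem_sf.1 hp.1).1
      · exact (h.pr X0 hX0 p hp.1).1
    rcases xx_or hS (below v).2 with h6 | h6
    · rw [hx, h6, norm_zero]
      exact zero_le_one
    · rcases sq_eq_one_iff.1 h6 with h7 | h7 <;> rw [hx, h7]
      · rw [norm_one]
      · rw [norm_neg, norm_one]
  have hn : Real.sqrt (nm v) = Real.sqrt ((below v : ℕ) : ℝ) ^ deg v := by
    rw [(nm_eq v).1]
    push_cast
    rw [Real.sqrt_eq_rpow, Real.sqrt_eq_rpow, ← Real.rpow_natCast, ← Real.rpow_natCast,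
      ← Real.rpow_mul (Nat.cast_nonneg _), ← Real.rpow_mul (Nat.cast_nonneg _), mul_comm]
  refine ⟨(x * α) ^ deg v, (x * β) ^ deg v, ?_, ?_, ?_, ?_⟩
  · rw [c1, mul_pow, mul_pow, ← mul_add, pw_eq h1 h2]
  · rw [c2, ← h2, ← mul_pow]
    congr 1
    ring
  · rw [norm_pow, hn, norm_mul]
    exact pow_le_pow_left₀ (by positivity) ((mul_le_of_le_one_left (norm_nonneg _) hxn).trans h3) _
  · rw [norm_pow, hn, norm_mul]
    exact pow_le_pow_left₀ (by positivity) ((mul_le_of_le_one_left (norm_nonneg _) hxn).trans h5) _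

lemma fac_bound {A B : ℂ} {y : ℝ} (hA : ‖A‖ ≤ y) (hB : ‖B‖ ≤ y) (hy : y ≤ 1 / 2) :
    ‖(1 - (A + B) + A * B)⁻¹ - 1‖ ≤ 10 * y := by
  have hy0 : 0 ≤ y := (norm_nonneg A).trans hA
  have e : 1 - (A + B) + A * B = (1 - A) * (1 - B) := by ring
  have hlow : ∀ C : ℂ, ‖C‖ ≤ y → 1 / 2 ≤ ‖1 - C‖ := by
    intro C hC
    have h1 := norm_sub_norm_le (1 : ℂ) C
    rw [norm_one] at h1
    linarith
  have hA' := hlow A hA
  have hB' := hlow B hB
  have hA0 : 1 - A ≠ 0 := by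
    intro h
    rw [h, norm_zero] at hA'
    linarith
  have hB0 : 1 - B ≠ 0 := by
    intro h
    rw [h, norm_zero] at hB'
    linarith
  have e2 : (1 - (A + B) + A * B)⁻¹ - 1 = (A + B - A * B) * ((1 - A)⁻¹ * (1 - B)⁻¹) := by
    rw [e]
    field_simp
    ring
  rw [e2, norm_mul, norm_mul, norm_inv, norm_inv]
  have h1 : ‖A + B - A * B‖ ≤ 5 / 2 * y := by
    calc ‖A + B - A * B‖ ≤ ‖A‖ + ‖B‖ + ‖A‖ * ‖B‖ := by
          refine (norm_sub_le _ _).trans ?_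
          rw [norm_mul]
          gcongr
          exact norm_add_le _ _
      _ ≤ y + y + y * (1 / 2) := by
          gcongr
          exact hB.trans hy
      _ = 5 / 2 * y := by ring
  have h2 : ‖1 - A‖⁻¹ ≤ 2 := by
    rw [inv_le_comm₀ (by linarith) (by norm_num)]
    linarith
  have h3 : ‖1 - B‖⁻¹ ≤ 2 := by
    rw [inv_le_comm₀ (by linarith) (by norm_num)]
    linarith
  calc ‖A + B - A * B‖ * (‖1 - A‖⁻¹ * ‖1 - B‖⁻¹) ≤ 5 / 2 * y * (2 * 2) := by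
        gcongr
    _ = 10 * y := by ring

/-- absolute convergence -/
theorem mult_pl (h : MQ F H r) {M : ℕ} (hM : M ≠ 0) (h4 : ∀ p ∈ sf M, p % 4 = 1) (n : ℕ) {z : ℂ}
    (hz : (n : ℝ) / 2 + 1 < z.re) : Multipliable (facF (cur (M : F)) n z) := by
  have hs := (nm_summable (K := F) (x := z.re - n / 2) (by linarith)).mul_left 10
  have hb : ∀ v : HeightOneSpectrum (𝓞 F), ‖facF (cur (M : F)) n z v - 1‖ ≤
      10 * (nm v : ℝ) ^ (-(z.re - n / 2)) := by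
    intro v
    obtain ⟨α, β, h1, h2, h3, h5⟩ := roots_v h hM h4 v
    have hq2 : (2 : ℝ) ≤ nm v := by exact_mod_cast two_le_nm v
    have hq0 : (0 : ℝ) < nm v := by linarith
    have hN : ‖((nm v : ℕ) : ℂ) ^ (-z)‖ = (nm v : ℝ) ^ (-z.re) := by
      rw [Complex.norm_natCast_cpow_of_pos (by have := two_le_nm v; omega), Complex.neg_re]
    have hbd : ∀ γ : ℂ, ‖γ‖ ≤ Real.sqrt (nm v) →
        ‖γ ^ n * ((nm v : ℕ) : ℂ) ^ (-z)‖ ≤ (nm v : ℝ) ^ (-(z.re - n / 2)) := by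
      intro γ hγ
      rw [norm_mul, norm_pow, hN]
      have e : (nm v : ℝ) ^ (-(z.re - n / 2)) = Real.sqrt (nm v) ^ n * (nm v : ℝ) ^ (-z.re) := by
        rw [Real.sqrt_eq_rpow, ← Real.rpow_natCast, ← Real.rpow_mul hq0.le, ← Real.rpow_add hq0]
        congr 1
        ring
      rw [e]
      gcongr
    have hy : (nm v : ℝ) ^ (-(z.re - n / 2)) ≤ 1 / 2 := by
      calc (nm v : ℝ) ^ (-(z.re - n / 2)) ≤ (nm v : ℝ) ^ (-1 : ℝ) :=
            Real.rpow_le_rpow_of_exponent_le (by linarith) (by linarith)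
        _ = (nm v : ℝ)⁻¹ := Real.rpow_neg_one _
        _ ≤ 2⁻¹ := inv_anti₀ (by norm_num) hq2
        _ = 1 / 2 := by norm_num
    have h6 := fac_bound (hbd α h3) (hbd β h5) hy
    have e : facF (cur (M : F)) n z v = (1 - (α ^ n * ((nm v : ℕ) : ℂ) ^ (-z) +
        β ^ n * ((nm v : ℕ) : ℂ) ^ (-z)) + α ^ n * ((nm v : ℕ) : ℂ) ^ (-z) *
        (β ^ n * ((nm v : ℕ) : ℂ) ^ (-z)))⁻¹ := by
      unfold facF
      rw [pw_eq h1 h2, ← h2]
      congr 1
      ring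
    rw [e]
    exact h6
  have h7 : Summable fun v : HeightOneSpectrum (𝓞 F) => ‖facF (cur (M : F)) n z v - 1‖ :=
    Summable.of_nonneg_of_le (fun v => norm_nonneg _) hb hs
  have h8 := multipliable_one_add_of_summable h7
  convert h8 using 2 with v
  ring

/-- **The Euler product over the places of the field.** -/
theorem hasProd_pl (h : MQ F H r) {M : ℕ} (hM : M ≠ 0) (h4 : ∀ p ∈ sf M, p % 4 = 1) (m : ℕ) {z : ℂ}
    (hz : ((2 * m + 1 : ℕ) : ℝ) / 2 + 1 < z.re) {G : Finset ℕ → ℂ}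
    (hG : ∀ X ∈ H, HasProd (fun p : Nat.Primes =>
      (1 - xx (symmDiff (sf M) X) p * pw (bc p) (ec p) (2 * m + 1) * ((p : ℕ) : ℂ) ^ (-z) +
      xx (symmDiff (sf M) X) p ^ 2 * ec p ^ (2 * m + 1) * (((p : ℕ) : ℂ) ^ (-z)) ^ 2)⁻¹) (G X)) :
    HasProd (facF (cur (M : F)) (2 * m + 1) z) (∏ X ∈ H, G X) := by
  classical
  have h1 : HasProd (fun q : Nat.Primes => ∏ X ∈ H,
      (1 - xx (symmDiff (sf M) X) q * pw (bc q) (ec q) (2 * m + 1) * ((q : ℕ) : ℂ) ^ (-z) +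
      xx (symmDiff (sf M) X) q ^ 2 * ec q ^ (2 * m + 1) * (((q : ℕ) : ℂ) ^ (-z)) ^ 2)⁻¹)
      (∏ X ∈ H, G X) := hasProd_prod hG
  simp_rw [← prod_pl h hM h4 m z] at h1
  have h2 := (mult_pl h hM h4 (2 * m + 1) hz).hasProd
  have h3 := (Equiv.sigmaFiberEquiv (below (K := F))).hasProd_iff.2 h2
  have h5 := h3.sigma (g := fun q : Nat.Primes =>
    ∏ v : {v : HeightOneSpectrum (𝓞 F) // below v = q}, facF (cur (M : F)) (2 * m + 1) z v.1)
    (fun q => hasProd_fintype _)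
  rw [h1.unique h5]
  exact h2

end

end Run7.h359.FE
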