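import Pool.Agent.Run7.h359.Cng

/-!
# Reduction of the polynomials, and the pointwise congruence
-/

set_option autoImplicit false
set_option linter.unusedSectionVars false

open Filter MvPolynomial
open scoped Topology PeriodPair

namespace Run7.h359.BK

open H667R3 Pool.Agent.TH936.CM Pool.Agent.TH936.PU
open Pool.Agent.W192.HK (sp)
open Pool.Agent.Y698 (al bl RR aR bR tA tB al_ne bl_ne al_mul_bl al_sq tA_mem tB_mem two_tA two_tB
  tA_notMem tB_notMem tC_notMem roots_dist LD aR_coe bR_coe ker_al ker_bl isLat_neg_mem al_im_pos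
  Tb v_two v_bl v_two_lt two_coe aR_mul_bR qr fin_quot)

section base

variable {R S : Type*} [CommRing R] [CommRing S] (f : R →+* S)

lemma D_C {n : ℕ} (D : Derivation R (MvPolynomial (Fin n) R) (MvPolynomial (Fin n) R)) (a : R) :
    D (C a) = 0 := by
  have := D.map_algebraMap a
  rwa [MvPolynomial.algebraMap_eq] at this

lemma map_D {n : ℕ} (D : Derivation R (MvPolynomial (Fin n) R) (MvPolynomial (Fin n) R))
    (D' : Derivation S (MvPolynomial (Fin n) S) (MvPolynomial (Fin n) S))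
    (hX : ∀ i, map f (D (X i)) = D' (X i)) (P : MvPolynomial (Fin n) R) :
    map f (D P) = D' (map f P) := by
  induction P using MvPolynomial.induction_on with
  | C a => rw [D_C, map_C, D_C, map_zero]
  | add P Q hP hQ => simp only [map_add, hP, hQ]
  | mul_X P i hP =>
    rw [Derivation.leibniz, map_mul, Derivation.leibniz]
    simp only [smul_eq_mul, map_add, map_mul, hP, hX, map_X]

lemma map_DW (P : P6 R) : map f (DW R P) = DW S (map f P) := by
  refine map_D f (DW R) (DW S) (fun i => ?_) P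
  unfold DW
  rw [mkDerivation_X, mkDerivation_X]
  fin_cases i
  · simp
  · simp
  · simp
  · simp [map_ofNat]
  · simp [map_ofNat]
  · simp [map_ofNat]

lemma map_DZ (P : P6 R) : map f (DZ R P) = DZ S (map f P) := by
  refine map_D f (DZ R) (DZ S) (fun i => ?_) P
  unfold DZ
  rw [mkDerivation_X, mkDerivation_X]
  fin_cases i
  · simp
  · simp [map_ofNat]
  · simp [map_ofNat]
  · simp [map_ofNat]
  · simp
  · simp

lemma map_Pe (e : ℕ) : map f (Pe R e) = Pe S e := by
  induction e with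
  | zero => simp [Pe]
  | succ e ih =>
    unfold Pe at ih ⊢
    rw [Function.iterate_succ_apply', Function.iterate_succ_apply', nW_apply, nW_apply, map_add,
      map_mul, map_DW, ih]
    simp

lemma map_dZ (u a : R) (P : P6 R) (n : ℕ) :
    map f ((dZ R u a)^[n] P) = (dZ S (f u) (f a))^[n] (map f P) := by
  induction n with
  | zero => rfl
  | succ n ih =>
    rw [Function.iterate_succ_apply', Function.iterate_succ_apply', ← ih]
    unfold dZ
    rw [tZ_apply, tZ_apply, map_add, smul_eq_C_mul, smul_eq_C_mul, smul_eq_C_mul, smul_eq_C_mul,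
      map_mul, map_mul, map_add, map_mul, map_DZ, map_C, map_C, map_X]

lemma eval_cast {n : ℕ} (g : Fin n → R) (P : MvPolynomial (Fin n) R) :
    eval (fun i => f (g i)) (map f P) = f (eval g P) := by
  induction P using MvPolynomial.induction_on with
  | C a => simp
  | add P Q hP hQ => simp only [map_add, hP, hQ]
  | mul_X P i hP => simp only [map_mul, hP, map_X, eval_X]

lemma eval_sp3 (F x y Λ X' Y' : R) (P : P6 R) :
    eval ![F, x, y, Λ, X', Y'] P = eval ![Λ, X', Y'] (sp3 F x y P) := by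
  induction P using MvPolynomial.induction_on with
  | C a => simp [sp3]
  | add P Q hP hQ => simp only [map_add, hP, hQ]
  | mul_X P i hP =>
    rw [map_mul, map_mul, map_mul, hP]
    congr 1
    fin_cases i <;> simp [sp3]

end base

variable {L : PeriodPair} {Ω p q : ℂ} {Γ : Type*} [LinearOrderedCommGroupWithZero Γ]
  {v : Valuation ℂ Γ}

/-- the pointwise congruence -/
theorem v_H (h : LD L Ω) (hpq : ∀ l ∈ L.lattice, eta L l = p * l + q * (starRingEnd ℂ) l)
    (hv : v al < 1) (hk : HKr L Ω p q) {z : ℂ} (hz : Od L z) (j : ℕ) :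
    v (Xe L Ω p q (2 * (j + 1)) (bl * z) - uu ^ (2 * (j + 1)) *
      (kap L p q (tB Ω) (bl * z) - uu * kap L p q (tB Ω) z)) ≤ v 4 := by
  have hL := h.lat
  have hw := hz.bl hL
  have t2 := v_two_lt hv
  set e := 2 * (j + 1) with he
  set w := bl * z with hwd
  have iF := v_Fz h hpq hv hw
  have ix := v_xc h hv (hw.tb hv)
  have iy := v_yc h hv (hw.tb hv)
  have iL := v_Lc h hv hw
  have iX : v (xc L (tB Ω)) ≤ 1 := v_xc h hv (tb_tB hL hv)
  have iY : v (yc L (tB Ω)) ≤ 1 := v_yc h hv (tb_tB hL hv)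
  set F : v.integer := ⟨Fz L p q w, iF⟩ with hFd
  set x : v.integer := ⟨xc L w, ix⟩ with hxd
  set y : v.integer := ⟨yc L w, iy⟩ with hyd
  set Λ : v.integer := ⟨Lc L w (tB Ω), iL⟩ with hLd
  set X' : v.integer := ⟨xc L (tB Ω), iX⟩ with hXd
  set Y' : v.integer := ⟨yc L (tB Ω), iY⟩ with hYd
  set u : v.integer := ⟨uu, (v_uu hv).le⟩ with hud
  set a : v.integer := ⟨al, hv.le⟩ with had
  set b : v.integer := ⟨bl, (v_bl hv).le⟩ with hbd
  have hab : a * b = 2 := by
    apply Subtype.ext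
    exact al_mul_bl
  set g : Fin 6 → v.integer := ![F, x, y, Λ, X', Y'] with hg
  set ι : v.integer →+* ℂ := v.integer.subtype with hι
  have hgp : (fun i => ι (g i)) = pt6 L p q ((starRingEnd ℂ) w) w (tB Ω) := by
    funext i
    unfold pt6
    fin_cases i <;> rfl
  have hm : ∃ m : v.integer, F ^ 2 - F - x + 1 = 2 * m := by
    have h1 := v_N h hpq hv hk hz
    refine ⟨⟨(Fz L p q w ^ 2 - Fz L p q w - xc L w + 1) / 2, ?_⟩, ?_⟩
    · show v _ ≤ 1
      rw [map_div₀]
      exact div_le_one_of_le₀ h1 zero_le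
    · apply Subtype.ext
      show Fz L p q w ^ 2 - Fz L p q w - xc L w + 1 =
        2 * ((Fz L p q w ^ 2 - Fz L p q w - xc L w + 1) / 2)
      ring
  obtain ⟨m, hm⟩ := hm
  obtain ⟨k, hk1⟩ := Pe_even (y := y) hm j
  obtain ⟨r, hr⟩ := expand_even (tZ v.integer) u a b hab (dZ v.integer u a) (fun f => rfl)
    (Pe v.integer e) (e := e) ⟨j + 1, by rw [he]; ring⟩
  -- the value of the polynomial
  have h2 : eval g (Pe v.integer e) = (F ^ 2 + 2 * F * Λ - Λ + 2 * X' + x - 1) +
      4 * eval ![Λ, X', Y'] k := by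
    rw [hg, eval_sp3, he, hk1, map_add, ← eval_sp3, Pe_two]
    have e1 : eval ![Λ, X', Y'] ((4 : ℤ) • k) = 4 * eval ![Λ, X', Y'] k := by
      rw [zsmul_eq_mul, map_mul]
      simp
    rw [e1]
    congr 1
    simp [map_ofNat]
  have h3 : Xe L Ω p q e w = ((u : ℂ) ^ e * ((F ^ 2 + 2 * F * Λ - Λ + 2 * X' + x - 1 : v.integer) +
      4 * (eval ![Λ, X', Y'] k : v.integer)) + (a : ℂ) ^ 2 * (eval g r : v.integer)) *
      kap L p q (tB Ω) w := by
    unfold Xe
    congr 1
    have e1 : Pe ℂ e = map ι (Pe v.integer e) := (map_Pe ι e).symm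
    have e2 : (al / 2 : ℂ) = ι u := rfl
    have e3 : al = ι a := rfl
    have e4 : (dZ ℂ (al / 2) al)^[e] (Pe ℂ e) = map ι ((dZ v.integer u a)^[e] (Pe v.integer e)) := by
      rw [map_dZ, e1]
      rfl
    rw [e4, ← hgp, eval_cast, hr, map_add, smul_eval, smul_eval, h2]
    rfl
  have h4 := v_E h hpq hv hk hz
  rw [← hwd] at h4
  have h5 : Xe L Ω p q e w - uu ^ e * (kap L p q (tB Ω) w - uu * kap L p q (tB Ω) z) =
      uu ^ e * ((Fz L p q w ^ 2 + 2 * Fz L p q w * Lc L w (tB Ω) -
      Lc L w (tB Ω) + 4 * uu ^ 3 + xc L w - 2) * kap L p q (tB Ω) w +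
      uu * kap L p q (tB Ω) z) +
      (uu ^ e * (4 * ((eval ![Λ, X', Y'] k : v.integer) : ℂ)) +
        al ^ 2 * ((eval g r : v.integer) : ℂ)) * kap L p q (tB Ω) w := by
    rw [h3]
    have e5 : ((F ^ 2 + 2 * F * Λ - Λ + 2 * X' + x - 1 : v.integer) : ℂ) =
        Fz L p q w ^ 2 + 2 * Fz L p q w * Lc L w (tB Ω) - Lc L w (tB Ω) +
          2 * xc L (tB Ω) + xc L w - 1 := by
      push_cast
      rfl
    rw [e5, xB_eq h]
    show ((uu : ℂ) ^ e * _ + al ^ 2 * _) * _ - _ = _
    ring
  have v4 : v 4 = v 2 * v 2 := by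
    rw [← map_mul]
    norm_num
  have vk := v_kap h hpq hv hw
  rw [h5]
  refine v_add_le ?_ ?_
  · rw [map_mul, map_pow, v_uu hv, one_pow, one_mul]
    exact h4
  · rw [map_mul, vk, mul_one]
    refine v_add_le ?_ ?_
    · rw [map_mul, map_pow, v_uu hv, one_pow, one_mul, map_mul]
      exact mul_le_of_le_one_right zero_le (eval ![Λ, X', Y'] k).2
    · rw [map_mul, map_pow, ← v_two hv, v4, pow_two]
      exact mul_le_of_le_one_right zero_le (eval g r).2

end Run7.h359.BK
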