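import Pool.Agent.Run7.h359.Euk
import Pool.Agent.Y698.SG.Az
import Pool.Agent.Y698.SG.Inp

/-!
# The Euler products over the places of `ℚ`
-/

set_option autoImplicit false
set_option linter.unusedSectionVars false

namespace Run7.h359.EU

open Pool.Agent.Y698 Pool.Agent.Y698.SG
open NumberField IsDedekindDomain WeierstrassCurve Pool.Agent.W189.NF
open Pool.Agent.H921R2.TatePole
open W165.CE (pw pw_eq pw_luc)
open Run7.h359.BK (th)

/-- the ideal -/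
lemma rat_ideal (v : HeightOneSpectrum (𝓞 ℚ)) :
    v.asIdeal = Ideal.span {(((below v : ℕ) : 𝓞 ℚ))} ∧ nm v = (below v : ℕ) ∧ deg v = 1 := by
  obtain ⟨n1, n2, n3⟩ := nm_eq v
  have hp := (below v).2
  have h1 : Ideal.span {(((below v : ℕ) : 𝓞 ℚ))} ≤ v.asIdeal :=
    (Ideal.span_singleton_le_iff_mem _).2 n3
  have h2 : Ideal.absNorm (Ideal.span {(((below v : ℕ) : 𝓞 ℚ))}) = (below v : ℕ) := by
    rw [Ideal.absNorm_span_natCast, RingOfIntegers.rank, Module.finrank_self, pow_one]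
  have h3 : nm v ∣ (below v : ℕ) := by
    rw [← h2]
    exact Ideal.absNorm_dvd_absNorm_of_le h1
  have h4 : nm v = (below v : ℕ) := by
    rcases (Nat.dvd_prime hp).1 h3 with h5 | h5
    · exfalso
      rw [n1] at h5
      have := Nat.one_lt_pow n2.ne' hp.one_lt
      omega
    · exact h5
  refine ⟨?_, h4, ?_⟩
  · have h5 : Ideal.absNorm v.asIdeal = Ideal.absNorm (Ideal.span {(((below v : ℕ) : 𝓞 ℚ))}) := by
      rw [h2]
      exact h4
    obtain ⟨J, hJ⟩ := Ideal.dvd_iff_le.2 h1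
    have h6 : Ideal.absNorm J = 1 := by
      have h7 := congrArg Ideal.absNorm hJ
      rw [map_mul, ← h5] at h7
      have h8 : 0 < Ideal.absNorm v.asIdeal := by
        have : Ideal.absNorm v.asIdeal = (below v : ℕ) := h4
        rw [this]
        exact hp.pos
      have h9 : Ideal.absNorm v.asIdeal * 1 = Ideal.absNorm v.asIdeal * Ideal.absNorm J := by
        rw [mul_one]
        exact h7
      exact (Nat.eq_of_mul_eq_mul_left h8 h9).symm
    rw [Ideal.absNorm_eq_one_iff] at h6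
    rw [hJ, h6, Ideal.mul_top]
  · rw [h4] at n1
    have h5 : (below v : ℕ) ^ 1 = (below v : ℕ) ^ deg v := by rw [pow_one]; exact n1
    exact (Nat.pow_right_injective hp.two_le h5).symm

lemma rat_val (v : HeightOneSpectrum (𝓞 ℚ)) :
    v.valuation ℚ (((below v : ℕ)) : ℚ) = WithZero.exp (-1 : ℤ) := by
  have h1 := (rat_ideal v).1
  have h0 : (((below v : ℕ) : 𝓞 ℚ)) ≠ 0 := by
    exact_mod_cast (below v).2.ne_zero
  have h2 := v.intValuation_singleton h0 h1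
  have e : (((below v : ℕ)) : ℚ) = algebraMap (𝓞 ℚ) ℚ (((below v : ℕ) : 𝓞 ℚ)) :=
    (map_natCast _ _).symm
  rw [e, HeightOneSpectrum.valuation_of_algebraMap]
  exact h2

lemma rat_bij : Function.Bijective (below : HeightOneSpectrum (𝓞 ℚ) → Nat.Primes) := by
  constructor
  · intro v u h
    apply HeightOneSpectrum.ext
    rw [(rat_ideal v).1, (rat_ideal u).1, h]
  · intro p
    have hnu : Ideal.span {(((p : ℕ) : 𝓞 ℚ))} ≠ ⊤ := by
      intro h
      have h2 : Ideal.absNorm (Ideal.span {(((p : ℕ) : 𝓞 ℚ))}) = (p : ℕ) := by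
        rw [Ideal.absNorm_span_natCast, RingOfIntegers.rank, Module.finrank_self, pow_one]
      rw [h, Ideal.absNorm_top] at h2
      exact p.2.one_lt.ne h2
    obtain ⟨m, hm, hle⟩ := Ideal.exists_le_maximal _ hnu
    have hpm : (((p : ℕ) : 𝓞 ℚ)) ∈ m := hle (Ideal.mem_span_singleton_self _)
    have hm0 : m ≠ ⊥ := by
      rintro rfl
      rw [Ideal.mem_bot] at hpm
      exact p.2.ne_zero (by exact_mod_cast hpm)
    refine ⟨⟨m, hm.isPrime, hm0⟩, ?_⟩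
    set v : HeightOneSpectrum (𝓞 ℚ) := ⟨m, hm.isPrime, hm0⟩ with hv
    have h3 := (nm_eq v).2.2
    by_contra hne
    have hne' : (below v : ℕ) ≠ (p : ℕ) := fun h => hne (Subtype.ext h)
    have hcop : IsCoprime ((below v : ℕ) : ℤ) ((p : ℕ) : ℤ) :=
      Nat.isCoprime_iff_coprime.2 ((Nat.coprime_primes (below v).2 p.2).2 hne')
    obtain ⟨s, t, hst⟩ := hcop
    apply hm.ne_top
    rw [Ideal.eq_top_iff_one]
    have e : (1 : 𝓞 ℚ) = (s : 𝓞 ℚ) * ((below v : ℕ) : 𝓞 ℚ) + (t : 𝓞 ℚ) * ((p : ℕ) : 𝓞 ℚ) := by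
      have := congrArg (fun z : ℤ => (z : 𝓞 ℚ)) hst
      push_cast at this
      exact this.symm
    rw [e]
    exact add_mem (Ideal.mul_mem_left _ _ h3) (Ideal.mul_mem_left _ _ hpm)

/-- homogeneity of the power sums -/
lemma pw_smul (x t u : ℂ) : ∀ n : ℕ, pw (x * t) (x ^ 2 * u) n = x ^ n * pw t u n
  | 0 => by simp [pw]
  | 1 => by simp [pw]
  | n + 2 => by
    rw [pw, pw, pw_smul x t u (n + 1), pw_smul x t u n]
    ring

/-- the Euler product over the places of `ℚ` -/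
theorem prod_rat {e : ℕ} {S : Finset ℕ} (hS : ∀ q ∈ S, Gp q) {j : ℕ}
    (hj : ∏ q ∈ S, q = 1 + 4 * j) {z A : ℂ}
    (h : HasProd (fun p : Nat.Primes =>
      (1 - (∏ q ∈ S, qch q (p : ℕ)) * pw (bc p) (ec p) (2 * e + 1) * ((p : ℕ) : ℂ) ^ (-z) +
      (∏ q ∈ S, qch q (p : ℕ)) ^ 2 * ec p ^ (2 * e + 1) * (((p : ℕ) : ℂ) ^ (-z)) ^ 2)⁻¹) A) :
    HasProd (fun v : HeightOneSpectrum (𝓞 ℚ) =>
      (1 - pw (aV (EX ℚ (j : ℚ)) v : ℂ) (eV (EX ℚ (j : ℚ)) v : ℂ) (2 * e + 1) * (nm v : ℂ) ^ (-z) +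
      (eV (EX ℚ (j : ℚ)) v : ℂ) ^ (2 * e + 1) * ((nm v : ℂ) ^ (-z)) ^ 2)⁻¹) A := by
  have h1 := (Equiv.ofBijective _ rat_bij).hasProd_iff.2 h
  convert h1 using 2 with v
  obtain ⟨-, h2, h3⟩ := rat_ideal v
  have hval : ∀ p : ℕ, (below v : ℕ) = p → v.valuation ℚ ((p : ℕ) : ℚ) = WithZero.exp (-1 : ℤ) := by
    rintro p rfl
    exact rat_val v
  obtain ⟨c1, c2⟩ := coeffsD v hS hj (fun h => hval 7 h) (fun q _ h => hval q h)
  rw [h3, pow_one] at c1 c2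
  have hpw1 : ∀ t u : ℂ, pw t u 1 = t := fun _ _ => rfl
  rw [hpw1] at c1
  rw [c1, c2, h2]
  show (1 - _ * _ + _ * _)⁻¹ = ((fun p : Nat.Primes =>
      (1 - (∏ q ∈ S, qch q (p : ℕ)) * pw (bc p) (ec p) (2 * e + 1) * ((p : ℕ) : ℂ) ^ (-z) +
      (∏ q ∈ S, qch q (p : ℕ)) ^ 2 * ec p ^ (2 * e + 1) * (((p : ℕ) : ℂ) ^ (-z)) ^ 2)⁻¹)) (below v)
  set x : ℂ := ∏ q ∈ S, qch q ((below v : ℕ) : ℤ) with hx
  have hx2 : x = 0 ∨ x ^ 2 = 1 := by
    by_cases hd : ∃ q ∈ S, (q : ℤ) ∣ ((below v : ℕ) : ℤ)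
    · left
      obtain ⟨q, hq, hd⟩ := hd
      rw [hx]
      refine Finset.prod_eq_zero hq ?_
      rcases qch_val (hS q hq).pr ((below v : ℕ) : ℤ) with h | h
      · exact h.2
      · exact absurd hd h.1
    · right
      push Not at hd
      exact qprod_sq (fun q hq => (hS q hq).pr) hd
  have hxo : x ^ (2 * e + 1) = x := Run7.h359.BK.sgn_pow_odd hx2 e
  have e1 : pw (x * bc (below v : ℕ)) (x ^ 2 * ec (below v : ℕ)) (2 * e + 1) =
      x * pw (bc (below v : ℕ)) (ec (below v : ℕ)) (2 * e + 1) := by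
    rw [pw_smul, hxo]
  have e2 : (x ^ 2 * ec (below v : ℕ)) ^ (2 * e + 1) = x ^ 2 * ec (below v : ℕ) ^ (2 * e + 1) := by
    rw [mul_pow]
    congr 1
    rw [← pow_mul, mul_comm, pow_mul, hxo]
  rw [e1, e2]

end Run7.h359.EU
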