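import Pool.Agent.Run7.h359.Pol
import Pool.Agent.TH936.CW.Lim
import Pool.Agent.TH936.PU.Dis

/-!
# Regularized sums and their limits
-/

set_option autoImplicit false
set_option linter.unusedSectionVars false

open Filter
open scoped Topology PeriodPair

namespace Run7.h359.BK

open H667R3 Pool.Agent.TH936.CW Pool.Agent.TH936.CM
open Pool.Agent.W192.HK (sp)
open Pool.Agent.TH936.PU (coe_ne tsum_prtA sum_rep mk_eq out_mk bij_mul div_mem_iff)
open Pool.Agent.Y698 (al bl RR aR bR tA tB al_ne bl_ne al_mul_bl al_sq tA_mem tB_mem two_tA two_tB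
  tA_notMem tB_notMem tC_notMem roots_dist LD aR_coe bR_coe ker_al ker_bl isLat_neg_mem al_im_pos
  Tb v_two v_bl v_two_lt two_coe aR_mul_bR qr fin_quot)

variable {L : PeriodPair} {Ω p q : ℂ}

/-- the factor of the distribution relation -/
noncomputable def lam (e : ℕ) (c : ℂ) : ℂ := gg e ((starRingEnd ℂ) c⁻¹) c⁻¹

lemma lam_eq (e : ℕ) (c : ℂ) : lam e c = ((starRingEnd ℂ) c)⁻¹ ^ e * c ^ (e + 1) := by
  unfold lam gg
  rw [map_inv₀, inv_inv]

lemma lam_zero (c : ℂ) : lam 0 c = c := by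
  rw [lam_eq]
  simp

/-- the distribution relation -/
theorem EK_distA (hL : IsLat L RR Ω) (e : ℕ) {δ : ℝ} (hδ : 0 < δ) (a : RR) (ha : a ≠ 0)
    [Fintype (RR ⧸ sp a)] (z : ℂ) :
    ∑ x : RR ⧸ sp a, EK RR Ω e δ (z + Ω * x.out / a) =
      lam e a * EK RR Ω e (δ / Complex.normSq a) (a * z) := by
  have ha0 := coe_ne ha
  have hnr : 0 < Complex.normSq (a : ℂ) := Complex.normSq_pos.2 ha0
  have e1 : ∀ α : RR, gd e δ (z + Ω * α / a) =
      lam e a * gd e (δ / Complex.normSq a) (a * z + Ω * α) := by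
    intro α
    have h1 : z + Ω * α / a = (a : ℂ)⁻¹ * (a * z + Ω * α) := by field_simp
    rw [h1, gd_mul]
    congr 2
    rw [Complex.normSq_inv]
    rfl
  have hs : Summable (fun α : RR => gd e δ (z + Ω * α / a)) := by
    refine ((summ_gd hL e (a * z) (δ := δ / Complex.normSq a) (by positivity)).mul_left
      (lam e a)).congr fun α => ?_
    rw [e1]
  have h2 := tsum_prtA a ha _ hs
  have h3 : ∑' α : RR, gd e δ (z + Ω * α / a) =
      lam e a * EK RR Ω e (δ / Complex.normSq a) (a * z) := by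
    rw [tsum_congr e1, tsum_mul_left]
    rfl
  rw [← h3, h2]
  refine Finset.sum_congr rfl fun x _ => ?_
  unfold EK
  refine tsum_congr fun β => ?_
  congr 1
  push_cast
  field_simp
  ring

lemma gd_neg (e : ℕ) (δ : ℝ) (u : ℂ) : gd e δ (-u) = -gd e δ u := by
  unfold gd gg
  rw [map_neg, Complex.normSq_neg, inv_neg, neg_pow ((starRingEnd ℂ) u) e, neg_pow u⁻¹ (e + 1)]
  have : ((-1 : ℂ)) ^ e * (-1) ^ (e + 1) = -1 := by
    rw [← pow_add, show e + (e + 1) = 2 * e + 1 by ring, pow_succ, pow_mul]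
    norm_num
  linear_combination ((starRingEnd ℂ) u ^ e * u⁻¹ ^ (e + 1) *
    (Pool.Agent.W192.CY.Vk (e + 1) (δ * Complex.normSq u) : ℂ)) * this

lemma EK_neg (e : ℕ) (δ : ℝ) (z : ℂ) : EK RR Ω e δ (-z) = -EK RR Ω e δ z := by
  unfold EK
  rw [← tsum_neg, ← (Equiv.neg RR).tsum_eq (fun β : RR => gd e δ (-z + Ω * β))]
  refine tsum_congr fun β => ?_
  rw [Equiv.neg_apply, ← gd_neg]
  congr 1
  push_cast
  ring

/-- the odd part -/
noncomputable def Nr (Ω : ℂ) (e : ℕ) (δ : ℝ) (z : ℂ) : ℂ :=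
  EK RR Ω e δ z - EK RR Ω e δ (z + tA Ω)

lemma Nr_per (hL : IsLat L RR Ω) (e : ℕ) (δ : ℝ) {z w : ℂ} (h : w - z ∈ L.lattice) :
    Nr Ω e δ w = Nr Ω e δ z := by
  unfold Nr
  rw [EK_per hL e δ h, EK_per hL e δ (z := z + tA Ω) (w := w + tA Ω) (by
    rw [add_sub_add_right_eq_sub]
    exact h)]

lemma Nr_tA (hL : IsLat L RR Ω) (e : ℕ) (δ : ℝ) (z : ℂ) : Nr Ω e δ (z + tA Ω) = -Nr Ω e δ z := by
  unfold Nr
  rw [EK_per hL e δ (z := z) (w := z + tA Ω + tA Ω) (by
    have e : z + tA Ω + tA Ω - z = 2 * tA Ω := by ring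
    rw [e]
    exact two_tA hL)]
  ring

lemma Nr_neg (hL : IsLat L RR Ω) (e : ℕ) (δ : ℝ) (z : ℂ) : Nr Ω e δ (-z) = -Nr Ω e δ z := by
  unfold Nr
  have e1 : -z + tA Ω = -(z - tA Ω) := by ring
  rw [e1, EK_neg, EK_neg, EK_per hL e δ (z := z - tA Ω) (w := z + tA Ω) (by
    have e : z + tA Ω - (z - tA Ω) = 2 * tA Ω := by ring
    rw [e]
    exact two_tA hL)]
  ring

variable (L Ω p q)

/-- the limit -/
noncomputable def NN (e : ℕ) (z : ℂ) : ℂ :=
  (q ^ e)⁻¹ * (ek L p q e z - ek L p q e (z + tA Ω))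

variable {L Ω p q}

theorem lim_Nr (hL : IsLat L RR Ω)
    (hpq : ∀ l ∈ L.lattice, eta L l = p * l + q * (starRingEnd ℂ) l) (e : ℕ) {z : ℂ}
    (hz : al * z ∉ L.lattice) :
    Tendsto (fun δ : ℝ => Nr Ω e δ z) (𝓝[>] 0) (𝓝 (NN L Ω p q e z)) := by
  obtain ⟨C, hC⟩ := TT_Dk hpq e (tA Ω)
  have key : ∀ z, al * z ∉ L.lattice → Tendsto (fun δ : ℝ => Nr Ω e δ z) (𝓝[>] 0)
      (𝓝 (NN L Ω p q e z - (1 / 2) * ((q ^ e)⁻¹ * C))) := by
    intro z hz
    obtain ⟨g1, g2⟩ := good_one hL hz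
    have g3 : z - tA Ω ∉ L.lattice := fun h => g2 (by
      have := add_mem h (two_tA hL)
      convert this using 1
      ring)
    have h1 := lim_TT hL e g1 (t := tA Ω)
    rw [hC z g1 g2 g3] at h1
    have h2 := h1.const_mul (-1 / 2 : ℂ)
    have e1 : (-1 / 2 : ℂ) * ((q ^ e)⁻¹ * (Dk L p q e z (tA Ω) + C)) =
        NN L Ω p q e z - (1 / 2) * ((q ^ e)⁻¹ * C) := by
      unfold NN Dk
      rw [ek_per hpq e g2 (w := z - tA Ω) (by
        have e : z - tA Ω - (z + tA Ω) = -(2 * tA Ω) := by ring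
        rw [e]
        exact neg_mem (two_tA hL))]
      ring
    rw [e1] at h2
    refine h2.congr fun δ => ?_
    unfold Nr
    rw [EK_per hL e δ (z := z + tA Ω) (w := z - tA Ω) (by
        have e : z - tA Ω - (z + tA Ω) = -(2 * tA Ω) := by ring
        rw [e]
        exact neg_mem (two_tA hL))]
    ring
  have h1 := key z hz
  have h2 := key (z + tA Ω) (good_add hL hz)
  have h3 : NN L Ω p q e (z + tA Ω) = -NN L Ω p q e z := by
    unfold NN
    rw [ek_per hpq e (good_one hL hz).1 (w := z + tA Ω + tA Ω) (by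
      have e : z + tA Ω + tA Ω - z = 2 * tA Ω := by ring
      rw [e]
      exact two_tA hL)]
    ring
  rw [h3] at h2
  have h4 := h1.neg.congr fun δ => (Nr_tA hL e δ z).symm
  have h5 := tendsto_nhds_unique h2 h4
  have h6 : (q ^ e)⁻¹ * C = 0 := by linear_combination -h5
  rw [h6, mul_zero, sub_zero] at h1
  exact h1

/-- the values of the limit -/
lemma NN_Xe (h : LD L Ω) (hpq : ∀ l ∈ L.lattice, eta L l = p * l + q * (starRingEnd ℂ) l)
    (e : ℕ) {z : ℂ} (hz : al * z ∉ L.lattice) (h1 : al * z + tB Ω ∉ L.lattice)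
    (h2 : al * z - tB Ω ∉ L.lattice) :
    Xe L Ω p q e (al * z) = (q ^ e * (bl ^ e / al * e.factorial)) * NN L Ω p q e z := by
  rw [Xe_eq h hpq e hz h1 h2]
  unfold NN
  have hq : q ^ e ≠ 0 := pow_ne_zero _ (q_ne hpq)
  field_simp

lemma NN_kap (h : LD L Ω) (hpq : ∀ l ∈ L.lattice, eta L l = p * l + q * (starRingEnd ℂ) l)
    {z : ℂ} (hz : al * z ∉ L.lattice) : NN L Ω p q 0 z = al * kap L p q (tB Ω) (al * z) := by
  have k1 := lid h.lat hpq 0 ((starRingEnd ℂ) z) hz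
  have e1 : Ae L p q (tB Ω) 0 (bl * (starRingEnd ℂ) z) (al * z) = kap L p q (tB Ω) (al * z) := by
    unfold Ae
    rw [iteratedDeriv_zero, GG_t]
  rw [e1] at k1
  have k6 : ∀ v z, evz L p q v z (Pp L p 0) = evz L p q v z (Aa L p (0 + 1)) := by
    intro v z
    unfold evz Pp
    rw [ev_mul, ev_C, Function.iterate_zero, id_eq]
    simp
  unfold NN ek
  rw [k1, k6, k6, map_add]
  unfold Br
  have := al_ne
  field_simp
  simp

/-- the elements congruent to one modulo `al` -/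
def Ca (c : RR) : Prop := ∃ d : RR, c = 1 + aR * d

lemma Ca.ne {c : RR} (h : Ca c) : c ≠ 0 := by
  rintro rfl
  obtain ⟨d, hd⟩ := h
  apply Pool.Agent.Y698.aR_nu
  refine IsUnit.of_mul_eq_one (-d) ?_
  linear_combination hd

lemma Ca.tA (hL : IsLat L RR Ω) {c : RR} (h : Ca c) : (c : ℂ) * tA Ω - tA Ω ∈ L.lattice := by
  obtain ⟨d, hd⟩ := h
  have e : (c : ℂ) * Pool.Agent.Y698.tA Ω - Pool.Agent.Y698.tA Ω = d * Ω := by
    rw [hd]
    push_cast
    rw [aR_coe]
    linear_combination (d : ℂ) * al_tA (Ω := Ω)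
  rw [e]
  exact hL.mul d _ (Om_mem hL)

theorem Nr_dist (hL : IsLat L RR Ω) (e : ℕ) {δ : ℝ} (hδ : 0 < δ) {c : RR} (hc : Ca c)
    [Fintype (RR ⧸ sp c)] (z : ℂ) :
    ∑ x : RR ⧸ sp c, Nr Ω e δ (z + Ω * x.out / c) =
      lam e c * Nr Ω e (δ / Complex.normSq c) (c * z) := by
  unfold Nr
  rw [Finset.sum_sub_distrib, EK_distA hL e hδ c hc.ne z]
  have h1 : ∑ x : RR ⧸ sp c, EK RR Ω e δ (z + Ω * x.out / c + tA Ω) =
      ∑ x : RR ⧸ sp c, EK RR Ω e δ ((z + tA Ω) + Ω * x.out / c) :=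
    Finset.sum_congr rfl fun x _ => by
      congr 1
      ring
  rw [h1, EK_distA hL e hδ c hc.ne (z + tA Ω), EK_per hL e _ (z := c * z + tA Ω)
    (w := c * (z + tA Ω)) (by
      have := hc.tA hL
      convert this using 1
      ring)]
  ring

lemma tend_div {c : ℂ} (hc : c ≠ 0) :
    Tendsto (fun δ : ℝ => δ / Complex.normSq c) (𝓝[>] 0) (𝓝[>] 0) := by
  have hcn : 0 < Complex.normSq c := Complex.normSq_pos.2 hc
  rw [tendsto_nhdsWithin_iff]
  constructor
  · have h7 : Continuous (fun δ : ℝ => δ / Complex.normSq c) := by fun_prop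
    have h8 := (h7.tendsto 0).mono_left (nhdsWithin_le_nhds (s := Set.Ioi 0))
    simpa using h8
  · filter_upwards [self_mem_nhdsWithin] with δ (hδ : 0 < δ)
    show 0 < δ / Complex.normSq c
    positivity

/-- the distribution relation for the limit -/
theorem NN_dist (hL : IsLat L RR Ω)
    (hpq : ∀ l ∈ L.lattice, eta L l = p * l + q * (starRingEnd ℂ) l) (e : ℕ) {c : RR} (hc : Ca c)
    [Fintype (RR ⧸ sp c)] {z : ℂ} (hz : al * (c * z) ∉ L.lattice) :
    ∑ x : RR ⧸ sp c, NN L Ω p q e (z + Ω * x.out / c) = lam e c * NN L Ω p q e (c * z) := by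
  have hc0 := coe_ne hc.ne
  have l1 : Tendsto (fun δ : ℝ => ∑ x : RR ⧸ sp c, Nr Ω e δ (z + Ω * x.out / c)) (𝓝[>] 0)
      (𝓝 (∑ x : RR ⧸ sp c, NN L Ω p q e (z + Ω * x.out / c))) := by
    refine tendsto_finsetSum _ fun x _ => lim_Nr hL hpq e ?_
    intro h
    apply hz
    have h1 := hL.mul c _ h
    have e1 : al * ((c : ℂ) * z) = c * (al * (z + Ω * x.out / c)) - al * (Ω * x.out) := by
      field_simp
      ring
    rw [e1]
    exact sub_mem h1 (al_mem hL (hL.mem_mul _))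
  have l2 := ((lim_Nr hL hpq e hz).comp (tend_div hc0)).const_mul (lam e c)
  refine tendsto_nhds_unique l1 (l2.congr' ?_)
  filter_upwards [self_mem_nhdsWithin] with δ (hδ : 0 < δ)
  exact (Nr_dist hL e hδ hc z).symm

/-! ### the isogeny relation -/

lemma bijb : Function.Bijective (fun i : Fin 2 => Ideal.Quotient.mk (sp bR) ((![0, 1] : Fin 2 → RR) i)) := by
  constructor
  · intro i j hij
    have h1 : Ideal.Quotient.mk (sp bR) ((![0, 1] : Fin 2 → RR) i) =
        Ideal.Quotient.mk (sp bR) ((![0, 1] : Fin 2 → RR) j) := hij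
    rw [Ideal.Quotient.mk_eq_mk_iff_sub_mem] at h1
    have h2 : (1 : RR) ∉ sp bR := Pool.Agent.Y698.not_dvd_one Pool.Agent.Y698.bR_nu
    fin_cases i <;> fin_cases j
    · rfl
    · exfalso
      apply h2
      have := neg_mem h1
      simpa using this
    · exfalso
      apply h2
      simpa using h1
    · rfl
  · intro z
    have hred : z.out ∈ sp bR ∨ z.out - 1 ∈ sp bR := by
      have e : z.out = ((Pool.Agent.Y698.cX z.out : ℤ) : RR) +
          ((Pool.Agent.Y698.cY z.out : ℤ) : RR) * aR := by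
        apply Subtype.ext
        push_cast
        rw [aR_coe]
        exact Pool.Agent.Y698.co z.out
      have e2 : bR = 1 - aR := rfl
      rcases Int.even_or_odd (Pool.Agent.Y698.cX z.out + Pool.Agent.Y698.cY z.out) with
        ⟨k, hk⟩ | ⟨k, hk⟩
      · left
        rw [Ideal.mem_span_singleton']
        refine ⟨(k : RR) * aR - ((Pool.Agent.Y698.cY z.out : ℤ) : RR), ?_⟩
        have hk' : ((Pool.Agent.Y698.cX z.out : ℤ) : RR) +
            ((Pool.Agent.Y698.cY z.out : ℤ) : RR) = k + k := by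
          exact_mod_cast congrArg (fun t : ℤ => (t : RR)) hk
        linear_combination (k : RR) * aR_mul_bR - e - hk' -
          ((Pool.Agent.Y698.cY z.out : ℤ) : RR) * e2
      · right
        rw [Ideal.mem_span_singleton']
        refine ⟨(k : RR) * aR - ((Pool.Agent.Y698.cY z.out : ℤ) : RR), ?_⟩
        have hk' : ((Pool.Agent.Y698.cX z.out : ℤ) : RR) +
            ((Pool.Agent.Y698.cY z.out : ℤ) : RR) = 2 * k + 1 := by
          exact_mod_cast congrArg (fun t : ℤ => (t : RR)) hk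
        linear_combination (k : RR) * aR_mul_bR - e - hk' -
          ((Pool.Agent.Y698.cY z.out : ℤ) : RR) * e2
    rcases hred with h | h
    · refine ⟨0, ?_⟩
      show Ideal.Quotient.mk (sp bR) (0 : RR) = z
      rw [← Ideal.Quotient.mk_out z, Ideal.Quotient.mk_eq_mk_iff_sub_mem]
      have := neg_mem h
      simpa using this
    · refine ⟨1, ?_⟩
      show Ideal.Quotient.mk (sp bR) (1 : RR) = z
      rw [← Ideal.Quotient.mk_out z, Ideal.Quotient.mk_eq_mk_iff_sub_mem]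
      have := neg_mem h
      simpa using this

lemma Ca_bR : Ca bR := ⟨-1, by
  have e2 : bR = 1 - aR := rfl
  rw [e2]
  ring⟩

/-- the relation for `κ` -/
theorem kap_bl (h : LD L Ω) (hpq : ∀ l ∈ L.lattice, eta L l = p * l + q * (starRingEnd ℂ) l)
    {z : ℂ} (hz : z ∉ L.lattice) (h2 : z - tB Ω ∉ L.lattice) :
    bl * kap L p q (tB Ω) (bl * z) =
      kap L p q (tB Ω) z + kap L p q (tB Ω) (z + al * tB Ω) := by
  have hL := h.lat
  have f1 := fin_quot Ca_bR.ne
  let _ : Fintype (RR ⧸ sp bR) := Fintype.ofFinite _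
  have hal := al_ne
  have hbl := bl_ne
  set z' := z / al with hz'
  have ez : al * z' = z := by rw [hz']; field_simp
  have g0 := bl_ok hL hz h2
  have g1 : al * ((bR : ℂ) * z') ∉ L.lattice := by
    have e : al * ((bR : ℂ) * z') = bl * z := by
      rw [bR_coe, ← ez]
      ring
    rw [e]
    exact g0
  have h1 := NN_dist hL hpq 0 Ca_bR g1
  have g3 : ∀ x : RR, al * (z' + Ω * x / (bR : ℂ)) ∉ L.lattice := by
    intro x hx
    apply g1
    have h3 := hL.mul bR _ hx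
    have e1 : al * ((bR : ℂ) * z') = bR * (al * (z' + Ω * x / (bR : ℂ))) - al * (Ω * x) := by
      have := coe_ne Ca_bR.ne
      field_simp
      ring
    rw [e1]
    exact sub_mem h3 (al_mem hL (hL.mem_mul _))
  have e3 : ∀ x : RR, NN L Ω p q 0 (z' + Ω * x / (bR : ℂ)) =
      al * kap L p q (tB Ω) (z + al * (Ω * x / (bR : ℂ))) := by
    intro x
    rw [NN_kap h hpq (g3 x), mul_add, ez]
  have h4 : ∀ x y : RR, x - y ∈ sp bR → NN L Ω p q 0 (z' + Ω * x / (bR : ℂ)) =
      NN L Ω p q 0 (z' + Ω * y / (bR : ℂ)) := by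
    intro x y hxy
    rw [e3, e3]
    have h5 := (div_mem_iff hL Ca_bR.ne (x - y)).2 hxy
    have e4 : z + al * (Ω * x / (bR : ℂ)) = z + al * (Ω * y / (bR : ℂ)) +
        al * (Ω * ((x - y : RR) : ℂ) / (bR : ℂ)) := by
      push_cast
      ring
    rw [e4, kap_add hpq (al_mem hL h5), chl_al hL hpq h5, one_mul]
  rw [sum_rep _ bijb (fun x : RR => NN L Ω p q 0 (z' + Ω * x / (bR : ℂ))) h4,
    Fin.sum_univ_two] at h1
  have m0 : (![0, 1] : Fin 2 → RR) 0 = 0 := rfl
  have m1 : (![0, 1] : Fin 2 → RR) 1 = 1 := rfl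
  rw [m0, m1, e3, e3, NN_kap h hpq g1, lam_zero, bR_coe] at h1
  have e5 : al * (bl * z') = bl * z := by rw [← ez]; ring
  have e6 : z + al * (Ω * ((0 : RR) : ℂ) / bl) = z := by
    push_cast
    ring
  have e7 : z + al * (Ω * ((1 : RR) : ℂ) / bl) = z + al * tB Ω := by
    unfold tB
    push_cast
    ring
  rw [e5, e6, e7] at h1
  apply mul_left_cancel₀ hal
  linear_combination -h1

lemma cc_rel (h : LD L Ω) : (1 - bl ^ 2) * ℘[L] (tB Ω) = 2 * cc := by
  have e1 : ℘[L] (tB Ω) = 2 * uu ^ 3 - 1 / 4 := by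
    have := xB_eq h
    unfold xc at this
    linear_combination this
  have e2 : bl = 1 - 2 * uu := by
    unfold bl
    rw [al_uu]
  rw [e1, e2]
  unfold cc
  linear_combination (-4 * uu ^ 3 + 2 * uu ^ 2 - uu) * uu_rel

/-- **The isogeny relation.** -/
theorem hkr (h : LD L Ω) (hpq : ∀ l ∈ L.lattice, eta L l = p * l + q * (starRingEnd ℂ) l) :
    HKr L Ω p q := by
  intro z hz h1 h2
  have hL := h.lat
  have htB := tB_notMem hL
  have htB2 := two_tB hL
  have k1 := kap_bl h hpq hz h2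
  have hzt : z + al * tB Ω ∉ L.lattice := fun h3 => h1 (by
    have := sub_mem h3 (Pool.Agent.Y698.al_tB hL)
    convert this using 1
    ring)
  have s1 := kap_sq hpq htB htB2 hz
  have s2 := kap_sq hpq htB htB2 hzt
  have s3 := kap_sq hpq htB htB2 (bl_ok hL hz h2)
  have m := mul_bl hL (bl_ok hL hz h2)
  have e1 : ℘[L] (z + al * tB Ω) = ℘[L] (z - tB Ω) := Pool.Agent.TH936.PU.wp_per (by
    have := add_mem (Pool.Agent.Y698.al_tB hL) htB2
    convert this using 1
    ring)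
  rw [e1] at s2
  have k0 := kap_ne h hpq hz h1 h2
  have k2 : kap L p q (tB Ω) z * kap L p q (tB Ω) (z + al * tB Ω) = cc := by
    have h5 := cc_rel h
    have h6 : (bl * kap L p q (tB Ω) (bl * z)) ^ 2 =
        (kap L p q (tB Ω) z + kap L p q (tB Ω) (z + al * tB Ω)) ^ 2 := by rw [k1]
    linear_combination (-1 / 2 : ℂ) * h6 + (1 / 2 : ℂ) * (bl ^ 2 * s3 - s1 - s2) +
      (1 / 2 : ℂ) * m + (1 / 2 : ℂ) * h5
  have k3 : kap L p q (tB Ω) (z + al * tB Ω) = cc / kap L p q (tB Ω) z := by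
    rw [← k2]
    field_simp
  rw [← k3, ← k1]
  linear_combination -(kap L p q (tB Ω) (bl * z)) * bl_uu

end Run7.h359.BK
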