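import Pool.Agent.Run7.h359.Reg
import Pool.Agent.Y698.SG.Wn

/-!
# Weighted sums over the points of odd order
-/

set_option autoImplicit false
set_option linter.unusedSectionVars false

open Filter
open scoped Topology PeriodPair

namespace Run7.h359.BK

open H667R3 Pool.Agent.TH936.CW Pool.Agent.TH936.CM
open Pool.Agent.W192.HK (sp)
open Pool.Agent.TH936.PU (coe_ne tsum_prtA sum_rep mk_eq out_mk bij_mul div_mem_iff v_add_le
  v_sub_le v_mul_le)
open Pool.Agent.Y698 (al bl RR aR bR tA tB al_ne bl_ne al_mul_bl al_sq tA_mem tB_mem two_tA two_tB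
  tA_notMem tB_notMem tC_notMem roots_dist LD aR_coe bR_coe ker_al ker_bl isLat_neg_mem al_im_pos
  Tb v_two v_bl v_two_lt two_coe aR_mul_bR qr fin_quot two_nu v_sum_pair')
open Pool.Agent.Y698.SG (Fam PD sy tr hc Mu)

variable {L : PeriodPair} {Ω p q : ℂ} {Γ : Type*} [LinearOrderedCommGroupWithZero Γ]
  {v : Valuation ℂ Γ}

/-- odd elements -/
def Mo (m : RR) : Prop := ∃ r : RR, m = 1 + 2 * r

lemma Mo.ne {m : RR} (h : Mo m) : m ≠ 0 := by
  rintro rfl
  obtain ⟨r, hr⟩ := h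
  apply two_nu
  refine IsUnit.of_mul_eq_one (-r) ?_
  linear_combination hr

lemma Mo.mul {m n : RR} (hm : Mo m) (hn : Mo n) : Mo (m * n) := by
  obtain ⟨r, rfl⟩ := hm
  obtain ⟨s, rfl⟩ := hn
  exact ⟨r + s + 2 * r * s, by ring⟩

lemma Mo.one : Mo 1 := ⟨0, by ring⟩

lemma Mo.ca {m : RR} (h : Mo m) : Ca m := by
  obtain ⟨r, rfl⟩ := h
  exact ⟨bR * r, by linear_combination -r * aR_mul_bR⟩

lemma PD_mo {ϖ : RR} (h : PD ϖ) : Mo ϖ := by
  obtain ⟨u, rfl⟩ := h.m4
  exact ⟨2 * u, by ring⟩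

lemma Mo.prod {ι : Type} {S : Finset ι} {π : ι → RR} (h : ∀ i ∈ S, Mo (π i)) :
    Mo (∏ i ∈ S, π i) := by
  classical
  induction S using Finset.induction_on with
  | empty => exact Mo.one
  | insert q S hq ih =>
    rw [Finset.prod_insert hq]
    exact (h q (Finset.mem_insert_self _ _)).mul
      (ih fun p hp => h p (Finset.mem_insert_of_mem hp))

/-- the admissible weights -/
structure We (m : RR) (w : RR → ℂ) : Prop where
  per : ∀ x y : RR, x - y ∈ sp m → w x = w y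
  zero : ∀ x ∈ sp m, w x = 0

lemma pt_od (hL : IsLat L RR Ω) {m : RR} (hm : Mo m) {x : RR} (hx : x ∉ sp m) :
    Od L (Ω * x / m) := by
  have hm0 := hm.ne
  have hmc := coe_ne hm0
  obtain ⟨r, hr⟩ := hm
  refine ⟨fun h => hx ((div_mem_iff hL hm0 x).1 h), r, ?_⟩
  rw [← hr]
  have e : (m : ℂ) * (Ω * x / m) = Ω * (x : ℂ) := by field_simp
  rw [e]
  exact hL.mem_mul _

lemma Od.al' (hL : IsLat L RR Ω) {z : ℂ} (hz : Od L z) : Od L (al * z) := by
  have h : ((aR : RR) : ℂ) * z ∉ L.lattice := by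
    intro h
    apply hz.two hL
    have h1 := hL.mul bR _ h
    rw [bR_coe, aR_coe, ← mul_assoc, mul_comm Pool.Agent.Y698.bl al, al_mul_bl] at h1
    exact h1
  have := hz.mul hL aR h
  rwa [aR_coe] at this

lemma NN_per (hpq : ∀ l ∈ L.lattice, eta L l = p * l + q * (starRingEnd ℂ) l)
    (hL : IsLat L RR Ω) (e : ℕ) {z w : ℂ}
    (hz : al * z ∉ L.lattice) (h : w - z ∈ L.lattice) :
    NN L Ω p q e w = NN L Ω p q e z := by
  obtain ⟨g1, g2⟩ := good_one hL hz
  unfold NN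
  rw [ek_per hpq e g1 h, ek_per hpq e g2 (w := w + tA Ω) (by
    rw [add_sub_add_right_eq_sub]
    exact h)]

lemma NN_neg (hpq : ∀ l ∈ L.lattice, eta L l = p * l + q * (starRingEnd ℂ) l)
    (hL : IsLat L RR Ω) (e : ℕ) {z : ℂ} (hz : al * z ∉ L.lattice) :
    NN L Ω p q e (-z) = -NN L Ω p q e z := by
  have hz' : al * -z ∉ L.lattice := by
    rw [mul_neg]
    exact fun h => hz (isLat_neg_mem h)
  have h1 := lim_Nr hL hpq e hz'
  have h2 := (lim_Nr hL hpq e hz).neg
  refine tendsto_nhds_unique h1 (h2.congr fun δ => ?_)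
  rw [Nr_neg hL]

/-! ### the sums -/

variable (L Ω p q)

/-- the weighted sum -/
noncomputable def Sn (e : ℕ) (m : RR) (w : RR → ℂ) : ℂ :=
  ∑ᶠ x : RR ⧸ sp m, w x.out * NN L Ω p q e (Ω * x.out / m)

variable {L Ω p q}

lemma Sn_eq (e : ℕ) (m : RR) [Fintype (RR ⧸ sp m)] (w : RR → ℂ) : Sn L Ω p q e m w =
    ∑ x : RR ⧸ sp m, w x.out * NN L Ω p q e (Ω * x.out / m) :=
  finsum_eq_sum_of_fintype _

lemma Sn_term (hpq : ∀ l ∈ L.lattice, eta L l = p * l + q * (starRingEnd ℂ) l)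
    (hL : IsLat L RR Ω) (e : ℕ) {m : RR} (hm : Mo m) {w : RR → ℂ} (hw : We m w) {x y : RR}
    (h : x - y ∈ sp m) : w x * NN L Ω p q e (Ω * x / m) = w y * NN L Ω p q e (Ω * y / m) := by
  rw [hw.per _ _ h]
  by_cases hy : y ∈ sp m
  · rw [hw.zero y hy, zero_mul, zero_mul]
  · congr 1
    refine NN_per hpq hL e ((pt_od hL hm hy).al' hL).ne ?_
    have h1 := (div_mem_iff hL hm.ne (x - y)).2 h
    convert h1 using 1
    push_cast
    ring

theorem Sn_dist (hL : IsLat L RR Ω)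
    (hpq : ∀ l ∈ L.lattice, eta L l = p * l + q * (starRingEnd ℂ) l) (e : ℕ) {m c : RR}
    (hm : Mo m) (hc : Mo c) {w : RR → ℂ} (hw : We m w) :
    Sn L Ω p q e (c * m) w = lam e c * Sn L Ω p q e m w := by
  have hcm := hc.mul hm
  have f1 := fin_quot hm.ne
  have f2 := fin_quot hc.ne
  have f3 := fin_quot hcm.ne
  let _ : Fintype (RR ⧸ sp m) := Fintype.ofFinite _
  let _ : Fintype (RR ⧸ sp c) := Fintype.ofFinite _
  let _ : Fintype (RR ⧸ sp (c * m)) := Fintype.ofFinite _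
  have hw' : We (c * m) w := by
    have hle : sp (c * m) ≤ sp m := Ideal.span_singleton_le_span_singleton.2 (Dvd.intro_left _ rfl)
    exact ⟨fun x y h => hw.per x y (hle h), fun x h => hw.zero x (hle h)⟩
  rw [Sn_eq, Sn_eq]
  have hb := bij_mul (R := RR) (a := c) (f := m) hm.ne
  rw [sum_rep _ hb (fun x : RR => w x * NN L Ω p q e (Ω * x / ((c * m : RR) : ℂ)))
    (fun x y h => Sn_term hpq hL e hcm hw' h), Fintype.sum_prod_type, Finset.mul_sum]
  refine Finset.sum_congr rfl fun y _ => ?_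
  have h2 : ∀ t : RR ⧸ sp c, w (y.out + m * t.out) = w y.out := by
    intro t
    apply hw.per
    rw [add_sub_cancel_left, Ideal.mem_span_singleton']
    exact ⟨t.out, mul_comm _ _⟩
  simp only [h2]
  rw [← Finset.mul_sum]
  by_cases hy : y.out ∈ sp m
  · rw [hw.zero _ hy]
    ring
  have hc0 := coe_ne hc.ne
  have hm0 := coe_ne hm.ne
  have h3 := NN_dist hL hpq e hc.ca (z := Ω * y.out / ((c * m : RR) : ℂ)) (by
    have e1 : (c : ℂ) * (Ω * y.out / ((c * m : RR) : ℂ)) = Ω * y.out / m := by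
      push_cast
      field_simp
    rw [e1]
    exact ((pt_od hL hm hy).al' hL).ne)
  have e1 : (c : ℂ) * (Ω * y.out / ((c * m : RR) : ℂ)) = Ω * y.out / m := by
    push_cast
    field_simp
  rw [e1] at h3
  have e2 : ∀ t : RR ⧸ sp c, NN L Ω p q e (Ω * ((y.out + m * t.out : RR) : ℂ) /
      ((c * m : RR) : ℂ)) = NN L Ω p q e (Ω * y.out / ((c * m : RR) : ℂ) + Ω * t.out / c) := by
    intro t
    congr 1
    push_cast
    field_simp
  rw [Finset.sum_congr rfl (fun t _ => e2 t), h3]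
  ring

open Classical in
/-- the multiples of `c` -/
theorem Sn_mult (hL : IsLat L RR Ω)
    (hpq : ∀ l ∈ L.lattice, eta L l = p * l + q * (starRingEnd ℂ) l) (e : ℕ) {m c : RR}
    (hm : Mo m) (hc : Mo c) {w : RR → ℂ} (hw : We m w) :
    Sn L Ω p q e (c * m) (fun x => if x ∈ sp c then w x else 0) =
      Sn L Ω p q e m (fun x => w (c * x)) := by
  have hcm := hc.mul hm
  have f1 := fin_quot hm.ne
  have f3 := fin_quot hcm.ne
  let _ : Fintype (RR ⧸ sp m) := Fintype.ofFinite _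
  let _ : Fintype (RR ⧸ sp (c * m)) := Fintype.ofFinite _
  have hw' : We (c * m) w := by
    have hle : sp (c * m) ≤ sp m := Ideal.span_singleton_le_span_singleton.2 (Dvd.intro_left _ rfl)
    exact ⟨fun x y h => hw.per x y (hle h), fun x h => hw.zero x (hle h)⟩
  have hq0' : (c : ℂ) ≠ 0 := coe_ne hc.ne
  have hn0' : (m : ℂ) ≠ 0 := coe_ne hm.ne
  rw [Sn_eq, Sn_eq]
  -- the injection
  set g : RR ⧸ sp m → RR ⧸ sp (c * m) := fun y => Ideal.Quotient.mk _ (c * y.out) with hg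
  have hginj : Function.Injective g := by
    intro y y' h
    have h1 : c * y.out - c * y'.out ∈ sp (c * m) := by
      rw [← Ideal.Quotient.mk_eq_mk_iff_sub_mem]
      exact h
    rw [Ideal.mem_span_singleton'] at h1
    obtain ⟨b, hb⟩ := h1
    apply mk_eq
    rw [Ideal.mem_span_singleton']
    refine ⟨b, ?_⟩
    apply mul_left_cancel₀ hc.ne
    linear_combination hb
  have hterm : ∀ y : RR ⧸ sp m, (if (g y).out ∈ sp c then w (g y).out else 0) *
      NN L Ω p q e (Ω * (g y).out / ((c * m : RR) : ℂ)) =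
      w (c * y.out) * NN L Ω p q e (Ω * y.out / (m : ℂ)) := by
    intro y
    have h1 : (g y).out - c * y.out ∈ sp (c * m) := by
      have := neg_mem (out_mk (sp (c * m)) (c * y.out))
      rwa [neg_sub] at this
    have h2 : (g y).out ∈ sp c := by
      have h3 : (g y).out - c * y.out ∈ sp c := by
        rw [Ideal.mem_span_singleton'] at h1 ⊢
        obtain ⟨b, hb⟩ := h1
        exact ⟨b * m, by linear_combination hb⟩
      have h4 := add_mem h3 (Ideal.mul_mem_right y.out (sp c) (Ideal.mem_span_singleton_self c))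
      rwa [sub_add_cancel] at h4
    rw [if_pos h2, Sn_term hpq hL e hcm hw' h1]
    congr 2
    push_cast
    field_simp
  rw [← Finset.sum_congr rfl (fun y _ => hterm y)]
  rw [← Finset.sum_image (s := Finset.univ) (g := g) (f := fun x : RR ⧸ sp (c * m) =>
    (if x.out ∈ sp c then w x.out else 0) *
      NN L Ω p q e (Ω * x.out / ((c * m : RR) : ℂ))) (fun a _ b _ h => hginj h)]
  symm
  refine Finset.sum_subset (Finset.subset_univ _) fun x _ hx => ?_
  rw [if_neg, zero_mul]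
  intro hd
  apply hx
  rw [Ideal.mem_span_singleton'] at hd
  obtain ⟨d, hd⟩ := hd
  rw [Finset.mem_image]
  refine ⟨Ideal.Quotient.mk _ d, Finset.mem_univ _, ?_⟩
  show Ideal.Quotient.mk _ (c * (Ideal.Quotient.mk (sp m) d).out) = x
  conv_rhs => rw [← Ideal.Quotient.mk_out x]
  rw [Ideal.Quotient.mk_eq_mk_iff_sub_mem]
  have h1 := out_mk (sp m) d
  rw [Ideal.mem_span_singleton'] at h1
  obtain ⟨b, hb⟩ := h1
  rw [Ideal.mem_span_singleton']
  exact ⟨-b, by linear_combination -c * hb - hd⟩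

lemma Sn_smul (e : ℕ) {m : RR} (hm : Mo m) (c : ℂ) (w : RR → ℂ) :
    Sn L Ω p q e m (fun x => c * w x) = c * Sn L Ω p q e m w := by
  have f1 := fin_quot hm.ne
  let _ : Fintype (RR ⧸ sp m) := Fintype.ofFinite _
  rw [Sn_eq, Sn_eq, Finset.mul_sum]
  exact Finset.sum_congr rfl fun x _ => by ring

lemma Sn_sum (e : ℕ) {m : RR} (hm : Mo m) {ι : Type*} (s : Finset ι) (w : ι → RR → ℂ) :
    Sn L Ω p q e m (fun x => ∑ i ∈ s, w i x) = ∑ i ∈ s, Sn L Ω p q e m (w i) := by
  have f1 := fin_quot hm.ne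
  let _ : Fintype (RR ⧸ sp m) := Fintype.ofFinite _
  simp only [Sn_eq]
  rw [Finset.sum_comm]
  exact Finset.sum_congr rfl fun x _ => by rw [Finset.sum_mul]

open Classical in
/-- removing a prime -/
theorem Sn_rem (hL : IsLat L RR Ω)
    (hpq : ∀ l ∈ L.lattice, eta L l = p * l + q * (starRingEnd ℂ) l) (e : ℕ) {m c : RR}
    (hm : Mo m) (hc : Mo c) {κ : ℂ} {w : RR → ℂ} (hw : We m w)
    (hk : ∀ x : RR, w (c * x) = κ * w x) :
    Sn L Ω p q e (c * m) (fun x => if x ∈ sp c then 0 else w x) =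
      (lam e c - κ) * Sn L Ω p q e m w := by
  have hcm := hc.mul hm
  have f3 := fin_quot hcm.ne
  let _ : Fintype (RR ⧸ sp (c * m)) := Fintype.ofFinite _
  have h1 := Sn_dist hL hpq e hm hc hw
  have h2 := Sn_mult hL hpq e hm hc hw
  simp only [hk] at h2
  have h3 : Sn L Ω p q e (c * m) (fun x => if x ∈ sp c then 0 else w x) =
      Sn L Ω p q e (c * m) w - Sn L Ω p q e (c * m) (fun x => if x ∈ sp c then w x else 0) := by
    rw [Sn_eq, Sn_eq, Sn_eq, ← Finset.sum_sub_distrib]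
    refine Finset.sum_congr rfl fun x _ => ?_
    split_ifs <;> ring
  rw [h3, h1, h2, Sn_smul e hm]
  ring

/-- removing several primes -/
theorem Sn_rems {ι : Type} (hL : IsLat L RR Ω)
    (hpq : ∀ l ∈ L.lattice, eta L l = p * l + q * (starRingEnd ℂ) l) (e : ℕ) {m : RR}
    (hm : Mo m) {w : RR → ℂ} (hw : We m w) {π : ι → RR} (κ : ι → ℂ) (B : Finset ι)
    (hB : Fam B π) (hκ : ∀ i ∈ B, Mu (π i) w (κ i)) :
    Sn L Ω p q e ((∏ i ∈ B, π i) * m) (fun x => w x * ∏ i ∈ B, tr (π i) x) =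
      (∏ i ∈ B, (lam e (π i) - κ i)) * Sn L Ω p q e m w := by
  classical
  induction B using Finset.induction_on with
  | empty => simp
  | insert j B hj ih =>
    have hBs : Fam B π := hB.mono (Finset.subset_insert _ _)
    have ih' := ih hBs fun i hi => hκ i (Finset.mem_insert_of_mem hi)
    have h1 := hB.pd j (Finset.mem_insert_self _ _)
    rw [Finset.prod_insert hj, mul_assoc, Finset.prod_insert hj, mul_assoc, ← ih']
    have hBg : Mo ((∏ i ∈ B, π i) * m) := (Mo.prod fun i hi => PD_mo (hBs.pd i hi)).mul hm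
    have e1 : (fun x : RR => w x * ∏ i ∈ insert j B, tr (π i) x) =
        fun x : RR => if x ∈ sp (π j) then 0 else w x * ∏ i ∈ B, tr (π i) x := by
      funext x
      rw [Finset.prod_insert hj]
      unfold tr
      split_ifs <;> ring
    rw [e1]
    have hne : ∀ i ∈ B, i ≠ j := fun i hi h => hj (h ▸ hi)
    have hle : sp ((∏ i ∈ B, π i) * m) ≤ sp m :=
      Ideal.span_singleton_le_span_singleton.2 (Dvd.intro_left _ rfl)
    have hle2 : sp ((∏ i ∈ B, π i) * m) ≤ sp (∏ i ∈ B, π i) :=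
      Ideal.span_singleton_le_span_singleton.2 (Dvd.intro _ rfl)
    refine Sn_rem hL hpq e hBg (PD_mo h1) ⟨fun x y h => ?_, fun x h => ?_⟩ ?_
    · show w x * _ = w y * _
      rw [hw.per x y (hle h)]
      congr 1
      exact Pool.Agent.Y698.SG.Pe.prod (fun i _ => Pool.Agent.Y698.SG.tr_per (π i)) x y (hle2 h)
    · show w x * _ = 0
      rw [hw.zero x (hle h), zero_mul]
    · have h2 : Mu (π j) (fun x => w x * ∏ i ∈ B, tr (π i) x) (κ j * ∏ i ∈ B, (1 : ℂ)) := by
        refine (hκ j (Finset.mem_insert_self _ _)).mul (Pool.Agent.Y698.SG.Mu.prod fun i hi x => ?_)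
        rw [one_mul]
        exact Pool.Agent.Y698.SG.tr_mul (hBs.pd i hi).pr (hB.ne j (Finset.mem_insert_self _ _) i
          (Finset.mem_insert_of_mem hi) (hne i hi).symm) x
      intro x
      have h3 := h2 x
      rw [Finset.prod_const_one, mul_one] at h3
      exact h3

/-! ### the test function -/

variable (L Ω p q)

/-- the test function -/
noncomputable def Hf (e : ℕ) (z : ℂ) : ℂ := Xe L Ω p q e (al * (bl * z)) -
  uu ^ e * (kap L p q (tB Ω) (al * (bl * z)) - uu * kap L p q (tB Ω) (al * z))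

/-- the constant -/
noncomputable def Ce (e : ℕ) : ℂ := q ^ e * (bl ^ e / al * e.factorial)

/-- the weighted sum -/
noncomputable def SH (e : ℕ) (m : RR) (w : RR → ℂ) : ℂ :=
  ∑ᶠ x : RR ⧸ sp m, w x.out * Hf L Ω p q e (Ω * x.out / m)

variable {L Ω p q}

lemma Hf_NN (h : LD L Ω) (hpq : ∀ l ∈ L.lattice, eta L l = p * l + q * (starRingEnd ℂ) l)
    (e : ℕ) {z : ℂ} (hz : Od L z) : Hf L Ω p q e z = Ce q e * NN L Ω p q e (bl * z) -
      uu ^ e * al⁻¹ * (NN L Ω p q 0 (bl * z) - uu * NN L Ω p q 0 z) := by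
  have hL := h.lat
  have g1 := (hz.bl hL).al' hL
  have g0 := hz.al' hL
  unfold Hf Ce
  rw [NN_Xe h hpq e g1.ne (g1.addB hL).1 (g1.addB hL).2, NN_kap h hpq g1.ne, NN_kap h hpq g0.ne]
  have := al_ne
  field_simp

lemma v_Hf (h : LD L Ω) (hpq : ∀ l ∈ L.lattice, eta L l = p * l + q * (starRingEnd ℂ) l)
    (hv : v al < 1) {z : ℂ} (hz : Od L z) (j : ℕ) :
    v (Hf L Ω p q (2 * (j + 1)) z) ≤ v 4 := by
  have hL := h.lat
  have h1 := v_H h hpq hv (hkr h hpq) (hz.al' hL) j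
  have e1 : bl * (al * z) = al * (bl * z) := by ring
  rw [e1] at h1
  exact h1

lemma Hf_neg (h : LD L Ω) (hpq : ∀ l ∈ L.lattice, eta L l = p * l + q * (starRingEnd ℂ) l)
    (e : ℕ) {z : ℂ} (hz : Od L z) : Hf L Ω p q e (-z) = -Hf L Ω p q e z := by
  have hL := h.lat
  rw [Hf_NN h hpq e hz, Hf_NN h hpq e hz.neg]
  have e1 : bl * -z = -(bl * z) := by ring
  rw [e1, NN_neg hpq hL e ((hz.bl hL).al' hL).ne, NN_neg hpq hL 0 ((hz.bl hL).al' hL).ne,
    NN_neg hpq hL 0 (hz.al' hL).ne]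
  ring

lemma Hf_per (h : LD L Ω) (hpq : ∀ l ∈ L.lattice, eta L l = p * l + q * (starRingEnd ℂ) l)
    (e : ℕ) {z w : ℂ} (hz : Od L z) (hw : Od L w) (hzw : w - z ∈ L.lattice) :
    Hf L Ω p q e w = Hf L Ω p q e z := by
  have hL := h.lat
  rw [Hf_NN h hpq e hz, Hf_NN h hpq e hw]
  have e1 : bl * w - bl * z ∈ L.lattice := by
    rw [← mul_sub]
    exact bl_mem hL hzw
  rw [NN_per hpq hL e ((hz.bl hL).al' hL).ne e1, NN_per hpq hL 0 ((hz.bl hL).al' hL).ne e1,
    NN_per hpq hL 0 (hz.al' hL).ne hzw]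

/-- multiplication by `bR` is a bijection -/
lemma bij_bR {m : RR} (hm : Mo m) :
    Function.Bijective (fun y : RR ⧸ sp m => Ideal.Quotient.mk (sp m) (bR * y.out)) := by
  have hu : IsUnit (Ideal.Quotient.mk (sp m) bR) := by
    obtain ⟨r, hr⟩ := hm
    refine IsUnit.of_mul_eq_one (Ideal.Quotient.mk (sp m) (-(aR * r))) ?_
    rw [← map_mul, ← map_one (Ideal.Quotient.mk (sp m)), Ideal.Quotient.mk_eq_mk_iff_sub_mem,
      Ideal.mem_span_singleton']
    exact ⟨-1, by rw [hr]; linear_combination r * aR_mul_bR⟩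
  obtain ⟨u, hu⟩ := hu
  have e1 : (fun y : RR ⧸ sp m => Ideal.Quotient.mk (sp m) (bR * y.out)) =
      fun y => (Units.mulLeft u) y := by
    funext y
    rw [map_mul, Ideal.Quotient.mk_out, Units.mulLeft_apply, hu]
  rw [e1]
  exact (Units.mulLeft u).bijective

/-- the sum at the multiples by `bl` -/
lemma Sn_bl (hL : IsLat L RR Ω)
    (hpq : ∀ l ∈ L.lattice, eta L l = p * l + q * (starRingEnd ℂ) l) (e : ℕ) {m : RR}
    (hm : Mo m) [Fintype (RR ⧸ sp m)] {w : RR → ℂ} (hw : We m w) {μ : ℂ} (hμ : μ ^ 2 = 1)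
    (hb : Mu bR w μ) :
    ∑ x : RR ⧸ sp m, w x.out * NN L Ω p q e (bl * (Ω * x.out / m)) =
      μ * Sn L Ω p q e m w := by
  rw [Sn_eq, sum_rep _ (bij_bR hm) (fun x : RR => w x * NN L Ω p q e (Ω * x / m))
    (fun x y h => Sn_term hpq hL e hm hw h), Finset.mul_sum]
  refine Finset.sum_congr rfl fun x _ => ?_
  rw [hb x.out]
  have e1 : Ω * ((bR * x.out : RR) : ℂ) / m = bl * (Ω * x.out / m) := by
    push_cast
    rw [bR_coe]
    ring
  rw [e1]
  linear_combination (-(w x.out * NN L Ω p q e (bl * (Ω * x.out / m)))) * hμ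

theorem SH_eq (h : LD L Ω) (hpq : ∀ l ∈ L.lattice, eta L l = p * l + q * (starRingEnd ℂ) l)
    (e : ℕ) {m : RR} (hm : Mo m) {w : RR → ℂ} (hw : We m w) {μ : ℂ} (hμ : μ ^ 2 = 1)
    (hb : Mu bR w μ) :
    SH L Ω p q e m w = Ce q e * μ * Sn L Ω p q e m w -
      uu ^ e * al⁻¹ * (μ - uu) * Sn L Ω p q 0 m w := by
  have hL := h.lat
  have f1 := fin_quot hm.ne
  let _ : Fintype (RR ⧸ sp m) := Fintype.ofFinite _
  have h1 := Sn_bl hL hpq e hm hw hμ hb
  have h2 := Sn_bl hL hpq 0 hm hw hμ hb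
  have h3 : SH L Ω p q e m w = ∑ x : RR ⧸ sp m, (Ce q e *
      (w x.out * NN L Ω p q e (bl * (Ω * x.out / m))) -
      uu ^ e * al⁻¹ * (w x.out * NN L Ω p q 0 (bl * (Ω * x.out / m))) +
      uu ^ e * al⁻¹ * uu * (w x.out * NN L Ω p q 0 (Ω * x.out / m))) := by
    unfold SH
    rw [finsum_eq_sum_of_fintype]
    refine Finset.sum_congr rfl fun x _ => ?_
    by_cases hx : x.out ∈ sp m
    · rw [hw.zero _ hx]
      ring
    · rw [Hf_NN h hpq e (pt_od hL hm hx)]
      ring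
  rw [h3, Finset.sum_add_distrib, Finset.sum_sub_distrib, ← Finset.mul_sum, ← Finset.mul_sum,
    ← Finset.mul_sum, h1, h2, ← Sn_eq]
  ring

/-- the pairing bound -/
theorem v_SH (h : LD L Ω) (hpq : ∀ l ∈ L.lattice, eta L l = p * l + q * (starRingEnd ℂ) l)
    (hv : v al < 1) {m : RR} (hm : Mo m) {w : RR → ℂ} (hw : We m w)
    (ho : ∀ x, w (-x) = -w x) (hb : ∀ x, v (w x) ≤ 1) (j : ℕ) :
    v (SH L Ω p q (2 * (j + 1)) m w) ≤ v 2 * v 4 := by
  classical
  have hL := h.lat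
  have f1 := fin_quot hm.ne
  let _ : Fintype (RR ⧸ sp m) := Fintype.ofFinite _
  set e := 2 * (j + 1) with he
  have h4 : v 4 ≠ 0 := (Valuation.ne_zero_iff v).2 (by norm_num)
  have hterm : ∀ x y : RR, x - y ∈ sp m → w x * Hf L Ω p q e (Ω * x / m) =
      w y * Hf L Ω p q e (Ω * y / m) := by
    intro x y hxy
    rw [hw.per _ _ hxy]
    by_cases hy : y ∈ sp m
    · rw [hw.zero y hy, zero_mul, zero_mul]
    · have hx : x ∉ sp m := fun hx => hy (by
        have := sub_mem hx hxy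
        rwa [sub_sub_cancel] at this)
      congr 1
      refine Hf_per h hpq e (pt_od hL hm hy) (pt_od hL hm hx) ?_
      have h1 := (div_mem_iff hL hm.ne (x - y)).2 hxy
      convert h1 using 1
      push_cast
      ring
  have hneg : ∀ x : RR, w (-x) * Hf L Ω p q e (Ω * ((-x : RR) : ℂ) / m) =
      w x * Hf L Ω p q e (Ω * x / m) := by
    intro x
    rw [ho]
    by_cases hx : x ∈ sp m
    · rw [hw.zero x hx]
      ring
    · have e1 : Ω * ((-x : RR) : ℂ) / m = -(Ω * x / m) := by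
        push_cast
        ring
      rw [e1, Hf_neg h hpq e (pt_od hL hm hx)]
      ring
  have hz : w (Quotient.out (0 : RR ⧸ sp m)) = 0 := by
    apply hw.zero
    rw [← Ideal.Quotient.eq_zero_iff_mem, Ideal.Quotient.mk_out]
  have h1 : SH L Ω p q e m w = 4 * ∑ x ∈ (Finset.univ : Finset (RR ⧸ sp m)).erase 0,
      (w x.out * Hf L Ω p q e (Ω * x.out / m) / 4) := by
    unfold SH
    rw [finsum_eq_sum_of_fintype, ← Finset.add_sum_erase _ _ (Finset.mem_univ (0 : RR ⧸ sp m)),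
      hz, zero_mul, zero_add, Finset.mul_sum]
    exact Finset.sum_congr rfl fun x _ => by ring
  rw [h1, map_mul, mul_comm]
  refine mul_le_mul_left (v_sum_pair' _ ?_ ?_ _ ?_ ?_) _
  · intro x hx
    rw [Finset.mem_erase] at hx ⊢
    exact ⟨neg_ne_zero.2 hx.1, Finset.mem_univ _⟩
  · intro x hx hxx
    have hx0 := (Finset.mem_erase.1 hx).1
    have h2 : (2 : RR ⧸ sp m) * x = 0 := by
      rw [two_mul]
      nth_rewrite 1 [← hxx]
      rw [neg_add_cancel]
    obtain ⟨u, hu⟩ := hm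
    have h3 : Ideal.Quotient.mk (sp m) m = 0 :=
      Ideal.Quotient.eq_zero_iff_mem.2 (Ideal.mem_span_singleton_self _)
    have h5 : Ideal.Quotient.mk (sp m) m = 1 + 2 * Ideal.Quotient.mk (sp m) u := by
      have h6 : Ideal.Quotient.mk (sp m) m = Ideal.Quotient.mk (sp m) (1 + 2 * u) :=
        congrArg _ hu
      rw [h6, map_add, map_mul, map_one]
      rfl
    have h6 := h5.symm.trans h3
    apply hx0
    linear_combination x * h6 - (Ideal.Quotient.mk (sp m) u) * h2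
  · intro x _
    have h2 : (-x).out - -x.out ∈ sp m := by
      rw [← Ideal.Quotient.mk_eq_mk_iff_sub_mem, Ideal.Quotient.mk_out, map_neg,
        Ideal.Quotient.mk_out]
    rw [hterm _ _ h2, hneg]
  · intro x hx
    have hx0 := (Finset.mem_erase.1 hx).1
    have hxm : x.out ∉ sp m := fun h2 => hx0 (by
      rw [← Ideal.Quotient.mk_out x]
      exact Ideal.Quotient.eq_zero_iff_mem.2 h2)
    rw [map_div₀]
    refine div_le_one_of_le₀ ?_ zero_le
    rw [map_mul]
    exact (mul_le_of_le_one_left zero_le (hb _)).trans (v_Hf h hpq hv (pt_od hL hm hxm) j)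

end Run7.h359.BK
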