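import Mathlib

/-!
# Representations by commuting involutions, and their characters
-/

set_option autoImplicit false

namespace Run7.h359.TP

open Matrix Module

section diag

variable {G : Type*} {κ : Type} [Fintype κ] [DecidableEq κ]

/-- simultaneous diagonalisation -/
theorem exists_basis (A : G → Matrix κ κ ℂ) (hc : ∀ a b, A a * A b = A b * A a)
    (hs : ∀ a, A a * A a = 1) :
    ∃ (b : Basis κ ℂ (κ → ℂ)) (χ : G → κ → ℂ), ∀ a j, Matrix.toLin' (A a) (b j) = χ a j • b j := by
  classical
  set f : G → End ℂ (κ → ℂ) := fun a => Matrix.toLin' (A a) with hf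
  have hcom : Pairwise fun i j => Commute (f i) (f j) := by
    intro i j _
    show (Matrix.toLin' (A i)).comp (Matrix.toLin' (A j)) =
      (Matrix.toLin' (A j)).comp (Matrix.toLin' (A i))
    rw [← Matrix.toLin'_mul, ← Matrix.toLin'_mul, hc]
  have hsq : ∀ a, f a * f a = 1 := by
    intro a
    show (Matrix.toLin' (A a)).comp (Matrix.toLin' (A a)) = 1
    rw [← Matrix.toLin'_mul, hs, Matrix.toLin'_one]
    rfl
  have hss : ∀ a, (f a).IsFinitelySemisimple := by
    intro a
    rw [End.isFinitelySemisimple_iff_isSemisimple]
    refine End.isSemisimple_of_squarefree_aeval_eq_zero (p := Polynomial.X ^ 2 - Polynomial.C 1) ?_ ?_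
    · refine (Polynomial.separable_X_pow_sub_C (1 : ℂ) (by norm_num) one_ne_zero).squarefree
    · rw [map_sub, map_pow, Polynomial.aeval_X, Polynomial.aeval_C, pow_two, hsq]
      simp
  have htop := End.iSup_iInf_maxGenEigenspace_eq_top_of_iSup_maxGenEigenspace_eq_top_of_commute
    f hcom (fun i => End.iSup_maxGenEigenspace_eq_top (f i))
  set S : Set (κ → ℂ) := {v | ∀ a, ∃ μ : ℂ, f a v = μ • v} with hS
  have hspan : ⊤ ≤ Submodule.span ℂ S := by
    rw [← htop]
    refine iSup_le fun χ => ?_
    intro v hv
    refine Submodule.subset_span fun a => ⟨χ a, ?_⟩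
    have h1 : v ∈ (f a).maxGenEigenspace (χ a) := (Submodule.mem_iInf _).1 hv a
    rw [(hss a).maxGenEigenspace_eq_eigenspace] at h1
    exact End.mem_eigenspace_iff.1 h1
  set b0 := Basis.ofSpan hspan with hb0
  have hfin : Finite ((linearIndepOn_empty ℂ (id : (κ → ℂ) → (κ → ℂ))).extend (Set.empty_subset S)) :=
    Module.Finite.finite_basis b0
  have _ := Fintype.ofFinite
    ((linearIndepOn_empty ℂ (id : (κ → ℂ) → (κ → ℂ))).extend (Set.empty_subset S))
  have hcard : Fintype.card
      ((linearIndepOn_empty ℂ (id : (κ → ℂ) → (κ → ℂ))).extend (Set.empty_subset S)) =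
      Fintype.card κ := by
    rw [← Module.finrank_eq_card_basis b0, Module.finrank_fintype_fun_eq_card]
  set e := Fintype.equivOfCardEq hcard with he
  have hmem : ∀ j, (b0.reindex e) j ∈ S := by
    intro j
    rw [Basis.reindex_apply]
    exact Basis.ofSpan_subset hspan ⟨_, rfl⟩
  choose χ hχ using hmem
  exact ⟨b0.reindex e, fun a j => χ j a, fun a j => hχ j a⟩

/-- the characters -/
theorem exists_char [Group G] (A : G → Matrix κ κ ℂ)
    (hm : ∀ a b, A (a * b) = A a * A b) (hc : ∀ a b, A a * A b = A b * A a)
    (hs : ∀ a, A a * A a = 1) :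
    ∃ χ : κ → G → ℂ, (∀ j a b, χ j (a * b) = χ j a * χ j b) ∧ (∀ j a, χ j a ^ 2 = 1) ∧
      (∀ j a, A a = 1 → χ j a = 1) ∧
      ∀ (a : G) (y z : ℂ), (1 - y • A a + z • A a ^ 2).det = ∏ j, (1 - χ j a * y + χ j a ^ 2 * z) := by
  obtain ⟨b, χ, h⟩ := exists_basis A hc hs
  have hb : ∀ j, b j ≠ 0 := fun j => b.ne_zero j
  have hinj : ∀ j {x y : ℂ}, x • b j = y • b j → x = y := by
    intro j x y hxy
    exact smul_left_injective ℂ (hb j) hxy
  refine ⟨fun j a => χ a j, fun j a c => ?_, fun j a => ?_, fun j a ha => ?_, fun a y z => ?_⟩
  · apply hinj j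
    rw [← h, hm, Matrix.toLin'_mul, LinearMap.comp_apply, h, map_smul, h, smul_smul]
    congr 1
    ring
  · apply hinj j
    rw [pow_two, ← smul_smul, ← h, ← map_smul, ← h, ← LinearMap.comp_apply, ← Matrix.toLin'_mul, hs,
      Matrix.toLin'_one, one_smul]
    rfl
  · apply hinj j
    rw [← h, ha, Matrix.toLin'_one, one_smul]
    rfl
  · rw [← LinearMap.det_toLin' (1 - y • A a + z • A a ^ 2),
      ← LinearMap.det_toMatrix b]
    have e : LinearMap.toMatrix b b (Matrix.toLin' (1 - y • A a + z • A a ^ 2)) =
        Matrix.diagonal fun j => (1 - χ a j * y + χ a j ^ 2 * z) := by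
      ext i j
      rw [LinearMap.toMatrix_apply]
      have e1 : Matrix.toLin' (1 - y • A a + z • A a ^ 2) (b j) =
          (1 - χ a j * y + χ a j ^ 2 * z) • b j := by
        rw [map_add, map_sub, map_smul, map_smul, Matrix.toLin'_one, pow_two, Matrix.toLin'_mul]
        simp only [LinearMap.add_apply, LinearMap.sub_apply, LinearMap.smul_apply,
          LinearMap.comp_apply, LinearMap.id_apply, h, map_smul, smul_smul]
        rw [add_smul, sub_smul, one_smul]
        congr 2
        · ring_nf
        · ring_nf
      rw [e1, map_smul, Finsupp.smul_apply, Basis.repr_self, Matrix.diagonal_apply]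
      by_cases hij : i = j
      · subst hij
        simp
      · rw [if_neg hij, Finsupp.single_eq_of_ne hij]
        simp
    rw [e, Matrix.det_diagonal]

end diag

section char

variable {G : Type*} [Group G] {ι : Type*}

/-- A character which is trivial on the common kernel of quadratic characters is a product of some of
them. -/
theorem exists_prod [Fintype ι] {π : ι → G → ℂ} (hπ : ∀ i g, π i g = 1 ∨ π i g = -1)
    (hπm : ∀ i g h, π i (g * h) = π i g * π i h) {χ : G → ℂ} (hχ : ∀ g, χ g = 1 ∨ χ g = -1)
    (hχm : ∀ g h, χ (g * h) = χ g * χ h) (hk : ∀ g, (∀ i, π i g = 1) → χ g = 1) :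
    ∃ T : Finset ι, ∀ g, χ g = ∏ i ∈ T, π i g := by
  classical
  have main : ∀ U : Finset ι, ∃ T : Finset ι, ∀ g, (∀ i, i ∉ U → π i g = 1) →
      χ g = ∏ i ∈ T, π i g := by
    intro U
    induction U using Finset.induction_on with
    | empty => exact ⟨∅, fun g hg => by rw [hk g fun i => hg i (Finset.notMem_empty i)]; simp⟩
    | insert u U hu ih =>
      obtain ⟨T, hT⟩ := ih
      have hpm : ∀ g, ∏ i ∈ T, π i g = 1 ∨ ∏ i ∈ T, π i g = -1 := by
        intro g
        induction T using Finset.induction_on with
        | empty => exact Or.inl (by simp)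
        | insert x T hx _ => 
          have : ∀ S : Finset ι, ∏ i ∈ S, π i g = 1 ∨ ∏ i ∈ S, π i g = -1 := by
            intro S
            induction S using Finset.induction_on with
            | empty => exact Or.inl (by simp)
            | insert y S hy ih2 =>
              rw [Finset.prod_insert hy]
              rcases ih2 with h | h <;> rcases hπ y g with h' | h' <;> rw [h, h'] <;> norm_num
          exact this _
      by_cases hex : ∃ g0, (∀ i, i ∉ insert u U → π i g0 = 1) ∧ π u g0 = -1 ∧
          χ g0 = -∏ i ∈ T, π i g0
      · obtain ⟨g0, h0, h1, h2⟩ := hex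
        refine ⟨symmDiff T {u}, fun g hg => ?_⟩
        have hsd : ∏ i ∈ symmDiff T {u}, π i g = π u g * ∏ i ∈ T, π i g := by
          have hu2 : π u g * π u g = 1 := by
            rcases hπ u g with h | h <;> rw [h] <;> norm_num
          by_cases huT : u ∈ T
          · have e : symmDiff T {u} = T.erase u := by
              ext x
              rw [Finset.mem_symmDiff, Finset.mem_singleton, Finset.mem_erase]
              constructor
              · rintro (⟨h3, h4⟩ | ⟨h3, h4⟩)
                · exact ⟨h4, h3⟩
                · exact absurd (h3 ▸ huT) h4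
              · rintro ⟨h3, h4⟩
                exact Or.inl ⟨h4, h3⟩
            rw [e, ← Finset.mul_prod_erase T (fun i => π i g) huT, ← mul_assoc, hu2, one_mul]
          · have e : symmDiff T {u} = insert u T := by
              ext x
              rw [Finset.mem_symmDiff, Finset.mem_singleton, Finset.mem_insert]
              constructor
              · rintro (⟨h3, h4⟩ | ⟨h3, h4⟩)
                · exact Or.inr h3
                · exact Or.inl h3
              · rintro (h3 | h3)
                · exact Or.inr ⟨h3, h3 ▸ huT⟩
                · refine Or.inl ⟨h3, ?_⟩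
                  rintro rfl
                  exact huT h3
            rw [e, Finset.prod_insert huT]
        rw [hsd]
        rcases hπ u g with h3 | h3
        · rw [h3, one_mul]
          refine hT g fun i hi => ?_
          by_cases hiu : i = u
          · rw [hiu, h3]
          · exact hg i (by rw [Finset.mem_insert]; tauto)
        · have h4 : χ (g * g0) = ∏ i ∈ T, π i (g * g0) := by
            refine hT _ fun i hi => ?_
            rw [hπm]
            by_cases hiu : i = u
            · rw [hiu, h3, h1]
              norm_num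
            · rw [hg i (by rw [Finset.mem_insert]; tauto), h0 i (by rw [Finset.mem_insert]; tauto),
                one_mul]
          have h5 : ∏ i ∈ T, π i (g * g0) = (∏ i ∈ T, π i g) * ∏ i ∈ T, π i g0 := by
            rw [← Finset.prod_mul_distrib]
            exact Finset.prod_congr rfl fun i _ => hπm i g g0
          rw [hχm, h2, h5] at h4
          rw [h3]
          rcases hpm g0 with h6 | h6 <;> rw [h6] at h4
          · linear_combination -h4
          · linear_combination h4
      · refine ⟨T, fun g hg => ?_⟩
        push Not at hex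
        rcases hπ u g with h3 | h3
        · refine hT g fun i hi => ?_
          by_cases hiu : i = u
          · rw [hiu, h3]
          · exact hg i (by rw [Finset.mem_insert]; tauto)
        · have h4 := hex g hg h3
          rcases hχ g with h5 | h5 <;> rcases hpm g with h6 | h6
          · rw [h5, h6]
          · exact absurd (by rw [h5, h6]; norm_num) h4
          · exact absurd (by rw [h5, h6]) h4
          · rw [h5, h6]
  obtain ⟨T, hT⟩ := main Finset.univ
  exact ⟨T, fun g => hT g fun i hi => absurd (Finset.mem_univ i) hi⟩

end char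

end Run7.h359.TP
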