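import Mathlib

/-!
# Frobenius automorphisms and square roots
-/

set_option autoImplicit false

namespace Run7.h359.TP

/-- the algebraic integers -/
abbrev AI : Type := integralClosure ℤ (AlgebraicClosure ℚ)

/-- Euler's criterion -/
theorem frob_sqrt {p : ℕ} [Fact p.Prime] (hp2 : p ≠ 2) {P : Ideal AI} (hP : P.IsPrime)
    (hpP : (p : AI) ∈ P) {σ : AlgebraicClosure ℚ ≃ₐ[ℚ] AlgebraicClosure ℚ}
    (hσ : ∀ x y : AI, (y : AlgebraicClosure ℚ) = σ (x : AlgebraicClosure ℚ) → y - x ^ p ∈ P)
    {x : AlgebraicClosure ℚ} {D : ℤ} (hx : x ^ 2 = (D : AlgebraicClosure ℚ)) (hD : ¬ (p : ℤ) ∣ D) :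
    σ x = ((legendreSym p D : ℤ) : AlgebraicClosure ℚ) * x := by
  have hp : p.Prime := Fact.out
  have hint : IsIntegral ℤ x := by
    refine IsIntegral.of_pow (n := 2) (by norm_num) ?_
    rw [hx]
    exact isIntegral_algebraMap (R := ℤ) (x := D)
  have hsx : (σ x) ^ 2 = (D : AlgebraicClosure ℚ) := by rw [← map_pow, hx, map_intCast]
  have hint' : IsIntegral ℤ (σ x) := by
    refine IsIntegral.of_pow (n := 2) (by norm_num) ?_
    rw [hsx]
    exact isIntegral_algebraMap (R := ℤ) (x := D)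
  set X : AI := ⟨x, hint⟩ with hX
  set Y : AI := ⟨σ x, hint'⟩ with hY
  have hXD : X ^ 2 = (D : AI) := by
    apply Subtype.ext
    rw [hX]
    push_cast
    exact hx
  have h1 : Y - X ^ p ∈ P := hσ X Y rfl
  -- no integer prime to `p` in `P`
  have hno : ∀ m : ℤ, ¬ (p : ℤ) ∣ m → (m : AI) ∉ P := by
    intro m hm hmP
    have hcop : IsCoprime (p : ℤ) m :=
      (Nat.prime_iff_prime_int.1 hp).coprime_iff_not_dvd.2 hm
    obtain ⟨a, b, hab⟩ := hcop
    apply hP.ne_top
    rw [Ideal.eq_top_iff_one]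
    have e : (1 : AI) = (a : AI) * (p : AI) + (b : AI) * (m : AI) := by
      have := congrArg (fun z : ℤ => (z : AI)) hab
      push_cast at this
      exact this.symm
    rw [e]
    exact add_mem (Ideal.mul_mem_left _ _ hpP) (Ideal.mul_mem_left _ _ hmP)
  have hodd : p = 2 * (p / 2) + 1 := by
    have := hp.eq_two_or_odd'
    rcases this with h | h
    · exact absurd h hp2
    · obtain ⟨k, hk⟩ := h
      omega
  have hXp : X ^ p = (D : AI) ^ (p / 2) * X := by
    conv_lhs => rw [hodd, pow_succ, pow_mul, hXD]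
  have hleg : ((D ^ (p / 2) - legendreSym p D : ℤ) : AI) ∈ P := by
    have h2 : ((D ^ (p / 2) - legendreSym p D : ℤ) : ZMod p) = 0 := by
      push_cast
      rw [legendreSym.eq_pow, sub_self]
    rw [ZMod.intCast_zmod_eq_zero_iff_dvd] at h2
    obtain ⟨m, hm⟩ := h2
    rw [hm]
    push_cast
    exact Ideal.mul_mem_right _ _ hpP
  have h3 : Y - (legendreSym p D : AI) * X ∈ P := by
    have e : Y - (legendreSym p D : AI) * X = (Y - X ^ p) +
        ((D ^ (p / 2) - legendreSym p D : ℤ) : AI) * X := by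
      rw [hXp]
      push_cast
      ring
    rw [e]
    exact add_mem h1 (Ideal.mul_mem_right _ _ hleg)
  have hD0 : (D : ZMod p) ≠ 0 := by
    intro h
    exact hD ((ZMod.intCast_zmod_eq_zero_iff_dvd D p).1 h)
  have hXP : X ∉ P := by
    intro h
    refine hno D hD ?_
    rw [← hXD]
    exact P.pow_mem_of_mem h 2 (by norm_num)
  have h2P : ((2 : ℤ) : AI) ∉ P := by
    refine hno 2 fun h => ?_
    have : p ∣ 2 := by exact_mod_cast h
    exact hp2 ((Nat.prime_dvd_prime_iff_eq hp Nat.prime_two).1 this)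
  have hpm : σ x = x ∨ σ x = -x := by
    have h4 : (σ x) ^ 2 = x ^ 2 := by rw [hsx, hx]
    exact sq_eq_sq_iff_eq_or_eq_neg.1 h4
  rcases legendreSym.eq_one_or_neg_one p hD0 with hl | hl <;> rcases hpm with h5 | h5
  · rw [hl, h5]
    push_cast
    ring
  · exfalso
    have e : Y = -X := by
      apply Subtype.ext
      rw [hY, hX]
      exact h5
    rw [hl, e] at h3
    have e2 : -X - ((1 : ℤ) : AI) * X = -(((2 : ℤ) : AI) * X) := by
      push_cast
      ring
    rw [e2, neg_mem_iff] at h3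
    rcases hP.mem_or_mem h3 with h | h
    · exact h2P h
    · exact hXP h
  · exfalso
    have e : Y = X := by
      apply Subtype.ext
      rw [hY, hX]
      exact h5
    rw [hl, e] at h3
    have e2 : X - ((-1 : ℤ) : AI) * X = ((2 : ℤ) : AI) * X := by
      push_cast
      ring
    rw [e2] at h3
    rcases hP.mem_or_mem h3 with h | h
    · exact h2P h
    · exact hXP h
  · rw [hl, h5]
    push_cast
    ring

end Run7.h359.TP
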