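import Pool.Agent.Run7.h359.Lfw
import Pool.Agent.Run7.h359.Tpd
import Pool.Agent.Run7.h359.Tpf

/-!
# The products of the L-functions of several twists, without finitely many Euler factors
-/

set_option autoImplicit false
set_option linter.unusedSectionVars false

namespace Run7.h359.TP

open Pool.Agent.Results.MP_787500_nt.AllWeightsMultiquadraticX49
open Pool.Agent.Y698 Pool.Agent.Y698.SG
open NumberField IsDedekindDomain WeierstrassCurve Pool.Agent.W189.NF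
open Pool.Agent.H921R2.TatePole Pool.Agent.H82R3.EK
open W165.CE (pw pw_eq pw_luc)
open Run7.h401.Fl (MQ ch)
open Run7.h359.EU (pw_smul pw_zero_odd rat_bij rat_ideal)
open Run7.h359.FE
open Run7.h359.WD (W8 GoodW)
open scoped Classical

/-- the inverse of the Euler factor -/
noncomputable def uu (x : ℂ) (p : ℕ) (m : ℕ) (z : ℂ) : ℂ :=
  1 - x * pw (bc p) (ec p) m * (p : ℂ) ^ (-z) + x ^ 2 * ec p ^ m * ((p : ℂ) ^ (-z)) ^ 2

lemma uu_ne {x : ℂ} (hx : x = 0 ∨ x ^ 2 = 1) (p : Nat.Primes) {k : ℕ} (hk : 0 < k) {z : ℂ}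
    (hz : (k : ℝ) ≤ z.re) : uu x p (2 * (k - 1) + 1) z ≠ 0 := by
  obtain ⟨α, β, h1, h2, ha, hb⟩ := roots_p p
  set m := 2 * (k - 1) + 1 with hm
  have hp1 : (1 : ℝ) < (p : ℕ) := by exact_mod_cast p.2.one_lt
  have hp0 : (0 : ℝ) < (p : ℕ) := by linarith
  have hxn : ‖x‖ ≤ 1 := by
    rcases hx with h | h
    · rw [h, norm_zero]
      exact zero_le_one
    · have h3 : ‖x‖ ^ 2 = 1 := by rw [← norm_pow, h, norm_one]
      nlinarith [norm_nonneg x]
  have hQ : ‖((p : ℕ) : ℂ) ^ (-z)‖ = ((p : ℕ) : ℝ) ^ (-z.re) := by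
    rw [Complex.norm_natCast_cpow_of_pos p.2.pos, Complex.neg_re]
  have hmk : (m : ℝ) = 2 * (k : ℝ) - 1 := by
    have : m + 1 = 2 * k := by omega
    have h3 : (m : ℝ) + 1 = 2 * (k : ℝ) := by exact_mod_cast this
    linarith
  have key : ∀ γ : ℂ, ‖γ‖ ≤ Real.sqrt (p : ℕ) → 1 - x * γ ^ m * ((p : ℕ) : ℂ) ^ (-z) ≠ 0 := by
    intro γ hγ h0
    have h3 : x * γ ^ m * ((p : ℕ) : ℂ) ^ (-z) = 1 := (sub_eq_zero.1 h0).symm
    have h4 : ‖x * γ ^ m * ((p : ℕ) : ℂ) ^ (-z)‖ < 1 := by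
      rw [norm_mul, norm_mul, norm_pow, hQ]
      have h5 : ‖γ‖ ^ m ≤ (Real.sqrt (p : ℕ)) ^ m := pow_le_pow_left₀ (norm_nonneg _) hγ m
      have h6 : (Real.sqrt (p : ℕ)) ^ m * ((p : ℕ) : ℝ) ^ (-z.re) < 1 := by
        rw [Real.sqrt_eq_rpow, ← Real.rpow_natCast, ← Real.rpow_mul hp0.le, ← Real.rpow_add hp0]
        refine Real.rpow_lt_one_of_one_lt_of_neg hp1 ?_
        rw [hmk]
        linarith
      have h7 : (0 : ℝ) < ((p : ℕ) : ℝ) ^ (-z.re) := Real.rpow_pos_of_pos hp0 _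
      calc ‖x‖ * ‖γ‖ ^ m * ((p : ℕ) : ℝ) ^ (-z.re) ≤
            1 * (Real.sqrt (p : ℕ)) ^ m * ((p : ℕ) : ℝ) ^ (-z.re) := by
              refine mul_le_mul_of_nonneg_right ?_ h7.le
              exact mul_le_mul hxn h5 (pow_nonneg (norm_nonneg _) _) zero_le_one
        _ < 1 := by rw [one_mul]; exact h6
    rw [h3, norm_one] at h4
    exact lt_irrefl _ h4
  have e : uu x p m z = (1 - x * α ^ m * ((p : ℕ) : ℂ) ^ (-z)) *
      (1 - x * β ^ m * ((p : ℕ) : ℂ) ^ (-z)) := by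
    unfold uu
    rw [pw_eq h1 h2 m, ← h2, mul_pow]
    ring
  rw [e]
  exact mul_ne_zero (key α ha) (key β hb)

lemma hasProd_remove {ι : Type*} {f : ι → ℂ} {a : ℂ} (h : HasProd f a) (B : Finset ι)
    (hB : ∀ p ∈ B, f p ≠ 0) :
    HasProd (fun p => if p ∈ B then 1 else f p) (a * ∏ p ∈ B, (f p)⁻¹) := by
  have h1 : HasProd (fun p => if p ∈ B then (f p)⁻¹ else 1) (∏ p ∈ B, if p ∈ B then (f p)⁻¹ else 1) :=
    hasProd_prod_of_ne_finset_one fun p hp => if_neg hp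
  have h2 : ∏ p ∈ B, (if p ∈ B then (f p)⁻¹ else 1) = ∏ p ∈ B, (f p)⁻¹ :=
    Finset.prod_congr rfl fun p hp => if_pos hp
  rw [h2] at h1
  have h3 := h.mul h1
  have e : (fun p => if p ∈ B then 1 else f p) = fun p => f p * (if p ∈ B then (f p)⁻¹ else 1) := by
    funext p
    by_cases hp : p ∈ B
    · rw [if_pos hp, if_pos hp, mul_inv_cancel₀ (hB p hp)]
    · rw [if_neg hp, if_neg hp, mul_one]
  rw [e]
  exact h3

/-- the primes that divide a number -/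
noncomputable def bad (N : ℕ) : Finset Nat.Primes :=
  N.primeFactors.attach.image fun q => (⟨q.1, Nat.prime_of_mem_primeFactors q.2⟩ : Nat.Primes)

lemma mem_bad {N : ℕ} (hN : N ≠ 0) {p : Nat.Primes} : p ∈ bad N ↔ (p : ℕ) ∣ N := by
  unfold bad
  rw [Finset.mem_image]
  constructor
  · rintro ⟨q, -, rfl⟩
    exact Nat.dvd_of_mem_primeFactors q.2
  · intro h
    exact ⟨⟨p, Nat.mem_primeFactors.2 ⟨p.2, h, hN⟩⟩, Finset.mem_attach _ _, rfl⟩

section main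

variable {n M : ℕ} {d : Fin n → ℕ}

/-- facts on a good pair -/
lemma facts (hG : GoodW M d) : M ≠ 0 ∧ (∀ i, d i ≠ 0) ∧ (∀ p ∈ sf M, p % 4 = 1) ∧
    (∀ T : Finset (Fin n), ∀ p ∈ sf (∏ i ∈ T, d i), p % 4 = 1) ∧
    ∀ T : Finset (Fin n), ∀ {k : ℕ}, Odd k → ∃ G : ℂ → ℂ, Differentiable ℂ G ∧
      (∀ z : ℂ, (k : ℝ) + 1 / 2 < z.re → HasProd (fun p : Nat.Primes =>
        (uu (xx (symmDiff (sf M) (sf (∏ i ∈ T, d i))) p) p (2 * (k - 1) + 1) z)⁻¹) (G z)) ∧
      G (k : ℂ) ≠ 0 := by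
  have hM : M ≠ 0 := by
    obtain ⟨D, k, hk, hD, -, he⟩ := hG ∅
    rw [Finset.prod_empty, mul_one] at he
    rw [he]
    exact mul_ne_zero hD.1.ne_zero (pow_ne_zero 2 hk)
  have hd : ∀ i, d i ≠ 0 := by
    intro i
    obtain ⟨D, k, hk, hD, -, he⟩ := hG {i}
    rw [Finset.prod_singleton] at he
    exact right_ne_zero_of_mul (he ▸ mul_ne_zero hD.1.ne_zero (pow_ne_zero 2 hk))
  choose D m hm hA hR he using hG
  have hsf : ∀ T, symmDiff (sf M) (sf (∏ i ∈ T, d i)) = (D T).primeFactors := by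
    intro T
    rw [← sf_mul hM (pr_ne hd T), he T, sf_mul_sq (hA T).1.ne_zero (hm T), sf_sqf (hA T).1]
  have hpm : ∀ T, ∀ p ∈ (D T).primeFactors, p % 4 = 1 := by
    intro T p hp
    exact (hA T).2.2 p (Nat.prime_of_mem_primeFactors hp) (Nat.dvd_of_mem_primeFactors hp)
  have hM4 : ∀ p ∈ sf M, p % 4 = 1 := by
    intro p hp
    refine hpm ∅ p ?_
    rw [← hsf ∅, Finset.prod_empty, sf_one]
    have e : symmDiff (sf M) ∅ = sf M := symmDiff_bot (sf M)
    rwa [e]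
  have hd4 : ∀ T : Finset (Fin n), ∀ p ∈ sf (∏ i ∈ T, d i), p % 4 = 1 := by
    intro T p hp
    by_cases h1 : p ∈ sf M
    · exact hM4 p h1
    · refine hpm T p ?_
      rw [← hsf T, Finset.mem_symmDiff]
      exact Or.inr ⟨hp, h1⟩
  refine ⟨hM, hd, hM4, hd4, fun T k hk => ?_⟩
  rw [hsf T]
  exact wide' (hA T).1 (hA T).2.1 (hpm T) (hR T) hk

lemma xx_sd_or (hG : GoodW M d) (T : Finset (Fin n)) (p : Nat.Primes) :
    xx (symmDiff (sf M) (sf (∏ i ∈ T, d i))) p = 0 ∨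
      xx (symmDiff (sf M) (sf (∏ i ∈ T, d i))) p ^ 2 = 1 := by
  refine xx_or (fun q hq => ?_) p.2
  rw [Finset.mem_symmDiff] at hq
  rcases hq with hq | hq
  · exact (mem_sf.1 hq.1).1
  · exact (mem_sf.1 hq.1).1

/-- **the product of the L-functions, without the factors at the primes that divide `N`** -/
theorem lprod (hG : GoodW M d) {k : ℕ} (hk : Odd k) {N : ℕ} (hN : N ≠ 0) {κ : Type} [Fintype κ]
    (T : κ → Finset (Fin n)) :
    ∃ Λ : ℂ → ℂ, Differentiable ℂ Λ ∧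
      (∀ z : ℂ, (k : ℝ) + 1 / 2 < z.re → HasProd (fun p : Nat.Primes => if (p : ℕ) ∣ N then 1 else
        ∏ j, (uu (xx (symmDiff (sf M) (sf (∏ i ∈ T j, d i))) p) p (2 * (k - 1) + 1) z)⁻¹) (Λ z)) ∧
      Λ (k : ℂ) ≠ 0 := by
  obtain ⟨-, -, -, -, hL⟩ := facts hG
  choose G g1 g2 g3 using fun j => hL (T j) hk
  refine ⟨fun z => ∏ j, (G j z * ∏ p ∈ bad N,
    uu (xx (symmDiff (sf M) (sf (∏ i ∈ T j, d i))) p) p (2 * (k - 1) + 1) z), ?_, fun z hz => ?_, ?_⟩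
  · refine Differentiable.fun_finsetProd fun j _ => (g1 j).mul ?_
    refine Differentiable.fun_finsetProd fun p _ => ?_
    unfold uu
    have hp : ((p : ℕ) : ℂ) ≠ 0 := by exact_mod_cast p.2.ne_zero
    have h1 : Differentiable ℂ fun z : ℂ => ((p : ℕ) : ℂ) ^ (-z) :=
      (differentiable_id.neg).const_cpow (Or.inl hp)
    exact ((differentiable_const _).sub ((differentiable_const _).mul h1)).add
      ((differentiable_const _).mul (h1.pow 2))
  · have hzk : (k : ℝ) ≤ z.re := by linarith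
    have h1 : ∀ j, HasProd (fun p : Nat.Primes => if p ∈ bad N then 1 else
        (uu (xx (symmDiff (sf M) (sf (∏ i ∈ T j, d i))) p) p (2 * (k - 1) + 1) z)⁻¹)
        (G j z * ∏ p ∈ bad N,
          uu (xx (symmDiff (sf M) (sf (∏ i ∈ T j, d i))) p) p (2 * (k - 1) + 1) z) := by
      intro j
      have h2 := hasProd_remove (g2 j z hz) (bad N) fun p _ =>
        inv_ne_zero (uu_ne (xx_sd_or hG (T j) p) p hk.pos hzk)
      simp only [inv_inv] at h2
      convert h2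
    have h3 := hasProd_prod (s := Finset.univ) fun j _ => h1 j
    have e : (fun p : Nat.Primes => if (p : ℕ) ∣ N then 1 else
        ∏ j, (uu (xx (symmDiff (sf M) (sf (∏ i ∈ T j, d i))) p) p (2 * (k - 1) + 1) z)⁻¹) =
        fun p : Nat.Primes => ∏ j, if p ∈ bad N then 1 else
        (uu (xx (symmDiff (sf M) (sf (∏ i ∈ T j, d i))) p) p (2 * (k - 1) + 1) z)⁻¹ := by
      funext p
      by_cases h : (p : ℕ) ∣ N
      · rw [if_pos h]
        exact (Finset.prod_eq_one fun j _ => if_pos ((mem_bad hN).2 h)).symm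
      · rw [if_neg h]
        exact Finset.prod_congr rfl fun j _ => (if_neg fun h' => h ((mem_bad hN).1 h')).symm
    rw [e]
    exact h3
  · refine Finset.prod_ne_zero_iff.2 fun j _ => mul_ne_zero (g3 j) ?_
    refine Finset.prod_ne_zero_iff.2 fun p _ => ?_
    exact uu_ne (xx_sd_or hG (T j) p) p hk.pos (by simp)

end main

end Run7.h359.TP
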