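import Pool.Agent.Run7.h359.Tpa

/-!
# The symbols of the Frobenius automorphisms, and the Euler products with several twists
-/

set_option autoImplicit false
set_option linter.unusedSectionVars false

namespace Run7.h359.TP

open Pool.Agent.Results.MP_787500_nt.AllWeightsMultiquadraticX49
open Pool.Agent.Y698 Pool.Agent.Y698.SG
open NumberField IsDedekindDomain WeierstrassCurve Pool.Agent.W189.NF
open Pool.Agent.H921R2.TatePole Pool.Agent.H82R3.EK
open W165.CE (pw pw_eq pw_luc)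
open Run7.h401.Fl (MQ ch)
open Run7.h359.EU (pw_smul pw_zero_odd rat_bij rat_ideal)
open Run7.h359.FE
open Run7.h359.WD (W8 GoodW)
open scoped Classical

/-! ### The symbols -/

lemma leg_xx {p : ℕ} [Fact p.Prime] (hp2 : p ≠ 2) {a : ℕ} (ha : a ≠ 0)
    (h4 : ∀ q ∈ sf a, q % 4 = 1) (hpa : ¬ p ∣ a) :
    ((legendreSym p (a : ℤ) : ℤ) : ℂ) = xx (sf a) p := by
  have hp : p.Prime := Fact.out
  obtain ⟨m, hm, he⟩ := prod_sf ha
  have hT : ∀ l ∈ sf a, l.Prime ∧ l % 4 = 1 := fun l hl => ⟨(mem_sf.1 hl).1, h4 l hl⟩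
  rw [xx_ch hT]
  congr 1
  show legendreSym p (a : ℤ) = jacobiSym p (∏ l ∈ sf a, l)
  have hodd : Odd p := hp.odd_of_ne_two hp2
  have h1 := jacobiSym.quadratic_reciprocity_one_mod_four (Run7.h401.Fl.prod_mod_four hT) hodd
  have hpm : ¬ p ∣ m := by
    intro h
    apply hpa
    rw [he]
    exact Dvd.dvd.mul_left (dvd_pow h (by norm_num)) _
  have hg : (m : ℤ).gcd (p : ℤ) = 1 := by
    rw [Int.gcd_natCast_natCast]
    exact ((Nat.Prime.coprime_iff_not_dvd hp).2 hpm).symm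
  rw [jacobiSym.legendreSym.to_jacobiSym, ← h1]
  conv_lhs => rw [he]
  push_cast
  rw [jacobiSym.mul_left, jacobiSym.sq_one' hg, mul_one]

/-- the inert primes -/
lemma bc_zero_of {p : ℕ} [Fact p.Prime] (hp2 : p ≠ 2) (h : legendreSym p (-7) = -1) :
    bc p = 0 := by
  have hp : p.Prime := Fact.out
  rcases irr_or_norm hp with hirr | ⟨g, hg⟩
  · exact (bc_inert hirr hp).1
  · exfalso
    set X := cX g
    set Y := cY g
    have h1 : X ^ 2 + X * Y + 2 * Y ^ 2 = p := hg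
    have h2 : (2 * X + Y) ^ 2 + 7 * Y ^ 2 = 4 * p := by rw [← h1]; ring
    have hpp : Prime (p : ℤ) := Nat.prime_iff_prime_int.1 hp
    have hY : ¬ (p : ℤ) ∣ Y := by
      intro hY
      have h3 : (p : ℤ) ∣ (2 * X + Y) ^ 2 := by
        have e : (2 * X + Y) ^ 2 = 4 * p - 7 * Y ^ 2 := by linarith
        rw [e]
        exact dvd_sub (Dvd.intro_left _ rfl) (Dvd.dvd.mul_left (dvd_pow hY (by norm_num)) _)
      have h4 : (p : ℤ) ∣ 2 * X + Y := hpp.dvd_of_dvd_pow h3
      have h5 : (p : ℤ) ∣ 2 * X := (dvd_add_left hY).1 h4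
      have h6 : (p : ℤ) ∣ X := by
        rcases hpp.dvd_or_dvd h5 with h | h
        · exfalso
          have : p ∣ 2 := by exact_mod_cast h
          exact hp2 ((Nat.prime_dvd_prime_iff_eq hp Nat.prime_two).1 this)
        · exact h
      obtain ⟨x, hx⟩ := h6
      obtain ⟨y, hy⟩ := hY
      have h7 : (p : ℤ) * ((x ^ 2 + x * y + 2 * y ^ 2) * p) = p * 1 := by
        rw [hx, hy] at h1
        linear_combination h1
      have h8 := mul_left_cancel₀ hpp.ne_zero h7
      exact hpp.not_unit (isUnit_of_dvd_one (Dvd.intro_left _ h8))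
    have h0 : ((-7 : ℤ) : ZMod p) ≠ 0 := by
      intro h3
      have h4 := (legendreSym.eq_zero_iff p (-7)).2 h3
      rw [h] at h4
      norm_num at h4
    have hYz : (Y : ZMod p) ≠ 0 := fun h3 => hY ((ZMod.intCast_zmod_eq_zero_iff_dvd Y p).1 h3)
    have h3 : ((-7 : ℤ) : ZMod p) = (((2 * X + Y : ℤ) : ZMod p) / (Y : ZMod p)) ^ 2 := by
      have h4 := congrArg (fun t : ℤ => (t : ZMod p)) h2
      push_cast at h4
      rw [ZMod.natCast_self] at h4
      rw [div_pow, eq_div_iff (pow_ne_zero 2 hYz)]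
      push_cast
      linear_combination -h4
    have h5 := (legendreSym.eq_one_iff p h0).2 ⟨_, by rw [h3, pow_two]⟩
    rw [h] at h5
    norm_num at h5

lemma xx_prod {n : ℕ} {d : Fin n → ℕ} (hd : ∀ i, d i ≠ 0) {p : ℕ} (hp : p.Prime)
    (hpd : ∀ i, ¬ p ∣ d i) (T : Finset (Fin n)) :
    xx (sf (∏ i ∈ T, d i)) p = ∏ i ∈ T, xx (sf (d i)) p := by
  induction T using Finset.induction_on with
  | empty =>
    rw [Finset.prod_empty, Finset.prod_empty, sf_one]
    rfl
  | insert i T hi ih =>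
    rw [Finset.prod_insert hi, Finset.prod_insert hi, sf_mul (hd i) (pr_ne hd T),
      xx_sd (fun q hq => (mem_sf.1 hq).1) hp (Or.inl fun h => ?_), ih]
    have h1 := mem_sf.1 h
    refine hpd i (Nat.dvd_of_factorization_pos ?_)
    intro h2
    rw [h2] at h1
    simp at h1

lemma not_mem_sf {p a : ℕ} (h : ¬ p ∣ a) : p ∉ sf a := by
  intro h1
  have h2 := mem_sf.1 h1
  refine h (Nat.dvd_of_factorization_pos ?_)
  intro h3
  rw [h3] at h2
  simp at h2

lemma xx_all {n M : ℕ} {d : Fin n → ℕ} (hd : ∀ i, d i ≠ 0) {p : ℕ} (hp : p.Prime)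
    (hpd : ∀ i, ¬ p ∣ d i) (hpM : ¬ p ∣ M) (T : Finset (Fin n)) :
    xx (symmDiff (sf M) (sf (∏ i ∈ T, d i))) p = xx (sf M) p * ∏ i ∈ T, xx (sf (d i)) p := by
  rw [xx_sd (fun q hq => (mem_sf.1 hq).1) hp (Or.inl (not_mem_sf hpM)), xx_prod hd hp hpd]

end Run7.h359.TP
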