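import Pool.Agent.Run7.h359.Lnk

/-!
# The 2-adic valuations of the weighted sums of higher weight
-/

set_option autoImplicit false
set_option linter.unusedSectionVars false

open Filter
open scoped Topology PeriodPair

namespace Run7.h359.BK

open H667R3 Pool.Agent.TH936.CW Pool.Agent.TH936.CM
open Pool.Agent.W192.HK (sp)
open Pool.Agent.TH936.PU (coe_ne v_add_le v_sub_le v_mul_le v_pow_le v_mul_lt' v_R)
open Pool.Agent.Y698 (al bl RR aR bR tA tB al_ne bl_ne al_mul_bl al_sq LD aR_coe bR_coe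
  v_two v_bl v_two_lt two_coe aR_mul_bR qr fin_quot fR fR_ne e7 e7_mul e7_per e7_neg e7_eq_zero
  r7 r7_apply e7_Eo cj cj_coe)
open Pool.Agent.Y698.SG (Fam PD sy tr hc Mu Bg Gd Rd S_REC gd mc mr sy_sgn)

variable {L : PeriodPair} {Ω p q : ℂ} {Γ : Type*} [LinearOrderedCommGroupWithZero Γ]
  {v : Valuation ℂ Γ}

/-! ### congruences to one -/

/-- congruent to one -/
def Cg (v : Valuation ℂ Γ) (γ : Γ) (a : ℂ) : Prop := v (a - 1) ≤ γ

lemma Cg.le {γ : Γ} (hγ : γ ≤ 1) {a : ℂ} (h : Cg v γ a) : v a ≤ 1 := by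
  have e : a = (a - 1) + 1 := by ring
  rw [e]
  exact v_add_le (le_trans h hγ) (by rw [map_one])

lemma Cg.mul {γ : Γ} (hγ : γ ≤ 1) {a b : ℂ} (h : Cg v γ a) (h' : Cg v γ b) : Cg v γ (a * b) := by
  have e : a * b - 1 = (a - 1) * b + (b - 1) := by ring
  unfold Cg
  rw [e]
  refine v_add_le ?_ h'
  rw [map_mul]
  exact (mul_le_of_le_one_right zero_le (h'.le hγ)).trans h

lemma Cg.pow {γ : Γ} (hγ : γ ≤ 1) {a : ℂ} (h : Cg v γ a) (n : ℕ) : Cg v γ (a ^ n) := by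
  induction n with
  | zero =>
    unfold Cg
    rw [pow_zero, sub_self, map_zero]
    exact zero_le
  | succ n ih =>
    rw [pow_succ]
    exact ih.mul hγ h

lemma v_four_le (hv : v al < 1) : v 4 ≤ 1 := by
  have e : (4 : ℂ) = 2 * 2 := by norm_num
  rw [e]
  exact v_mul_le (v_two_lt hv).le (v_two_lt hv).le

lemma v_four (v : Valuation ℂ Γ) : v 4 = v 2 ^ 2 := by
  rw [← map_pow]
  norm_num

lemma v_eight (v : Valuation ℂ Γ) : v 8 = v 2 ^ 3 := by
  rw [← map_pow]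
  norm_num

lemma v_one4 (hv : v al < 1) (u : RR) : v (1 + 4 * (u : ℂ)) = 1 := by
  rw [Valuation.map_add_eq_of_lt_left v, map_one]
  rw [map_one]
  have e : (4 : ℂ) * u = 2 * (2 * u) := by ring
  rw [e]
  exact v_mul_lt' (v_two_lt hv) (v_mul_le (v_two_lt hv).le (v_R qr u))

lemma one4_coe (u : RR) : ((1 + 4 * u : RR) : ℂ) = 1 + 4 * (u : ℂ) := by
  push_cast
  rfl

lemma ratio (hv : v al < 1) (u : RR) :
    Cg v (v 4) (((1 + 4 * u : RR) : ℂ) * ((starRingEnd ℂ) ((1 + 4 * u : RR) : ℂ))⁻¹) ∧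
    Cg v (v 8) ((((1 + 4 * u : RR) : ℂ) * ((starRingEnd ℂ) ((1 + 4 * u : RR) : ℂ))⁻¹) ^ 2) := by
  have hc : (starRingEnd ℂ) ((1 + 4 * u : RR) : ℂ) = 1 + 4 * (cj u : ℂ) := by
    rw [one4_coe, map_add, map_one, map_mul, ← cj_coe]
    congr 2
    exact map_ofNat _ 4
  rw [hc, one4_coe]
  have hy := v_one4 hv (cj u)
  have hx := v_one4 hv u
  have hy0 : 1 + 4 * (cj u : ℂ) ≠ 0 := by
    intro h0
    rw [h0, map_zero] at hy
    exact zero_ne_one hy
  have hd : v ((u : ℂ) - cj u) ≤ 1 := v_sub_le (v_R qr u) (v_R qr (cj u))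
  have hs : v (1 + 2 * ((u : ℂ) + cj u)) ≤ 1 := by
    refine v_add_le (by rw [map_one]) (v_mul_le (v_two_lt hv).le ?_)
    exact v_add_le (v_R qr u) (v_R qr (cj u))
  constructor
  · unfold Cg
    have e : (1 + 4 * (u : ℂ)) * (1 + 4 * (cj u : ℂ))⁻¹ - 1 =
        4 * ((u : ℂ) - cj u) * (1 + 4 * (cj u : ℂ))⁻¹ := by
      field_simp
      ring
    rw [e, map_mul, map_mul, map_inv₀, hy, inv_one, mul_one]
    exact mul_le_of_le_one_right zero_le hd
  · unfold Cg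
    have e : ((1 + 4 * (u : ℂ)) * (1 + 4 * (cj u : ℂ))⁻¹) ^ 2 - 1 =
        8 * (((u : ℂ) - cj u) * (1 + 2 * ((u : ℂ) + cj u))) * (1 + 4 * (cj u : ℂ))⁻¹ ^ 2 := by
      field_simp
      ring
    rw [e, map_mul, map_mul, map_pow, map_inv₀, hy, inv_one, one_pow, mul_one]
    exact mul_le_of_le_one_right zero_le (v_mul_le hd hs)

lemma lam_four (hv : v al < 1) (e : ℕ) (u : RR) : Cg v (v 4) (lam e ((1 + 4 * u : RR) : ℂ)) := by
  have h4 := v_four_le hv
  rw [lam_eq]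
  have e1 : ((starRingEnd ℂ) ((1 + 4 * u : RR) : ℂ))⁻¹ ^ e * ((1 + 4 * u : RR) : ℂ) ^ (e + 1) =
      (((1 + 4 * u : RR) : ℂ) * ((starRingEnd ℂ) ((1 + 4 * u : RR) : ℂ))⁻¹) ^ e *
        ((1 + 4 * u : RR) : ℂ) := by
    rw [mul_pow]
    ring
  rw [e1]
  refine ((ratio hv u).1.pow h4 e).mul h4 ?_
  unfold Cg
  rw [one4_coe]
  have e2 : 1 + 4 * (u : ℂ) - 1 = 4 * u := by ring
  rw [e2, map_mul]
  exact mul_le_of_le_one_right zero_le (v_R qr u)

lemma lam_diff (hv : v al < 1) (j : ℕ) (u : RR) :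
    v (lam (2 * (j + 1)) ((1 + 4 * u : RR) : ℂ) - lam 0 ((1 + 4 * u : RR) : ℂ)) ≤ v 8 := by
  have h8 : v 8 ≤ 1 := by
    rw [v_eight]
    exact pow_le_one₀ zero_le (v_two_lt hv).le
  rw [lam_zero, lam_eq]
  have e1 : ((starRingEnd ℂ) ((1 + 4 * u : RR) : ℂ))⁻¹ ^ (2 * (j + 1)) *
      ((1 + 4 * u : RR) : ℂ) ^ (2 * (j + 1) + 1) - ((1 + 4 * u : RR) : ℂ) =
      ((((((1 + 4 * u : RR) : ℂ) * ((starRingEnd ℂ) ((1 + 4 * u : RR) : ℂ))⁻¹) ^ 2) ^ (j + 1)) - 1) *
        ((1 + 4 * u : RR) : ℂ) := by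
    rw [← pow_mul, mul_pow]
    ring
  rw [e1, map_mul]
  have h1 := (ratio hv u).2.pow h8 (j + 1)
  have h2 : v ((1 + 4 * u : RR) : ℂ) = 1 := by rw [one4_coe, v_one4 hv u]
  rw [h2, mul_one]
  exact h1

/-- the factors -/
lemma v_fac (hv : v al < 1) (e : ℕ) {ϖ : RR} (h : PD ϖ) {κ : ℂ} (hκ : κ = 1 ∨ κ = -1) :
    v (lam e (ϖ : ℂ) - κ) ≤ v 2 := by
  obtain ⟨u, rfl⟩ := h.m4
  have h1 := lam_four hv e u
  have h42 : v 4 ≤ v 2 := by
    rw [v_four, pow_two]
    exact mul_le_of_le_one_right zero_le (v_two_lt hv).le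
  rcases hκ with rfl | rfl
  · exact le_trans h1 h42
  · have e1 : lam e ((1 + 4 * u : RR) : ℂ) - -1 = (lam e ((1 + 4 * u : RR) : ℂ) - 1) + 2 := by ring
    rw [e1]
    exact v_add_le (le_trans h1 h42) le_rfl

lemma v_facd (hv : v al < 1) (j : ℕ) {ϖ : RR} (h : PD ϖ) :
    v (lam (2 * (j + 1)) (ϖ : ℂ) - lam 0 (ϖ : ℂ)) ≤ v 8 := by
  obtain ⟨u, rfl⟩ := h.m4
  exact lam_diff hv j u

lemma v_prods {ι : Type} (S : Finset ι) (a b : ι → ℂ)
    (ha : ∀ i ∈ S, v (a i) ≤ v 2) (hb : ∀ i ∈ S, v (b i) ≤ v 2)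
    (hab : ∀ i ∈ S, v (a i - b i) ≤ v 8) :
    v (∏ i ∈ S, a i) ≤ v 2 ^ S.card ∧ v (∏ i ∈ S, a i - ∏ i ∈ S, b i) ≤ v 2 ^ (S.card + 2) := by
  classical
  induction S using Finset.induction_on with
  | empty => simp
  | insert i S hi ih =>
    obtain ⟨i1, i2⟩ := ih (fun j hj => ha j (Finset.mem_insert_of_mem hj))
      (fun j hj => hb j (Finset.mem_insert_of_mem hj))
      (fun j hj => hab j (Finset.mem_insert_of_mem hj))
    have hbp : v (∏ j ∈ S, b j) ≤ v 2 ^ S.card := by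
      rw [map_prod]
      calc ∏ j ∈ S, v (b j) ≤ ∏ _j ∈ S, v 2 :=
            Finset.prod_le_prod' fun j hj => hb j (Finset.mem_insert_of_mem hj)
        _ = _ := by rw [Finset.prod_const]
    rw [Finset.prod_insert hi, Finset.prod_insert hi, Finset.card_insert_of_notMem hi]
    constructor
    · rw [map_mul, pow_succ, mul_comm]
      exact mul_le_mul' i1 (ha i (Finset.mem_insert_self _ _))
    · have e : a i * ∏ j ∈ S, a j - b i * ∏ j ∈ S, b j =
          a i * (∏ j ∈ S, a j - ∏ j ∈ S, b j) + (a i - b i) * ∏ j ∈ S, b j := by ring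
      rw [e]
      refine v_add_le ?_ ?_
      · rw [map_mul]
        have e2 : v 2 ^ (S.card + 1 + 2) = v 2 * v 2 ^ (S.card + 2) := by
          rw [← pow_succ']
        rw [e2]
        exact mul_le_mul' (ha i (Finset.mem_insert_self _ _)) i2
      · rw [map_mul]
        have e2 : v 2 ^ (S.card + 1 + 2) = v 8 * v 2 ^ S.card := by
          rw [v_eight, ← pow_add]
          congr 1
          omega
        rw [e2]
        exact mul_le_mul' (hab i (Finset.mem_insert_self _ _)) hbp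

/-! ### the family of sums -/

lemma Mo_fR : Mo fR := by
  refine ⟨aR - 1, ?_⟩
  unfold fR
  ring

lemma e7_aR : e7 aR = 1 := by
  unfold e7
  have h1 : r7 aR = 4 := by
    rw [r7_apply]
    have h2 : Pool.Agent.Y698.cX aR = 0 ∧ Pool.Agent.Y698.cY aR = 1 := Pool.Agent.Y698.cXY_aR
    rw [h2.1, h2.2]
    decide
  rw [h1]
  have h3 : quadraticChar (ZMod 7) 4 = 1 := by decide
  rw [h3]
  norm_num

lemma e7_bR : e7 bR = 1 := by
  have e2 : bR = 1 - aR := rfl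
  unfold e7
  have h1 : r7 bR = 4 := by
    rw [e2, map_sub, map_one, r7_apply]
    have h2 : Pool.Agent.Y698.cX aR = 0 ∧ Pool.Agent.Y698.cY aR = 1 := Pool.Agent.Y698.cXY_aR
    rw [h2.1, h2.2]
    decide
  rw [h1]
  have h3 : quadraticChar (ZMod 7) 4 = 1 := by decide
  rw [h3]
  norm_num

section fam

variable {ι : Type} (π : ι → RR)

/-- the symbol -/
noncomputable def sA (A : Finset ι) (x : RR) : ℂ := ∏ i ∈ A, sy (π i) x

/-- the modulus -/
noncomputable def mA (A : Finset ι) : RR := (∏ i ∈ A, π i) * fR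

/-- the weight -/
noncomputable def wA (A : Finset ι) (x : RR) : ℂ := e7 x * sA π A x

/-- the factor -/
noncomputable def EA [DecidableEq ι] (e : ℕ) (S A : Finset ι) : ℂ :=
  ∏ i ∈ S \ A, (lam e (π i : ℂ) - e7 (π i) * sA π A (π i))

variable {π}

lemma Fam.mo {S : Finset ι} (h : Fam S π) {A : Finset ι} (hA : A ⊆ S) : Mo (mA π A) :=
  (Mo.prod fun i hi => PD_mo (h.pd i (hA hi))).mul Mo_fR

lemma wA_we (A : Finset ι) : We (mA π A) (wA π A) := by
  have hle : sp (mA π A) ≤ sp fR := Ideal.span_singleton_le_span_singleton.2 (Dvd.intro_left _ rfl)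
  have hle2 : sp (mA π A) ≤ sp (∏ i ∈ A, π i) :=
    Ideal.span_singleton_le_span_singleton.2 (Dvd.intro _ rfl)
  refine ⟨fun x y h => ?_, fun x h => ?_⟩
  · unfold wA sA
    rw [e7_per (hle h)]
    congr 1
    exact Pool.Agent.Y698.SG.Pe.prod (fun i _ => Pool.Agent.Y698.SG.sy_per (π i)) x y (hle2 h)
  · unfold wA
    rw [e7_eq_zero.2 (hle h), zero_mul]

lemma sA_mul {S : Finset ι} (h : Fam S π) {A : Finset ι} (hA : A ⊆ S) (x y : RR) :
    sA π A (x * y) = sA π A x * sA π A y := by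
  unfold sA
  rw [← Finset.prod_mul_distrib]
  exact Finset.prod_congr rfl fun i hi => (h.pd i (hA hi)).mul x y

lemma two_odd {ϖ : RR} (h : PD ϖ) {x y : RR} (hxy : x * y = 2) : x ∉ sp ϖ := by
  intro hx
  obtain ⟨u, hu⟩ := h.m4
  rw [Ideal.mem_span_singleton'] at hx
  obtain ⟨c, hc⟩ := hx
  apply h.pr.not_isUnit
  refine IsUnit.of_mul_eq_one (1 - 2 * u * c * y) ?_
  linear_combination hu - 2 * u * hxy - 2 * u * y * hc

lemma sA_sgn {A : Finset ι} {x : RR}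
    (hx : ∀ i ∈ A, x ∉ sp (π i)) : sA π A x = 1 ∨ sA π A x = -1 :=
  (Pool.Agent.Y698.SG.sgn_prod fun i hi => sy_sgn (hx i hi)).1

lemma sA_b {S : Finset ι} (h : Fam S π) {A : Finset ι} (hA : A ⊆ S) :
    sA π A bR = 1 ∨ sA π A bR = -1 :=
  sA_sgn fun i hi => two_odd (h.pd i (hA hi)) (by rw [mul_comm]; exact aR_mul_bR)

lemma sA_a {S : Finset ι} (h : Fam S π) {A : Finset ι} (hA : A ⊆ S) :
    sA π A aR = 1 ∨ sA π A aR = -1 :=
  sA_sgn fun i hi => two_odd (h.pd i (hA hi)) aR_mul_bR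

lemma sq_of_sgn {z : ℂ} (h : z = 1 ∨ z = -1) : z ^ 2 = 1 := by
  rcases h with rfl | rfl <;> norm_num

lemma Mu_wA {S : Finset ι} (h : Fam S π) {A : Finset ι} (hA : A ⊆ S) (x : RR) :
    Mu x (wA π A) (e7 x * sA π A x) := by
  intro m
  unfold wA
  rw [e7_mul, sA_mul h hA]
  ring

variable (L Ω p q π)

/-- the sums -/
noncomputable def SE (e : ℕ) (A : Finset ι) : ℂ := Sn L Ω p q e (mA π A) (wA π A)

/-- the combination -/
noncomputable def cA (e : ℕ) (A : Finset ι) : ℂ := Ce q e * sA π A bR * SE L Ω p q π e A -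
  uu ^ e * al⁻¹ * (sA π A bR - uu) * SE L Ω p q π 0 A

variable {L Ω p q π}

/-- the sums with primes removed -/
lemma SE_rems [DecidableEq ι] (hL : IsLat L RR Ω)
    (hpq : ∀ l ∈ L.lattice, eta L l = p * l + q * (starRingEnd ℂ) l) (e : ℕ) {S : Finset ι}
    (h : Fam S π) {A : Finset ι} (hA : A ⊆ S) :
    Sn L Ω p q e (mA π S) (fun x => wA π A x * ∏ i ∈ S \ A, tr (π i) x) =
      EA π e S A * SE L Ω p q π e A := by
  have h1 := Sn_rems hL hpq e (Fam.mo h hA) (wA_we (π := π) A)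
    (fun i => e7 (π i) * sA π A (π i)) (S \ A) (h.mono Finset.sdiff_subset)
    (fun i _ => Mu_wA h hA (π i))
  have e1 : (∏ i ∈ S \ A, π i) * mA π A = mA π S := by
    unfold mA
    rw [← mul_assoc, Finset.prod_sdiff hA]
  rw [e1] at h1
  exact h1

/-- the recursion -/
theorem rec_SH [DecidableEq ι] (h : LD L Ω)
    (hpq : ∀ l ∈ L.lattice, eta L l = p * l + q * (starRingEnd ℂ) l) (e : ℕ) {S : Finset ι}
    (hS : Fam S π) :
    ∑ A ∈ S.powerset, (Ce q e * sA π A bR * (EA π e S A * SE L Ω p q π e A) -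
      uu ^ e * al⁻¹ * (sA π A bR - uu) * (EA π 0 S A * SE L Ω p q π 0 A)) =
    2 ^ S.card * SH L Ω p q e (mA π S) (fun x => e7 x * ∏ i ∈ S, hc (π i) x) := by
  have hL := h.lat
  have hm := Fam.mo hS (Finset.Subset.refl S)
  have f1 := fin_quot hm.ne
  let _ : Fintype (RR ⧸ sp (mA π S)) := Fintype.ofFinite _
  have h1 : ∀ A ∈ S.powerset, (Ce q e * sA π A bR * (EA π e S A * SE L Ω p q π e A) -
      uu ^ e * al⁻¹ * (sA π A bR - uu) * (EA π 0 S A * SE L Ω p q π 0 A)) =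
      SH L Ω p q e (mA π S) (fun x => wA π A x * ∏ i ∈ S \ A, tr (π i) x) := by
    intro A hA
    rw [Finset.mem_powerset] at hA
    rw [← SE_rems hL hpq e hS hA, ← SE_rems hL hpq 0 hS hA]
    symm
    have hle : sp (mA π S) ≤ sp (mA π A) := by
      refine Ideal.span_singleton_le_span_singleton.2 ?_
      refine ⟨∏ i ∈ S \ A, π i, ?_⟩
      unfold mA
      rw [← Finset.prod_sdiff hA]
      ring
    have hle2 : sp (mA π S) ≤ sp (∏ i ∈ S \ A, π i) := by
      refine Ideal.span_singleton_le_span_singleton.2 ?_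
      refine ⟨(∏ i ∈ A, π i) * fR, ?_⟩
      unfold mA
      rw [← Finset.prod_sdiff hA]
      ring
    refine SH_eq h hpq e hm ⟨fun x y hxy => ?_, fun x hx => ?_⟩ (sq_of_sgn (sA_b hS hA)) ?_
    · show wA π A x * _ = wA π A y * _
      rw [(wA_we (π := π) A).per x y (hle hxy)]
      congr 1
      exact Pool.Agent.Y698.SG.Pe.prod (fun i _ => Pool.Agent.Y698.SG.tr_per (π i)) x y (hle2 hxy)
    · show wA π A x * _ = 0
      rw [(wA_we (π := π) A).zero x (hle hx), zero_mul]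
    · have h2 := (Mu_wA hS hA bR).mul (Pool.Agent.Y698.SG.Mu.prod (q := bR) (S := S \ A)
        (f := fun i => tr (π i)) (κ := fun _ => 1) fun i hi x => by
          rw [one_mul]
          exact Pool.Agent.Y698.SG.tr_mul (hS.pd i (Finset.sdiff_subset hi)).pr
            (two_odd (hS.pd i (Finset.sdiff_subset hi)) (by rw [mul_comm]; exact aR_mul_bR)) x)
      rw [Finset.prod_const_one, mul_one, e7_bR, one_mul] at h2
      exact h2
  rw [Finset.sum_congr rfl h1]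
  unfold SH
  simp only [finsum_eq_sum_of_fintype]
  rw [Finset.sum_comm, Finset.mul_sum]
  refine Finset.sum_congr rfl fun x _ => ?_
  rw [← Finset.sum_mul]
  have h2 : ∏ i ∈ S, (sy (π i) x.out + tr (π i) x.out) =
      ∑ A ∈ S.powerset, (∏ i ∈ A, sy (π i) x.out) * ∏ i ∈ S \ A, tr (π i) x.out :=
    Finset.prod_add _ _ _
  have h3 : ∏ i ∈ S, (sy (π i) x.out + tr (π i) x.out) =
      2 ^ S.card * ∏ i ∈ S, hc (π i) x.out := by
    rw [← Finset.prod_const, ← Finset.prod_mul_distrib]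
    refine Finset.prod_congr rfl fun q _ => ?_
    unfold hc
    ring
  have h4 : ∑ A ∈ S.powerset, wA π A x.out * ∏ i ∈ S \ A, tr (π i) x.out =
      e7 x.out * (2 ^ S.card * ∏ i ∈ S, hc (π i) x.out) := by
    rw [← h3, h2, Finset.mul_sum]
    refine Finset.sum_congr rfl fun A _ => ?_
    unfold wA sA
    ring
  rw [h4]
  ring

end fam

end Run7.h359.BK
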