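import Pool.Agent.Run7.h359.Lid

/-!
# Multiplication formulas, and the derivatives in the first variable
-/

set_option autoImplicit false
set_option linter.unusedSectionVars false

open Filter
open scoped Topology PeriodPair

namespace Run7.h359.BK

open H667R3 Pool.Agent.TH936.CW Pool.Agent.TH936.CM
open Pool.Agent.Y698 (al bl RR aR bR tA tB al_ne bl_ne al_mul_bl al_sq tA_mem tB_mem two_tA two_tB
  tA_notMem tB_notMem tC_notMem roots_dist LD aR_coe bR_coe ker_al ker_bl isLat_neg_mem al_im_pos)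
open Pool.Agent.W245.EB (scL mem_scL wpExcept_eq)

variable {L : PeriodPair} {Ω p q : ℂ}

/-- the multiplication formula for an isogeny of degree two -/
theorem mul_gen {c t : ℂ} (hc : c ≠ 0) (hcl : ∀ l ∈ L.lattice, c * l ∈ L.lattice)
    (hct : c * t ∈ L.lattice) (ht : t ∉ L.lattice) (h2t : 2 * t ∈ L.lattice)
    (hk : ∀ l, c * l ∈ L.lattice → l ∈ L.lattice ∨ l - t ∈ L.lattice) {z : ℂ}
    (hz : c * z ∉ L.lattice) :
    c ^ 2 * ℘[L] (c * z) = ℘[L] z + ℘[L] (z - t) - ℘[L] t := by
  have hper : ∀ z w : ℂ, z - w ∈ L.lattice → ℘[L] z = ℘[L] w :=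
    fun z w h => Pool.Agent.TH936.PU.wp_per h
  set g : ℂ → ℂ := fun z => c ^ 2 * ℘[L] (c * z) - ℘[L] z - ℘[L] (z - t) with hg
  set G₀ : ℂ → ℂ := fun z => c ^ 2 * ℘[L - (0 : ℂ)] (c * z) - ℘[L - (0 : ℂ)] z -
    ℘[L] (z - t) with hG₀
  have hnot : ∀ z : ℂ, z ∉ (scL L c hc).lattice → c * z ∉ L.lattice ∧ z ∉ L.lattice ∧
      z - t ∉ L.lattice := by
    intro z hz
    have h1 : c * z ∉ L.lattice := fun h => hz (mem_scL.2 h)
    refine ⟨h1, fun h => h1 (hcl z h), fun h => h1 ?_⟩
    have h2 := hcl _ h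
    rw [mul_sub] at h2
    have h3 := add_mem h2 hct
    rwa [sub_add_cancel] at h3
  have hdG : DifferentiableAt ℂ G₀ 0 := by
    have h4 := (L.analyticAt_weierstrassPExcept 0).differentiableAt
    apply DifferentiableAt.sub
    · apply DifferentiableAt.sub
      · apply DifferentiableAt.const_mul
        have h5 : DifferentiableAt ℂ ℘[L - (0 : ℂ)] (c * 0) := by rw [mul_zero]; exact h4
        exact DifferentiableAt.comp (0 : ℂ) h5 (by fun_prop)
      · exact h4
    · have h6 : (0 : ℂ) - t ∉ L.lattice := by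
        rw [zero_sub]
        exact fun h => ht (isLat_neg_mem h)
      exact DifferentiableAt.comp (0 : ℂ) (f := fun z => z - t)
        (hasDerivAt_weierstrassP L h6).differentiableAt (by fun_prop)
  have hev : ∀ᶠ z in 𝓝[≠] (0 : ℂ), z ∉ (scL L c hc).lattice := by
    filter_upwards [self_mem_nhdsWithin, mem_nhdsWithin_of_mem_nhds
      ((scL L c hc).compl_lattice_sdiff_singleton_mem_nhds 0)] with w hw hw'
    simp_all
  have heq : ∀ᶠ z in 𝓝[≠] (0 : ℂ), g z = G₀ z := by
    filter_upwards [self_mem_nhdsWithin] with z hz0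
    have hz0' : z ≠ 0 := hz0
    simp only [hg, hG₀]
    rw [wpExcept_eq (mul_ne_zero hc hz0'), wpExcept_eq hz0']
    field_simp
    ring
  have hconst := eq_of_periodic (scL L c hc) g ?_ ?_ G₀ hdG heq
  · have hzs : z ∉ (scL L c hc).lattice := fun h => hz (mem_scL.1 h)
    have hlim1 : Tendsto G₀ (𝓝[≠] 0) (𝓝 (G₀ 0)) :=
      (hdG.continuousAt.tendsto).mono_left nhdsWithin_le_nhds
    have hlim2 : Tendsto G₀ (𝓝[≠] 0) (𝓝 (g z)) := by
      refine tendsto_const_nhds.congr' ?_
      filter_upwards [hev, heq] with w hw1 hw2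
      rw [← hw2]
      exact hconst z w hzs hw1
    have h1 := tendsto_nhds_unique hlim2 hlim1
    simp only [hg, hG₀, mul_zero, zero_sub, L.weierstrassPExcept_zero, L.weierstrassP_neg] at h1
    linear_combination h1
  · intro z hz
    obtain ⟨h1, h2, h3⟩ := hnot z hz
    apply DifferentiableAt.sub
    · apply DifferentiableAt.sub
      · apply DifferentiableAt.const_mul
        exact DifferentiableAt.comp z (hasDerivAt_weierstrassP L h1).differentiableAt (by fun_prop)
      · exact (hasDerivAt_weierstrassP L h2).differentiableAt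
    · exact DifferentiableAt.comp z (f := fun z => z - t)
        (hasDerivAt_weierstrassP L h3).differentiableAt (by fun_prop)
  · intro z hz l hl
    have hl' : c * l ∈ L.lattice := mem_scL.1 hl
    simp only [hg]
    have e1 : ℘[L] (c * (z + l)) = ℘[L] (c * z) := hper _ _ (by rwa [mul_add, add_sub_cancel_left])
    rw [e1]
    rcases hk l hl' with h | h
    · have e2 : ℘[L] (z + l) = ℘[L] z := hper _ _ (by rwa [add_sub_cancel_left])
      have e3 : ℘[L] (z + l - t) = ℘[L] (z - t) := hper _ _ (by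
        have e : z + l - t - (z - t) = l := by ring
        rwa [e])
      rw [e2, e3]
    · have e2 : ℘[L] (z + l) = ℘[L] (z - t) := hper _ _ (by
        have e : z + l - (z - t) = (l - t) + 2 * t := by ring
        rw [e]
        exact add_mem h h2t)
      have e3 : ℘[L] (z + l - t) = ℘[L] z := hper _ _ (by
        have e : z + l - t - z = l - t := by ring
        rwa [e])
      rw [e2, e3]
      ring

theorem mul_bl (hL : IsLat L RR Ω) {z : ℂ} (hz : bl * z ∉ L.lattice) :
    bl ^ 2 * ℘[L] (bl * z) = ℘[L] z + ℘[L] (z - tB Ω) - ℘[L] (tB Ω) :=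
  mul_gen bl_ne (fun _ => bl_mem hL) (tB_mem hL) (tB_notMem hL) (two_tB hL)
    (fun _ => ker_bl hL) hz

/-- the multiplication formula for the zeta function -/
theorem zeta_gen {c t : ℂ} (hc : c ≠ 0) (hcl : ∀ l ∈ L.lattice, c * l ∈ L.lattice)
    (hct : c * t ∈ L.lattice)
    (hm : ∀ z, c * z ∉ L.lattice → c ^ 2 * ℘[L] (c * z) = ℘[L] z + ℘[L] (z - t) - ℘[L] t) :
    ∃ c₂ : ℂ, ∀ z, c * z ∉ L.lattice →
      c * zeta L (c * z) = zeta L z + zeta L (z - t) + ℘[L] t * z + c₂ := by
  set g : ℂ → ℂ := fun z => c * zeta L (c * z) - (zeta L z + zeta L (z - t)) - ℘[L] t * z with hg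
  have hder : ∀ z, z ∉ (scL L c hc).lattice → HasDerivAt g 0 z := by
    intro z hz
    have hz' : c * z ∉ L.lattice := fun h => hz (mem_scL.2 h)
    have hz1 : z ∉ L.lattice := fun h => hz' (hcl z h)
    have hz2 : z - t ∉ L.lattice := fun h => hz' (by
      have h2 := hcl _ h
      rw [mul_sub] at h2
      have h3 := add_mem h2 hct
      rwa [sub_add_cancel] at h3)
    have d1 : HasDerivAt (fun z => c * zeta L (c * z)) (c * (-℘[L] (c * z) * c)) z := by
      have h0 : HasDerivAt (fun x : ℂ => c * x) c z := by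
        simpa using (hasDerivAt_id z).const_mul c
      exact ((hasDerivAt_zeta L hz').comp z h0).const_mul c
    have d2 : HasDerivAt (fun z => zeta L z + zeta L (z - t))
        (-℘[L] z + -℘[L] (z - t)) z :=
      (hasDerivAt_zeta L hz1).add ((hasDerivAt_zeta L hz2).comp_sub_const z _)
    have d3 : HasDerivAt (fun z => ℘[L] t * z) (℘[L] t) z := by
      simpa using (hasDerivAt_id z).const_mul (℘[L] t)
    refine ((d1.fun_sub d2).fun_sub d3).congr_deriv ?_
    have := hm z hz'
    linear_combination -this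
  obtain ⟨z₀, hz₀⟩ : ∃ z₀, z₀ ∉ (scL L c hc).lattice := ⟨_, (scL L c hc).ω₁_div_two_notMem_lattice⟩
  refine ⟨g z₀, fun z hz => ?_⟩
  have h1 : g z = g z₀ :=
    (isOpen_compl (scL L c hc)).is_const_of_deriv_eq_zero
      (isPreconnected_compl (scL L c hc))
      (fun x hx => (hder x hx).differentiableAt.differentiableWithinAt)
      (fun x hx => (hder x hx).deriv) (fun h => hz (mem_scL.1 h)) hz₀
  rw [← h1, hg]
  ring

lemma exists_good {c : ℂ} (hc : c ≠ 0) : ∃ z, c * z ∉ L.lattice := by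
  refine ⟨c⁻¹ * (L.ω₁ / 2), ?_⟩
  rw [mul_inv_cancel_left₀ hc]
  exact L.ω₁_div_two_notMem_lattice

/-- the relations for the quasi-periods -/
theorem pq_rel (hpq : ∀ l ∈ L.lattice, eta L l = p * l + q * (starRingEnd ℂ) l)
    {c t : ℂ} (hc : c ≠ 0) (hcl : ∀ l ∈ L.lattice, c * l ∈ L.lattice)
    (hct : c * t ∈ L.lattice)
    (hm : ∀ z, c * z ∉ L.lattice → c ^ 2 * ℘[L] (c * z) = ℘[L] z + ℘[L] (z - t) - ℘[L] t) :
    p * c ^ 2 - 2 * p - ℘[L] t = 0 ∧ c * (starRingEnd ℂ) c = 2 := by
  obtain ⟨c₂, hc₂⟩ := zeta_gen hc hcl hct hm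
  have h1 : ∀ l ∈ L.lattice, (p * c ^ 2 - 2 * p - ℘[L] t) * l +
      q * (c * (starRingEnd ℂ) c - 2) * (starRingEnd ℂ) l = 0 := by
    intro l hl
    obtain ⟨z, hz⟩ := exists_good (L := L) hc
    have hz1 : z ∉ L.lattice := fun h => hz (hcl z h)
    have hz2 : z - t ∉ L.lattice := fun h => hz (by
      have h2 := hcl _ h
      rw [mul_sub] at h2
      have h3 := add_mem h2 hct
      rwa [sub_add_cancel] at h3)
    have hz' : c * (z + l) ∉ L.lattice := by
      rw [mul_add]
      intro h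
      apply hz
      have := sub_mem h (hcl l hl)
      rwa [add_sub_cancel_right] at this
    have e1 := hc₂ z hz
    have e2 := hc₂ (z + l) hz'
    have e3 : z + l - t = z - t + l := by ring
    rw [mul_add, zeta_add_coe L hz (hcl l hl), hpq _ (hcl l hl), zeta_add_coe L hz1 hl, e3,
      zeta_add_coe L hz2 hl, hpq l hl, map_mul] at e2
    linear_combination e2 - e1
  obtain ⟨h2, h3⟩ := lin_zero L h1
  refine ⟨h2, ?_⟩
  have h4 := (mul_eq_zero.1 h3).resolve_left (q_ne hpq)
  linear_combination h4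

lemma al_four : al - 4 ≠ 0 := by
  intro h
  have h1 := al_im_pos
  have h5 : al = 4 := by linear_combination h
  rw [h5] at h1
  simp at h1

/-- the value of `p` -/
theorem p_eq (h : LD L Ω) (hpq : ∀ l ∈ L.lattice, eta L l = p * l + q * (starRingEnd ℂ) l) :
    p = 1 / 4 := by
  have hL := h.lat
  have h1 := (pq_rel hpq al_ne (fun _ => al_mem hL) (tA_mem hL)
    (fun z hz => Pool.Agent.Y698.mul_al hL hz)).1
  rw [h.ea] at h1
  apply mul_right_cancel₀ al_four
  linear_combination h1 - p * al_sq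

lemma E1_neg (z : ℂ) : E1 L p q (-z) = -E1 L p q z := by
  unfold E1 Xx
  rw [zeta_neg, map_neg]
  ring

/-- the values at the points of order two vanish -/
lemma E1_half (hpq : ∀ l ∈ L.lattice, eta L l = p * l + q * (starRingEnd ℂ) l) {t : ℂ}
    (ht : t ∉ L.lattice) (h2 : 2 * t ∈ L.lattice) : E1 L p q t = 0 := by
  have h3 := E1_per' (p := p) (q := q) hpq (z := -t) (w := t)
    (fun h => ht (isLat_neg_mem h)) (by
      have e : t - -t = 2 * t := by ring
      rwa [e])
  rw [E1_neg] at h3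
  linear_combination (1 / 2 : ℂ) * h3

/-- multiplication for the periodic zeta function -/
theorem E1_gen (hpq : ∀ l ∈ L.lattice, eta L l = p * l + q * (starRingEnd ℂ) l)
    {c t : ℂ} (hc : c ≠ 0) (hcl : ∀ l ∈ L.lattice, c * l ∈ L.lattice)
    (hct : c * t ∈ L.lattice) (ht : t ∉ L.lattice) (h2t : 2 * t ∈ L.lattice)
    (hm : ∀ z, c * z ∉ L.lattice → c ^ 2 * ℘[L] (c * z) = ℘[L] z + ℘[L] (z - t) - ℘[L] t)
    {z : ℂ} (hz : c * z ∉ L.lattice) :
    c * E1 L p q (c * z) = 2 * E1 L p q z + ℘'[L] z / (2 * (℘[L] z - ℘[L] t)) := by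
  obtain ⟨c₂, hc₂⟩ := zeta_gen hc hcl hct hm
  obtain ⟨h1, h2⟩ := pq_rel hpq hc hcl hct hm
  -- the relation with a constant
  have key : ∀ z, c * z ∉ L.lattice → c * E1 L p q (c * z) = E1 L p q z + E1 L p q (z - t) +
      (c₂ - p * t - q * (starRingEnd ℂ) t) := by
    intro z hz
    have h3 := hc₂ z hz
    unfold E1 Xx
    rw [map_sub, map_mul]
    linear_combination h3 - z * h1 - q * (starRingEnd ℂ) z * h2
  have hz1 : z ∉ L.lattice := fun h => hz (hcl z h)
  have hz2 : z - t ∉ L.lattice := fun h => hz (by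
    have h2 := hcl _ h
    rw [mul_sub] at h2
    have h3 := add_mem h2 hct
    rwa [sub_add_cancel] at h3)
  have hz3 : z + t ∉ L.lattice := fun h => hz2 (by
    have := sub_mem h h2t
    convert this using 1
    ring)
  have k1 := key z hz
  have k2 := key (-z) (by rw [mul_neg]; exact fun h => hz (isLat_neg_mem h))
  have e1 : E1 L p q (-z - t) = -E1 L p q (z - t) := by
    have e2 : -z - t = -(z + t) := by ring
    rw [e2, E1_neg]
    congr 1
    refine E1_per' hpq hz2 ?_
    have e3 : z + t - (z - t) = 2 * t := by ring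
    rwa [e3]
  rw [mul_neg, E1_neg, E1_neg, e1] at k2
  have k3 : c₂ - p * t - q * (starRingEnd ℂ) t = 0 := by
    linear_combination (-1 / 2 : ℂ) * (k1 + k2)
  rw [k3, add_zero] at k1
  have hnt : -t ∉ L.lattice := fun h => ht (isLat_neg_mem h)
  have e4 : z - t = z + -t := by ring
  have k4 : E1 L p q (z - t) = E1 L p q z + E1 L p q (-t) +
      (℘'[L] z - ℘'[L] (-t)) / (2 * (℘[L] z - ℘[L] (-t))) := by
    rw [e4]
    exact E1_add hz1 hnt (by rwa [← e4]) (by rwa [sub_neg_eq_add])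
  rw [E1_neg, E1_half hpq ht h2t, L.weierstrassP_neg, L.derivWeierstrassP_neg,
    Pool.Agent.Y698.dwp_half h2t, neg_zero, sub_zero, add_zero] at k4
  rw [k1, k4]
  ring

/-! ### the derivatives in the first variable -/

lemma kap_deriv (hpq : ∀ l ∈ L.lattice, eta L l = p * l + q * (starRingEnd ℂ) l) {t : ℂ}
    (ht : t ∉ L.lattice) (h2t : 2 * t ∈ L.lattice) {z : ℂ} (hz : z ∉ L.lattice)
    (h1 : z + t ∉ L.lattice) (h2 : z - t ∉ L.lattice) :
    HasDerivAt (kap L p q t) ((1 / 2 + Lc L z t) * kap L p q t z) z := by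
  have hsz := sigma_ne_zero L hz
  have hst := sigma_ne_zero L ht
  have d1 : HasDerivAt (fun z => Complex.exp (-(p * z * t) - q * (starRingEnd ℂ) t * z))
      (Complex.exp (-(p * z * t) - q * (starRingEnd ℂ) t * z) *
        (-(p * t) - q * (starRingEnd ℂ) t)) z := by
    refine HasDerivAt.cexp ?_
    have e1 := (((hasDerivAt_id z).const_mul p).mul_const t).neg
    have e2 := (hasDerivAt_id z).const_mul (q * (starRingEnd ℂ) t)
    refine (e1.sub e2).congr_deriv ?_
    ring
  have d2 : HasDerivAt (fun z => sigma L (z + t)) (zeta L (z + t) * sigma L (z + t)) z :=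
    (sigma_deriv h1).comp_add_const z t
  have d3 := (sigma_deriv hz).mul_const (sigma L t)
  have d4 := (d1.mul d2).div d3 (mul_ne_zero hsz hst)
  refine d4.congr_deriv ?_
  have hne := xc_ne hz ht h1 h2
  have hza := zeta_add L hz ht h1 h2
  have hh := Lc_half hne
  have hzt := zeta_half hpq ht h2t
  have e5 : 1 / 2 + Lc L z t = zeta L (z + t) - zeta L z - p * t - q * (starRingEnd ℂ) t := by
    rw [hza, ← hh, hzt]
    ring
  rw [e5]
  unfold kap
  simp only [Pi.mul_apply]
  field_simp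
  ring

/-- the derivative along multiplication by `al` -/
lemma ev_al (h : LD L Ω) (hpq : ∀ l ∈ L.lattice, eta L l = p * l + q * (starRingEnd ℂ) l)
    (v : ℂ) {z : ℂ} (hz : al * z ∉ L.lattice) (h1 : al * z + tB Ω ∉ L.lattice)
    (h2 : al * z - tB Ω ∉ L.lattice) (P : P6 ℂ) :
    HasDerivAt (fun z => MvPolynomial.eval (pt6 L p q v (al * z) (tB Ω)) P *
        kap L p q (tB Ω) (al * z))
      (MvPolynomial.eval (pt6 L p q v (al * z) (tB Ω)) (dZ ℂ (al / 2) al P) *
        kap L p q (tB Ω) (al * z)) z := by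
  have hL := h.lat
  have d0 : HasDerivAt (fun z : ℂ => al * z) al z := by
    simpa using (hasDerivAt_id z).const_mul al
  have d1 := (evZ (q := q) h.g2 h.g3 (p_eq h hpq) v hz (tB_notMem hL) h1 h2 P).comp z d0
  have d2 := (kap_deriv hpq (tB_notMem hL) (two_tB hL) hz h1 h2).comp z d0
  have d3 := d1.mul d2
  refine d3.congr_deriv ?_
  simp only [Function.comp_apply]
  unfold dZ
  rw [tZ_apply, map_add, MvPolynomial.smul_eval, MvPolynomial.smul_eval, map_add, map_mul,
    MvPolynomial.eval_X]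
  have h9 : pt6 L p q v (al * z) (tB Ω) 3 = Lc L (al * z) (tB Ω) := rfl
  rw [h9]
  ring

lemma iter_al (h : LD L Ω) (hpq : ∀ l ∈ L.lattice, eta L l = p * l + q * (starRingEnd ℂ) l)
    (v : ℂ) (P : P6 ℂ) (n : ℕ) : ∀ z, al * z ∉ L.lattice → al * z + tB Ω ∉ L.lattice →
    al * z - tB Ω ∉ L.lattice →
    iteratedDeriv n (fun z => MvPolynomial.eval (pt6 L p q v (al * z) (tB Ω)) P *
        kap L p q (tB Ω) (al * z)) z =
      MvPolynomial.eval (pt6 L p q v (al * z) (tB Ω)) ((dZ ℂ (al / 2) al)^[n] P) *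
        kap L p q (tB Ω) (al * z) := by
  induction n with
  | zero =>
    intro z _ _ _
    rw [iteratedDeriv_zero, Function.iterate_zero, id_eq]
  | succ n ih =>
    intro z hz h1 h2
    rw [iteratedDeriv_succ]
    have ho : ∀ᶠ s in 𝓝 z, al * s ∉ L.lattice ∧ al * s + tB Ω ∉ L.lattice ∧
        al * s - tB Ω ∉ L.lattice := by
      have o1 : ∀ᶠ s in 𝓝 z, al * s ∉ L.lattice := by
        have c : ContinuousAt (fun s : ℂ => al * s) z := by fun_prop
        exact c.eventually ((isOpen_compl L).mem_nhds hz)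
      have o2 : ∀ᶠ s in 𝓝 z, al * s + tB Ω ∉ L.lattice := by
        have c : ContinuousAt (fun s : ℂ => al * s + tB Ω) z := by fun_prop
        exact c.eventually ((isOpen_compl L).mem_nhds h1)
      have o3 : ∀ᶠ s in 𝓝 z, al * s - tB Ω ∉ L.lattice := by
        have c : ContinuousAt (fun s : ℂ => al * s - tB Ω) z := by fun_prop
        exact c.eventually ((isOpen_compl L).mem_nhds h2)
      filter_upwards [o1, o2, o3] with s a b c
      exact ⟨a, b, c⟩
    have h3 : iteratedDeriv n (fun z => MvPolynomial.eval (pt6 L p q v (al * z) (tB Ω)) P *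
        kap L p q (tB Ω) (al * z)) =ᶠ[𝓝 z]
        fun z => MvPolynomial.eval (pt6 L p q v (al * z) (tB Ω)) ((dZ ℂ (al / 2) al)^[n] P) *
        kap L p q (tB Ω) (al * z) := by
      filter_upwards [ho] with s hs
      exact ih s hs.1 hs.2.1 hs.2.2
    rw [h3.deriv_eq, Function.iterate_succ_apply']
    exact (ev_al h hpq v hz h1 h2 _).deriv

lemma evz_iter (v : ℂ) (P : PP) (n : ℕ) : ∀ z, z ∉ L.lattice →
    iteratedDeriv n (fun z => evz L p q v z P) z = evz L p q v z ((Dv p L.g₂)^[n] P) := by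
  induction n with
  | zero =>
    intro z _
    rw [iteratedDeriv_zero, Function.iterate_zero, id_eq]
  | succ n ih =>
    intro z hz
    rw [iteratedDeriv_succ]
    have h3 : iteratedDeriv n (fun z => evz L p q v z P) =ᶠ[𝓝 z]
        fun z => evz L p q v z ((Dv p L.g₂)^[n] P) := by
      filter_upwards [(isOpen_compl L).mem_nhds hz] with s hs
      exact ih s hs
    rw [h3.deriv_eq, Function.iterate_succ_apply']
    exact (evz_deriv L p q hz v _).deriv

/-- the function `X_e` -/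
noncomputable def Xe (L : PeriodPair) (Ω p q : ℂ) (e : ℕ) (z : ℂ) : ℂ :=
  MvPolynomial.eval (pt6 L p q ((starRingEnd ℂ) z) z (tB Ω)) ((dZ ℂ (al / 2) al)^[e] (Pe ℂ e)) *
    kap L p q (tB Ω) z

/-- **The values of `X_e`.** -/
theorem Xe_eq (h : LD L Ω) (hpq : ∀ l ∈ L.lattice, eta L l = p * l + q * (starRingEnd ℂ) l)
    (e : ℕ) {z : ℂ} (hz : al * z ∉ L.lattice) (h1 : al * z + tB Ω ∉ L.lattice)
    (h2 : al * z - tB Ω ∉ L.lattice) :
    Xe L Ω p q e (al * z) = bl ^ e / al * e.factorial *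
      (ek L p q e z - ek L p q e (z + tA Ω)) := by
  have hL := h.lat
  obtain ⟨g1, g2⟩ := good_one hL hz
  set v := (starRingEnd ℂ) z with hv
  have ev : (starRingEnd ℂ) (al * z) = bl * v := by rw [map_mul, conj_al']
  -- the open set
  have ho : ∀ᶠ s in 𝓝 z, al * s ∉ L.lattice ∧ al * s + tB Ω ∉ L.lattice ∧
      al * s - tB Ω ∉ L.lattice := by
    have o1 : ∀ᶠ s in 𝓝 z, al * s ∉ L.lattice := by
      have c : ContinuousAt (fun s : ℂ => al * s) z := by fun_prop
      exact c.eventually ((isOpen_compl L).mem_nhds hz)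
    have o2 : ∀ᶠ s in 𝓝 z, al * s + tB Ω ∉ L.lattice := by
      have c : ContinuousAt (fun s : ℂ => al * s + tB Ω) z := by fun_prop
      exact c.eventually ((isOpen_compl L).mem_nhds h1)
    have o3 : ∀ᶠ s in 𝓝 z, al * s - tB Ω ∉ L.lattice := by
      have c : ContinuousAt (fun s : ℂ => al * s - tB Ω) z := by fun_prop
      exact c.eventually ((isOpen_compl L).mem_nhds h2)
    filter_upwards [o1, o2, o3] with s a b c
    exact ⟨a, b, c⟩
  have hid : (fun s => MvPolynomial.eval (pt6 L p q (bl * v) (al * s) (tB Ω)) (Pe ℂ e) *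
      kap L p q (tB Ω) (al * s)) =ᶠ[𝓝 z]
      fun s => bl ^ e / (al * (e + 1)) * (evz L p q v s (Aa L p (e + 1)) -
        evz L p q (v + (starRingEnd ℂ) (tA Ω)) (s + tA Ω) (Aa L p (e + 1))) := by
    filter_upwards [ho] with s hs
    have k1 := lid hL hpq e v hs.1
    unfold Br at k1
    rw [← k1]
    unfold Ae
    rw [GG_iterW h.g2 h.g3 (bl * v) hs.1 e (tB Ω) (tB_notMem hL) hs.2.1 hs.2.2, GG_t]
  have k2 := hid.iteratedDeriv_eq e
  rw [iter_al h hpq (bl * v) (Pe ℂ e) e z hz h1 h2, iteratedDeriv_const_mul_field] at k2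
  have a1 : AnalyticAt ℂ (fun s => evz L p q v s (Aa L p (e + 1))) z := evz_an L p q v g1 _
  have a2 : AnalyticAt ℂ (fun s => evz L p q (v + (starRingEnd ℂ) (tA Ω)) (s + tA Ω)
      (Aa L p (e + 1))) z :=
    AnalyticAt.fun_comp (f := fun z : ℂ => z + tA Ω)
        (g := fun z => evz L p q (v + (starRingEnd ℂ) (tA Ω)) z (Aa L p (e + 1)))
        (evz_an L p q _ g2 _) (by fun_prop)
  have k3 : iteratedDeriv e (fun s => evz L p q v s (Aa L p (e + 1)) -
      evz L p q (v + (starRingEnd ℂ) (tA Ω)) (s + tA Ω) (Aa L p (e + 1))) z =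
      evz L p q v z ((Dv p L.g₂)^[e] (Aa L p (e + 1))) -
      evz L p q (v + (starRingEnd ℂ) (tA Ω)) (z + tA Ω) ((Dv p L.g₂)^[e] (Aa L p (e + 1))) := by
    have k4 := iteratedDeriv_sub (n := e) a1.contDiffAt a2.contDiffAt
    refine k4.trans ?_
    rw [evz_iter v _ e z g1]
    congr 1
    have k5 : iteratedDeriv e (fun s => evz L p q (v + (starRingEnd ℂ) (tA Ω)) (s + tA Ω)
        (Aa L p (e + 1))) z = iteratedDeriv e (fun s => evz L p q (v + (starRingEnd ℂ) (tA Ω)) s
        (Aa L p (e + 1))) (z + tA Ω) := by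
      have := congrFun (iteratedDeriv_comp_add_const e (fun s => evz L p q
        (v + (starRingEnd ℂ) (tA Ω)) s (Aa L p (e + 1))) (tA Ω)) z
      exact this
    rw [k5, evz_iter _ _ e _ g2]
  rw [k3] at k2
  have k6 : ∀ v z, evz L p q v z (Pp L p e) = 1 / ((e + 1).factorial : ℂ) *
      evz L p q v z ((Dv p L.g₂)^[e] (Aa L p (e + 1))) := by
    intro v z
    unfold evz Pp
    rw [ev_mul, ev_C]
  unfold Xe
  rw [ev, k2]
  unfold ek
  rw [k6, k6, map_add, ← hv]
  have hal := al_ne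
  have he : (e : ℂ) + 1 ≠ 0 := by exact_mod_cast e.succ_ne_zero
  have hf : (e.factorial : ℂ) ≠ 0 := by exact_mod_cast e.factorial_ne_zero
  rw [Nat.factorial_succ]
  push_cast
  field_simp

end Run7.h359.BK
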